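import Mathlib.Analysis.InnerProductSpace.PiL2
import Mathlib.Analysis.Calculus.IteratedDeriv.Defs

/-! Reversible Finsler metrics on the unit sphere of Euclidean 3-space, given by their energy
`L = F ^ 2 / 2`, their unit speed geodesics, and the Zoll property. -/

open scoped ContDiff RealInnerProductSpace

namespace Pool.Agent.MP_2291e2_gt.Zl

/-- Euclidean 3-space. -/
abbrev E : Type := EuclideanSpace ℝ (Fin 3)

/-- Pairs of linearly independent vectors: an open neighbourhood of the slit tangent bundle of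
the unit sphere. -/
def Ind : Set (E × E) := {u | LinearIndependent ℝ ![u.1, u.2]}

/-- `w` is a nonzero tangent vector of the unit sphere at the point `x`. -/
def Tan (x w : E) : Prop := ‖x‖ = 1 ∧ ⟪x, w⟫ = 0 ∧ w ≠ 0

/-- `L` is (a smooth extension of) the energy `F ^ 2 / 2` of a smooth, reversible, strongly convex
Finsler metric `F` on the unit sphere. -/
structure IsFinsler (L : E × E → ℝ) : Prop where
  smooth : ContDiffOn ℝ ∞ L Ind
  pos : ∀ x w, Tan x w → 0 < L (x, w)
  hom : ∀ x w, Tan x w → ∀ t : ℝ, t ≠ 0 → L (x, t • w) = t ^ 2 * L (x, w)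
  convex : ∀ x w z, Tan x w → Tan x z → 0 < iteratedDeriv 2 (fun t : ℝ => L (x, w + t • z)) 0

/-- `c` is a unit speed geodesic: a curve on the sphere with `F (c, c') = 1` that solves the
Euler-Lagrange equation of `L` on the sphere. -/
structure IsGeodesic (L : E × E → ℝ) (c : ℝ → E) : Prop where
  smooth : ContDiff ℝ 2 c
  tangent : ∀ t, Tan (c t) (deriv c t)
  unit : ∀ t, L (c t, deriv c t) = 1 / 2
  euler : ∀ t z, ⟪c t, z⟫ = 0 →
    deriv (fun s => fderiv ℝ L (c s, deriv c s) (0, z)) t = fderiv ℝ L (c t, deriv c t) (z, 0)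

/-- Every unit tangent vector is the initial velocity of a unit speed geodesic. -/
def IsComplete (L : E × E → ℝ) : Prop :=
  ∀ x w, Tan x w → L (x, w) = 1 / 2 → ∃ c, IsGeodesic L c ∧ c 0 = x ∧ deriv c 0 = w

/-- A Zoll Finsler metric: all geodesics are simple closed curves of one length `l`. -/
def IsZoll (L : E × E → ℝ) : Prop :=
  IsFinsler L ∧ ∃ l : ℝ, 0 < l ∧
    ∀ c, IsGeodesic L c → Function.Periodic c l ∧ Set.InjOn c (Set.Ico 0 l)

/-- The statement of the main theorem. -/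
def MainStmt : Prop :=
  ∀ L₀ : E × E → ℝ, IsZoll L₀ →
    ∃ (L : ℝ → E × E → ℝ) (ψ : E → E),
      ContDiffOn ℝ ∞ (fun q : ℝ × (E × E) => L q.1 q.2) (Set.univ ×ˢ Ind) ∧
      (∀ s, IsZoll (L s) ∧ IsComplete (L s)) ∧
      (∀ x w, Tan x w → L 0 (x, w) = L₀ (x, w)) ∧
      ContDiffOn ℝ ∞ ψ {0}ᶜ ∧ Set.BijOn ψ (Metric.sphere 0 1) (Metric.sphere 0 1) ∧
      ∀ x w, Tan x w → L 1 (x, w) = ‖fderiv ℝ ψ x w‖ ^ 2 / 2

end Pool.Agent.MP_2291e2_gt.Zl
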