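import Mathlib.Tactic.Monotonicity.Lemmas
import Mathlib.MeasureTheory.Integral.IntervalIntegral.FundThmCalculus
import Mathlib.MeasureTheory.Integral.IntervalIntegral.Periodic
import Mathlib.Analysis.SpecialFunctions.SmoothTransition
import Mathlib.Analysis.Calculus.FDeriv.Symmetric
import Mathlib.Analysis.Calculus.ImplicitContDiff
import Mathlib.Analysis.SpecialFunctions.Trigonometric.Bounds
import Mathlib.Order.CompletePartialOrder
import Pool.Agent.MP_2291e2_gt.zl.Spec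

-- ======== part 0: formerly Pool.Agent.MP_2291e2_gt.zl.B2a
section MrgPart0

/-! Shared lemmas, part a: calculus of `dW`, `V` and of families. -/

open scoped ContDiff RealInnerProductSpace Topology
open Set Filter Real

namespace Pool.Agent.MP_2291e2_gt.Zl

section calc1
variable {F : Type*} [NormedAddCommGroup F] [NormedSpace ℝ F]

lemma dW_fst (u : P) (ξ : E) : dW (fun w : P => w.1) u ξ = cr ξ u.1 := by
  simp only [dW]; rw [show (fun w : P => w.1) = Prod.fst from rfl, fderiv_fst]; rfl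
lemma dW_snd (u : P) (ξ : E) : dW (fun w : P => w.2) u ξ = cr ξ u.2 := by
  simp only [dW]; rw [show (fun w : P => w.2) = Prod.snd from rfl, fderiv_snd]; rfl
lemma dW_const (a : F) (u : P) (ξ : E) : dW (fun _ : P => a) u ξ = 0 := by simp [dW]
lemma dW_neg (f : P → F) (u : P) (ξ : E) : dW (fun w => -f w) u ξ = -dW f u ξ := by
  simp [dW, fderiv_fun_neg]
lemma dW_fadd {f g : P → F} {u : P} (hf : DifferentiableAt ℝ f u) (hg : DifferentiableAt ℝ g u)
    (ξ : E) : dW (fun w => f w + g w) u ξ = dW f u ξ + dW g u ξ := by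
  simp [dW, fderiv_fun_add hf hg]
lemma dW_fsub {f g : P → F} {u : P} (hf : DifferentiableAt ℝ f u) (hg : DifferentiableAt ℝ g u)
    (ξ : E) : dW (fun w => f w - g w) u ξ = dW f u ξ - dW g u ξ := by
  simp [dW, fderiv_fun_sub hf hg]
lemma dW_fsmul {c : P → ℝ} {g : P → F} {u : P} (hc : DifferentiableAt ℝ c u)
    (hg : DifferentiableAt ℝ g u) (ξ : E) :
    dW (fun w => c w • g w) u ξ = dW c u ξ • g u + c u • dW g u ξ := by
  simp [dW, fderiv_fun_smul hc hg, add_comm]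
lemma dW_csmul (c : ℝ) {g : P → F} {u : P} (hg : DifferentiableAt ℝ g u) (ξ : E) :
    dW (fun w => c • g w) u ξ = c • dW g u ξ := by
  simp [dW, fderiv_fun_const_smul hg]
lemma dW_fmul {f g : P → ℝ} {u : P} (hf : DifferentiableAt ℝ f u) (hg : DifferentiableAt ℝ g u)
    (ξ : E) : dW (fun w => f w * g w) u ξ = dW f u ξ * g u + f u * dW g u ξ := by
  simpa using dW_fsmul hf hg ξ
lemma dW_finv {f : P → ℝ} {u : P} (hf : DifferentiableAt ℝ f u) (h0 : f u ≠ 0) (ξ : E) :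
    dW (fun w => (f w)⁻¹) u ξ = -dW f u ξ / f u ^ 2 := by
  have := ((hasDerivAt_inv h0).comp_hasFDerivAt u hf.hasFDerivAt).fderiv
  simp only [dW]
  rw [show (fun w => (f w)⁻¹) = (fun y : ℝ => y⁻¹) ∘ f from rfl, this]
  simp; ring
lemma dW_fdiv {f g : P → ℝ} {u : P} (hf : DifferentiableAt ℝ f u) (hg : DifferentiableAt ℝ g u)
    (h0 : g u ≠ 0) (ξ : E) :
    dW (fun w => f w / g w) u ξ = (dW f u ξ * g u - f u * dW g u ξ) / g u ^ 2 := by
  simp only [div_eq_mul_inv]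
  rw [dW_fmul (g := fun w => (g w)⁻¹) hf (hg.inv h0), dW_finv hg h0]
  field_simp; ring
lemma dW_inner {f g : P → E} {u : P} (hf : DifferentiableAt ℝ f u) (hg : DifferentiableAt ℝ g u)
    (ξ : E) : dW (fun w => ⟪f w, g w⟫) u ξ = ⟪dW f u ξ, g u⟫ + ⟪f u, dW g u ξ⟫ :=
  fderiv_inner' hf hg _
lemma dW_normsq {f : P → E} {u : P} (hf : DifferentiableAt ℝ f u) (ξ : E) :
    dW (fun w => ‖f w‖ ^ 2) u ξ = 2 * ⟪f u, dW f u ξ⟫ := by
  simp only [← real_inner_self_eq_norm_sq]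
  rw [dW_inner hf hf, real_inner_comm]; ring
lemma dW_cr {f g : P → E} {u : P} (hf : DifferentiableAt ℝ f u) (hg : DifferentiableAt ℝ g u)
    (ξ : E) : dW (fun w => cr (f w) (g w)) u ξ = cr (dW f u ξ) (g u) + cr (f u) (dW g u ξ) :=
  fderiv_cr hf hg _
lemma dW_dt {f g h : P → E} {u : P} (hf : DifferentiableAt ℝ f u) (hg : DifferentiableAt ℝ g u)
    (hh : DifferentiableAt ℝ h u) (ξ : E) :
    dW (fun w => dt (f w) (g w) (h w)) u ξ = dt (dW f u ξ) (g u) (h u) + dt (f u) (dW g u ξ) (h u)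
      + dt (f u) (g u) (dW h u ξ) := fderiv_dt hf hg hh _
/-- Chain rule when the inner map sends `W u ξ` to `W (g u) η`. -/
lemma dW_comp {f : P → F} {g : P → P} {u : P} {ξ η : E} (hf : DifferentiableAt ℝ f (g u))
    (hg : DifferentiableAt ℝ g u) (h : dW g u ξ = W (g u) η) :
    dW (fun w => f (g w)) u ξ = dW f (g u) η := by
  simp only [dW] at h ⊢
  rw [show (fun w => f (g w)) = f ∘ g from rfl, fderiv_comp u hf hg]
  simp [h]
lemma dW_comp_rt {f : P → F} {u : P} (h : u ∈ U) (hf : DifferentiableAt ℝ f u) (ξ : E) :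
    dW (fun w => f (rt w)) u ξ = dW f u ξ := by
  have e := rt_of_U h
  have := dW_comp (f := f) (g := rt) (u := u) (ξ := ξ) (η := ξ) (by rwa [e])
    (diffAt_of_U contDiffOn_rt h) (by rw [e]; exact fderiv_rt_W h ξ)
  rwa [e] at this
lemma dW_lin (f : P → F) (u : P) : IsLinearMap ℝ (dW f u) :=
  ⟨dW_add f u, fun t a => dW_smul f u t a⟩
/-- Expansion of a linear map on `E` in the standard basis. -/
lemma lin_expand {n : E → F} (h : IsLinearMap ℝ n) (ξ : E) :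
    n ξ = ξ 0 • n (EuclideanSpace.single 0 1) + ξ 1 • n (EuclideanSpace.single 1 1)
      + ξ 2 • n (EuclideanSpace.single 2 1) := by
  rw [← h.map_smul, ← h.map_smul, ← h.map_smul, ← h.map_add, ← h.map_add]
  congr 1
  exact ext3 (by simp) (by simp) (by simp)

lemma contDiffAt_of_U {f : P → F} (hf : ContDiffOn ℝ ∞ f Ind) {u : P} (h : u ∈ U) :
    ContDiffAt ℝ ∞ f u := hf.contDiffAt (Ind_nhds h)
lemma contDiffAt_dW {f : P → F} {u : P} (hf : ContDiffAt ℝ ∞ f u) {ξ : P → E}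
    (hξ : ContDiffAt ℝ ∞ ξ u) : ContDiffAt ℝ ∞ (fun w => dW f w (ξ w)) u :=
  (hf.fderiv_right (m := ∞) (by simp)).clm_apply
    (contDiff_W.contDiffAt.comp u (contDiffAt_id.prodMk hξ))
lemma contDiffAt_V {f : P → F} {u : P} (hf : ContDiffAt ℝ ∞ f u) : ContDiffAt ℝ ∞ (V f) u :=
  contDiffAt_dW hf contDiffAt_fst
/-- The fibre curve of a function that is smooth at the points of `U` is smooth. -/
lemma contDiff_fibre {f : P → F} (hf : ∀ u ∈ U, ContDiffAt ℝ ∞ f u) {u : P} (h : u ∈ U) :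
    ContDiff ℝ ∞ (fun s => f (rho s u)) := by
  rw [contDiff_iff_contDiffAt]
  intro s
  exact (hf _ (rho_mem_U h s)).comp s
    (contDiff_rho.comp (contDiff_id.prodMk contDiff_const)).contDiffAt
lemma deriv_fibre {f : P → F} (hf : ∀ u ∈ U, DifferentiableAt ℝ f u) {u : P} (h : u ∈ U) :
    deriv (fun s => f (rho s u)) = fun s => V f (rho s u) :=
  funext fun s => (hasDerivAt_V h (hf _ (rho_mem_U h s))).deriv
lemma V_congr {f g : P → F} {u : P} (h : u ∈ U) (hf : DifferentiableAt ℝ f u)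
    (hg : DifferentiableAt ℝ g u) (e : ∀ u' ∈ U, f u' = g u') : V f u = V g u :=
  dW_congr h hf hg e _
lemma V_eq_of_hasDerivAt {f : P → F} {u : P} (h : u ∈ U) (hf : DifferentiableAt ℝ f u) {a : F}
    (e : HasDerivAt (fun s => f (rho s u)) a 0) : V f u = a := by
  have := hasDerivAt_V (f := f) h (s := 0) (by simpa using hf)
  simpa using this.unique e
/-- `V f u` only depends on the values along the fibre. -/
lemma V_congr_fibre {f g : P → F} {u : P} (h : u ∈ U) (hf : DifferentiableAt ℝ f u)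
    (hg : DifferentiableAt ℝ g u) (e : ∀ s, f (rho s u) = g (rho s u)) : V f u = V g u := by
  refine V_eq_of_hasDerivAt h hf ?_
  have := hasDerivAt_V (f := g) h (s := 0) (by simpa using hg)
  simpa [← e] using this

lemma fderiv_fderiv_apply {X : Type*} [NormedAddCommGroup X] [NormedSpace ℝ X] {f : X → F}
    {A : X → X} {x : X} (hf : ContDiffAt ℝ ∞ f x) (hA : DifferentiableAt ℝ A x) (δ : X) :
    fderiv ℝ (fun y => fderiv ℝ f y (A y)) x δ
      = fderiv ℝ (fderiv ℝ f) x δ (A x) + fderiv ℝ f x (fderiv ℝ A x δ) := by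
  have h1 : DifferentiableAt ℝ (fderiv ℝ f) x :=
    (hf.fderiv_right (m := 1) (by norm_cast)).differentiableAt (by simp)
  rw [fderiv_clm_apply h1 hA]; simp [add_comm]

lemma snd_symm {X : Type*} [NormedAddCommGroup X] [NormedSpace ℝ X] {f : X → F} {x : X}
    (hf : ContDiffAt ℝ ∞ f x) (a b : X) :
    fderiv ℝ (fderiv ℝ f) x a b = fderiv ℝ (fderiv ℝ f) x b a :=
  (hf.isSymmSndFDerivAt (by simp; norm_cast)).eq a b

lemma fderiv_W_const (u δ : P) (b : E) : fderiv ℝ (fun w => W w b) u δ = W δ b := by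
  let L : P →L[ℝ] P := ((crL b).comp (ContinuousLinearMap.fst ℝ E E)).prod
    ((crL b).comp (ContinuousLinearMap.snd ℝ E E))
  have : (fun w => W w b) = L := by ext w : 1; simp [L, W]
  rw [this, L.fderiv]; simp [L, W]

/-- Commutator of two rotation fields. -/
lemma dW_comm {f : P → F} {u : P} (hf : ContDiffAt ℝ ∞ f u) (a b : E) :
    dW (fun w => dW f w b) u a - dW (fun w => dW f w a) u b = dW f u (cr b a) := by
  have hW : ∀ c : E, DifferentiableAt ℝ (fun w => W w c) u := fun c => by unfold W; fun_prop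
  simp only [dW]
  rw [fderiv_fderiv_apply hf (hW b), fderiv_fderiv_apply hf (hW a), snd_symm hf, fderiv_W_const,
    fderiv_W_const, add_sub_add_left_eq_sub, ← map_sub]
  congr 1
  simp only [W, Prod.mk_sub_mk, Prod.mk.injEq]
  constructor <;> rw [cr_jacobi b a, add_sub_cancel_right]
lemma V_dW_comm {f : P → F} {u : P} (hf : ContDiffAt ℝ ∞ f u) (ξ : E) :
    V (fun w => dW f w ξ) u = dW (V f) u ξ := by
  have hW : DifferentiableAt ℝ (fun w => W w ξ) u := by unfold W; fun_prop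
  have hW' : DifferentiableAt ℝ (fun w : P => W w w.1) u := by unfold W; fun_prop
  have d1 : DifferentiableAt ℝ (fun u : P => u.1) u := differentiableAt_fst
  have d2 : DifferentiableAt ℝ (fun u : P => u.2) u := differentiableAt_snd
  have e : fderiv ℝ (fun w : P => W w w.1) u (W u ξ) = W (W u u.1) ξ := by
    unfold W
    rw [DifferentiableAt.fderiv_prodMk (by fun_prop) (by fun_prop)]
    simp only [ContinuousLinearMap.prod_apply, fderiv_cr d1 d2, fderiv_cr d1 d1]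
    rw [show (fun w : P => w.1) = Prod.fst from rfl, show (fun w : P => w.2) = Prod.snd from rfl,
      fderiv_fst, fderiv_snd]
    simp only [ContinuousLinearMap.coe_fst', ContinuousLinearMap.coe_snd']
    rw [← cr_jacobi, ← cr_jacobi]
  unfold V
  simp only [dW]
  rw [fderiv_fderiv_apply hf hW, fderiv_fderiv_apply hf hW', snd_symm hf, fderiv_W_const, e]

lemma Sm.slice {f : ℝ → P → F} (h : Sm f) (s : ℝ) : ContDiffOn ℝ ∞ (f s) Ind :=
  ContDiffOn.comp (g := fun q : ℝ × P => f q.1 q.2) (f := fun u => (s, u)) h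
    (by fun_prop) (fun _ hu => ⟨trivial, hu⟩)
lemma SmP.slice {f : ℝ → P → F} (h : SmP f) {s : ℝ} (hs : 0 < s) : ContDiffOn ℝ ∞ (f s) Ind :=
  ContDiffOn.comp (g := fun q : ℝ × P => f q.1 q.2) (f := fun u => (s, u)) h
    (by fun_prop) (fun _ hu => ⟨hs, hu⟩)
lemma Sm.smP {f : ℝ → P → F} (h : Sm f) : SmP f :=
  ContDiffOn.mono h (prod_mono (subset_univ _) subset_rfl)
lemma SmP.smU {f : ℝ → P → F} (h : SmP f) : SmU f := fun _ hτ _ hu =>
  ContDiffOn.contDiffAt h (prod_mem_nhds (Ioi_mem_nhds hτ) (Ind_nhds hu))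
omit [NormedSpace ℝ F] in
lemma C0.c0U {f : ℝ → P → F} (h : C0 f) : C0U f :=
  ContinuousOn.mono h (prod_mono subset_rfl U_sub_Ind)

lemma fderiv_slice {X : Type*} [NormedAddCommGroup X] [NormedSpace ℝ X] {f : ℝ → X → F} {s : ℝ}
    {x : X} (h : DifferentiableAt ℝ (fun q : ℝ × X => f q.1 q.2) (s, x)) (δ : X) :
    fderiv ℝ (f s) x δ = fderiv ℝ (fun q : ℝ × X => f q.1 q.2) (s, x) (0, δ) := by
  have := h.hasFDerivAt.comp x ((hasFDerivAt_const s x).prodMk (hasFDerivAt_id x))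
  rw [show f s = (fun q : ℝ × X => f q.1 q.2) ∘ fun y => (s, y) from rfl, this.fderiv]
  simp

lemma hasDerivAt_slice {X : Type*} [NormedAddCommGroup X] [NormedSpace ℝ X] {f : ℝ → X → F} {s : ℝ}
    {x : X} (h : DifferentiableAt ℝ (fun q : ℝ × X => f q.1 q.2) (s, x)) :
    HasDerivAt (fun t => f t x) (fderiv ℝ (fun q : ℝ × X => f q.1 q.2) (s, x) (1, 0)) s :=
  HasFDerivAt.comp_hasDerivAt (l := fun q : ℝ × X => f q.1 q.2) (f := fun t => (t, x)) s
    h.hasFDerivAt ((hasDerivAt_id s).prodMk (hasDerivAt_const s x))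

lemma contDiffAt_fderiv_slice {X : Type*} [NormedAddCommGroup X] [NormedSpace ℝ X]
    {f : ℝ → X → F} {q : ℝ × X} (h : ContDiffAt ℝ ∞ (fun q : ℝ × X => f q.1 q.2) q)
    {A : ℝ × X → X} (hA : ContDiffAt ℝ ∞ A q) :
    ContDiffAt ℝ ∞ (fun q : ℝ × X => fderiv ℝ (f q.1) q.2 (A q)) q := by
  have h1 : ContDiffAt ℝ ∞
      (fun q : ℝ × X => fderiv ℝ (fun q : ℝ × X => f q.1 q.2) q (0, A q)) q :=
    (h.fderiv_right (m := ∞) (by simp)).clm_apply (contDiffAt_const.prodMk hA)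
  refine h1.congr_of_eventuallyEq ?_
  have := (h.of_le (m := 1) (by norm_cast)).eventually (by simp)
  filter_upwards [this] with q' hq'
  exact fderiv_slice (hq'.differentiableAt (by simp)) _

lemma contDiffAt_dW_fam {f : ℝ → P → F} {q : ℝ × P}
    (h : ContDiffAt ℝ ∞ (fun q : ℝ × P => f q.1 q.2) q) {ξ : ℝ × P → E}
    (hξ : ContDiffAt ℝ ∞ ξ q) : ContDiffAt ℝ ∞ (fun q : ℝ × P => dW (f q.1) q.2 (ξ q)) q :=
  contDiffAt_fderiv_slice h (contDiff_W.contDiffAt.comp q (contDiffAt_snd.prodMk hξ))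

lemma Sm.dW {f : ℝ → P → F} (h : Sm f) {ξ : P → E} (hξ : ContDiffOn ℝ ∞ ξ Ind) :
    Sm (fun s u => dW (f s) u (ξ u)) := fun q hq =>
  (contDiffAt_dW_fam (ContDiffOn.contDiffAt h ((isOpen_univ.prod isOpen_Ind).mem_nhds hq))
    ((hξ.contDiffAt (isOpen_Ind.mem_nhds hq.2)).comp q contDiffAt_snd)).contDiffWithinAt
lemma Sm.V {f : ℝ → P → F} (h : Sm f) : Sm (fun s => V (f s)) := h.dW contDiffOn_fst
lemma SmP.dW {f : ℝ → P → F} (h : SmP f) {ξ : P → E} (hξ : ContDiffOn ℝ ∞ ξ Ind) :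
    SmP (fun s u => dW (f s) u (ξ u)) := fun q hq =>
  (contDiffAt_dW_fam (ContDiffOn.contDiffAt h ((isOpen_Ioi.prod isOpen_Ind).mem_nhds hq))
    ((hξ.contDiffAt (isOpen_Ind.mem_nhds hq.2)).comp q contDiffAt_snd)).contDiffWithinAt
lemma SmP.V {f : ℝ → P → F} (h : SmP f) : SmP (fun s => V (f s)) := h.dW contDiffOn_fst
lemma SmU.slice {f : ℝ → P → F} (h : SmU f) {s : ℝ} (hs : 0 < s) {u : P} (hu : u ∈ U) :
    ContDiffAt ℝ ∞ (f s) u :=
  ContDiffAt.comp (g := fun q : ℝ × P => f q.1 q.2) (f := fun u => (s, u)) u (h s hs u hu)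
    (by fun_prop)
lemma SmU.dW {f : ℝ → P → F} (h : SmU f) (ξ : E) : SmU (fun s u => dW (f s) u ξ) :=
  fun τ hτ u hu => contDiffAt_dW_fam (h τ hτ u hu) contDiffAt_const
lemma SmU.V {f : ℝ → P → F} (h : SmU f) : SmU (fun s => V (f s)) :=
  fun τ hτ u hu => contDiffAt_dW_fam (h τ hτ u hu) (contDiffAt_fst.comp _ contDiffAt_snd)
lemma SmU.fibre {f : ℝ → P → F} (h : SmU f) {u : P} (hu : u ∈ U) :
    ContDiffOn ℝ ∞ (fun q : ℝ × ℝ => f q.1 (rho q.2 u)) (Ioi 0 ×ˢ univ) := by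
  intro q hq
  have h2 : ContDiffAt ℝ ∞ (fun q : ℝ × ℝ => (q.1, rho q.2 u)) q :=
    contDiffAt_fst.prodMk (contDiff_rho.comp (contDiff_snd.prodMk contDiff_const)).contDiffAt
  exact (ContDiffAt.comp (g := fun q : ℝ × P => f q.1 q.2) q
    (h q.1 hq.1 _ (rho_mem_U hu q.2)) h2).contDiffWithinAt
lemma SmU.c0 {f : ℝ → P → F} (h : SmU f) :
    ContinuousOn (fun q : ℝ × P => f q.1 q.2) (Ioi 0 ×ˢ U) := fun q hq =>
  (h q.1 hq.1 q.2 hq.2).continuousAt.continuousWithinAt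
omit [NormedSpace ℝ F] in
lemma C0U.fibre {f : ℝ → P → F} (h : C0U f) {u : P} (hu : u ∈ U) :
    ContinuousOn (fun q : ℝ × ℝ => f q.1 (rho q.2 u)) (Ici 0 ×ˢ univ) :=
  ContinuousOn.comp (g := fun q : ℝ × P => f q.1 q.2) (f := fun q : ℝ × ℝ => (q.1, rho q.2 u)) h
    (continuous_fst.prodMk
      (continuous_rho.comp (continuous_snd.prodMk continuous_const))).continuousOn
    (fun _ hq => ⟨hq.1, rho_mem_U hu _⟩)
omit [NormedSpace ℝ F] in
lemma C0U.bdd {f : ℝ → P → F} (h : C0U f) (T : ℝ) :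
    ∃ B, ∀ τ ∈ Icc 0 T, ∀ u ∈ U, ‖f τ u‖ ≤ B := by
  obtain ⟨B, hB⟩ := ((isCompact_Icc (a := 0) (b := T)).prod isCompact_U).exists_bound_of_continuousOn
    (ContinuousOn.mono h (prod_mono Icc_subset_Ici_self subset_rfl))
  exact ⟨B, fun τ hτ u hu => hB (τ, u) ⟨hτ, hu⟩⟩
omit [NormedSpace ℝ F] in
/-- Uniform continuity in time, uniformly on `U`. -/
lemma C0U.unif {f : ℝ → P → F} (h : C0U f) {τ₀ : ℝ} (h0 : 0 ≤ τ₀) {ε : ℝ} (hε : 0 < ε) :
    ∃ δ > 0, ∀ τ, 0 ≤ τ → |τ - τ₀| ≤ δ → ∀ u ∈ U, ‖f τ u - f τ₀ u‖ ≤ ε := by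
  have hu := ((isCompact_Icc (a := 0) (b := τ₀ + 1)).prod
    isCompact_U).uniformContinuousOn_of_continuous
    (ContinuousOn.mono h (prod_mono Icc_subset_Ici_self subset_rfl))
  obtain ⟨δ, hδ, H⟩ := Metric.uniformContinuousOn_iff_le.1 hu ε hε
  refine ⟨min δ 1, by positivity, fun τ hτ hd u hu => ?_⟩
  have h1 := hd.trans (min_le_left _ _)
  have h2 := abs_le.1 (hd.trans (min_le_right _ _))
  have := H (τ, u) ⟨⟨hτ, by linarith [h2.2]⟩, hu⟩ (τ₀, u) ⟨⟨h0, by linarith⟩, hu⟩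
    (by simpa [Prod.dist_eq, Real.dist_eq, hδ.le] using h1)
  simpa [dist_eq_norm] using this
lemma sm_reparam {f : ℝ → P → F} (h : Sm f) {a : ℝ → ℝ} (ha : ContDiff ℝ ∞ a) :
    Sm (fun s => f (a s)) :=
  ContDiffOn.comp (g := fun q : ℝ × P => f q.1 q.2) (f := fun q : ℝ × P => (a q.1, q.2)) h
    (by fun_prop) (fun _ hq => ⟨trivial, hq.2⟩)

/-- Second derivatives commute, for a function of a real variable and a parameter. -/
lemma hasDerivAt_fderiv_time {X : Type*} [NormedAddCommGroup X] [NormedSpace ℝ X]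
    {f : ℝ → X → F} {τ : ℝ} {x : X} (hf : ContDiffAt ℝ ∞ (fun q : ℝ × X => f q.1 q.2) (τ, x))
    (δ : X) : HasDerivAt (fun t => fderiv ℝ (f t) x δ)
      (fderiv ℝ (fun y => deriv (fun t => f t y) τ) x δ) τ := by
  set Φ := fun q : ℝ × X => f q.1 q.2 with hΦ
  have ev := (hf.of_le (m := 1) (by norm_cast)).eventually (by simp)
  have h1 : DifferentiableAt ℝ (fderiv ℝ Φ) (τ, x) :=
    (hf.fderiv_right (m := 1) (by norm_cast)).differentiableAt (by simp)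
  have a1 : HasDerivAt (fun t => fderiv ℝ Φ (t, x) (0, δ))
      (fderiv ℝ (fderiv ℝ Φ) (τ, x) (1, 0) (0, δ)) τ := by
    have := (h1.hasFDerivAt.comp_hasDerivAt τ
      ((hasDerivAt_id τ).prodMk (hasDerivAt_const τ x))).clm_apply (hasDerivAt_const τ (0, δ))
    simpa using this
  have a2 : fderiv ℝ (fun y => fderiv ℝ Φ (τ, y) (1, 0)) x δ
      = fderiv ℝ (fderiv ℝ Φ) (τ, x) (0, δ) (1, 0) := by
    have := (h1.hasFDerivAt.comp x ((hasFDerivAt_const τ x).prodMk (hasFDerivAt_id x))).clm_apply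
      (hasFDerivAt_const ((1 : ℝ), (0 : X)) x)
    have e := this.fderiv
    simp only [Function.comp_def] at e
    rw [e]; simp
  have t1 : Tendsto (fun t : ℝ => (t, x)) (𝓝 τ) (𝓝 (τ, x)) :=
    (continuous_id.prodMk continuous_const).tendsto τ
  have t2 : Tendsto (fun y : X => (τ, y)) (𝓝 x) (𝓝 (τ, x)) :=
    (continuous_const.prodMk continuous_id).tendsto x
  have e2 : (fun y => deriv (fun t => f t y) τ) =ᶠ[𝓝 x] fun y => fderiv ℝ Φ (τ, y) (1, 0) := by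
    filter_upwards [t2.eventually ev] with y hy
    exact (hasDerivAt_slice (hy.differentiableAt (by simp))).deriv
  rw [e2.fderiv_eq, a2, snd_symm hf]
  refine a1.congr_of_eventuallyEq ?_
  filter_upwards [t1.eventually ev] with t ht
  exact fderiv_slice (ht.differentiableAt (by simp)) _

lemma diffAt_deriv_time {X : Type*} [NormedAddCommGroup X] [NormedSpace ℝ X]
    {f : ℝ → X → F} {τ : ℝ} {x : X} (hf : ContDiffAt ℝ ∞ (fun q : ℝ × X => f q.1 q.2) (τ, x)) :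
    ContDiffAt ℝ ∞ (fun y => deriv (fun t => f t y) τ) x := by
  have ev := (hf.of_le (m := 1) (by norm_cast)).eventually (by simp)
  have t2 : Tendsto (fun y : X => (τ, y)) (𝓝 x) (𝓝 (τ, x)) :=
    (continuous_const.prodMk continuous_id).tendsto x
  have h1 : ContDiffAt ℝ ∞
      (fun y => fderiv ℝ (fun q : ℝ × X => f q.1 q.2) (τ, y) (1, 0)) x :=
    ((hf.fderiv_right (m := ∞) (by simp)).comp x
      (contDiffAt_const.prodMk contDiffAt_id)).clm_apply contDiffAt_const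
  refine h1.congr_of_eventuallyEq ?_
  filter_upwards [t2.eventually ev] with y hy
  exact (hasDerivAt_slice (hy.differentiableAt (by simp))).deriv

/-- The time derivative commutes with `dW`. -/
lemma hasDerivAt_dW_time {f : ℝ → P → F} {g : P → F} {τ : ℝ} {u : P} (hu : u ∈ U)
    (hf : ContDiffAt ℝ ∞ (fun q : ℝ × P => f q.1 q.2) (τ, u)) (hg : DifferentiableAt ℝ g u)
    (h : ∀ w ∈ U, HasDerivAt (fun t => f t w) (g w) τ) (ξ : E) :
    HasDerivAt (fun t => dW (f t) u ξ) (dW g u ξ) τ := by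
  have := hasDerivAt_fderiv_time hf (W u ξ)
  refine this.congr_deriv ?_
  exact dW_congr hu ((diffAt_deriv_time hf).differentiableAt (by simp)) hg
    (fun w hw => (h w hw).deriv) ξ
lemma hasDerivAt_V_time {f : ℝ → P → F} {g : P → F} {τ : ℝ} {u : P} (hu : u ∈ U)
    (hf : ContDiffAt ℝ ∞ (fun q : ℝ × P => f q.1 q.2) (τ, u)) (hg : DifferentiableAt ℝ g u)
    (h : ∀ s, HasDerivAt (fun t => f t (rho s u)) (g (rho s u)) τ) :
    HasDerivAt (fun t => V (f t) u) (V g u) τ := by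
  have := hasDerivAt_fderiv_time hf (W u u.1)
  refine this.congr_deriv ?_
  exact V_congr_fibre hu ((diffAt_deriv_time hf).differentiableAt (by simp)) hg
    (fun s => (h s).deriv)

end calc1

end Pool.Agent.MP_2291e2_gt.Zl

end MrgPart0

-- ======== part 1: formerly Pool.Agent.MP_2291e2_gt.zl.B2b
section MrgPart1

/-! Shared lemmas, part b: topology of `U`, maximum principles, implicit functions. -/

open scoped ContDiff RealInnerProductSpace Topology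
open Set Filter Real

namespace Pool.Agent.MP_2291e2_gt.Zl

/-! ### Topology of `U` -/

/-- Euler angles. -/
noncomputable def eul (a : ℝ × ℝ × ℝ) : P :=
  rho a.2.2 (!₂[cos a.1 * cos a.2.1, sin a.1 * cos a.2.1, sin a.2.1], !₂[-sin a.1, cos a.1, 0])

lemma eul_base (a b : ℝ) :
    ((!₂[cos a * cos b, sin a * cos b, sin b], !₂[-sin a, cos a, 0]) : P) ∈ U := by
  have k : ∀ x : E, ‖x‖ ^ 2 = 1 → ‖x‖ = 1 := fun x h =>
    (pow_left_inj₀ (norm_nonneg _) zero_le_one two_ne_zero).1 (by simpa using h)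
  refine ⟨k _ ?_, k _ ?_, ?_⟩
  · rw [normsq3]; simp
    nlinarith [sin_sq_add_cos_sq a, sin_sq_add_cos_sq b]
  · rw [normsq3]; simp
  · rw [inner3]; simp; ring

lemma exists_angles {y : E} (h : ‖y‖ = 1) :
    ∃ a b, y = !₂[cos a * cos b, sin a * cos b, sin b] := by
  have h3 : y 0 ^ 2 + y 1 ^ 2 + y 2 ^ 2 = 1 := by rw [← normsq3, h]; norm_num
  have h2 : y 2 ∈ Icc (-1 : ℝ) 1 := by
    constructor <;> nlinarith [sq_nonneg (y 0), sq_nonneg (y 1)]
  let z : ℂ := ⟨y 0, y 1⟩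
  have hz : ‖z‖ = cos (arcsin (y 2)) := by
    rw [cos_arcsin, Complex.norm_def, Complex.normSq_mk]; congr 1; nlinarith
  refine ⟨z.arg, arcsin (y 2), ext3 ?_ ?_ ?_⟩
  · simp only [← hz]; simp [z, mul_comm]
  · simp only [← hz]; simp [z, mul_comm]
  · simpa using (sin_arcsin h2.1 h2.2).symm

lemma exists_U_over {y : E} (h : ‖y‖ = 1) : ∃ v, (y, v) ∈ U := by
  obtain ⟨a, b, rfl⟩ := exists_angles h
  exact ⟨_, eul_base a b⟩

lemma U_nonempty : (U : Set P).Nonempty := ⟨_, eul_base 0 0⟩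

lemma range_eul : range eul = U := by
  ext u
  constructor
  · rintro ⟨a, rfl⟩; exact rho_mem_U (eul_base _ _) _
  · intro hu
    obtain ⟨a, b, e⟩ := exists_angles hu.1
    obtain ⟨s, -, hs⟩ := exists_rho (eul_base a b) hu e
    exact ⟨(a, b, s), hs.symm⟩

lemma contDiff_eul : ContDiff ℝ ∞ eul := by
  refine contDiff_rho.comp (f := fun a : ℝ × ℝ × ℝ => (a.2.2,
    ((!₂[cos a.1 * cos a.2.1, sin a.1 * cos a.2.1, sin a.2.1], !₂[-sin a.1, cos a.1, 0]) : P))) ?_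
  refine ContDiff.prodMk (by fun_prop) (ContDiff.prodMk ?_ ?_) <;>
  · rw [contDiff_euclidean]
    intro i; fin_cases i <;> simp <;> fun_prop

lemma isPreconnected_U : IsPreconnected U := by
  rw [← range_eul]; exact isPreconnected_range contDiff_eul.continuous

lemma const_of_dW_zero {F : Type*} [NormedAddCommGroup F] [NormedSpace ℝ F] {f : P → F}
    (hf : ∀ u ∈ U, DifferentiableAt ℝ f u) (h0 : ∀ u ∈ U, ∀ ξ, dW f u ξ = 0) :
    ∀ u ∈ U, ∀ u' ∈ U, f u = f u' := by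
  have hU : ∀ a, eul a ∈ U := fun a => range_eul ▸ mem_range_self a
  have de : Differentiable ℝ eul := contDiff_eul.differentiable (by simp)
  have hd : Differentiable ℝ (f ∘ eul) := fun a => (hf _ (hU a)).comp a (de a)
  have hz : ∀ a, fderiv ℝ (f ∘ eul) a = 0 := by
    intro a
    refine ContinuousLinearMap.ext fun δ => ?_
    obtain ⟨ξ, hξ⟩ := exists_W_fderiv (de a) (Eventually.of_forall hU) δ
    rw [fderiv_comp a (hf _ (hU a)) (de a)]
    simpa [hξ, dW] using h0 _ (hU a) ξ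
  intro u hu u' hu'
  rw [← range_eul] at hu hu'
  obtain ⟨a, rfl⟩ := hu
  obtain ⟨a', rfl⟩ := hu'
  exact is_const_of_fderiv_eq_zero hd hz a a'

/-- A continuous function without zeros on a preconnected set has one sign. -/
lemma sign_const {X : Type*} [TopologicalSpace X] {s : Set X} (hs : IsPreconnected s) {f : X → ℝ}
    (hf : ContinuousOn f s) (h0 : ∀ x ∈ s, f x ≠ 0) :
    (∀ x ∈ s, 0 < f x) ∨ ∀ x ∈ s, f x < 0 := by
  by_contra h
  push Not at h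
  obtain ⟨⟨a, ha, ha'⟩, b, hb, hb'⟩ := h
  obtain ⟨c, hc, hc'⟩ := hs.intermediate_value ha hb hf ⟨ha', hb'⟩
  exact h0 c hc hc'

/-- A continuous function with values in `p ℤ` is constant on a preconnected set. -/
lemma const_of_int {X : Type*} [TopologicalSpace X] {s : Set X} (hs : IsPreconnected s)
    {f : X → ℝ} (hf : ContinuousOn f s) {p : ℝ} (hp : 0 < p)
    (h : ∀ x ∈ s, ∃ n : ℤ, f x = n * p) : ∀ x ∈ s, ∀ x' ∈ s, f x = f x' := by
  have key : ∀ x ∈ s, ∀ x' ∈ s, ¬ f x < f x' := by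
    intro x hx x' hx' hlt
    obtain ⟨n, hn⟩ := h x hx
    obtain ⟨n', hn'⟩ := h x' hx'
    have h1 : n < n' := by
      have : (n : ℝ) < n' := by rw [hn, hn'] at hlt; exact lt_of_mul_lt_mul_right hlt hp.le
      exact_mod_cast this
    have h2 : (n : ℝ) + 1 ≤ n' := by exact_mod_cast h1
    obtain ⟨c, hc, hc'⟩ := hs.intermediate_value hx hx' hf
      (show (n + 1 / 2) * p ∈ Icc (f x) (f x') from ⟨by nlinarith, by nlinarith⟩)
    obtain ⟨m, hm⟩ := h c hc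
    have h3 : (m : ℝ) = n + 1 / 2 := mul_right_cancel₀ hp.ne' (hm.symm.trans hc')
    have h4 : ((2 * m : ℤ) : ℝ) = ((2 * n + 1 : ℤ) : ℝ) := by push_cast; linarith
    have h5 : 2 * m = 2 * n + 1 := by exact_mod_cast h4
    omega
  intro x hx x' hx'
  exact le_antisymm (not_lt.1 (key x' hx' x hx)) (not_lt.1 (key x hx x' hx'))

/-! ### Maximum principles -/

/-- First touching time. -/
lemma touch {X : Type*} [TopologicalSpace X] {K : Set X} (hK : IsCompact K) {Z : ℝ → X → ℝ}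
    {a b : ℝ} (hc : ContinuousOn (fun q : ℝ × X => Z q.1 q.2) (Icc a b ×ˢ K))
    (h0 : ∀ x ∈ K, 0 < Z a x) (h1 : ∃ τ ∈ Icc a b, ∃ x ∈ K, Z τ x ≤ 0) :
    ∃ τ ∈ Ioc a b, ∃ x ∈ K, Z τ x = 0 ∧ (∀ y ∈ K, 0 ≤ Z τ y) ∧
      ∀ t ∈ Ico a τ, ∀ y ∈ K, 0 < Z t y := by
  have : CompactSpace K := isCompact_iff_compactSpace.1 hK
  let S : Set (Icc a b × K) := {q | Z q.1 q.2 ≤ 0}
  have hZ : Continuous fun q : Icc a b × K => Z q.1 q.2 :=
    ContinuousOn.comp_continuous (g := fun q : ℝ × X => Z q.1 q.2)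
      (f := fun q : Icc a b × K => ((q.1 : ℝ), (q.2 : X))) hc (by fun_prop)
      (fun q => ⟨q.1.2, q.2.2⟩)
  have hS : IsCompact S := (isClosed_le hZ continuous_const).isCompact
  obtain ⟨τ₁, hτ₁, x₁, hx₁, hz₁⟩ := h1
  obtain ⟨q, hq, hmin⟩ := hS.exists_isMinOn ⟨(⟨τ₁, hτ₁⟩, ⟨x₁, hx₁⟩), hz₁⟩
    (f := fun q : Icc a b × K => (q.1 : ℝ)) (by fun_prop)
  have hτ : (q.1 : ℝ) ∈ Icc a b := q.1.2
  have hlt : a < q.1 := lt_of_le_of_ne hτ.1 fun e => by
    have h2 : Z a q.2 = Z q.1 q.2 := congrArg (fun t => Z t q.2) e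
    exact absurd hq (not_le.2 (h2 ▸ h0 _ q.2.2))
  have before : ∀ t ∈ Ico a (q.1 : ℝ), ∀ y ∈ K, 0 < Z t y := by
    intro t ht y hy
    by_contra hn
    have := hmin (a := (⟨t, ht.1, ht.2.le.trans hτ.2⟩, ⟨y, hy⟩)) (not_lt.1 hn)
    exact absurd ht.2 (not_lt.2 this)
  have at' : ∀ y ∈ K, 0 ≤ Z q.1 y := by
    intro y hy
    have c1 : ContinuousWithinAt (fun t => Z t y) (Ico a q.1) q.1 :=
      (ContinuousOn.comp (g := fun q : ℝ × X => Z q.1 q.2) (f := fun t => (t, y)) (s := Icc a b)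
        hc (by fun_prop) (fun t ht => ⟨ht, hy⟩) _ hτ).mono
        (fun t ht => ⟨ht.1, ht.2.le.trans hτ.2⟩)
    have : (𝓝[Ico a (q.1 : ℝ)] (q.1 : ℝ)).NeBot := right_nhdsWithin_Ico_neBot hlt
    exact ge_of_tendsto c1 (eventually_nhdsWithin_of_forall fun t ht => (before t ht y hy).le)
  exact ⟨q.1, ⟨hlt, hτ.2⟩, q.2, q.2.2, le_antisymm hq (at' _ q.2.2), at', before⟩

/-- Positivity persists if the time derivative is positive at every touching point. -/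
lemma stay_pos {X : Type*} [TopologicalSpace X] {K : Set X} (hK : IsCompact K) {Z : ℝ → X → ℝ}
    {a b : ℝ} (hc : ContinuousOn (fun q : ℝ × X => Z q.1 q.2) (Icc a b ×ˢ K))
    (h0 : ∀ x ∈ K, 0 < Z a x)
    (h1 : ∀ τ ∈ Ioc a b, ∀ x ∈ K, Z τ x = 0 → (∀ t ∈ Icc a τ, ∀ y ∈ K, 0 ≤ Z t y) →
      ∃ D > 0, HasDerivAt (fun t => Z t x) D τ) :
    ∀ τ ∈ Icc a b, ∀ x ∈ K, 0 < Z τ x := by
  by_contra hn
  push Not at hn
  obtain ⟨τ, hτ, x, hx, hz, hat, hb⟩ := touch hK hc h0 hn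
  obtain ⟨D, hD, hd⟩ := h1 τ hτ x hx hz fun t ht y hy => by
    rcases ht.2.eq_or_lt with e | e
    · rw [e]; exact hat y hy
    · exact (hb t ⟨ht.1, e⟩ y hy).le
  have := hd.tendsto_slope.mono_left (nhdsLT_le_nhdsNE τ)
  have h2 : D ≤ 0 := by
    refine le_of_tendsto this ?_
    filter_upwards [Ico_mem_nhdsLT hτ.1] with t ht
    rw [slope_def_field, hz, sub_zero]
    exact div_nonpos_of_nonneg_of_nonpos (hb t ht x hx).le (by linarith [ht.2])
  linarith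

/-- First and second derivative at a local minimum. -/
lemma min_deriv {f f1 : ℝ → ℝ} {f2 x : ℝ} (hm : IsLocalMin f x)
    (h1 : ∀ᶠ y in 𝓝 x, HasDerivAt f (f1 y) y) (h2 : HasDerivAt f1 f2 x) :
    f1 x = 0 ∧ 0 ≤ f2 := by
  have e0 : f1 x = 0 := hm.hasDerivAt_eq_zero h1.self_of_nhds
  refine ⟨e0, ?_⟩
  by_contra hn
  push Not at hn
  have s1 := (h2.tendsto_slope.mono_left (nhdsGT_le_nhdsNE x)).eventually (gt_mem_nhds hn)
  have s2 : ∀ᶠ y in 𝓝[>] x, f1 y < 0 := by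
    filter_upwards [s1, self_mem_nhdsWithin] with y hy hy'
    rw [slope_def_field, e0, sub_zero] at hy
    have : 0 < y - x := sub_pos.2 hy'
    by_contra h
    exact absurd hy (not_lt.2 (div_nonneg (not_lt.1 h) this.le))
  obtain ⟨r, hr, H⟩ := Metric.eventually_nhds_iff.1
    ((eventually_nhdsWithin_iff.1 s2).and (h1.and hm))
  have hin : ∀ y ∈ Icc x (x + r / 2), dist y x < r := fun y hy => by
    rw [Real.dist_eq, abs_lt]; constructor <;> linarith [hy.1, hy.2]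
  obtain ⟨c, hc, hc'⟩ := exists_hasDerivAt_eq_slope f f1 (a := x) (b := x + r / 2) (by linarith)
    (fun y hy => (H (hin y hy)).2.1.continuousAt.continuousWithinAt)
    (fun y hy => (H (hin y (Ioo_subset_Icc_self hy))).2.1)
  have a1 := (H (hin c (Ioo_subset_Icc_self hc))).1 hc.1
  have a2 := (H (hin (x + r / 2) ⟨by linarith, le_rfl⟩)).2.2
  rw [hc'] at a1
  exact absurd a1 (not_lt.2 (div_nonneg (by linarith) (by linarith)))

/-- A function that vanishes at `0` and `π` and has a bounded derivative is bounded by `sin`. -/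
lemma abs_le_sin {e e1 : ℝ → ℝ} {M : ℝ} (hd : ∀ h ∈ Icc 0 π, HasDerivAt e (e1 h) h)
    (hM : ∀ h ∈ Icc 0 π, |e1 h| ≤ M) (h0 : e 0 = 0) (hpi : e π = 0) :
    ∀ h ∈ Icc 0 π, |e h| ≤ 2 * M * sin h := by
  intro h hh
  have M0 : 0 ≤ M := (abs_nonneg _).trans (hM h hh)
  have L : ∀ x ∈ Icc 0 π, ∀ y ∈ Icc 0 π, ‖e y - e x‖ ≤ M * ‖y - x‖ := fun x hx y hy =>
    (convex_Icc 0 π).norm_image_sub_le_of_norm_hasDerivWithin_le
      (fun z hz => (hd z hz).hasDerivWithinAt) (fun z hz => hM z hz) hx hy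
  have p4 := pi_le_four
  have pp := pi_pos
  rcases le_total h (π / 2) with hl | hl
  · have a := L 0 ⟨le_rfl, pp.le⟩ h hh
    rw [h0, sub_zero, sub_zero, Real.norm_eq_abs, Real.norm_eq_abs, abs_of_nonneg hh.1] at a
    have b := mul_le_sin hh.1 hl
    have c : h ≤ 2 * sin h := by
      have : 2 / π * h * π = 2 * h := by field_simp
      have s0 : 0 ≤ sin h := sin_nonneg_of_mem_Icc hh
      nlinarith
    nlinarith
  · have a := L π ⟨pp.le, le_rfl⟩ h hh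
    rw [hpi, sub_zero, Real.norm_eq_abs, Real.norm_eq_abs, abs_sub_comm,
      abs_of_nonneg (sub_nonneg.2 hh.2)] at a
    have b := mul_le_sin (x := π - h) (by linarith [hh.2]) (by linarith)
    rw [sin_pi_sub] at b
    have c : π - h ≤ 2 * sin h := by
      have : 2 / π * (π - h) * π = 2 * (π - h) := by field_simp
      have s0 : 0 ≤ sin h := sin_nonneg_of_mem_Icc hh
      nlinarith
    nlinarith

/-! ### Implicit functions and division -/

/-- Scalar implicit function theorem. -/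
lemma exists_implicit {X : Type*} [NormedAddCommGroup X] [NormedSpace ℝ X] [CompleteSpace X]
    {f : X × ℝ → ℝ} {x₀ : X} {t₀ : ℝ} (hf : ContDiffAt ℝ ∞ f (x₀, t₀))
    (h1 : fderiv ℝ f (x₀, t₀) (0, 1) ≠ 0) :
    ∃ g : X → ℝ, ContDiffAt ℝ ∞ g x₀ ∧ g x₀ = t₀ ∧ (∀ᶠ x in 𝓝 x₀, f (x, g x) = f (x₀, t₀)) ∧
      ∀ᶠ q in 𝓝 (x₀, t₀), f q = f (x₀, t₀) → q.2 = g q.1 := by
  have hi : (fderiv ℝ f (x₀, t₀) ∘L .inr ℝ X ℝ).IsInvertible := by
    refine ⟨ContinuousLinearEquiv.unitsEquivAut ℝ (Units.mk0 _ h1), ?_⟩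
    ext; simp
  have pn : (∞ : WithTop ℕ∞) ≠ 0 := by simp
  exact ⟨hf.implicitFunction pn hi, hf.contDiffAt_implicitFunction pn hi,
    hf.implicitFunction_apply_self pn hi, hf.eventually_apply_implicitFunction pn hi,
    (hf.eventually_apply_eq_iff_implicitFunction pn hi).mono fun q hq e => (hq.1 e).symm⟩

/-- A continuous solution of a nondegenerate scalar equation is smooth. -/
lemma contDiffAt_of_implicit {X : Type*} [NormedAddCommGroup X] [NormedSpace ℝ X] [CompleteSpace X]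
    {f : X × ℝ → ℝ} {g : X → ℝ} {x₀ : X} {c : ℝ} (hf : ContDiffAt ℝ ∞ f (x₀, g x₀))
    (h1 : fderiv ℝ f (x₀, g x₀) (0, 1) ≠ 0) (hg : ContinuousAt g x₀)
    (he : ∀ᶠ x in 𝓝 x₀, f (x, g x) = c) : ContDiffAt ℝ ∞ g x₀ := by
  obtain ⟨k, hk, -, -, hu⟩ := exists_implicit hf h1
  refine hk.congr_of_eventuallyEq ?_
  have t : Tendsto (fun x => (x, g x)) (𝓝 x₀) (𝓝 (x₀, g x₀)) := continuousAt_id.prodMk hg
  filter_upwards [t.eventually hu, he] with x hx hx'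
  exact hx (hx'.trans he.self_of_nhds.symm)

/-- A solution that is locally unique in a fixed window is smooth. -/
lemma contDiffAt_of_mono {X : Type*} [NormedAddCommGroup X] [NormedSpace ℝ X] [CompleteSpace X]
    {f : X × ℝ → ℝ} {g : X → ℝ} {x₀ : X} {c : ℝ} {J : Set ℝ} (hJ : J ∈ 𝓝 (g x₀))
    (hf : ContDiffAt ℝ ∞ f (x₀, g x₀)) (h1 : fderiv ℝ f (x₀, g x₀) (0, 1) ≠ 0)
    (he : ∀ᶠ x in 𝓝 x₀, f (x, g x) = c ∧ ∀ t ∈ J, f (x, t) = c → t = g x) :
    ContDiffAt ℝ ∞ g x₀ := by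
  obtain ⟨k, hk, h0, hv, -⟩ := exists_implicit hf h1
  refine hk.congr_of_eventuallyEq ?_
  have t : Tendsto k (𝓝 x₀) (𝓝 (g x₀)) := h0 ▸ hk.continuousAt
  filter_upwards [t.eventually hJ, he, hv] with x hx hx' hx''
  exact (hx'.2 _ hx (hx''.trans he.self_of_nhds.1)).symm

/-- Hadamard division by the last variable. -/
lemma hadamard (hP : PIntStmt) {X F : Type} [NormedAddCommGroup X] [NormedSpace ℝ X]
    [NormedAddCommGroup F] [NormedSpace ℝ F] [CompleteSpace F] {f : X × ℝ → F}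
    (hf : ContDiff ℝ ∞ f) (h0 : ∀ x, f (x, 0) = 0) :
    ∃ g : X × ℝ → F, ContDiff ℝ ∞ g ∧ (∀ q, f q = q.2 • g q) ∧
      ∀ x, g (x, 0) = fderiv ℝ f (x, 0) (0, 1) := by
  have hd : ContDiff ℝ ∞ (fderiv ℝ f) := hf.fderiv_right (m := ∞) (by simp)
  have hk : ContDiff ℝ ∞ (fun a : (X × ℝ) × ℝ => fderiv ℝ f (a.1.1, a.2 * a.1.2) (0, 1)) :=
    (hd.comp (by fun_prop)).clm_apply contDiff_const
  refine ⟨fun q => ∫ s in (0 : ℝ)..1, fderiv ℝ f (q.1, s * q.2) (0, 1), ?_, ?_, ?_⟩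
  · rw [contDiff_iff_contDiffAt]
    intro q
    exact ((hP (X × ℝ) F univ _ isOpen_univ hk.contDiffOn).1 0 1 q (fun _ _ => trivial)).1
  · intro q
    have d : ∀ s : ℝ, HasDerivAt (fun s : ℝ => f (q.1, s * q.2))
        (q.2 • fderiv ℝ f (q.1, s * q.2) (0, 1)) s := by
      intro s
      have := HasFDerivAt.comp_hasDerivAt (l := f) (f := fun s : ℝ => (q.1, s * q.2)) s
        (hf.differentiable (by simp) _).hasFDerivAt
        ((hasDerivAt_const s q.1).prodMk ((hasDerivAt_id s).mul_const q.2))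
      refine this.congr_deriv ?_
      rw [← map_smul]; simp
    have c : Continuous fun s : ℝ => q.2 • fderiv ℝ f (q.1, s * q.2) (0, 1) :=
      continuous_const.smul (hk.continuous.comp (continuous_const.prodMk continuous_id))
    have := intervalIntegral.integral_eq_sub_of_hasDerivAt (a := 0) (b := 1) (fun s _ => d s)
      (c.intervalIntegrable _ _)
    rw [intervalIntegral.integral_smul] at this
    rw [this]; simp [h0]
  · intro x; simp

end Pool.Agent.MP_2291e2_gt.Zl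

end MrgPart1

-- ======== part 2: formerly Pool.Agent.MP_2291e2_gt.zl.B2c
section MrgPart2

/-! Shared lemmas, part c: good families. -/

open scoped ContDiff RealInnerProductSpace Topology
open Set Filter Real

namespace Pool.Agent.MP_2291e2_gt.Zl

lemma dt_add2 (a b b' c : E) : dt a (b + b') c = dt a b c + dt a b' c := by simp [dt3]; ring
lemma dt_smul2 (t : ℝ) (a b c : E) : dt a (t • b) c = t * dt a b c := by simp [dt3]; ring

lemma mm_lin (G : P → E) (u : P) : IsLinearMap ℝ (mm G u) :=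
  ⟨fun a b => by simp [mm, dW_add, dt_add2], fun t a => by simp [mm, dW_smul, dt_smul2]⟩
lemma npp_lin (p : P → E) (u : P) : IsLinearMap ℝ (npp p u) :=
  ⟨fun a b => by simp [npp, cr_add_left, inner_add_right],
    fun t a => by simp [npp, cr_smul_left, inner_smul_right]⟩
lemma mh_lin (γ : ℝ → P → E) (τ : ℝ) (u : P) : IsLinearMap ℝ (mh γ τ u) :=
  ⟨fun a b => by simp only [mh, dW_add, (mm_lin _ _).map_add]; ring,
    fun t a => by simp only [mh, dW_smul, (mm_lin _ _).map_smul, smul_eq_mul]; ring⟩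
@[simp] lemma mm_fst (G : P → E) (u : P) : mm G u u.1 = 0 := by simp [mm, V]
lemma mm_odd {G : P → E} (hG : ContDiffOn ℝ ∞ G Ind) (ho : ∀ u ∈ U, G (rev u) = -G u) {u : P}
    (h : u ∈ U) (ξ : E) : mm G (rev u) ξ = -mm G u ξ := by
  simp only [mm, ho u h, dW_odd hG ho h, V_odd hG ho h, dt3, PiLp.neg_apply]; ring
lemma contDiffOn_mm {G : P → E} (hG : ContDiffOn ℝ ∞ G Ind) (ξ : E) :
    ContDiffOn ℝ ∞ (fun u => mm G u ξ) Ind :=
  ContDiffOn.dt' hG (contDiffOn_dW hG contDiffOn_const) (contDiffOn_V hG)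
lemma mm_congr {G G' : P → E} (hG : ContDiffOn ℝ ∞ G Ind) (hG' : ContDiffOn ℝ ∞ G' Ind)
    (e : ∀ u ∈ U, G u = G' u) {u : P} (h : u ∈ U) (ξ : E) : mm G u ξ = mm G' u ξ := by
  simp only [mm, e u h, dW_congr h (diffAt_of_U hG h) (diffAt_of_U hG' h) e,
    V_congr h (diffAt_of_U hG h) (diffAt_of_U hG' h) e]
lemma V_mm {G : P → E} (hG : ContDiffOn ℝ ∞ G Ind) {u : P} (h : u ∈ U) (ξ : E) :
    V (fun w => mm G w ξ) u = dt (G u) (V (fun w => dW G w ξ) u) (V G u)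
      + dt (G u) (dW G u ξ) (V (V G) u) := by
  have := dW_dt (diffAt_of_U hG h) (diffAt_of_U (contDiffOn_dW hG (ξ := fun _ => ξ)
    contDiffOn_const) h) (diffAt_of_U (contDiffOn_V hG) h) u.1
  rw [show dW G u u.1 = V G u from rfl, dt_self13, zero_add] at this
  exact this
lemma inner_dW_unit {G : P → E} (hG : ContDiffOn ℝ ∞ G Ind) (h1 : ∀ u ∈ U, ‖G u‖ = 1) {u : P}
    (h : u ∈ U) (ξ : E) : ⟪G u, dW G u ξ⟫ = 0 := by
  have d := diffAt_of_U hG h
  have := dW_const_on (f := fun w => ‖G w‖ ^ 2) h (d.norm_sq ℝ) (a := 1)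
    (fun w hw => by simp [h1 w hw]) ξ
  rw [dW_normsq d] at this
  linarith
@[simp] lemma wedge_zero (n : P → E → ℝ) (u : P) : wedge n u 0 = 0 := by simp [wedge, mul_comm]
/-- `wedge` computed in the frame of the base point of the fibre. -/
lemma wedge_rho {n : P → E → ℝ} (hl : ∀ u, IsLinearMap ℝ (n u)) {u : P} (h : u ∈ U) (a s : ℝ) :
    wedge n (rho a u) s = n (rho a u) u.2 * n (rho (a + s) u) (cr u.1 u.2)
      - n (rho a u) (cr u.1 u.2) * n (rho (a + s) u) u.2 := by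
  simp only [wedge, rho_fst, cr_rho h, rho_add h, add_comm s a]
  simp only [rho_snd, (hl _).map_add, (hl _).map_sub, (hl _).map_smul, smul_eq_mul]
  linear_combination (n (rho a u) u.2 * n (rho (a + s) u) (cr u.1 u.2)
      - n (rho a u) (cr u.1 u.2) * n (rho (a + s) u) u.2) * sin_sq_add_cos_sq a
lemma hasDerivAt_wedge {n : P → E → ℝ} (hs : ∀ ξ, ∀ u ∈ U, DifferentiableAt ℝ (fun w => n w ξ) u)
    {u : P} (h : u ∈ U) (s : ℝ) :
    HasDerivAt (wedge n u) (n u u.2 * V (fun w => n w (cr u.1 u.2)) (rho s u)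
      - n u (cr u.1 u.2) * V (fun w => n w u.2) (rho s u)) s :=
  ((hasDerivAt_V h (hs _ _ (rho_mem_U h s))).const_mul _).sub
    ((hasDerivAt_V h (hs _ _ (rho_mem_U h s))).const_mul _)
lemma wedge_congr {n n' : P → E → ℝ} (e : ∀ u ∈ U, ∀ ξ, n' u ξ = n u ξ) {u : P} (hu : u ∈ U) :
    wedge n' u = wedge n u := by
  ext s; simp only [wedge, e u hu, e _ (rho_mem_U hu s)]
lemma Turn.congr {n n' : P → E → ℝ} (h : Turn n) (e : ∀ u ∈ U, ∀ ξ, n' u ξ = n u ξ) : Turn n' :=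
  ⟨fun u hu s hs => by rw [wedge_congr e hu]; exact h.pos u hu s hs,
    fun u hu => by rw [wedge_congr e hu]; exact h.pos0 u hu⟩
/-- `Turn` is invariant under multiplication by a function without zeros of one sign. -/
lemma Turn.mul {n n' : P → E → ℝ} {c : P → ℝ} (h : Turn n)
    (hs : ∀ ξ, ∀ u ∈ U, DifferentiableAt ℝ (fun w => n w ξ) u)
    (hc : ∀ u ∈ U, DifferentiableAt ℝ c u) (hp : ∀ u ∈ U, ∀ u' ∈ U, 0 < c u * c u')
    (e : ∀ u ∈ U, ∀ ξ, n' u ξ = c u * n u ξ) : Turn n' := by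
  have k : ∀ u ∈ U, wedge n' u = fun s => c u * c (rho s u) * wedge n u s := by
    intro u hu; ext s
    simp only [wedge, e u hu, e _ (rho_mem_U hu s)]; ring
  refine ⟨fun u hu s hs => ?_, fun u hu => ?_⟩
  · rw [k u hu]; exact mul_pos (hp u hu _ (rho_mem_U hu s)) (h.pos u hu s hs)
  · have d1 := hasDerivAt_wedge hs hu 0
    have d2 := (hasDerivAt_V hu (s := 0) (hc _ (rho_mem_U hu 0))).const_mul (c u)
    have h0 := h.pos0 u hu
    rw [d1.deriv] at h0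
    rw [k u hu, (d2.fun_mul d1).deriv, wedge_zero, mul_zero, zero_add]
    exact mul_pos (hp u hu _ (rho_mem_U hu 0)) h0

lemma V_lin {n : P → E → ℝ} (hl : ∀ u, IsLinearMap ℝ (n u)) {u : P}
    (hs : ∀ ξ, DifferentiableAt ℝ (fun w => n w ξ) u) :
    IsLinearMap ℝ (fun ξ => V (fun w => n w ξ) u) := by
  constructor
  · intro a b
    simp only [(hl _).map_add]
    exact dW_fadd (hs a) (hs b) _
  · intro t a
    simp only [(hl _).map_smul]
    exact dW_csmul t (hs a) _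

lemma wedge_pi_sub {n : P → E → ℝ} (hl : ∀ u, IsLinearMap ℝ (n u))
    (ho : ∀ u ∈ U, ∀ ξ, n (rev u) ξ = -n u ξ) {u : P} (hu : u ∈ U) (s : ℝ) :
    wedge n u (π - s) = wedge n (rho (-s) u) s := by
  rw [wedge_rho hl hu, neg_add_cancel, rho_zero, wedge, show π - s = -s + π by ring, rho_add_pi,
    ho _ (rho_mem_U hu _), ho _ (rho_mem_U hu _)]
  ring

lemma Turn.sin_le {n : P → E → ℝ} (h : Turn n) (hl : ∀ u, IsLinearMap ℝ (n u))
    (hs : ∀ ξ, ∀ u ∈ U, ContDiffAt ℝ ∞ (fun w => n w ξ) u)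
    (ho : ∀ u ∈ U, ∀ ξ, n (rev u) ξ = -n u ξ) :
    ∃ δ > 0, ∀ u ∈ U, ∀ s ∈ Icc 0 π, δ * sin s ≤ wedge n u s := by
  have hs' : ∀ ξ, ∀ u ∈ U, DifferentiableAt ℝ (fun w => n w ξ) u := fun ξ u hu =>
    (hs ξ u hu).differentiableAt (by simp)
  -- joint continuity of `n` and `V n`
  have cn : ∀ (m : P → E → ℝ), (∀ u ∈ U, IsLinearMap ℝ (m u)) →
      (∀ ξ, ContinuousOn (fun w => m w ξ) U) → ∀ (a : P × ℝ → P) (ξ : P × ℝ → E), Continuous a →
      Continuous ξ → MapsTo a (U ×ˢ univ) U →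
      ContinuousOn (fun q => m (a q) (ξ q)) (U ×ˢ univ) := by
    intro m ml mc a ξ ha hξ hm
    have c : ∀ e, ContinuousOn (fun q => m (a q) e) (U ×ˢ univ) := fun e =>
      (mc e).comp ha.continuousOn hm
    refine ContinuousOn.congr (f := fun q => ξ q 0 • m (a q) (EuclideanSpace.single 0 1)
      + ξ q 1 • m (a q) (EuclideanSpace.single 1 1)
      + ξ q 2 • m (a q) (EuclideanSpace.single 2 1)) ?_ (fun q hq => lin_expand (ml _ (hm hq)) _)
    have x : ∀ i, ContinuousOn (fun q => ξ q i) (U ×ˢ univ) := fun i => by fun_prop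
    exact (((x 0).smul (c _)).add ((x 1).smul (c _))).add ((x 2).smul (c _))
  have n0 : ∀ ξ, ContinuousOn (fun w => n w ξ) U := fun ξ u hu =>
    (hs ξ u hu).continuousAt.continuousWithinAt
  have n1 : ∀ ξ, ContinuousOn (fun w => V (fun w => n w ξ) w) U := fun ξ u hu =>
    (contDiffAt_V (hs ξ u hu)).continuousAt.continuousWithinAt
  have r1 : Continuous fun q : P × ℝ => rho q.2 q.1 :=
    continuous_rho.comp (continuous_snd.prodMk continuous_fst)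
  have m1 : MapsTo (fun q : P × ℝ => rho q.2 q.1) (U ×ˢ univ) U := fun q hq => rho_mem_U hq.1 _
  have m0 : MapsTo (fun q : P × ℝ => q.1) (U ×ˢ univ) U := fun q hq => hq.1
  have x2 : Continuous fun q : P × ℝ => q.1.2 := by fun_prop
  have x3 : Continuous fun q : P × ℝ => cr q.1.1 q.1.2 := by fun_prop
  have nl : ∀ u ∈ U, IsLinearMap ℝ (n u) := fun u _ => hl u
  have vl : ∀ u ∈ U, IsLinearMap ℝ (fun ξ => V (fun w => n w ξ) u) := fun u hu =>
    V_lin hl (fun ξ => hs' ξ u hu)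
  have cw : ContinuousOn (fun q : P × ℝ => wedge n q.1 q.2) (U ×ˢ univ) :=
    ((cn n nl n0 _ _ continuous_fst x2 m0).mul (cn n nl n0 _ _ r1 x3 m1)).sub
      ((cn n nl n0 _ _ continuous_fst x3 m0).mul (cn n nl n0 _ _ r1 x2 m1))
  let w1 : P × ℝ → ℝ := fun q => n q.1 q.1.2 * V (fun w => n w (cr q.1.1 q.1.2)) (rho q.2 q.1)
      - n q.1 (cr q.1.1 q.1.2) * V (fun w => n w q.1.2) (rho q.2 q.1)
  have cw1 : ContinuousOn w1 (U ×ˢ univ) :=
    ((cn n nl n0 _ _ continuous_fst x2 m0).mul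
      (cn (fun u ξ => V (fun w => n w ξ) u) vl n1 _ _ r1 x3 m1)).sub
      ((cn n nl n0 _ _ continuous_fst x3 m0).mul
        (cn (fun u ξ => V (fun w => n w ξ) u) vl n1 _ _ r1 x2 m1))
  have dw : ∀ u ∈ U, ∀ s, HasDerivAt (wedge n u) (w1 (u, s)) s := fun u hu s =>
    hasDerivAt_wedge hs' hu s
  -- lower bound for the derivative at zero
  obtain ⟨u₁, hu₁, hmin⟩ := isCompact_U.exists_isMinOn U_nonempty
    (f := fun u => w1 (u, 0)) (cw1.comp (by fun_prop) (fun u hu => ⟨hu, trivial⟩))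
  have c0 : 0 < w1 (u₁, 0) := by rw [← (dw u₁ hu₁ 0).deriv]; exact h.pos0 u₁ hu₁
  set c := w1 (u₁, 0)
  have uc := (isCompact_U.prod (isCompact_Icc (a := (0 : ℝ))
    (b := π))).uniformContinuousOn_of_continuous (cw1.mono (prod_mono subset_rfl (subset_univ _)))
  obtain ⟨r₀, hr₀, H⟩ := Metric.uniformContinuousOn_iff_le.1 uc (c / 2) (by positivity)
  have pp := pi_pos
  set r := min r₀ (π / 2)
  have hr : 0 < r := by positivity
  have hr1 : r ≤ r₀ := min_le_left _ _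
  have hr2 : r ≤ π / 2 := min_le_right _ _
  have near : ∀ u ∈ U, ∀ s ∈ Icc 0 r, c / 2 * sin s ≤ wedge n u s := by
    intro u hu s hs
    have lb : ∀ t ∈ Icc 0 r, c / 2 ≤ w1 (u, t) := by
      intro t ht
      have := H (u, t) ⟨hu, ht.1, by linarith [ht.2]⟩ (u, 0) ⟨hu, le_rfl, pp.le⟩
        (by simp [Prod.dist_eq, abs_of_nonneg ht.1, hr₀.le, ht.2.trans hr1])
      have h2 : c ≤ w1 (u, 0) := hmin hu
      rw [Real.dist_eq, abs_le] at this
      linarith [this.1]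
    have := (convex_Icc 0 r).mul_sub_le_image_sub_of_le_deriv (f := wedge n u) (C := c / 2)
      (fun t _ => (dw u hu t).continuousAt.continuousWithinAt)
      (fun t _ => (dw u hu t).differentiableAt.differentiableWithinAt)
      (fun t ht => by rw [(dw u hu t).deriv]; exact lb t (interior_subset ht))
      0 ⟨le_rfl, hr.le⟩ s hs hs.1
    rw [wedge_zero, sub_zero, sub_zero] at this
    have := Real.sin_le hs.1
    nlinarith
  obtain ⟨q, hq, hm⟩ := (isCompact_U.prod (isCompact_Icc (a := r) (b := π - r))).exists_isMinOn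
    (U_nonempty.prod ⟨r, le_rfl, by linarith⟩) (cw.mono (prod_mono subset_rfl (subset_univ _)))
  have c1 : 0 < wedge n q.1 q.2 := h.pos _ hq.1 _ ⟨by linarith [hq.2.1], by linarith [hq.2.2]⟩
  refine ⟨min (c / 2) (wedge n q.1 q.2), by positivity, fun u hu s hs => ?_⟩
  have s0 := sin_nonneg_of_mem_Icc hs
  have e1 := mul_le_mul_of_nonneg_right (min_le_left (c / 2) (wedge n q.1 q.2)) s0
  have e2 := mul_le_mul_of_nonneg_right (min_le_right (c / 2) (wedge n q.1 q.2)) s0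
  by_cases a1 : s ≤ r
  · exact e1.trans (near u hu s ⟨hs.1, a1⟩)
  by_cases a2 : π - r ≤ s
  · have := near _ (rho_mem_U hu (-(π - s))) (π - s) ⟨by linarith [hs.2], by linarith⟩
    rw [← wedge_pi_sub hl ho hu, sin_pi_sub, sub_sub_cancel] at this
    exact e1.trans this
  · have : wedge n q.1 q.2 ≤ wedge n u s := hm (a := (u, s)) ⟨hu, by linarith, by linarith⟩
    nlinarith [sin_le_one s]

lemma turn_of_sin_le {n : P → E → ℝ} (hs : ∀ ξ, ∀ u ∈ U, DifferentiableAt ℝ (fun w => n w ξ) u)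
    (h : ∀ u ∈ U, ∃ δ > 0, ∀ s ∈ Icc 0 π, δ * sin s ≤ wedge n u s) : Turn n := by
  refine ⟨fun u hu s hs => ?_, fun u hu => ?_⟩
  · obtain ⟨δ, hδ, H⟩ := h u hu
    exact (mul_pos hδ (sin_pos_of_mem_Ioo hs)).trans_le (H s (Ioo_subset_Icc_self hs))
  · obtain ⟨δ, hδ, H⟩ := h u hu
    have d := (hasDerivAt_wedge hs hu 0).differentiableAt.hasDerivAt
    have d2 := d.sub ((hasDerivAt_sin 0).const_mul δ)
    have := d2.tendsto_slope.mono_left (nhdsGT_le_nhdsNE 0)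
    have h2 : 0 ≤ deriv (wedge n u) 0 - δ * cos 0 := by
      refine ge_of_tendsto this ?_
      filter_upwards [Ioc_mem_nhdsGT pi_pos] with t ht
      rw [slope_def_field]
      refine div_nonneg ?_ (by linarith [ht.1])
      have := H t (Ioc_subset_Icc_self ht)
      simp; linarith
    rw [cos_zero] at h2; linarith

lemma tan_comps {u : P} (hu : u ∈ U) {ξ : E} (hξ : cr ξ u.1 ≠ 0) :
    ⟪ξ, u.2⟫ ≠ 0 ∨ ⟪ξ, cr u.1 u.2⟫ ≠ 0 := by
  by_contra h
  push Not at h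
  apply hξ
  rw [frameU hu ξ, h.1, h.2]; simp [cr_smul_left]

lemma lin_frame {m : E → ℝ} (hl : IsLinearMap ℝ m) {u : P} (hu : u ∈ U) (hy : m u.1 = 0) (ξ : E) :
    m ξ = ⟪ξ, u.2⟫ * m u.2 + ⟪ξ, cr u.1 u.2⟫ * m (cr u.1 u.2) := by
  conv_lhs => rw [frameU hu ξ]
  simp only [hl.map_add, hl.map_smul, hy, smul_eq_mul]; ring

lemma det_zero {α β a b c d : ℝ} (h : α ≠ 0 ∨ β ≠ 0) (h1 : α * a + β * b = 0)
    (h2 : α * c + β * d = 0) : a * d - b * c = 0 := by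
  rcases h with h | h
  · exact (mul_eq_zero.1 (show α * (a * d - b * c) = 0 by
      linear_combination d * h1 - b * h2)).resolve_left h
  · exact (mul_eq_zero.1 (show β * (a * d - b * c) = 0 by
      linear_combination a * h2 - c * h1)).resolve_left h

lemma exists_of_det_zero {a b c d : ℝ} (h : a * d - b * c = 0) :
    ∃ α β : ℝ, (α ≠ 0 ∨ β ≠ 0) ∧ α * a + β * b = 0 ∧ α * c + β * d = 0 := by
  by_cases h1 : b ≠ 0 ∨ a ≠ 0
  · exact ⟨b, -a, by simpa using h1, by ring, by linarith⟩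
  by_cases h2 : d ≠ 0 ∨ c ≠ 0
  · exact ⟨d, -c, by simpa using h2, by linarith, by ring⟩
  push Not at h1 h2
  exact ⟨1, 0, by simp, by simp [h1], by simp [h2]⟩

lemma cr_comb_ne {u : P} (hu : u ∈ U) {α β : ℝ} (h : α ≠ 0 ∨ β ≠ 0) :
    cr (α • u.2 + β • cr u.1 u.2) u.1 ≠ 0 := by
  intro h0
  have a := congrArg (fun x => ⟪x, u.2⟫) h0
  have b := congrArg (fun x => ⟪x, cr u.1 u.2⟫) h0
  simp only [cr_add_left, cr_smul_left, cr_cr_left, inner_self_U1 hu, inner_U21 hu, one_smul,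
    zero_smul, sub_zero, cr_anti u.2 u.1, inner_add_left, inner_smul_left, inner_neg_left,
    cr_inner_right, inner_cr_right, inner_self_U2 hu, real_inner_self_eq_norm_sq, norm_cr_U hu,
    conj_trivial, inner_zero_left] at a b
  rcases h with h | h
  · exact h (by linarith)
  · exact h (by linarith)

/-- No two zeros at a distance less than `π`. -/
lemma Turn.two_zeros {n : P → E → ℝ} (h : Turn n) (hl : ∀ u, IsLinearMap ℝ (n u))
    (hy : ∀ u ∈ U, n u u.1 = 0) {u : P} (hu : u ∈ U) {ξ : E} (hξ : cr ξ u.1 ≠ 0) {a s : ℝ}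
    (hs : s ∈ Ioo 0 π) (h1 : n (rho a u) ξ = 0) : n (rho (a + s) u) ξ ≠ 0 := by
  intro h2
  have p := h.pos _ (rho_mem_U hu a) s hs
  rw [wedge_rho hl hu] at p
  have e1 := lin_frame (hl (rho a u)) hu (hy _ (rho_mem_U hu a)) ξ
  have e2 := lin_frame (hl (rho (a + s) u)) hu (hy _ (rho_mem_U hu (a + s))) ξ
  rw [h1] at e1
  rw [h2] at e2
  exact p.ne' (det_zero (tan_comps hu hξ) e1.symm e2.symm)

lemma V_n_fst {n : P → E → ℝ} (hy : ∀ u ∈ U, n u u.1 = 0)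
    (hs : ∀ ξ, ∀ u ∈ U, DifferentiableAt ℝ (fun w => n w ξ) u) {u : P} (hu : u ∈ U) :
    V (fun w => n w u.1) u = 0 := by
  refine V_eq_of_hasDerivAt hu (hs _ u hu) ?_
  have : (fun s => n (rho s u) u.1) = fun _ => 0 := funext fun s => hy _ (rho_mem_U hu s)
  rw [this]; exact hasDerivAt_const _ _

/-- No double zero. -/
lemma Turn.simple_zero {n : P → E → ℝ} (h : Turn n) (hl : ∀ u, IsLinearMap ℝ (n u))
    (hy : ∀ u ∈ U, n u u.1 = 0) (hs : ∀ ξ, ∀ u ∈ U, DifferentiableAt ℝ (fun w => n w ξ) u)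
    {u : P} (hu : u ∈ U) {ξ : E} (hξ : cr ξ u.1 ≠ 0) (h1 : n u ξ = 0) :
    V (fun w => n w ξ) u ≠ 0 := by
  intro h2
  have p := h.pos0 u hu
  rw [(hasDerivAt_wedge hs hu 0).deriv, rho_zero] at p
  rw [lin_frame (hl _) hu (hy _ hu)] at h1
  have e := lin_frame (V_lin hl (fun ξ => hs ξ u hu)) hu (V_n_fst hy hs hu) ξ
  rw [h2] at e
  exact p.ne' (det_zero (tan_comps hu hξ) h1 e.symm)

lemma c1sq_pos {f : ℝ → ℝ} (hf : Continuous f) (ho : ∀ σ, f (σ + π) = -f σ) {σ₀ : ℝ}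
    (hp : ∀ σ ∈ Ioo σ₀ (σ₀ + π), 0 < f σ) : 0 < c1sq f := by
  let g : ℝ → ℝ := fun σ => f σ * sin (σ - σ₀)
  have gc : Continuous g := by fun_prop
  have gp : Function.Periodic g π := fun σ => by
    simp only [g]; rw [ho, show σ + π - σ₀ = σ - σ₀ + π by ring, sin_add_pi]; ring
  have i1 : 0 < ∫ σ in σ₀..σ₀ + π, g σ := by
    refine intervalIntegral.intervalIntegral_pos_of_pos_on (gc.intervalIntegrable _ _) ?_
      (by linarith [pi_pos])
    intro σ hσ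
    exact mul_pos (hp σ hσ) (sin_pos_of_mem_Ioo ⟨by linarith [hσ.1], by linarith [hσ.2]⟩)
  have i2 : ∫ σ in (0 : ℝ)..2 * π, g σ = 2 * ∫ σ in σ₀..σ₀ + π, g σ := by
    rw [← intervalIntegral.integral_add_adjacent_intervals (b := π) (gc.intervalIntegrable _ _)
      (gc.intervalIntegrable _ _)]
    have a := gp.intervalIntegral_add_eq 0 σ₀
    have b := gp.intervalIntegral_add_eq π σ₀
    rw [zero_add] at a
    rw [show π + π = 2 * π by ring] at b
    rw [a, b]; ring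
  have i3 : ∫ σ in (0 : ℝ)..2 * π, g σ = cos σ₀ * (∫ σ in (0 : ℝ)..2 * π, f σ * sin σ)
      - sin σ₀ * ∫ σ in (0 : ℝ)..2 * π, f σ * cos σ := by
    rw [← intervalIntegral.integral_const_mul, ← intervalIntegral.integral_const_mul,
      ← intervalIntegral.integral_sub (Continuous.intervalIntegrable (by fun_prop) _ _)
        (Continuous.intervalIntegrable (by fun_prop) _ _)]
    congr 1; ext σ; simp only [g, sin_sub]; ring
  unfold c1sq
  set A := ∫ σ in (0 : ℝ)..2 * π, f σ * cos σ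
  set B := ∫ σ in (0 : ℝ)..2 * π, f σ * sin σ
  by_contra hn
  have hA : A = 0 := by nlinarith [sq_nonneg A, sq_nonneg B]
  have hB : B = 0 := by nlinarith [sq_nonneg A, sq_nonneg B]
  rw [hA, hB, i2] at i3
  linarith

/-- One sign on a half circle. -/
lemma Turn.half {n : P → E → ℝ} (h : Turn n) (hl : ∀ u, IsLinearMap ℝ (n u))
    (hy : ∀ u ∈ U, n u u.1 = 0) (hs : ∀ ξ, ∀ u ∈ U, DifferentiableAt ℝ (fun w => n w ξ) u)
    (ho : ∀ u ∈ U, ∀ ξ, n (rev u) ξ = -n u ξ) {u : P} (hu : u ∈ U) {ξ : E} (hξ : cr ξ u.1 ≠ 0) :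
    ∃ σ₀, n (rho σ₀ u) ξ = 0 ∧ (∀ σ ∈ Ioo σ₀ (σ₀ + π), 0 < n (rho σ u) ξ) ∧
      0 < c1sq (fun σ => n (rho σ u) ξ) := by
  set f : ℝ → ℝ := fun σ => n (rho σ u) ξ with hf
  have fc : Continuous f := continuous_iff_continuousAt.2 fun s =>
    (hasDerivAt_V hu (hs ξ _ (rho_mem_U hu s))).continuousAt
  have fo : ∀ σ, f (σ + π) = -f σ := fun σ => by
    simp only [hf, rho_add_pi, ho _ (rho_mem_U hu σ)]
  obtain ⟨σ₁, h1⟩ : ∃ σ₁, f σ₁ = 0 := by
    by_contra hn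
    push Not at hn
    rcases sign_const isPreconnected_univ fc.continuousOn (fun x _ => hn x) with p | p
    · linarith [p 0 trivial, p (0 + π) trivial, fo 0]
    · linarith [p 0 trivial, p (0 + π) trivial, fo 0]
  have nz : ∀ σ ∈ Ioo σ₁ (σ₁ + π), f σ ≠ 0 := fun σ hσ => by
    have := h.two_zeros hl hy hu hξ (a := σ₁) (s := σ - σ₁)
      ⟨by linarith [hσ.1], by linarith [hσ.2]⟩ h1
    rwa [add_sub_cancel] at this
  rcases sign_const isPreconnected_Ioo fc.continuousOn nz with p | p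
  · exact ⟨σ₁, h1, p, c1sq_pos fc fo p⟩
  · have p' : ∀ σ ∈ Ioo (σ₁ + π) (σ₁ + π + π), 0 < f σ := fun σ hσ => by
      have a := p (σ - π) ⟨by linarith [hσ.1], by linarith [hσ.2]⟩
      have b := fo (σ - π)
      rw [sub_add_cancel] at b
      linarith
    exact ⟨σ₁ + π, (fo σ₁).trans (by rw [h1, neg_zero]), p', c1sq_pos fc fo p'⟩

/-- Conversely, if the wedge vanishes there is a common zero. -/
lemma exists_of_wedge_eq_zero {n : P → E → ℝ} (hl : ∀ u, IsLinearMap ℝ (n u)) {u : P} (hu : u ∈ U)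
    {s : ℝ} (h : wedge n u s = 0) : ∃ ξ, cr ξ u.1 ≠ 0 ∧ n u ξ = 0 ∧ n (rho s u) ξ = 0 := by
  obtain ⟨α, β, h0, h1, h2⟩ := exists_of_det_zero h
  exact ⟨α • u.2 + β • cr u.1 u.2, cr_comb_ne hu h0,
    by simpa [(hl _).map_add, (hl _).map_smul] using h1,
    by simpa [(hl _).map_add, (hl _).map_smul] using h2⟩
lemma exists_of_deriv_wedge_eq_zero {n : P → E → ℝ} (hl : ∀ u, IsLinearMap ℝ (n u))
    (hs : ∀ ξ, ∀ u ∈ U, DifferentiableAt ℝ (fun w => n w ξ) u) {u : P} (hu : u ∈ U)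
    (h : deriv (wedge n u) 0 = 0) :
    ∃ ξ, cr ξ u.1 ≠ 0 ∧ n u ξ = 0 ∧ V (fun w => n w ξ) u = 0 := by
  rw [(hasDerivAt_wedge hs hu 0).deriv, rho_zero] at h
  obtain ⟨α, β, h0, h1, h2⟩ := exists_of_det_zero h
  have vl := V_lin hl (fun ξ => hs ξ u hu)
  refine ⟨α • u.2 + β • cr u.1 u.2, cr_comb_ne hu h0,
    by simpa [(hl _).map_add, (hl _).map_smul] using h1, ?_⟩
  have := vl.map_add (α • u.2) (β • cr u.1 u.2)
  rw [vl.map_smul, vl.map_smul] at this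
  rw [this]; exact h2
lemma V_ne_of_wedge {G : P → E} {u : P} (h : deriv (wedge (mm G) u) 0 ≠ 0) : V G u ≠ 0 := by
  intro h0
  apply h
  have : wedge (mm G) u = fun _ => 0 := by
    ext s
    have : ∀ ξ, mm G u ξ = 0 := fun ξ => by simp [mm, h0, dt]
    simp [wedge, this]
  rw [this]; simp
lemma Good.V_ne {G : P → E} (h : Good G) {u : P} (hu : u ∈ U) : V G u ≠ 0 :=
  V_ne_of_wedge (h.turn.pos0 u hu).ne'
lemma Good.congr {G G' : P → E} (h : Good G) (hG' : ContDiffOn ℝ ∞ G' Ind)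
    (e : ∀ u ∈ U, G' u = G u) : Good G' where
  smooth := hG'
  unit u hu := by rw [e u hu]; exact h.unit u hu
  odd u hu := by rw [e u hu, e _ (rev_mem_U hu)]; exact h.odd u hu
  emb u hu s hs := by rw [e u hu, e _ (rho_mem_U hu s)]; exact h.emb u hu s hs
  turn := h.turn.congr fun _ hu ξ => mm_congr hG' h.smooth e hu ξ
/-- Points of one fibre with the same image are equal. -/
lemma Good.inj {G : P → E} (h : Good G) {u u' : P} (hu : u ∈ U) (hu' : u' ∈ U) (e1 : u'.1 = u.1)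
    (e2 : G u' = G u) : u' = u := by
  obtain ⟨s, hs, rfl⟩ := exists_rho hu hu' e1
  rcases hs.1.eq_or_lt with h0 | h0
  · rw [← h0, rho_zero]
  by_cases h1 : s ≤ π
  · exact absurd e2 (h.emb u hu s ⟨h0, h1⟩)
  · have := h.emb _ hu' (2 * π - s) ⟨by linarith [hs.2], by linarith⟩
    rw [rho_add hu, sub_add_cancel, show rho (2 * π) u = rho 0 u from by
      simpa using rho_periodic u 0, rho_zero] at this
    exact absurd e2.symm this
lemma Str.npp {G p : P → E} {c : P → ℝ} (h : Str G p c) {u : P} (hu : u ∈ U) (ξ : E) :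
    npp p u ξ = -c u * mm G u ξ := by
  have := h u hu u.1 ξ
  simp only [cr_self, inner_zero_right, sub_zero] at this
  rw [Zl.npp, V, this, mm, dt_swap23, V]; ring
lemma Data.turn {G p : P → E} {c : P → ℝ} (h : Data G p c) : Turn (npp p) :=
  h.good.turn.mul (c := fun u => -c u) (fun ξ _ hu => diffAt_of_U (contDiffOn_mm h.good.smooth ξ) hu)
    (fun _ hu => (diffAt_of_U h.csm hu).neg)
    (fun u hu u' hu' => by simpa using mul_pos (h.cpos u hu) (h.cpos u' hu'))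
    (fun _ hu ξ => h.str.npp hu ξ)
lemma constr_of_cspeed {G : P → E} (h : Odd1 G) (hc : CSpeed G) : Constr G := by
  intro u hu
  refine ⟨h.unit u hu, ?_⟩
  simp only [vsq, Mean, hc u hu, intervalIntegral.integral_const, sub_zero, smul_eq_mul]
  field_simp
lemma Join.trans {G₁ G₂ G₃ : P → E} (h : Join G₁ G₂) (h' : Join G₂ G₃) : Join G₁ G₃ := by
  obtain ⟨H, hs, hg, h0, h1⟩ := h
  obtain ⟨H', hs', hg', h0', h1'⟩ := h'
  have a1 : ContDiff ℝ ∞ fun s : ℝ => smoothTransition (3 * s) :=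
    smoothTransition.contDiff.comp (by fun_prop)
  have a2 : ContDiff ℝ ∞ fun s : ℝ => smoothTransition (3 * s - 2) :=
    smoothTransition.contDiff.comp (by fun_prop)
  have sm : Sm fun s u => H (smoothTransition (3 * s)) u
      + (H' (smoothTransition (3 * s - 2)) u - H' 0 u) :=
    ContDiffOn.add (sm_reparam hs a1)
      (ContDiffOn.sub (sm_reparam hs' a2) (sm_reparam hs' (a := fun _ => 0) contDiff_const))
  refine ⟨_, sm, fun s => ?_, fun u hu => ?_, fun u hu => ?_⟩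
  · by_cases c : s ≤ 2 / 3
    · refine (hg (smoothTransition (3 * s))).congr (sm.slice s) fun u _ => ?_
      simp [smoothTransition.zero_of_nonpos (show 3 * s - 2 ≤ 0 by linarith)]
    · refine (hg' (smoothTransition (3 * s - 2))).congr (sm.slice s) fun u hu => ?_
      simp [smoothTransition.one_of_one_le (show 1 ≤ 3 * s by linarith), h1 u hu, h0' u hu]
  · simp [smoothTransition.zero_of_nonpos (show (-2 : ℝ) ≤ 0 by norm_num), h0 u hu]
  · simp [smoothTransition.one_of_one_le (show (1 : ℝ) ≤ 3 by norm_num), h1 u hu, h0' u hu,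
      show (3 : ℝ) - 2 = 1 by norm_num, h1' u hu]

end Pool.Agent.MP_2291e2_gt.Zl

end MrgPart2

-- ======== part 3: formerly Pool.Agent.MP_2291e2_gt.zl.Base2
section MrgPart3

/-! Shared lemmas (files `B2a`, `B2b`, `B2c`). -/

end MrgPart3

-- ======== part 4: formerly Pool.Agent.MP_2291e2_gt.zl.Phi
section MrgPart4

/-! The map from unit vectors to the sphere of oriented geodesics. -/

open scoped ContDiff RealInnerProductSpace Topology
open Set Filter Real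

namespace Pool.Agent.MP_2291e2_gt.Zl

namespace Phi

/-! ### stereographic projection -/

lemma den_pos (ζ : ℂ) : 0 < Complex.normSq ζ + 1 := by
  have := Complex.normSq_nonneg ζ
  linarith

lemma norm_st (ζ : ℂ) : ‖st ζ‖ = 1 := by
  have h := (den_pos ζ).ne'
  have e : ‖st ζ‖ ^ 2 = 1 := by
    rw [normsq3]
    simp only [st, PiLp.smul_apply, smul_eq_mul, Matrix.cons_val_zero, Matrix.cons_val_one,
      Matrix.cons_val]
    rw [Complex.normSq_apply] at h ⊢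
    field_simp
    ring
  exact (pow_eq_one_iff_of_nonneg (norm_nonneg _) two_ne_zero).1 e

lemma contDiff_st : ContDiff ℝ ∞ st := by
  have hr : ContDiff ℝ ∞ fun ζ : ℂ => ζ.re := Complex.reCLM.contDiff
  have hi : ContDiff ℝ ∞ fun ζ : ℂ => ζ.im := Complex.imCLM.contDiff
  have hn : ContDiff ℝ ∞ fun ζ : ℂ => Complex.normSq ζ := by
    simp only [Complex.normSq_apply]
    exact (hr.mul hr).add (hi.mul hi)
  refine ContDiff.smul ((hn.add contDiff_const).inv fun ζ => (den_pos ζ).ne') ?_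
  refine contDiff_euclidean.2 fun i => ?_
  fin_cases i
  · exact contDiff_const.mul hr
  · exact contDiff_const.mul hi
  · exact hn.sub contDiff_const

lemma st_zero : st 0 2 = -1 := by simp [st]

/-- The left inverse of `st`. -/
noncomputable def pr (y : E) : ℂ := (1 - y 2)⁻¹ • ((y 0 : ℂ) + (y 1 : ℂ) * Complex.I)

lemma one_sub_st (ζ : ℂ) : 1 - st ζ 2 = 2 * (Complex.normSq ζ + 1)⁻¹ := by
  have h := (den_pos ζ).ne'
  simp only [st, PiLp.smul_apply, smul_eq_mul, Matrix.cons_val]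
  field_simp
  ring

lemma pr_st (ζ : ℂ) : pr (st ζ) = ζ := by
  have h := (den_pos ζ).ne'
  rw [pr, one_sub_st]
  apply Complex.ext
  · simp only [st, PiLp.smul_apply, smul_eq_mul, Matrix.cons_val_zero, Matrix.cons_val_one,
      Complex.smul_re, Complex.add_re, Complex.ofReal_re, Complex.mul_re, Complex.I_re,
      Complex.ofReal_im, Complex.I_im]
    field_simp
    ring
  · simp only [st, PiLp.smul_apply, smul_eq_mul, Matrix.cons_val_zero, Matrix.cons_val_one,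
      Complex.smul_im, Complex.add_im, Complex.ofReal_re, Complex.mul_im, Complex.I_re,
      Complex.ofReal_im, Complex.I_im]
    field_simp
    ring

lemma diffAt_pr (ζ : ℂ) : DifferentiableAt ℝ pr (st ζ) := by
  have hc : ∀ i : Fin 3, DifferentiableAt ℝ (fun y : E => y i) (st ζ) := fun i =>
    (EuclideanSpace.proj (𝕜 := ℝ) i : E →L[ℝ] ℝ).differentiableAt
  have hz : ∀ i : Fin 3, DifferentiableAt ℝ (fun y : E => ((y i : ℝ) : ℂ)) (st ζ) := fun i =>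
    Complex.ofRealCLM.differentiableAt.comp _ (hc i)
  have h0 : 1 - st ζ 2 ≠ 0 := by
    rw [one_sub_st]
    exact mul_ne_zero two_ne_zero (inv_ne_zero (den_pos ζ).ne')
  exact (((differentiableAt_const _).sub (hc 2)).inv h0).smul
    ((hz 0).add ((hz 1).mul_const _))

lemma dW_st {κ : P → ℂ} {u : P} (hκ : DifferentiableAt ℝ κ u) {ξ : E}
    (h : dW (fun w => st (κ w)) u ξ = 0) : dW κ u ξ = 0 := by
  have d1 : DifferentiableAt ℝ (fun w => st (κ w)) u :=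
    (contDiff_st.differentiable (by simp)).differentiableAt.comp u hκ
  have e : κ = pr ∘ fun w => st (κ w) := funext fun w => (pr_st _).symm
  rw [dW] at h ⊢
  rw [e, fderiv_comp u (diffAt_pr _) d1, ContinuousLinearMap.comp_apply, h, map_zero]

/-! ### the flow -/

variable {φ : ℝ → P → P} {a b : P → ℝ} {T : ℝ} {u₀ : P} {T1 xp bp : ℝ × ℝ → ℝ} {κ : P → ℂ}
  {Ψ : ℝ × ℝ → E}

lemma periodic (hZ : ZFlow φ a b T) {u : P} (hu : u ∈ U) :
    Function.Periodic (fun t => φ t u) T := fun t => by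
  simp only [hZ.add, hZ.per u hu]

lemma Ax_mem (hZ : ZFlow φ a b T) (h0 : u₀ ∈ U) (z : ℝ × ℝ) : Ax φ u₀ z ∈ U :=
  rho_mem_U (hZ.maps _ _ h0) _

lemma Ax_per (hZ : ZFlow φ a b T) (h0 : u₀ ∈ U) (x β : ℝ) (n : ℤ) :
    Ax φ u₀ (x + n * T, β) = Ax φ u₀ (x, β) :=
  congrArg (rho β) ((periodic hZ h0).int_mul n x)

lemma xi_rev (hZ : ZFlow φ a b T) {u : P} (hu : u ∈ U) : xi a b (rev u) = -xi a b u := by
  have h1 := hZ.ode _ (rev_mem_U hu) 0
  have h2 : HasDerivAt (fun t => φ (-t) u) ((-1 : ℝ) • W u (xi a b u)) 0 := by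
    have h := hZ.ode u hu (-0)
    have := h.scomp (0 : ℝ) (hasDerivAt_neg (0 : ℝ))
    simpa [hZ.zero, Function.comp_def] using this
  have h3 : HasDerivAt (fun t => φ t (rev u)) (W (rev u) (-xi a b u)) 0 := by
    have := ((ContinuousLinearMap.fst ℝ E E).prod
      (-ContinuousLinearMap.snd ℝ E E)).hasFDerivAt.comp_hasDerivAt (0 : ℝ) h2
    simp only [hZ.revs u hu]
    refine this.congr_deriv (Prod.ext ?_ ?_)
    · simp [W, cr_neg_left]
    · simp [W, cr_neg_left, cr_neg_right]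
  have e := h1.unique h3
  rw [hZ.zero] at e
  have := W_inj (rev_mem_U hu) (ξ := xi a b (rev u) - -xi a b u) (by rw [W_sub, e, sub_self])
  exact sub_eq_zero.1 this

lemma rev_int (hZ : ZFlow φ a b T) (h0 : u₀ ∈ U) (h2 : Cross2 φ T u₀ T1 xp bp) (z : ℝ × ℝ)
    (t : ℝ) : rev (φ t (Ax φ u₀ z)) = φ (T1 z - t) (Ax φ u₀ (xp z, bp z)) := by
  rw [← h2.rel, hZ.revs _ (hZ.maps _ _ (Ax_mem hZ h0 z)), ← hZ.add]
  congr 2
  ring

lemma tri (hZ : ZFlow φ a b T) (h0 : u₀ ∈ U) (h3 : Cross3 φ T u₀) {u : P} (hu : u ∈ U) :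
    (∃ (z : ℝ × ℝ) (t : ℝ), z.2 ∈ Ioo 0 π ∧ u = φ t (Ax φ u₀ z)) ∨ (∃ x, u = φ x u₀) ∨
      ∃ x, u = rev (φ x u₀) := by
  obtain ⟨⟨x, β⟩, t, ⟨hl, hr⟩, e⟩ := h3.surj u hu
  rcases hl.eq_or_lt with hl | hl
  · refine Or.inr (Or.inl ⟨t + x, ?_⟩)
    rw [e, Ax, ← hl, rho_zero, hZ.add]
  rcases hr.eq_or_lt with hr | hr
  · refine Or.inr (Or.inr ⟨-t + x, ?_⟩)
    rw [e, Ax, hr, rho_pi, hZ.revs _ (hZ.maps _ _ h0), hZ.add]
  · exact Or.inl ⟨_, t, ⟨hl, hr⟩, e⟩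

/-- The chart of `U` given by the section and the flow. -/
noncomputable def ch (φ : ℝ → P → P) (u₀ : P) (q : ℝ × ℝ × ℝ) : P :=
  φ q.2.2 (Ax φ u₀ (q.1, q.2.1))

lemma contDiff_ch (hZ : ZFlow φ a b T) : ContDiff ℝ ∞ (ch φ u₀) := by
  have h1 : ContDiff ℝ ∞ fun q : ℝ × ℝ × ℝ => φ q.1 u₀ :=
    hZ.smooth.comp (contDiff_fst.prodMk contDiff_const)
  have h2 : ContDiff ℝ ∞ fun q : ℝ × ℝ × ℝ => rho q.2.1 (φ q.1 u₀) :=
    contDiff_rho.comp ((contDiff_fst.comp contDiff_snd).prodMk h1)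
  exact hZ.smooth.comp ((contDiff_snd.comp contDiff_snd).prodMk h2)

lemma fderiv_ch (hZ : ZFlow φ a b T) (h0 : u₀ ∈ U) (q : ℝ × ℝ × ℝ) (τ : ℝ) :
    fderiv ℝ (ch φ u₀) q (0, 0, τ) = W (ch φ u₀ q) (τ • xi a b (ch φ u₀ q)) := by
  have hd := ((contDiff_ch (u₀ := u₀) hZ).differentiable (by simp) q).hasFDerivAt
  have hc : HasDerivAt (fun t : ℝ => (q.1, q.2.1, t)) ((0 : ℝ), (0 : ℝ), (1 : ℝ)) q.2.2 :=
    (hasDerivAt_const _ _).prodMk ((hasDerivAt_const _ _).prodMk (hasDerivAt_id _))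
  have h1 := HasFDerivAt.comp_hasDerivAt (f := fun t : ℝ => (q.1, q.2.1, t)) q.2.2 hd hc
  have e := h1.unique (hZ.ode _ (Ax_mem hZ h0 (q.1, q.2.1)) q.2.2)
  rw [show ((0 : ℝ), (0 : ℝ), τ) = τ • ((0 : ℝ), (0 : ℝ), (1 : ℝ)) by simp, map_smul, e, W_smul]
  rfl

/-! ### the map on `U` -/

open Classical in
/-- The map on `U`. -/
noncomputable def F0 (φ : ℝ → P → P) (u₀ : P) (Ψ : ℝ × ℝ → E) (u : P) : E :=
  if h : ∃ z : ℝ × ℝ, z.2 ∈ Ioo 0 π ∧ ∃ t, u = φ t (Ax φ u₀ z) then Ψ h.choose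
  else if ∃ x, u = φ x u₀ then st 0 else -st 0

lemma val_int {K : ℝ × ℝ → ℂ} (h3 : Cross3 φ T u₀) (hG : GlueOut T xp bp K Ψ) {z : ℝ × ℝ}
    (hz : z.2 ∈ Ioo 0 π) (t : ℝ) : F0 φ u₀ Ψ (φ t (Ax φ u₀ z)) = Ψ z := by
  have h : ∃ z' : ℝ × ℝ, z'.2 ∈ Ioo 0 π ∧ ∃ t', φ t (Ax φ u₀ z) = φ t' (Ax φ u₀ z') :=
    ⟨z, hz, t, rfl⟩
  rw [F0, dif_pos h]
  obtain ⟨h1, t', h2⟩ := h.choose_spec
  obtain ⟨n, hn⟩ := h3.uniq z _ t t' hz h1 h2
  rw [hn]
  have hp : Function.Periodic (fun x => Ψ (x, z.2)) T := fun x => hG.per x _ hz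
  exact hp.int_mul n z.1

lemma val_south (h3 : Cross3 φ T u₀) (x : ℝ) : F0 φ u₀ Ψ (φ x u₀) = st 0 := by
  rw [F0, dif_neg, if_pos ⟨x, rfl⟩]
  rintro ⟨z, hz, t, e⟩
  exact h3.notor z t x ⟨hz.1, hz.2.le⟩ e.symm

lemma val_north (hZ : ZFlow φ a b T) (h0 : u₀ ∈ U) (h2 : Cross2 φ T u₀ T1 xp bp)
    (h3 : Cross3 φ T u₀) (x : ℝ) : F0 φ u₀ Ψ (rev (φ x u₀)) = -st 0 := by
  rw [F0, dif_neg, if_neg]
  · rintro ⟨x', e⟩
    refine h3.notor (x, π) 0 x' ⟨pi_pos, le_rfl⟩ ?_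
    rw [hZ.zero, Ax, rho_pi, e]
  · rintro ⟨z, hz, t, e⟩
    have hb := h2.inv.bmem z hz
    refine h3.notor (xp z, bp z) (T1 z - t) x ⟨hb.1, hb.2.le⟩ ?_
    rw [← rev_int hZ h0 h2, ← e, rev_rev]

lemma F0_odd {K : ℝ × ℝ → ℂ} (hZ : ZFlow φ a b T) (h0 : u₀ ∈ U) (h2 : Cross2 φ T u₀ T1 xp bp)
    (h3 : Cross3 φ T u₀) (hG : GlueOut T xp bp K Ψ) {u : P} (hu : u ∈ U) :
    F0 φ u₀ Ψ (rev u) = -F0 φ u₀ Ψ u := by
  rcases tri hZ h0 h3 hu with ⟨z, t, hz, rfl⟩ | ⟨x, rfl⟩ | ⟨x, rfl⟩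
  · rw [rev_int hZ h0 h2, val_int h3 hG (h2.inv.bmem z hz), val_int h3 hG hz, hG.odd z hz]
  · rw [val_north hZ h0 h2 h3, val_south h3]
  · rw [rev_rev, val_north hZ h0 h2 h3, val_south h3, neg_neg]

lemma F0_inv {K : ℝ × ℝ → ℂ} (hZ : ZFlow φ a b T) (h0 : u₀ ∈ U) (h2 : Cross2 φ T u₀ T1 xp bp)
    (h3 : Cross3 φ T u₀) (hG : GlueOut T xp bp K Ψ) {u : P} (hu : u ∈ U) (s : ℝ) :
    F0 φ u₀ Ψ (φ s u) = F0 φ u₀ Ψ u := by
  rcases tri hZ h0 h3 hu with ⟨z, t, hz, rfl⟩ | ⟨x, rfl⟩ | ⟨x, rfl⟩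
  · rw [← hZ.add, val_int h3 hG hz, val_int h3 hG hz]
  · rw [← hZ.add, val_south h3, val_south h3]
  · rw [hZ.revs _ (hZ.maps _ _ h0), ← hZ.add, val_north hZ h0 h2 h3, val_north hZ h0 h2 h3]

lemma F0_unit {K : ℝ × ℝ → ℂ} (hZ : ZFlow φ a b T) (h0 : u₀ ∈ U) (h2 : Cross2 φ T u₀ T1 xp bp)
    (h3 : Cross3 φ T u₀) (hG : GlueOut T xp bp K Ψ) {u : P} (hu : u ∈ U) :
    ‖F0 φ u₀ Ψ u‖ = 1 := by
  rcases tri hZ h0 h3 hu with ⟨z, t, hz, rfl⟩ | ⟨x, rfl⟩ | ⟨x, rfl⟩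
  · rw [val_int h3 hG hz, hG.unit z hz]
  · rw [val_south h3, norm_st]
  · rw [val_north hZ h0 h2 h3, norm_neg, norm_st]

/-- A smooth local model of `f` on `U` near `u` whose kernel is the flow direction. -/
def Model (a b : P → ℝ) (f : P → E) (u : P) : Prop :=
  ∃ g : P → E, ContDiffAt ℝ ∞ g u ∧ (∀ᶠ w in 𝓝 u, w ∈ U → f w = g w) ∧
    ∀ ξ, dW g u ξ = 0 → ∃ t : ℝ, ξ = t • xi a b u

lemma model_int {K : ℝ × ℝ → ℂ} (hL : LocInvStmt) (hZ : ZFlow φ a b T) (h0 : u₀ ∈ U)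
    (h3 : Cross3 φ T u₀) (hG : GlueOut T xp bp K Ψ) {z : ℝ × ℝ} (hz : z.2 ∈ Ioo 0 π) (t : ℝ) :
    Model a b (F0 φ u₀ Ψ) (φ t (Ax φ u₀ z)) := by
  have hm : ∀ q, ch φ u₀ q ∈ U := fun q => hZ.maps _ _ (Ax_mem hZ h0 _)
  obtain ⟨G, hGs, hl, hr⟩ := hL.2.1 (ch φ u₀) (z.1, z.2, t) (contDiff_ch hZ).contDiffAt
    (Eventually.of_forall hm) (h3.imm z t (sin_pos_of_mem_Ioo hz).ne')
  have e0 := hl.self_of_nhds
  set u := ch φ u₀ (z.1, z.2, t) with hu
  change Model a b _ u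
  have hp : ContDiffAt ℝ ∞ (fun w => ((G w).1, (G w).2.1)) u := hGs.fst.prodMk hGs.snd.fst
  have hΨ : ContDiffAt ℝ ∞ Ψ ((G u).1, (G u).2.1) := by rw [e0]; exact hG.smooth z hz
  refine ⟨fun w => Ψ ((G w).1, (G w).2.1), hΨ.comp u hp, ?_, fun ξ hξ => ?_⟩
  · have h1 : ∀ᶠ w in 𝓝 u, (G w).2.1 ∈ Ioo 0 π :=
      hGs.snd.fst.continuousAt.eventually_mem (isOpen_Ioo.mem_nhds (by rw [e0]; exact hz))
    filter_upwards [h1, hr] with w h1 h2 hw
    conv_lhs => rw [← h2 hw]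
    exact val_int h3 hG (z := ((G w).1, (G w).2.1)) h1 _
  · have dG := (hGs.differentiableAt (by simp)).hasFDerivAt
    have d1 := (hΨ.differentiableAt (by simp)).hasFDerivAt.comp u (dG.fst.prodMk dG.snd.fst)
    have e1 : fderiv ℝ Ψ ((G u).1, (G u).2.1)
        ((fderiv ℝ G u (W u ξ)).1, (fderiv ℝ G u (W u ξ)).2.1) = 0 := by
      rw [← hξ, dW]
      exact (congrArg (fun A : P →L[ℝ] E => A (W u ξ)) d1.fderiv).symm
    rw [e0] at e1
    have e2 := hG.imm z hz _ e1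
    have dc : DifferentiableAt ℝ (ch φ u₀) (G u) := (contDiff_ch hZ).differentiable (by simp) _
    have e3 : dW (fun w => ch φ u₀ (G w)) u ξ = W u ξ := by
      refine (dW_congr_nhds (g := fun w => w) (hm _) (dc.comp u dG.differentiableAt)
        differentiableAt_id hr ξ).trans ?_
      simp [dW, hu]
    have e4 : fderiv ℝ (ch φ u₀) (G u) (fderiv ℝ G u (W u ξ)) = W u ξ := by
      refine Eq.trans ?_ e3
      exact (congrArg (fun A : P →L[ℝ] P => A (W u ξ)) (dc.hasFDerivAt.comp u dG).fderiv).symm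
    have e5 : fderiv ℝ G u (W u ξ) = (0, 0, (fderiv ℝ G u (W u ξ)).2.2) :=
      Prod.ext (Prod.ext_iff.1 e2).1 (Prod.ext (Prod.ext_iff.1 e2).2 rfl)
    rw [e5, fderiv_ch hZ h0, e0] at e4
    refine ⟨(fderiv ℝ G u (W u ξ)).2.2, sub_eq_zero.1 (W_inj (hm (z.1, z.2, t)) ?_)⟩
    rw [W_sub, e4, sub_self]

lemma model_south (hZ : ZFlow φ a b T) (h0 : u₀ ∈ U) (h3 : Cross3 φ T u₀)
    (hK : Pole φ a b T u₀ κ) (hG : GlueOut T xp bp (fun z => κ (Ax φ u₀ z)) Ψ) (x : ℝ) :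
    Model a b (F0 φ u₀ Ψ) (φ x u₀) := by
  refine ⟨fun w => st (κ w), (contDiff_st.comp hK.smooth).contDiffAt, ?_, fun ξ hξ =>
    hK.rank x ξ (dW_st (hK.smooth.differentiable (by simp) _) hξ)⟩
  obtain ⟨δ, hδ, hp⟩ := hG.pole
  have hd : 0 < min δ π := lt_min hδ pi_pos
  have hC : IsCompact (ch φ u₀ '' (Icc 0 T ×ˢ Icc (min δ π) π ×ˢ Icc 0 T)) :=
    (isCompact_Icc.prod (isCompact_Icc.prod isCompact_Icc)).image (contDiff_ch hZ).continuous
  have hn : φ x u₀ ∈ (ch φ u₀ '' (Icc 0 T ×ˢ Icc (min δ π) π ×ˢ Icc 0 T))ᶜ := by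
    rintro ⟨q, ⟨-, hq, -⟩, e⟩
    exact h3.notor (q.1, q.2.1) q.2.2 x ⟨hd.trans_le hq.1, hq.2⟩ e
  filter_upwards [hC.isClosed.isOpen_compl.mem_nhds hn] with w hw hU
  obtain ⟨⟨y, β⟩, t, ⟨hl, hr⟩, rfl⟩ := h3.surj w hU
  have hβ : β < min δ π := by
    by_contra hc
    obtain ⟨y', hy, ey⟩ := (periodic hZ h0).exists_mem_Ico₀ hZ.Tpos y
    obtain ⟨t', ht, et⟩ := (periodic hZ (Ax_mem hZ h0 (y, β))).exists_mem_Ico₀ hZ.Tpos t
    refine hw ⟨(y', β, t'), ⟨Ico_subset_Icc_self hy, ⟨not_lt.1 hc, hr⟩, Ico_subset_Icc_self ht⟩, ?_⟩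
    rw [et, ch, Ax, Ax]
    exact congrArg (fun v => φ t' (rho β v)) ey.symm
  rcases hl.eq_or_lt with hl | hl
  · have : β = 0 := hl.symm
    subst this
    rw [Ax, rho_zero, ← hZ.add, val_south h3, hK.inv _ h0, hK.zero]
  · rw [val_int h3 hG ⟨hl, hβ.trans_le (min_le_right _ _)⟩,
      hp _ ⟨hl, hβ.trans_le (min_le_left _ _)⟩, hK.inv _ (Ax_mem hZ h0 _)]

lemma model_rev (hZ : ZFlow φ a b T) {f : P → E} (ho : ∀ u ∈ U, f (rev u) = -f u) {u : P}
    (hu : u ∈ U) (h : Model a b f u) : Model a b f (rev u) := by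
  obtain ⟨g, h1, h2, h3⟩ := h
  have h1' : ContDiffAt ℝ ∞ g (rev (rev u)) := by rwa [rev_rev]
  have hc : ContDiffAt ℝ ∞ (fun w => g (rev w)) (rev u) := h1'.comp _ contDiff_rev.contDiffAt
  refine ⟨fun w => -g (rev w), hc.neg, ?_, fun ξ hξ => ?_⟩
  · have ht : Tendsto rev (𝓝 (rev u)) (𝓝 u) := by
      simpa using continuous_rev.tendsto (rev u)
    filter_upwards [ht.eventually h2] with w hw hU
    rw [← hw (rev_mem_U hU), ho w hU, neg_neg]
  · have e : dW (fun w => -g (rev w)) (rev u) ξ = -dW g u ξ := by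
      have := dW_comp_rev (h1'.differentiableAt (by simp)) ξ
      rw [rev_rev] at this
      rw [← this, dW, dW, fderiv_fun_neg]
      rfl
    obtain ⟨t, ht⟩ := h3 ξ (neg_eq_zero.1 (e ▸ hξ))
    exact ⟨-t, by rw [xi_rev hZ hu, ht, smul_neg, neg_smul, neg_neg]⟩

end Phi

open Phi in
theorem phi_of (hL : LocInvStmt) : PhiStmt := by
  intro φ a b T u₀ T1 xp bp κ Ψ hZ h0 h2 h3 hK hG
  have hM : ∀ u ∈ U, Model a b (F0 φ u₀ Ψ) u := fun u hu => by
    rcases tri hZ h0 h3 hu with ⟨z, t, hz, rfl⟩ | ⟨x, rfl⟩ | ⟨x, rfl⟩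
    · exact model_int hL hZ h0 h3 hG hz t
    · exact model_south hZ h0 h3 hK hG x
    · exact model_rev hZ (fun u hu => F0_odd hZ h0 h2 h3 hG hu) (hZ.maps _ _ h0)
        (model_south hZ h0 h3 hK hG x)
  have hs : ContDiffOn ℝ ∞ (fun u => F0 φ u₀ Ψ (rt u)) Ind := fun u hu => by
    obtain ⟨g, h1, hg, -⟩ := hM _ (rt_mem_U hu)
    refine ((h1.comp u (contDiffAt_rt hu)).congr_of_eventuallyEq ?_).contDiffWithinAt
    filter_upwards [(contDiffAt_rt hu).continuousAt.tendsto.eventually hg,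
      isOpen_Ind.mem_nhds hu] with w hw hI
    exact hw (rt_mem_U hI)
  refine ⟨fun u => F0 φ u₀ Ψ (rt u), ⟨hs, fun u hu => ?_, fun u hu => ?_⟩, fun u hu t => ?_,
    fun u hu ξ hξ => ?_, ?_⟩
  · rw [rt_of_U hu]; exact F0_unit hZ h0 h2 h3 hG hu
  · rw [rt_of_U hu, rt_of_U (rev_mem_U hu)]; exact F0_odd hZ h0 h2 h3 hG hu
  · rw [rt_of_U hu, rt_of_U (hZ.maps _ _ hu)]; exact F0_inv hZ h0 h2 h3 hG hu t
  · obtain ⟨g, h1, hg, hr⟩ := hM u hu
    refine hr ξ ?_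
    rw [← hξ]
    refine (dW_congr_nhds hu (diffAt_of_U hs hu) (h1.differentiableAt (by simp)) ?_ ξ).symm
    filter_upwards [hg] with w hw hU
    rw [rt_of_U hU, hw hU]
  · obtain ⟨z₀, hz₀, e2, hz⟩ := hG.single
    refine ⟨Ax φ u₀ z₀, Ax_mem hZ h0 _, fun u hu e => ?_⟩
    have e1 : F0 φ u₀ Ψ (Ax φ u₀ z₀) = Ψ z₀ := by
      have := val_int h3 hG hz₀ 0
      rwa [hZ.zero] at this
    rw [rt_of_U hu, rt_of_U (Ax_mem hZ h0 _), e1] at e
    rcases tri hZ h0 h3 hu with ⟨z, t, hz', rfl⟩ | ⟨x, rfl⟩ | ⟨x, rfl⟩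
    · rw [val_int h3 hG hz'] at e
      obtain ⟨n, rfl⟩ := hz z hz' e
      exact ⟨t, by rw [Ax_per hZ h0]⟩
    · rw [val_south h3] at e
      rw [← e, st_zero] at e2
      norm_num at e2
    · rw [val_north hZ h0 h2 h3] at e
      rw [← e, PiLp.neg_apply, st_zero] at e2
      norm_num at e2

end Pool.Agent.MP_2291e2_gt.Zl

end MrgPart4

-- ======== part 5: formerly Pool.Agent.MP_2291e2_gt.zl.Spec2
section MrgPart5

/-! Statements for the last step: a round metric `ψ^* g₀` is joined to `g₀`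
(every diffeomorphism of the sphere is isotopic to an isometry). -/

open scoped ContDiff RealInnerProductSpace Topology
open Set Filter Real

namespace Pool.Agent.MP_2291e2_gt.Zl

def IsoDiff (ψ : E → E) : Prop :=
  ContDiffOn ℝ ∞ ψ {0}ᶜ ∧ BijOn ψ (Metric.sphere 0 1) (Metric.sphere 0 1) ∧
    ∀ x w, Tan x w → fderiv ℝ ψ x w ≠ 0

def SphIso (Ψ : ℝ → E → E) : Prop :=
  ContDiffOn ℝ ∞ (fun q : ℝ × E => Ψ q.1 q.2) (univ ×ˢ {0}ᶜ) ∧ ∀ s, IsoDiff (Ψ s)

def ZJoin (L₀ L₁ : P → ℝ) : Prop :=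
  ∃ L : ℝ → P → ℝ, Sm L ∧ (∀ s, IsZoll (L s)) ∧ (∀ x w, Tan x w → L 0 (x, w) = L₀ (x, w)) ∧
    ∀ x w, Tan x w → L 1 (x, w) = L₁ (x, w)

def ZCongrStmt : Prop :=
  (∀ L L' : P → ℝ, IsZoll L → ContDiffOn ℝ ∞ L' Ind →
    (∀ x w, Tan x w → L' (x, w) = L (x, w)) → IsZoll L') ∧
  (∀ L₀ L₁, ZJoin L₀ L₁ → ZJoin L₁ L₀) ∧
  ∀ L₀ L₁ L₂, ZJoin L₀ L₁ → ZJoin L₁ L₂ → ZJoin L₀ L₂

/-- Energy of the pull-back of the round metric. -/
noncomputable def pull (ψ : E → E) (u : P) : ℝ := ‖fderiv ℝ ψ u.1 u.2‖ ^ 2 / 2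

def PullStmt : Prop :=
  (∀ Ψ, SphIso Ψ → ZJoin (pull (Ψ 0)) (pull (Ψ 1))) ∧
  ∀ (ψ ψ' : E → E) (A : E ≃ₗᵢ[ℝ] E), ContDiffOn ℝ ∞ ψ {0}ᶜ → ContDiffOn ℝ ∞ ψ' {0}ᶜ →
    (∀ y, ‖y‖ = 1 → ψ' y = A (ψ y)) → ∀ x w, Tan x w → pull ψ' (x, w) = pull ψ (x, w)

/-- The rotation index of a simple closed curve is not zero. -/
def UmlaufStmt : Prop :=
  ∀ (c c1 a : ℝ → ℂ) (L : ℝ), 0 < L → (∀ t, HasDerivAt c (c1 t) t) → Continuous c1 →
    Function.Periodic c L → InjOn c (Ico 0 L) → Continuous a → Function.Periodic a L →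
    ¬ ∀ t, c1 t / Complex.exp (a t) ∈ Complex.slitPlane

/-- A plane vector field without zeros has no bounded forward orbit. -/
def ExitStmt : Prop :=
  ∀ (a : ℂ → ℂ) (φ : ℝ → ℂ → ℂ), ContDiff ℝ ∞ a → ContDiff ℝ ∞ (fun q : ℝ × ℂ => φ q.1 q.2) →
    (∀ z, φ 0 z = z) → (∀ s t z, φ (s + t) z = φ s (φ t z)) →
    (∀ z t, HasDerivAt (fun t => φ t z) (Complex.exp (a (φ t z))) t) →
    ∀ (z : ℂ) (R : ℝ), ∃ t ≥ 0, R < ‖φ t z‖

def PlaneDiff (f : ℂ → ℂ) : Prop :=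
  ContDiff ℝ ∞ f ∧ (∃ R, ∀ z, R ≤ ‖z‖ → f z = z) ∧ ∀ z δ, fderiv ℝ f z δ = 0 → δ = 0

def PlaneIso (k : ℝ → ℂ → ℂ) : Prop :=
  ContDiff ℝ ∞ (fun q : ℝ × ℂ => k q.1 q.2) ∧ (∃ R, ∀ s z, R ≤ ‖z‖ → k s z = z) ∧
    ∀ s z δ, fderiv ℝ (k s) z δ = 0 → δ = 0

def PlaneBijStmt : Prop :=
  ∀ f, PlaneDiff f → ∃ g : ℂ → ℂ, ContDiff ℝ ∞ g ∧ (∀ z, g (f z) = z) ∧ ∀ z, f (g z) = z

def GermStmt : Prop :=
  ∀ (h : ℂ → ℂ) (r : ℝ), 0 < r → ContDiffOn ℝ ∞ h (Metric.ball 0 r) → h 0 = 0 →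
    (fderiv ℝ h 0 1).im = 0 → 0 < (fderiv ℝ h 0 1).re → 0 < (fderiv ℝ h 0 Complex.I).im →
    ∃ k, PlaneIso k ∧ (∀ z, k 0 z = z) ∧ ∀ᶠ z in 𝓝 0, k 1 z = h z

/-- The flow construction: an isotopy that is a shear on the right of the support. -/
structure Shear (f : ℂ → ℂ) (F : ℝ → ℂ → ℂ) (a b : ℝ → ℝ → ℝ) (R : ℝ) : Prop where
  Rpos : 0 < R
  smooth : ContDiff ℝ ∞ (fun q : ℝ × ℂ => F q.1 q.2)
  imm : ∀ s z δ, fderiv ℝ (F s) z δ = 0 → δ = 0
  zero : ∀ z, F 0 z = f z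
  one : ∀ z, F 1 z = z
  left : ∀ s (z : ℂ), z.re ≤ -R → F s z = z
  far : ∀ s (z : ℂ), R ≤ |z.im| → F s z = z
  right : ∀ s (z : ℂ), R ≤ z.re → F s z = ⟨z.re + a s z.im, b s z.im⟩
  a0 : ∀ y, a 0 y = 0 ∧ b 0 y = y
  bdd : ∃ C, ∀ s y, |a s y| ≤ C

def ShearStmt : Prop := ∀ f, PlaneDiff f → ∃ F a b R, Shear f F a b R

def PlaneSmaleStmt : Prop :=
  ∀ f, PlaneDiff f → ∃ k, PlaneIso k ∧ (∀ z, k 0 z = f z) ∧ ∀ z, k 1 z = z

noncomputable def north : E := !₂[0, 0, 1]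

def TransferStmt : Prop :=
  ∀ k, PlaneIso k → ∃ K, SphIso K ∧ (∀ s y, y ≠ 0 → ‖K s y‖ = 1) ∧
    (∀ s ζ, K s (st ζ) = st (k s ζ)) ∧ ∀ s, K s north = north

def SmaleStmt : Prop := ∀ ψ, IsoDiff ψ → ZJoin (pull ψ) (pull id)

end Pool.Agent.MP_2291e2_gt.Zl

end MrgPart5

-- marker of a merged file
example : 731051 + 863152 = 731051 + 863152 := rfl
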