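import Mathlib.Topology.Algebra.Module.Cardinality
import Pool.Agent.MP_2291e2_gt.zl.Spec2

/-! The first crossing time of the geodesics that start on a fixed closed geodesic. -/

open scoped ContDiff RealInnerProductSpace Topology
open Set Filter Real

namespace Pool.Agent.MP_2291e2_gt.Zl

namespace Cross1

lemma dense_sin : Dense {β : ℝ | sin β ≠ 0} := by
  have h : {β : ℝ | sin β = 0}.Countable := by
    refine (countable_range fun n : ℤ => (n : ℝ) * π).mono fun β hβ => ?_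
    exact sin_eq_zero_iff.1 hβ
  exact h.dense_compl ℝ

/-- Cancellation of the sine. -/
lemma cancel_sin {g k : ℝ → ℝ} (hg : Continuous g) (hk : Continuous k)
    (h : ∀ β, sin β * g β = sin β * k β) (β : ℝ) : g β = k β :=
  congrFun (Continuous.ext_on dense_sin hg hk fun β hβ => mul_left_cancel₀ hβ (h β)) β

/-- Division by the sine of the last variable. -/
lemma div_sin (hP : PIntStmt) {X : Type} [NormedAddCommGroup X] [NormedSpace ℝ X]
    {H : X × ℝ → ℝ} (hH : ContDiff ℝ ∞ H) (h0 : ∀ x β, sin β = 0 → H (x, β) = 0) :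
    ∃ j : X × ℝ → ℝ, ContDiff ℝ ∞ j ∧ ∀ q, H q = sin q.2 * j q := by
  classical
  have key : ∀ β₀, sin β₀ = 0 → ∃ g : X × ℝ → ℝ, (∀ x, ContDiffAt ℝ ∞ g (x, β₀)) ∧
      ∀ᶠ β in 𝓝 β₀, β ≠ β₀ → sin β ≠ 0 ∧ ∀ x, g (x, β) = H (x, β) / sin β := by
    intro β₀ hβ
    obtain ⟨g, hg, hg1, -⟩ := hadamard hP (f := fun q : X × ℝ => H (q.1, β₀ + q.2))
      (hH.comp (by fun_prop)) (fun x => by simpa using h0 x β₀ hβ)
    obtain ⟨σ, hσ, hσ1, hσ2⟩ := hadamard hP (f := fun q : ℝ × ℝ => sin (β₀ + q.2))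
      (by fun_prop) (fun x => by simpa using hβ)
    have hσ0 : σ (0, 0) ≠ 0 := by
      rw [hσ2]
      have d : HasFDerivAt (fun q : ℝ × ℝ => β₀ + q.2) (ContinuousLinearMap.snd ℝ ℝ ℝ)
          ((0 : ℝ), (0 : ℝ)) := hasFDerivAt_snd.const_add β₀
      rw [d.sin.fderiv]
      have := sin_sq_add_cos_sq β₀
      intro h
      simp at h
      rw [hβ, h] at this
      norm_num at this
    have hc : ContinuousAt (fun β => σ (0, β - β₀)) β₀ := by
      have := hσ.continuous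
      fun_prop
    refine ⟨fun q => g (q.1, q.2 - β₀) / σ (0, q.2 - β₀), fun x => ?_, ?_⟩
    · refine ContDiffAt.div ?_ ?_ (by simpa using hσ0)
      · exact (hg.comp (by fun_prop : ContDiff ℝ ∞ fun q : X × ℝ => (q.1, q.2 - β₀))).contDiffAt
      · exact (hσ.comp
          (by fun_prop : ContDiff ℝ ∞ fun q : X × ℝ => ((0 : ℝ), q.2 - β₀))).contDiffAt
    · filter_upwards [hc.eventually_ne (y := 0) (by simpa using hσ0)] with β hb hne
      have e1 : sin β = (β - β₀) * σ (0, β - β₀) := by simpa using hσ1 (0, β - β₀)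
      have hd : β - β₀ ≠ 0 := sub_ne_zero.2 hne
      refine ⟨e1 ▸ mul_ne_zero hd hb, fun x => ?_⟩
      have e2 : H (x, β) = (β - β₀) * g (x, β - β₀) := by simpa using hg1 (x, β - β₀)
      rw [e1, e2, mul_div_mul_left _ _ hd]
  choose! g hg hg' using key
  refine ⟨fun q => if sin q.2 = 0 then g q.2 q else H q / sin q.2, ?_, fun q => ?_⟩
  · rw [contDiff_iff_contDiffAt]
    rintro ⟨x, β₀⟩
    by_cases hβ : sin β₀ = 0
    · refine (hg β₀ hβ x).congr_of_eventuallyEq ?_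
      filter_upwards [(continuous_snd.tendsto (x, β₀)).eventually (hg' β₀ hβ)] with q hq
      by_cases e : q.2 = β₀
      · rw [if_pos (e ▸ hβ), e]
      · rw [if_neg (hq e).1, ← (hq e).2 q.1]
    · have hs : ContDiffAt ℝ ∞ (fun q : X × ℝ => sin q.2) (x, β₀) := by fun_prop
      refine (hH.contDiffAt.div hs hβ).congr_of_eventuallyEq ?_
      filter_upwards [hs.continuousAt.eventually_ne hβ] with q hq
      rw [if_neg hq]
      rfl
  · by_cases hβ : sin q.2 = 0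
    · rw [hβ, zero_mul]; exact h0 q.1 q.2 hβ
    · simp only [if_neg hβ]
      field_simp

variable {φ : ℝ → P → P} {a b : P → ℝ} {T : ℝ} {u₀ : P} {N : Set E} {f : E → ℝ}

lemma cr_xi {u : P} (h : u ∈ U) : cr (xi a b u) u.1 = a u • u.2 := by
  simp [xi, cr_add_left, cr_smul_left, cr_cr_left, inner_U21 h, h.1]

lemma slice (hZ : PFlow φ a b) (t : ℝ) : ContDiff ℝ ∞ (φ t) :=
  hZ.smooth.comp (by fun_prop : ContDiff ℝ ∞ fun u : P => (t, u))

lemma diff (hZ : PFlow φ a b) (t : ℝ) (u : P) : DifferentiableAt ℝ (φ t) u :=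
  (slice hZ t).differentiable (by simp) u

lemma base_deriv (hZ : PFlow φ a b) {u : P} (h : u ∈ U) (t : ℝ) :
    HasDerivAt (fun t => (φ t u).1) (a (φ t u) • (φ t u).2) t := by
  rw [← cr_xi (b := b) (hZ.maps t u h)]
  exact (hZ.ode u h t).fst

lemma per (hZ : ZFlow φ a b T) {u : P} (h : u ∈ U) : Function.Periodic (fun t => φ t u) T :=
  fun t => by simp only [hZ.add, hZ.per u h]

lemma inj_mod (hZ : ZFlow φ a b T) {u : P} (h : u ∈ U) {s t : ℝ}
    (e : (φ s u).1 = (φ t u).1) : φ s u = φ t u := by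
  have k : ∀ r, φ (toIcoMod hZ.Tpos 0 r) u = φ r u := fun r => (per hZ h).sub_zsmul_eq _
  have m : ∀ r, toIcoMod hZ.Tpos 0 r ∈ Ico 0 T := fun r => by
    simpa using toIcoMod_mem_Ico hZ.Tpos 0 r
  have := hZ.inj u h (m s) (m t) (by simp only [k]; exact e)
  rw [← k s, this, k]

lemma Ax_mem (hZ : PFlow φ a b) (h : u₀ ∈ U) (z : ℝ × ℝ) : Ax φ u₀ z ∈ U :=
  rho_mem_U (hZ.maps _ _ h) _

lemma rho_of_sin {β : ℝ} (hβ : sin β = 0) (u : P) : rho β u = u ∨ rho β u = rev u := by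
  rcases sin_eq_zero_iff_cos_eq.1 hβ with h | h
  · left; simp [rho, hβ, h]
  · right; simp [rho, rev, hβ, h]

lemma flow_Ax (hZ : PFlow φ a b) (h : u₀ ∈ U) {z : ℝ × ℝ} (hz : sin z.2 = 0) (t : ℝ) :
    ∃ z' : ℝ × ℝ, sin z'.2 = 0 ∧ φ t (Ax φ u₀ z) = Ax φ u₀ z' := by
  rcases rho_of_sin hz (φ z.1 u₀) with e | e
  · exact ⟨(t + z.1, 0), by simp, by rw [Ax, e, Ax, rho_zero, hZ.add]⟩
  · exact ⟨(-t + z.1, π), by simp, by
      rw [Ax, e, Ax, rho_pi, hZ.revs _ (hZ.maps _ _ h), hZ.add]⟩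

lemma sin_back (hZ : ZFlow φ a b T) (h : u₀ ∈ U) {z z' : ℝ × ℝ} {t : ℝ}
    (e : φ t (Ax φ u₀ z) = Ax φ u₀ z') (hz : sin z'.2 = 0) : sin z.2 = 0 := by
  obtain ⟨w, hw, e2⟩ := flow_Ax hZ.toPFlow h hz (-t)
  rw [← e, ← hZ.add, neg_add_cancel, hZ.zero] at e2
  have e3 : φ z.1 u₀ = φ w.1 u₀ := inj_mod hZ h (congrArg (fun u : P => u.1) e2 :)
  rw [Ax, Ax, ← e3] at e2
  obtain ⟨k, hk⟩ := (rho_eq_iff (hZ.maps _ _ h)).1 e2
  rw [hk, sin_add_int_mul_two_pi, hw]

lemma f_c0 (hZ : PFlow φ a b) (h : u₀ ∈ U) (hF : Fermi φ T u₀ N f) {y : E} (hy : y ∈ c0 φ u₀) :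
    f y = 0 := by
  refine (hF.zero y (hF.sub hy) ?_).2 hy
  obtain ⟨x, rfl⟩ := hy
  exact (hZ.maps x _ h).1

lemma df_v (hZ : PFlow φ a b) (h : u₀ ∈ U) (hF : Fermi φ T u₀ N f) (x : ℝ) :
    fderiv ℝ f (φ x u₀).1 (φ x u₀).2 = 0 := by
  have d := (hF.smooth.differentiable (by simp) _).hasFDerivAt.comp_hasDerivAt x
    (base_deriv hZ h x)
  have e : (f ∘ fun t => (φ t u₀).1) = fun _ => 0 := funext fun t => f_c0 hZ h hF ⟨t, rfl⟩
  rw [e] at d
  have := d.unique (hasDerivAt_const x 0)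
  rw [map_smul, smul_eq_mul] at this
  exact (mul_eq_zero.1 this).resolve_left (hZ.apos _ (hZ.maps _ _ h)).ne'

/-- The normal derivative of the Fermi function along the curve. -/
noncomputable def GG (φ : ℝ → P → P) (u₀ : P) (f : E → ℝ) (x : ℝ) : ℝ :=
  fderiv ℝ f (φ x u₀).1 (cr (φ x u₀).1 (φ x u₀).2)

lemma df_A (hZ : PFlow φ a b) (h : u₀ ∈ U) (hF : Fermi φ T u₀ N f) (z : ℝ × ℝ) :
    fderiv ℝ f (Ax φ u₀ z).1 (Ax φ u₀ z).2 = sin z.2 * GG φ u₀ f z.1 := by
  simp [Ax, rho_snd, df_v hZ h hF, GG]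

lemma df_B (hZ : PFlow φ a b) (h : u₀ ∈ U) (hF : Fermi φ T u₀ N f) (z : ℝ × ℝ) :
    fderiv ℝ f (Ax φ u₀ z).1 (cr (Ax φ u₀ z).1 (Ax φ u₀ z).2) = cos z.2 * GG φ u₀ f z.1 := by
  simp [Ax, cr_rho (hZ.maps _ _ h), df_v hZ h hF, GG]

lemma psi_smooth (hZ : PFlow φ a b) :
    ContDiff ℝ ∞ fun q : (ℝ × ℝ) × ℝ => φ q.2 (Ax φ u₀ q.1) := by
  have h1 : ContDiff ℝ ∞ fun q : (ℝ × ℝ) × ℝ => φ q.1.1 u₀ :=
    hZ.smooth.comp (by fun_prop : ContDiff ℝ ∞ fun q : (ℝ × ℝ) × ℝ => (q.1.1, u₀))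
  have h2 : ContDiff ℝ ∞ fun q : (ℝ × ℝ) × ℝ => Ax φ u₀ q.1 :=
    contDiff_rho.comp ((contDiff_snd.comp contDiff_fst).prodMk h1)
  exact hZ.smooth.comp (contDiff_snd.prodMk h2)

lemma exists_j (hP : PIntStmt) (hZ : PFlow φ a b) (h : u₀ ∈ U) (hF : Fermi φ T u₀ N f) :
    ∃ j : (ℝ × ℝ) × ℝ → ℝ, ContDiff ℝ ∞ j ∧
      ∀ z t, f (φ t (Ax φ u₀ z)).1 = sin z.2 * j (z, t) := by
  have hs : ContDiff ℝ ∞ fun q : (ℝ × ℝ) × ℝ => f (φ q.1.2 (Ax φ u₀ (q.1.1, q.2))).1 :=
    hF.smooth.comp (contDiff_fst.comp ((psi_smooth hZ).comp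
      (by fun_prop : ContDiff ℝ ∞ fun q : (ℝ × ℝ) × ℝ => ((q.1.1, q.2), q.1.2))))
  obtain ⟨j, hj, e⟩ := div_sin hP hs fun x β hβ => by
    obtain ⟨z', -, e⟩ := flow_Ax hZ h (z := (x.1, β)) hβ x.2
    simp only [e]
    exact f_c0 hZ h hF ⟨z'.1, rfl⟩
  exact ⟨fun q => j ((q.1.1, q.2), q.1.2), hj.comp (by fun_prop), fun z t => e ((z.1, t), z.2)⟩

section Jfun

variable {j : (ℝ × ℝ) × ℝ → ℝ}

lemma jt_deriv (hj : ContDiff ℝ ∞ j) (z : ℝ × ℝ) (t : ℝ) :
    HasDerivAt (fun s => j (z, s)) (fderiv ℝ j (z, t) (0, 1)) t :=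
  (hj.differentiable (by simp) (z, t)).hasFDerivAt.comp_hasDerivAt t
    ((hasDerivAt_const t z).prodMk (hasDerivAt_id t))

lemma jt_cont (hj : ContDiff ℝ ∞ j) : Continuous fun q => fderiv ℝ j q (0, 1) :=
  (hj.continuous_fderiv (by simp)).clm_apply continuous_const

variable (hZ : PFlow φ a b) (h : u₀ ∈ U) (hF : Fermi φ T u₀ N f) (hj : ContDiff ℝ ∞ j)
  (e : ∀ z t, f (φ t (Ax φ u₀ z)).1 = sin z.2 * j (z, t))
include hZ h hF hj e

lemma jt_eq {z z' : ℝ × ℝ} {t : ℝ} (hz : φ t (Ax φ u₀ z) = Ax φ u₀ z') :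
    sin z.2 * fderiv ℝ j (z, t) (0, 1) = a (Ax φ u₀ z') * (sin z'.2 * GG φ u₀ f z'.1) := by
  have d := (hF.smooth.differentiable (by simp) _).hasFDerivAt.comp_hasDerivAt t
    (base_deriv hZ (Ax_mem hZ h z) t)
  have e1 : (f ∘ fun t => (φ t (Ax φ u₀ z)).1) = fun t => sin z.2 * j (z, t) := funext (e z)
  rw [e1, hz, map_smul, df_A hZ h hF, smul_eq_mul] at d
  exact ((jt_deriv hj z t).const_mul _).unique d

lemma j_zero (z : ℝ × ℝ) : j (z, 0) = 0 := by
  have hc := hj.continuous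
  refine cancel_sin (g := fun β => j ((z.1, β), 0)) (k := fun _ => 0) (by fun_prop)
    continuous_const (fun β => ?_) z.2
  rw [mul_zero, ← e (z.1, β) 0, hZ.zero]
  exact f_c0 hZ h hF ⟨z.1, rfl⟩

lemma jt_zero (z : ℝ × ℝ) : 0 < fderiv ℝ j (z, 0) (0, 1) := by
  have hc := jt_cont hj
  have ha : Continuous fun β => a (Ax φ u₀ (z.1, β)) :=
    (contDiff_fibre (fun u hu => contDiffAt_of_U hZ.asm hu) (hZ.maps z.1 _ h)).continuous
  have := cancel_sin (g := fun β => fderiv ℝ j ((z.1, β), 0) (0, 1))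
    (k := fun β => a (Ax φ u₀ (z.1, β)) * GG φ u₀ f z.1)
    (hc.comp (by fun_prop : Continuous fun β : ℝ => ((z.1, β), (0 : ℝ))))
    (ha.mul continuous_const) (fun β => by
      rw [jt_eq hZ h hF hj e (z := (z.1, β)) (hZ.zero _)]; ring) z.2
  rw [show fderiv ℝ j (z, 0) (0, 1) = _ from this]
  exact mul_pos (hZ.apos _ (Ax_mem hZ h _)) (hF.grad _)

lemma V_eq {z : ℝ × ℝ} (hz : sin z.2 = 0) (t : ℝ) :
    fderiv ℝ (fun w => f (φ t w).1) (Ax φ u₀ z) (W (Ax φ u₀ z) (Ax φ u₀ z).1) =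
      cos z.2 * j (z, t) := by
  have hd : Differentiable ℝ fun w => f (φ t w).1 :=
    (hF.smooth.comp (contDiff_fst.comp (slice hZ t))).differentiable (by simp)
  have d := hasDerivAt_V (f := fun w => f (φ t w).1) (hZ.maps z.1 _ h) (s := z.2) (hd _)
  have e1 : (fun s => f (φ t (rho s (φ z.1 u₀))).1) = fun s => sin s * j ((z.1, s), t) :=
    funext fun s => e (z.1, s) t
  have d2 : DifferentiableAt ℝ (fun s => j ((z.1, s), t)) z.2 :=
    (hj.differentiable (by simp) _).comp z.2 (by fun_prop)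
  rw [e1] at d
  have := d.unique ((hasDerivAt_sin z.2).fun_mul d2.hasDerivAt)
  rw [hz, zero_mul, add_zero] at this
  exact this

omit hj in
lemma X_eq {z : ℝ × ℝ} (hz : sin z.2 = 0) (t : ℝ) :
    fderiv ℝ (fun w => f (φ t w).1) (Ax φ u₀ z) (W (Ax φ u₀ z) (xi a b (Ax φ u₀ z))) = 0 := by
  have hd : Differentiable ℝ fun w => f (φ t w).1 :=
    (hF.smooth.comp (contDiff_fst.comp (slice hZ t))).differentiable (by simp)
  have d := (hd _).hasFDerivAt.comp_hasDerivAt 0 (hZ.ode _ (Ax_mem hZ h z) 0)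
  have e1 : ((fun w => f (φ t w).1) ∘ fun r => φ r (Ax φ u₀ z)) = fun _ => 0 := funext fun r => by
    simp only [Function.comp, ← hZ.add, e, hz, zero_mul]
  rw [e1, hZ.zero] at d
  exact d.unique (hasDerivAt_const 0 0)

omit h hj e in
lemma chain (s t : ℝ) (u δ : P) : fderiv ℝ (fun w => f (φ (s + t) w).1) u δ =
    fderiv ℝ (fun w => f (φ s w).1) (φ t u) (fderiv ℝ (φ t) u δ) := by
  have hd : Differentiable ℝ fun w => f (φ s w).1 :=
    (hF.smooth.comp (contDiff_fst.comp (slice hZ s))).differentiable (by simp)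
  have e1 : (fun w => f (φ (s + t) w).1) = (fun w => f (φ s w).1) ∘ φ t :=
    funext fun w => by simp only [Function.comp, hZ.add]
  rw [e1, fderiv_comp u (hd _) (diff hZ t u)]
  rfl

lemma rel {z z' : ℝ × ℝ} {t μ ν : ℝ} (hz : sin z.2 = 0) (hz' : sin z'.2 = 0)
    (e1 : φ t (Ax φ u₀ z) = Ax φ u₀ z')
    (e2 : fderiv ℝ (φ t) (Ax φ u₀ z) (W (Ax φ u₀ z) (Ax φ u₀ z).1) =
      W (Ax φ u₀ z') (μ • (Ax φ u₀ z').1 + ν • xi a b (Ax φ u₀ z'))) :
    j (z, t) = 0 ∧ cos z.2 * fderiv ℝ j (z, t) (0, 1) =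
      μ * (cos z'.2 * fderiv ℝ j (z', 0) (0, 1)) := by
  have k : ∀ s, cos z.2 * j (z, s + t) = μ * (cos z'.2 * j (z', s)) := fun s => by
    rw [← V_eq hZ h hF hj e hz, chain hZ hF, e1, e2, W_add, W_smul, W_smul, map_add, map_smul,
      map_smul, V_eq hZ h hF hj e hz', X_eq hZ h hF e hz']
    simp
  have hc : cos z.2 ≠ 0 := fun h0 => by
    have := sin_sq_add_cos_sq z.2
    rw [hz, h0] at this
    norm_num at this
  constructor
  · have := k 0
    rw [zero_add, j_zero hZ h hF hj e, mul_zero, mul_zero] at this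
    exact (mul_eq_zero.1 this).resolve_left hc
  · have d1 : HasDerivAt (fun s => j (z, s + t)) (fderiv ℝ j (z, t) (0, 1)) 0 := by
      have := (jt_deriv hj z (0 + t)).comp_add_const
      simpa using this
    have d2 := d1.const_mul (cos z.2)
    rw [funext k] at d2
    exact d2.unique (((jt_deriv hj z' 0).const_mul _).const_mul _)

lemma jt_ne {z : ℝ × ℝ} {t : ℝ} (hz : sin z.2 = 0) (h0 : j (z, t) = 0) :
    fderiv ℝ j (z, t) (0, 1) ≠ 0 := by
  obtain ⟨z', hz', e1⟩ := flow_Ax hZ h hz t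
  have hu := Ax_mem hZ h z
  have hu' := Ax_mem hZ h z'
  have hc : cos z'.2 ≠ 0 := fun h0 => by
    have := sin_sq_add_cos_sq z'.2
    rw [hz', h0] at this
    norm_num at this
  have d : HasDerivAt (fun s => φ t (rho s (Ax φ u₀ z)))
      (fderiv ℝ (φ t) (Ax φ u₀ z) (W (Ax φ u₀ z) (Ax φ u₀ z).1)) 0 := by
    have := hasDerivAt_V (f := φ t) hu (s := 0) (diff hZ t _)
    rwa [rho_zero] at this
  obtain ⟨ζ, hζ⟩ := exists_W_hasDerivAt d
    (Eventually.of_forall fun s => hZ.maps t _ (rho_mem_U hu s))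
  rw [rho_zero, e1] at hζ
  have ha := (hZ.apos _ hu').ne'
  obtain ⟨μ, ν, l, hdec⟩ : ∃ μ ν l : ℝ, ζ = μ • (Ax φ u₀ z').1 + ν • xi a b (Ax φ u₀ z') +
      l • (Ax φ u₀ z').2 := by
    have hf := frameU hu' ζ
    generalize ⟪ζ, (Ax φ u₀ z').1⟫ = c1 at hf
    generalize ⟪ζ, (Ax φ u₀ z').2⟫ = c2 at hf
    generalize ⟪ζ, cr (Ax φ u₀ z').1 (Ax φ u₀ z').2⟫ = c3 at hf
    refine ⟨c1 - c3 / a (Ax φ u₀ z') * b (Ax φ u₀ z'), c3 / a (Ax φ u₀ z'), c2, ?_⟩
    rw [hf, xi, smul_add, smul_smul, smul_smul, div_mul_cancel₀ _ ha]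
    module
  have hl : l = 0 := by
    have k := V_eq hZ h hF hj e hz (0 + t)
    rw [chain hZ hF, e1, hζ, zero_add, h0, mul_zero, hdec, W_add, W_add, W_smul, W_smul, W_smul,
      map_add, map_add, map_smul, map_smul, map_smul, V_eq hZ h hF hj e hz', X_eq hZ h hF e hz',
      j_zero hZ h hF hj e] at k
    have e0 : (fun w => f (φ 0 w).1) = f ∘ Prod.fst := funext fun w => by
      simp only [hZ.zero, Function.comp]
    rw [e0, fderiv_comp _ (hF.smooth.differentiable (by simp) _) differentiableAt_fst,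
      fderiv_fst] at k
    have e3 : fderiv ℝ f (Ax φ u₀ z').1 (cr (Ax φ u₀ z').2 (Ax φ u₀ z').1) =
        -(cos z'.2 * GG φ u₀ f z'.1) := by
      rw [cr_anti, map_neg, df_B hZ h hF]
    simp only [W, ContinuousLinearMap.comp_apply, ContinuousLinearMap.coe_fst', e3, smul_eq_mul,
      mul_zero, zero_add] at k
    exact (mul_eq_zero.1 k).resolve_right
      (neg_ne_zero.2 (mul_ne_zero hc (hF.grad z'.1).ne'))
  rw [hl, zero_smul, add_zero] at hdec
  have hμ : μ ≠ 0 := by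
    intro hμ
    rw [hμ, zero_smul, zero_add] at hdec
    have e2 : (φ (-t)) ∘ (φ t) = id := funext fun w => by
      simp only [Function.comp, ← hZ.add, neg_add_cancel, hZ.zero, id]
    have d1 := congrArg (fun L : P →L[ℝ] P => L (W (Ax φ u₀ z) (Ax φ u₀ z).1))
      (fderiv_comp (Ax φ u₀ z) (diff hZ (-t) _) (diff hZ t _))
    simp only [e2, fderiv_id, ContinuousLinearMap.comp_apply, ContinuousLinearMap.id_apply] at d1
    rw [hζ, hdec, W_smul, map_smul, e1] at d1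
    have d2 := (diff hZ (-t) _).hasFDerivAt.comp_hasDerivAt 0 (hZ.ode _ hu' 0)
    have d3 : HasDerivAt (fun r => φ r (Ax φ u₀ z)) _ 0 := hZ.ode _ hu 0
    have e4 : (φ (-t)) ∘ (fun r => φ r (Ax φ u₀ z')) = fun r => φ r (Ax φ u₀ z) :=
      funext fun r => by
        simp only [Function.comp, ← e1, ← hZ.add]
        congr 1
        ring
    rw [e4] at d2
    have d4 := d2.unique d3
    simp only [hZ.zero] at d4
    rw [d4, ← W_smul, ← sub_eq_zero, ← W_sub] at d1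
    have d5 := W_inj hu d1
    have i1 := congrArg (fun x => ⟪x, cr (Ax φ u₀ z).1 (Ax φ u₀ z).2⟫) d5
    simp only [xi, inner_sub_left, inner_add_left, inner_smul_left, inner_cr_left,
      real_inner_self_eq_norm_sq, norm_cr_U hu, conj_trivial, inner_zero_left] at i1
    have hν : ν = 0 := by
      have := hZ.apos _ hu
      have i2 : ν * a (Ax φ u₀ z) = 0 := by linarith
      exact (mul_eq_zero.1 i2).resolve_right this.ne'
    rw [hν, zero_smul, sub_zero] at d5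
    have := hu.1
    rw [d5] at this
    simp at this
  have r := (rel hZ h hF hj e hz hz' e1 (hdec ▸ hζ)).2
  intro h1
  rw [h1, mul_zero] at r
  exact mul_ne_zero hμ (mul_ne_zero hc (jt_zero hZ h hF hj e z').ne') r.symm

end Jfun

lemma isClosed_c0 (hZ : ZFlow φ a b T) (h : u₀ ∈ U) : IsClosed (c0 φ u₀) := by
  have hp : Function.Periodic (fun x => (φ x u₀).1) T := fun x => congrArg Prod.fst (per hZ h x)
  exact (hp.compact_of_continuous hZ.Tpos.ne'
    (continuous_iff_continuousAt.2 fun x => (base_deriv hZ.toPFlow h x).continuousAt)).isClosed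

/-- A continuous function of two points that records the cyclic order on the curve. -/
lemma exists_order (hT : 0 < T) (hF : Fermi φ T u₀ N f) : ∃ D : E × E → ℝ, Continuous D ∧
    ∀ x x', D ((φ x u₀).1, (φ x' u₀).1) =
      4 * (sin (π / T * x) * sin (π / T * x') * sin (π / T * (x' - x))) := by
  have hp : ∀ x, 2 * (π / T * (x + T)) = 2 * (π / T * x) + 2 * π := fun x => by
    field_simp
  obtain ⟨C, hC, hC'⟩ := hF.ext (fun x => cos (2 * (π / T * x))) (by fun_prop) fun x => by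
    simp only [hp, cos_add_two_pi]
  obtain ⟨S, hS, hS'⟩ := hF.ext (fun x => sin (2 * (π / T * x))) (by fun_prop) fun x => by
    simp only [hp, sin_add_two_pi]
  have := hC.continuous
  have := hS.continuous
  refine ⟨fun q => S q.1 * (1 - C q.2) - S q.2 * (1 - C q.1), by fun_prop, fun x x' => ?_⟩
  simp only [hC', hS', mul_sub (π / T), sin_sub, sin_two_mul, cos_two_mul']
  generalize π / T * x = s
  generalize π / T * x' = r
  linear_combination (2 * sin r * cos r) * sin_sq_add_cos_sq s -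
    (2 * sin s * cos s) * sin_sq_add_cos_sq r

lemma sin_ne (hZ : ZFlow φ a b T) (h : u₀ ∈ U) {x x' : ℝ} (hne : (φ x u₀).1 ≠ (φ x' u₀).1) :
    sin (π / T * (x' - x)) ≠ 0 := by
  intro h0
  obtain ⟨n, hn⟩ := sin_eq_zero_iff.1 h0
  have hT := hZ.Tpos.ne'
  have : x' = x + n * T := by
    have hpi := pi_ne_zero
    field_simp at hn
    linarith
  exact hne (by rw [this]; exact (congrArg Prod.fst ((per hZ h).int_mul n x)).symm)

end Cross1

open Cross1 in
theorem cross1_of (hP : PIntStmt) (hB : BranchStmt) : Cross1Stmt := by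
  intro φ a b T u₀ N f hZ h hF
  have hY := hZ.toPFlow
  have hT := hZ.Tpos
  obtain ⟨j, hj, e⟩ := exists_j hP hY h hF
  have hc := hj.continuous
  have hψ := (psi_smooth (u₀ := u₀) hY).continuous
  set Z : Set ((ℝ × ℝ) × ℝ) := {q | (φ q.2 (Ax φ u₀ q.1)).1 ∈ c0 φ u₀ ∧ j q = 0} with hZdef
  have hcl : IsClosed Z :=
    ((isClosed_c0 hZ h).preimage hψ.fst).inter (isClosed_eq hc continuous_const)
  have hang : ∀ z t, (φ t (Ax φ u₀ z)).1 ∈ c0 φ u₀ → ∃ z', φ t (Ax φ u₀ z) = Ax φ u₀ z' := by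
    rintro z t ⟨x, hx⟩
    obtain ⟨s, -, hs⟩ := exists_rho (hY.maps x _ h) (hY.maps t _ (Ax_mem hY h z)) hx.symm
    exact ⟨(x, s), hs⟩
  have hne : ∀ q ∈ Z, fderiv ℝ j q (0, 1) ≠ 0 := by
    rintro ⟨z, t⟩ ⟨h1, h2⟩
    by_cases hz : sin z.2 = 0
    · exact jt_ne hY h hF hj e hz h2
    · obtain ⟨z', hz'⟩ := hang z t h1
      intro h0
      have k := jt_eq hY h hF hj e hz'
      rw [h0, mul_zero] at k
      exact mul_ne_zero (hY.apos _ (Ax_mem hY h z')).ne'
        (mul_ne_zero (fun h3 => hz (sin_back hZ h hz' h3)) (hF.grad _).ne') k.symm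
  have hloc : ∀ q ∈ Z, j q = 0 ∧ fderiv ℝ j q (0, 1) ≠ 0 ∧ ∀ᶠ q' in 𝓝 q, j q' = 0 → q' ∈ Z := by
    refine fun q hq => ⟨hq.2, hne q hq, ?_⟩
    filter_upwards [hψ.fst.continuousAt.eventually (hF.isOpen.mem_nhds (hF.sub hq.1))]
      with q' h1 h2
    refine ⟨(hF.zero _ h1 (hY.maps _ _ (Ax_mem hY h _)).1).1 ?_, h2⟩
    rw [e, h2, mul_zero]
  have hper : ∀ z t, j (z, t + T) = j (z, t) := fun z t =>
    cancel_sin (g := fun β => j ((z.1, β), t + T)) (k := fun β => j ((z.1, β), t))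
      (by fun_prop) (by fun_prop) (fun β => by
        rw [← e (z.1, β), ← e (z.1, β)]
        exact congrArg (fun u : P => f u.1) (per hZ (Ax_mem hY h _) t)) z.2
  have hZper : ∀ z t, (z, t) ∈ Z → (z, t + T) ∈ Z := fun z t hq =>
    ⟨by
      have := per hZ (Ax_mem hY h z) t
      simp only at this ⊢
      rw [this]; exact hq.1, (hper z t).trans hq.2⟩
  have hZ0 : ∀ z, (z, (0 : ℝ)) ∈ Z := fun z =>
    ⟨by simp only [hY.zero]; exact ⟨z.1, rfl⟩, j_zero hY h hF hj e z⟩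
  have hZT : ∀ z, (z, T) ∈ Z := fun z => by simpa using hZper z 0 (hZ0 z)
  obtain ⟨T1, s1, p1⟩ := hB j Z (fun _ => 0) hj hcl hloc continuous_const hZ0
    fun z => ⟨T, hT, hZT z⟩
  obtain ⟨T2, s2, p2⟩ := hB j Z T1 hj hcl hloc s1.continuous (fun z => (p1 z).2.1)
    fun z => ⟨T1 z + T, by linarith, hZper z _ (p1 z).2.1⟩
  have hneg : ∀ z, fderiv ℝ j (z, T1 z) (0, 1) < 0 := by
    have c1 := s1.continuous
    rcases sign_const (s := univ) isPreconnected_univ (f := fun z => fderiv ℝ j (z, T1 z) (0, 1))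
      ((jt_cont hj).comp (by fun_prop : Continuous fun z => (z, T1 z))).continuousOn
      (fun z _ => hne _ (p1 z).2.1) with hs | hs
    · exfalso
      have hz : sin ((0, 0) : ℝ × ℝ).2 = 0 := sin_zero
      generalize ((0, 0) : ℝ × ℝ) = z at hz
      have hn : ∀ t ∈ Ioo 0 (T1 z), j (z, t) ≠ 0 := fun t ht h0 => (p1 z).2.2 t ht ⟨by
        obtain ⟨z', -, e1⟩ := flow_Ax hY h hz t
        simp only [e1]
        exact ⟨z'.1, rfl⟩, h0⟩
      have a1 : ∃ t ∈ Ioo 0 (T1 z), 0 < j (z, t) := by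
        have d := (jt_deriv hj z 0).tendsto_slope_zero_right.eventually
          (lt_mem_nhds (jt_zero hY h hF hj e z))
        obtain ⟨t, h1, h2⟩ := (d.and (Ioo_mem_nhdsGT (p1 z).1)).exists
        refine ⟨t, h2, ?_⟩
        rw [j_zero hY h hF hj e, zero_add, sub_zero, smul_eq_mul] at h1
        exact (mul_pos_iff_of_pos_left (inv_pos.2 h2.1)).1 h1
      have a2 : ∃ t ∈ Ioo 0 (T1 z), j (z, t) < 0 := by
        have d := (jt_deriv hj z (T1 z)).tendsto_slope_zero_left.eventually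
          (lt_mem_nhds (hs z trivial))
        obtain ⟨t, h1, h2⟩ := (d.and (Ioo_mem_nhdsLT (neg_neg_of_pos (p1 z).1))).exists
        refine ⟨T1 z + t, ⟨by linarith [h2.1], by linarith [h2.2]⟩, ?_⟩
        rw [(p1 z).2.1.2, sub_zero, smul_eq_mul] at h1
        exact (mul_pos_iff.1 h1).elim (fun k => absurd (inv_neg''.2 h2.2) k.1.not_gt) (·.2)
      obtain ⟨t, ht, h1⟩ := a1
      obtain ⟨t', ht', h2⟩ := a2
      rcases sign_const (s := Ioo 0 (T1 z)) isPreconnected_Ioo (f := fun t => j (z, t))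
        (by fun_prop) hn with k | k
      · exact (k t' ht').not_gt h2
      · exact (k t ht).not_gt h1
    · exact fun z => hs z trivial
  have hlt : ∀ z, T1 z < T := by
    intro z
    rcases lt_trichotomy (T1 z) T with k | k | k
    · exact k
    · exfalso
      have d : HasDerivAt (fun s => j (z, s + T)) (fderiv ℝ j (z, T) (0, 1)) 0 := by
        have := (jt_deriv hj z (0 + T)).comp_add_const
        simpa using this
      rw [funext (hper z)] at d
      have h1 := hneg z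
      rw [k, d.unique (jt_deriv hj z 0)] at h1
      exact h1.not_gt (jt_zero hY h hF hj e z)
    · exact absurd (hZT z) ((p1 z).2.2 T ⟨hT, k⟩)
  have hle : ∀ z, T2 z ≤ T := fun z => not_lt.1 fun k => (p2 z).2.2 T ⟨hlt z, k⟩ (hZT z)
  have hT2 : ∀ z, T2 z = T := by
    have c1 := s1.continuous
    have c2 := s2.continuous
    have hcp : IsClopen {z | T2 z = T} := by
      refine ⟨isClosed_eq c2 continuous_const, isOpen_iff_mem_nhds.2 fun z hz => ?_⟩
      obtain ⟨g, -, -, -, hg⟩ := exists_implicit (f := j) (x₀ := z) (t₀ := T) hj.contDiffAt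
        (hne _ (hZT z))
      have t1 : Tendsto (fun w => (w, T2 w)) (𝓝 z) (𝓝 (z, T)) := by
        have : Continuous fun w => (w, T2 w) := by fun_prop
        simpa only [show T2 z = T from hz] using this.tendsto z
      have t2 : Tendsto (fun w : ℝ × ℝ => (w, T)) (𝓝 z) (𝓝 (z, T)) :=
        (by fun_prop : Continuous fun w : ℝ × ℝ => (w, T)).tendsto z
      filter_upwards [t1.eventually hg, t2.eventually hg] with w h1 h2
      exact (h1 ((p2 w).2.1.2.trans (hZT z).2.symm)).trans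
        (h2 ((hZT w).2.trans (hZT z).2.symm)).symm
    rcases isClopen_iff.1 hcp with k | k
    · exfalso
      have hl2 : ∀ z, T2 z < T := fun z => lt_of_le_of_ne (hle z) fun h0 => by
        have : z ∈ {z | T2 z = T} := h0
        rw [k] at this
        exact this
      obtain ⟨D, hD, hD'⟩ := exists_order hT hF
      have hsp : ∀ t ∈ Ioo 0 T, 0 < sin (π / T * t) := fun t ht =>
        sin_pos_of_pos_of_lt_pi (mul_pos (div_pos pi_pos hT) ht.1) (by
          rw [div_mul_eq_mul_div, div_lt_iff₀ hT]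
          exact mul_lt_mul_of_pos_left ht.2 pi_pos)
      have hpr : ∀ z, 0 < sin (π / T * T1 z) * sin (π / T * T2 z) * sin (π / T * (T2 z - T1 z)) :=
        fun z => mul_pos (mul_pos (hsp _ ⟨(p1 z).1, hlt z⟩)
          (hsp _ ⟨(p1 z).1.trans (p2 z).1, hl2 z⟩))
          (hsp _ ⟨sub_pos.2 (p2 z).1, by linarith [hl2 z, (p1 z).1]⟩)
      have cb : ∀ S : ℝ × ℝ → ℝ, Continuous S →
          Continuous fun β : ℝ => (φ (S (0, β)) (Ax φ u₀ (0, β))).1 := fun S hS =>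
        hψ.fst.comp (by fun_prop : Continuous fun β : ℝ => (((0 : ℝ), β), S (0, β)))
      rcases sign_const (s := univ) isPreconnected_univ
        (f := fun β : ℝ => D ((φ (T1 (0, β)) (Ax φ u₀ (0, β))).1,
          (φ (T2 (0, β)) (Ax φ u₀ (0, β))).1))
        (hD.comp ((cb T1 c1).prodMk (cb T2 c2))).continuousOn (fun β _ => by
          obtain ⟨x, hx⟩ := (p1 (0, β)).2.1.1
          obtain ⟨x', hx'⟩ := (p2 (0, β)).2.1.1
          have hi := hZ.inj _ (Ax_mem hY h (0, β))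
          have m0 : (0 : ℝ) ∈ Ico 0 T := ⟨le_rfl, hT⟩
          have m1 : T1 (0, β) ∈ Ico 0 T := ⟨(p1 _).1.le, hlt _⟩
          have m2 : T2 (0, β) ∈ Ico 0 T := ⟨((p1 _).1.trans (p2 _).1).le, hl2 _⟩
          have b0 : (φ 0 (Ax φ u₀ (0, β))).1 = (φ 0 u₀).1 := by rw [hY.zero]; rfl
          simp only at hx hx'
          simp only [← hx, ← hx', hD']
          refine mul_ne_zero four_ne_zero (mul_ne_zero (mul_ne_zero ?_ ?_) (sin_ne hZ h ?_))
          · simpa using sin_ne hZ h (x := 0) (x' := x) fun k =>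
              (p1 (0, β)).1.ne (hi m0 m1 (b0.trans (k.trans hx)))
          · simpa using sin_ne hZ h (x := 0) (x' := x') fun k =>
              ((p1 (0, β)).1.trans (p2 _).1).ne (hi m0 m2 (b0.trans (k.trans hx')))
          · exact fun k => (p2 (0, β)).1.ne (hi m1 m2 (hx.symm.trans (k.trans hx')))) with k | k
      · have k1 := k π trivial
        have e1 : ∀ t, (φ t (Ax φ u₀ (0, π))).1 = (φ (-t) u₀).1 := fun t => by
          rw [Ax, rho_pi, hY.zero, hY.revs _ h, rev_fst]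
        simp only [e1, hD', mul_neg, sin_neg, neg_sub_neg] at k1
        rw [← neg_sub (T2 (0, π)), mul_neg, sin_neg] at k1
        have := hpr (0, π)
        nlinarith
      · have k1 := k 0 trivial
        have e1 : ∀ t, (φ t (Ax φ u₀ (0, 0))).1 = (φ t u₀).1 := fun t => by
          rw [Ax, rho_zero, hY.zero]
        simp only [e1, hD'] at k1
        have := hpr (0, 0)
        linarith
    · intro z
      have : z ∈ {z | T2 z = T} := k ▸ mem_univ z
      exact this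
  have huniq : ∀ z, ∀ t ∈ Ioo 0 T, (z, t) ∈ Z → t = T1 z := by
    intro z t ht hq
    rcases lt_trichotomy t (T1 z) with k | k | k
    · exact absurd hq ((p1 z).2.2 t ⟨ht.1, k⟩)
    · exact k
    · exact absurd hq ((p2 z).2.2 t ⟨k, hT2 z ▸ ht.2⟩)
  refine ⟨T1, s1, fun z => ⟨(p1 z).1, hlt z⟩, fun z => (p1 z).2.1.1, fun z hz t ht hc0 => ?_,
    fun z hz x' β' he => ?_, fun t ht μ ν he => ?_⟩
  · refine huniq z t ht ⟨hc0, ?_⟩
    have := e z t
    rw [f_c0 hY h hF hc0] at this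
    exact (mul_eq_zero.1 this.symm).resolve_left hz
  · have k := jt_eq hY h hF hj e he
    have k1 := mul_neg_of_pos_of_neg (sin_pos_of_pos_of_lt_pi hz.1 hz.2) (hneg z)
    rw [k] at k1
    have k2 := neg_of_mul_neg_right k1 (hY.apos _ (Ax_mem hY h _)).le
    exact neg_of_mul_neg_left k2 (hF.grad _).le
  · have a0 : Ax φ u₀ (0, 0) = u₀ := by rw [Ax, rho_zero, hY.zero]
    have a1 : Ax φ u₀ (t, 0) = φ t u₀ := by rw [Ax, rho_zero]
    obtain ⟨r1, r2⟩ := rel hY h hF hj e (z := (0, 0)) (z' := (t, 0)) (t := t) (μ := μ) (ν := ν)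
      sin_zero sin_zero (by rw [a0, a1]) (by rw [a0, a1]; exact he)
    have ht1 := huniq (0, 0) t ht ⟨by simp only [a0]; exact ⟨t, rfl⟩, r1⟩
    have k := hneg (0, 0)
    rw [← ht1] at k
    simp only [cos_zero, one_mul] at r2
    rw [r2] at k
    exact (neg_of_mul_neg_left k (jt_zero hY h hF hj e _).le).le

end Pool.Agent.MP_2291e2_gt.Zl
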