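import Pool.Agent.MP_2291e2_gt.zl.Spec2

/-! Nearly round good families are joined to families of great circles. -/

open scoped ContDiff RealInnerProductSpace Topology
open Set Filter Real

namespace Pool.Agent.MP_2291e2_gt.Zl

namespace End

lemma small_mono {ε ε' : ℝ} {G : P → E} (h : Small ε G) (h0 : 0 < ε) (hε : ε ≤ ε') :
    Small ε' G := by
  intro u hu
  obtain ⟨h1, h2, h3⟩ := h u hu
  refine ⟨h1.trans hε, h2.trans hε, fun ξ => (h3 ξ).trans ?_⟩
  have : 0 ≤ c1sq (fun σ => mm G (rho σ u) ξ) := by unfold c1sq; positivity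
  gcongr

lemma P1_sm (hP : PIntStmt) {G : P → E} (hG : ContDiffOn ℝ ∞ G Ind) :
    ContDiffOn ℝ ∞ (P1 G) Ind := by
  intro u hu
  have h1 : ContDiffOn ℝ ∞ (fun q : P × ℝ => cos q.2 • G (rho q.2 q.1)) (Ind ×ˢ univ) := by
    refine (contDiff_cos.comp contDiff_snd).contDiffOn.smul (hG.comp
      (contDiff_rho.comp (contDiff_snd.prodMk contDiff_fst)).contDiffOn ?_)
    exact fun q hq => rho_mem_Ind hq.1 _
  have h2 := ((hP P E (Ind ×ˢ univ) _ (isOpen_Ind.prod isOpen_univ) h1).1 0 (2 * π) u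
    (fun s _ => ⟨hu, trivial⟩)).1
  exact (h2.const_smul π⁻¹).contDiffWithinAt

lemma P1_odd {G : P → E} (h : Odd1 G) {u : P} (hu : u ∈ U) : P1 G (rev u) = -P1 G u := by
  unfold P1
  simp only [rho_rev, h.odd _ (rho_mem_U hu _), smul_neg, intervalIntegral.integral_neg]

lemma P1_rho {G : P → E} (hG : ContDiffOn ℝ ∞ G Ind) {u : P} (hu : u ∈ U) :
    ∃ a b : E, ∀ s, P1 G (rho s u) = cos s • a + sin s • b := by
  have hc : Continuous fun s => G (rho s u) :=
    (contDiff_fibre (fun u h => contDiffAt_of_U hG h) hu).continuous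
  refine ⟨π⁻¹ • ∫ s in (0 : ℝ)..2 * π, cos s • G (rho s u),
    π⁻¹ • ∫ s in (0 : ℝ)..2 * π, sin s • G (rho s u), fun s => ?_⟩
  have hp : Function.Periodic (fun τ => cos (τ - s) • G (rho τ u)) (2 * π) := fun τ => by
    have := rho_periodic u τ
    simp only at this ⊢
    rw [this, show τ + 2 * π - s = τ - s + 2 * π by ring, cos_add_two_pi]
  have e1 : (∫ σ in (0 : ℝ)..2 * π, cos σ • G (rho σ (rho s u))) =
      ∫ τ in (0 : ℝ)..2 * π, cos (τ - s) • G (rho τ u) := by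
    have h1 := intervalIntegral.integral_comp_add_right (a := 0) (b := 2 * π)
      (fun τ => cos (τ - s) • G (rho τ u)) s
    have h2 := hp.intervalIntegral_add_eq s 0
    simp only [add_sub_cancel_right, zero_add] at h1 h2
    simp only [rho_add hu]
    rw [h1, add_comm, h2]
  have e2 : ∀ τ, cos (τ - s) • G (rho τ u) =
      cos s • (cos τ • G (rho τ u)) + sin s • (sin τ • G (rho τ u)) := fun τ => by
    rw [cos_sub]; module
  unfold P1
  rw [e1]
  simp only [e2]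
  rw [intervalIntegral.integral_add (f := fun τ => cos s • (cos τ • G (rho τ u)))
    (g := fun τ => sin s • (sin τ • G (rho τ u)))
    (((continuous_cos.smul hc).const_smul (cos s)).intervalIntegrable _ _)
    (((continuous_sin.smul hc).const_smul (sin s)).intervalIntegrable _ _),
    intervalIntegral.integral_smul, intervalIntegral.integral_smul]
  module

lemma Gs_sm (hP : PIntStmt) {G : P → E} (hG : ContDiffOn ℝ ∞ G Ind) : Sm (Gs G) := by
  have m : MapsTo (fun q : ℝ × P => q.2) (univ ×ˢ Ind) Ind := fun q hq => hq.2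
  exact ((contDiffOn_const.sub contDiffOn_fst).smul (hG.comp contDiffOn_snd m)).add
    (contDiffOn_fst.smul ((P1_sm hP hG).comp contDiffOn_snd m))

lemma Gs_odd {G : P → E} (h : Odd1 G) (s : ℝ) {u : P} (hu : u ∈ U) :
    Gs G s (rev u) = -Gs G s u := by
  simp only [Gs, h.odd u hu, P1_odd h hu]; module

lemma Gs_zero (G : P → E) : Gs G 0 = G := by ext1 u; simp [Gs]

lemma Gs_one (G : P → E) : Gs G 1 = P1 G := by ext1 u; simp [Gs]

lemma sm_cont {f : ℝ → P → ℝ} (h : Sm f) {u : P} (hu : u ∈ U) : Continuous fun s => f s u :=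
  h.continuousOn.comp_continuous (f := fun s : ℝ => (s, u)) (by fun_prop)
    fun _ => ⟨trivial, U_sub_Ind hu⟩

lemma sm_mm {H : ℝ → P → E} (h : Sm H) (ξ : E) : Sm (fun s u => mm (H s) u ξ) :=
  ContDiffOn.dt' h (h.dW (ξ := fun _ => ξ) contDiffOn_const) h.V

lemma zeros {f f1 : ℝ → ℝ} {a b : ℝ} (hd : ∀ σ, HasDerivAt f (f1 σ) σ) (ho : f π = -f 0)
    (hab : 0 < a ^ 2 + b ^ 2)
    (h : ∀ σ, |f σ - (a * cos σ + b * sin σ)| ≤ 1 / 100 * √(a ^ 2 + b ^ 2) ∧
      |f1 σ - (-a * sin σ + b * cos σ)| ≤ 1 / 100 * √(a ^ 2 + b ^ 2)) (h0 : f 0 = 0) :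
    f1 0 ≠ 0 ∧ ∀ r ∈ Ioo 0 π, f r ≠ 0 := by
  set R := √(a ^ 2 + b ^ 2) with hR
  have R0 : 0 < R := sqrt_pos.2 hab
  have R2 : R ^ 2 = a ^ 2 + b ^ 2 := sq_sqrt hab.le
  have ha : |a| ≤ 1 / 100 * R := by simpa [h0] using (h 0).1
  have hb : 1 / 2 * R < |b| := by
    by_contra hc
    have h1 := sq_abs a
    have h2 := sq_abs b
    have := abs_nonneg a
    have := abs_nonneg b
    nlinarith
  constructor
  · intro h1
    have : |b| ≤ 1 / 100 * R := by simpa [h1] using (h 0).2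
    linarith
  · intro r hr h1
    have k := abs_le_sin (e := fun σ => f σ - b * sin σ) (e1 := fun σ => f1 σ - b * cos σ)
      (M := 2 / 100 * R) (fun σ _ => (hd σ).sub ((hasDerivAt_sin σ).const_mul b)) (fun σ _ => by
        have h2 := (h σ).2
        have h3 : |a * sin σ| ≤ 1 / 100 * R := by
          rw [abs_mul]
          exact (mul_le_of_le_one_right (abs_nonneg _) (abs_sin_le_one σ)).trans ha
        rw [abs_le] at *
        constructor <;> linarith [h2.1, h2.2, h3.1, h3.2]) (by simp [h0]) (by simp [ho, h0])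
      r ⟨hr.1.le, hr.2.le⟩
    have hs := sin_pos_of_pos_of_lt_pi hr.1 hr.2
    simp only [h1, zero_sub, abs_neg, abs_mul, abs_of_pos hs] at k
    nlinarith

lemma turn {G : P → E} (hP : PIntStmt) (hG : Good G)
    (hE : ∀ s ∈ Icc (0 : ℝ) 1, ∀ u ∈ U, ∀ ξ,
      cr ξ u.1 ≠ 0 → ∃ a b : ℝ, 0 < a ^ 2 + b ^ 2 ∧ ∀ σ,
        |mm (Gs G s) (rho σ u) ξ - (a * cos σ + b * sin σ)| ≤ 1 / 100 * √(a ^ 2 + b ^ 2) ∧
        |V (fun w => mm (Gs G s) w ξ) (rho σ u) - (-a * sin σ + b * cos σ)| ≤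
          1 / 100 * √(a ^ 2 + b ^ 2)) {s : ℝ} (hs : s ∈ Icc (0 : ℝ) 1) : Turn (mm (Gs G s)) := by
  have hS := Gs_sm hP hG.smooth
  have hdf : ∀ s ξ, ∀ u ∈ U, DifferentiableAt ℝ (fun w => mm (Gs G s) w ξ) u :=
    fun s ξ u hu => diffAt_of_U (contDiffOn_mm (hS.slice s) ξ) hu
  have key : ∀ s ∈ Icc (0 : ℝ) 1, ∀ u ∈ U, ∀ ξ, cr ξ u.1 ≠ 0 → mm (Gs G s) u ξ = 0 →
      V (fun w => mm (Gs G s) w ξ) u ≠ 0 ∧ ∀ r ∈ Ioo 0 π, mm (Gs G s) (rho r u) ξ ≠ 0 := by
    intro s hs u hu ξ hξ h0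
    obtain ⟨a, b, hab, h⟩ := hE s hs u hu ξ hξ
    have := zeros (f := fun σ => mm (Gs G s) (rho σ u) ξ)
      (f1 := fun σ => V (fun w => mm (Gs G s) w ξ) (rho σ u))
      (fun σ => hasDerivAt_V' (contDiffOn_mm (hS.slice s) ξ) hu σ) (by
        rw [rho_pi, rho_zero]
        exact mm_odd (hS.slice s) (fun _ h => Gs_odd hG.toOdd1 s h) hu ξ) hab h (by
        rw [rho_zero]; exact h0)
    rwa [rho_zero] at this
  have sg : ∀ f : ℝ → ℝ, Continuous f → (∀ s ∈ Icc (0 : ℝ) 1, f s ≠ 0) → 0 < f 0 → 0 < f s := by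
    intro f hf h1 h2
    rcases sign_const isPreconnected_Icc hf.continuousOn h1 with h | h
    · exact h s hs
    · exact absurd (h 0 ⟨le_rfl, zero_le_one⟩) h2.not_gt
  constructor
  · intro u hu r hr
    refine sg (fun s => wedge (mm (Gs G s)) u r) ?_ (fun s hs h0 => ?_) ?_
    · exact ((sm_cont (sm_mm hS _) hu).mul (sm_cont (sm_mm hS _) (rho_mem_U hu r))).sub
        ((sm_cont (sm_mm hS _) hu).mul (sm_cont (sm_mm hS _) (rho_mem_U hu r)))
    · obtain ⟨ξ, h1, h2, h3⟩ := exists_of_wedge_eq_zero (mm_lin _) hu h0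
      exact (key s hs u hu ξ h1 h2).2 r hr h3
    · rw [Gs_zero]; exact hG.turn.pos u hu r hr
  · intro u hu
    refine sg (fun s => deriv (wedge (mm (Gs G s)) u) 0) ?_ (fun s hs h0 => ?_) ?_
    · simp only [fun s => (hasDerivAt_wedge (hdf s) hu 0).deriv]
      exact ((sm_cont (sm_mm hS _) hu).mul (sm_cont (sm_mm hS _).V (rho_mem_U hu 0))).sub
        ((sm_cont (sm_mm hS _) hu).mul (sm_cont (sm_mm hS _).V (rho_mem_U hu 0)))
    · obtain ⟨ξ, h1, h2, h3⟩ := exists_of_deriv_wedge_eq_zero (mm_lin _) (hdf s) hu h0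
      exact (key s hs u hu ξ h1 h2).1 h3
    · rw [Gs_zero]; exact hG.turn.pos0 u hu

lemma not_par {g p : E} {c c1 : ℝ → E} (hg : ‖g‖ = 1) (hgp : ⟪g, p⟫ = 0)
    (hp : |‖p‖ - 1| ≤ 1 / 100) (hd : ∀ σ, HasDerivAt c (c1 σ) σ) (ho : c π = -c 0)
    (h0 : ‖c 0 - g‖ ≤ 1 / 100) (h1 : ∀ σ, ‖c1 σ - (-sin σ • g + cos σ • p)‖ ≤ 1 / 100)
    {r : ℝ} (hr : r ∈ Ioo 0 π) (t : ℝ) : c r ≠ t • c 0 := by
  intro he
  rw [abs_le] at hp
  have n1 : ‖cr g p‖ ≤ 101 / 100 := (norm_cr_le g p).trans (by rw [hg]; linarith [hp.2])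
  have n2 : dt (cr g p) g p = ‖p‖ ^ 2 := by
    rw [dt, real_inner_self_eq_norm_sq, normsq_cr, hg, hgp]; ring
  have k := abs_le_sin (e := fun σ => dt (cr g p) (c 0) (c σ) - ‖p‖ ^ 2 * sin σ)
    (e1 := fun σ => dt (cr g p) (c 0) (c1 σ) - ‖p‖ ^ 2 * cos σ) (M := 1 / 10) (fun σ _ => by
      refine HasDerivAt.sub ?_ ((hasDerivAt_sin σ).const_mul _)
      refine (hasDerivAt_dt (hasDerivAt_const σ _) (hasDerivAt_const σ _) (hd σ)).congr_deriv ?_
      simp [dt]) (fun σ _ => by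
      have e : dt (cr g p) (c 0) (c1 σ) - ‖p‖ ^ 2 * cos σ =
          dt (cr g p) (c 0 - g) (c1 σ) + dt (cr g p) g (c1 σ - (-sin σ • g + cos σ • p)) := by
        rw [← n2]
        simp only [dt, cr_sub_left, cr_sub_right, cr_add_right, cr_smul_right, cr_self,
          inner_sub_right, inner_add_right, inner_smul_right, smul_zero, inner_zero_right]
        ring
      have b1 : ‖-sin σ • g + cos σ • p‖ ≤ 201 / 100 := by
        refine (norm_add_le _ _).trans ?_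
        rw [norm_smul, norm_smul, hg, norm_neg, Real.norm_eq_abs, Real.norm_eq_abs]
        nlinarith [abs_sin_le_one σ, abs_cos_le_one σ, norm_nonneg p, abs_nonneg (cos σ)]
      have b2 : ‖c1 σ‖ ≤ 202 / 100 := by
        have := norm_le_norm_add_norm_sub' (c1 σ) (-sin σ • g + cos σ • p)
        linarith [h1 σ]
      have b3 : |dt (cr g p) (c 0 - g) (c1 σ)| ≤ 101 / 100 * (1 / 100 * (202 / 100)) :=
        (abs_dt_le _ _ _).trans (by gcongr)
      have b4 : |dt (cr g p) g (c1 σ - (-sin σ • g + cos σ • p))| ≤ 101 / 100 * (1 * (1 / 100)) :=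
        (abs_dt_le _ _ _).trans (by gcongr; exacts [hg.le, h1 σ])
      rw [e]
      exact (abs_add_le _ _).trans (by linarith)) (by simp) (by
      simp [ho, dt, cr_neg_right]) r ⟨hr.1.le, hr.2.le⟩
  have hs := sin_pos_of_pos_of_lt_pi hr.1 hr.2
  have e0 : dt (cr g p) (c 0) (c r) = 0 := by simp [he, dt, cr_smul_right]
  simp only [e0, zero_sub, abs_neg] at k
  have := le_abs_self (‖p‖ ^ 2 * sin r)
  have : (1 : ℝ) / 2 ≤ ‖p‖ ^ 2 := by nlinarith [hp.1]
  nlinarith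

lemma great {Q : P → E} (h : Good (nrm Q)) (h0 : ∀ u ∈ U, Q u ≠ 0)
    (hq : ∀ u ∈ U, ∃ a b : E, ∀ s, Q (rho s u) = cos s • a + sin s • b) : Great (nrm Q) := by
  intro u hu
  obtain ⟨a, b, hab⟩ := hq u hu
  have key : ∀ s, ∃ c : ℝ, 0 < c ∧ c * ‖cr a b‖ = 1 ∧ pole (nrm Q) (rho s u) = c • cr a b := by
    intro s
    have hv := rho_mem_U hu s
    have d1 : HasDerivAt (fun s => Q (rho s u)) (-sin s • a + cos s • b) s := by
      simp only [hab]
      exact ((hasDerivAt_cos s).smul_const a).add ((hasDerivAt_sin s).smul_const b)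
    have d2 := (d1.differentiableAt.norm ℝ (h0 _ hv)).hasDerivAt
    have d3 := hasDerivAt_V' h.smooth hu s
    have e : ∀ s, Q (rho s u) = ‖Q (rho s u)‖ • nrm Q (rho s u) := fun s => by
      rw [nrm, rt_of_U (rho_mem_U hu s), smul_inv_smul₀ (norm_ne_zero_iff.2 (h0 _ (rho_mem_U hu s)))]
    have d4 := d2.smul d3
    have e1 := (d4.congr_of_eventuallyEq (Eventually.of_forall e)).unique d1
    set l := ‖Q (rho s u)‖ with hl
    have l0 : 0 < l := norm_pos_iff.2 (h0 _ hv)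
    set N := nrm Q (rho s u)
    set N1 := V (nrm Q) (rho s u)
    have e2 : cr a b = (l * l) • cr N N1 := by
      have e3 : cr (Q (rho s u)) (-sin s • a + cos s • b) = cr a b := by
        rw [hab]
        simp only [cr_add_left, cr_add_right, cr_smul_left, cr_smul_right, cr_self, cr_anti b a]
        have := sin_sq_add_cos_sq s
        calc _ = (sin s ^ 2 + cos s ^ 2) • cr a b := by module
          _ = _ := by rw [this, one_smul]
      have e4 : Q (rho s u) = l • N := e s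
      rw [← e3, ← e1, e4]
      simp only [cr_add_right, cr_smul_left, cr_smul_right, cr_self]
      module
    have v0 : 0 < ‖N1‖ := norm_pos_iff.2 (h.V_ne hv)
    have n1 : ‖cr N N1‖ = ‖N1‖ := by
      have := normsq_cr N N1
      rw [h.unit _ hv, show ⟪N, N1⟫ = 0 from inner_dW_unit h.smooth h.unit hv _] at this
      exact (pow_left_inj₀ (norm_nonneg _) (norm_nonneg _) two_ne_zero).1 (by rw [this]; ring)
    refine ⟨‖N1‖⁻¹ * (l * l)⁻¹, by positivity, ?_, ?_⟩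
    · rw [e2, norm_smul, n1, Real.norm_of_nonneg (by positivity)]; field_simp
    · rw [e2, smul_smul, inv_mul_cancel_right₀ (by positivity)]; rfl
  intro s
  obtain ⟨c, _, c2, c3⟩ := key s
  obtain ⟨c', _, c2', c3'⟩ := key 0
  rw [rho_zero] at c3'
  have : ‖cr a b‖ ≠ 0 := fun h => by simp [h] at c2
  rw [c3, c3', mul_right_cancel₀ this (c2.trans c2'.symm)]

end End

open End in
theorem end_of (hP : PIntStmt) (hN : NormStmt) (hC : EndCurveStmt) (hE : EndEstStmt) :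
    EndStmt := by
  obtain ⟨ε1, p1, h1⟩ := hC (1 / 100) (by norm_num)
  obtain ⟨ε2, p2, h2⟩ := hE (1 / 100) (by norm_num)
  refine ⟨min ε1 ε2, lt_min p1 p2, fun G hG hc hs => ?_⟩
  replace h1 := h1 G hG hc (small_mono hs (lt_min p1 p2) (min_le_left _ _))
  replace h2 := h2 G hG hc (small_mono hs (lt_min p1 p2) (min_le_right _ _))
  have hS := Gs_sm hP hG.smooth
  have hI : ∀ s, smoothTransition s ∈ Icc (0 : ℝ) 1 := fun s =>
    ⟨smoothTransition.nonneg s, smoothTransition.le_one s⟩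
  have c0 : ∀ s ∈ Icc (0 : ℝ) 1, ∀ u ∈ U, ‖Gs G s u - G u‖ ≤ 1 / 100 := fun s hs u hu => by
    simpa using (h1 s hs u hu 0).2.1
  have ne : ∀ s ∈ Icc (0 : ℝ) 1, ∀ u ∈ U, Gs G s u ≠ 0 := fun s hs u hu h0 => by
    have := c0 s hs u hu
    rw [h0, zero_sub, norm_neg, hG.unit u hu] at this
    norm_num at this
  obtain ⟨k1, k2⟩ := hN (fun s => Gs G (smoothTransition s))
    (sm_reparam hS smoothTransition.contDiff)
    (fun s u hu => ⟨Gs_odd hG.toOdd1 _ hu, ne _ (hI s) u hu⟩)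
    (fun s => turn hP hG h2 (hI s)) (fun s u hu r hr t _ => by
      have := not_par (c := fun σ => Gs G (smoothTransition s) (rho σ u))
        (c1 := fun σ => V (Gs G (smoothTransition s)) (rho σ u)) (hG.unit u hu)
        (inner_dW_unit hG.smooth hG.unit hu u.1) (h1 _ (hI s) u hu 0).1
        (fun σ => hasDerivAt_V' (hS.slice _) hu σ)
        (by rw [rho_pi, rho_zero]; exact Gs_odd hG.toOdd1 _ hu)
        (by rw [rho_zero]; exact c0 _ (hI s) u hu) (fun σ => (h1 _ (hI s) u hu σ).2.2.1) hr t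
      rwa [rho_zero] at this)
  refine ⟨_, k2 1, great (k2 1) (ne _ (hI 1)) (fun u hu => ?_), _, k1, k2, fun u hu => ?_,
    fun u _ => rfl⟩
  · rw [smoothTransition.one, Gs_one]; exact P1_rho hG.smooth hu
  · simp only [smoothTransition.zero, Gs_zero, nrm, rt_of_U hu, hG.unit u hu, inv_one, one_smul]

end Pool.Agent.MP_2291e2_gt.Zl
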