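import Mathlib.Analysis.SpecialFunctions.Integrals.Basic
import Pool.Agent.MP_2291e2_gt.zl.Spec2

/-! Row ENDEST: the normal variation of the final homotopy is close to a first harmonic. -/

open scoped ContDiff RealInnerProductSpace Topology
open Set Filter Real

namespace Pool.Agent.MP_2291e2_gt.Zl

namespace EndEst

lemma per_osc {F : Type*} [NormedAddCommGroup F] [NormedSpace ℝ F] {f f1 : ℝ → F} {C : ℝ}
    (hd : ∀ σ, HasDerivAt f (f1 σ) σ) (hC : ∀ σ, ‖f1 σ‖ ≤ C) (hp : Function.Periodic f (2 * π))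
    (σ : ℝ) : ‖f σ - f 0‖ ≤ 8 * C := by
  obtain ⟨y, hy, e⟩ := hp.exists_mem_Ico₀ two_pi_pos σ
  have h0 : 0 ≤ C := (norm_nonneg _).trans (hC 0)
  have := (convex_univ (𝕜 := ℝ) (E := ℝ)).norm_image_sub_le_of_norm_hasDerivWithin_le
    (f := f) (f' := f1) (C := C) (fun x _ => (hd x).hasDerivWithinAt) (fun x _ => hC x)
    (mem_univ 0) (mem_univ y)
  rw [e]
  refine this.trans ?_
  rw [sub_zero, Real.norm_eq_abs, abs_of_nonneg hy.1]
  have := pi_le_four
  nlinarith [hy.2, hy.1]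

lemma tri {x c η h y d : E} {k δ R : ℝ} (h1 : ‖x - c‖ ≤ k) (h2 : ‖y - d‖ ≤ k)
    (h3 : ‖η - h‖ ≤ δ * R) (hc : ‖c‖ ≤ 3) (hd : ‖d‖ ≤ 3) (hh : ‖h‖ ≤ 4 * R) (hk : k ≤ 1)
    (hδ : δ ≤ 1) (hδ0 : 0 ≤ δ) : |dt x η y - dt c h d| ≤ (32 * k + 12 * δ) * R := by
  have e : dt x η y - dt c h d = dt (x - c) η y + dt c (η - h) y + dt c h (y - d) := by
    simp only [dt3, PiLp.sub_apply]; ring
  have hk0 : 0 ≤ k := (norm_nonneg _).trans h1
  have hR : 0 ≤ R := by linarith [norm_nonneg h]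
  have hy : ‖y‖ ≤ 4 := by
    have := norm_add_le (y - d) d
    rw [sub_add_cancel] at this; linarith
  have hη : ‖η‖ ≤ 5 * R := by
    have := norm_add_le (η - h) h
    rw [sub_add_cancel] at this
    nlinarith
  have a1 : |dt (x - c) η y| ≤ k * (5 * R * 4) :=
    (abs_dt_le _ _ _).trans (by gcongr)
  have a2 : |dt c (η - h) y| ≤ 3 * (δ * R * 4) :=
    (abs_dt_le _ _ _).trans (by gcongr)
  have a3 : |dt c h (y - d)| ≤ 3 * (4 * R * k) :=
    (abs_dt_le _ _ _).trans (by gcongr)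
  rw [e]
  have := abs_add_three (dt (x - c) η y) (dt c (η - h) y) (dt c h (y - d))
  nlinarith

lemma abs_harm (a b σ : ℝ) : |a * cos σ + b * sin σ| ≤ √(a ^ 2 + b ^ 2) := by
  apply abs_le_sqrt
  nlinarith [sin_sq_add_cos_sq σ, sq_nonneg (a * sin σ - b * cos σ)]

lemma abs_harm' (a b σ : ℝ) : |-a * sin σ + b * cos σ| ≤ √(a ^ 2 + b ^ 2) := by
  apply abs_le_sqrt
  nlinarith [sin_sq_add_cos_sq σ, sq_nonneg (a * cos σ + b * sin σ)]

/-- The variation field is close to a multiple of the initial normal. -/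
lemma eta_est {g p q η η1 : ℝ → E} {k md m1 m1d : ℝ → ℝ} {v e ε R : ℝ}
    (dg : ∀ σ, HasDerivAt g (p σ) σ) (dp : ∀ σ, HasDerivAt p (q σ) σ)
    (dη : ∀ σ, HasDerivAt η (η1 σ) σ)
    (pg : Function.Periodic g (2 * π)) (pp : Function.Periodic p (2 * π))
    (pη : Function.Periodic η (2 * π))
    (ng : ∀ σ, ‖g σ‖ = 1) (np : ∀ σ, ‖p σ‖ = v) (hv : |v ^ 2 - 1| ≤ ε) (hε : ε ≤ 1 / 60)
    (gp : ∀ σ, ⟪g σ, p σ⟫ = 0) (gη : ∀ σ, ⟪g σ, η σ⟫ = 0)
    (hq : ∀ σ, q σ = -v ^ 2 • g σ + (k σ / v ^ 2) • cr (g σ) (p σ)) (hk : ∀ σ, |k σ| ≤ ε)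
    (he : ∀ σ, ⟪η1 σ, p σ⟫ = e) (h0 : ⟪η 0, p 0⟫ = 0)
    (dm : ∀ σ, HasDerivAt (fun σ => dt (g σ) (η σ) (p σ)) (md σ) σ)
    (b1 : ∀ σ, |m1 σ| ≤ R) (b2 : ∀ σ, |m1d σ| ≤ R)
    (c1 : ∀ σ, |dt (g σ) (η σ) (p σ) - m1 σ| ≤ 60 * ε * R)
    (c2 : ∀ σ, |md σ - m1d σ| ≤ 60 * ε * R) (σ : ℝ) :
    ‖η σ - (-(m1 σ / v ^ 2)) • cr (g 0) (p 0)‖ ≤ 700 * ε * R ∧
      ‖η1 σ - (-(m1d σ / v ^ 2)) • cr (g 0) (p 0)‖ ≤ 700 * ε * R := by
  have hε0 : 0 ≤ ε := (abs_nonneg _).trans hv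
  have hR : 0 ≤ R := (abs_nonneg _).trans (b1 0)
  have hv0 : 0 ≤ v := np 0 ▸ norm_nonneg _
  obtain ⟨v1, v2⟩ := abs_le.1 hv
  have w1 : 1 / 2 ≤ v ^ 2 := by linarith
  have w2 : v ^ 2 ≤ 2 := by linarith
  have w3 : v ≤ 2 := by nlinarith
  have w0 : 0 < v ^ 2 := by linarith
  have hεR : 0 ≤ ε * R := mul_nonneg hε0 hR
  have hεR' : 60 * ε * R ≤ R := by nlinarith
  set κ : ℝ → ℝ := fun σ => k σ / v ^ 2 with hκ
  have bκ : ∀ σ, |κ σ| ≤ 2 * ε := by
    intro σ
    simp only [hκ]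
    rw [abs_div, abs_of_pos w0, div_le_iff₀ w0]
    nlinarith [hk σ]
  have gg : ∀ σ, ⟪g σ, g σ⟫ = 1 := fun σ => by rw [real_inner_self_eq_norm_sq, ng]; norm_num
  have nN : ∀ σ, ‖cr (g σ) (p σ)‖ ≤ 2 := fun σ => by
    have := norm_cr_le (g σ) (p σ); rw [ng, np] at this; linarith
  have bm : ∀ σ, |dt (g σ) (η σ) (p σ)| ≤ 2 * R := fun σ => by
    have := abs_add_le (dt (g σ) (η σ) (p σ) - m1 σ) (m1 σ)
    rw [sub_add_cancel] at this; linarith [c1 σ, b1 σ]
  have bmd : ∀ σ, |md σ| ≤ 2 * R := fun σ => by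
    have := abs_add_le (md σ - m1d σ) (m1d σ)
    rw [sub_add_cancel] at this; linarith [c2 σ, b2 σ]
  -- the normal
  have dN : ∀ σ, HasDerivAt (fun σ => cr (g σ) (p σ)) (-(κ σ) • p σ) σ := by
    intro σ
    refine (hasDerivAt_cr (dg σ) (dp σ)).congr_deriv ?_
    rw [cr_self, hq, cr_add_right, cr_smul_right, cr_smul_right, cr_self, cr_cr_right, gp, gg]
    simp only [hκ]; module
  have oN : ∀ σ, ‖cr (g σ) (p σ) - cr (g 0) (p 0)‖ ≤ 8 * (4 * ε) :=
    per_osc dN (fun σ => by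
      rw [norm_smul, np, Real.norm_eq_abs, abs_neg]; nlinarith [bκ σ, abs_nonneg (κ σ)])
      (fun σ => by simp only [pg σ, pp σ])
  -- the tangential part
  have da : ∀ σ, HasDerivAt (fun σ => ⟪η σ, p σ⟫) (e - κ σ * dt (g σ) (η σ) (p σ)) σ := by
    intro σ
    refine (hasDerivAt_inner (dη σ) (dp σ)).congr_deriv ?_
    rw [he, hq, inner_add_right, inner_smul_right, inner_smul_right, real_inner_comm, gη]
    have : ⟪η σ, cr (g σ) (p σ)⟫ = -dt (g σ) (η σ) (p σ) := dt_swap12 _ _ _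
    rw [this]; simp only [hκ]; ring
  have bκm : ∀ σ, |κ σ * dt (g σ) (η σ) (p σ)| ≤ 4 * (ε * R) := fun σ => by
    rw [abs_mul]
    calc _ ≤ 2 * ε * (2 * R) := by gcongr; exacts [bκ σ, bm σ]
      _ = _ := by ring
  have be : |e| ≤ 4 * (ε * R) := by
    obtain ⟨c, -, hc⟩ := exists_hasDerivAt_eq_zero (f := fun σ => ⟪η σ, p σ⟫) two_pi_pos
      (fun x _ => (da x).continuousAt.continuousWithinAt)
      (by have a := pη 0; have b := pp 0; rw [zero_add] at a b; simp only [a, b])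
      (fun x _ => da x)
    have : e = κ c * dt (g c) (η c) (p c) := by linarith
    rw [this]; exact bκm c
  have ba : ∀ σ, |⟪η σ, p σ⟫| ≤ 64 * (ε * R) := by
    intro σ
    have := per_osc (C := 8 * (ε * R)) da (fun σ => by
      rw [Real.norm_eq_abs]
      have := abs_sub e (κ σ * dt (g σ) (η σ) (p σ))
      linarith [bκm σ]) (fun σ => by simp only [pη σ, pp σ]) σ
    rw [h0, sub_zero, Real.norm_eq_abs] at this
    linarith
  have fin : ∀ (x : E) (t : ℝ), ‖v ^ 2 • x + t • cr (g 0) (p 0)‖ ≤ 350 * (ε * R) →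
      ‖x - (-(t / v ^ 2)) • cr (g 0) (p 0)‖ ≤ 700 * ε * R := by
    intro x t h
    have : x - (-(t / v ^ 2)) • cr (g 0) (p 0) =
        (v ^ 2)⁻¹ • (v ^ 2 • x + t • cr (g 0) (p 0)) := by
      rw [smul_add, smul_smul, smul_smul, inv_mul_cancel₀ w0.ne', one_smul, neg_smul,
        sub_neg_eq_add, div_eq_inv_mul]
    rw [this, norm_smul, Real.norm_eq_abs, abs_of_pos (inv_pos.2 w0), inv_mul_le_iff₀ w0]
    nlinarith
  constructor
  · apply fin
    have f := frame_mul (g σ) (p σ) (η σ) (gp σ)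
    rw [ng, np, real_inner_comm, gη, dt_swap23] at f
    have : v ^ 2 • η σ + m1 σ • cr (g 0) (p 0) = ⟪η σ, p σ⟫ • p σ
        - dt (g σ) (η σ) (p σ) • (cr (g σ) (p σ) - cr (g 0) (p 0))
        - (dt (g σ) (η σ) (p σ) - m1 σ) • cr (g 0) (p 0) := by
      have f' : v ^ 2 • η σ = (1 ^ 2 * v ^ 2) • η σ := by simp
      rw [f', f]; module
    rw [this]
    have t1 : ‖⟪η σ, p σ⟫ • p σ‖ ≤ 64 * (ε * R) * 2 := by
      rw [norm_smul, np, Real.norm_eq_abs]; gcongr; exact ba σ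
    have t2 : ‖dt (g σ) (η σ) (p σ) • (cr (g σ) (p σ) - cr (g 0) (p 0))‖
        ≤ 2 * R * (8 * (4 * ε)) := by
      rw [norm_smul, Real.norm_eq_abs]; gcongr; exacts [bm σ, oN σ]
    have t3 : ‖(dt (g σ) (η σ) (p σ) - m1 σ) • cr (g 0) (p 0)‖ ≤ 60 * ε * R * 2 := by
      rw [norm_smul, Real.norm_eq_abs]; gcongr; exacts [c1 σ, nN 0]
    refine (norm_sub_le _ _).trans ((add_le_add (norm_sub_le _ _) le_rfl).trans ?_)
    nlinarith
  · apply fin
    have f := frame_mul (g σ) (p σ) (η1 σ) (gp σ)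
    have i1 : ⟪η1 σ, g σ⟫ = -⟪η σ, p σ⟫ := by
      have h1 := hasDerivAt_inner (dg σ) (dη σ)
      have h2 : HasDerivAt (fun σ => ⟪g σ, η σ⟫) 0 σ := by
        simp only [gη]; exact hasDerivAt_const _ _
      have := h1.unique h2
      rw [real_inner_comm (g σ), real_inner_comm (p σ)]
      linarith
    have i2 : dt (g σ) (p σ) (η1 σ) = -(md σ - κ σ * ⟪η σ, p σ⟫) := by
      have h1 := (hasDerivAt_dt (dg σ) (dη σ) (dp σ)).unique (dm σ)
      have h3 : dt (g σ) (η σ) (q σ) = κ σ * ⟪η σ, p σ⟫ := by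
        rw [← inner_cr_eq, hq, inner_add_right, inner_smul_right, inner_smul_right,
          cr_inner_left, inner_cr_cr, gg, gp]
        simp only [hκ]; ring
      rw [dt_self13, h3] at h1
      rw [dt_swap23]; linarith
    rw [ng, np, i1, i2, he] at f
    have : v ^ 2 • η1 σ + m1d σ • cr (g 0) (p 0) = e • p σ - (v ^ 2 * ⟪η σ, p σ⟫) • g σ
        + (κ σ * ⟪η σ, p σ⟫) • cr (g σ) (p σ)
        - md σ • (cr (g σ) (p σ) - cr (g 0) (p 0)) - (md σ - m1d σ) • cr (g 0) (p 0) := by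
      have f' : v ^ 2 • η1 σ = (1 ^ 2 * v ^ 2) • η1 σ := by simp
      rw [f', f]; module
    rw [this]
    have t0 : ‖e • p σ‖ ≤ 4 * (ε * R) * 2 := by
      rw [norm_smul, np, Real.norm_eq_abs]; gcongr
    have t1 : ‖(v ^ 2 * ⟪η σ, p σ⟫) • g σ‖ ≤ 2 * (64 * (ε * R)) := by
      rw [norm_smul, ng, Real.norm_eq_abs, mul_one, abs_mul, abs_of_pos w0]; gcongr; exact ba σ
    have t4 : ‖(κ σ * ⟪η σ, p σ⟫) • cr (g σ) (p σ)‖ ≤ 2 * ε * (64 * (ε * R)) * 2 := by
      rw [norm_smul, Real.norm_eq_abs, abs_mul]; gcongr; exacts [bκ σ, ba σ, nN σ]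
    have t2 : ‖md σ • (cr (g σ) (p σ) - cr (g 0) (p 0))‖ ≤ 2 * R * (8 * (4 * ε)) := by
      rw [norm_smul, Real.norm_eq_abs]; gcongr; exacts [bmd σ, oN σ]
    have t3 : ‖(md σ - m1d σ) • cr (g 0) (p 0)‖ ≤ 60 * ε * R * 2 := by
      rw [norm_smul, Real.norm_eq_abs]; gcongr; exacts [c2 σ, nN 0]
    refine (norm_sub_le _ _).trans ((add_le_add ((norm_sub_le _ _).trans (add_le_add
      ((norm_add_le _ _).trans (add_le_add (norm_sub_le _ _) le_rfl)) le_rfl)) le_rfl).trans ?_)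
    nlinarith

/-- cosine coefficient -/
noncomputable def hA (η : ℝ → E) : E := π⁻¹ • ∫ r in (0 : ℝ)..2 * π, cos r • η r

/-- sine coefficient -/
noncomputable def hB (η : ℝ → E) : E := π⁻¹ • ∫ r in (0 : ℝ)..2 * π, sin r • η r

lemma shift {η : ℝ → E} (hc : Continuous η) (hp : Function.Periodic η (2 * π)) (σ : ℝ) :
    π⁻¹ • ∫ r in (0 : ℝ)..2 * π, cos r • η (r + σ) = cos σ • hA η + sin σ • hB η := by
  have hper : Function.Periodic (fun r => cos (r - σ) • η r) (2 * π) := by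
    intro r
    simp only
    rw [hp r, show r + 2 * π - σ = r - σ + 2 * π by ring, cos_add_two_pi]
  have h1 : ∫ r in (0 : ℝ)..2 * π, cos r • η (r + σ)
      = ∫ r in (0 : ℝ)..2 * π, cos (r - σ) • η r := by
    have := intervalIntegral.integral_comp_add_right (a := 0) (b := 2 * π)
      (fun r => cos (r - σ) • η r) σ
    simp only [add_sub_cancel_right, zero_add] at this
    rw [this, add_comm (2 * π) σ, hper.intervalIntegral_add_eq σ 0, zero_add]
  have h2 : ∀ r, cos (r - σ) • η r = cos σ • (cos r • η r) + sin σ • (sin r • η r) := by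
    intro r; rw [cos_sub]; module
  rw [h1]
  simp only [h2]
  rw [intervalIntegral.integral_add (Continuous.intervalIntegrable (by fun_prop) _ _)
    (Continuous.intervalIntegrable (by fun_prop) _ _), intervalIntegral.integral_smul,
    intervalIntegral.integral_smul, hA, hB]
  module

lemma coef {η : ℝ → E} (hc : Continuous η) {a b D : ℝ} {N : E}
    (h : ∀ σ, ‖η σ - (a * cos σ + b * sin σ) • N‖ ≤ D) :
    ‖hA η - a • N‖ ≤ 2 * D ∧ ‖hB η - b • N‖ ≤ 2 * D := by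
  have key : ∀ (w : ℝ → ℝ) (t : ℝ), Continuous w → (∀ r, |w r| ≤ 1) →
      ∫ r in (0 : ℝ)..2 * π, w r * (a * cos r + b * sin r) = π * t →
      ‖π⁻¹ • (∫ r in (0 : ℝ)..2 * π, w r • η r) - t • N‖ ≤ 2 * D := by
    intro w t hw hw1 hI
    have e : π⁻¹ • (∫ r in (0 : ℝ)..2 * π, w r • η r) - t • N =
        π⁻¹ • ∫ r in (0 : ℝ)..2 * π, w r • (η r - (a * cos r + b * sin r) • N) := by
      simp only [smul_sub, smul_smul]
      rw [intervalIntegral.integral_sub (Continuous.intervalIntegrable (by fun_prop) _ _)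
        (Continuous.intervalIntegrable (by fun_prop) _ _), intervalIntegral.integral_smul_const,
        hI, smul_sub, smul_smul, ← mul_assoc, inv_mul_cancel₀ pi_ne_zero, one_mul]
    have b1 := intervalIntegral.norm_integral_le_of_norm_le_const (a := 0) (b := 2 * π) (C := D)
      (f := fun r => w r • (η r - (a * cos r + b * sin r) • N)) (fun r _ => by
        rw [norm_smul, Real.norm_eq_abs]
        calc _ ≤ 1 * D := by gcongr; exacts [hw1 r, h r]
          _ = D := one_mul D)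
    rw [e, norm_smul, Real.norm_eq_abs, abs_of_pos (inv_pos.2 pi_pos), inv_mul_le_iff₀ pi_pos]
    rw [sub_zero, abs_of_pos two_pi_pos] at b1
    linarith
  have i1 : ∫ r in (0 : ℝ)..2 * π, sin r * cos r = 0 := by
    rw [integral_sin_mul_cos₁]; simp
  constructor
  · refine key cos a continuous_cos abs_cos_le_one ?_
    have : ∀ r, cos r * (a * cos r + b * sin r) = a * cos r ^ 2 + b * (sin r * cos r) := by
      intro r; ring
    simp only [this]
    rw [intervalIntegral.integral_add (Continuous.intervalIntegrable (by fun_prop) _ _)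
      (Continuous.intervalIntegrable (by fun_prop) _ _), intervalIntegral.integral_const_mul,
      intervalIntegral.integral_const_mul, i1, integral_cos_sq]
    simp; ring
  · refine key sin b continuous_sin abs_sin_le_one ?_
    have : ∀ r, sin r * (a * cos r + b * sin r) = a * (sin r * cos r) + b * sin r ^ 2 := by
      intro r; ring
    simp only [this]
    rw [intervalIntegral.integral_add (Continuous.intervalIntegrable (by fun_prop) _ _)
      (Continuous.intervalIntegrable (by fun_prop) _ _), intervalIntegral.integral_const_mul,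
      intervalIntegral.integral_const_mul, i1, integral_sin_sq]
    simp; ring

lemma l1_le {z : ℝ → ℝ} (hz : Continuous z) {t : ℝ} (ht : 0 < t)
    (h : ∫ σ in (0 : ℝ)..2 * π, z σ ^ 2 ≤ π ^ 2 * t ^ 2) :
    ∫ σ in (0 : ℝ)..2 * π, ‖z σ‖ ≤ 12 * t := by
  have h1 : ∫ σ in (0 : ℝ)..2 * π, ‖z σ‖ ≤ ∫ σ in (0 : ℝ)..2 * π, ((2 * t)⁻¹ * z σ ^ 2 + t / 2) := by
    refine intervalIntegral.integral_mono_on two_pi_pos.le
      (Continuous.intervalIntegrable (by fun_prop) _ _)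
      (Continuous.intervalIntegrable (by fun_prop) _ _) fun σ _ => ?_
    rw [Real.norm_eq_abs, ← sq_abs (z σ), ← sub_nonneg]
    have : (2 * t)⁻¹ * |z σ| ^ 2 + t / 2 - |z σ| = (2 * t)⁻¹ * (|z σ| - t) ^ 2 := by
      field_simp; ring
    rw [this]; positivity
  rw [intervalIntegral.integral_add (Continuous.intervalIntegrable (by fun_prop) _ _)
    (Continuous.intervalIntegrable (by fun_prop) _ _), intervalIntegral.integral_const_mul,
    intervalIntegral.integral_const] at h1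
  have h2 : (2 * t)⁻¹ * ∫ σ in (0 : ℝ)..2 * π, z σ ^ 2 ≤ π ^ 2 * t / 2 := by
    rw [inv_mul_le_iff₀ (by positivity)]; nlinarith
  have h3 := pi_le_four
  have h4 := pi_pos
  simp only [sub_zero, smul_eq_mul] at h1
  have h5 : π ^ 2 ≤ 16 := by nlinarith
  nlinarith

lemma a1 {G : P → E} (hG : ContDiffOn ℝ ∞ G Ind) :
    ContDiffOn ℝ ∞ (fun q : P × ℝ => cos q.2 • G (rho q.2 q.1)) (Ind ×ˢ univ) := by
  have hr : ContDiff ℝ ∞ (fun q : P × ℝ => rho q.2 q.1) := by unfold rho; fun_prop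
  have h1 : ContDiffOn ℝ ∞ (fun q : P × ℝ => G (rho q.2 q.1)) (Ind ×ˢ univ) :=
    ContDiffOn.comp (g := G) (f := fun q : P × ℝ => rho q.2 q.1) hG hr.contDiffOn
      fun q hq => rho_mem_Ind hq.1 _
  have h2 : ContDiff ℝ ∞ (fun q : P × ℝ => cos q.2) := by fun_prop
  exact h2.contDiffOn.smul h1

lemma a2 {f : P × ℝ → E} {w : P} {r : ℝ} (d0 : DifferentiableAt ℝ f (w, r)) (δ : P) :
    fderiv ℝ f (w, r) (δ, 0) = fderiv ℝ (fun x => f (x, r)) w δ := by
  have e := (d0.hasFDerivAt.comp w (hasFDerivAt_prodMk_left (𝕜 := ℝ) w r)).fderiv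
  change _ = fderiv ℝ (f ∘ fun x => (x, r)) w δ
  rw [e]
  simp

lemma a3 (hP : PIntStmt) {f : P × ℝ → E} (hf : ContDiffOn ℝ ∞ f (Ind ×ˢ univ)) {w : P}
    (hw : w ∈ Ind) : ContDiffAt ℝ ∞ (fun x => ∫ s in (0 : ℝ)..2 * π, f (x, s)) w ∧
      ∀ ξ, dW (fun x => ∫ s in (0 : ℝ)..2 * π, f (x, s)) w ξ
        = ∫ s in (0 : ℝ)..2 * π, dW (fun x => f (x, s)) w ξ := by
  have hΩ : IsOpen (Ind ×ˢ (univ : Set ℝ)) := isOpen_Ind.prod isOpen_univ
  have h0 := (hP P E (Ind ×ˢ univ) f hΩ hf).1 0 (2 * π) w fun s _ => mk_mem_prod hw (mem_univ s)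
  refine ⟨h0.1, fun ξ => ?_⟩
  have h2 := h0.2 (W w ξ)
  have h3 : ∀ r, fderiv ℝ f (w, r) (W w ξ, 0) = fderiv ℝ (fun x => f (x, r)) w (W w ξ) := fun r =>
    a2 ((hf.contDiffAt (hΩ.mem_nhds (mk_mem_prod hw (mem_univ r)))).differentiableAt (by simp)) _
  simp only [h3] at h2
  exact h2

lemma P1_smooth (hP : PIntStmt) {G : P → E} (hG : ContDiffOn ℝ ∞ G Ind) :
    ContDiffOn ℝ ∞ (P1 G) Ind ∧ ∀ w ∈ Ind, ∀ ξ,
      dW (P1 G) w ξ = π⁻¹ • ∫ r in (0 : ℝ)..2 * π, cos r • dW G (rho r w) ξ := by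
  have h := fun w hw => a3 hP (a1 hG) (w := w) hw
  simp only at h
  refine ⟨fun w hw => ((h w hw).1.const_smul π⁻¹).contDiffWithinAt, fun w hw ξ => ?_⟩
  obtain ⟨h1, h2⟩ := h w hw
  refine (dW_csmul π⁻¹ (h1.differentiableAt (by simp)) ξ).trans ?_
  rw [h2]
  refine congrArg _ (intervalIntegral.integral_congr fun r _ => ?_)
  have d1 : DifferentiableAt ℝ G (rho r w) := diffAt_of_Ind hG (rho_mem_Ind hw r)
  have d3 : DifferentiableAt ℝ (rho r) w := by unfold rho; fun_prop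
  have d2 : DifferentiableAt ℝ (fun x => G (rho r x)) w := d1.comp w d3
  exact (dW_csmul (cos r) d2 ξ).trans (congrArg _ (dW_comp_rho d1 ξ))

lemma main (hP : PIntStmt) (hA' : CurveAStmt) (hO : OneDStmt) {G : P → E} (hG : Good G)
    (hc : CSpeed G) {ε k s : ℝ} (hε0 : 0 < ε) (hε : ε ≤ 1 / 3000) (hS : Small ε G)
    (hs : s ∈ Icc (0 : ℝ) 1) {u : P} (hu : u ∈ U) (hk : k ≤ 1)
    (hE : ∀ σ, ‖Gs G s (rho σ u) - (cos σ • G u + sin σ • V G u)‖ ≤ k ∧
      ‖V (Gs G s) (rho σ u) - (-sin σ • G u + cos σ • V G u)‖ ≤ k ∧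
      ‖V (V (Gs G s)) (rho σ u) + (cos σ • G u + sin σ • V G u)‖ ≤ k)
    {ξ : E} (hξ : cr ξ u.1 ≠ 0) (h0 : ⟪dW G u ξ, V G u⟫ = 0) :
    ∃ a b : ℝ, 0 < a ^ 2 + b ^ 2 ∧ ∀ σ,
      |mm (Gs G s) (rho σ u) ξ - (a * cos σ + b * sin σ)|
        ≤ (32 * k + 12 * (3000 * ε)) * √(a ^ 2 + b ^ 2) ∧
      |V (fun w => mm (Gs G s) w ξ) (rho σ u) - (-a * sin σ + b * cos σ)|
        ≤ 2 * ((32 * k + 12 * (3000 * ε)) * √(a ^ 2 + b ^ 2)) := by
  have sG := hG.smooth
  have sV := contDiffOn_V sG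
  have sη : ContDiffOn ℝ ∞ (fun w => dW G w ξ) Ind := contDiffOn_dW sG contDiffOn_const
  have sm := contDiffOn_mm sG ξ
  have con := constr_of_cspeed hG.toOdd1 hc
  have per : ∀ {F : Type} (f : P → F), Function.Periodic (fun σ => f (rho σ u)) (2 * π) :=
    fun f σ => congrArg f (rho_periodic u σ)
  -- the first harmonic of the normal variation
  have dm := hasDerivAt_V' sm hu
  have dm2 := hasDerivAt_V' (contDiffOn_V sm) hu
  have cm2 : Continuous fun σ => V (V fun w => mm G w ξ) (rho σ u) :=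
    continuous_iff_continuousAt.2 fun σ =>
      (hasDerivAt_V' (contDiffOn_V (contDiffOn_V sm)) hu σ).continuousAt
  have cm : Continuous fun σ => mm G (rho σ u) ξ :=
    continuous_iff_continuousAt.2 fun σ => (dm σ).continuousAt
  set a : ℝ := π⁻¹ • ∫ σ in (0 : ℝ)..2 * π, cos σ • mm G (rho σ u) ξ with ha
  set b : ℝ := π⁻¹ • ∫ σ in (0 : ℝ)..2 * π, sin σ • mm G (rho σ u) ξ with hb
  have hc1 : c1sq (fun σ => mm G (rho σ u) ξ) = π ^ 2 * (a ^ 2 + b ^ 2) := by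
    simp only [c1sq, ha, hb, smul_eq_mul, mul_comm (mm G _ ξ)]
    field_simp
  obtain ⟨-, -, -, hpos⟩ := hG.turn.half (mm_lin G) (fun u _ => mm_fst G u)
    (fun ξ u hu => diffAt_of_U (contDiffOn_mm sG ξ) hu)
    (fun u hu ξ => mm_odd sG hG.odd hu ξ) hu hξ
  have hab : 0 < a ^ 2 + b ^ 2 := by
    rw [hc1] at hpos
    exact (mul_pos_iff_of_pos_left (by positivity)).1 hpos
  set R := √(a ^ 2 + b ^ 2) with hR
  have hR0 : 0 < R := sqrt_pos.2 hab
  have hR2 : R ^ 2 = a ^ 2 + b ^ 2 := sq_sqrt hab.le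
  have hZ : ∫ σ in (0 : ℝ)..2 * π,
      ‖V (V fun w => mm G w ξ) (rho σ u) + mm G (rho σ u) ξ‖ ≤ 12 * (ε * R) := by
    refine l1_le (cm2.add cm) (mul_pos hε0 hR0) ?_
    have := (hS u hu).2.2 ξ
    rw [hc1, ← hR2, zsq] at this
    have e1 : deriv (fun σ => mm G (rho σ u) ξ) = fun σ => V (fun w => mm G w ξ) (rho σ u) :=
      funext fun σ => (dm σ).deriv
    have e2 : deriv (fun σ => V (fun w => mm G w ξ) (rho σ u))
        = fun σ => V (V fun w => mm G w ξ) (rho σ u) := funext fun σ => (dm2 σ).deriv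
    rw [e1, e2] at this
    calc _ ≤ _ := this
      _ = _ := by ring
  have hm := hO.2.2 ℝ _ _ _ dm dm2 cm2 (per fun w => mm G w ξ) a b _ ha hb rfl
  -- the variation field
  set v := ‖V G u‖ with hv
  have dη := hasDerivAt_V' sη hu
  have cη : Continuous fun σ => dW G (rho σ u) ξ :=
    continuous_iff_continuousAt.2 fun σ => (dη σ).continuousAt
  have hvs : ∀ σ, vsq G (rho σ u) = v ^ 2 := fun σ => by
    rw [← (con _ (rho_mem_U hu σ)).2, hc u hu σ]
  have hest := eta_est (g := fun σ => G (rho σ u)) (p := fun σ => V G (rho σ u))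
    (q := fun σ => V (V G) (rho σ u)) (η := fun σ => dW G (rho σ u) ξ)
    (η1 := fun σ => V (fun w => dW G w ξ) (rho σ u)) (k := fun σ => wk G (rho σ u))
    (md := fun σ => V (fun w => mm G w ξ) (rho σ u)) (m1 := fun σ => a * cos σ + b * sin σ)
    (m1d := fun σ => -a * sin σ + b * cos σ) (v := v) (ε := ε) (R := R)
    (e := dW (fun w => ‖V G w‖ ^ 2) u ξ / 2)
    (hasDerivAt_V' sG hu) (hasDerivAt_V' sV hu) dη (per G) (per (V G)) (per fun w => dW G w ξ)
    (fun σ => hG.unit _ (rho_mem_U hu σ)) (hc u hu) (hS u hu).1 (by linarith)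
    (fun σ => (hA' G hG.toOdd1 con _ (rho_mem_U hu σ)).2.2.2.1)
    (fun σ => inner_dW_unit sG hG.unit (rho_mem_U hu σ) ξ)
    (fun σ => by
      have := (hA' G hG.toOdd1 con _ (rho_mem_U hu σ)).2.2.2.2.2.2.1
      rwa [hvs] at this)
    (fun σ => (hS _ (rho_mem_U hu σ)).2.1)
    (fun σ => by
      have m := rho_mem_U hu σ
      have dn : ∀ w ∈ U, DifferentiableAt ℝ (fun w => ‖V G w‖ ^ 2) w := fun w hw =>
        (diffAt_of_U sV hw).norm_sq ℝ
      have e1 : dW (fun w => ‖V G w‖ ^ 2) (rho σ u) ξ = dW (fun w => ‖V G w‖ ^ 2) u ξ := by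
        rw [← dW_comp_rho (dn _ m)]
        have d3 : DifferentiableAt ℝ (rho σ) u := by unfold rho; fun_prop
        exact dW_congr hu ((dn _ m).comp u d3) (dn _ hu)
          (fun w hw => congrArg (· ^ 2) (hc w hw σ)) ξ
      rw [← e1, dW_normsq (diffAt_of_U sV m), V_dW_comm (contDiffAt_of_U sG m), real_inner_comm]
      ring)
    (by simpa using h0) dm (abs_harm a b) (abs_harm' a b)
    (fun σ => by
      have := (hm σ).1.trans (mul_le_mul_of_nonneg_left hZ (by norm_num))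
      simp only [smul_eq_mul, Real.norm_eq_abs] at this
      rw [show a * cos σ + b * sin σ = cos σ * a + sin σ * b by ring]
      exact this.trans (by linarith))
    (fun σ => by
      have := (hm σ).2.trans (mul_le_mul_of_nonneg_left hZ (by norm_num))
      simp only [smul_eq_mul, Real.norm_eq_abs] at this
      rw [show -a * sin σ + b * cos σ = -sin σ * a + cos σ * b by ring]
      exact this.trans (by linarith))
  simp only [rho_zero] at hest
  set N := cr (G u) (V G u) with hN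
  obtain ⟨v1, v2⟩ := abs_le.1 (hS u hu).1
  rw [← hv] at v1 v2
  have hv0 : 0 ≤ v := norm_nonneg _
  have w1 : 1 / 2 ≤ v ^ 2 := by linarith
  have w3 : v ≤ 2 := by nlinarith
  have w0 : 0 < v ^ 2 := by linarith
  have gu : ‖G u‖ = 1 := hG.unit u hu
  have gp : ⟪G u, V G u⟫ = 0 := (hA' G hG.toOdd1 con u hu).2.2.2.1
  have nN : ‖N‖ ≤ 2 := by
    have := norm_cr_le (G u) (V G u); rw [gu] at this; linarith
  have NN : ⟪N, N⟫ = v ^ 2 := by
    rw [real_inner_self_eq_norm_sq, hN, normsq_cr, gu, gp]; ring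
  obtain ⟨cA, cB⟩ := coef cη (a := -(a / v ^ 2)) (b := -(b / v ^ 2)) (D := 700 * ε * R) (N := N)
    (fun σ => by
      have := (hest σ).1
      rwa [show -((a * cos σ + b * sin σ) / v ^ 2)
        = -(a / v ^ 2) * cos σ + -(b / v ^ 2) * sin σ by ring] at this)
  set A := hA fun σ => dW G (rho σ u) ξ with hAd
  set B := hB fun σ => dW G (rho σ u) ξ with hBd
  -- the homotopy
  obtain ⟨sP, dP⟩ := P1_smooth hP sG
  have sGs : ContDiffOn ℝ ∞ (Gs G s) Ind := (sG.const_smul _).add (sP.const_smul _)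
  have eη : ∀ σ, dW (Gs G s) (rho σ u) ξ =
      (1 - s) • dW G (rho σ u) ξ + s • (cos σ • A + sin σ • B) := by
    intro σ
    have m := rho_mem_U hu σ
    have d1 := diffAt_of_U sG m
    have d2 := diffAt_of_U sP m
    unfold Gs
    rw [dW_fadd (f := fun w => (1 - s) • G w) (g := fun w => s • P1 G w) (d1.const_smul (1 - s))
      (d2.const_smul s), dW_csmul _ d1, dW_csmul _ d2,
      dP _ (U_sub_Ind m), hAd, hBd, ← shift cη (per fun w => dW G w ξ) σ]
    simp only [rho_add hu]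
  have eη1 : ∀ σ, V (fun w => dW (Gs G s) w ξ) (rho σ u) =
      (1 - s) • V (fun w => dW G w ξ) (rho σ u) + s • (-sin σ • A + cos σ • B) := by
    intro σ
    have h1 := hasDerivAt_V' (f := fun w => dW (Gs G s) w ξ)
      (contDiffOn_dW sGs contDiffOn_const) hu σ
    simp only [eη] at h1
    exact h1.unique (((dη σ).const_smul (1 - s)).add
      ((((hasDerivAt_cos σ).smul_const A).add ((hasDerivAt_sin σ).smul_const B)).const_smul s))
  have hεR : 0 ≤ ε * R := by positivity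
  have mix : ∀ (x : E) (c d : ℝ), |c| ≤ 1 → |d| ≤ 1 →
      ‖x - (-((a * c + b * d) / v ^ 2)) • N‖ ≤ 700 * ε * R →
      ‖(1 - s) • x + s • (c • A + d • B) - (-((a * c + b * d) / v ^ 2)) • N‖ ≤ 3000 * ε * R := by
    intro x c d hc' hd' hx
    have e : (1 - s) • x + s • (c • A + d • B) - (-((a * c + b * d) / v ^ 2)) • N =
        (1 - s) • (x - (-((a * c + b * d) / v ^ 2)) • N) +
          s • (c • (A - -(a / v ^ 2) • N) + d • (B - -(b / v ^ 2) • N)) := by
      rw [show -((a * c + b * d) / v ^ 2) = c * -(a / v ^ 2) + d * -(b / v ^ 2) by ring]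
      module
    have t1 : ‖c • (A - -(a / v ^ 2) • N) + d • (B - -(b / v ^ 2) • N)‖
        ≤ 1 * (2 * (700 * ε * R)) + 1 * (2 * (700 * ε * R)) := by
      refine (norm_add_le _ _).trans ?_
      rw [norm_smul, norm_smul, Real.norm_eq_abs, Real.norm_eq_abs]
      gcongr
    rw [e]
    refine (norm_add_le _ _).trans ?_
    rw [norm_smul, norm_smul, Real.norm_eq_abs, Real.norm_eq_abs, abs_of_nonneg hs.1,
      abs_of_nonneg (sub_nonneg.2 hs.2)]
    have t2 := mul_le_mul_of_nonneg_left hx (sub_nonneg.2 hs.2)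
    have t3 := mul_le_mul_of_nonneg_left t1 hs.1
    have t4 := mul_le_mul_of_nonneg_right hs.2 hεR
    have t5 := mul_nonneg hs.1 hεR
    nlinarith
  have nh : ∀ t : ℝ, |t| ≤ R → ‖(-(t / v ^ 2)) • N‖ ≤ 4 * R := by
    intro t ht
    rw [norm_smul, Real.norm_eq_abs, abs_neg, abs_div, abs_of_pos w0]
    have : |t| / v ^ 2 ≤ 2 * R := by rw [div_le_iff₀ w0]; nlinarith
    calc _ ≤ 2 * R * 2 := by gcongr
      _ = _ := by ring
  have nc : ∀ c d : ℝ, |c| ≤ 1 → |d| ≤ 1 → ‖c • G u + d • V G u‖ ≤ 3 := by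
    intro c d hc' hd'
    refine (norm_add_le _ _).trans ?_
    rw [norm_smul, norm_smul, Real.norm_eq_abs, Real.norm_eq_abs, gu, ← hv]
    nlinarith [abs_nonneg d]
  have edt : ∀ t σ : ℝ, dt (cos σ • G u + sin σ • V G u) ((-(t / v ^ 2)) • N)
      (-sin σ • G u + cos σ • V G u) = t := by
    intro t σ
    have : cr (cos σ • G u + sin σ • V G u) (-sin σ • G u + cos σ • V G u) = N := by
      simp only [cr_add_left, cr_add_right, cr_smul_left, cr_smul_right, cr_self,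
        cr_anti (V G u) (G u), ← hN]
      have := sin_sq_add_cos_sq σ
      match_scalars
      nlinarith
    rw [dt_swap12, dt, this, inner_smul_left, NN]
    simp only [conj_trivial]
    rw [neg_mul, neg_neg, div_mul_cancel₀ _ w0.ne']
  have hδ : 3000 * ε ≤ 1 := by linarith
  have hδ0 : 0 ≤ 3000 * ε := by positivity
  have sn : ∀ σ, |-sin σ| ≤ 1 := fun σ => by rw [abs_neg]; exact abs_sin_le_one σ
  refine ⟨a, b, hab, fun σ => ⟨?_, ?_⟩⟩
  · have := tri (hE σ).1 (hE σ).2.1 (mix _ _ _ (abs_cos_le_one σ) (abs_sin_le_one σ) (hest σ).1)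
      (nc _ _ (abs_cos_le_one σ) (abs_sin_le_one σ)) (nc _ _ (sn σ) (abs_cos_le_one σ))
      (nh _ (abs_harm a b σ)) hk hδ hδ0
    rwa [edt, ← eη] at this
  · have e0 : -a * sin σ + b * cos σ = a * -sin σ + b * cos σ := by ring
    have t1 := tri (hE σ).1 (hE σ).2.1
      (mix _ _ _ (sn σ) (abs_cos_le_one σ) (by rw [← e0]; exact (hest σ).2))
      (nc _ _ (abs_cos_le_one σ) (abs_sin_le_one σ)) (nc _ _ (sn σ) (abs_cos_le_one σ))
      (nh _ (by rw [← e0]; exact abs_harm' a b σ)) hk hδ hδ0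
    rw [edt, ← eη1, ← e0] at t1
    have t2 := tri (d := -(cos σ • G u + sin σ • V G u)) (hE σ).1
      (by rw [sub_neg_eq_add]; exact (hE σ).2.2)
      (mix _ _ _ (abs_cos_le_one σ) (abs_sin_le_one σ) (hest σ).1)
      (nc _ _ (abs_cos_le_one σ) (abs_sin_le_one σ))
      (by rw [norm_neg]; exact nc _ _ (abs_cos_le_one σ) (abs_sin_le_one σ))
      (nh _ (abs_harm a b σ)) hk hδ hδ0
    have e3 : ∀ c h : E, dt c h (-c) = 0 := fun c h => by
      simp only [dt3, PiLp.neg_apply]; ring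
    rw [e3, sub_zero, ← eη] at t2
    rw [V_mm sGs (rho_mem_U hu σ), add_sub_right_comm]
    refine (abs_add_le _ _).trans ?_
    linarith

end EndEst

theorem endest_of (hP : PIntStmt) (_hM : MeanStmt) (hA : CurveAStmt) (hO : OneDStmt)
    (hE : EndCurveStmt) : EndEstStmt := by
  intro κ hκ
  obtain ⟨ε₁, h1, hE1⟩ := hE (min 1 (κ / 128)) (by positivity)
  refine ⟨min ε₁ (min (1 / 3000) (κ / 144000)), by positivity, ?_⟩
  intro G hG hc hS s hs u hu ξ hξ
  set ε := min ε₁ (min (1 / 3000) (κ / 144000)) with hε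
  have hε0 : 0 < ε := by positivity
  have e1 : ε ≤ ε₁ := min_le_left _ _
  have e2 : ε ≤ 1 / 3000 := (min_le_right _ _).trans (min_le_left _ _)
  have e3 : ε ≤ κ / 144000 := (min_le_right _ _).trans (min_le_right _ _)
  have hS1 : Small ε₁ G := fun w hw => ⟨(hS w hw).1.trans e1, (hS w hw).2.1.trans e1,
    fun ζ => ((hS w hw).2.2 ζ).trans (mul_le_mul_of_nonneg_right (by gcongr)
      (by unfold c1sq; positivity))⟩
  have hv : V G u ≠ 0 := hG.V_ne hu
  have hv2 : ‖V G u‖ ^ 2 ≠ 0 := by simpa using hv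
  set lam := ⟪dW G u ξ, V G u⟫ / ‖V G u‖ ^ 2 with hlam
  obtain ⟨a, b, hab, h⟩ := EndEst.main hP hA hO hG hc hε0 e2 hS hs hu (min_le_left _ _)
    (fun σ => (hE1 G hG hc hS1 s hs u hu σ).2) (ξ := ξ - lam • u.1)
    (by rwa [cr_sub_left, cr_smul_left, cr_self, smul_zero, sub_zero])
    (by
      rw [dW_sub, dW_smul, inner_sub_left, inner_smul_left]
      change _ - lam * ⟪V G u, V G u⟫ = 0
      rw [real_inner_self_eq_norm_sq, hlam]; field_simp; ring)
  have sGs : ContDiffOn ℝ ∞ (Gs G s) Ind :=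
    (hG.smooth.const_smul _).add ((EndEst.P1_smooth hP hG.smooth).1.const_smul _)
  have em : ∀ w : P, w.1 = u.1 → mm (Gs G s) w (ξ - lam • u.1) = mm (Gs G s) w ξ := by
    intro w hw
    rw [(mm_lin _ w).map_sub, (mm_lin _ w).map_smul, ← hw, mm_fst]; simp
  have hR : 0 ≤ √(a ^ 2 + b ^ 2) := sqrt_nonneg _
  have hk : min 1 (κ / 128) ≤ κ / 128 := min_le_right _ _
  have hb : 2 * ((32 * min 1 (κ / 128) + 12 * (3000 * ε)) * √(a ^ 2 + b ^ 2))
      ≤ κ * √(a ^ 2 + b ^ 2) := by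
    rw [← mul_assoc]; gcongr; linarith
  have hb0 : 0 ≤ (32 * min 1 (κ / 128) + 12 * (3000 * ε)) * √(a ^ 2 + b ^ 2) := by positivity
  refine ⟨a, b, hab, fun σ => ⟨?_, ?_⟩⟩
  · rw [← em (rho σ u) rfl]
    exact (h σ).1.trans (by linarith)
  · have m := rho_mem_U hu σ
    rw [← V_congr_fibre m (diffAt_of_U (contDiffOn_mm sGs (ξ - lam • u.1)) m)
      (diffAt_of_U (contDiffOn_mm sGs ξ) m) (fun t => em _ rfl)]
    exact (h σ).2.trans hb

end Pool.Agent.MP_2291e2_gt.Zl
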