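import Mathlib.Algebra.Order.Archimedean.Real.Hom
import Mathlib.Algebra.Order.Star.Real
import Mathlib.Analysis.Calculus.Deriv.Mul
import Mathlib.Analysis.InnerProductSpace.Calculus
import Pool.Agent.MP_2291e2_gt.zl.Defs

/-! Vector algebra in Euclidean 3-space: cross product `cr`, triple product `dt`. -/

open scoped ContDiff RealInnerProductSpace

namespace Pool.Agent.MP_2291e2_gt.Zl

/-- Cross product. -/
noncomputable def cr (a b : E) : E :=
  !₂[a 1 * b 2 - a 2 * b 1, a 2 * b 0 - a 0 * b 2, a 0 * b 1 - a 1 * b 0]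

/-- Triple product. -/
noncomputable def dt (a b c : E) : ℝ := ⟪a, cr b c⟫

@[simp] lemma cr_0 (a b : E) : cr a b 0 = a 1 * b 2 - a 2 * b 1 := rfl
@[simp] lemma cr_1 (a b : E) : cr a b 1 = a 2 * b 0 - a 0 * b 2 := rfl
@[simp] lemma cr_2 (a b : E) : cr a b 2 = a 0 * b 1 - a 1 * b 0 := rfl

lemma inner3 (a b : E) : ⟪a, b⟫ = a 0 * b 0 + a 1 * b 1 + a 2 * b 2 := by
  simp [PiLp.inner_apply, Fin.sum_univ_three]; ring

lemma normsq3 (a : E) : ‖a‖ ^ 2 = a 0 ^ 2 + a 1 ^ 2 + a 2 ^ 2 := by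
  rw [← real_inner_self_eq_norm_sq, inner3]; ring

lemma ext3 {a b : E} (h0 : a 0 = b 0) (h1 : a 1 = b 1) (h2 : a 2 = b 2) : a = b := by
  ext i; fin_cases i <;> assumption

lemma dt3 (a b c : E) : dt a b c = a 0 * (b 1 * c 2 - b 2 * c 1) + a 1 * (b 2 * c 0 - b 0 * c 2)
    + a 2 * (b 0 * c 1 - b 1 * c 0) := by
  simp [dt, inner3]

/-- The cross product as a continuous bilinear map. -/
noncomputable def crL : E →L[ℝ] E →L[ℝ] E :=
  LinearMap.toContinuousLinearMap
    ((LinearMap.toContinuousLinearMap : (E →ₗ[ℝ] E) ≃ₗ[ℝ] (E →L[ℝ] E)).toLinearMap ∘ₗ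
      LinearMap.mk₂ ℝ cr
        (fun a a' b => ext3 (by simp; ring) (by simp; ring) (by simp; ring))
        (fun t a b => ext3 (by simp; ring) (by simp; ring) (by simp; ring))
        (fun a b b' => ext3 (by simp; ring) (by simp; ring) (by simp; ring))
        (fun t a b => ext3 (by simp; ring) (by simp; ring) (by simp; ring)))

@[simp] lemma crL_apply (a b : E) : crL a b = cr a b := rfl

lemma cr_add_left (a a' b : E) : cr (a + a') b = cr a b + cr a' b := by
  simp only [← crL_apply, map_add, add_apply]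
lemma cr_add_right (a b b' : E) : cr a (b + b') = cr a b + cr a b' := by
  simp only [← crL_apply, map_add]
lemma cr_sub_left (a a' b : E) : cr (a - a') b = cr a b - cr a' b := by
  simp only [← crL_apply, map_sub, sub_apply]
lemma cr_sub_right (a b b' : E) : cr a (b - b') = cr a b - cr a b' := by
  simp only [← crL_apply, map_sub]
lemma cr_smul_left (t : ℝ) (a b : E) : cr (t • a) b = t • cr a b := by
  simp only [← crL_apply, map_smul, smul_apply]
lemma cr_smul_right (t : ℝ) (a b : E) : cr a (t • b) = t • cr a b := by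
  simp only [← crL_apply, map_smul]
lemma cr_neg_left (a b : E) : cr (-a) b = -cr a b := by
  simp only [← crL_apply, map_neg, neg_apply]
lemma cr_neg_right (a b : E) : cr a (-b) = -cr a b := by
  simp only [← crL_apply, map_neg]
@[simp] lemma cr_zero_left (b : E) : cr 0 b = 0 := by
  simp only [← crL_apply, map_zero, zero_apply]
@[simp] lemma cr_zero_right (a : E) : cr a 0 = 0 := by
  simp only [← crL_apply, map_zero]
@[simp] lemma cr_self (a : E) : cr a a = 0 :=
  ext3 (by simp; ring) (by simp; ring) (by simp; ring)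
lemma cr_anti (a b : E) : cr a b = -cr b a :=
  ext3 (by simp; ring) (by simp; ring) (by simp; ring)
@[simp] lemma inner_cr_left (a b : E) : ⟪a, cr a b⟫ = 0 := by simp [inner3]; ring
@[simp] lemma inner_cr_right (a b : E) : ⟪b, cr a b⟫ = 0 := by simp [inner3]; ring
@[simp] lemma cr_inner_left (a b : E) : ⟪cr a b, a⟫ = 0 := by simp [inner3]; ring
@[simp] lemma cr_inner_right (a b : E) : ⟪cr a b, b⟫ = 0 := by simp [inner3]; ring
lemma cr_cr_right (a b c : E) : cr a (cr b c) = ⟪a, c⟫ • b - ⟪a, b⟫ • c :=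
  ext3 (by simp [inner3]; ring) (by simp [inner3]; ring) (by simp [inner3]; ring)
lemma cr_cr_left (a b c : E) : cr (cr a b) c = ⟪a, c⟫ • b - ⟪b, c⟫ • a :=
  ext3 (by simp [inner3]; ring) (by simp [inner3]; ring) (by simp [inner3]; ring)
lemma inner_cr_cr (a b c d : E) :
    ⟪cr a b, cr c d⟫ = ⟪a, c⟫ * ⟪b, d⟫ - ⟪a, d⟫ * ⟪b, c⟫ := by
  simp [inner3]; ring
lemma normsq_cr (a b : E) : ‖cr a b‖ ^ 2 = ‖a‖ ^ 2 * ‖b‖ ^ 2 - ⟪a, b⟫ ^ 2 := by
  simp only [normsq3, inner3, cr_0, cr_1, cr_2]; ring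
lemma cr_jacobi (x a b : E) : cr x (cr a b) = cr (cr x a) b + cr a (cr x b) :=
  ext3 (by simp; ring) (by simp; ring) (by simp; ring)
lemma inner_cr_eq (a b c : E) : ⟪cr a b, c⟫ = dt a b c := by simp [dt3, inner3]; ring
lemma dt_cyc (a b c : E) : dt a b c = dt b c a := by simp [dt3]; ring
lemma dt_swap12 (a b c : E) : dt a b c = -dt b a c := by simp [dt3]; ring
lemma dt_swap23 (a b c : E) : dt a b c = -dt a c b := by simp [dt3]; ring
@[simp] lemma dt_self12 (a c : E) : dt a a c = 0 := by simp [dt3]; ring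
@[simp] lemma dt_self23 (a c : E) : dt a c c = 0 := by simp [dt3]; ring
@[simp] lemma dt_self13 (a c : E) : dt a c a = 0 := by simp [dt3]; ring
lemma norm_cr_le (a b : E) : ‖cr a b‖ ≤ ‖a‖ * ‖b‖ := by
  have h := normsq_cr a b
  have : ‖cr a b‖ ^ 2 ≤ (‖a‖ * ‖b‖) ^ 2 := by nlinarith [sq_nonneg ⟪a, b⟫]
  exact abs_le_of_sq_le_sq' this (by positivity) |>.2
lemma abs_dt_le (a b c : E) : |dt a b c| ≤ ‖a‖ * (‖b‖ * ‖c‖) :=
  (abs_real_inner_le_norm _ _).trans (mul_le_mul_of_nonneg_left (norm_cr_le _ _) (norm_nonneg _))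

/-- Expansion in the orthogonal frame `g, p, g × p`, multiplied out. -/
lemma frame_mul (g p x : E) (h : ⟪g, p⟫ = 0) :
    (‖g‖ ^ 2 * ‖p‖ ^ 2) • x = (‖p‖ ^ 2 * ⟪x, g⟫) • g + (‖g‖ ^ 2 * ⟪x, p⟫) • p
      + dt g p x • cr g p := by
  rw [inner3] at h
  refine ext3 ?_ ?_ ?_ <;>
    simp only [PiLp.add_apply, PiLp.smul_apply, smul_eq_mul, normsq3, inner3, dt3, cr_0, cr_1, cr_2]
  · linear_combination (-(x 0) * (g 0 * p 0 + g 1 * p 1 + g 2 * p 2)
      + (g 0 * (x 0 * p 0 + x 1 * p 1 + x 2 * p 2) + p 0 * (x 0 * g 0 + x 1 * g 1 + x 2 * g 2)))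
      * (-1) * h
  · linear_combination (-(x 1) * (g 0 * p 0 + g 1 * p 1 + g 2 * p 2)
      + (g 1 * (x 0 * p 0 + x 1 * p 1 + x 2 * p 2) + p 1 * (x 0 * g 0 + x 1 * g 1 + x 2 * g 2)))
      * (-1) * h
  · linear_combination (-(x 2) * (g 0 * p 0 + g 1 * p 1 + g 2 * p 2)
      + (g 2 * (x 0 * p 0 + x 1 * p 1 + x 2 * p 2) + p 2 * (x 0 * g 0 + x 1 * g 1 + x 2 * g 2)))
      * (-1) * h

/-- Expansion in an orthonormal frame `y, v, y × v`. -/
lemma frame (y v x : E) (hy : ‖y‖ = 1) (hv : ‖v‖ = 1) (h : ⟪y, v⟫ = 0) :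
    x = ⟪x, y⟫ • y + ⟪x, v⟫ • v + ⟪x, cr y v⟫ • cr y v := by
  have := frame_mul y v x h
  simp only [hy, hv, one_pow, mul_one, one_smul, one_mul] at this
  rw [show ⟪x, cr y v⟫ = dt y v x from by rw [real_inner_comm, inner_cr_eq]]
  exact this

section calculus

variable {X : Type*} [NormedAddCommGroup X] [NormedSpace ℝ X]

@[fun_prop] lemma ContDiffAt.cr' {n : WithTop ℕ∞} {f g : X → E} {x : X} (hf : ContDiffAt ℝ n f x)
    (hg : ContDiffAt ℝ n g x) : ContDiffAt ℝ n (fun x => cr (f x) (g x)) x :=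
  (crL.contDiff.contDiffAt.comp x hf).clm_apply hg

@[fun_prop] lemma ContDiffOn.cr' {n : WithTop ℕ∞} {f g : X → E} {s : Set X}
    (hf : ContDiffOn ℝ n f s) (hg : ContDiffOn ℝ n g s) :
    ContDiffOn ℝ n (fun x => cr (f x) (g x)) s :=
  (crL.contDiff.comp_contDiffOn hf).clm_apply hg

@[fun_prop] lemma ContDiff.cr' {n : WithTop ℕ∞} {f g : X → E}
    (hf : ContDiff ℝ n f) (hg : ContDiff ℝ n g) : ContDiff ℝ n (fun x => cr (f x) (g x)) :=
  (crL.contDiff.comp hf).clm_apply hg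

@[fun_prop] lemma DifferentiableAt.cr' {f g : X → E} {x : X} (hf : DifferentiableAt ℝ f x)
    (hg : DifferentiableAt ℝ g x) : DifferentiableAt ℝ (fun x => cr (f x) (g x)) x :=
  (crL.differentiableAt.comp x hf).clm_apply hg

@[fun_prop] lemma ContDiffAt.dt' {n : WithTop ℕ∞} {f g h : X → E} {x : X}
    (hf : ContDiffAt ℝ n f x) (hg : ContDiffAt ℝ n g x) (hh : ContDiffAt ℝ n h x) :
    ContDiffAt ℝ n (fun x => dt (f x) (g x) (h x)) x :=
  hf.inner ℝ (ContDiffAt.cr' hg hh)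

@[fun_prop] lemma ContDiffOn.dt' {n : WithTop ℕ∞} {f g h : X → E} {s : Set X}
    (hf : ContDiffOn ℝ n f s) (hg : ContDiffOn ℝ n g s) (hh : ContDiffOn ℝ n h s) :
    ContDiffOn ℝ n (fun x => dt (f x) (g x) (h x)) s :=
  hf.inner ℝ (ContDiffOn.cr' hg hh)

@[fun_prop] lemma DifferentiableAt.dt' {f g h : X → E} {x : X} (hf : DifferentiableAt ℝ f x)
    (hg : DifferentiableAt ℝ g x) (hh : DifferentiableAt ℝ h x) :
    DifferentiableAt ℝ (fun x => dt (f x) (g x) (h x)) x :=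
  hf.inner ℝ (DifferentiableAt.cr' hg hh)

variable {Y : Type*} [TopologicalSpace Y]

@[fun_prop] lemma Continuous.cr' {f g : Y → E} (hf : Continuous f) (hg : Continuous g) :
    Continuous (fun x => cr (f x) (g x)) :=
  (crL.continuous.comp hf).clm_apply hg

@[fun_prop] lemma ContinuousOn.cr' {f g : Y → E} {s : Set Y} (hf : ContinuousOn f s)
    (hg : ContinuousOn g s) : ContinuousOn (fun x => cr (f x) (g x)) s :=
  (crL.continuous.comp_continuousOn hf).clm_apply hg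

@[fun_prop] lemma ContinuousAt.cr' {f g : Y → E} {x : Y} (hf : ContinuousAt f x)
    (hg : ContinuousAt g x) : ContinuousAt (fun x => cr (f x) (g x)) x :=
  (crL.continuous.continuousAt.comp hf).clm_apply hg

@[fun_prop] lemma Continuous.dt' {f g h : Y → E} (hf : Continuous f) (hg : Continuous g)
    (hh : Continuous h) : Continuous (fun x => dt (f x) (g x) (h x)) :=
  hf.inner (Continuous.cr' hg hh)

@[fun_prop] lemma ContinuousOn.dt' {f g h : Y → E} {s : Set Y} (hf : ContinuousOn f s)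
    (hg : ContinuousOn g s) (hh : ContinuousOn h s) :
    ContinuousOn (fun x => dt (f x) (g x) (h x)) s :=
  hf.inner (ContinuousOn.cr' hg hh)

lemma hasDerivAt_cr {f g : ℝ → E} {f' g' : E} {t : ℝ} (hf : HasDerivAt f f' t)
    (hg : HasDerivAt g g' t) :
    HasDerivAt (fun t => cr (f t) (g t)) (cr f' (g t) + cr (f t) g') t := by
  have := (crL.hasFDerivAt.comp_hasDerivAt t hf).clm_apply hg
  simpa using this

lemma hasDerivAt_inner {f g : ℝ → E} {f' g' : E} {t : ℝ} (hf : HasDerivAt f f' t)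
    (hg : HasDerivAt g g' t) :
    HasDerivAt (fun t => ⟪f t, g t⟫) (⟪f', g t⟫ + ⟪f t, g'⟫) t := by
  have := hf.inner ℝ hg
  rwa [add_comm] at this

lemma hasDerivAt_dt {f g h : ℝ → E} {f' g' h' : E} {t : ℝ} (hf : HasDerivAt f f' t)
    (hg : HasDerivAt g g' t) (hh : HasDerivAt h h' t) :
    HasDerivAt (fun t => dt (f t) (g t) (h t))
      (dt f' (g t) (h t) + dt (f t) g' (h t) + dt (f t) (g t) h') t := by
  have := hasDerivAt_inner hf (hasDerivAt_cr hg hh)
  refine this.congr_deriv ?_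
  simp only [dt, inner_add_right]; ring

lemma fderiv_cr {f g : X → E} {x : X} (hf : DifferentiableAt ℝ f x)
    (hg : DifferentiableAt ℝ g x) (δ : X) :
    fderiv ℝ (fun x => cr (f x) (g x)) x δ
      = cr (fderiv ℝ f x δ) (g x) + cr (f x) (fderiv ℝ g x δ) := by
  have := ((crL.hasFDerivAt.comp x hf.hasFDerivAt).clm_apply hg.hasFDerivAt).fderiv
  simp only [Function.comp_def, crL_apply] at this
  rw [this]; simp [add_comm]

lemma fderiv_inner' {f g : X → E} {x : X} (hf : DifferentiableAt ℝ f x)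
    (hg : DifferentiableAt ℝ g x) (δ : X) :
    fderiv ℝ (fun x => ⟪f x, g x⟫) x δ = ⟪fderiv ℝ f x δ, g x⟫ + ⟪f x, fderiv ℝ g x δ⟫ := by
  rw [fderiv_inner_apply ℝ hf hg, add_comm]

lemma fderiv_dt {f g h : X → E} {x : X} (hf : DifferentiableAt ℝ f x)
    (hg : DifferentiableAt ℝ g x) (hh : DifferentiableAt ℝ h x) (δ : X) :
    fderiv ℝ (fun x => dt (f x) (g x) (h x)) x δ
      = dt (fderiv ℝ f x δ) (g x) (h x) + dt (f x) (fderiv ℝ g x δ) (h x)
        + dt (f x) (g x) (fderiv ℝ h x δ) := by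
  simp only [dt]
  rw [fderiv_inner' hf (DifferentiableAt.cr' hg hh), fderiv_cr hg hh, inner_add_right]; ring

end calculus

end Pool.Agent.MP_2291e2_gt.Zl
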