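import Mathlib.Topology.GDelta.MetrizableSpace
import Mathlib.Algebra.Ring.IsFormallyReal
import Mathlib.Analysis.Calculus.Deriv.Prod
import Mathlib.Analysis.SpecialFunctions.Trigonometric.Deriv
import Mathlib.Analysis.CStarAlgebra.Classes
import Mathlib.LinearAlgebra.CrossProduct
import Pool.Agent.MP_2291e2_gt.zl.Vec

/-! The unit tangent bundle `U` of the round sphere, rotation fields `W`, the fibre rotation
`rho`, the retraction `rt`, and the derivations `dW`, `V`. -/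

open scoped ContDiff RealInnerProductSpace Topology
open Set Filter

namespace Pool.Agent.MP_2291e2_gt.Zl

abbrev P : Type := E × E

def U : Set P := {u | ‖u.1‖ = 1 ∧ ‖u.2‖ = 1 ∧ ⟪u.1, u.2⟫ = 0}

/-- Gram-Schmidt retraction of `Ind` onto `U`. -/
noncomputable def rt (u : P) : P :=
  (‖u.1‖⁻¹ • u.1, (‖cr u.1 u.2‖ * ‖u.1‖)⁻¹ • cr (cr u.1 u.2) u.1)

/-- Infinitesimal rotation with axis `ξ`. -/
noncomputable def W (u : P) (ξ : E) : P := (cr ξ u.1, cr ξ u.2)

/-- Rotation by the angle `s` in the fibre. -/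
noncomputable def rho (s : ℝ) (u : P) : P := (u.1, Real.cos s • u.2 + Real.sin s • cr u.1 u.2)

def rev (u : P) : P := (u.1, -u.2)

section ops
variable {F : Type*} [NormedAddCommGroup F] [NormedSpace ℝ F]

noncomputable def dW (f : P → F) (u : P) (ξ : E) : F := fderiv ℝ f u (W u ξ)

/-- Derivative along the fibre. -/
noncomputable def V (f : P → F) (u : P) : F := dW f u u.1

/-- Jointly smooth family. -/
def Sm (f : ℝ → P → F) : Prop :=
  ContDiffOn ℝ ∞ (fun q : ℝ × P => f q.1 q.2) (univ ×ˢ Ind)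

/-- Jointly smooth for positive time. -/
def SmP (f : ℝ → P → F) : Prop :=
  ContDiffOn ℝ ∞ (fun q : ℝ × P => f q.1 q.2) (Ioi 0 ×ˢ Ind)

/-- Jointly continuous up to time zero. -/
def C0 (f : ℝ → P → F) : Prop :=
  ContinuousOn (fun q : ℝ × P => f q.1 q.2) (Ici 0 ×ˢ Ind)

end ops

lemma mem_Ind {u : P} : u ∈ Ind ↔ cr u.1 u.2 ≠ 0 := by
  have h := crossProduct_ne_zero_iff_linearIndependent (F := ℝ) (v := u.1.ofLp) (w := u.2.ofLp)
  have h2 : LinearIndependent ℝ ![u.1.ofLp, u.2.ofLp] ↔ LinearIndependent ℝ ![u.1, u.2] := by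
    have := (LinearMap.linearIndependent_iff (v := ![u.1, u.2])
      (WithLp.linearEquiv 2 ℝ (Fin 3 → ℝ)).toLinearMap (by simp))
    rw [← this]
    apply iff_of_eq; congr 1
    ext i : 1; fin_cases i <;> rfl
  rw [Ind, mem_ofPred_eq, ← h2, ← h]
  apply not_congr
  constructor
  · intro h0
    refine ext3 ?_ ?_ ?_
    · simpa [cross_apply] using congrFun h0 0
    · simpa [cross_apply] using congrFun h0 1
    · simpa [cross_apply] using congrFun h0 2
  · intro h0
    ext i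
    fin_cases i
    · simpa [cross_apply] using congrArg (fun a : E => a 0) h0
    · simpa [cross_apply] using congrArg (fun a : E => a 1) h0
    · simpa [cross_apply] using congrArg (fun a : E => a 2) h0

lemma isOpen_Ind : IsOpen (Ind : Set P) := by
  have : (Ind : Set P) = (fun u : P => cr u.1 u.2) ⁻¹' {0}ᶜ := by ext u; simp [mem_Ind]
  rw [this]
  exact isOpen_compl_singleton.preimage (by fun_prop)

lemma Ind_fst_ne {u : P} (h : u ∈ Ind) : u.1 ≠ 0 := fun h0 => mem_Ind.1 h (by simp [h0])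

lemma norm_cr_U {u : P} (h : u ∈ U) : ‖cr u.1 u.2‖ = 1 := by
  have := normsq_cr u.1 u.2
  rw [h.1, h.2.1, h.2.2] at this
  have h2 : ‖cr u.1 u.2‖ ^ 2 = 1 ^ 2 := by rw [this]; norm_num
  exact (pow_left_inj₀ (norm_nonneg _) zero_le_one two_ne_zero).1 h2

lemma U_sub_Ind : U ⊆ Ind := fun u h => mem_Ind.2 (by
  intro h0; have := norm_cr_U h; rw [h0] at this; simp at this)

lemma Ind_nhds {u : P} (h : u ∈ U) : Ind ∈ 𝓝 u := isOpen_Ind.mem_nhds (U_sub_Ind h)

lemma Tan.mem_Ind {x w : E} (h : Tan x w) : (x, w) ∈ Ind := by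
  refine Zl.mem_Ind.2 fun h0 => h.2.2 ?_
  have := normsq_cr x w
  simp only at h0
  rw [h0, h.1, h.2.1] at this
  simpa using this.symm

lemma tan_of_U {u : P} (h : u ∈ U) : Tan u.1 u.2 :=
  ⟨h.1, h.2.2, fun h0 => by have := h.2.1; rw [h0] at this; simp at this⟩

lemma inner_self_U1 {u : P} (h : u ∈ U) : ⟪u.1, u.1⟫ = 1 := by
  rw [real_inner_self_eq_norm_sq, h.1]; norm_num
lemma inner_self_U2 {u : P} (h : u ∈ U) : ⟪u.2, u.2⟫ = 1 := by
  rw [real_inner_self_eq_norm_sq, h.2.1]; norm_num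
lemma inner_U21 {u : P} (h : u ∈ U) : ⟪u.2, u.1⟫ = 0 := by rw [real_inner_comm]; exact h.2.2

lemma isClosed_U : IsClosed U := by
  refine (isClosed_eq ?_ ?_).inter ((isClosed_eq ?_ ?_).inter (isClosed_eq ?_ ?_)) <;> fun_prop

lemma isCompact_U : IsCompact U := by
  refine ((isCompact_sphere (0 : E) 1).prod (isCompact_sphere (0 : E) 1)).of_isClosed_subset
    isClosed_U ?_
  intro u hu
  exact ⟨by simpa using hu.1, by simpa using hu.2.1⟩

lemma frameU {u : P} (h : u ∈ U) (x : E) :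
    x = ⟪x, u.1⟫ • u.1 + ⟪x, u.2⟫ • u.2 + ⟪x, cr u.1 u.2⟫ • cr u.1 u.2 :=
  frame _ _ _ h.1 h.2.1 h.2.2

lemma cr_cr_U {u : P} (h : u ∈ U) : cr u.1 (cr u.1 u.2) = -u.2 := by
  rw [cr_cr_right, h.2.2, inner_self_U1 h]; simp

@[simp] lemma rho_fst (s : ℝ) (u : P) : (rho s u).1 = u.1 := rfl
lemma rho_snd (s : ℝ) (u : P) : (rho s u).2 = Real.cos s • u.2 + Real.sin s • cr u.1 u.2 := rfl
@[simp] lemma rho_zero (u : P) : rho 0 u = u := by simp [rho]
@[simp] lemma rev_fst (u : P) : (rev u).1 = u.1 := rfl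
@[simp] lemma rev_snd (u : P) : (rev u).2 = -u.2 := rfl
@[simp] lemma rev_rev (u : P) : rev (rev u) = u := by simp [rev]
lemma rho_pi (u : P) : rho Real.pi u = rev u := by simp [rho, rev]
lemma rho_periodic (u : P) : Function.Periodic (fun s => rho s u) (2 * Real.pi) := by
  intro s; simp [rho]
lemma rho_add_pi (s : ℝ) (u : P) : rho (s + Real.pi) u = rev (rho s u) := by
  simp [rho, rev, Real.cos_add_pi, Real.sin_add_pi, add_comm]
lemma rho_rev (s : ℝ) (u : P) : rho s (rev u) = rev (rho s u) := by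
  simp [rho, rev, cr_neg_right, add_comm]

lemma cr_rho {u : P} (h : u ∈ U) (s : ℝ) :
    cr u.1 (rho s u).2 = Real.cos s • cr u.1 u.2 - Real.sin s • u.2 := by
  rw [rho_snd, cr_add_right, cr_smul_right, cr_smul_right, cr_cr_U h]; simp [sub_eq_add_neg]

lemma rho_add {u : P} (h : u ∈ U) (s t : ℝ) : rho s (rho t u) = rho (s + t) u := by
  refine Prod.ext rfl ?_
  rw [rho_snd, rho_fst, cr_rho h, rho_snd, rho_snd, Real.cos_add, Real.sin_add]
  module

lemma rho_mem_U {u : P} (h : u ∈ U) (s : ℝ) : rho s u ∈ U := by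
  refine ⟨h.1, ?_, ?_⟩
  · have h1 : ‖(rho s u).2‖ ^ 2 = 1 ^ 2 := by
      rw [← real_inner_self_eq_norm_sq, rho_snd]
      simp only [inner_add_left, inner_add_right, inner_smul_left, inner_smul_right,
        inner_self_U2 h, inner_cr_right, cr_inner_right, real_inner_self_eq_norm_sq,
        norm_cr_U h, conj_trivial]
      nlinarith [Real.sin_sq_add_cos_sq s]
    exact (pow_left_inj₀ (norm_nonneg _) zero_le_one two_ne_zero).1 h1
  · simp [rho_snd, inner_add_right, inner_smul_right, h.2.2]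

lemma rev_mem_U {u : P} (h : u ∈ U) : rev u ∈ U := rho_pi u ▸ rho_mem_U h _

lemma rho_mem_Ind {u : P} (h : u ∈ Ind) (s : ℝ) : rho s u ∈ Ind := by
  rw [mem_Ind] at h ⊢
  intro h0
  rw [rho_fst, rho_snd, cr_add_right, cr_smul_right, cr_smul_right] at h0
  have h1 := congrArg (fun a => ⟪cr u.1 u.2, a⟫) h0
  have h2 := congrArg (fun a => ⟪cr u.1 (cr u.1 u.2), a⟫) h0
  simp only [inner_add_right, inner_smul_right, inner_cr_right, cr_inner_right, inner_zero_right,
    real_inner_self_eq_norm_sq, mul_zero, add_zero, zero_add] at h1 h2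
  have hn : ‖cr u.1 u.2‖ ^ 2 ≠ 0 := by simpa using h
  have hy : ‖u.1‖ ^ 2 ≠ 0 := by
    have : u.1 ≠ 0 := fun h0 => h (by simp [h0])
    simpa using this
  rw [normsq_cr, inner_cr_left] at h2
  have hc : Real.cos s = 0 := (mul_eq_zero.1 h1).resolve_right hn
  have hs : Real.sin s = 0 := by
    refine (mul_eq_zero.1 h2).resolve_right ?_
    simpa using ⟨by simpa using hy, by simpa using hn⟩
  have := Real.sin_sq_add_cos_sq s
  rw [hc, hs] at this; norm_num at this

@[fun_prop] lemma contDiff_rho {n : WithTop ℕ∞} :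
    ContDiff ℝ n (fun q : ℝ × P => rho q.1 q.2) := by
  unfold rho; fun_prop

@[fun_prop] lemma contDiff_W {n : WithTop ℕ∞} : ContDiff ℝ n (fun q : P × E => W q.1 q.2) := by
  unfold W; fun_prop

@[fun_prop] lemma continuous_rho : Continuous (fun q : ℝ × P => rho q.1 q.2) :=
  (contDiff_rho (n := 0)).continuous

@[fun_prop] lemma continuous_W : Continuous (fun q : P × E => W q.1 q.2) :=
  (contDiff_W (n := 0)).continuous

@[fun_prop] lemma contDiff_rev {n : WithTop ℕ∞} : ContDiff ℝ n rev := by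
  unfold rev; fun_prop

@[fun_prop] lemma continuous_rev : Continuous rev := (contDiff_rev (n := 0)).continuous

/-- Two points of one fibre differ by a rotation. -/
lemma exists_rho {u u' : P} (h : u ∈ U) (h' : u' ∈ U) (e : u'.1 = u.1) :
    ∃ s ∈ Ico 0 (2 * Real.pi), u' = rho s u := by
  have hf := frameU h u'.2
  have h0 : ⟪u'.2, u.1⟫ = 0 := by rw [← e]; exact inner_U21 h'
  set a := ⟪u'.2, u.2⟫
  set b := ⟪u'.2, cr u.1 u.2⟫
  have hab : a ^ 2 + b ^ 2 = 1 := by
    have h1 := inner_self_U2 h'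
    rw [h0] at hf
    conv_lhs at h1 => rw [hf]
    simp only [zero_smul, zero_add, inner_add_left, inner_add_right, inner_smul_left,
      inner_smul_right, inner_self_U2 h, inner_cr_right, cr_inner_right,
      real_inner_self_eq_norm_sq, norm_cr_U h, conj_trivial] at h1
    nlinarith
  let z : ℂ := ⟨a, b⟩
  have hz : ‖z‖ = 1 := by
    rw [Complex.norm_def, Complex.normSq_mk, show a * a + b * b = 1 by nlinarith]; simp
  have hz0 : z ≠ 0 := by intro h0; rw [h0] at hz; simp at hz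
  have hc : Real.cos z.arg = a := by rw [Complex.cos_arg hz0, hz]; simp [z]
  have hs : Real.sin z.arg = b := by rw [Complex.sin_arg, hz]; simp [z]
  have key : u' = rho z.arg u := by
    refine Prod.ext e ?_
    rw [rho_snd, hc, hs]; rw [h0] at hf; simpa using hf
  refine ⟨toIcoMod Real.two_pi_pos 0 z.arg, by simpa using toIcoMod_mem_Ico Real.two_pi_pos 0 _, ?_⟩
  rw [key, toIcoMod]
  exact ((rho_periodic u).sub_zsmul_eq _).symm

lemma rho_eq_iff {u : P} (h : u ∈ U) {s t : ℝ} :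
    rho s u = rho t u ↔ ∃ k : ℤ, s = t + k * (2 * Real.pi) := by
  constructor
  · intro e
    have e2 := congrArg Prod.snd e
    have h1 := congrArg (fun a => ⟪a, u.2⟫) e2
    have h2 := congrArg (fun a => ⟪a, cr u.1 u.2⟫) e2
    simp only [rho_snd, inner_add_left, inner_smul_left, inner_self_U2 h, cr_inner_right,
      inner_cr_right, real_inner_self_eq_norm_sq, norm_cr_U h, conj_trivial] at h1 h2
    have : (s : Real.Angle) = t := Real.Angle.cos_sin_inj (by simpa using h1) (by simpa using h2)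
    obtain ⟨k, hk⟩ := Real.Angle.angle_eq_iff_two_pi_dvd_sub.1 this
    exact ⟨k, by linarith⟩
  · rintro ⟨k, rfl⟩
    exact (rho_periodic u).int_mul k t

lemma W_add (u : P) (a b : E) : W u (a + b) = W u a + W u b := by simp [W, cr_add_left]
lemma W_smul (u : P) (t : ℝ) (a : E) : W u (t • a) = t • W u a := by simp [W, cr_smul_left]
lemma W_sub (u : P) (a b : E) : W u (a - b) = W u a - W u b := by simp [W, cr_sub_left]
@[simp] lemma W_zero (u : P) : W u 0 = 0 := by simp [W]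

lemma W_inj {u : P} (h : u ∈ U) {ξ : E} (h0 : W u ξ = 0) : ξ = 0 := by
  have h1 : cr ξ u.1 = 0 := congrArg Prod.fst h0
  have h2 : cr ξ u.2 = 0 := congrArg Prod.snd h0
  have a1 := congrArg (fun a => ⟪a, u.2⟫) h1
  have a2 := congrArg (fun a => ⟪a, cr u.1 u.2⟫) h1
  have a3 := congrArg (fun a => ⟪a, cr u.1 u.2⟫) h2
  simp only [inner_cr_cr, inner_zero_left, h.2.2, inner_self_U1 h, inner_self_U2 h,
    inner_U21 h] at a2 a3
  simp only [inner_zero_left, inner_cr_eq] at a1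
  rw [frameU h ξ, show ⟪ξ, cr u.1 u.2⟫ = 0 from a1, show ⟪ξ, u.1⟫ = 0 by linarith,
    show ⟪ξ, u.2⟫ = 0 by linarith]
  simp

/-- A vector that satisfies the linearised constraints of `U` is an infinitesimal rotation. -/
lemma exists_W {u δ : P} (h : u ∈ U) (h1 : ⟪u.1, δ.1⟫ = 0) (h2 : ⟪u.2, δ.2⟫ = 0)
    (h3 : ⟪δ.1, u.2⟫ + ⟪u.1, δ.2⟫ = 0) : ∃ ξ, δ = W u ξ := by
  refine ⟨⟪δ.2, cr u.1 u.2⟫ • u.1 - ⟪δ.1, cr u.1 u.2⟫ • u.2 + ⟪δ.1, u.2⟫ • cr u.1 u.2, ?_⟩
  refine Prod.ext ?_ ?_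
  · simp only [W, cr_add_left, cr_sub_left, cr_smul_left, cr_self, cr_cr_left, inner_self_U1 h,
      inner_U21 h, cr_anti u.2 u.1]
    conv_lhs => rw [frameU h δ.1, real_inner_comm, h1]
    module
  · simp only [W, cr_add_left, cr_sub_left, cr_smul_left, cr_self, cr_cr_left, inner_self_U2 h,
      h.2.2]
    conv_lhs => rw [frameU h δ.2, real_inner_comm u.2 δ.2, h2, real_inner_comm u.1 δ.2,
      show ⟪u.1, δ.2⟫ = -⟪δ.1, u.2⟫ by linarith]
    module

/-- The derivative of a map with values in `U` is an infinitesimal rotation. -/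
lemma exists_W_fderiv {X : Type*} [NormedAddCommGroup X] [NormedSpace ℝ X] {f : X → P} {x : X}
    (hf : DifferentiableAt ℝ f x) (hU : ∀ᶠ x' in 𝓝 x, f x' ∈ U) (δ : X) :
    ∃ ξ, fderiv ℝ f x δ = W (f x) ξ := by
  have hx : f x ∈ U := hU.self_of_nhds
  have d1 : DifferentiableAt ℝ (fun x => (f x).1) x := hf.fst
  have d2 : DifferentiableAt ℝ (fun x => (f x).2) x := hf.snd
  have e1 : fderiv ℝ (fun x => (f x).1) x δ = (fderiv ℝ f x δ).1 := by rw [fderiv.fst hf]; rfl
  have e2 : fderiv ℝ (fun x => (f x).2) x δ = (fderiv ℝ f x δ).2 := by rw [fderiv.snd hf]; rfl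
  have k : ∀ (g h : X → E) (c : ℝ), DifferentiableAt ℝ g x → DifferentiableAt ℝ h x →
      (∀ᶠ x' in 𝓝 x, ⟪g x', h x'⟫ = c) →
      ⟪fderiv ℝ g x δ, h x⟫ + ⟪g x, fderiv ℝ h x δ⟫ = 0 := by
    intro g h c hg hh he
    rw [← fderiv_inner' hg hh, Filter.EventuallyEq.fderiv_eq (f := fun _ => c) he]; simp
  have k1 := k _ _ 1 d1 d1 (hU.mono fun _ h => inner_self_U1 h)
  have k2 := k _ _ 1 d2 d2 (hU.mono fun _ h => inner_self_U2 h)
  have k3 := k _ _ 0 d1 d2 (hU.mono fun _ h => h.2.2)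
  rw [e1] at k1 k3; rw [e2] at k2 k3
  rw [real_inner_comm] at k1 k2
  exact exists_W hx (by linarith) (by linarith) k3

lemma exists_W_hasDerivAt {c : ℝ → P} {c' : P} {t : ℝ} (hc : HasDerivAt c c' t)
    (hU : ∀ᶠ s in 𝓝 t, c s ∈ U) : ∃ ξ, c' = W (c t) ξ := by
  obtain ⟨ξ, h⟩ := exists_W_fderiv hc.differentiableAt hU 1
  exact ⟨ξ, by rw [← h, fderiv_apply_one_eq_deriv, hc.deriv]⟩

lemma rt_mem_U {u : P} (h : u ∈ Ind) : rt u ∈ U := by
  have h1 : ‖u.1‖ ≠ 0 := by simpa using Ind_fst_ne h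
  have h2 : ‖cr u.1 u.2‖ ≠ 0 := by simpa using mem_Ind.1 h
  refine ⟨by simp [rt, norm_smul, h1], ?_, by simp [rt, inner_smul_left, inner_smul_right]⟩
  have : ‖cr (cr u.1 u.2) u.1‖ = ‖cr u.1 u.2‖ * ‖u.1‖ := by
    have := normsq_cr (cr u.1 u.2) u.1
    rw [cr_inner_left] at this
    exact (pow_left_inj₀ (norm_nonneg _) (by positivity) two_ne_zero).1 (by rw [this]; ring)
  simp only [rt, norm_smul, this, norm_inv, norm_mul, norm_norm]
  field_simp

lemma rt_of_U {u : P} (h : u ∈ U) : rt u = u := by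
  refine Prod.ext (by simp [rt, h.1]) ?_
  simp [rt, h.1, norm_cr_U h, cr_cr_left, inner_U21 h]

lemma rt_tan {x w : E} (h : Tan x w) : rt (x, w) = (x, ‖w‖⁻¹ • w) := by
  have hn : ‖cr x w‖ = ‖w‖ := by
    have := normsq_cr x w
    rw [h.1, h.2.1] at this
    exact (pow_left_inj₀ (norm_nonneg _) (norm_nonneg _) two_ne_zero).1 (by rw [this]; ring)
  have h2 : ⟪w, x⟫ = 0 := by rw [real_inner_comm]; exact h.2.1
  simp [rt, h.1, hn, cr_cr_left, h2]

lemma contDiffOn_rt : ContDiffOn ℝ ∞ rt Ind := by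
  intro u h
  have h1 : u.1 ≠ 0 := Ind_fst_ne h
  have h2 : cr u.1 u.2 ≠ 0 := mem_Ind.1 h
  have n1 : ContDiffAt ℝ ∞ (fun u : P => ‖u.1‖) u := contDiffAt_fst.norm ℝ h1
  have n2 : ContDiffAt ℝ ∞ (fun u : P => ‖cr u.1 u.2‖) u :=
    (ContDiffAt.cr' contDiffAt_fst contDiffAt_snd).norm ℝ h2
  refine ContDiffAt.contDiffWithinAt ?_
  refine ((n1.inv (by simpa using h1)).smul contDiffAt_fst).prodMk
    (((n2.mul n1).inv (by simp [h1, h2])).smul (by fun_prop))

lemma contDiffAt_rt {u : P} (h : u ∈ Ind) : ContDiffAt ℝ ∞ rt u :=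
  contDiffOn_rt.contDiffAt (isOpen_Ind.mem_nhds h)

lemma rt_mapsTo : MapsTo rt Ind Ind := fun _ h => U_sub_Ind (rt_mem_U h)

/-- A curve in `U` through `u` with velocity `W u ξ`. -/
lemma exists_curve {u : P} (h : u ∈ U) (ξ : E) :
    ∃ c : ℝ → P, ContDiff ℝ ∞ c ∧ c 0 = u ∧ (∀ t, c t ∈ U) ∧ ∀ t, HasDerivAt c (W (c t) ξ) t := by
  by_cases h0 : ξ = 0
  · exact ⟨fun _ => u, contDiff_const, rfl, fun _ => h, fun t => by
      simpa [h0] using hasDerivAt_const t u⟩
  set n := ‖ξ‖ with hn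
  have n0 : n ≠ 0 := by simpa [hn] using h0
  have hxx : ⟪ξ, ξ⟫ = n ^ 2 := real_inner_self_eq_norm_sq ξ
  let R : ℝ → E → E := fun t a =>
    a + (Real.sin (n * t) / n) • cr ξ a + ((1 - Real.cos (n * t)) / n ^ 2) • cr ξ (cr ξ a)
  have hR : ∀ a t, HasDerivAt (fun t => R t a) (cr ξ (R t a)) t := by
    intro a t
    have s1 : HasDerivAt (fun t => Real.sin (n * t) / n) (Real.cos (n * t)) t := by
      have := ((hasDerivAt_id t).const_mul n).sin.div_const n
      refine this.congr_deriv ?_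
      simp; field_simp
    have s2 : HasDerivAt (fun t => (1 - Real.cos (n * t)) / n ^ 2) (Real.sin (n * t) / n) t := by
      have := (((hasDerivAt_id t).const_mul n).cos.const_sub 1).div_const (n ^ 2)
      refine this.congr_deriv ?_
      simp; field_simp
    have := ((s1.smul_const (cr ξ a)).const_add a).add (s2.smul_const (cr ξ (cr ξ a)))
    refine this.congr_deriv ?_
    have e3 : cr ξ (cr ξ (cr ξ a)) = -(n ^ 2) • cr ξ a := by
      rw [cr_cr_right ξ ξ (cr ξ a), inner_cr_left, hxx]; simp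
    simp only [R, cr_add_right, cr_smul_right, e3, smul_smul]
    rw [show (1 - Real.cos (n * t)) / n ^ 2 * -n ^ 2 = Real.cos (n * t) - 1 by field_simp; ring]
    module
  have hin : ∀ a b t, ⟪R t a, R t b⟫ = ⟪a, b⟫ := by
    intro a b t
    have hd : ∀ t, HasDerivAt (fun t => ⟪R t a, R t b⟫) 0 t := by
      intro t
      refine (hasDerivAt_inner (hR a t) (hR b t)).congr_deriv ?_
      simp only [inner3, cr_0, cr_1, cr_2]; ring
    have := is_const_of_deriv_eq_zero (fun t => (hd t).differentiableAt) (fun t => (hd t).deriv) t 0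
    rw [this]; simp [R]
  have hnm : ∀ a t, ‖a‖ = 1 → ‖R t a‖ = 1 := by
    intro a t ha
    have := hin a a t
    rw [real_inner_self_eq_norm_sq, real_inner_self_eq_norm_sq, ha] at this
    exact (pow_left_inj₀ (norm_nonneg _) zero_le_one two_ne_zero).1 this
  refine ⟨fun t => (R t u.1, R t u.2), ?_, by simp [R], fun t =>
    ⟨hnm _ _ h.1, hnm _ _ h.2.1, by rw [hin]; exact h.2.2⟩, fun t => (hR _ t).prodMk (hR _ t)⟩
  simp only [R]; fun_prop

lemma hasDerivAt_rho {u : P} (h : u ∈ U) (s : ℝ) :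
    HasDerivAt (fun s => rho s u) (W (rho s u) u.1) s := by
  have := (hasDerivAt_const s u.1).prodMk
    (((Real.hasDerivAt_cos s).smul_const u.2).add ((Real.hasDerivAt_sin s).smul_const (cr u.1 u.2)))
  refine this.congr_deriv (Prod.ext (by simp [W]) ?_)
  simp only [W, cr_rho h]; module

section ops
variable {F : Type*} [NormedAddCommGroup F] [NormedSpace ℝ F]

lemma dW_add (f : P → F) (u : P) (a b : E) : dW f u (a + b) = dW f u a + dW f u b := by
  simp [dW, W_add]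
lemma dW_smul (f : P → F) (u : P) (t : ℝ) (a : E) : dW f u (t • a) = t • dW f u a := by
  simp [dW, W_smul]
lemma dW_sub (f : P → F) (u : P) (a b : E) : dW f u (a - b) = dW f u a - dW f u b := by
  simp [dW, W_sub]
@[simp] lemma dW_zero (f : P → F) (u : P) : dW f u 0 = 0 := by simp [dW]

lemma diffAt_of_Ind {f : P → F} (hf : ContDiffOn ℝ ∞ f Ind) {u : P} (h : u ∈ Ind) :
    DifferentiableAt ℝ f u :=
  (hf.contDiffAt (isOpen_Ind.mem_nhds h)).differentiableAt (by simp)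

lemma diffAt_of_U {f : P → F} (hf : ContDiffOn ℝ ∞ f Ind) {u : P} (h : u ∈ U) :
    DifferentiableAt ℝ f u := diffAt_of_Ind hf (U_sub_Ind h)

/-- Chain rule along a curve with velocity `W (c t) ξ`. -/
lemma hasDerivAt_comp_W {f : P → F} {c : ℝ → P} {t : ℝ} {ξ : E}
    (hf : DifferentiableAt ℝ f (c t)) (hc : HasDerivAt c (W (c t) ξ) t) :
    HasDerivAt (fun t => f (c t)) (dW f (c t) ξ) t :=
  hf.hasFDerivAt.comp_hasDerivAt t hc

lemma hasDerivAt_V {f : P → F} {u : P} (h : u ∈ U) {s : ℝ}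
    (hf : DifferentiableAt ℝ f (rho s u)) :
    HasDerivAt (fun s => f (rho s u)) (V f (rho s u)) s :=
  hasDerivAt_comp_W (c := fun s => rho s u) hf (hasDerivAt_rho h s)

lemma hasDerivAt_V' {f : P → F} (hf : ContDiffOn ℝ ∞ f Ind) {u : P} (h : u ∈ U) (s : ℝ) :
    HasDerivAt (fun s => f (rho s u)) (V f (rho s u)) s :=
  hasDerivAt_V h (diffAt_of_U hf (rho_mem_U h s))

/-- `dW` at a point of `U` only depends on the values on `U` near that point. -/
lemma dW_congr_nhds {f g : P → F} {u : P} (h : u ∈ U) (hf : DifferentiableAt ℝ f u)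
    (hg : DifferentiableAt ℝ g u) (e : ∀ᶠ u' in 𝓝 u, u' ∈ U → f u' = g u') (ξ : E) :
    dW f u ξ = dW g u ξ := by
  obtain ⟨c, hc, h0, hU, hd⟩ := exists_curve h ξ
  have a := hasDerivAt_comp_W (f := f) (h0 ▸ hf) (hd 0)
  have b := hasDerivAt_comp_W (f := g) (h0 ▸ hg) (hd 0)
  have ht : Tendsto c (𝓝 0) (𝓝 u) := h0 ▸ hc.continuous.tendsto 0
  have e' : (fun t => g (c t)) =ᶠ[𝓝 0] fun t => f (c t) :=
    (ht.eventually e).mono fun t h => (h (hU t)).symm
  have := (a.congr_of_eventuallyEq e').unique b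
  rwa [h0] at this

lemma dW_congr {f g : P → F} {u : P} (h : u ∈ U) (hf : DifferentiableAt ℝ f u)
    (hg : DifferentiableAt ℝ g u) (e : ∀ u' ∈ U, f u' = g u') (ξ : E) :
    dW f u ξ = dW g u ξ :=
  dW_congr_nhds h hf hg (Eventually.of_forall e) ξ

lemma dW_const_on {f : P → F} {u : P} (h : u ∈ U) (hf : DifferentiableAt ℝ f u) {a : F}
    (e : ∀ u' ∈ U, f u' = a) (ξ : E) : dW f u ξ = 0 := by
  rw [dW_congr h hf (differentiableAt_const a) e]; simp [dW]

lemma contDiffOn_fderiv_apply {X : Type*} [NormedAddCommGroup X] [NormedSpace ℝ X] {s : Set X}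
    (hs : IsOpen s) {f : X → F} (hf : ContDiffOn ℝ ∞ f s) {A : X → X}
    (hA : ContDiffOn ℝ ∞ A s) : ContDiffOn ℝ ∞ (fun x => fderiv ℝ f x (A x)) s :=
  (hf.fderiv_of_isOpen hs (by simp)).clm_apply hA

lemma contDiffOn_dW {f : P → F} (hf : ContDiffOn ℝ ∞ f Ind) {ξ : P → E}
    (hξ : ContDiffOn ℝ ∞ ξ Ind) : ContDiffOn ℝ ∞ (fun u => dW f u (ξ u)) Ind :=
  contDiffOn_fderiv_apply isOpen_Ind hf
    (contDiff_W.comp_contDiffOn (contDiffOn_id.prodMk hξ))

lemma contDiffOn_V {f : P → F} (hf : ContDiffOn ℝ ∞ f Ind) : ContDiffOn ℝ ∞ (V f) Ind :=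
  contDiffOn_dW hf contDiffOn_fst

lemma fderiv_rt_W {u : P} (h : u ∈ U) (ξ : E) : fderiv ℝ rt u (W u ξ) = W u ξ := by
  have := dW_congr (f := rt) (g := id) h (diffAt_of_U contDiffOn_rt h) differentiableAt_id
    (fun _ h => rt_of_U h) ξ
  simpa [dW] using this

lemma contDiffOn_comp_rt {f : P → F} (hf : ∀ u ∈ U, ContDiffAt ℝ ∞ f u) :
    ContDiffOn ℝ ∞ (fun u => f (rt u)) Ind := fun u h =>
  ((hf _ (rt_mem_U h)).comp u (contDiffAt_rt h)).contDiffWithinAt

lemma fderiv_rho_W {u : P} (s : ℝ) (ξ : E) :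
    fderiv ℝ (rho s) u (W u ξ) = W (rho s u) ξ := by
  have d1 : DifferentiableAt ℝ (fun u : P => u.1) u := differentiableAt_fst
  have d2 : DifferentiableAt ℝ (fun u : P => u.2) u := differentiableAt_snd
  have e : fderiv ℝ (rho s) u (W u ξ) = (cr ξ u.1, Real.cos s • cr ξ u.2
      + Real.sin s • (cr (cr ξ u.1) u.2 + cr u.1 (cr ξ u.2))) := by
    unfold rho
    rw [DifferentiableAt.fderiv_prodMk d1 (by fun_prop)]
    simp only [ContinuousLinearMap.prod_apply]
    rw [fderiv_fun_add (by fun_prop) (by fun_prop), fderiv_fun_const_smul d2,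
      fderiv_fun_const_smul (DifferentiableAt.cr' d1 d2)]
    simp only [add_apply, smul_apply, fderiv_cr d1 d2, fderiv_fst, fderiv_snd]
    rfl
  rw [e, ← cr_jacobi]
  simp [W, rho, cr_add_right, cr_smul_right]

lemma dW_comp_rho {f : P → F} {u : P} {s : ℝ} (hf : DifferentiableAt ℝ f (rho s u)) (ξ : E) :
    dW (fun u => f (rho s u)) u ξ = dW f (rho s u) ξ := by
  have hr : DifferentiableAt ℝ (rho s) u := by unfold rho; fun_prop
  simp only [dW]
  rw [show (fun u => f (rho s u)) = f ∘ rho s from rfl, fderiv_comp u hf hr]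
  simp [fderiv_rho_W]

lemma dW_comp_rev {f : P → F} {u : P} (hf : DifferentiableAt ℝ f (rev u)) (ξ : E) :
    dW (fun u => f (rev u)) u ξ = dW f (rev u) ξ := by
  have := dW_comp_rho (f := f) (u := u) (s := Real.pi) (by rwa [rho_pi]) ξ
  simpa only [rho_pi] using this

/-- Oddness passes to `dW`. -/
lemma dW_odd {f : P → F} (hf : ContDiffOn ℝ ∞ f Ind) (ho : ∀ u ∈ U, f (rev u) = -f u)
    {u : P} (h : u ∈ U) (ξ : E) : dW f (rev u) ξ = -dW f u ξ := by
  have d1 := diffAt_of_U hf (rev_mem_U h)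
  have d2 := diffAt_of_U hf h
  rw [← dW_comp_rev d1, dW_congr (f := fun u => f (rev u)) (g := fun u => -f u) h
    (d1.comp u (contDiff_rev.differentiable (n := 1) (by simp) u)) d2.neg ho]
  simp [dW, fderiv_fun_neg]

lemma dW_even {f : P → F} (hf : ContDiffOn ℝ ∞ f Ind) (ho : ∀ u ∈ U, f (rev u) = f u)
    {u : P} (h : u ∈ U) (ξ : E) : dW f (rev u) ξ = dW f u ξ := by
  have d1 := diffAt_of_U hf (rev_mem_U h)
  have d2 := diffAt_of_U hf h
  rw [← dW_comp_rev d1, dW_congr (f := fun u => f (rev u)) (g := f) h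
    (d1.comp u (contDiff_rev.differentiable (n := 1) (by simp) u)) d2 ho]

lemma V_odd {f : P → F} (hf : ContDiffOn ℝ ∞ f Ind) (ho : ∀ u ∈ U, f (rev u) = -f u)
    {u : P} (h : u ∈ U) : V f (rev u) = -V f u := dW_odd hf ho h _

lemma V_even {f : P → F} (hf : ContDiffOn ℝ ∞ f Ind) (ho : ∀ u ∈ U, f (rev u) = f u)
    {u : P} (h : u ∈ U) : V f (rev u) = V f u := dW_even hf ho h _

end ops

end Pool.Agent.MP_2291e2_gt.Zl
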