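import Mathlib.MeasureTheory.Integral.IntervalIntegral.Basic
import Mathlib.Analysis.Complex.Circle
import Mathlib.Analysis.SpecialFunctions.Arsinh
import Pool.Agent.MP_2291e2_gt.zl.Base

/-! Definitions and module statements of the project. -/

open scoped ContDiff RealInnerProductSpace Topology
open Set Filter Real

namespace Pool.Agent.MP_2291e2_gt.Zl

/-! ### General calculus -/

/-- Composition operators on spaces of continuous maps are smooth. -/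
def NemStmt : Prop :=
  ∀ (K : Type) [TopologicalSpace K] [CompactSpace K] (A B : Type) [NormedAddCommGroup A]
    [NormedSpace ℝ A] [NormedAddCommGroup B] [NormedSpace ℝ B] (Ω : Set A) (χ : A → B),
    IsOpen Ω → ContDiffOn ℝ ∞ χ Ω →
    IsOpen {g : C(K, A) | ∀ k, g k ∈ Ω} ∧
    ∃ N : C(K, A) → C(K, B), ContDiffOn ℝ ∞ N {g | ∀ k, g k ∈ Ω} ∧
      ∀ g : C(K, A), (∀ k, g k ∈ Ω) → ∀ k, N g k = χ (g k)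

/-- Integrals with parameters, local form. -/
def PIntStmt : Prop :=
  ∀ (X F : Type) [NormedAddCommGroup X] [NormedSpace ℝ X] [NormedAddCommGroup F] [NormedSpace ℝ F]
    [CompleteSpace F] (Ω : Set (X × ℝ)) (f : X × ℝ → F), IsOpen Ω → ContDiffOn ℝ ∞ f Ω →
    (∀ (a b : ℝ) (x₀ : X), (∀ s ∈ uIcc a b, (x₀, s) ∈ Ω) →
      ContDiffAt ℝ ∞ (fun x => ∫ s in a..b, f (x, s)) x₀ ∧
      ∀ δ : X, fderiv ℝ (fun x => ∫ s in a..b, f (x, s)) x₀ δ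
        = ∫ s in a..b, fderiv ℝ f (x₀, s) (δ, 0)) ∧
    (∀ (a t₀ : ℝ) (x₀ : X), (∀ s ∈ uIcc a t₀, (x₀, s) ∈ Ω) →
      ContDiffAt ℝ ∞ (fun q : X × ℝ => ∫ s in a..q.2, f (q.1, s)) (x₀, t₀))

/-- Fixed points of uniform contractions depend smoothly on parameters. -/
def FixStmt : Prop :=
  ∀ (X Y : Type) [NormedAddCommGroup X] [NormedSpace ℝ X] [CompleteSpace X] [NormedAddCommGroup Y]
    [NormedSpace ℝ Y] [CompleteSpace Y] (Ω : Set X) (T : X × Y → Y), IsOpen Ω →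
    ContDiffOn ℝ ∞ T (Ω ×ˢ univ) →
    (∀ x ∈ Ω, ∀ y y', ‖T (x, y) - T (x, y')‖ ≤ 1 / 2 * ‖y - y'‖) →
    ∃ g : X → Y, ContDiffOn ℝ ∞ g Ω ∧ ∀ x ∈ Ω, T (x, g x) = g x ∧ ∀ y, T (x, y) = y → y = g x

/-- Smooth global flow of a smooth globally Lipschitz vector field. -/
def FlowStmt : Prop :=
  ∀ (X : Type) [NormedAddCommGroup X] [NormedSpace ℝ X] [CompleteSpace X] (f : X → X) (K : NNReal),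
    ContDiff ℝ ∞ f → LipschitzWith K f →
    ∃ φ : ℝ → X → X, ContDiff ℝ ∞ (fun q : ℝ × X => φ q.1 q.2) ∧ (∀ x, φ 0 x = x) ∧
      (∀ s t x, φ (s + t) x = φ s (φ t x)) ∧
      (∀ x t, HasDerivAt (fun t => φ t x) (f (φ t x)) t) ∧
      ∀ (c : ℝ → X) (a b : ℝ), a ≤ b → ContinuousOn c (Icc a b) →
        (∀ t ∈ Ioo a b, HasDerivAt c (f (c t)) t) → c b = φ (b - a) (c a)

/-- Smooth argument on a convex open set. -/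
def LiftStmt : Prop :=
  ∀ (X : Type) [NormedAddCommGroup X] [NormedSpace ℝ X] (Ω : Set X) (ζ : X → ℂ) (x₀ : X) (θ₀ : ℝ),
    IsOpen Ω → Convex ℝ Ω → ContDiffOn ℝ ∞ ζ Ω → (∀ x ∈ Ω, ζ x ≠ 0) → x₀ ∈ Ω →
    ζ x₀ = ‖ζ x₀‖ * Complex.exp (θ₀ * Complex.I) →
    ∃ θ : X → ℝ, ContDiffOn ℝ ∞ θ Ω ∧ θ x₀ = θ₀ ∧
      ∀ x ∈ Ω, ζ x = ‖ζ x‖ * Complex.exp (θ x * Complex.I)

/-- Local inverses: maps of `U` to `U` with a real parameter, charts of `U`, charts of the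
sphere. -/
def LocInvStmt : Prop :=
  (∀ (f : ℝ × P → P) (s₀ : ℝ) (u₀ : P), u₀ ∈ U → ContDiffAt ℝ ∞ f (s₀, u₀) →
    (∀ᶠ q in 𝓝 (s₀, u₀), q.2 ∈ U → f q ∈ U) →
    (∀ ξ, fderiv ℝ f (s₀, u₀) (0, W u₀ ξ) = 0 → ξ = 0) →
    ∃ g : ℝ × P → P, ContDiffAt ℝ ∞ g (s₀, f (s₀, u₀)) ∧ g (s₀, f (s₀, u₀)) = u₀ ∧
      (∀ᶠ q in 𝓝 (s₀, u₀), q.2 ∈ U → g (q.1, f q) = q.2) ∧
      ∀ᶠ q in 𝓝 (s₀, f (s₀, u₀)), q.2 ∈ U → g q ∈ U ∧ f (q.1, g q) = q.2) ∧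
  (∀ (f : ℝ × ℝ × ℝ → P) (a₀ : ℝ × ℝ × ℝ), ContDiffAt ℝ ∞ f a₀ → (∀ᶠ a in 𝓝 a₀, f a ∈ U) →
    (∀ δ, fderiv ℝ f a₀ δ = 0 → δ = 0) →
    ∃ g : P → ℝ × ℝ × ℝ, ContDiffAt ℝ ∞ g (f a₀) ∧ (∀ᶠ a in 𝓝 a₀, g (f a) = a) ∧
      ∀ᶠ w in 𝓝 (f a₀), w ∈ U → f (g w) = w) ∧
  (∀ (f : ℝ × ℝ → E) (a₀ : ℝ × ℝ), ContDiffAt ℝ ∞ f a₀ → (∀ᶠ a in 𝓝 a₀, ‖f a‖ = 1) →
    (∀ δ, fderiv ℝ f a₀ δ = 0 → δ = 0) →
    ∃ g : E → ℝ × ℝ, ContDiffAt ℝ ∞ g (f a₀) ∧ (∀ᶠ a in 𝓝 a₀, g (f a) = a) ∧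
      (∀ᶠ y in 𝓝 (f a₀), ∀ t : ℝ, 0 < t → g (t • y) = g y) ∧
      ∀ᶠ y in 𝓝 (f a₀), ‖y‖ = 1 → f (g y) = y)

/-- The next sheet of a closed set that is locally a transversal zero set. -/
def BranchStmt : Prop :=
  ∀ (j : (ℝ × ℝ) × ℝ → ℝ) (Z : Set ((ℝ × ℝ) × ℝ)) (S : ℝ × ℝ → ℝ), ContDiff ℝ ∞ j → IsClosed Z →
    (∀ q ∈ Z, j q = 0 ∧ fderiv ℝ j q (0, 1) ≠ 0 ∧ ∀ᶠ q' in 𝓝 q, j q' = 0 → q' ∈ Z) →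
    Continuous S → (∀ z, (z, S z) ∈ Z) → (∀ z, ∃ t, S z < t ∧ (z, t) ∈ Z) →
    ∃ S' : ℝ × ℝ → ℝ, ContDiff ℝ ∞ S' ∧
      ∀ z, S z < S' z ∧ (z, S' z) ∈ Z ∧ ∀ t ∈ Ioo (S z) (S' z), (z, t) ∉ Z

section
variable {F : Type*} [NormedAddCommGroup F] [NormedSpace ℝ F]

/-- Jointly smooth near the points of `U` for positive time. -/
def SmU (f : ℝ → P → F) : Prop :=
  ∀ τ > 0, ∀ u ∈ U, ContDiffAt ℝ ∞ (fun q : ℝ × P => f q.1 q.2) (τ, u)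

/-- Jointly continuous on `U` up to time zero. -/
def C0U (f : ℝ → P → F) : Prop :=
  ContinuousOn (fun q : ℝ × P => f q.1 q.2) (Ici 0 ×ˢ U)

end

/-! ### Good families of curves and Finsler data -/

/-- Normal variation (times speed) of the curve `s ↦ G (rho s u)` in the direction `W u ξ`. -/
noncomputable def mm (G : P → E) (u : P) (ξ : E) : ℝ := dt (G u) (dW G u ξ) (V G u)

noncomputable def wedge (n : P → E → ℝ) (u : P) (s : ℝ) : ℝ :=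
  n u u.2 * n (rho s u) (cr u.1 u.2) - n u (cr u.1 u.2) * n (rho s u) u.2

/-- The plane vector `(n · v, n · (y × v))` turns strictly, once, along each fibre. -/
structure Turn (n : P → E → ℝ) : Prop where
  pos : ∀ u ∈ U, ∀ s ∈ Ioo 0 π, 0 < wedge n u s
  pos0 : ∀ u ∈ U, 0 < deriv (wedge n u) 0

structure Odd1 (G : P → E) : Prop where
  smooth : ContDiffOn ℝ ∞ G Ind
  unit : ∀ u ∈ U, ‖G u‖ = 1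
  odd : ∀ u ∈ U, G (rev u) = -G u

structure Good (G : P → E) : Prop extends Odd1 G where
  emb : ∀ u ∈ U, ∀ s ∈ Ioc 0 π, G (rho s u) ≠ G u
  turn : Turn (mm G)

/-- The structure equation `d (p · dy) = c G^* area`. -/
def Str (G p : P → E) (c : P → ℝ) : Prop :=
  ∀ u ∈ U, ∀ a b : E, ⟪dW p u a, cr b u.1⟫ - ⟪dW p u b, cr a u.1⟫
    = c u * dt (G u) (dW G u a) (dW G u b)

structure Data (G p : P → E) (c : P → ℝ) : Prop where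
  good : Good G
  psm : ContDiffOn ℝ ∞ p Ind
  csm : ContDiffOn ℝ ∞ c Ind
  podd : ∀ u ∈ U, p (rev u) = -p u
  cpos : ∀ u ∈ U, 0 < c u
  str : Str G p c

noncomputable def npp (p : P → E) (u : P) (ξ : E) : ℝ := ⟪V p u, cr ξ u.1⟫

/-- Tangent lift. -/
noncomputable def Th (G : P → E) (u : P) : P := (G u, ‖V G u‖⁻¹ • V G u)

def Single (G : P → E) : Prop := ∃ u₀ ∈ U, ∀ u ∈ U, Th G u = Th G u₀ → u = u₀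

structure ThInv (G : P → E) (Ti : P → P) : Prop where
  smooth : ContDiffOn ℝ ∞ Ti Ind
  maps : MapsTo Ti U U
  maps' : MapsTo (Th G) U U
  left : ∀ u ∈ U, Ti (Th G u) = u
  right : ∀ u ∈ U, Th G (Ti u) = u

noncomputable def Nv (G : P → E) (u : P) : E :=
  !₂[mm G u (EuclideanSpace.single 0 1), mm G u (EuclideanSpace.single 1 1),
    mm G u (EuclideanSpace.single 2 1)]

noncomputable def pG (G : P → E) (u : P) : E :=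
  (1 / 2 : ℝ) • cr (∫ s in (0 : ℝ)..π, Nv G (rho s u)) u.1

/-- Output of the support function construction for one value of the parameter. -/
structure SupOut (p : P → E) (L : P → ℝ) (us : P → P) : Prop where
  fins : IsFinsler L
  usm : ContDiffOn ℝ ∞ us Ind
  mem : ∀ x w, Tan x w → us (x, w) ∈ U
  base : ∀ x w, Tan x w → (us (x, w)).1 = x
  crit : ∀ x w, Tan x w → ⟪V p (us (x, w)), w⟫ = 0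
  pos : ∀ x w, Tan x w → 0 < ⟪p (us (x, w)), w⟫
  dw : ∀ x w, Tan x w → ∀ z,
    fderiv ℝ L (x, w) (0, z) = ⟪p (us (x, w)), w⟫ * ⟪p (us (x, w)), z⟫
  dx : ∀ x w, Tan x w → ∀ z, ⟪x, z⟫ = 0 →
    fderiv ℝ L (x, w) (z, 0) = ⟪p (us (x, w)), w⟫ * ⟪dW p (us (x, w)) (cr x z), w⟫
  val : ∀ u ∈ U, ∀ w, Tan u.1 w → ⟪V p u, w⟫ = 0 → L (u.1, w) = ⟪p u, w⟫ ^ 2 / 2

def SupStmt : Prop :=
  ∀ p : ℝ → P → E, Sm p → (∀ s, ∀ u ∈ U, p s (rev u) = -p s u) → (∀ s, Turn (npp (p s))) →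
    ∃ (L : ℝ → P → ℝ) (us : ℝ → P → P), Sm L ∧ ∀ s, SupOut (p s) (L s) (us s)

def ThStmt : Prop :=
  ∀ G : ℝ → P → E, Sm G → (∀ s, ∀ u ∈ U, ‖G s u‖ = 1) →
    (∀ s, ∀ u ∈ U, deriv (wedge (mm (G s)) u) 0 ≠ 0) → Single (G 0) →
    ∀ s, ∃ Ti, ThInv (G s) Ti

def ZollStmt : Prop :=
  ∀ (G p : P → E) (c L : P → ℝ) (us Ti : P → P), Data G p c → SupOut p L us → ThInv G Ti →
    ∃ l : ℝ, 0 < l ∧ ∀ γ, IsGeodesic L γ → Function.Periodic γ l ∧ InjOn γ (Ico 0 l)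

def SStmt : Prop :=
  ∀ G : ℝ → P → E, Sm G → (∀ s, Odd1 (G s)) →
    Sm (fun s => pG (G s)) ∧
      ∀ s, (∀ u ∈ U, pG (G s) (rev u) = -pG (G s) u) ∧ Str (G s) (pG (G s)) (fun _ => 1)

/-! ### The space of geodesics -/

noncomputable def xi (a b : P → ℝ) (u : P) : E := a u • cr u.1 u.2 + b u • u.1

structure PFlow (φ : ℝ → P → P) (a b : P → ℝ) : Prop where
  smooth : ContDiff ℝ ∞ (fun q : ℝ × P => φ q.1 q.2)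
  zero : ∀ u, φ 0 u = u
  add : ∀ s t u, φ (s + t) u = φ s (φ t u)
  maps : ∀ t, ∀ u ∈ U, φ t u ∈ U
  asm : ContDiffOn ℝ ∞ a Ind
  bsm : ContDiffOn ℝ ∞ b Ind
  apos : ∀ u ∈ U, 0 < a u
  ode : ∀ u ∈ U, ∀ t, HasDerivAt (fun t => φ t u) (W (φ t u) (xi a b (φ t u))) t
  revs : ∀ u ∈ U, ∀ t, φ t (rev u) = rev (φ (-t) u)

structure ZFlow (φ : ℝ → P → P) (a b : P → ℝ) (T : ℝ) : Prop extends PFlow φ a b where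
  Tpos : 0 < T
  per : ∀ u ∈ U, φ T u = u
  inj : ∀ u ∈ U, InjOn (fun t => (φ t u).1) (Ico 0 T)

structure GeoOut (L : P → ℝ) (φ : ℝ → P → P) (a b : P → ℝ) (p : P → E) : Prop where
  flow : PFlow φ a b
  psm : ContDiffOn ℝ ∞ p Ind
  podd : ∀ u ∈ U, p (rev u) = -p u
  geo : ∀ u ∈ U, IsGeodesic L (fun t => (φ t u).1)
  unit : ∀ u ∈ U, L (u.1, a u • u.2) = 1 / 2
  one : ∀ u ∈ U, ⟪p u, a u • u.2⟫ = 1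
  crit : ∀ u ∈ U, ⟪V p u, u.2⟫ = 0
  conv : ∀ u ∈ U, 0 < ⟪V p u, cr u.1 u.2⟫
  ker : ∀ u ∈ U, ∀ ζ, ⟪dW p u (xi a b u), cr ζ u.1⟫ = ⟪dW p u ζ, cr (xi a b u) u.1⟫

def GeoStmt : Prop :=
  ∀ L : P → ℝ, IsFinsler L → ∃ φ a b p, GeoOut L φ a b p

/-- The vector over the point `x` of the orbit of `u₀` making the angle `β` with the orbit. -/
noncomputable def Ax (φ : ℝ → P → P) (u₀ : P) (z : ℝ × ℝ) : P := rho z.2 (φ z.1 u₀)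

/-- The closed curve traced by the orbit of `u₀`. -/
def c0 (φ : ℝ → P → P) (u₀ : P) : Set E := range fun x => (φ x u₀).1

structure Fermi (φ : ℝ → P → P) (T : ℝ) (u₀ : P) (N : Set E) (f : E → ℝ) : Prop where
  isOpen : IsOpen N
  sub : c0 φ u₀ ⊆ N
  smooth : ContDiff ℝ ∞ f
  zero : ∀ y ∈ N, ‖y‖ = 1 → (f y = 0 ↔ y ∈ c0 φ u₀)
  grad : ∀ x, 0 < fderiv ℝ f (φ x u₀).1 (cr (φ x u₀).1 (φ x u₀).2)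
  ext : ∀ j : ℝ → ℝ, ContDiff ℝ ∞ j → Function.Periodic j T →
    ∃ J : E → ℝ, ContDiff ℝ ∞ J ∧ ∀ x, J (φ x u₀).1 = j x
  cover : ∀ y ∈ N, ‖y‖ = 1 → ∃ x t, y = (φ t (Ax φ u₀ (x, π / 2))).1

def FermiStmt : Prop :=
  ∀ φ a b T u₀, ZFlow φ a b T → u₀ ∈ U → ∃ N f, Fermi φ T u₀ N f

/-- First crossing time. -/
structure Cross1 (φ : ℝ → P → P) (a b : P → ℝ) (T : ℝ) (u₀ : P) (T1 : ℝ × ℝ → ℝ) : Prop where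
  smooth : ContDiff ℝ ∞ T1
  mem : ∀ z, T1 z ∈ Ioo 0 T
  cross : ∀ z, (φ (T1 z) (Ax φ u₀ z)).1 ∈ c0 φ u₀
  only : ∀ z : ℝ × ℝ, sin z.2 ≠ 0 → ∀ t ∈ Ioo 0 T, (φ t (Ax φ u₀ z)).1 ∈ c0 φ u₀ → t = T1 z
  down : ∀ z : ℝ × ℝ, z.2 ∈ Ioo 0 π → ∀ x' β', φ (T1 z) (Ax φ u₀ z) = Ax φ u₀ (x', β') →
    sin β' < 0
  back : ∀ t ∈ Ioo 0 T, ∀ μ ν : ℝ,
    fderiv ℝ (φ t) u₀ (W u₀ u₀.1) = W (φ t u₀) (μ • (φ t u₀).1 + ν • xi a b (φ t u₀)) → μ ≤ 0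

def Cross1Stmt : Prop :=
  ∀ φ a b T u₀ N f, ZFlow φ a b T → u₀ ∈ U → Fermi φ T u₀ N f → ∃ T1, Cross1 φ a b T u₀ T1

/-- The vertical direction never comes back with the same orientation before the period. -/
def Jac (φ : ℝ → P → P) (a b : P → ℝ) (T : ℝ) : Prop :=
  ∀ u ∈ U, ∀ t μ ν : ℝ, 0 < μ →
    fderiv ℝ (φ t) u (W u u.1) = W (φ t u) (μ • (φ t u).1 + ν • xi a b (φ t u)) →
    ∃ k : ℤ, t = k * T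

def JacStmt : Prop := ∀ φ a b T, ZFlow φ a b T → Jac φ a b T

/-- The abstract properties of the involution `(x, β) ↦ (xp, bp)` of the strip. -/
structure Invol (T : ℝ) (xp bp : ℝ × ℝ → ℝ) : Prop where
  Tpos : 0 < T
  xsm : ContDiff ℝ ∞ xp
  bsm : ContDiff ℝ ∞ bp
  xper : ∀ x β, xp (x + T, β) = xp (x, β) + T
  bper : ∀ x β, bp (x + T, β) = bp (x, β)
  xper2 : ∀ x β, xp (x, β + 2 * π) = xp (x, β)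
  xmem : ∀ z, xp z ∈ Ioo z.1 (z.1 + T)
  b0 : ∀ x, bp (x, 0) = π
  bpi : ∀ x, bp (x, π) = 0
  bmem : ∀ z : ℝ × ℝ, z.2 ∈ Ioo 0 π → bp z ∈ Ioo 0 π
  invx : ∀ z, xp (xp z, bp z) = z.1 + T
  invb : ∀ z, bp (xp z, bp z) = z.2
  key : ∀ z, fderiv ℝ xp z (0, 1) = 0 → fderiv ℝ bp z (0, 1) ≤ 0

structure Cross2 (φ : ℝ → P → P) (T : ℝ) (u₀ : P) (T1 xp bp : ℝ × ℝ → ℝ) : Prop where
  inv : Invol T xp bp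
  rel : ∀ z, rev (φ (T1 z) (Ax φ u₀ z)) = Ax φ u₀ (xp z, bp z)

def Cross2Stmt : Prop :=
  ∀ φ a b T u₀ N f T1, ZFlow φ a b T → u₀ ∈ U → Fermi φ T u₀ N f → Cross1 φ a b T u₀ T1 →
    Jac φ a b T → ∃ xp bp, Cross2 φ T u₀ T1 xp bp

structure Cross3 (φ : ℝ → P → P) (T : ℝ) (u₀ : P) : Prop where
  uniq : ∀ (z z' : ℝ × ℝ) (t t' : ℝ), z.2 ∈ Ioo 0 π → z'.2 ∈ Ioo 0 π →
    φ t (Ax φ u₀ z) = φ t' (Ax φ u₀ z') → ∃ n : ℤ, z' = (z.1 + n * T, z.2)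
  surj : ∀ u ∈ U, ∃ (z : ℝ × ℝ) (t : ℝ), z.2 ∈ Icc 0 π ∧ u = φ t (Ax φ u₀ z)
  imm : ∀ (z : ℝ × ℝ) (t : ℝ), sin z.2 ≠ 0 → ∀ δ : ℝ × ℝ × ℝ,
    fderiv ℝ (fun a : ℝ × ℝ × ℝ => φ a.2.2 (Ax φ u₀ (a.1, a.2.1))) (z.1, z.2, t) δ = 0 → δ = 0
  notor : ∀ (z : ℝ × ℝ) (t x : ℝ), z.2 ∈ Ioc 0 π → φ t (Ax φ u₀ z) ≠ φ x u₀

def Cross3Stmt : Prop :=
  ∀ φ a b T u₀ N f T1 xp bp, ZFlow φ a b T → u₀ ∈ U → Fermi φ T u₀ N f → Cross1 φ a b T u₀ T1 →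
    Cross2 φ T u₀ T1 xp bp → Cross3 φ T u₀

noncomputable def theta (T : ℝ) (xp : ℝ × ℝ → ℝ) (z : ℝ × ℝ) : ℝ := π * (z.1 + xp z) / T

noncomputable def jdet (f g : ℝ × ℝ → ℝ) (z : ℝ × ℝ) : ℝ :=
  fderiv ℝ f z (1, 0) * fderiv ℝ g z (0, 1) - fderiv ℝ f z (0, 1) * fderiv ℝ g z (1, 0)

/-- The level sets of a submersion of the strip are arcs from the bottom to the top. -/
structure Folia (T : ℝ) (θ z0 : ℝ × ℝ → ℝ) : Prop where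
  smooth : ∃ Ω, IsOpen Ω ∧ univ ×ˢ Icc 0 π ⊆ Ω ∧ ContDiffOn ℝ ∞ z0 Ω
  per : ∀ x, ∀ β ∈ Icc 0 π, z0 (x + T, β) = z0 (x, β)
  bot : ∀ x, z0 (x, 0) = 0
  top : ∀ x, z0 (x, π) = 1
  mem : ∀ z : ℝ × ℝ, z.2 ∈ Ioo 0 π → z0 z ∈ Ioo 0 1
  det : ∀ z : ℝ × ℝ, z.2 ∈ Icc 0 π → 0 < jdet θ z0 z
  inj : ∀ g : ℝ × ℝ → ℝ,
    (∀ z : ℝ × ℝ, z.2 ∈ Icc 0 π → DifferentiableAt ℝ g z ∧ 0 < jdet θ g z) →
    ∀ z z' : ℝ × ℝ, z.2 ∈ Icc 0 π → z'.2 ∈ Icc 0 π → θ z = θ z' → g z = g z' → z = z'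

def FoliaStmt : Prop :=
  ∀ (T : ℝ) (θ : ℝ × ℝ → ℝ), 0 < T → ContDiff ℝ ∞ θ → (∀ x β, θ (x + T, β) = θ (x, β) + 2 * π) →
    (∀ x β, θ (x, β + 2 * π) = θ (x, β)) → (∀ z, fderiv ℝ θ z ≠ 0) →
    (∀ x, 0 < fderiv ℝ θ (x, 0) (1, 0)) → (∀ x, 0 < fderiv ℝ θ (x, π) (1, 0)) →
    ∃ z0, Folia T θ z0

structure Height (T : ℝ) (xp bp zf : ℝ × ℝ → ℝ) : Prop where
  smooth : ∃ Ω, IsOpen Ω ∧ univ ×ˢ Icc 0 π ⊆ Ω ∧ ContDiffOn ℝ ∞ zf Ω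
  per : ∀ x, ∀ β ∈ Icc 0 π, zf (x + T, β) = zf (x, β)
  odd : ∀ z : ℝ × ℝ, z.2 ∈ Icc 0 π → zf (xp z, bp z) = -zf z
  bot : ∀ x, zf (x, 0) = -1
  mem : ∀ z : ℝ × ℝ, z.2 ∈ Ioo 0 π → zf z ∈ Ioo (-1) 1
  det : ∀ z : ℝ × ℝ, z.2 ∈ Icc 0 π → 0 < jdet (theta T xp) zf z
  thx : ∀ x, 0 < fderiv ℝ (theta T xp) (x, 0) (1, 0)
  inj : ∀ z z' : ℝ × ℝ, z.2 ∈ Icc 0 π → z'.2 ∈ Icc 0 π → theta T xp z = theta T xp z' →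
    zf z = zf z' → z = z'

def HeightStmt : Prop := ∀ T xp bp, Invol T xp bp → ∃ zf, Height T xp bp zf

structure Pole (φ : ℝ → P → P) (a b : P → ℝ) (T : ℝ) (u₀ : P) (κ : P → ℂ) : Prop where
  smooth : ContDiff ℝ ∞ κ
  inv : ∀ u ∈ U, ∀ t, κ (φ t u) = κ u
  zero : κ u₀ = 0
  rank : ∀ x ξ, dW κ (φ x u₀) ξ = 0 → ∃ t : ℝ, ξ = t • xi a b (φ x u₀)
  turn : ∀ x, 0 < ((starRingEnd ℂ) (V κ (φ x u₀)) * deriv (fun x => V κ (φ x u₀)) x).im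
  once : ∀ (x x' μ : ℝ), 0 < μ → V κ (φ x u₀) = μ * V κ (φ x' u₀) → ∃ n : ℤ, x = x' + n * T

def PoleStmt : Prop :=
  ∀ φ a b T u₀ N f, ZFlow φ a b T → u₀ ∈ U → Fermi φ T u₀ N f → Jac φ a b T →
    ∃ κ, Pole φ a b T u₀ κ

/-- Inverse stereographic projection, `0` goes to the south pole. -/
noncomputable def st (ζ : ℂ) : E :=
  (Complex.normSq ζ + 1)⁻¹ • !₂[2 * ζ.re, 2 * ζ.im, Complex.normSq ζ - 1]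

/-- Logarithmic radius of the background chart. -/
noncomputable def lr (zf : ℝ × ℝ → ℝ) (z : ℝ × ℝ) : ℝ := log ((1 + zf z) / (1 - zf z)) / 2

/-- Interpolation between the background chart `(θ, lr zf)` and the polar chart given by `K`. -/
structure Interp (T δ₀ : ℝ) (θ zf : ℝ × ℝ → ℝ) (K : ℝ × ℝ → ℂ) (dθ dρ : ℝ × ℝ → ℝ) : Prop where
  smooth : ∀ z : ℝ × ℝ, z.2 ∈ Ioo 0 π → ContDiffAt ℝ ∞ dθ z ∧ ContDiffAt ℝ ∞ dρ z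
  per : ∀ x, ∀ β ∈ Ioo 0 π, dθ (x + T, β) = dθ (x, β) ∧ dρ (x + T, β) = dρ (x, β)
  supp : ∃ δ₁ ∈ Ioo 0 δ₀, (∀ z : ℝ × ℝ, δ₁ ≤ z.2 → dθ z = 0 ∧ dρ z = 0) ∧
    ∀ z : ℝ × ℝ, z.2 ∈ Ioo 0 δ₁ → zf z < 0 ∧ lr zf z + dρ z < 0
  det : ∀ z : ℝ × ℝ, z.2 ∈ Ioo 0 π →
    jdet (fun z => θ z + dθ z) (fun z => lr zf z + dρ z) z ≠ 0
  pole : ∃ δ > 0, ∀ z : ℝ × ℝ, z.2 ∈ Ioo 0 δ →
    K z = Complex.exp ((lr zf z + dρ z : ℝ) + (θ z + dθ z : ℝ) * Complex.I)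

def InterpStmt : Prop :=
  ∀ (T δ₀ : ℝ) (θ zf : ℝ × ℝ → ℝ) (K : ℝ × ℝ → ℂ), 0 < T → 0 < δ₀ → ContDiff ℝ ∞ θ →
    (∀ x β, θ (x + T, β) = θ (x, β) + 2 * π) → (∀ x, 0 < fderiv ℝ θ (x, 0) (1, 0)) →
    (∃ Ω, IsOpen Ω ∧ univ ×ˢ Icc 0 π ⊆ Ω ∧ ContDiffOn ℝ ∞ zf Ω) →
    (∀ x, ∀ β ∈ Icc 0 π, zf (x + T, β) = zf (x, β)) → (∀ x, zf (x, 0) = -1) →
    (∀ z : ℝ × ℝ, z.2 ∈ Ioo 0 π → zf z ∈ Ioo (-1) 1) →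
    (∀ z : ℝ × ℝ, z.2 ∈ Icc 0 π → 0 < jdet θ zf z) →
    ContDiff ℝ ∞ K → (∀ x β, K (x + T, β) = K (x, β)) → (∀ x, K (x, 0) = 0) →
    (∀ x, 0 < ((starRingEnd ℂ) (fderiv ℝ K (x, 0) (0, 1)) *
      deriv (fun x => fderiv ℝ K (x, 0) (0, 1)) x).im) →
    (∀ x x' μ : ℝ, 0 < μ → fderiv ℝ K (x, 0) (0, 1) = μ * fderiv ℝ K (x', 0) (0, 1) →
      ∃ n : ℤ, x = x' + n * T) →
    ∃ dθ dρ, Interp T δ₀ θ zf K dθ dρ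

structure GlueOut (T : ℝ) (xp bp : ℝ × ℝ → ℝ) (K : ℝ × ℝ → ℂ) (Ψ : ℝ × ℝ → E) : Prop where
  smooth : ∀ z : ℝ × ℝ, z.2 ∈ Ioo 0 π → ContDiffAt ℝ ∞ Ψ z
  unit : ∀ z : ℝ × ℝ, z.2 ∈ Ioo 0 π → ‖Ψ z‖ = 1
  per : ∀ x, ∀ β ∈ Ioo 0 π, Ψ (x + T, β) = Ψ (x, β)
  odd : ∀ z : ℝ × ℝ, z.2 ∈ Ioo 0 π → Ψ (xp z, bp z) = -Ψ z
  imm : ∀ z : ℝ × ℝ, z.2 ∈ Ioo 0 π → ∀ δ, fderiv ℝ Ψ z δ = 0 → δ = 0
  pole : ∃ δ > 0, ∀ z : ℝ × ℝ, z.2 ∈ Ioo 0 δ → Ψ z = st (K z)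
  single : ∃ z₀ : ℝ × ℝ, z₀.2 ∈ Ioo 0 π ∧ Ψ z₀ 2 = 0 ∧
    ∀ z : ℝ × ℝ, z.2 ∈ Ioo 0 π → Ψ z = Ψ z₀ → ∃ n : ℤ, z = (z₀.1 + n * T, z₀.2)

def GlueStmt : Prop :=
  ∀ (T : ℝ) (xp bp zf : ℝ × ℝ → ℝ) (K : ℝ × ℝ → ℂ), Invol T xp bp → Height T xp bp zf →
    ContDiff ℝ ∞ K → (∀ x β, K (x + T, β) = K (x, β)) → (∀ x, K (x, 0) = 0) →
    (∀ x, 0 < ((starRingEnd ℂ) (fderiv ℝ K (x, 0) (0, 1)) *
      deriv (fun x => fderiv ℝ K (x, 0) (0, 1)) x).im) →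
    (∀ x x' μ : ℝ, 0 < μ → fderiv ℝ K (x, 0) (0, 1) = μ * fderiv ℝ K (x', 0) (0, 1) →
      ∃ n : ℤ, x = x' + n * T) →
    ∃ Ψ, GlueOut T xp bp K Ψ

structure PhiOut (φ : ℝ → P → P) (a b : P → ℝ) (Φ : P → E) : Prop where
  odd1 : Odd1 Φ
  inv : ∀ u ∈ U, ∀ t, Φ (φ t u) = Φ u
  rank : ∀ u ∈ U, ∀ ξ, dW Φ u ξ = 0 → ∃ t : ℝ, ξ = t • xi a b u
  single : ∃ u₁ ∈ U, ∀ u ∈ U, Φ u = Φ u₁ → ∃ t, u = φ t u₁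

def PhiStmt : Prop :=
  ∀ φ a b T u₀ T1 xp bp κ Ψ, ZFlow φ a b T → u₀ ∈ U → Cross2 φ T u₀ T1 xp bp → Cross3 φ T u₀ →
    Pole φ a b T u₀ κ → GlueOut T xp bp (fun z => κ (Ax φ u₀ z)) Ψ → ∃ Φ, PhiOut φ a b Φ

def InitStmt : Prop :=
  ∀ L φ a b p T Φ, GeoOut L φ a b p → ZFlow φ a b T → Jac φ a b T → PhiOut φ a b Φ →
    Single Φ ∧ ∃ (ε : ℝ) (c : P → ℝ), (ε = 1 ∨ ε = -1) ∧ Data Φ (fun u => ε • p u) c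

/-! ### Deformations -/

def Join (G G' : P → E) : Prop :=
  ∃ H : ℝ → P → E, Sm H ∧ (∀ s, Good (H s)) ∧ (∀ u ∈ U, H 0 u = G u) ∧ ∀ u ∈ U, H 1 u = G' u

def CSpeed (G : P → E) : Prop := ∀ u ∈ U, ∀ s, ‖V G (rho s u)‖ = ‖V G u‖

def ReparamStmt : Prop := ∀ G, Good G → ∃ G', Good G' ∧ CSpeed G' ∧ Join G G'

/-- Normalisation of a family of vector valued maps. -/
noncomputable def nrm (G : P → E) (u : P) : E := ‖G (rt u)‖⁻¹ • G (rt u)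

def NormStmt : Prop :=
  ∀ G : ℝ → P → E, Sm G → (∀ s, ∀ u ∈ U, G s (rev u) = -G s u ∧ G s u ≠ 0) →
    (∀ s, Turn (mm (G s))) →
    (∀ s, ∀ u ∈ U, ∀ r ∈ Ioo 0 π, ∀ t > (0 : ℝ), G s (rho r u) ≠ t • G s u) →
    Sm (fun s => nrm (G s)) ∧ ∀ s, Good (nrm (G s))

/-- Closeness of the jets that enter goodness. -/
def Close (ε : ℝ) (G G' : P → E) : Prop :=
  ∀ u ∈ U, ‖G' u - G u‖ ≤ ε ∧ ∀ i : Fin 3,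
    ‖dW G' u (EuclideanSpace.single i 1) - dW G u (EuclideanSpace.single i 1)‖ ≤ ε ∧
    ‖V (fun u => dW G' u (EuclideanSpace.single i 1)) u
      - V (fun u => dW G u (EuclideanSpace.single i 1)) u‖ ≤ ε

def OpenStmt : Prop :=
  ∀ G, Good G → ∃ ε > 0, ∀ G', Odd1 G' → Close ε G G' → Good G' ∧ Join G G'

noncomputable def Mean (f : P → ℝ) (u : P) : ℝ := π⁻¹ * ∫ s in (0 : ℝ)..π, f (rho s u)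

noncomputable def Kop (f : P → ℝ) (u : P) : ℝ :=
  π⁻¹ * (∫ s in (0 : ℝ)..π, s * f (rho s u)) - π / 2 * Mean f u

noncomputable def vsq (G : P → E) (u : P) : ℝ := Mean (fun u => ‖V G u‖ ^ 2) u

noncomputable def MM (G : P → E) (u : P) : ℝ := Mean (fun u => ‖V (V G) u‖ ^ 2) u

noncomputable def mu (G : P → E) (u : P) : ℝ := Kop (fun u => ‖V (V G) u‖ ^ 2) u / vsq G u

noncomputable def RHS (G : P → E) (u : P) : E :=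
  V (V G) u + vsq G u • G u + mu G u • V G u

noncomputable def wk (G : P → E) (u : P) : ℝ := dt (G u) (V G u) (V (V G) u)

/-- Static facts on the fibre averages. -/
def MeanStmt : Prop :=
  (∀ f : P → ℝ, ContDiffOn ℝ ∞ f Ind →
    ContDiffOn ℝ ∞ (Mean f) Ind ∧ ContDiffOn ℝ ∞ (Kop f) Ind ∧
    (∀ u ∈ U, ∀ ξ, dW (Mean f) u ξ = Mean (fun u => dW f u ξ) u) ∧
    ((∀ u ∈ U, f (rev u) = f u) → ∀ u ∈ U,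
      (∀ s, Mean f (rho s u) = Mean f u) ∧ V (Mean f) u = 0 ∧ Kop f (rev u) = Kop f u ∧
      V (Kop f) u = f u - Mean f u ∧ Mean (Kop f) u = 0 ∧ Mean (V f) u = 0 ∧
      ∀ C : ℝ, (∀ s, |f (rho s u)| ≤ C) → |Mean f u| ≤ C ∧ |Kop f u| ≤ π * C)) ∧
  (∀ f : ℝ → P → ℝ, SmP f → SmP (fun τ => Mean (f τ)) ∧ SmP (fun τ => Kop (f τ)) ∧
    ∀ τ > 0, ∀ u ∈ Ind, HasDerivAt (fun t => Mean (f t) u)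
      (Mean (fun u => deriv (fun t => f t u) τ) u) τ) ∧
  (∀ f : ℝ → P → ℝ, C0 f → C0 (fun τ => Mean (f τ)) ∧ C0 (fun τ => Kop (f τ)))

abbrev II : Type := unitInterval
abbrev XX : Type := C(Circle, E)
abbrev YY : Type := C(II, XX)

noncomputable def gauss (z : ℝ) : ℝ := (√(2 * π))⁻¹ * exp (-z ^ 2 / 2)

structure HeatOps (H : ℝ → XX →L[ℝ] YY) (D : ℝ → YY →L[ℝ] YY) : Prop where
  Hsm : ContDiffOn ℝ ∞ (fun a : ℝ × XX => H a.1 a.2) (Ioi 0 ×ˢ univ)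
  Dsm : ContDiffOn ℝ ∞ (fun a : ℝ × YY => D a.1 a.2) (Ioi 0 ×ˢ univ)
  Hval : ∀ l > 0, ∀ (g : XX) (s : II) (σ : ℝ),
    H l g s (Circle.exp σ) = ∫ z, gauss z • g (Circle.exp (σ + √(2 * l * s) * z))
  Dval : ∀ l > 0, ∀ (f : YY) (s : II) (σ : ℝ),
    D l f s (Circle.exp σ) = √(2 * l * s) • ∫ θ in (0 : ℝ)..1, ∫ z, (z * gauss z) •
      f (projIcc 0 1 zero_le_one (s * (1 - θ ^ 2))) (Circle.exp (σ + √(2 * l * s) * θ * z))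
  Dbd : ∀ l > 0, ∀ K > 0, ∀ (M : ℝ) (f : YY), (∀ s : II, ‖f s‖ ≤ M * exp (K * s)) →
    ∀ s : II, ‖D l f s‖ ≤ 3 * √(l / K) * M * exp (K * s)

def HeatOpStmt : Prop := ∃ H D, HeatOps H D

/-- The cut-off nonlinearity. For an antiperiodic `q` that is `‖·‖ ≤ R` with mean square of the
antiderivative at least `1 / 4` it is `v² p + μ' p + μ q`. -/
structure Nonlin (R : ℝ) (J : XX →L[ℝ] XX) (f : XX → XX) : Prop where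
  Jval : ∀ (q : XX) (σ : ℝ),
    J q (Circle.exp σ) = (-1 / 2 : ℝ) • ∫ r in (0 : ℝ)..π, q (Circle.exp (σ + r))
  smooth : ContDiff ℝ ∞ f
  lip : ∃ K, LipschitzWith K f
  odd : ∀ q, f (-q) = -f q
  equi : ∀ (q q' : XX) (h : ℝ), (∀ σ, q' (Circle.exp σ) = q (Circle.exp (σ + h))) →
    ∀ σ, f q' (Circle.exp σ) = f q (Circle.exp (σ + h))
  val : ∀ (q : XX) (σ v2 M m : ℝ), ‖q‖ ≤ R →
    v2 = π⁻¹ * ∫ r in (0 : ℝ)..π, ‖J q (Circle.exp (σ + r))‖ ^ 2 → 1 / 4 ≤ v2 →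
    M = π⁻¹ * ∫ r in (0 : ℝ)..π, ‖q (Circle.exp (σ + r))‖ ^ 2 →
    m = π⁻¹ * (∫ r in (0 : ℝ)..π, r * ‖q (Circle.exp (σ + r))‖ ^ 2) - π / 2 * M →
    f q (Circle.exp σ) = (v2 + (‖q (Circle.exp σ)‖ ^ 2 - M) / v2) • J q (Circle.exp σ)
      + (m / v2) • q (Circle.exp σ)

def NonlinStmt : Prop := ∀ R : ℝ, ∃ J f, Nonlin R J f

structure Mild (H : ℝ → XX →L[ℝ] YY) (D : ℝ → YY →L[ℝ] YY) (f : XX → XX) (Nf : YY → YY)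
    (Q : ℝ × XX → YY) : Prop where
  Nsm : ContDiff ℝ ∞ Nf
  Nval : ∀ (q : YY) (s : II), Nf q s = f (q s)
  smooth : ContDiffOn ℝ ∞ Q (Ioi 0 ×ˢ univ)
  eqn : ∀ l > 0, ∀ g, Q (l, g) = H l g + D l (Nf (Q (l, g)))
  scale : ∀ l > 0, ∀ (g : XX) (r s : II), 0 < (r : ℝ) → Q (l, g) (r * s) = Q (l * r, g) s
  odd : ∀ l > 0, ∀ g, Q (l, -g) = -Q (l, g)
  equi : ∀ l > 0, ∀ (g g' : XX) (h : ℝ), (∀ σ, g' (Circle.exp σ) = g (Circle.exp (σ + h))) →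
    ∀ (s : II) (σ : ℝ), Q (l, g') s (Circle.exp σ) = Q (l, g) s (Circle.exp (σ + h))

def MildStmt : Prop :=
  ∀ H D R J f, HeatOps H D → Nonlin R J f → ∃ Nf Q, Mild H D f Nf Q

/-- A mild solution with enough space derivatives solves the integrated equation. -/
def DuhamelStmt : Prop :=
  ∀ (T B : ℝ) (q q1 q2 f f1 f2 f3 : ℝ → ℝ → E), 0 < T →
    (∀ g ∈ [q, q1, q2, f, f1, f2, f3],
      ContinuousOn (fun a : ℝ × ℝ => g a.1 a.2) (Icc 0 T ×ˢ univ) ∧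
      ∀ τ ∈ Icc 0 T, ∀ σ, ‖g τ σ‖ ≤ B) →
    (∀ τ ∈ Icc 0 T, ∀ σ, HasDerivAt (q τ) (q1 τ σ) σ ∧ HasDerivAt (q1 τ) (q2 τ σ) σ ∧
      HasDerivAt (f τ) (f1 τ σ) σ ∧ HasDerivAt (f1 τ) (f2 τ σ) σ ∧
      HasDerivAt (f2 τ) (f3 τ σ) σ) →
    (∀ τ ∈ Icc 0 T, ∀ σ, q τ σ = (∫ z, gauss z • q 0 (σ + √(2 * τ) * z)) +
      √(2 * τ) • ∫ θ in (0 : ℝ)..1, ∫ z, (z * gauss z) •
        f (τ * (1 - θ ^ 2)) (σ + √(2 * τ) * θ * z)) →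
    ∀ τ ∈ Icc 0 T, ∀ σ, q τ σ = q 0 σ + ∫ t in (0 : ℝ)..τ, (q2 t σ + f1 t σ)

/-- Smooth in the parameter with values in continuous functions of time. -/
def Kc {F : Type} [NormedAddCommGroup F] [NormedSpace ℝ F] (f : ℝ → P → F) : Prop :=
  ∀ T > 0, ∃ Q : P → C(II, F), ContDiffOn ℝ ∞ Q Ind ∧ ∀ u ∈ Ind, ∀ s : II, Q u s = f (T * s) u

/-- True time. -/
noncomputable def tt (γ : ℝ → P → E) (τ : ℝ) (u : P) : ℝ := ∫ t in (0 : ℝ)..τ, vsq (γ t) u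

def KcStmt : Prop :=
  (∀ (F : Type) [NormedAddCommGroup F] [NormedSpace ℝ F] (f : ℝ → P → F), Kc f →
    C0 f ∧ (∀ τ ≥ 0, ContDiffOn ℝ ∞ (f τ) Ind) ∧
    ∀ A : P → P, ContDiffOn ℝ ∞ A Ind → Kc (fun τ u => fderiv ℝ (f τ) u (A u))) ∧
  ∀ γ : ℝ → P → E, Kc γ → SmP γ → Kc (tt γ) ∧ SmP (tt γ)

structure Pre (G₀ : P → E) (γ : ℝ → P → E) : Prop where
  init : ∀ u ∈ U, γ 0 u = G₀ u
  slice : ∀ τ ≥ 0, ContDiffOn ℝ ∞ (γ τ) Ind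
  smp : SmP γ
  odd : ∀ τ ≥ 0, ∀ u ∈ U, γ τ (rev u) = -γ τ u
  c0 : C0 γ
  c1 : C0 (fun τ => V (γ τ))
  c2 : C0 (fun τ => V (V (γ τ)))
  c3 : ∀ ξ, C0 (fun τ u => dW (γ τ) u ξ)
  c4 : ∀ ξ, C0 (fun τ => V (fun u => dW (γ τ) u ξ))
  c5 : C0 (fun τ => V (V (V (γ τ))))
  tsl : ∀ τ ≥ 0, ContDiffOn ℝ ∞ (tt γ τ) Ind
  tsm : SmP (tt γ)
  tc : ∀ ξ, C0 (fun τ u => dW (tt γ τ) u ξ)

def PDEat (γ : ℝ → P → E) (τ : ℝ) (u : P) : Prop :=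
  HasDerivAt (fun t => γ t u) (RHS (γ τ) u) τ

/-- The mild solution as a family on `Ind`. -/
structure MildSol (G₀ : P → E) (R : ℝ) (γ φ : ℝ → P → E) : Prop where
  init : ∀ u ∈ U, γ 0 u = G₀ u
  kc : Kc γ
  kc' : Kc φ
  smp : SmP γ
  odd : ∀ τ ≥ 0, ∀ u ∈ U, γ τ (rev u) = -γ τ u
  odd' : ∀ τ ≥ 0, ∀ u ∈ U, φ τ (rev u) = -φ τ u
  mild : ∀ τ ≥ 0, ∀ u ∈ U, ∀ σ, V (V (γ τ)) (rho σ u) =
    (∫ z, gauss z • V (V (γ 0)) (rho (σ + √(2 * τ) * z) u)) +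
      √(2 * τ) • ∫ θ in (0 : ℝ)..1, ∫ z, (z * gauss z) •
        φ (τ * (1 - θ ^ 2)) (rho (σ + √(2 * τ) * θ * z) u)
  val : ∀ τ ≥ 0, ∀ u ∈ U, (∀ s, ‖V (V (γ τ)) (rho s u)‖ ≤ R) → 1 / 4 ≤ vsq (γ τ) u →
    φ τ u = (vsq (γ τ) u + (‖V (V (γ τ)) u‖ ^ 2 - MM (γ τ) u) / vsq (γ τ) u) • V (γ τ) u
      + mu (γ τ) u • V (V (γ τ)) u

def ExistAStmt : Prop :=
  ∀ (G₀ : P → E) (R : ℝ), ContDiffOn ℝ ∞ G₀ Ind → (∀ u ∈ U, G₀ (rev u) = -G₀ u) →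
    ∃ γ φ, MildSol G₀ R γ φ

def ExistBStmt : Prop :=
  ∀ G₀ R γ φ, MildSol G₀ R γ φ →
    Pre G₀ γ ∧ ∀ τ > 0, ∀ u ∈ U, (∀ s, ‖V (V (γ τ)) (rho s u)‖ ≤ R) →
      1 / 4 ≤ vsq (γ τ) u → PDEat γ τ u

def ExistStmt : Prop :=
  ∀ (G₀ : P → E) (R : ℝ), ContDiffOn ℝ ∞ G₀ Ind → (∀ u ∈ U, G₀ (rev u) = -G₀ u) →
    ∃ γ, Pre G₀ γ ∧ ∀ τ > 0, ∀ u ∈ U, (∀ s, ‖V (V (γ τ)) (rho s u)‖ ≤ R) →
      1 / 4 ≤ vsq (γ τ) u → PDEat γ τ u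

/-- The equation holds on the time interval `(0, T]`. -/
def Upto (γ : ℝ → P → E) (T : ℝ) : Prop :=
  ∀ τ ∈ Icc 0 T, ∀ u ∈ U, 1 / 4 ≤ vsq (γ τ) u ∧ (0 < τ → PDEat γ τ u)

def Constr (G : P → E) : Prop := ∀ u ∈ U, ‖G u‖ = 1 ∧ ‖V G u‖ ^ 2 = vsq G u

def ConstrStmt : Prop :=
  ∀ G₀ γ T, Odd1 G₀ → CSpeed G₀ → Pre G₀ γ → Upto γ T →
    ∀ τ ∈ Icc 0 T, Constr (γ τ) ∧ ∀ u ∈ U, 0 < τ →
      HasDerivAt (fun t => vsq (γ t) u) (2 * vsq (γ τ) u ^ 2 - 2 * MM (γ τ) u) τ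

def Chord (A : ℝ) (G : P → E) : Prop :=
  ∀ u ∈ U, ∀ h ∈ Icc 0 π, arsinh (A * (‖V G u‖ * h)) / A ≤ ‖G (rho h u) - G u‖

/-- Static identities for curves of constant speed on the sphere. -/
def CurveAStmt : Prop :=
  ∀ G, Odd1 G → Constr G → ∀ u ∈ U, 2 / π ≤ ‖V G u‖ ∧ (∀ s, vsq G (rho s u) = vsq G u) ∧
    (∀ s, MM G (rho s u) = MM G u) ∧
    ⟪G u, V G u⟫ = 0 ∧ ⟪G u, V (V G) u⟫ = -vsq G u ∧ ⟪V G u, V (V G) u⟫ = 0 ∧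
    V (V G) u = -vsq G u • G u + (wk G u / vsq G u) • cr (G u) (V G u) ∧
    ‖V (V G) u‖ ^ 2 = vsq G u ^ 2 + wk G u ^ 2 / vsq G u ∧
    vsq G u • cr (G u) (V (V G) u) = -wk G u • V G u ∧ wk G (rev u) = -wk G u ∧
    mu G (rev u) = mu G u ∧ ContDiffAt ℝ ∞ (mu G) u ∧
    V (mu G) u = (‖V (V G) u‖ ^ 2 - MM G u) / vsq G u ∧ vsq G u ^ 2 ≤ MM G u ∧
    MM G u = vsq G u ^ 2 + Mean (fun u => wk G u ^ 2) u / vsq G u ∧ Mean (mu G) u = 0 ∧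
    V (V (mu G)) u = 2 * wk G u * V (wk G) u / vsq G u ^ 2

/-- Chord-arc facts. -/
def CurveBStmt : Prop :=
  (∀ G, Good G → CSpeed G → ∃ A > 0, Chord A G ∧ ∀ u ∈ U, arsinh (A * (‖V G u‖ * π)) / A < 2) ∧
  (∀ G A, 0 < A → Odd1 G → Constr G → Chord A G →
    ∀ u ∈ U, ‖V (V G) u‖ ≤ 2 * A * vsq G u) ∧
  (∀ A > 0, ∀ ε > 0, ∃ η > 0, ∀ G, Odd1 G → Constr G → Chord A G →
    ∀ u ∈ U, (∀ s, |wk G (rho s u)| ≤ η) → |vsq G u - 1| ≤ ε)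

def ChordStmt : Prop :=
  ∀ G₀ γ T A, 0 < A → Pre G₀ γ → Upto γ T → (∀ τ ∈ Icc 0 T, Constr (γ τ) ∧ ∀ u ∈ U, 0 < τ →
      HasDerivAt (fun t => vsq (γ t) u) (2 * vsq (γ τ) u ^ 2 - 2 * MM (γ τ) u) τ) →
    Chord A (γ 0) → (∀ u ∈ U, arsinh (A * (‖V (γ 0) u‖ * π)) / A < 2) →
    ∀ τ ∈ Icc 0 T, Chord A (γ τ)

structure Sol (G₀ : P → E) (γ : ℝ → P → E) (A : ℝ) : Prop extends Pre G₀ γ where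
  Apos : 0 < A
  pde : ∀ τ > 0, ∀ u ∈ U, PDEat γ τ u
  con : ∀ τ ≥ 0, Constr (γ τ)
  dv : ∀ τ > 0, ∀ u ∈ U,
    HasDerivAt (fun t => vsq (γ t) u) (2 * vsq (γ τ) u ^ 2 - 2 * MM (γ τ) u) τ
  chord : ∀ τ ≥ 0, Chord A (γ τ)
  bd : ∃ B, ∀ τ ≥ 0, ∀ u ∈ U, 1 / 4 ≤ vsq (γ τ) u ∧ vsq (γ τ) u ≤ B ∧ ‖V (V (γ τ)) u‖ ≤ B

def GlobalStmt : Prop := ∀ G₀, Good G₀ → CSpeed G₀ → ∃ γ A, Sol G₀ γ A

/-- Normal variation at fixed true time. -/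
noncomputable def mh (γ : ℝ → P → E) (τ : ℝ) (u : P) (ξ : E) : ℝ :=
  mm (γ τ) u ξ + dW (tt γ τ) u ξ / vsq (γ τ) u * wk (γ τ) u

/-- Regularity and symmetry of the coefficients. -/
structure VarReg (γ : ℝ → P → E) : Prop where
  mhs : ∀ ξ, SmU (fun τ u => mh γ τ u ξ)
  mhc : ∀ ξ, C0U (fun τ u => mh γ τ u ξ)
  wks : SmU (fun τ => wk (γ τ))
  wkc : C0U (fun τ => wk (γ τ))
  mus : SmU (fun τ => mu (γ τ))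
  muc : C0U (fun τ => mu (γ τ))
  vs : SmU (fun τ => vsq (γ τ))
  vc : C0U (fun τ => vsq (γ τ))
  Ms : SmU (fun τ => MM (γ τ))
  Mc : C0U (fun τ => MM (γ τ))
  mhodd : ∀ τ ≥ 0, ∀ u ∈ U, ∀ ξ, mh γ τ (rev u) ξ = -mh γ τ u ξ
  mh0 : ∀ u ∈ U, ∀ ξ, mh γ 0 u ξ = mm (γ 0) u ξ
  mhfst : ∀ τ ≥ 0, ∀ u ∈ U, mh γ τ u u.1 = 0
  ttrho : ∀ τ ≥ 0, ∀ u ∈ U, ∀ s, tt γ τ (rho s u) = tt γ τ u
  dttrho : ∀ τ ≥ 0, ∀ u ∈ U, ∀ s ξ, dW (tt γ τ) (rho s u) ξ = dW (tt γ τ) u ξ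
  ttd : ∀ τ > 0, ∀ u ∈ U, HasDerivAt (fun t => tt γ t u) (vsq (γ τ) u) τ
  dttd : ∀ τ > 0, ∀ u ∈ U, ∀ ξ,
    HasDerivAt (fun t => dW (tt γ t) u ξ) (dW (vsq (γ τ)) u ξ) τ

def VarRegStmt : Prop := ∀ G₀ γ A, Sol G₀ γ A → VarReg γ

/-- The linear equations for the normal variation and for the curvature. -/
def VarEq (γ : ℝ → P → E) : Prop :=
  ∀ τ > 0, ∀ u ∈ U,
    (∀ ξ, HasDerivAt (fun t => mh γ t u ξ)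
      (V (V fun u => mh γ τ u ξ) u + mu (γ τ) u * V (fun u => mh γ τ u ξ) u
        + (vsq (γ τ) u + V (mu (γ τ)) u) * mh γ τ u ξ) τ) ∧
    HasDerivAt (fun t => wk (γ t) u)
      (V (V (wk (γ τ))) u + mu (γ τ) u * V (wk (γ τ)) u
        + (3 * vsq (γ τ) u + V (mu (γ τ)) u - 2 * MM (γ τ) u / vsq (γ τ) u) * wk (γ τ) u) τ

def VarStmt : Prop := ∀ G₀ γ A, Sol G₀ γ A → VarEq γ

/-- A classical solution of `n_τ = n_σσ + μ n_σ + c n` for `a < τ ≤ b`, continuous up to `a`. -/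
structure Par (a b : ℝ) (μ c n n1 n2 : ℝ → ℝ → ℝ) : Prop where
  cont : ContinuousOn (fun q : ℝ × ℝ => n q.1 q.2) (Icc a b ×ˢ univ)
  d1 : ∀ τ ∈ Ioc a b, ∀ σ, HasDerivAt (n τ) (n1 τ σ) σ
  d2 : ∀ τ ∈ Ioc a b, ∀ σ, HasDerivAt (n1 τ) (n2 τ σ) σ
  dt : ∀ τ ∈ Ioc a b, ∀ σ,
    HasDerivAt (fun t => n t σ) (n2 τ σ + μ τ σ * n1 τ σ + c τ σ * n τ σ) τ

/-- Two point barrier of Karlin-McGregor type. -/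
def KMStmt : Prop :=
  ∀ (a b C δ : ℝ) (μ c n n1 n2 m m1 m2 : ℝ → ℝ → ℝ), a ≤ b → 0 < δ →
    Par a b μ c n n1 n2 → Par a b μ c m m1 m2 →
    (∀ τ ∈ Icc a b, ∀ σ, n τ (σ + π) = -n τ σ ∧ m τ (σ + π) = -m τ σ) →
    (∀ τ ∈ Ioc a b, ∀ σ, μ τ (σ + π) = μ τ σ ∧ |c τ σ| ≤ C ∧
      ∀ σ', |μ τ σ - μ τ σ'| ≤ C * |σ - σ'|) →
    (∀ σ, ∀ h ∈ Icc 0 π, δ * sin h ≤ n a σ * m a (σ + h) - m a σ * n a (σ + h)) →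
    ∃ δ' > 0, ∀ σ, ∀ h ∈ Icc 0 π, δ' * sin h ≤ n b σ * m b (σ + h) - m b σ * n b (σ + h)

def TurnStmt : Prop :=
  ∀ G₀ γ A, Good G₀ → Sol G₀ γ A → ∀ τ ≥ 0, Turn (mh γ τ)

def BernStmt : Prop :=
  ∀ G₀ γ A, Sol G₀ γ A → (∃ B, ∀ τ ≥ 1, ∀ u ∈ U, |V (wk (γ τ)) u| ≤ B) ∧
    ∃ C > 0, ∀ τ₀ > 0, ∀ τ ∈ Icc τ₀ (τ₀ + 2), ∀ u ∈ U, ∀ η : ℝ,
      (∀ s, |wk (γ τ₀) (rho s u)| ≤ η) → |wk (γ τ) u| ≤ C * η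

def AsymStmt : Prop :=
  ∀ G₀ γ A, Sol G₀ γ A → ∀ η > 0, ∃ τ₀ > 0, ∀ τ ≥ τ₀, ∀ u ∈ U,
    |vsq (γ τ) u - 1| ≤ η ∧ |wk (γ τ) u| ≤ η ∧ |mu (γ τ) u| ≤ η ∧ |V (mu (γ τ)) u| ≤ η ∧
      |V (V (mu (γ τ))) u| ≤ η

/-- Squared size of the first harmonic. -/
noncomputable def c1sq (n : ℝ → ℝ) : ℝ :=
  (∫ σ in (0 : ℝ)..2 * π, n σ * cos σ) ^ 2 + (∫ σ in (0 : ℝ)..2 * π, n σ * sin σ) ^ 2

/-- Squared `L²` norm of `n'' + n`. -/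
noncomputable def zsq (n : ℝ → ℝ) : ℝ := ∫ σ in (0 : ℝ)..2 * π, (deriv (deriv n) σ + n σ) ^ 2

/-- One variable lemmas: Wirtinger, the cone property, variation of constants. -/
def OneDStmt : Prop :=
  (∀ z : ℝ → ℝ, ContDiff ℝ 1 z → (∀ σ, z (σ + π) = -z σ) →
    (∫ σ in (0 : ℝ)..2 * π, z σ * cos σ) = 0 → (∫ σ in (0 : ℝ)..2 * π, z σ * sin σ) = 0 →
    4 * ∫ σ in (0 : ℝ)..2 * π, z σ ^ 2 ≤ ∫ σ in (0 : ℝ)..2 * π, deriv z σ ^ 2) ∧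
  (∀ (n ψ : ℝ → ℝ) (σ₀ M : ℝ), Continuous n → Continuous ψ → (∀ σ, n (σ + π) = -n σ) →
    (∀ σ, ψ (σ + π) = -ψ σ) → (∀ σ ∈ Icc σ₀ (σ₀ + π), 0 ≤ n σ) → (∀ σ, |ψ σ| ≤ M) →
    (∀ σ σ', |ψ σ - ψ σ'| ≤ M * |σ - σ'|) →
    |∫ σ in (0 : ℝ)..2 * π, n σ * ψ σ| ≤ 10 * M * √(c1sq n)) ∧
  (∀ (F : Type) [NormedAddCommGroup F] [NormedSpace ℝ F] [CompleteSpace F] (n n1 n2 : ℝ → F),
    (∀ σ, HasDerivAt n (n1 σ) σ) → (∀ σ, HasDerivAt n1 (n2 σ) σ) → Continuous n2 →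
    Function.Periodic n (2 * π) → ∀ (a b : F) (Z : ℝ),
    a = π⁻¹ • (∫ σ in (0 : ℝ)..2 * π, cos σ • n σ) →
    b = π⁻¹ • (∫ σ in (0 : ℝ)..2 * π, sin σ • n σ) →
    Z = (∫ σ in (0 : ℝ)..2 * π, ‖n2 σ + n σ‖) → ∀ σ,
    ‖n σ - (cos σ • a + sin σ • b)‖ ≤ 5 * Z ∧ ‖n1 σ - (-sin σ • a + cos σ • b)‖ ≤ 5 * Z)

def EnergyStmt : Prop :=
  ∃ C η₀ : ℝ, 0 < C ∧ 0 < η₀ ∧ ∀ (η τ₀ Y₀ : ℝ) (n μ c : ℝ → ℝ → ℝ), 0 < η → η ≤ η₀ → 0 < τ₀ →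
    0 ≤ Y₀ →
    ContDiffOn ℝ ∞ (fun q : ℝ × ℝ => n q.1 q.2) (Ioi 0 ×ˢ univ) →
    ContDiffOn ℝ ∞ (fun q : ℝ × ℝ => μ q.1 q.2) (Ioi 0 ×ˢ univ) →
    ContDiffOn ℝ ∞ (fun q : ℝ × ℝ => c q.1 q.2) (Ioi 0 ×ˢ univ) →
    (∀ τ ≥ τ₀, ∀ σ, n τ (σ + π) = -n τ σ ∧ μ τ (σ + π) = μ τ σ ∧ c τ (σ + π) = c τ σ ∧
      HasDerivAt (fun t => n t σ)
        (deriv (deriv (n τ)) σ + μ τ σ * deriv (n τ) σ + (1 + c τ σ) * n τ σ) τ ∧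
      |μ τ σ| ≤ η ∧ |deriv (μ τ) σ| ≤ η ∧ |deriv (deriv (μ τ)) σ| ≤ η ∧ |c τ σ| ≤ η ∧
      |deriv (c τ) σ| ≤ η) →
    (∀ τ ≥ τ₀, 0 < c1sq (n τ) ∧ ∃ σ₀, ∀ σ ∈ Icc σ₀ (σ₀ + π), 0 ≤ n τ σ) →
    zsq (n τ₀) ≤ Y₀ * c1sq (n τ₀) →
    ∀ τ ≥ τ₀, zsq (n τ) ≤ (exp (-(τ - τ₀)) * Y₀ + C * η ^ 2) * c1sq (n τ)

def LateStmt : Prop :=
  ∀ G₀ γ A, Good G₀ → Sol G₀ γ A → ∀ ε > 0, ∃ τ₁ > 0, ∀ τ ≥ τ₁, ∀ u ∈ U,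
    |vsq (γ τ) u - 1| ≤ ε ∧ |wk (γ τ) u| ≤ ε ∧ ∀ ξ,
      zsq (fun σ => mh γ τ (rho σ u) ξ) ≤ ε ^ 2 * c1sq (fun σ => mh γ τ (rho σ u) ξ)

/-- Nearly round good families. -/
def Small (ε : ℝ) (G : P → E) : Prop :=
  ∀ u ∈ U, |‖V G u‖ ^ 2 - 1| ≤ ε ∧ |wk G u| ≤ ε ∧ ∀ ξ,
    zsq (fun σ => mm G (rho σ u) ξ) ≤ ε ^ 2 * c1sq (fun σ => mm G (rho σ u) ξ)

/-- The family at fixed true time. -/
structure TimeCh (γ Gt : ℝ → P → E) (τf : ℝ → P → ℝ) : Prop where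
  smooth : SmP Gt
  pos : ∀ t > 0, ∀ u ∈ U, 0 < τf t u
  eqn : ∀ t > 0, ∀ u ∈ U, tt γ (τf t u) u = t
  fib : ∀ t > 0, ∀ u ∈ U, ∀ s, τf t (rho s u) = τf t u
  val : ∀ t > 0, ∀ u ∈ U, Gt t u = γ (τf t u) u
  v1 : ∀ t > 0, ∀ u ∈ U, V (Gt t) u = V (γ (τf t u)) u
  v2 : ∀ t > 0, ∀ u ∈ U, V (V (Gt t)) u = V (V (γ (τf t u))) u
  d1 : ∀ t > 0, ∀ u ∈ U, ∀ ξ, dW (Gt t) u ξ = dW (γ (τf t u)) u ξ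
    - (dW (tt γ (τf t u)) u ξ / vsq (γ (τf t u)) u) • RHS (γ (τf t u)) u
  d2 : ∀ t > 0, ∀ u ∈ U, ∀ ξ, V (fun u => dW (Gt t) u ξ) u = V (fun w => dW (γ (τf t u)) w ξ) u
    - (dW (tt γ (τf t u)) u ξ / vsq (γ (τf t u)) u) • V (RHS (γ (τf t u))) u
  mmv : ∀ t > 0, ∀ u ∈ U, ∀ ξ, mm (Gt t) u ξ = mh γ (τf t u) u ξ

def TimeStmt : Prop := ∀ G₀ γ A, Sol G₀ γ A → ∃ Gt τf, TimeCh γ Gt τf

def SyncStmt : Prop :=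
  ∀ G₀ γ A, Good G₀ → Sol G₀ γ A → ∀ ε > 0, ∃ G, Good G ∧ CSpeed G ∧ Small ε G ∧ Join G₀ G

noncomputable def pole (G : P → E) (u : P) : E := ‖V G u‖⁻¹ • cr (G u) (V G u)

def Great (G : P → E) : Prop := ∀ u ∈ U, ∀ s, pole G (rho s u) = pole G u

/-- First harmonic along the fibre. -/
noncomputable def P1 (G : P → E) (u : P) : E := π⁻¹ • ∫ s in (0 : ℝ)..2 * π, cos s • G (rho s u)

noncomputable def Gs (G : P → E) (s : ℝ) (u : P) : E := (1 - s) • G u + s • P1 G u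

def EndCurveStmt : Prop :=
  ∀ κ > 0, ∃ ε > 0, ∀ G, Good G → CSpeed G → Small ε G → ∀ s ∈ Icc (0 : ℝ) 1, ∀ u ∈ U, ∀ σ,
    |‖V G u‖ - 1| ≤ κ ∧
    ‖Gs G s (rho σ u) - (cos σ • G u + sin σ • V G u)‖ ≤ κ ∧
    ‖V (Gs G s) (rho σ u) - (-sin σ • G u + cos σ • V G u)‖ ≤ κ ∧
    ‖V (V (Gs G s)) (rho σ u) + (cos σ • G u + sin σ • V G u)‖ ≤ κ

def EndEstStmt : Prop :=
  ∀ κ > 0, ∃ ε > 0, ∀ G, Good G → CSpeed G → Small ε G → ∀ s ∈ Icc (0 : ℝ) 1, ∀ u ∈ U, ∀ ξ,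
    cr ξ u.1 ≠ 0 → ∃ a b : ℝ, 0 < a ^ 2 + b ^ 2 ∧ ∀ σ,
      |mm (Gs G s) (rho σ u) ξ - (a * cos σ + b * sin σ)| ≤ κ * √(a ^ 2 + b ^ 2) ∧
      |V (fun w => mm (Gs G s) w ξ) (rho σ u) - (-a * sin σ + b * cos σ)| ≤ κ * √(a ^ 2 + b ^ 2)

def EndStmt : Prop :=
  ∃ ε > 0, ∀ G, Good G → CSpeed G → Small ε G → ∃ G₁, Good G₁ ∧ Great G₁ ∧ Join G G₁

def RoundStmt : Prop :=
  ∀ G Ti, Good G → Great G → ThInv G Ti →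
    ∃ ψ : E → E, ContDiffOn ℝ ∞ ψ {0}ᶜ ∧ BijOn ψ (Metric.sphere 0 1) (Metric.sphere 0 1) ∧
      ∀ x w, Tan x w → ∃ u ∈ U, u.1 = x ∧ ⟪V (pG G) u, w⟫ = 0 ∧
        ⟪pG G u, w⟫ ^ 2 = ‖fderiv ℝ ψ x w‖ ^ 2

end Pool.Agent.MP_2291e2_gt.Zl
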