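import Mathlib.RingTheory.Finiteness.Prod
import Mathlib.Analysis.SpecialFunctions.Complex.Circle
import Mathlib.Analysis.SpecialFunctions.Gaussian.GaussianIntegral
import Pool.Agent.MP_2291e2_gt.zl.Spec

/-! PROJECT ZOLL, row EXISTA: the mild solution as a family on `Ind`. -/

open scoped ContDiff RealInnerProductSpace Topology
open Set Filter Real

namespace Pool.Agent.MP_2291e2_gt.Zl

namespace ExistA

theorem int_gauss : ∫ z, gauss z = 1 := by
  have h := integral_gaussian (1 / 2)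
  have e : ∀ z : ℝ, gauss z = (√(2 * π))⁻¹ * exp (-(1 / 2) * z ^ 2) := fun z => by
    rw [gauss]
    congr 2
    ring
  simp only [e]
  rw [MeasureTheory.integral_const_mul, h, show π / (1 / 2) = 2 * π by ring, inv_mul_cancel₀]
  positivity

/-- The circle spanned by two vectors, over a base point. -/
noncomputable def circ : (E × E × E) →ₗ[ℝ] C(Circle, P) where
  toFun a := ⟨fun z => (a.1, (z : ℂ).re • a.2.1 + (z : ℂ).im • a.2.2), by fun_prop⟩
  map_add' a b := by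
    ext z : 1
    simp only [ContinuousMap.coe_mk, ContinuousMap.add_apply, Prod.fst_add, Prod.snd_add,
      Prod.mk_add_mk, smul_add]
    congr 1
    abel
  map_smul' c a := by
    ext z : 1
    simp only [ContinuousMap.coe_mk, ContinuousMap.smul_apply, Prod.smul_fst, Prod.smul_snd,
      Prod.smul_mk, smul_add, RingHom.id_apply, smul_comm c]

theorem circ_exp (u : P) (σ : ℝ) : circ (u.1, u.2, cr u.1 u.2) (Circle.exp σ) = rho σ u := by
  simp [circ, rho, Complex.exp_ofReal_mul_I_re, Complex.exp_ofReal_mul_I_im]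

/-- The restriction of a smooth map to the fibres is a smooth map to `XX`. -/
theorem exists_fib (hN : NemStmt) (χ : P → E) (h : ContDiffOn ℝ ∞ χ Ind) :
    ∃ g : P → XX, ContDiffOn ℝ ∞ g Ind ∧ ∀ u ∈ U, ∀ σ : ℝ, g u (Circle.exp σ) = χ (rho σ u) := by
  obtain ⟨-, N, h1, h2⟩ := hN Circle P E Ind χ isOpen_Ind h
  have hc : ContDiff ℝ ∞ fun u : P => circ (u.1, u.2, cr u.1 u.2) :=
    (LinearMap.toContinuousLinearMap circ).contDiff.comp (by fun_prop)
  have hm : ∀ u ∈ Ind, ∀ k, circ (u.1, u.2, cr u.1 u.2) k ∈ Ind := fun u hu k => by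
    obtain ⟨σ, rfl⟩ := Circle.exp_surjective k
    rw [circ_exp]
    exact rho_mem_Ind hu σ
  refine ⟨fun u => N (circ (u.1, u.2, cr u.1 u.2)), h1.comp hc.contDiffOn hm, fun u hu σ => ?_⟩
  rw [h2 _ (hm u (U_sub_Ind hu)), circ_exp]

theorem sm_lift (L : XX →L[ℝ] E) : ContDiff ℝ ∞ fun y : YY => L.compLeftContinuous ℝ II y :=
  ContinuousLinearMap.contDiff (E := YY) (F := C(II, E)) _

variable {R : ℝ} {J : XX →L[ℝ] XX} {f : XX → XX}

theorem J_equi (h : Nonlin R J f) {q q' : XX} {a : ℝ}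
    (e : ∀ σ : ℝ, q' (Circle.exp σ) = q (Circle.exp (σ + a))) (σ : ℝ) :
    J q' (Circle.exp σ) = J q (Circle.exp (σ + a)) := by
  simp only [h.Jval, e, add_right_comm σ _ a]

theorem J_anti (h : Nonlin R J f) {q : XX}
    (e : ∀ σ : ℝ, q (Circle.exp (σ + π)) = -q (Circle.exp σ)) (σ : ℝ) :
    J q (Circle.exp (σ + π)) = -J q (Circle.exp σ) := by
  rw [← J_equi h (q' := -q) (fun σ => (e σ).symm), map_neg, ContinuousMap.neg_apply]

theorem J_deriv (h : Nonlin R J f) {q : XX}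
    (e : ∀ σ : ℝ, q (Circle.exp (σ + π)) = -q (Circle.exp σ)) (σ : ℝ) :
    HasDerivAt (fun σ : ℝ => J q (Circle.exp σ)) (q (Circle.exp σ)) σ := by
  have hc : Continuous fun t : ℝ => q (Circle.exp t) := by fun_prop
  have h1 := fun x => (hc.integral_hasStrictDerivAt 0 x).hasDerivAt
  have h2 := (((h1 (σ + π)).comp_add_const σ π).sub (h1 σ)).const_smul (-1 / 2 : ℝ)
  have e1 : (-1 / 2 : ℝ) • (q (Circle.exp (σ + π)) - q (Circle.exp σ)) = q (Circle.exp σ) := by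
    rw [e]
    module
  rw [e1] at h2
  refine h2.congr_of_eventuallyEq (Eventually.of_forall fun x => ?_)
  simp only [h.Jval, Pi.smul_apply, Pi.sub_apply]
  rw [intervalIntegral.integral_comp_add_left (fun t : ℝ => q (Circle.exp t)), add_zero,
    intervalIntegral.integral_interval_sub_left (hc.intervalIntegrable _ _)
      (hc.intervalIntegrable _ _)]

theorem J_V (h : Nonlin R J f) {G : P → E} (hG : ContDiffOn ℝ ∞ G Ind)
    (ho : ∀ u ∈ U, G (rev u) = -G u) {u : P} (hu : u ∈ U) {q : XX}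
    (e : ∀ σ : ℝ, q (Circle.exp σ) = V G (rho σ u)) (σ : ℝ) :
    J q (Circle.exp σ) = G (rho σ u) := by
  have hc : Continuous fun t : ℝ => V G (rho t u) := by
    simp only [← e]
    fun_prop
  simp only [h.Jval, e]
  rw [intervalIntegral.integral_comp_add_left (fun t : ℝ => V G (rho t u)), add_zero,
    intervalIntegral.integral_eq_sub_of_hasDerivAt (fun t _ => hasDerivAt_V' hG hu t)
      (hc.intervalIntegrable _ _), rho_add_pi, ho _ (rho_mem_U hu σ)]
  module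

theorem V_eq {G : P → E} (hG : ContDiffOn ℝ ∞ G Ind) {u : P} (hu : u ∈ U) {a b : ℝ → E}
    (e : ∀ σ, G (rho σ u) = a σ) (hd : ∀ σ, HasDerivAt a (b σ) σ) (σ : ℝ) :
    V G (rho σ u) = b σ := by
  have := hasDerivAt_V' hG hu σ
  rw [funext e] at this
  exact this.unique (hd σ)

end ExistA

open ExistA in
/-- Row EXISTA. -/
theorem exista_of (hN : NemStmt) (hH : HeatOpStmt) (hL : NonlinStmt) (hM : MildStmt)
    (hK : KcStmt) : ExistAStmt := by
  intro G₀ R hG ho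
  obtain ⟨H, D, hH⟩ := hH
  obtain ⟨J, f, hL⟩ := hL R
  obtain ⟨Nf, Q, hM⟩ := hM H D R J f hH hL
  have hG1 := contDiffOn_V hG
  have ho1 : ∀ u ∈ U, V G₀ (rev u) = -V G₀ u := fun u hu => V_odd hG ho hu
  obtain ⟨g, hg, hgv⟩ := exists_fib hN _ (contDiffOn_V hG1)
  obtain ⟨q, hq0, hq⟩ : ∃ q : ℝ → P → XX, (∀ u, q 0 u = g u) ∧
      ∀ τ > 0, ∀ u, q τ u = Q (τ, g u) 1 :=
    ⟨fun τ u => if 0 < τ then Q (τ, g u) 1 else g u, fun u => if_neg (lt_irrefl _),
      fun τ h u => if_pos h⟩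
  have hs : ∀ T > 0, ∀ u (s : II), Q (T, g u) s = q (T * s) u := fun T hT u s => by
    rcases s.2.1.eq_or_lt with h | h
    · ext z : 1
      obtain ⟨σ, rfl⟩ := Circle.exp_surjective z
      rw [hM.eqn T hT, ContinuousMap.add_apply, ContinuousMap.add_apply, hH.Hval T hT,
        hH.Dval T hT, ← h]
      simp [hq0, integral_smul_const, int_gauss]
    · rw [hq _ (mul_pos hT h), ← hM.scale T hT _ s 1 h, mul_one]
  have hQ : ∀ T > 0, ContDiffOn ℝ ∞ (fun u => Q (T, g u)) Ind := fun T hT =>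
    hM.smooth.comp (contDiffOn_const.prodMk hg) fun u _ => ⟨hT, trivial⟩
  have equi : ∀ τ ≥ 0, ∀ u ∈ U, ∀ a σ : ℝ,
      q τ (rho a u) (Circle.exp σ) = q τ u (Circle.exp (σ + a)) := fun τ hτ u hu a => by
    have e : ∀ σ : ℝ, g (rho a u) (Circle.exp σ) = g u (Circle.exp (σ + a)) := fun σ => by
      rw [hgv _ (rho_mem_U hu a), hgv u hu, rho_add hu]
    rcases hτ.eq_or_lt with rfl | h
    · simpa only [hq0] using e
    · simp only [hq τ h]
      exact hM.equi τ h _ _ a e 1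
  have odd : ∀ τ ≥ 0, ∀ u ∈ U, q τ (rev u) = -q τ u := fun τ hτ u hu => by
    have e : g (rev u) = -g u := by
      ext z : 1
      obtain ⟨σ, rfl⟩ := Circle.exp_surjective z
      rw [ContinuousMap.neg_apply, hgv _ (rev_mem_U hu), hgv u hu, rho_rev,
        V_odd hG1 ho1 (rho_mem_U hu σ)]
    rcases hτ.eq_or_lt with rfl | h
    · simpa only [hq0] using e
    · rw [hq τ h, hq τ h, e, hM.odd τ h, ContinuousMap.neg_apply]
  have anti : ∀ τ ≥ 0, ∀ u ∈ U, ∀ σ : ℝ,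
      q τ u (Circle.exp (σ + π)) = -q τ u (Circle.exp σ) := fun τ hτ u hu σ => by
    rw [← equi τ hτ u hu, rho_pi, odd τ hτ u hu, ContinuousMap.neg_apply]
  obtain ⟨γ, hγ⟩ : ∃ γ : ℝ → P → E, γ = fun τ u => J (J (q τ u)) (Circle.exp 0) := ⟨_, rfl⟩
  obtain ⟨φ, hφ⟩ : ∃ φ : ℝ → P → E, φ = fun τ u => f (q τ u) (Circle.exp 0) := ⟨_, rfl⟩
  let ev : XX →L[ℝ] E := ContinuousMap.evalCLM ℝ (Circle.exp 0)
  have kc : Kc γ := fun T hT =>
    ⟨fun u => (ev ∘L J ∘L J).compLeftContinuous ℝ II (Q (T, g u)),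
      (sm_lift _).comp_contDiffOn (hQ T hT), fun u _ s => by
        rw [hγ]
        exact congrArg (fun x : XX => J (J x) (Circle.exp 0)) (hs T hT u s)⟩
  have sl := (hK.1 E γ kc).2.1
  have v0 : ∀ τ ≥ 0, ∀ u ∈ U, ∀ σ : ℝ, γ τ (rho σ u) = J (J (q τ u)) (Circle.exp σ) :=
    fun τ hτ u hu σ => by
      rw [hγ]
      exact (J_equi hL (J_equi hL (equi τ hτ u hu σ)) 0).trans (by rw [zero_add])
  have v1 : ∀ τ ≥ 0, ∀ u ∈ U, ∀ σ : ℝ, V (γ τ) (rho σ u) = J (q τ u) (Circle.exp σ) :=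
    fun τ hτ u hu => V_eq (sl τ hτ) hu (v0 τ hτ u hu) (J_deriv hL (J_anti hL (anti τ hτ u hu)))
  have v2 : ∀ τ ≥ 0, ∀ u ∈ U, ∀ σ : ℝ, V (V (γ τ)) (rho σ u) = q τ u (Circle.exp σ) :=
    fun τ hτ u hu =>
      V_eq (contDiffOn_V (sl τ hτ)) hu (v1 τ hτ u hu) (J_deriv hL (anti τ hτ u hu))
  have v3 : ∀ τ ≥ 0, ∀ u ∈ U, ∀ σ : ℝ, φ τ (rho σ u) = f (q τ u) (Circle.exp σ) :=
    fun τ hτ u hu σ => by
      rw [hφ]
      exact (hL.equi _ _ σ (equi τ hτ u hu σ) 0).trans (by rw [zero_add])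
  refine ⟨γ, φ, fun u hu => ?_, kc, fun T hT => ?_, ?_, fun τ hτ u hu => ?_, fun τ hτ u hu => ?_,
    fun τ hτ u hu σ => ?_, fun τ hτ u hu hR h4 => ?_⟩
  · rw [hγ]
    refine (J_V hL hG ho hu (J_V hL hG1 ho1 hu fun σ => ?_) 0).trans (by rw [rho_zero])
    rw [hq0, hgv u hu]
  · exact ⟨fun u => ev.compLeftContinuous ℝ II (Nf (Q (T, g u))),
      (sm_lift _).comp_contDiffOn (hM.Nsm.comp_contDiffOn (hQ T hT)),
      fun u _ s => by
        rw [hφ]
        exact congrArg (fun x : XX => x (Circle.exp 0))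
          ((hM.Nval _ s).trans (congrArg f (hs T hT u s)))⟩
  · refine ((ev ∘L J ∘L J ∘L ContinuousMap.evalCLM ℝ (1 : II)).contDiff.comp_contDiffOn
      (hM.smooth.comp (contDiffOn_fst.prodMk (hg.comp contDiffOn_snd fun a ha => ha.2))
        fun a ha => ⟨ha.1, trivial⟩)).congr fun a ha => ?_
    rw [hγ]
    exact congrArg (fun x : XX => J (J x) (Circle.exp 0)) (hq _ ha.1 _)
  · simp only [hγ, odd τ hτ u hu, map_neg, ContinuousMap.neg_apply]
  · simp only [hφ, odd τ hτ u hu, hL.odd, ContinuousMap.neg_apply]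
  · simp only [v2 τ hτ u hu, v2 0 le_rfl u hu, hq0]
    rcases hτ.eq_or_lt with rfl | h
    · simp [hq0, integral_smul_const, int_gauss]
    rw [hq τ h, hM.eqn τ h, ContinuousMap.add_apply, ContinuousMap.add_apply, hH.Hval τ h,
      hH.Dval τ h]
    simp only [Icc.coe_one, mul_one, one_mul]
    congr 2
    refine intervalIntegral.integral_congr fun θ hθ => ?_
    rw [uIcc_of_le zero_le_one] at hθ
    have h1 : 1 - θ ^ 2 ∈ Icc (0 : ℝ) 1 := ⟨by nlinarith [hθ.1, hθ.2], by nlinarith⟩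
    simp only [projIcc_of_mem _ h1, hM.Nval, hs τ h, v3 _ (mul_nonneg hτ h1.1) u hu]
  · have e1 := v1 τ hτ u hu 0
    have e2 := v2 τ hτ u hu 0
    have e3 := v3 τ hτ u hu 0
    rw [rho_zero] at e1 e2 e3
    rw [e3, hL.val _ 0 (vsq (γ τ) u) (MM (γ τ) u) (Kop (fun u => ‖V (V (γ τ)) u‖ ^ 2) u) ?_ ?_ h4
      ?_ ?_, e1, e2, mu]
    · refine (ContinuousMap.norm_le _ ((norm_nonneg _).trans (hR 0))).2 fun z => ?_
      obtain ⟨σ, rfl⟩ := Circle.exp_surjective z
      rw [← v2 τ hτ u hu]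
      exact hR σ
    · simp only [vsq, Mean, v1 τ hτ u hu, zero_add]
    · simp only [MM, Mean, v2 τ hτ u hu, zero_add]
    · simp only [Kop, MM, Mean, v2 τ hτ u hu, zero_add]

end Pool.Agent.MP_2291e2_gt.Zl
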