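import Mathlib.RingTheory.Flat.FaithfullyFlat.Basic
import Mathlib.RingTheory.Flat.TorsionFree
import Mathlib.RingTheory.SimpleRing.Principal
import Pool.Agent.MP_2291e2_gt.zl.Spec2

/-! The mild solution is a classical solution where the cut-off is inactive. -/

open scoped ContDiff RealInnerProductSpace Topology
open Set Filter Real

namespace Pool.Agent.MP_2291e2_gt.Zl

namespace ExistB

section kc
variable {F : Type} [NormedAddCommGroup F] [NormedSpace ℝ F]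

lemma kc_dW (hK : KcStmt) {f : ℝ → P → F} (h : Kc f) (ξ : E) :
    Kc (fun τ u => dW (f τ) u ξ) :=
  (hK.1 F f h).2.2 (fun u => W u ξ)
    (contDiff_W.comp_contDiffOn (contDiffOn_id.prodMk contDiffOn_const))

lemma kc_V (hK : KcStmt) {f : ℝ → P → F} (h : Kc f) : Kc (fun τ => V (f τ)) :=
  (hK.1 F f h).2.2 (fun u => W u u.1)
    (contDiff_W.comp_contDiffOn (contDiffOn_id.prodMk contDiffOn_fst))

lemma kc_c0 (hK : KcStmt) {f : ℝ → P → F} (h : Kc f) : C0 f := (hK.1 F f h).1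

lemma kc_sl (hK : KcStmt) {f : ℝ → P → F} (h : Kc f) {τ : ℝ} (hτ : 0 ≤ τ) :
    ContDiffOn ℝ ∞ (f τ) Ind := (hK.1 F f h).2.1 τ hτ

end kc

lemma pre (hK : KcStmt) {G₀ : P → E} {R : ℝ} {γ φ : ℝ → P → E} (h : MildSol G₀ R γ φ) :
    Pre G₀ γ where
  init := h.init
  slice := fun _ hτ => kc_sl hK h.kc hτ
  smp := h.smp
  odd := h.odd
  c0 := kc_c0 hK h.kc
  c1 := kc_c0 hK (kc_V hK h.kc)
  c2 := kc_c0 hK (kc_V hK (kc_V hK h.kc))
  c3 := fun ξ => kc_c0 hK (kc_dW hK h.kc ξ)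
  c4 := fun ξ => kc_c0 hK (kc_V hK (kc_dW hK h.kc ξ))
  c5 := kc_c0 hK (kc_V hK (kc_V hK (kc_V hK h.kc)))
  tsl := fun _ hτ => kc_sl hK (hK.2 γ h.kc h.smp).1 hτ
  tsm := (hK.2 γ h.kc h.smp).2
  tc := fun ξ => kc_c0 hK (kc_dW hK (hK.2 γ h.kc h.smp).1 ξ)

/-- Continuity along a fibre on a bounded time interval. -/
lemma fib_cont (hK : KcStmt) {f : ℝ → P → E} (h : Kc f) {u : P} (hu : u ∈ U) (T : ℝ) :
    ContinuousOn (fun a : ℝ × ℝ => f a.1 (rho a.2 u)) (Icc 0 T ×ˢ univ) :=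
  ((kc_c0 hK h).c0U.fibre hu).mono (prod_mono Icc_subset_Ici_self subset_rfl)

/-- The time derivative of the second fibre derivative. -/
lemma time_deriv (hD : DuhamelStmt) (hK : KcStmt) {G₀ : P → E} {R : ℝ} {γ φ : ℝ → P → E}
    (h : MildSol G₀ R γ φ) {τ : ℝ} (hτ : 0 < τ) {u : P} (hu : u ∈ U) (σ : ℝ) :
    HasDerivAt (fun t => V (V (γ t)) (rho σ u))
      (V (V (V (V (γ τ)))) (rho σ u) + V (φ τ) (rho σ u)) τ := by
  have k2 := kc_V hK (kc_V hK h.kc)
  have k3 := kc_V hK k2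
  have k4 := kc_V hK k3
  have l0 := h.kc'
  have l1 := kc_V hK l0
  have l2 := kc_V hK l1
  have l3 := kc_V hK l2
  set T := τ + 1 with hT
  obtain ⟨B1, b1⟩ := (kc_c0 hK k2).c0U.bdd T
  obtain ⟨B2, b2⟩ := (kc_c0 hK k3).c0U.bdd T
  obtain ⟨B3, b3⟩ := (kc_c0 hK k4).c0U.bdd T
  obtain ⟨B4, b4⟩ := (kc_c0 hK l0).c0U.bdd T
  obtain ⟨B5, b5⟩ := (kc_c0 hK l1).c0U.bdd T
  obtain ⟨B6, b6⟩ := (kc_c0 hK l2).c0U.bdd T
  obtain ⟨B7, b7⟩ := (kc_c0 hK l3).c0U.bdd T
  have key := hD T (|B1| + |B2| + |B3| + |B4| + |B5| + |B6| + |B7|)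
    (fun t s => V (V (γ t)) (rho s u)) (fun t s => V (V (V (γ t))) (rho s u))
    (fun t s => V (V (V (V (γ t)))) (rho s u)) (fun t s => φ t (rho s u))
    (fun t s => V (φ t) (rho s u)) (fun t s => V (V (φ t)) (rho s u))
    (fun t s => V (V (V (φ t))) (rho s u)) (by linarith) ?_ ?_ ?_
  · have hc : ContinuousOn (fun t => V (V (V (V (γ t)))) (rho σ u) + V (φ t) (rho σ u))
        (Icc 0 T) := by
      have m : MapsTo (fun t : ℝ => (t, σ)) (Icc 0 T) (Icc 0 T ×ˢ univ) :=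
        fun t ht => ⟨ht, trivial⟩
      have c : ContinuousOn (fun t : ℝ => (t, σ)) (Icc 0 T) := by fun_prop
      exact ((fib_cont hK k4 hu T).comp c m).add ((fib_cont hK l1 hu T).comp c m)
    have hmem : Icc 0 T ∈ 𝓝 τ := Icc_mem_nhds hτ (by linarith)
    have hi : IntervalIntegrable (fun t => V (V (V (V (γ t)))) (rho σ u) + V (φ t) (rho σ u))
        MeasureTheory.volume 0 τ :=
      (hc.mono (by rw [uIcc_of_le hτ.le]; exact Icc_subset_Icc_right (by linarith))).intervalIntegrable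
    have hm : StronglyMeasurableAtFilter
        (fun t => V (V (V (V (γ t)))) (rho σ u) + V (φ t) (rho σ u)) (𝓝 τ)
        MeasureTheory.volume :=
      ContinuousOn.stronglyMeasurableAtFilter isOpen_Ioo (hc.mono Ioo_subset_Icc_self) τ
        ⟨hτ, by linarith⟩
    have hd := (intervalIntegral.integral_hasDerivAt_right hi hm (hc.continuousAt hmem)).const_add
      (V (V (γ 0)) (rho σ u))
    refine hd.congr_of_eventuallyEq ?_
    filter_upwards [hmem] with t ht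
    exact key t ht σ
  · have a1 := abs_nonneg B1
    have a2 := abs_nonneg B2
    have a3 := abs_nonneg B3
    have a4 := abs_nonneg B4
    have a5 := abs_nonneg B5
    have a6 := abs_nonneg B6
    have a7 := abs_nonneg B7
    intro g hg
    simp only [List.mem_cons, List.not_mem_nil, or_false] at hg
    rcases hg with rfl | rfl | rfl | rfl | rfl | rfl | rfl
    · exact ⟨fib_cont hK k2 hu T, fun t ht s =>
        (b1 t ht _ (rho_mem_U hu s)).trans (by linarith [le_abs_self B1])⟩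
    · exact ⟨fib_cont hK k3 hu T, fun t ht s =>
        (b2 t ht _ (rho_mem_U hu s)).trans (by linarith [le_abs_self B2])⟩
    · exact ⟨fib_cont hK k4 hu T, fun t ht s =>
        (b3 t ht _ (rho_mem_U hu s)).trans (by linarith [le_abs_self B3])⟩
    · exact ⟨fib_cont hK l0 hu T, fun t ht s =>
        (b4 t ht _ (rho_mem_U hu s)).trans (by linarith [le_abs_self B4])⟩
    · exact ⟨fib_cont hK l1 hu T, fun t ht s =>
        (b5 t ht _ (rho_mem_U hu s)).trans (by linarith [le_abs_self B5])⟩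
    · exact ⟨fib_cont hK l2 hu T, fun t ht s =>
        (b6 t ht _ (rho_mem_U hu s)).trans (by linarith [le_abs_self B6])⟩
    · exact ⟨fib_cont hK l3 hu T, fun t ht s =>
        (b7 t ht _ (rho_mem_U hu s)).trans (by linarith [le_abs_self B7])⟩
  · intro t ht s
    exact ⟨hasDerivAt_V' (kc_sl hK k2 ht.1) hu s, hasDerivAt_V' (kc_sl hK k3 ht.1) hu s,
      hasDerivAt_V' (kc_sl hK l0 ht.1) hu s, hasDerivAt_V' (kc_sl hK l1 ht.1) hu s,
      hasDerivAt_V' (kc_sl hK l2 ht.1) hu s⟩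
  · intro t ht s
    exact h.mild t ht.1 u hu s

/-- The time derivative of a family that is smooth for positive time. -/
lemma dtime {γ : ℝ → P → E} (h : SmP γ) {τ : ℝ} (hτ : 0 < τ) :
    ∃ g : P → E, ContDiffOn ℝ ∞ g Ind ∧ ∀ w ∈ Ind, HasDerivAt (fun t => γ t w) (g w) τ := by
  have ho : IsOpen (Ioi (0 : ℝ) ×ˢ (Ind : Set P)) := isOpen_Ioi.prod isOpen_Ind
  refine ⟨fun w => fderiv ℝ (fun q : ℝ × P => γ q.1 q.2) (τ, w) (1, 0), ?_, ?_⟩
  · have h1 := contDiffOn_fderiv_apply ho h (A := fun _ => ((1, 0) : ℝ × P)) contDiffOn_const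
    exact h1.comp (f := fun w : P => (τ, w)) (by fun_prop) (fun w hw => ⟨hτ, hw⟩)
  · intro w hw
    have hm : (τ, w) ∈ Ioi (0 : ℝ) ×ˢ (Ind : Set P) := ⟨hτ, hw⟩
    have d : DifferentiableAt ℝ (fun q : ℝ × P => γ q.1 q.2) (τ, w) :=
      (ContDiffOn.contDiffAt h (ho.mem_nhds hm)).differentiableAt (by simp)
    have c : HasDerivAt (fun t : ℝ => (t, w)) ((1, 0) : ℝ × P) τ :=
      (hasDerivAt_id τ).prodMk (hasDerivAt_const τ w)
    exact d.hasFDerivAt.comp_hasDerivAt τ c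

/-- An antiperiodic function with derivative zero vanishes. -/
lemma zero_of_anti {e : ℝ → E} (hd : ∀ s, HasDerivAt e 0 s) (ha : e π = -e 0) (s : ℝ) :
    e s = 0 := by
  have hc : ∀ x y, e x = e y :=
    is_const_of_deriv_eq_zero (fun x => (hd x).differentiableAt) (fun x => (hd x).deriv)
  have h0 : e 0 = -e 0 := (hc 0 π).trans ha
  have h2 : (2 : ℝ) • e 0 = 0 := by rw [two_smul]; nth_rewrite 1 [h0]; simp
  rw [hc s 0]
  exact (smul_eq_zero.1 h2).resolve_left two_ne_zero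

/-- Fibre derivative of the right hand side. -/
lemma rhs_deriv (hM : MeanStmt) {G : P → E} (hG : ContDiffOn ℝ ∞ G Ind)
    (ho : ∀ u ∈ U, G (rev u) = -G u) {u : P} (hu : u ∈ U) :
    (∀ s, vsq G (rho s u) = vsq G u) ∧ RHS G (rev u) = -RHS G u ∧
    ∀ s, HasDerivAt (fun s => RHS G (rho s u)) (V (V (V G)) (rho s u) +
      ((vsq G (rho s u) + (‖V (V G) (rho s u)‖ ^ 2 - MM G (rho s u)) / vsq G (rho s u)) •
        V G (rho s u) + mu G (rho s u) • V (V G) (rho s u))) s := by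
  have s1 := contDiffOn_V hG
  have s2 := contDiffOn_V s1
  have o1 : ∀ w ∈ U, V G (rev w) = -V G w := fun w hw => V_odd hG ho hw
  have o2 : ∀ w ∈ U, V (V G) (rev w) = -V (V G) w := fun w hw => V_odd s1 o1 hw
  have m1 := (hM.1 (fun u => ‖V G u‖ ^ 2) (s1.norm_sq ℝ)).2.2.2
    (fun w hw => by simp only [o1 w hw, norm_neg])
  have M2 := hM.1 (fun u => ‖V (V G) u‖ ^ 2) (s2.norm_sq ℝ)
  have m2 := M2.2.2.2 (fun w hw => by simp only [o2 w hw, norm_neg])
  have hv : ∀ s, vsq G (rho s u) = vsq G u := (m1 u hu).1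
  have hv' : vsq G (rev u) = vsq G u := by rw [← rho_pi]; exact hv π
  refine ⟨hv, ?_, fun s => ?_⟩
  · have hk : mu G (rev u) = mu G u := by
      simp only [mu, hv', (m2 u hu).2.2.1]
    simp only [RHS, o2 u hu, hv', ho u hu, hk, o1 u hu]
    module
  · have d0 := hasDerivAt_V' hG hu s
    have d1 := hasDerivAt_V' s1 hu s
    have d2 := hasDerivAt_V' s2 hu s
    have dk := hasDerivAt_V' M2.2.1 hu s
    rw [(m2 _ (rho_mem_U hu s)).2.2.2.1] at dk
    have dm := dk.div_const (vsq G u)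
    have e : (fun s => RHS G (rho s u)) = fun s => V (V G) (rho s u) + vsq G u • G (rho s u)
        + (Kop (fun u => ‖V (V G) u‖ ^ 2) (rho s u) / vsq G u) • V G (rho s u) := by
      funext s
      simp only [RHS, mu, hv]
    rw [e]
    refine ((d2.add (d0.const_smul (vsq G u))).add (dm.smul d1)).congr_deriv ?_
    simp only [mu, MM, hv]
    module

end ExistB

open ExistB in
theorem existb_of (hD : DuhamelStmt) (hK : KcStmt) (hM : MeanStmt) (_hP : PIntStmt) :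
    ExistBStmt := by
  intro G₀ R γ φ h
  refine ⟨pre hK h, fun τ hτ u hu hR hv => ?_⟩
  obtain ⟨g, gs, gd⟩ := dtime h.smp hτ
  have ho : IsOpen (Ioi (0 : ℝ) ×ˢ (Ind : Set P)) := isOpen_Ioi.prod isOpen_Ind
  have sG := kc_sl hK h.kc hτ.le
  have sφ := kc_sl hK h.kc' hτ.le
  have s1 := contDiffOn_V sG
  have s2 := contDiffOn_V s1
  have s3 := contDiffOn_V s2
  have g1 := contDiffOn_V gs
  have t1 : ∀ w ∈ U, HasDerivAt (fun t => V (γ t) w) (V g w) τ := fun w hw =>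
    hasDerivAt_V_time hw (h.smp.contDiffAt (ho.mem_nhds ⟨hτ, U_sub_Ind hw⟩)) (diffAt_of_U gs hw)
      fun s => gd _ (U_sub_Ind (rho_mem_U hw s))
  have t2 : ∀ w ∈ U, HasDerivAt (fun t => V (V (γ t)) w) (V (V g) w) τ := fun w hw =>
    hasDerivAt_V_time (f := fun t => V (γ t)) hw
      (h.smp.V.contDiffAt (ho.mem_nhds ⟨hτ, U_sub_Ind hw⟩)) (diffAt_of_U g1 hw)
      fun s => t1 _ (rho_mem_U hw s)
  have e2 : ∀ s, V (V g) (rho s u) = V (V (V (V (γ τ)))) (rho s u) + V (φ τ) (rho s u) :=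
    fun s => (t2 _ (rho_mem_U hu s)).unique (time_deriv hD hK h hτ hu s)
  have go : ∀ w ∈ U, g (rev w) = -g w := by
    intro w hw
    refine (gd _ (U_sub_Ind (rev_mem_U hw))).unique
      ((gd _ (U_sub_Ind hw)).neg.congr_of_eventuallyEq ?_)
    filter_upwards [Ioi_mem_nhds hτ] with t ht
    exact h.odd t (le_of_lt ht) w hw
  have oG := h.odd τ hτ.le
  have o1 : ∀ w ∈ U, V (γ τ) (rev w) = -V (γ τ) w := fun w hw => V_odd sG oG hw
  have o2 : ∀ w ∈ U, V (V (γ τ)) (rev w) = -V (V (γ τ)) w := fun w hw => V_odd s1 o1 hw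
  have o3 : V (V (V (γ τ))) (rev u) = -V (V (V (γ τ))) u := V_odd s2 o2 hu
  obtain ⟨r1, r2, r3⟩ := rhs_deriv hM sG oG hu
  have z1 : ∀ s, V g (rho s u) - (V (V (V (γ τ))) (rho s u) + φ τ (rho s u)) = 0 := by
    refine zero_of_anti (e := fun s => V g (rho s u) - (V (V (V (γ τ))) (rho s u) + φ τ (rho s u)))
      (fun s => ?_) ?_
    · refine ((hasDerivAt_V' g1 hu s).sub ((hasDerivAt_V' s3 hu s).add
        (hasDerivAt_V' sφ hu s))).congr_deriv ?_
      rw [e2 s, sub_self]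
    · simp only [rho_pi, rho_zero, V_odd gs go hu, o3, h.odd' τ hτ.le u hu]
      module
  have z0 : ∀ s, g (rho s u) - RHS (γ τ) (rho s u) = 0 := by
    refine zero_of_anti (e := fun s => g (rho s u) - RHS (γ τ) (rho s u)) (fun s => ?_) ?_
    · refine ((hasDerivAt_V' gs hu s).sub (r3 s)).congr_deriv ?_
      rw [← z1 s, h.val τ hτ.le _ (rho_mem_U hu s) (fun s' => by rw [rho_add hu]; exact hR _)
        (by rw [r1]; exact hv)]
    · simp only [rho_pi, rho_zero, go u hu, r2]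
      module
  have z := z0 0
  rw [rho_zero, sub_eq_zero] at z
  have := gd u (U_sub_Ind hu)
  rw [z] at this
  exact this

end Pool.Agent.MP_2291e2_gt.Zl
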