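import Pool.Agent.MP_2291e2_gt.zl.Spec2

/-! A germ of a plane diffeomorphism with triangular positive derivative is isotopic to the
identity through compactly supported diffeomorphisms. -/

open scoped ContDiff RealInnerProductSpace Topology
open Set Filter Real

namespace Pool.Agent.MP_2291e2_gt.Zl

namespace Germ

lemma st_bound : ∃ c : ℝ, 0 < c ∧ ∀ x, |deriv smoothTransition x| ≤ c := by
  have hc : Continuous (deriv smoothTransition) :=
    (smoothTransition.contDiff (n := 1)).continuous_deriv le_rfl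
  obtain ⟨C, hC⟩ := (isCompact_Icc (a := (0 : ℝ)) (b := 1)).exists_bound_of_continuousOn
    hc.continuousOn
  refine ⟨|C| + 1, by positivity, fun x => ?_⟩
  have h0 : (0 : ℝ) ≤ |C| + 1 := by positivity
  rcases lt_or_ge x 0 with h | h
  · have : smoothTransition =ᶠ[𝓝 x] fun _ => 0 := by
      filter_upwards [Iio_mem_nhds h] with y hy
      exact smoothTransition.zero_of_nonpos (le_of_lt hy)
    rw [this.deriv_eq]; simpa using h0
  rcases lt_or_ge 1 x with h' | h'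
  · have : smoothTransition =ᶠ[𝓝 x] fun _ => 1 := by
      filter_upwards [Ioi_mem_nhds h'] with y hy
      exact smoothTransition.one_of_one_le (le_of_lt hy)
    rw [this.deriv_eq]; simpa using h0
  have := hC x ⟨h, h'⟩
  rw [Real.norm_eq_abs] at this
  linarith [le_abs_self C]

/-- A logarithmic cut-off function. -/
lemma cutoff {ε κ : ℝ} (hε : 0 < ε) (hκ : 0 < κ) :
    ∃ χ : ℂ → ℝ, ContDiff ℝ ∞ χ ∧ (∀ z, 0 ≤ χ z ∧ χ z ≤ 1) ∧ (∀ z, ε ≤ ‖z‖ → χ z = 0) ∧
      (∀ᶠ z in 𝓝 (0 : ℂ), χ z = 1) ∧ ∀ z δ, ‖z‖ * |fderiv ℝ χ z δ| ≤ κ * ‖δ‖ := by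
  obtain ⟨c, hc, hd⟩ := st_bound
  set L := 2 * c / κ with hL
  have hL0 : 0 < L := by positivity
  set η := ε ^ 2 * exp (-L) / 2 with hη
  have hη0 : 0 < η := by positivity
  have hp : ∀ z : ℂ, 0 < η + ‖z‖ ^ 2 := fun z => by positivity
  have hq : ContDiff ℝ ∞ fun z : ℂ => η + ‖z‖ ^ 2 := contDiff_const.add (contDiff_norm_sq ℝ)
  have ha : ContDiff ℝ ∞ fun z : ℂ => (log (ε ^ 2) - log (η + ‖z‖ ^ 2)) / L :=
    (contDiff_const.sub (hq.log fun z => (hp z).ne')).div_const L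
  refine ⟨fun z => smoothTransition ((log (ε ^ 2) - log (η + ‖z‖ ^ 2)) / L),
    smoothTransition.contDiff.comp ha,
    fun z => ⟨smoothTransition.nonneg _, smoothTransition.le_one _⟩, fun z hz => ?_, ?_,
    fun z δ => ?_⟩
  · refine smoothTransition.zero_of_nonpos (div_nonpos_of_nonpos_of_nonneg ?_ hL0.le)
    have h1 : ε ^ 2 ≤ η + ‖z‖ ^ 2 := by nlinarith
    have := log_le_log (by positivity) h1
    linarith
  · have h1 : ∀ᶠ z in 𝓝 (0 : ℂ), ‖z‖ ^ 2 < η :=
      (continuous_norm.pow 2).continuousAt.eventually_lt continuousAt_const (by simpa using hη0)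
    filter_upwards [h1] with z hz
    refine smoothTransition.one_of_one_le ((one_le_div hL0).2 ?_)
    have h2 : η + ‖z‖ ^ 2 ≤ ε ^ 2 * exp (-L) := by linarith
    have h3 := log_le_log (hp z) h2
    rw [log_mul (by positivity) (exp_pos _).ne', log_exp] at h3
    linarith
  · have k1 : HasFDerivAt (fun z : ℂ => η + ‖z‖ ^ 2) _ z :=
      ((hasFDerivAt_id z).norm_sq).const_add η
    have k2 := ((k1.log (hp z).ne').const_sub (log (ε ^ 2))).mul_const L⁻¹
    have k3 := (((smoothTransition.contDiff (n := 1)).differentiable (by simp)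
      ((log (ε ^ 2) - log (η + ‖z‖ ^ 2)) * L⁻¹)).hasDerivAt).comp_hasFDerivAt z k2
    have k4 : HasFDerivAt
        (fun z : ℂ => smoothTransition ((log (ε ^ 2) - log (η + ‖z‖ ^ 2)) / L)) _ z := k3
    rw [k4.fderiv]
    have h5 := hd ((log (ε ^ 2) - log (η + ‖z‖ ^ 2)) * L⁻¹)
    generalize deriv smoothTransition ((log (ε ^ 2) - log (η + ‖z‖ ^ 2)) * L⁻¹) = s at h5
    have h6 : |⟪z, δ⟫| ≤ ‖z‖ * ‖δ‖ := abs_real_inner_le_norm z δ
    simp only [smul_apply, neg_apply, smul_eq_mul, ContinuousLinearMap.comp_apply, id,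
      ContinuousLinearMap.id_apply, innerSL_apply_apply, nsmul_eq_mul, Nat.cast_ofNat]
    rw [abs_mul, abs_mul, abs_neg, abs_mul, abs_mul, abs_of_pos (inv_pos.2 hL0),
      abs_of_pos (inv_pos.2 (hp z)), abs_two]
    have h7 : ‖z‖ * ((η + ‖z‖ ^ 2)⁻¹ * |⟪z, δ⟫|) ≤ ‖δ‖ := by
      rw [mul_left_comm, inv_mul_le_iff₀ (hp z)]
      have := mul_le_mul_of_nonneg_left h6 (norm_nonneg z)
      nlinarith [norm_nonneg δ]
    have h8 : L⁻¹ * (2 * c) = κ := by rw [hL]; field_simp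
    have h9 : 0 ≤ ‖z‖ * ((η + ‖z‖ ^ 2)⁻¹ * |⟪z, δ⟫|) := by have := hp z; positivity
    calc _ = L⁻¹ * 2 * (|s| * (‖z‖ * ((η + ‖z‖ ^ 2)⁻¹ * |⟪z, δ⟫|))) := by ring
      _ ≤ L⁻¹ * 2 * (c * ‖δ‖) := by gcongr
      _ = κ * ‖δ‖ := by rw [← h8]; ring

/-- Convex combinations of the identity and a triangular positive map are uniformly
invertible. -/
lemma lower (M : ℂ →L[ℝ] ℂ) (h1 : (M 1).im = 0) (h2 : 0 < (M 1).re) (h3 : 0 < (M Complex.I).im) :
    ∃ K > 0, ∀ μ ∈ Icc (0 : ℝ) 1, ∀ δ : ℂ, ‖δ‖ ≤ K * ‖δ + μ • (M δ - δ)‖ := by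
  set a := (M 1).re
  set b := (M Complex.I).re
  set c := (M Complex.I).im
  set p := min 1 a
  set q := min 1 c
  have hp : 0 < p := lt_min one_pos h2
  have hq : 0 < q := lt_min one_pos h3
  refine ⟨(1 + |b| / q) / p + 1 / q, by positivity, fun μ hμ δ => ?_⟩
  have e : M δ = δ.re • M 1 + δ.im • M Complex.I := by
    rw [← map_smul, ← map_smul, ← map_add]
    congr 1
    apply Complex.ext <;> simp
  set T := δ + μ • (M δ - δ) with hT
  have t1 : T.re = (1 - μ + μ * a) * δ.re + μ * b * δ.im := by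
    rw [hT, e]; simp [a, b]; ring
  have t2 : T.im = (1 - μ + μ * c) * δ.im := by
    rw [hT, e]; simp [c, h1]; ring
  have a1 : p ≤ 1 - μ + μ * a := by
    have := min_le_left 1 a
    have := min_le_right 1 a
    nlinarith [hμ.1, hμ.2]
  have a2 : q ≤ 1 - μ + μ * c := by
    have := min_le_left 1 c
    have := min_le_right 1 c
    nlinarith [hμ.1, hμ.2]
  have b2 : |δ.im| ≤ ‖T‖ / q := by
    rw [le_div_iff₀ hq]
    have := Complex.abs_im_le_norm T
    rw [t2, abs_mul, abs_of_pos (hq.trans_le a2)] at this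
    nlinarith [abs_nonneg δ.im]
  have b1 : |δ.re| ≤ (‖T‖ + |b| * (‖T‖ / q)) / p := by
    rw [le_div_iff₀ hp]
    have h4 := Complex.abs_re_le_norm T
    have h5 : |(1 - μ + μ * a) * δ.re| ≤ |T.re| + |μ * b * δ.im| := by
      rw [show (1 - μ + μ * a) * δ.re = T.re - μ * b * δ.im by rw [t1]; ring]
      exact abs_sub _ _
    rw [abs_mul, abs_of_pos (hp.trans_le a1), abs_mul, abs_mul, abs_of_nonneg hμ.1] at h5
    have h6 : μ * |b| * |δ.im| ≤ |b| * (‖T‖ / q) := by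
      calc μ * |b| * |δ.im| ≤ 1 * |b| * (‖T‖ / q) := by gcongr; exact hμ.2
        _ = _ := by ring
    nlinarith [abs_nonneg δ.re]
  calc ‖δ‖ ≤ |δ.re| + |δ.im| := Complex.norm_le_abs_re_add_abs_im δ
    _ ≤ (‖T‖ + |b| * (‖T‖ / q)) / p + ‖T‖ / q := add_le_add b1 b2
    _ = _ := by ring

end Germ

theorem germ_of : GermStmt := by
  intro h r hr hh h0 h1 h2 h3
  set M := fderiv ℝ h 0 with hM
  obtain ⟨K, hK, hlow⟩ := Germ.lower M h1 h2 h3
  have hat : ∀ z ∈ Metric.ball (0 : ℂ) r, ContDiffAt ℝ ∞ h z := fun z hz =>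
    hh.contDiffAt (Metric.isOpen_ball.mem_nhds hz)
  have hc0 : ContinuousAt (fderiv ℝ h) 0 :=
    (hat 0 (Metric.mem_ball_self hr)).continuousAt_fderiv (by simp)
  obtain ⟨ε₀, hε₀, hnear⟩ := Metric.continuousAt_iff.1 hc0 (4 * K)⁻¹ (by positivity)
  set ε := min ε₀ r / 2 with hε
  have hε0 : 0 < ε := by positivity
  have hεr : ε < r := by have := min_le_right ε₀ r; linarith
  have hε1 : ε < ε₀ := by have := min_le_left ε₀ r; linarith
  set C := ‖M‖ + (4 * K)⁻¹ + 1 with hC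
  have hC0 : 0 < C := by positivity
  have hball : ∀ z : ℂ, ‖z‖ ≤ ε → z ∈ Metric.ball (0 : ℂ) r := fun z hz => by
    simpa using hz.trans_lt hεr
  have hD : ∀ z : ℂ, ‖z‖ ≤ ε → ‖fderiv ℝ h z - M‖ ≤ (4 * K)⁻¹ := fun z hz => by
    have := hnear (x := z) (by simpa using hz.trans_lt hε1)
    rw [dist_eq_norm] at this
    exact this.le
  have hlip : ∀ z : ℂ, ‖z‖ ≤ ε → ‖h z - z‖ ≤ C * ‖z‖ := by
    intro z hz
    have h4 : ‖h z - h 0‖ ≤ (‖M‖ + (4 * K)⁻¹) * ‖z - 0‖ := by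
      refine (convex_closedBall (0 : ℂ) ε).norm_image_sub_le_of_norm_fderiv_le (𝕜 := ℝ)
        (fun x hx => (hat x (hball x (by simpa using hx))).differentiableAt (by simp))
        (fun x hx => ?_) (Metric.mem_closedBall_self hε0.le) (by simpa using hz)
      have h5 := hD x (by simpa using hx)
      calc ‖fderiv ℝ h x‖ = ‖M + (fderiv ℝ h x - M)‖ := by congr 1; abel
        _ ≤ _ := (norm_add_le _ _).trans (by gcongr)
    rw [h0, sub_zero, sub_zero] at h4
    calc ‖h z - z‖ ≤ ‖h z‖ + ‖z‖ := norm_sub_le _ _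
      _ ≤ _ := by rw [hC]; linarith
  obtain ⟨χ, hχ, hχ01, hχ0, hχ1, hχd⟩ := Germ.cutoff hε0 (κ := (4 * K * C)⁻¹) (by positivity)
  have hfar : ∀ z : ℂ, ε < ‖z‖ → (fun z => χ z • (h z - z)) =ᶠ[𝓝 z] fun _ => 0 := by
    intro z hz
    filter_upwards [continuousAt_const.eventually_lt continuous_norm.continuousAt hz] with y hy
    rw [hχ0 y hy.le, zero_smul]
  have hv : ContDiff ℝ ∞ fun z => χ z • (h z - z) := by
    rw [contDiff_iff_contDiffAt]
    intro z
    rcases le_or_gt ‖z‖ ε with hz | hz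
    · exact hχ.contDiffAt.smul ((hat z (hball z hz)).sub contDiffAt_id)
    · exact contDiffAt_const.congr_of_eventuallyEq (hfar z hz)
  refine ⟨fun s z => z + smoothTransition s • (χ z • (h z - z)), ⟨?_, ⟨ε, fun s z hz => ?_⟩,
    fun s z δ hδ => ?_⟩, fun z => by simp, ?_⟩
  · exact contDiff_snd.add ((smoothTransition.contDiff.comp contDiff_fst).smul
      (hv.comp contDiff_snd))
  · simp only [hχ0 z hz, zero_smul, smul_zero, add_zero]
  · have k1 : HasFDerivAt (fun z => z + smoothTransition s • (χ z • (h z - z))) _ z :=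
      (hasFDerivAt_id z).add
        ((hv.differentiable (by simp) z).hasFDerivAt.const_smul (smoothTransition s))
    rw [k1.fderiv] at hδ
    have e1 : δ + smoothTransition s • fderiv ℝ (fun z => χ z • (h z - z)) z δ = 0 := hδ
    rcases le_or_gt ‖z‖ ε with hz | hz
    swap
    · rw [(hfar z hz).fderiv_eq] at e1
      simpa using e1
    have dh := ((hat z (hball z hz)).differentiableAt (by simp)).hasFDerivAt
    have k2 : HasFDerivAt (fun z => χ z • (h z - z)) _ z :=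
      (hχ.differentiable (by simp) z).hasFDerivAt.smul (dh.sub (hasFDerivAt_id z))
    rw [k2.fderiv] at e1
    have e2 : δ + smoothTransition s • (χ z • (fderiv ℝ h z δ - δ) +
        fderiv ℝ χ z δ • (h z - z)) = 0 := e1
    have l0 := smoothTransition.nonneg s
    have l1 := smoothTransition.le_one s
    generalize smoothTransition s = l at e2 l0 l1
    obtain ⟨c0, c1⟩ := hχ01 z
    have hμ : l * χ z ∈ Icc (0 : ℝ) 1 := ⟨by positivity, by nlinarith⟩
    have e3 : δ + (l * χ z) • (M δ - δ) =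
        -((l * χ z) • (fderiv ℝ h z - M) δ + (l * fderiv ℝ χ z δ) • (h z - z)) := by
      rw [eq_neg_iff_add_eq_zero, ← e2, ContinuousLinearMap.sub_apply]
      module
    have n1 : ‖(l * χ z) • (fderiv ℝ h z - M) δ‖ ≤ (4 * K)⁻¹ * ‖δ‖ := by
      rw [norm_smul, Real.norm_of_nonneg hμ.1]
      calc l * χ z * ‖(fderiv ℝ h z - M) δ‖ ≤ 1 * (‖fderiv ℝ h z - M‖ * ‖δ‖) := by
            gcongr
            · exact hμ.2
            · exact ContinuousLinearMap.le_opNorm _ _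
        _ ≤ (4 * K)⁻¹ * ‖δ‖ := by rw [one_mul]; gcongr; exact hD z hz
    have n2 : ‖(l * fderiv ℝ χ z δ) • (h z - z)‖ ≤ (4 * K)⁻¹ * ‖δ‖ := by
      rw [norm_smul, Real.norm_eq_abs, abs_mul, abs_of_nonneg l0]
      calc l * |fderiv ℝ χ z δ| * ‖h z - z‖ ≤ 1 * |fderiv ℝ χ z δ| * (C * ‖z‖) := by
            gcongr; exact hlip z hz
        _ = C * (‖z‖ * |fderiv ℝ χ z δ|) := by ring
        _ ≤ C * ((4 * K * C)⁻¹ * ‖δ‖) := mul_le_mul_of_nonneg_left (hχd z δ) hC0.le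
        _ = (4 * K)⁻¹ * ‖δ‖ := by field_simp
    have n3 := hlow _ hμ δ
    rw [e3, norm_neg] at n3
    have n4 : ‖δ‖ ≤ K * ((4 * K)⁻¹ * ‖δ‖ + (4 * K)⁻¹ * ‖δ‖) :=
      n3.trans (by gcongr; exact (norm_add_le _ _).trans (add_le_add n1 n2))
    have n5 : K * ((4 * K)⁻¹ * ‖δ‖ + (4 * K)⁻¹ * ‖δ‖) = ‖δ‖ / 2 := by field_simp; ring
    rw [n5] at n4
    exact norm_le_zero_iff.1 (by linarith)
  · filter_upwards [hχ1] with z hz
    simp [hz]

end Pool.Agent.MP_2291e2_gt.Zl
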