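import Mathlib.Topology.Sheaves.Presheaf
import Mathlib.Topology.Algebra.Module.Cardinality
import Mathlib.Analysis.SpecialFunctions.Complex.Circle
import Mathlib.Topology.Compactness.CompactlyGeneratedSpace
import Mathlib.Analysis.SpecialFunctions.Gaussian.GaussianIntegral
import Mathlib.RingTheory.PiTensorProduct
import Mathlib.Topology.ContinuousMap.SecondCountableSpace
import Mathlib.Topology.Metrizable.ContinuousMap
import Mathlib.Topology.UniformSpace.Uniformizable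
import Pool.Agent.MP_2291e2_gt.zl.Spec2
import Pool.Agent.MP_2291e2_gt.zl.Spec

-- ======== part 0: formerly Pool.Agent.MP_2291e2_gt.zl.Cross2
section MrgPart0

/-! The involution of the strip given by the first return to the reference geodesic. -/

open scoped ContDiff RealInnerProductSpace Topology
open Set Filter Real

namespace Pool.Agent.MP_2291e2_gt.Zl

namespace Cross2

/-- Smooth angle of a smooth map of the plane to the unit circle. -/
lemma lift_angle (hL : LiftStmt) {ζ : ℝ × ℝ → ℂ} (hζ : ContDiff ℝ ∞ ζ)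
    (h1 : ∀ z, ∃ s : ℝ, ζ z = Complex.exp (s * Complex.I)) (z₀ : ℝ × ℝ) {θ₀ : ℝ}
    (h0 : ζ z₀ = Complex.exp (θ₀ * Complex.I)) :
    ∃ θ : ℝ × ℝ → ℝ, ContDiff ℝ ∞ θ ∧ θ z₀ = θ₀ ∧
      ∀ z (s : ℝ), ζ z = Complex.exp (s * Complex.I) → ∃ n : ℤ, θ z = s + n * (2 * π) := by
  have hn : ∀ z, ‖ζ z‖ = 1 := fun z => by
    obtain ⟨s, hs⟩ := h1 z
    rw [hs, Complex.norm_exp_ofReal_mul_I]
  obtain ⟨θ, hθ, e0, e⟩ := hL (ℝ × ℝ) univ ζ z₀ θ₀ isOpen_univ convex_univ hζ.contDiffOn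
    (fun z _ h => by have := hn z; rw [h] at this; simp at this) (mem_univ _)
    (by rw [hn, h0]; simp)
  refine ⟨θ, contDiffOn_univ.1 hθ, e0, fun z s hs => ?_⟩
  have e1 := e z (mem_univ _)
  rw [hn, hs] at e1
  simp only [Complex.ofReal_one, one_mul] at e1
  obtain ⟨n, hn'⟩ := Complex.exp_eq_exp_iff_exists_int.1 e1.symm
  refine ⟨n, ?_⟩
  have := congrArg Complex.im hn'
  simpa using this

lemma dense_sin : Dense {z : ℝ × ℝ | sin z.2 ≠ 0} := by
  have h : ({β : ℝ | sin β = 0}).Countable := by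
    refine (Set.countable_range (fun n : ℤ => (n : ℝ) * π)).mono ?_
    intro β hβ
    exact Real.sin_eq_zero_iff.1 hβ
  have := (dense_univ (X := ℝ)).prod (h.dense_compl ℝ)
  refine this.mono ?_
  intro z hz
  exact hz.2

lemma eq_of_dense {f g : ℝ × ℝ → ℝ} (hf : Continuous f) (hg : Continuous g)
    (h : ∀ z : ℝ × ℝ, sin z.2 ≠ 0 → f z = g z) (z : ℝ × ℝ) : f z = g z :=
  congrFun (Continuous.ext_on dense_sin hf hg h) z

/-- A continuous function with values in `2 π ℤ` that vanishes at one point vanishes. -/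
lemma zero_of_int {X : Type*} [TopologicalSpace X] [PreconnectedSpace X] {f : X → ℝ}
    (hf : Continuous f) (h : ∀ x, ∃ n : ℤ, f x = n * (2 * π)) {x₀ : X} (h0 : f x₀ = 0) (x : X) :
    f x = 0 := by
  rw [← h0]
  exact const_of_int isPreconnected_univ hf.continuousOn Real.two_pi_pos (fun x _ => h x) x
    (mem_univ _) x₀ (mem_univ _)

section flow

variable {φ : ℝ → P → P} {a b : P → ℝ} {T : ℝ} {u₀ : P}

lemma periodic (hZ : ZFlow φ a b T) {u : P} (hu : u ∈ U) :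
    Function.Periodic (fun t => φ t u) T := fun t => by
  simp only [hZ.add, hZ.per u hu]

lemma per_add (hZ : ZFlow φ a b T) {u : P} (hu : u ∈ U) (t : ℝ) : φ (t + T) u = φ t u :=
  periodic hZ hu t

lemma per_int (hZ : ZFlow φ a b T) {u : P} (hu : u ∈ U) (t : ℝ) (n : ℤ) :
    φ (t + n * T) u = φ t u := (periodic hZ hu).int_mul n t

/-- Uniqueness of the parameter in a window of length `T`. -/
lemma uniq (hZ : ZFlow φ a b T) {u : P} (hu : u ∈ U) {x s t : ℝ} (hs : s ∈ Ico x (x + T))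
    (ht : t ∈ Ico x (x + T)) (e : (φ s u).1 = (φ t u).1) : s = t := by
  have h := hZ.inj (φ x u) (hZ.maps x u hu) (x₁ := s - x) (x₂ := t - x)
    ⟨by linarith [hs.1], by linarith [hs.2]⟩ ⟨by linarith [ht.1], by linarith [ht.2]⟩
    (by simp only [← hZ.add, sub_add_cancel]; exact e)
  linarith

lemma Ax_mem (hZ : ZFlow φ a b T) (hu : u₀ ∈ U) (z : ℝ × ℝ) : Ax φ u₀ z ∈ U :=
  rho_mem_U (hZ.maps _ _ hu) _

lemma contDiff_orbit (hZ : ZFlow φ a b T) (u : P) : ContDiff ℝ ∞ (fun t => φ t u) :=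
  hZ.smooth.comp (contDiff_id.prodMk contDiff_const)

lemma contDiff_Ax (hZ : ZFlow φ a b T) : ContDiff ℝ ∞ (Ax φ u₀) :=
  contDiff_rho.comp (contDiff_snd.prodMk ((contDiff_orbit hZ u₀).comp contDiff_fst))

lemma Ax_fst (z : ℝ × ℝ) : (Ax φ u₀ z).1 = (φ z.1 u₀).1 := rfl

variable {T1 : ℝ × ℝ → ℝ}

/-- The vector at the first crossing. -/
noncomputable def Q (φ : ℝ → P → P) (u₀ : P) (T1 : ℝ × ℝ → ℝ) (z : ℝ × ℝ) : P :=
  φ (T1 z) (Ax φ u₀ z)

lemma Q_mem (hZ : ZFlow φ a b T) (hu : u₀ ∈ U) (z : ℝ × ℝ) : Q φ u₀ T1 z ∈ U :=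
  hZ.maps _ _ (Ax_mem hZ hu z)

lemma contDiff_Q (hZ : ZFlow φ a b T) (hC : Cross1 φ a b T u₀ T1) : ContDiff ℝ ∞ (Q φ u₀ T1) :=
  hZ.smooth.comp (hC.smooth.prodMk (contDiff_Ax hZ))

lemma Q_ne (hZ : ZFlow φ a b T) (hu : u₀ ∈ U) (hC : Cross1 φ a b T u₀ T1) (z : ℝ × ℝ) :
    (Q φ u₀ T1 z).1 ≠ (φ z.1 u₀).1 := by
  intro e
  have h := hZ.inj _ (Ax_mem hZ hu z) (x₁ := T1 z) (x₂ := 0) ⟨(hC.mem z).1.le, (hC.mem z).2⟩
    ⟨le_rfl, hZ.Tpos⟩ (by simp only [hZ.zero]; exact e)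
  exact (hC.mem z).1.ne' h

lemma exists_xp (hL : LiftStmt) (hZ : ZFlow φ a b T) (hu : u₀ ∈ U) {N : Set E} {f : E → ℝ}
    (hF : Fermi φ T u₀ N f) (hC : Cross1 φ a b T u₀ T1) :
    ∃ xp : ℝ × ℝ → ℝ, ContDiff ℝ ∞ xp ∧ (∀ z, xp z ∈ Ioo z.1 (z.1 + T)) ∧
      ∀ z, (φ (xp z) u₀).1 = (Q φ u₀ T1 z).1 := by
  have hT := hZ.Tpos
  have hk : ∀ x : ℝ, 2 * π / T * (x + T) = 2 * π / T * x + 2 * π := fun x => by field_simp
  obtain ⟨Jc, hJc, eJc⟩ := hF.ext (fun x => cos (2 * π / T * x)) (by fun_prop)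
    (fun x => by simp only [hk, cos_add_two_pi])
  obtain ⟨Js, hJs, eJs⟩ := hF.ext (fun x => sin (2 * π / T * x)) (by fun_prop)
    (fun x => by simp only [hk, sin_add_two_pi])
  let ζ : ℝ × ℝ → ℂ := fun z =>
    Complex.ofRealCLM (Jc (Q φ u₀ T1 z).1) + Complex.ofRealCLM (Js (Q φ u₀ T1 z).1) * Complex.I
  have hQ : ContDiff ℝ ∞ (fun z => (Q φ u₀ T1 z).1) := (contDiff_Q hZ hC).fst
  have hζ : ContDiff ℝ ∞ ζ :=
    (Complex.ofRealCLM.contDiff.comp (hJc.comp hQ)).add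
      ((Complex.ofRealCLM.contDiff.comp (hJs.comp hQ)).mul contDiff_const)
  have key : ∀ z (x : ℝ), (φ x u₀).1 = (Q φ u₀ T1 z).1 →
      ζ z = Complex.exp (((2 * π / T * x : ℝ) : ℂ) * Complex.I) := by
    intro z x e
    simp only [ζ, ← e, eJc, eJs, Complex.ofRealCLM_apply]
    rw [Complex.exp_mul_I, Complex.ofReal_cos, Complex.ofReal_sin]
  have h00 : (φ (T1 (0, 0)) u₀).1 = (Q φ u₀ T1 (0, 0)).1 := by simp [Q, Ax, hZ.zero]
  obtain ⟨θ, hθ, e0, e⟩ := lift_angle hL hζ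
    (fun z => by obtain ⟨x, hx⟩ := hC.cross z; exact ⟨_, key z x hx⟩) (0, 0) (key _ _ h00)
  have hbase : ∀ z, (φ (T / (2 * π) * θ z) u₀).1 = (Q φ u₀ T1 z).1 := by
    intro z
    obtain ⟨x, hx⟩ := hC.cross z
    obtain ⟨n, hn⟩ := e z _ (key z x hx)
    have : T / (2 * π) * θ z = x + n * T := by rw [hn]; field_simp
    rw [this, per_int hZ hu]; exact hx
  have hv0 : T / (2 * π) * θ (0, 0) = T1 (0, 0) := by rw [e0]; field_simp
  have hc : Continuous fun z : ℝ × ℝ => T / (2 * π) * θ z := continuous_const.mul hθ.continuous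
  refine ⟨fun z => T / (2 * π) * θ z, contDiff_const.mul hθ, fun z => ⟨?_, ?_⟩, hbase⟩
  · rcases sign_const (f := fun z : ℝ × ℝ => T / (2 * π) * θ z - z.1) isPreconnected_univ
      (hc.sub continuous_fst).continuousOn (fun z _ h => Q_ne hZ hu hC z (by
        rw [← hbase, sub_eq_zero.1 h])) with h | h
    · have := h z (mem_univ _); simp only at this ⊢; linarith
    · have := h (0, 0) (mem_univ _); simp only [hv0] at this; linarith [(hC.mem (0, 0)).1]
  · rcases sign_const (f := fun z : ℝ × ℝ => T / (2 * π) * θ z - (z.1 + T)) isPreconnected_univ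
      (hc.sub (continuous_fst.add continuous_const)).continuousOn
      (fun z _ h => Q_ne hZ hu hC z (by
        rw [← hbase, sub_eq_zero.1 h]; exact congrArg Prod.fst (periodic hZ hu z.1))) with h | h
    · have := h (0, 0) (mem_univ _); simp only [hv0] at this; linarith [(hC.mem (0, 0)).2]
    · have := h z (mem_univ _); simp only at this ⊢; linarith

/-- The angle of a vector of the fibre as a point of the unit circle. -/
lemma ang_rho {u : P} (hu : u ∈ U) (s : ℝ) :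
    Complex.ofRealCLM ⟪(rho s u).2, u.2⟫ + Complex.ofRealCLM ⟪(rho s u).2, cr u.1 u.2⟫ * Complex.I
      = Complex.exp (s * Complex.I) := by
  simp only [rho_snd, inner_add_left, inner_smul_left, inner_self_U2 hu, cr_inner_right,
    inner_cr_right, real_inner_self_eq_norm_sq, norm_cr_U hu, conj_trivial,
    Complex.ofRealCLM_apply]
  rw [Complex.exp_mul_I]
  simp

lemma exists_bp (hL : LiftStmt) (hZ : ZFlow φ a b T) (hu : u₀ ∈ U) (hC : Cross1 φ a b T u₀ T1)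
    {xp : ℝ × ℝ → ℝ} (hx : ContDiff ℝ ∞ xp) (hm : ∀ z, xp z ∈ Ioo z.1 (z.1 + T))
    (hb : ∀ z, (φ (xp z) u₀).1 = (Q φ u₀ T1 z).1) :
    ∃ bp : ℝ × ℝ → ℝ, ContDiff ℝ ∞ bp ∧ bp (0, 0) = π ∧
      ∀ z, rev (Q φ u₀ T1 z) = Ax φ u₀ (xp z, bp z) := by
  have hR : ContDiff ℝ ∞ (fun z => rev (Q φ u₀ T1 z)) := contDiff_rev.comp (contDiff_Q hZ hC)
  have hO : ContDiff ℝ ∞ (fun z => φ (xp z) u₀) := (contDiff_orbit hZ u₀).comp hx
  let ζ : ℝ × ℝ → ℂ := fun z =>
    Complex.ofRealCLM ⟪(rev (Q φ u₀ T1 z)).2, (φ (xp z) u₀).2⟫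
      + Complex.ofRealCLM ⟪(rev (Q φ u₀ T1 z)).2, cr (φ (xp z) u₀).1 (φ (xp z) u₀).2⟫ * Complex.I
  have hζ : ContDiff ℝ ∞ ζ :=
    (Complex.ofRealCLM.contDiff.comp (hR.snd.inner ℝ hO.snd)).add
      ((Complex.ofRealCLM.contDiff.comp (hR.snd.inner ℝ (ContDiff.cr' hO.fst hO.snd))).mul
        contDiff_const)
  have key : ∀ z (s : ℝ), rev (Q φ u₀ T1 z) = rho s (φ (xp z) u₀) →
      ζ z = Complex.exp (s * Complex.I) := by
    intro z s e
    simp only [ζ, e]
    exact ang_rho (hZ.maps _ _ hu) s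
  have ex : ∀ z, ∃ s, rev (Q φ u₀ T1 z) = rho s (φ (xp z) u₀) := fun z => by
    obtain ⟨s, -, hs⟩ := exists_rho (hZ.maps (xp z) _ hu) (rev_mem_U (Q_mem (T1 := T1) hZ hu z))
      (hb z).symm
    exact ⟨s, hs⟩
  have q0 : Q φ u₀ T1 (0, 0) = φ (T1 (0, 0)) u₀ := by simp [Q, Ax, hZ.zero]
  have x0 : xp (0, 0) = T1 (0, 0) :=
    uniq hZ hu (x := 0) ⟨(hm (0, 0)).1.le, (hm (0, 0)).2⟩
      ⟨(hC.mem _).1.le, by simpa using (hC.mem _).2⟩ (by rw [hb, q0])
  obtain ⟨θ, hθ, e0, e⟩ := lift_angle hL hζ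
    (fun z => by obtain ⟨s, hs⟩ := ex z; exact ⟨s, key z s hs⟩) (0, 0)
    (key (0, 0) π (by rw [rho_pi, q0, x0]))
  refine ⟨θ, hθ, e0, fun z => ?_⟩
  obtain ⟨s, hs⟩ := ex z
  obtain ⟨n, hn⟩ := e z s (key z s hs)
  rw [hs]
  exact ((rho_eq_iff (hZ.maps _ _ hu)).2 ⟨n, hn⟩).symm

/-- The crossing time only depends on the vector. -/
lemma T1_congr (hC : Cross1 φ a b T u₀ T1) {A : ℝ × ℝ → ℝ × ℝ} (hA : Continuous A)
    (e : ∀ z, Ax φ u₀ (A z) = Ax φ u₀ z) (z : ℝ × ℝ) : T1 (A z) = T1 z :=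
  eq_of_dense (f := fun z => T1 (A z)) (hC.smooth.continuous.comp hA) hC.smooth.continuous
    (fun z hz => hC.only z hz _ (hC.mem _) (by rw [← e]; exact hC.cross _)) z

/-- A vector tangent to the reference geodesic stays over it. -/
lemma stays (hZ : ZFlow φ a b T) (hu : u₀ ∈ U) {z : ℝ × ℝ} (hz : sin z.2 = 0) (t : ℝ) :
    (φ t (Ax φ u₀ z)).1 ∈ c0 φ u₀ := by
  have hx := hZ.maps z.1 _ hu
  have hc : cos z.2 = 1 ∨ cos z.2 = -1 := by
    have h := sin_sq_add_cos_sq z.2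
    rw [hz] at h
    have : (cos z.2 - 1) * (cos z.2 + 1) = 0 := by linarith
    rcases mul_eq_zero.1 this with h | h
    · left; linarith
    · right; linarith
  rcases hc with h | h
  · have : Ax φ u₀ z = φ z.1 u₀ := by simp [Ax, rho, h, hz]
    exact ⟨t + z.1, by simp only [this, hZ.add]⟩
  · have : Ax φ u₀ z = rev (φ z.1 u₀) := by simp [Ax, rho, rev, h, hz]
    exact ⟨-t + z.1, by simp only [this, hZ.add, hZ.revs _ hx, rev_fst]⟩

lemma back (hZ : ZFlow φ a b T) (hu : u₀ ∈ U) (z : ℝ × ℝ) (t : ℝ) :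
    φ t (rev (Q φ u₀ T1 z)) = rev (φ (T1 z - t) (Ax φ u₀ z)) := by
  rw [hZ.revs _ (Q_mem hZ hu z), Q, ← hZ.add, neg_add_eq_sub]

lemma hasDerivAt_snd {f : ℝ × ℝ → ℝ} (hf : ContDiff ℝ ∞ f) (z : ℝ × ℝ) :
    HasDerivAt (fun β => f (z.1, β)) (fderiv ℝ f z (0, 1)) z.2 :=
  (hf.differentiable (by simp) z).hasFDerivAt.comp_hasDerivAt z.2
    ((hasDerivAt_const z.2 z.1).prodMk (hasDerivAt_id z.2))

lemma key (hZ : ZFlow φ a b T) (hu : u₀ ∈ U) (hC : Cross1 φ a b T u₀ T1) (hJ : Jac φ a b T)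
    {xp bp : ℝ × ℝ → ℝ} (hx : ContDiff ℝ ∞ xp) (hb : ContDiff ℝ ∞ bp)
    (rel : ∀ z, rev (Q φ u₀ T1 z) = Ax φ u₀ (xp z, bp z)) (z : ℝ × ℝ)
    (h0 : fderiv ℝ xp z (0, 1) = 0) : fderiv ℝ bp z (0, 1) ≤ 0 := by
  by_contra hpos
  push Not at hpos
  set μ := fderiv ℝ bp z (0, 1)
  set ν := fderiv ℝ T1 z (0, 1)
  set w := Ax φ u₀ z with hw
  have wU : w ∈ U := Ax_mem hZ hu z
  have rel' : ∀ z, Q φ u₀ T1 z = Ax φ u₀ (xp z, bp z + π) := fun z => by
    rw [← rev_rev (Q φ u₀ T1 z), rel]; simp only [Ax, rho_add_pi]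
  -- derivative of the left side
  let F : ℝ × P → P := fun q => φ q.1 q.2
  have dF : ∀ q, HasFDerivAt F (fderiv ℝ F q) q := fun q =>
    (hZ.smooth.differentiable (by simp) q).hasFDerivAt
  have F1 : fderiv ℝ F (T1 z, w) (1, 0) = W (φ (T1 z) w) (xi a b (φ (T1 z) w)) := by
    have h1 := (dF (T1 z, w)).comp_hasDerivAt (T1 z)
      ((hasDerivAt_id (T1 z)).prodMk (hasDerivAt_const (T1 z) w))
    exact h1.unique (hZ.ode w wU (T1 z))
  have F2 : ∀ δ, fderiv ℝ F (T1 z, w) (0, δ) = fderiv ℝ (φ (T1 z)) w δ := by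
    intro δ
    have h1 := (dF (T1 z, w)).comp w ((hasFDerivAt_const (T1 z) w).prodMk (hasFDerivAt_id w))
    have h2 : fderiv ℝ (φ (T1 z)) w = _ := h1.fderiv
    rw [h2]; simp
  have dL : HasDerivAt (fun β => Q φ u₀ T1 (z.1, β))
      (fderiv ℝ F (T1 z, w) (ν, W w w.1)) z.2 :=
    HasFDerivAt.comp_hasDerivAt (l := F) z.2 (dF (T1 z, w))
      ((hasDerivAt_snd hC.smooth z).prodMk (hasDerivAt_rho (hZ.maps z.1 _ hu) z.2))
  -- derivative of the right side
  have dA : ∀ q, HasFDerivAt (Ax φ u₀) (fderiv ℝ (Ax φ u₀) q) q := fun q =>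
    ((contDiff_Ax hZ).differentiable (by simp) q).hasFDerivAt
  have A2 : ∀ q : ℝ × ℝ, fderiv ℝ (Ax φ u₀) q (0, 1) = W (Ax φ u₀ q) (Ax φ u₀ q).1 := by
    intro q
    have h1 := (dA q).comp_hasDerivAt q.2
      ((hasDerivAt_const q.2 q.1).prodMk (hasDerivAt_id q.2))
    exact h1.unique (hasDerivAt_rho (hZ.maps q.1 _ hu) q.2)
  have dR : HasDerivAt (fun β => Ax φ u₀ (xp (z.1, β), bp (z.1, β) + π))
      (fderiv ℝ (Ax φ u₀) (xp z, bp z + π) (fderiv ℝ xp z (0, 1), μ)) z.2 :=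
    HasFDerivAt.comp_hasDerivAt (l := Ax φ u₀) z.2 (dA (xp z, bp z + π))
      ((hasDerivAt_snd hx z).prodMk ((hasDerivAt_snd hb z).add_const π))
  simp only [← rel'] at dR
  have e := dL.unique dR
  rw [h0, show ((0 : ℝ), μ) = μ • ((0 : ℝ), (1 : ℝ)) by simp, map_smul, A2, ← rel',
    show (ν, W w w.1) = ν • ((1 : ℝ), (0 : P)) + (0, W w w.1) by simp, map_add, map_smul, F1,
    F2] at e
  obtain ⟨k, hk⟩ := hJ w wU (T1 z) μ (-ν) hpos (by
    rw [W_add, W_smul, W_smul, neg_smul, ← sub_eq_add_neg, eq_sub_iff_add_eq, add_comm]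
    exact e)
  have hm := hC.mem z
  rw [hk] at hm
  have k0 : (0 : ℝ) < k := by
    by_contra h
    push Not at h
    nlinarith [hm.1, hZ.Tpos]
  have k1 : (k : ℝ) < 1 := by
    by_contra h
    push Not at h
    nlinarith [hm.2, hZ.Tpos]
  have k0' : 0 < k := by exact_mod_cast k0
  have k1' : k < 1 := by exact_mod_cast k1
  omega

end flow

end Cross2

open Cross2 in
theorem cross2_of (hL : LiftStmt) : Cross2Stmt := by
  intro φ a b T u₀ N f T1 hZ hu hF hC hJ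
  obtain ⟨xp, hx, hm, hb⟩ := exists_xp hL hZ hu hF hC
  obtain ⟨bp, hbp, b00, rel⟩ := exists_bp hL hZ hu hC hx hm hb
  have hT := hZ.Tpos
  have cx := hx.continuous
  have cb := hbp.continuous
  have un : ∀ (z : ℝ × ℝ) (x : ℝ), x ∈ Ioo z.1 (z.1 + T) → (φ x u₀).1 = (Q φ u₀ T1 z).1 →
      xp z = x := fun z x h e =>
    uniq hZ hu ⟨(hm z).1.le, (hm z).2⟩ ⟨h.1.le, h.2⟩ (by rw [hb, e])
  have ang : ∀ (z : ℝ × ℝ) (s : ℝ), rev (Q φ u₀ T1 z) = rho s (φ (xp z) u₀) →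
      ∃ n : ℤ, bp z - s = n * (2 * π) := fun z s e => by
    obtain ⟨n, hn⟩ := (rho_eq_iff (hZ.maps (xp z) _ hu)).1 ((rel z).symm.trans e)
    exact ⟨n, by simp only at hn; linarith⟩
  -- bottom
  have b0 : ∀ x, bp (x, 0) = π := by
    intro x
    have := zero_of_int (f := fun x : ℝ => bp (x, 0) - π) (by fun_prop) (fun x => by
      have q0 : Q φ u₀ T1 (x, 0) = φ (x + T1 (x, 0)) u₀ := by
        simp [Q, Ax, add_comm x, hZ.add]
      have x0 : xp (x, 0) = x + T1 (x, 0) :=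
        un _ _ ⟨by linarith [(hC.mem (x, 0)).1], by linarith [(hC.mem (x, 0)).2]⟩ (by rw [q0])
      exact ang _ _ (by rw [rho_pi, q0, x0])) (x₀ := 0) (by simp [b00]) x
    linarith
  -- interior
  have bsin : ∀ z : ℝ × ℝ, z.2 ∈ Ioo 0 π → 0 < sin (bp z) := by
    intro z hz
    have := hC.down z hz (xp z) (bp z + π) (by
      have h := rel z
      rw [← rev_rev (φ (T1 z) (Ax φ u₀ z))]
      rw [Q] at h
      rw [h]; simp only [Ax, rho_add_pi])
    rw [sin_add_pi] at this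
    linarith
  have bmem : ∀ z : ℝ × ℝ, z.2 ∈ Ioo 0 π → bp z ∈ Ioo 0 π := by
    intro z hz
    have hne : ∀ c : ℝ, sin c = 0 → c ≠ π → ∀ β ∈ Ico 0 π, bp (z.1, β) - c ≠ 0 := by
      intro c hc hc' β hβ h
      rcases hβ.1.eq_or_lt with h0 | h0
      · rw [← h0, b0] at h; exact hc' (by linarith)
      · have := bsin (z.1, β) ⟨h0, hβ.2⟩
        rw [sub_eq_zero.1 h, hc] at this
        exact lt_irrefl _ this
    have z0 : (0 : ℝ) ∈ Ico 0 π := ⟨le_rfl, pi_pos⟩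
    have l0 : 0 < bp z := by
      rcases sign_const (f := fun β : ℝ => bp (z.1, β) - 0) isPreconnected_Ico (by fun_prop)
        (hne 0 sin_zero pi_pos.ne) with h | h
      · simpa using h z.2 ⟨hz.1.le, hz.2⟩
      · have := h 0 z0; simp only [b0] at this; linarith [pi_pos]
    have l1 : bp z < 2 * π := by
      rcases sign_const (f := fun β : ℝ => bp (z.1, β) - 2 * π) isPreconnected_Ico (by fun_prop)
        (hne _ sin_two_pi (by linarith [pi_pos])) with h | h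
      · have := h 0 z0; simp only [b0] at this; linarith [pi_pos]
      · exact sub_neg.1 (h z.2 ⟨hz.1.le, hz.2⟩)
    refine ⟨l0, ?_⟩
    by_contra h
    push Not at h
    have := sin_nonneg_of_nonneg_of_le_pi (x := bp z - π) (by linarith) (by linarith)
    rw [sin_sub_pi] at this
    linarith [bsin z hz]
  -- top
  have bpi : ∀ x, bp (x, π) = 0 := by
    intro x
    have q0 : rev (Q φ u₀ T1 (x, π)) = φ (x - T1 (x, π) + T) u₀ := by
      rw [per_add hZ hu]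
      simp only [Q, Ax, rho_pi, hZ.revs _ (hZ.maps x _ hu), rev_rev, ← hZ.add, neg_add_eq_sub]
    have x0 : xp (x, π) = x - T1 (x, π) + T :=
      un _ _ ⟨by linarith [(hC.mem (x, π)).2], by linarith [(hC.mem (x, π)).1]⟩ (by
        rw [← q0]; rfl)
    obtain ⟨n, hn⟩ := ang (x, π) 0 (by rw [rho_zero, q0, x0])
    have hcl : bp (x, π) ∈ Icc 0 π := by
      have h1 : π ∈ closure (Ioo 0 π) := by
        rw [closure_Ioo pi_pos.ne]; exact ⟨pi_pos.le, le_rfl⟩
      have h2 := map_mem_closure (f := fun β : ℝ => bp (x, β)) (t := Icc 0 π) (by fun_prop) h1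
        (fun β hβ => Ioo_subset_Icc_self (bmem (x, β) hβ))
      rwa [closure_Icc] at h2
    rw [sub_zero] at hn
    rw [hn] at hcl ⊢
    have k0 : (0 : ℝ) ≤ n := by
      by_contra h
      push Not at h
      nlinarith [hcl.1, pi_pos]
    have k1 : (n : ℝ) < 1 := by
      by_contra h
      push Not at h
      nlinarith [hcl.2, pi_pos]
    have k0' : 0 ≤ n := by exact_mod_cast k0
    have k1' : n < 1 := by exact_mod_cast k1
    have : n = 0 := by omega
    simp [this]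
  -- periodicity
  have A1 : ∀ z : ℝ × ℝ, Ax φ u₀ (z.1 + T, z.2) = Ax φ u₀ z := fun z => by
    simp only [Ax]; rw [per_add hZ hu]
  have A2 : ∀ z : ℝ × ℝ, Ax φ u₀ (z.1, z.2 + 2 * π) = Ax φ u₀ z := fun z =>
    rho_periodic _ z.2
  have Q1 : ∀ x β, Q φ u₀ T1 (x + T, β) = Q φ u₀ T1 (x, β) := fun x β => by
    have h := T1_congr hC (A := fun z => (z.1 + T, z.2)) (by fun_prop) A1 (x, β)
    simp only [Q]; rw [h, A1 (x, β)]
  have Q2 : ∀ x β, Q φ u₀ T1 (x, β + 2 * π) = Q φ u₀ T1 (x, β) := fun x β => by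
    have h := T1_congr hC (A := fun z => (z.1, z.2 + 2 * π)) (by fun_prop) A2 (x, β)
    simp only [Q]; rw [h, A2 (x, β)]
  have xper : ∀ x β, xp (x + T, β) = xp (x, β) + T := fun x β =>
    un _ _ ⟨by linarith [(hm (x, β)).1], by linarith [(hm (x, β)).2]⟩ (by
      rw [per_add hZ hu, Q1, hb])
  have bper : ∀ x β, bp (x + T, β) = bp (x, β) := by
    intro x β
    have := zero_of_int (f := fun β : ℝ => bp (x + T, β) - bp (x, β)) (by fun_prop)
      (fun β => ang _ _ (by rw [xper, per_add hZ hu, Q1, rel]; rfl)) (x₀ := 0) (by simp [b0]) β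
    linarith
  -- involution
  have T1a : ∀ z, T1 (xp z, bp z) = T1 z := by
    refine eq_of_dense (f := fun z => T1 (xp z, bp z)) (hC.smooth.continuous.comp (cx.prodMk cb))
      hC.smooth.continuous (fun z hz => ?_)
    have hs : sin (bp z) ≠ 0 := by
      intro h
      have all : ∀ t, (φ t (Ax φ u₀ z)).1 ∈ c0 φ u₀ := fun t => by
        have := stays hZ hu (z := (xp z, bp z)) h (T1 z - t)
        rwa [← rel, back hZ hu, rev_fst, sub_sub_cancel] at this
      have h1 := hC.only z hz (T / 3) ⟨by linarith, by linarith⟩ (all _)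
      have h2 := hC.only z hz (T / 2) ⟨by linarith, by linarith⟩ (all _)
      linarith
    refine (hC.only (xp z, bp z) hs _ (hC.mem z) ?_).symm
    rw [← rel, back hZ hu, sub_self, hZ.zero]
    exact ⟨z.1, rfl⟩
  have Qa : ∀ z, Q φ u₀ T1 (xp z, bp z) = rev (Ax φ u₀ z) := fun z => by
    rw [Q, T1a, ← rel, back hZ hu, sub_self, hZ.zero]
  have invx : ∀ z, xp (xp z, bp z) = z.1 + T := fun z =>
    un _ _ ⟨(hm z).2, by linarith [(hm z).1]⟩ (by rw [per_add hZ hu, Qa]; rfl)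
  have invb : ∀ z, bp (xp z, bp z) = z.2 := by
    intro z
    have := zero_of_int (f := fun z : ℝ × ℝ => bp (xp z, bp z) - z.2) (by fun_prop)
      (fun z => ang _ _ (by rw [invx, per_add hZ hu, Qa, rev_rev]; rfl)) (x₀ := (0, 0))
      (by simp [b00, bpi]) z
    linarith
  exact ⟨xp, bp, ⟨hT, hx, hbp, xper, bper,
    fun x β => un _ _ (hm (x, β)) (by rw [Q2, hb]), hm, b0, bpi, bmem, invx, invb,
    key hZ hu hC hJ hx hbp rel⟩, rel⟩

end Pool.Agent.MP_2291e2_gt.Zl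

end MrgPart0

-- ======== part 1: formerly Pool.Agent.MP_2291e2_gt.zl.Cross3
section MrgPart1

/-! The strip of vectors over one orbit is a global cross section of the flow. -/

open scoped ContDiff RealInnerProductSpace Topology
open Set Filter Real

namespace Pool.Agent.MP_2291e2_gt.Zl

namespace Cross3A

variable {φ : ℝ → P → P} {a b : P → ℝ} {T : ℝ}

lemma per_int (h : ZFlow φ a b T) {u : P} (hu : u ∈ U) (t : ℝ) (n : ℤ) :
    φ (t + n * T) u = φ t u := by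
  have hp : Function.Periodic (fun t => φ t u) T := fun s => by
    show φ (s + T) u = φ s u
    rw [h.add, h.per u hu]
  exact hp.int_mul n t

lemma reduce (hT : 0 < T) (t : ℝ) : ∃ n : ℤ, ∃ r ∈ Ico 0 T, t = r + n * T := by
  refine ⟨toIcoDiv hT 0 t, toIcoMod hT 0 t, ?_, ?_⟩
  · simpa using toIcoMod_mem_Ico hT 0 t
  · have := toIcoMod_add_toIcoDiv_zsmul hT 0 t
    rw [zsmul_eq_mul] at this
    exact this.symm

lemma inj_int (h : ZFlow φ a b T) {u : P} (hu : u ∈ U) {s t : ℝ} (e : (φ s u).1 = (φ t u).1) :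
    ∃ n : ℤ, s = t + n * T := by
  obtain ⟨n, r, hr, rfl⟩ := reduce h.Tpos s
  obtain ⟨m, r', hr', rfl⟩ := reduce h.Tpos t
  rw [per_int h hu, per_int h hu] at e
  have := h.inj u hu hr hr' e
  exact ⟨n - m, by rw [this]; push_cast; ring⟩

lemma eq_of_base (h : ZFlow φ a b T) {u : P} (hu : u ∈ U) {s t : ℝ} (e : (φ s u).1 = (φ t u).1) :
    φ s u = φ t u := by
  obtain ⟨n, rfl⟩ := inj_int h hu e
  exact per_int h hu t n

lemma neg_add' (h : PFlow φ a b) (t : ℝ) (u : P) : φ (-t) (φ t u) = u := by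
  rw [← h.add, neg_add_cancel, h.zero]

lemma diff_slice (h : PFlow φ a b) (t : ℝ) (u : P) : DifferentiableAt ℝ (φ t) u :=
  ((h.smooth.comp (contDiff_const.prodMk contDiff_id)).differentiable (by simp)) u

lemma Ax_mem (h : PFlow φ a b) {u₀ : P} (hu : u₀ ∈ U) (z : ℝ × ℝ) : Ax φ u₀ z ∈ U :=
  rho_mem_U (h.maps _ _ hu) _

lemma cr_xi {u : P} (hu : u ∈ U) : cr (xi a b u) u.1 = a u • u.2 := by
  simp [xi, cr_add_left, cr_smul_left, cr_cr_left, hu.1, inner_U21 hu]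

lemma hasDerivAt_base (h : PFlow φ a b) {u : P} (hu : u ∈ U) (t : ℝ) :
    HasDerivAt (fun t => (φ t u).1) (a (φ t u) • (φ t u).2) t := by
  have := (hasFDerivAt_fst (𝕜 := ℝ) (p := φ t u)).comp_hasDerivAt t (h.ode u hu t)
  refine this.congr_deriv ?_
  simpa [W] using cr_xi (h.maps t u hu)

lemma uniq (h : ZFlow φ a b T) {u₀ : P} (hu : u₀ ∈ U) {T1 : ℝ × ℝ → ℝ}
    (h1 : Cross1 φ a b T u₀ T1) (z z' : ℝ × ℝ) (t t' : ℝ) (hz : z.2 ∈ Ioo 0 π)
    (hz' : z'.2 ∈ Ioo 0 π) (e : φ t (Ax φ u₀ z) = φ t' (Ax φ u₀ z')) :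
    ∃ n : ℤ, z' = (z.1 + n * T, z.2) := by
  have hA := Ax_mem h.toPFlow hu z
  have e1 : Ax φ u₀ z' = φ (-t' + t) (Ax φ u₀ z) := by
    rw [h.add, e, neg_add' h.toPFlow]
  obtain ⟨n, r, hr, hn⟩ := reduce h.Tpos (-t' + t)
  rw [hn, per_int h hA] at e1
  rcases hr.1.eq_or_lt with h0 | h0
  · rw [← h0, h.zero] at e1
    have eb : (φ z'.1 u₀).1 = (φ z.1 u₀).1 := (congrArg Prod.fst e1 :)
    obtain ⟨m, hm⟩ := inj_int h hu eb
    have e2 : rho z'.2 (φ z.1 u₀) = rho z.2 (φ z.1 u₀) := by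
      have := e1
      unfold Ax at this
      rwa [eq_of_base h hu eb] at this
    obtain ⟨k, hk⟩ := (rho_eq_iff (h.maps _ _ hu)).1 e2
    have hk0 : k = 0 := by
      have hp := pi_pos
      have a1 : (k : ℝ) < 1 := by nlinarith [hz.1, hz.2, hz'.1, hz'.2]
      have a2 : (-1 : ℝ) < k := by nlinarith [hz.1, hz.2, hz'.1, hz'.2]
      have b1 : k < 1 := by exact_mod_cast a1
      have b2 : -1 < k := by exact_mod_cast a2
      omega
    refine ⟨m, Prod.ext hm ?_⟩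
    simpa [hk0] using hk
  · exfalso
    have hs : sin z.2 ≠ 0 := (sin_pos_of_pos_of_lt_pi hz.1 hz.2).ne'
    have hc : (φ r (Ax φ u₀ z)).1 ∈ c0 φ u₀ := ⟨z'.1, by rw [← e1]; rfl⟩
    have hr1 := h1.only z hs r ⟨h0, hr.2⟩ hc
    have := h1.down z hz z'.1 z'.2 (by rw [← hr1, ← e1])
    linarith [sin_pos_of_pos_of_lt_pi hz'.1 hz'.2]

lemma notor (h : ZFlow φ a b T) {u₀ : P} (hu : u₀ ∈ U) (z : ℝ × ℝ) (t x : ℝ)
    (hz : z.2 ∈ Ioc 0 π) : φ t (Ax φ u₀ z) ≠ φ x u₀ := by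
  intro e
  have e1 : Ax φ u₀ z = φ (-t + x) u₀ := by
    rw [h.add, ← e, neg_add' h.toPFlow]
  have eb : (φ z.1 u₀).1 = (φ (-t + x) u₀).1 := (congrArg Prod.fst e1 :)
  have e2 : rho z.2 (φ z.1 u₀) = rho 0 (φ z.1 u₀) := by
    rw [rho_zero]
    exact e1.trans (eq_of_base h hu eb).symm
  obtain ⟨k, hk⟩ := (rho_eq_iff (h.maps _ _ hu)).1 e2
  have hp := pi_pos
  have a1 : (k : ℝ) < 1 := by nlinarith [hz.1, hz.2]
  have a2 : (0 : ℝ) < k := by nlinarith [hz.1, hz.2]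
  have b1 : k < 1 := by exact_mod_cast a1
  have b2 : 0 < k := by exact_mod_cast a2
  omega

lemma contDiff_Ax (h : PFlow φ a b) (u₀ : P) : ContDiff ℝ ∞ (Ax φ u₀) := by
  have h1 : ContDiff ℝ ∞ (fun z : ℝ × ℝ => φ z.1 u₀) :=
    h.smooth.comp (contDiff_fst.prodMk contDiff_const)
  have h2 := h1.fst
  have h3 := h1.snd
  have h4 : ContDiff ℝ ∞ (fun z : ℝ × ℝ => cos z.2) := contDiff_cos.comp contDiff_snd
  have h5 : ContDiff ℝ ∞ (fun z : ℝ × ℝ => sin z.2) := contDiff_sin.comp contDiff_snd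
  exact h2.prodMk ((h4.smul h3).add (h5.smul (ContDiff.cr' h2 h3)))

lemma imm (h : PFlow φ a b) {u₀ : P} (hu : u₀ ∈ U) (z : ℝ × ℝ) (t : ℝ) (hs : sin z.2 ≠ 0)
    (δ : ℝ × ℝ × ℝ)
    (e : fderiv ℝ (fun c : ℝ × ℝ × ℝ => φ c.2.2 (Ax φ u₀ (c.1, c.2.1))) (z.1, z.2, t) δ = 0) :
    δ = 0 := by
  obtain ⟨x, β⟩ := z
  obtain ⟨d1, d2, d3⟩ := δ
  simp only at e hs
  set F : ℝ × ℝ × ℝ → P := fun c => φ c.2.2 (Ax φ u₀ (c.1, c.2.1)) with hF
  have hFs : ContDiff ℝ ∞ F :=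
    h.smooth.comp (contDiff_snd.snd.prodMk
      ((contDiff_Ax h u₀).comp (contDiff_fst.prodMk contDiff_snd.fst)))
  have hFd : DifferentiableAt ℝ F (x, β, t) := (hFs.differentiable (by simp)) _
  have hG := (diff_slice h (-t) (F (x, β, t))).hasFDerivAt.comp _ hFd.hasFDerivAt
  set D := (fderiv ℝ (φ (-t)) (F (x, β, t))).comp (fderiv ℝ F (x, β, t)) with hD
  have hD0 : D (d1, d2, d3) = 0 := by simp [hD, e]
  set w := φ x u₀ with hw
  have hwU : w ∈ U := h.maps _ _ hu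
  have hAU : rho β w ∈ U := rho_mem_U hwU β
  have p1 : D (1, 0, 0) = W (rho β w) (xi a b w) := by
    have c1 : HasDerivAt (fun s : ℝ => (s, β, t)) ((1 : ℝ), (0 : ℝ), (0 : ℝ)) x :=
      (hasDerivAt_id x).prodMk ((hasDerivAt_const x β).prodMk (hasDerivAt_const x t))
    have q1 := hG.comp_hasDerivAt x c1
    have hr : DifferentiableAt ℝ (rho β) w := by unfold rho; fun_prop
    have q2 := hr.hasFDerivAt.comp_hasDerivAt x (h.ode u₀ hu x)
    rw [fderiv_rho_W] at q2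
    refine q1.unique (q2.congr_of_eventuallyEq (Eventually.of_forall fun s => ?_))
    exact neg_add' h t _
  have p2 : D (0, 1, 0) = W (rho β w) w.1 := by
    have c1 : HasDerivAt (fun s : ℝ => (x, s, t)) ((0 : ℝ), (1 : ℝ), (0 : ℝ)) β :=
      (hasDerivAt_const β x).prodMk ((hasDerivAt_id β).prodMk (hasDerivAt_const β t))
    have q1 := hG.comp_hasDerivAt β c1
    refine q1.unique ((hasDerivAt_rho hwU β).congr_of_eventuallyEq
      (Eventually.of_forall fun s => ?_))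
    exact neg_add' h t _
  have p3 : D (0, 0, 1) = W (rho β w) (xi a b (rho β w)) := by
    have c1 : HasDerivAt (fun s : ℝ => (x, β, s)) ((0 : ℝ), (0 : ℝ), (1 : ℝ)) t :=
      (hasDerivAt_const t x).prodMk ((hasDerivAt_const t β).prodMk (hasDerivAt_id t))
    have q1 := hG.comp_hasDerivAt t c1
    have q2 : HasDerivAt (fun s => φ (-t + s) (rho β w))
        (W (rho β w) (xi a b (rho β w))) t := by
      have q3 := h.ode _ hAU (-t + t)
      have q4 := q3.comp_const_add (-t) t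
      rwa [neg_add_cancel, h.zero] at q4
    refine q1.unique (q2.congr_of_eventuallyEq (Eventually.of_forall fun s => ?_))
    exact (h.add _ _ _).symm
  have hsum : W (rho β w) (d1 • xi a b w + d2 • w.1 + d3 • xi a b (rho β w)) = 0 := by
    rw [W_add, W_add, W_smul, W_smul, W_smul, ← p1, ← p2, ← p3, ← map_smul, ← map_smul,
      ← map_smul, ← map_add, ← map_add, ← hD0]
    simp
  have hv := W_inj hAU hsum
  have hxi : xi a b (rho β w) = a (rho β w) • (cos β • cr w.1 w.2 - sin β • w.2)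
      + b (rho β w) • w.1 := by
    rw [xi, rho_fst, cr_rho hwU]
  rw [hxi, xi] at hv
  have hww : ⟪cr w.1 w.2, cr w.1 w.2⟫ = 1 := by
    rw [real_inner_self_eq_norm_sq, norm_cr_U hwU]; norm_num
  have i1 := congrArg (fun c => ⟪c, w.2⟫) hv
  have i2 := congrArg (fun c => ⟪c, cr w.1 w.2⟫) hv
  have i3 := congrArg (fun c => ⟪c, w.1⟫) hv
  simp only [inner_add_left, inner_sub_left, inner_smul_left, cr_inner_left, cr_inner_right,
    inner_cr_left, inner_cr_right, hww, inner_self_U1 hwU, inner_self_U2 hwU, inner_U21 hwU,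
    hwU.2.2, inner_zero_left, conj_trivial] at i1 i2 i3
  have a1 := (h.apos _ hAU).ne'
  have a2 := (h.apos _ hwU).ne'
  have z3 : d3 = 0 := by
    have : d3 * (a (rho β w) * sin β) = 0 := by linarith
    simpa [a1, hs] using this
  have z1 : d1 = 0 := by
    rw [z3] at i2
    have : d1 * a w = 0 := by linarith
    simpa [a2] using this
  have z2 : d2 = 0 := by
    rw [z3, z1] at i3
    linarith
  simp [z1, z2, z3]

/-- Vectors whose orbit meets the curve. -/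
def A (φ : ℝ → P → P) (u₀ : P) : Set P := {u | u ∈ U ∧ ∃ t, (φ t u).1 ∈ c0 φ u₀}

lemma isCompact_c0 (h : ZFlow φ a b T) {u₀ : P} (hu : u₀ ∈ U) : IsCompact (c0 φ u₀) := by
  have hc : Continuous (fun x : ℝ => (φ x u₀).1) :=
    (h.smooth.continuous.comp (continuous_id.prodMk continuous_const)).fst
  have : c0 φ u₀ = (fun x : ℝ => (φ x u₀).1) '' Icc 0 T := by
    refine Subset.antisymm ?_ (image_subset_range _ _)
    rintro _ ⟨x, rfl⟩
    obtain ⟨n, r, hr, rfl⟩ := reduce h.Tpos x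
    exact ⟨r, Ico_subset_Icc_self hr, by simp only [per_int h hu]⟩
  rw [this]
  exact isCompact_Icc.image hc

lemma isClosed_A (h : ZFlow φ a b T) {u₀ : P} (hu : u₀ ∈ U) : IsClosed (A φ u₀) := by
  have hc : Continuous (fun q : ℝ × P => (φ q.1 q.2).1) := h.smooth.continuous.fst
  have hK : IsCompact ((Icc 0 T ×ˢ U) ∩ (fun q : ℝ × P => (φ q.1 q.2).1) ⁻¹' c0 φ u₀) :=
    (isCompact_Icc.prod isCompact_U).inter_right ((isCompact_c0 h hu).isClosed.preimage hc)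
  have : A φ u₀
      = Prod.snd '' ((Icc 0 T ×ˢ U) ∩ (fun q : ℝ × P => (φ q.1 q.2).1) ⁻¹' c0 φ u₀) := by
    ext u
    constructor
    · rintro ⟨hU, t, ht⟩
      obtain ⟨n, r, hr, rfl⟩ := reduce h.Tpos t
      rw [per_int h hU] at ht
      exact ⟨(r, u), ⟨⟨Ico_subset_Icc_self hr, hU⟩, ht⟩, rfl⟩
    · rintro ⟨q, ⟨hq, ht⟩, rfl⟩
      exact ⟨hq.2, q.1, ht⟩
  rw [this]
  exact (hK.image continuous_snd).isClosed

lemma exists_Ax (h : PFlow φ a b) {u₀ u : P} (hu₀ : u₀ ∈ U) (hu : u ∈ U) (hc : u.1 ∈ c0 φ u₀) :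
    ∃ x, ∃ s ∈ Ico 0 (2 * π), u = Ax φ u₀ (x, s) := by
  obtain ⟨x, hx⟩ := hc
  obtain ⟨s, hs, e⟩ := exists_rho (h.maps x _ hu₀) hu hx.symm
  exact ⟨x, s, hs, e⟩

lemma A_open (h : ZFlow φ a b T) {u₀ : P} (hu₀ : u₀ ∈ U) {N : Set E} {f : E → ℝ}
    (hF : Fermi φ T u₀ N f) {u : P} (hu : u ∈ A φ u₀) (hc : u.1 ∉ c0 φ u₀) :
    ∀ᶠ u' in 𝓝 u, u' ∈ U → u' ∈ A φ u₀ := by
  obtain ⟨hU, t, ht⟩ := hu
  have hP := h.toPFlow
  obtain ⟨x, s, hs, e⟩ := exists_Ax hP hu₀ (h.maps t u hU) ht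
  set w := φ x u₀ with hw
  have hwU : w ∈ U := h.maps _ _ hu₀
  have e' : φ t u = rho s w := e
  have hsin : sin s ≠ 0 := by
    intro h0
    apply hc
    have hu' : u = φ (-t) (rho s w) := by rw [← e', neg_add' hP]
    rcases sin_eq_zero_iff_cos_eq.1 h0 with h1 | h1
    · have : rho s w = w := by simp [rho, h0, h1]
      rw [hu', this, hw, ← h.add]
      exact ⟨_, rfl⟩
    · have : rho s w = rev w := by simp [rho, rev, h0, h1]
      rw [hu', this, h.revs w hwU, rev_fst, hw, ← h.add]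
      exact ⟨_, rfl⟩
  have hfd : Differentiable ℝ f := hF.smooth.differentiable (by simp)
  have hv : fderiv ℝ f w.1 w.2 = 0 := by
    have q1 := (hfd w.1).hasFDerivAt.comp_hasDerivAt x (hasDerivAt_base hP hu₀ x)
    have q2 : HasDerivAt (f ∘ fun t => (φ t u₀).1) 0 x := by
      refine (hasDerivAt_const x (0 : ℝ)).congr_of_eventuallyEq (Eventually.of_forall fun r => ?_)
      exact (hF.zero _ (hF.sub ⟨r, rfl⟩) (h.maps r _ hu₀).1).2 ⟨r, rfl⟩
    have q3 := q1.unique q2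
    rw [map_smul, smul_eq_mul] at q3
    exact (mul_eq_zero.1 q3).resolve_left (h.apos _ hwU).ne'
  set g : P × ℝ → ℝ := fun q => f (φ q.2 q.1).1 with hg
  have hφs : ContDiff ℝ ∞ (fun q : P × ℝ => (φ q.2 q.1).1) :=
    (h.smooth.comp (contDiff_snd.prodMk contDiff_fst)).fst
  have hgs : ContDiff ℝ ∞ g := hF.smooth.comp hφs
  have hgd : fderiv ℝ g (u, t) (0, 1) ≠ 0 := by
    have c1 : HasDerivAt (fun r : ℝ => (u, r)) ((0 : P), (1 : ℝ)) t :=
      (hasDerivAt_const t u).prodMk (hasDerivAt_id t)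
    have q1 := ((hgs.differentiable (by simp)) (u, t)).hasFDerivAt.comp_hasDerivAt t c1
    have q2 := (hfd (φ t u).1).hasFDerivAt.comp_hasDerivAt t (hasDerivAt_base hP hU t)
    rw [q1.unique q2, e', rho_fst, rho_snd, map_smul, map_add, map_smul, map_smul, hv]
    have a1 := (h.apos _ (rho_mem_U hwU s)).ne'
    have a2 := (hF.grad x).ne'
    simp only [smul_eq_mul, mul_zero, zero_add]
    exact mul_ne_zero a1 (mul_ne_zero hsin a2)
  obtain ⟨τ, hτ, hτ0, hτe, -⟩ := exists_implicit hgs.contDiffAt hgd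
  have hg0 : g (u, t) = 0 := (hF.zero _ (hF.sub ht) (h.maps t u hU).1).2 ht
  have hN : ∀ᶠ u' in 𝓝 u, (φ (τ u') u').1 ∈ N := by
    have hca : ContinuousAt (fun u' : P => (φ (τ u') u').1) u :=
      hφs.continuous.continuousAt.comp (f := fun u' : P => (u', τ u'))
        (continuousAt_id.prodMk hτ.continuousAt)
    refine hca.eventually (hF.isOpen.mem_nhds ?_)
    simp only [hτ0]
    exact hF.sub ht
  filter_upwards [hτe, hN] with u' h1 h2 h3
  exact ⟨h3, τ u', (hF.zero _ h2 (h.maps _ _ h3).1).1 (h1.trans hg0)⟩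

lemma A_of_N (h : ZFlow φ a b T) {u₀ : P} (hu₀ : u₀ ∈ U) {N : Set E} {f : E → ℝ}
    (hF : Fermi φ T u₀ N f) {u : P} (hu : u ∈ U) (hN : u.1 ∈ N) : u ∈ A φ u₀ := by
  have hP := h.toPFlow
  by_cases hc : u.1 ∈ c0 φ u₀
  · exact ⟨hu, 0, by rwa [h.zero]⟩
  obtain ⟨x, t, e⟩ := hF.cover _ hN hu.1
  set w := φ t (Ax φ u₀ (x, π / 2)) with hw
  have hwU : w ∈ U := h.maps _ _ (Ax_mem hP hu₀ _)
  have hwA : w ∈ A φ u₀ := ⟨hwU, -t, by rw [hw, neg_add' hP]; exact ⟨x, rfl⟩⟩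
  have hr : Continuous (fun s : ℝ => rho s w) :=
    continuous_iff_continuousAt.2 fun s => (hasDerivAt_rho hwU s).continuousAt
  have hcl : IsClopen ((fun s : ℝ => rho s w) ⁻¹' A φ u₀) := by
    refine ⟨(isClosed_A h hu₀).preimage hr, isOpen_iff_mem_nhds.2 fun s hs => ?_⟩
    have := A_open h hu₀ hF hs (by rwa [rho_fst, ← e])
    filter_upwards [hr.continuousAt.eventually this] with s' hs'
    exact hs' (rho_mem_U hwU s')
  have hall := hcl.eq_univ ⟨0, by simpa using hwA⟩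
  obtain ⟨s, -, es⟩ := exists_rho hwU hu e
  have : s ∈ (fun s : ℝ => rho s w) ⁻¹' A φ u₀ := by rw [hall]; trivial
  rw [es]
  exact this

lemma A_all (h : ZFlow φ a b T) {u₀ : P} (hu₀ : u₀ ∈ U) {N : Set E} {f : E → ℝ}
    (hF : Fermi φ T u₀ N f) {u : P} (hu : u ∈ U) : u ∈ A φ u₀ := by
  by_contra hn
  have hO : IsOpen {u : P | ∃ t, (φ t u).1 ∈ N} := by
    rw [ofPred_exists]
    refine isOpen_iUnion fun t => hF.isOpen.preimage ?_
    exact (h.smooth.continuous.comp (continuous_const.prodMk continuous_id)).fst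
  obtain ⟨u', h1, ⟨t, ht⟩, h3⟩ := isPreconnected_U _ _ hO (isClosed_A h hu₀).isOpen_compl
    (fun u' _ => by
      by_cases hA : u' ∈ A φ u₀
      · obtain ⟨-, t, ht⟩ := hA
        exact Or.inl ⟨t, hF.sub ht⟩
      · exact Or.inr hA)
    ⟨u₀, hu₀, 0, hF.sub ⟨0, rfl⟩⟩ ⟨u, hu, hn⟩
  obtain ⟨-, s, hs⟩ := A_of_N h hu₀ hF (h.maps t u' h1) ht
  exact h3 ⟨h1, s + t, by rwa [h.add]⟩

lemma surj (h : ZFlow φ a b T) {u₀ : P} (hu₀ : u₀ ∈ U) {N : Set E} {f : E → ℝ}
    (hF : Fermi φ T u₀ N f) {T1 xp bp : ℝ × ℝ → ℝ} (h2 : Cross2 φ T u₀ T1 xp bp) (u : P)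
    (hu : u ∈ U) : ∃ (z : ℝ × ℝ) (t : ℝ), z.2 ∈ Icc 0 π ∧ u = φ t (Ax φ u₀ z) := by
  have hP := h.toPFlow
  obtain ⟨-, t, ht⟩ := A_all h hu₀ hF hu
  obtain ⟨x, s, hs, e⟩ := exists_Ax hP hu₀ (h.maps t u hu) ht
  have e1 : u = φ (-t) (Ax φ u₀ (x, s)) := by rw [← e, neg_add' hP]
  rcases le_or_gt s π with h1 | h1
  · exact ⟨(x, s), -t, ⟨hs.1, h1⟩, e1⟩
  have hz : ((x, s - π) : ℝ × ℝ).2 ∈ Ioo 0 π := ⟨by linarith, by linarith [hs.2]⟩
  have e2 : Ax φ u₀ (x, s) = rev (Ax φ u₀ (x, s - π)) := by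
    unfold Ax
    rw [← rho_add_pi, sub_add_cancel]
  have e3 := h2.rel (x, s - π)
  have e4 := h.revs _ (Ax_mem hP hu₀ (x, s - π)) (-T1 (x, s - π))
  rw [neg_neg, e3, ← e2] at e4
  refine ⟨(xp (x, s - π), bp (x, s - π)), -t + T1 (x, s - π),
    Ioo_subset_Icc_self (h2.inv.bmem _ hz), ?_⟩
  rw [h.add, ← e4, ← h.add (T1 _), add_neg_cancel, h.zero]
  exact e1

end Cross3A

theorem cross3_of : Cross3Stmt := fun _ _ _ _ _ _ _ _ _ _ h hu hF h1 h2 =>
  ⟨Cross3A.uniq h hu h1, Cross3A.surj h hu hF h2, Cross3A.imm h.toPFlow hu, Cross3A.notor h hu⟩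

theorem jac_of (hF : FermiStmt) (hC : Cross1Stmt) : JacStmt := by
  intro φ a b T h u hu t μ ν hμ e
  obtain ⟨N, f, hN⟩ := hF φ a b T u h hu
  obtain ⟨T1, h1⟩ := hC φ a b T u N f h hu hN
  obtain ⟨n, r, hr, rfl⟩ := Cross3A.reduce h.Tpos t
  rcases hr.1.eq_or_lt with h0 | h0
  · exact ⟨n, by rw [← h0, zero_add]⟩
  exfalso
  have e1 : dW (φ (r + n * T)) u u.1 = dW (φ r) u u.1 :=
    dW_congr hu (Cross3A.diff_slice h.toPFlow _ _) (Cross3A.diff_slice h.toPFlow _ _)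
      (fun u' hu' => Cross3A.per_int h hu' r n) _
  unfold dW at e1
  rw [e1, Cross3A.per_int h hu] at e
  linarith [h1.back r ⟨h0, hr.2⟩ μ ν e]

end Pool.Agent.MP_2291e2_gt.Zl

end MrgPart1

-- ======== part 2: formerly Pool.Agent.MP_2291e2_gt.zl.CurveB
section MrgPart2

/-! Chord-arc facts for curves of constant speed on the sphere. -/

open scoped ContDiff RealInnerProductSpace Topology
open Set Filter Real

namespace Pool.Agent.MP_2291e2_gt.Zl

namespace CurveB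

lemma nonneg_of_deriv {f f' : ℝ → ℝ} {h : ℝ} (hh : 0 ≤ h) (h0 : f 0 = 0)
    (hd : ∀ s, HasDerivAt f (f' s) s) (hp : ∀ s ∈ Ioo 0 h, 0 ≤ f' s) : 0 ≤ f h := by
  have hm : MonotoneOn f (Icc 0 h) := by
    refine monotoneOn_of_deriv_nonneg (convex_Icc 0 h)
      (fun s _ => (hd s).continuousAt.continuousWithinAt)
      (fun s _ => (hd s).differentiableAt.differentiableWithinAt) fun s hs => ?_
    rw [interior_Icc] at hs
    rw [(hd s).deriv]
    exact hp s hs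
  have := hm (left_mem_Icc.2 hh) (right_mem_Icc.2 hh) hh
  rwa [h0] at this

lemma mvt {F : Type*} [NormedAddCommGroup F] [NormedSpace ℝ F] {f f' : ℝ → F} {C s : ℝ}
    (hd : ∀ s, HasDerivAt f (f' s) s) (hC : ∀ s, ‖f' s‖ ≤ C) (hs : 0 ≤ s) :
    ‖f s - f 0‖ ≤ C * s := by
  have := Convex.norm_image_sub_le_of_norm_hasDerivWithin_le (f := f) (f' := f') (C := C)
    (fun x _ => (hd x).hasDerivWithinAt) (fun x _ => hC x) convex_univ (mem_univ 0) (mem_univ s)
  rwa [sub_zero, Real.norm_of_nonneg hs] at this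

lemma hd_pow (c : ℝ) (n : ℕ) (s : ℝ) :
    HasDerivAt (fun x : ℝ => c * x ^ (n + 1)) (c * (n + 1) * s ^ n) s := by
  have := (hasDerivAt_pow (n + 1) s).const_mul c
  refine this.congr_deriv ?_
  simp only [Nat.add_sub_cancel]
  push_cast
  ring

lemma le_cosh {x : ℝ} (hx : 0 ≤ x) : 1 + x ^ 2 / 2 ≤ cosh x := by
  have := nonneg_of_deriv (f := fun x => cosh x - 1 - 1 / 2 * x ^ (1 + 1))
    (f' := fun x => sinh x - 1 / 2 * ((1 : ℕ) + 1) * x ^ 1) hx (by simp)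
    (fun s => ((Real.hasDerivAt_cosh s).sub_const 1).sub (hd_pow _ 1 s))
    (fun s hs => by have := Real.self_le_sinh_iff.2 hs.1.le; push_cast; linarith)
  linarith

lemma le_sinh {x : ℝ} (hx : 0 ≤ x) : x + x ^ 3 / 6 ≤ sinh x := by
  have := nonneg_of_deriv (f := fun x => sinh x - x - 1 / 6 * x ^ (2 + 1))
    (f' := fun x => cosh x - 1 - 1 / 6 * ((2 : ℕ) + 1) * x ^ 2) hx (by simp)
    (fun s => ((Real.hasDerivAt_sinh s).sub (hasDerivAt_id s)).sub (hd_pow _ 2 s))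
    (fun s hs => by have := le_cosh hs.1.le; push_cast; linarith)
  linarith

lemma le_arsinh {x : ℝ} (hx : 0 ≤ x) : x - x ^ 3 / 6 ≤ arsinh x := by
  have := nonneg_of_deriv (f := fun x => arsinh x - x + 1 / 6 * x ^ (2 + 1))
    (f' := fun x => (√(1 + x ^ 2))⁻¹ - 1 + 1 / 6 * ((2 : ℕ) + 1) * x ^ 2) hx (by simp)
    (fun s => ((Real.hasDerivAt_arsinh s).sub (hasDerivAt_id s)).add (hd_pow _ 2 s))
    (fun s _ => by
      have h1 : √(1 + s ^ 2) ≤ 1 + s ^ 2 / 2 := by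
        rw [Real.sqrt_le_left (by positivity)]
        nlinarith [sq_nonneg (s ^ 2)]
      have h2 : 0 < √(1 + s ^ 2) := Real.sqrt_pos.2 (by positivity)
      have h3 : (1 + s ^ 2 / 2)⁻¹ ≤ (√(1 + s ^ 2))⁻¹ := inv_anti₀ h2 h1
      have h4 : 1 - s ^ 2 / 2 ≤ (1 + s ^ 2 / 2)⁻¹ := by
        rw [inv_eq_one_div, le_div_iff₀ (by positivity)]
        nlinarith [sq_nonneg (s ^ 2)]
      push_cast
      linarith)
  linarith

lemma arsinh_div_le {A l d : ℝ} (hA : 0 < A) (hd : 0 ≤ d) (h : l ≤ d + A ^ 2 / 6 * d ^ 3) :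
    arsinh (A * l) / A ≤ d := by
  rw [div_le_iff₀ hA, ← Real.arsinh_sinh (d * A), Real.arsinh_le_arsinh]
  have h1 := le_sinh (mul_nonneg hd hA.le)
  have h2 := mul_le_mul_of_nonneg_left h hA.le
  nlinarith

variable {g p q r : ℝ → E} {v : ℝ}

/-- Lower bound for the chord. -/
lemma chord_ge {B h : ℝ} (hg : ∀ s, HasDerivAt g (p s) s) (hp : ∀ s, HasDerivAt p (q s) s)
    (hv : ∀ s, ‖p s‖ = v) (hB : ∀ s, ‖q s‖ ≤ B) (hh : 0 ≤ h) :
    v ^ 2 * h - B ^ 2 / 6 * h ^ 3 ≤ v * ‖g h - g 0‖ := by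
  have h1 := nonneg_of_deriv (f := fun s => ⟪g s - g 0, p 0⟫ - v ^ 2 * s + B ^ 2 / 6 * s ^ (2 + 1))
    (f' := fun s => ⟪p s, p 0⟫ + ⟪g s - g 0, 0⟫ - v ^ 2 * 1 + B ^ 2 / 6 * ((2 : ℕ) + 1) * s ^ 2) hh
    (by simp)
    (fun s => ((hasDerivAt_inner ((hg s).sub_const (g 0)) (hasDerivAt_const s (p 0))).sub
      ((hasDerivAt_id s).const_mul (v ^ 2))).add (hd_pow _ 2 s))
    (fun s hs => by
      have a1 := mvt hp hB hs.1.le
      have a2 := norm_sub_sq_real (p s) (p 0)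
      have a3 := pow_le_pow_left₀ (norm_nonneg _) a1 2
      rw [hv, hv] at a2
      rw [inner_zero_right]
      push_cast
      nlinarith)
  have h2 := real_inner_le_norm (g h - g 0) (p 0)
  rw [hv] at h2
  linarith

/-- The chord-arc bound controls the second derivative. -/
lemma curv_le {A : ℝ} {r' : E} (hA : 0 < A) (hv0 : 0 ≤ v) (hg : ∀ s, HasDerivAt g (p s) s)
    (hp : ∀ s, HasDerivAt p (q s) s) (hq : ∀ s, HasDerivAt q (r s) s) (hr : HasDerivAt r r' 0)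
    (hv : ∀ s, ‖p s‖ = v) (hpq : ∀ s, ⟪p s, q s⟫ = 0)
    (hc : ∀ h ∈ Icc 0 π, arsinh (A * (v * h)) / A ≤ ‖g h - g 0‖) : ‖q 0‖ ≤ 2 * A * v ^ 2 := by
  by_contra hlt
  push Not at hlt
  have hsq : (2 * A * v ^ 2) ^ 2 < ‖q 0‖ ^ 2 := pow_lt_pow_left₀ hlt (by positivity) two_ne_zero
  obtain ⟨κ, hκ1, hκ2⟩ := exists_between hsq
  have hpr : ⟪p 0, r 0⟫ = -‖q 0‖ ^ 2 := by
    have a1 := hasDerivAt_inner (hp 0) (hq 0)
    have a2 : (fun t => ⟪p t, q t⟫) = fun _ => (0 : ℝ) := funext hpq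
    rw [a2] at a1
    have a3 := a1.unique (hasDerivAt_const 0 0)
    rw [real_inner_self_eq_norm_sq] at a3
    linarith
  have ha : HasDerivAt (fun t => ⟪g t - g 0, r t⟫ + κ * t) (κ - ‖q 0‖ ^ 2) 0 := by
    refine ((hasDerivAt_inner ((hg 0).sub_const (g 0)) hr).add
      ((hasDerivAt_id (0 : ℝ)).const_mul κ)).congr_deriv ?_
    rw [hpr]; simp; ring
  have hev : ∀ᶠ t in 𝓝[>] (0 : ℝ), ⟪g t - g 0, r t⟫ + κ * t ≤ 0 := by
    have a1 := ha.tendsto_slope_zero_right.eventually (gt_mem_nhds (sub_neg.2 hκ2))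
    filter_upwards [a1, self_mem_nhdsWithin] with t ht ht0
    simp only [zero_add, sub_self, inner_zero_left, mul_zero, add_zero, sub_zero, smul_eq_mul] at ht
    have a2 : (0 : ℝ) < t⁻¹ := inv_pos.2 ht0
    by_contra hc
    push Not at hc
    exact absurd ht (not_lt.2 (mul_pos a2 hc).le)
  obtain ⟨δ, hδ, hδ'⟩ := (nhdsGT_basis (0 : ℝ)).eventually_iff.1 hev
  have hb : ∀ t ∈ Ioo 0 δ, 0 ≤ -κ / 2 * t ^ (1 + 1) - ⟪g t - g 0, q t⟫ := fun t ht =>
    nonneg_of_deriv (f := fun t => -κ / 2 * t ^ (1 + 1) - ⟪g t - g 0, q t⟫)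
      (f' := fun t => -κ / 2 * ((1 : ℕ) + 1) * t ^ 1 - (⟪p t, q t⟫ + ⟪g t - g 0, r t⟫)) ht.1.le
      (by simp)
      (fun s => (hd_pow _ 1 s).sub (hasDerivAt_inner ((hg s).sub_const (g 0)) (hq s)))
      (fun s hs => by
        have := hδ' ⟨hs.1, hs.2.trans ht.2⟩
        rw [hpq]; push_cast; linarith)
  have hc' : ∀ t ∈ Ioo 0 δ, 0 ≤ v ^ 2 * t + -κ / 6 * t ^ (2 + 1) - ⟪g t - g 0, p t⟫ := fun t ht =>
    nonneg_of_deriv (f := fun t => v ^ 2 * t + -κ / 6 * t ^ (2 + 1) - ⟪g t - g 0, p t⟫)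
      (f' := fun t => v ^ 2 * 1 + -κ / 6 * ((2 : ℕ) + 1) * t ^ 2
        - (⟪p t, p t⟫ + ⟪g t - g 0, q t⟫)) ht.1.le (by simp)
      (fun s => (((hasDerivAt_id s).const_mul (v ^ 2)).add (hd_pow _ 2 s)).sub
        (hasDerivAt_inner ((hg s).sub_const (g 0)) (hp s)))
      (fun s hs => by
        have := hb s ⟨hs.1, hs.2.trans ht.2⟩
        rw [real_inner_self_eq_norm_sq, hv]; push_cast; linarith)
  have hD : ∀ t ∈ Ioo 0 δ,
      0 ≤ v ^ 2 * t ^ (1 + 1) + -κ / 12 * t ^ (3 + 1) - ⟪g t - g 0, g t - g 0⟫ := fun t ht =>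
    nonneg_of_deriv
      (f := fun t => v ^ 2 * t ^ (1 + 1) + -κ / 12 * t ^ (3 + 1) - ⟪g t - g 0, g t - g 0⟫)
      (f' := fun t => v ^ 2 * ((1 : ℕ) + 1) * t ^ 1 + -κ / 12 * ((3 : ℕ) + 1) * t ^ 3
        - (⟪p t, g t - g 0⟫ + ⟪g t - g 0, p t⟫)) ht.1.le (by simp)
      (fun s => ((hd_pow _ 1 s).add (hd_pow _ 3 s)).sub
        (hasDerivAt_inner ((hg s).sub_const (g 0)) ((hg s).sub_const (g 0))))
      (fun s hs => by
        have := hc' s ⟨hs.1, hs.2.trans ht.2⟩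
        rw [real_inner_comm (g s - g 0) (p s)]; push_cast; linarith)
  obtain ⟨t, ht0, htδ, htπ, htA⟩ : ∃ t : ℝ, 0 < t ∧ t < δ ∧ t ≤ π ∧ A * (v * t) ≤ 1 := by
    have hAv : 0 < A * v + 1 := by positivity
    refine ⟨min (δ / 2) (min π (1 / (A * v + 1))), lt_min (half_pos hδ) (lt_min pi_pos
      (by positivity)), (min_le_left _ _).trans_lt (half_lt_self hδ),
      (min_le_right _ _).trans (min_le_left _ _), ?_⟩
    have a1 : min (δ / 2) (min π (1 / (A * v + 1))) ≤ 1 / (A * v + 1) :=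
      (min_le_right _ _).trans (min_le_right _ _)
    have a2 := mul_le_mul_of_nonneg_left a1 (mul_nonneg hA.le hv0)
    have a3 : A * v * (1 / (A * v + 1)) ≤ 1 := by
      rw [mul_one_div, div_le_one hAv]; linarith
    rw [← mul_assoc]
    exact a2.trans a3
  have b1 := hD t ⟨ht0, htδ⟩
  rw [real_inner_self_eq_norm_sq] at b1
  have hx : 0 ≤ A * (v * t) := by positivity
  have b2 := hc t ⟨ht0.le, htπ⟩
  rw [div_le_iff₀ hA] at b2
  have b3 := (le_arsinh hx).trans b2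
  have b4 : 0 ≤ A * (v * t) - (A * (v * t)) ^ 3 / 6 := by
    have := pow_le_of_le_one hx htA (three_ne_zero (α := ℕ))
    linarith
  have b5 := pow_le_pow_left₀ b4 b3 2
  have b6 : (‖g t - g 0‖ * A) ^ 2 ≤ (v ^ 2 * t ^ 2 - κ / 12 * t ^ 4) * A ^ 2 := by
    rw [mul_pow]
    exact mul_le_mul_of_nonneg_right (by linarith) (sq_nonneg A)
  have b7 : 0 < t ^ 4 * A ^ 2 := by positivity
  have b8 := mul_lt_mul_of_pos_right hκ1 b7
  have b9 : 0 ≤ ((A * (v * t)) ^ 3 / 6) ^ 2 := sq_nonneg _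
  nlinarith

/-- Variation of constants. -/
lemma near_cos {f f1 f2 : ℝ → ℝ} {δ s : ℝ} (hf : ∀ s, HasDerivAt f (f1 s) s)
    (hf1 : ∀ s, HasDerivAt f1 (f2 s) s) (h0 : f 0 = 1) (h1 : f1 0 = 0)
    (hz : ∀ s, |f2 s + v ^ 2 * f s| ≤ δ) (hs : 0 ≤ s) : |v * (f s - cos (v * s))| ≤ 2 * (δ * s) := by
  have hc : ∀ s, HasDerivAt (fun s => cos (v * s)) (-sin (v * s) * (v * 1)) s := fun s =>
    ((hasDerivAt_id s).const_mul v).cos
  have hsn : ∀ s, HasDerivAt (fun s => sin (v * s)) (cos (v * s) * (v * 1)) s := fun s =>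
    ((hasDerivAt_id s).const_mul v).sin
  have key : ∀ (c x : ℝ), |c| ≤ 1 → ‖c * (f2 x + v ^ 2 * f x)‖ ≤ δ := fun c x hc => by
    rw [Real.norm_eq_abs, abs_mul]
    exact (mul_le_of_le_one_left (abs_nonneg _) hc).trans (hz x)
  have w1 := mvt (f := fun s => cos (v * s) * f1 s + v * (sin (v * s) * f s))
    (f' := fun s => cos (v * s) * (f2 s + v ^ 2 * f s))
    (fun s => (((hc s).mul (hf1 s)).add (((hsn s).mul (hf s)).const_mul v)).congr_deriv (by ring))
    (fun s => key _ _ (abs_cos_le_one _)) hs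
  have w2 := mvt (f := fun s => sin (v * s) * f1 s - v * (cos (v * s) * f s))
    (f' := fun s => sin (v * s) * (f2 s + v ^ 2 * f s))
    (fun s => (((hsn s).mul (hf1 s)).sub (((hc s).mul (hf s)).const_mul v)).congr_deriv (by ring))
    (fun s => key _ _ (abs_sin_le_one _)) hs
  simp only [mul_zero, cos_zero, sin_zero, h0, h1, add_zero, sub_zero, mul_one,
    zero_sub, sub_neg_eq_add, Real.norm_eq_abs] at w1 w2
  have e : v * (f s - cos (v * s)) =
      sin (v * s) * (cos (v * s) * f1 s + v * (sin (v * s) * f s))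
        - cos (v * s) * (sin (v * s) * f1 s - v * (cos (v * s) * f s) + v) := by
    linear_combination (-(v * f s)) * sin_sq_add_cos_sq (v * s)
  rw [e]
  refine (abs_sub _ _).trans ?_
  rw [abs_mul, abs_mul]
  have a1 := mul_le_of_le_one_left (abs_nonneg (cos (v * s) * f1 s + v * (sin (v * s) * f s)))
    (abs_sin_le_one (v * s))
  have a2 := mul_le_of_le_one_left
    (abs_nonneg (sin (v * s) * f1 s - v * (cos (v * s) * f s) + v)) (abs_cos_le_one (v * s))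
  linarith

lemma contU {F : Type*} [NormedAddCommGroup F] [NormedSpace ℝ F] {f : P → F}
    (hf : ContDiffOn ℝ ∞ f Ind) : ContinuousOn f U := hf.continuousOn.mono U_sub_Ind

lemma part1 (hA : CurveAStmt) (G : P → E) (hG : Good G) (hc : CSpeed G) :
    ∃ A > 0, Chord A G ∧ ∀ u ∈ U, arsinh (A * (‖V G u‖ * π)) / A < 2 := by
  have hs := hG.smooth
  have hs1 := contDiffOn_V hs
  have hs2 := contDiffOn_V hs1
  obtain ⟨v1, hv1⟩ := isCompact_U.exists_bound_of_continuousOn (contU hs1)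
  obtain ⟨B, hB⟩ := isCompact_U.exists_bound_of_continuousOn (contU hs2)
  have hv0 : ∀ u ∈ U, 1 / 2 ≤ ‖V G u‖ := fun u hu => by
    refine le_trans ?_ (hA G hG.toOdd1 (constr_of_cspeed hG.toOdd1 hc) u hu).1
    rw [div_le_div_iff₀ two_pos pi_pos]
    linarith [pi_le_four]
  have hB2 : 0 < B ^ 2 + 1 := by positivity
  obtain ⟨h0, hh0, hh1, hh2⟩ : ∃ h0 : ℝ, 0 < h0 ∧ h0 ≤ π ∧ B ^ 2 * h0 ^ 2 ≤ 1 / 2 := by
    refine ⟨min π (1 / (2 * (B ^ 2 + 1))), lt_min pi_pos (by positivity), min_le_left _ _, ?_⟩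
    have a1 := pow_le_pow_left₀ (lt_min pi_pos (by positivity)).le
      (min_le_right π (1 / (2 * (B ^ 2 + 1)))) 2
    refine (mul_le_mul_of_nonneg_left a1 (sq_nonneg B)).trans ?_
    rw [div_pow, one_pow, mul_one_div, div_le_div_iff₀ (by positivity) two_pos]
    nlinarith [sq_nonneg B, sq_nonneg (B ^ 2)]
  have hcont : ContinuousOn (fun a : P × ℝ => ‖G (rho a.2 a.1) - G a.1‖) (U ×ˢ Icc h0 π) := by
    have c1 : Continuous fun a : P × ℝ => rho a.2 a.1 := by unfold rho; fun_prop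
    exact (((contU hs).comp c1.continuousOn fun a ha => rho_mem_U ha.1 _).sub
      ((contU hs).comp continuous_fst.continuousOn fun a ha => ha.1)).norm
  obtain ⟨a0, ha0, hmin⟩ := (isCompact_U.prod isCompact_Icc).exists_isMinOn
    (U_nonempty.prod (nonempty_Icc.2 hh1)) hcont
  have hd0 : 0 < ‖G (rho a0.2 a0.1) - G a0.1‖ :=
    norm_pos_iff.2 (sub_ne_zero.2 (hG.emb _ ha0.1 _ ⟨hh0.trans_le ha0.2.1, ha0.2.2⟩))
  generalize hd : ‖G (rho a0.2 a0.1) - G a0.1‖ = d0 at hd0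
  have hmin' : ∀ u ∈ U, ∀ h ∈ Icc h0 π, d0 ≤ ‖G (rho h u) - G u‖ := fun u hu h hh => by
    rw [← hd]; exact hmin (a := (u, h)) ⟨hu, hh⟩
  have hv1' : 0 ≤ v1 := by
    obtain ⟨u, hu⟩ := U_nonempty
    exact (norm_nonneg _).trans (hv1 u hu)
  obtain ⟨K, hK0, hK1, hK2, hK3⟩ :
      ∃ K : ℝ, 0 < K ∧ 22 * B ^ 2 ≤ K ∧ v1 * π ≤ K * d0 ^ 3 ∧ v1 * π ≤ K := by
    have a1 : 0 ≤ v1 * π := by positivity
    have a2 : 0 ≤ v1 * π / d0 ^ 3 := by positivity
    have a3 : 0 ≤ 22 * B ^ 2 := by positivity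
    refine ⟨1 + 22 * B ^ 2 + v1 * π / d0 ^ 3 + v1 * π, by positivity, by linarith, ?_, by linarith⟩
    rw [← div_le_iff₀ (by positivity)]
    linarith
  have hA2 : √(6 * K) ^ 2 / 6 = K := by rw [Real.sq_sqrt (by positivity)]; ring
  have hApos : 0 < √(6 * K) := Real.sqrt_pos.2 (by positivity)
  refine ⟨√(6 * K), hApos, fun u hu h hh => arsinh_div_le hApos (norm_nonneg _) ?_,
    fun u hu => ?_⟩
  · rw [hA2]
    have b0 := hv0 u hu
    rcases le_total h h0 with hle | hle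
    · have b1 := chord_ge (hasDerivAt_V' hs hu) (hasDerivAt_V' hs1 hu) (hc u hu)
        (fun s => hB _ (rho_mem_U hu s)) hh.1
      simp only [rho_zero] at b1
      generalize ‖G (rho h u) - G u‖ = d at b1 ⊢
      generalize ‖V G u‖ = v at b0 b1 ⊢
      have hh' := hh.1
      have hv : 0 < v := by linarith
      have b2 : B ^ 2 * h ^ 2 ≤ 1 / 2 :=
        (mul_le_mul_of_nonneg_left (pow_le_pow_left₀ hh' hle 2) (sq_nonneg B)).trans hh2
      have b3 : 0 ≤ B ^ 2 * h ^ 3 := by positivity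
      have b4 : v * h - B ^ 2 / 3 * h ^ 3 ≤ d := by
        refine le_of_mul_le_mul_left ?_ hv
        nlinarith
      have b5 : h / 3 ≤ d := by nlinarith
      have b6 := pow_le_pow_left₀ (by positivity) b5 3
      have b7 : 22 * B ^ 2 * (h / 3) ^ 3 ≤ K * d ^ 3 :=
        mul_le_mul hK1 b6 (by positivity) hK0.le
      nlinarith
    · have b1 := hmin' u hu h ⟨hle, hh.2⟩
      have b2 := mul_le_mul_of_nonneg_left (pow_le_pow_left₀ hd0.le b1 3) hK0.le
      have b3 : ‖V G u‖ * h ≤ v1 * π := mul_le_mul (hv1 u hu) hh.2 hh.1 hv1'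
      linarith [norm_nonneg (G (rho h u) - G u)]
  · refine lt_of_le_of_lt (arsinh_div_le (d := 1) hApos zero_le_one ?_) one_lt_two
    rw [hA2]
    have b3 : ‖V G u‖ * π ≤ v1 * π := mul_le_mul_of_nonneg_right (hv1 u hu) pi_pos.le
    linarith

lemma speed (hA : CurveAStmt) {G : P → E} (hG : Odd1 G) (hc : Constr G) {u : P} (hu : u ∈ U)
    (s : ℝ) : ‖V G (rho s u)‖ = ‖V G u‖ := by
  have h1 := (hc _ (rho_mem_U hu s)).2
  rw [(hA G hG hc u hu).2.1 s, ← (hc u hu).2] at h1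
  exact (pow_left_inj₀ (norm_nonneg _) (norm_nonneg _) two_ne_zero).1 h1

lemma part2 (hA : CurveAStmt) (G : P → E) (A : ℝ) (hA0 : 0 < A) (hG : Odd1 G) (hc : Constr G)
    (hch : Chord A G) (u : P) (hu : u ∈ U) : ‖V (V G) u‖ ≤ 2 * A * vsq G u := by
  have hs := hG.smooth
  have hs1 := contDiffOn_V hs
  have hs2 := contDiffOn_V hs1
  have hs3 := contDiffOn_V hs2
  have := curv_le hA0 (norm_nonneg (V G u)) (hasDerivAt_V' hs hu) (hasDerivAt_V' hs1 hu)
    (hasDerivAt_V' hs2 hu) (hasDerivAt_V' hs3 hu 0) (speed hA hG hc hu)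
    (fun s => (hA G hG hc _ (rho_mem_U hu s)).2.2.2.2.2.1)
    (fun h hh => by simpa only [rho_zero] using hch u hu h hh)
  rwa [rho_zero, (hc u hu).2] at this

lemma part3 (hA : CurveAStmt) (A : ℝ) (hA0 : 0 < A) (ε : ℝ) (hε : 0 < ε) :
    ∃ η > 0, ∀ G, Odd1 G → Constr G → Chord A G →
      ∀ u ∈ U, (∀ s, |wk G (rho s u)| ≤ η) → |vsq G u - 1| ≤ ε := by
  have hc0 : 0 < arsinh (A * (2 * π)) / A := div_pos (Real.arsinh_pos_iff.2 (by positivity)) hA0
  generalize hc : arsinh (A * (2 * π)) / A = c at hc0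
  refine ⟨min (c ^ 2 / 100) (ε ^ 2 / 200), lt_min (by positivity) (by positivity),
    fun G hG hco hch u hu hw => ?_⟩
  have hη1 := min_le_left (c ^ 2 / 100) (ε ^ 2 / 200)
  have hη2 := min_le_right (c ^ 2 / 100) (ε ^ 2 / 200)
  generalize min (c ^ 2 / 100) (ε ^ 2 / 200) = η at hη1 hη2 hw
  have hη : 0 ≤ η := (abs_nonneg _).trans (hw 0)
  have hs := hG.smooth
  have hs1 := contDiffOn_V hs
  have hv0 : 1 / 2 ≤ ‖V G u‖ := by
    refine le_trans ?_ (hA G hG hco u hu).1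
    rw [div_le_div_iff₀ two_pos pi_pos]
    linarith [pi_le_four]
  have hsp := speed hA hG hco hu
  have hvs := (hco u hu).2
  generalize hv : ‖V G u‖ = v at hv0 hsp hvs
  have hvp : 0 < v := by linarith
  have hz : ∀ s, |(⟪V (V G) (rho s u), G u⟫ + ⟪V G (rho s u), (0 : E)⟫)
      + v ^ 2 * ⟪G (rho s u), G u⟫| ≤ 2 * η := fun s => by
    have hu' := rho_mem_U hu s
    have a1 := (hA G hG hco _ hu').2.2.2.2.2.2.1
    rw [(hA G hG hco u hu).2.1 s, ← hvs] at a1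
    rw [a1, inner_add_left, real_inner_smul_left, real_inner_smul_left, inner_zero_right]
    have a2 := abs_real_inner_le_norm (cr (G (rho s u)) (V G (rho s u))) (G u)
    have a3 := norm_cr_le (G (rho s u)) (V G (rho s u))
    rw [hG.unit u hu, mul_one] at a2
    rw [hG.unit _ hu', hsp, one_mul] at a3
    have a4 : -v ^ 2 * ⟪G (rho s u), G u⟫ + wk G (rho s u) / v ^ 2 *
        ⟪cr (G (rho s u)) (V G (rho s u)), G u⟫ + 0 + v ^ 2 * ⟪G (rho s u), G u⟫ =
        wk G (rho s u) * ⟪cr (G (rho s u)) (V G (rho s u)), G u⟫ / v ^ 2 := by ring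
    rw [a4, abs_div, abs_mul, abs_of_pos (pow_pos hvp 2), div_le_iff₀ (pow_pos hvp 2)]
    have a5 := mul_le_mul (hw s) (a2.trans a3) (abs_nonneg _) hη
    have a6 : 0 ≤ η * v := mul_nonneg hη hvp.le
    nlinarith
  have hf : ∀ s ∈ Icc 0 π, |⟪G (rho s u), G u⟫ - cos (v * s)| ≤ 32 * η := fun s hs' => by
    have a1 := near_cos (v := v) (f := fun s => ⟪G (rho s u), G u⟫)
      (f1 := fun s => ⟪V G (rho s u), G u⟫)
      (fun s => (hasDerivAt_inner (hasDerivAt_V' hs hu s)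
        (hasDerivAt_const s (G u))).congr_deriv (by simp))
      (fun s => hasDerivAt_inner (hasDerivAt_V' hs1 hu s) (hasDerivAt_const s (G u)))
      (by simp [hG.unit u hu])
      (by simp only [rho_zero]; rw [real_inner_comm]; exact (hA G hG hco u hu).2.2.2.1) hz hs'.1
    rw [abs_mul, abs_of_pos hvp] at a1
    have a2 := abs_nonneg (⟪G (rho s u), G u⟫ - cos (v * s))
    have a3 : η * s ≤ η * 4 := mul_le_mul_of_nonneg_left (hs'.2.trans pi_le_four) hη
    nlinarith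
  have hv2 : v < 2 := by
    by_contra hge
    push Not at hge
    have a0 : 2 * π / v ∈ Icc 0 π := ⟨by positivity, by
      rw [div_le_iff₀ hvp]; nlinarith [pi_pos]⟩
    have a1 := hf _ a0
    have a2 := hch u hu _ a0
    have a3 : v * (2 * π / v) = 2 * π := by field_simp
    rw [hv, a3, hc] at a2
    rw [a3, cos_two_pi] at a1
    have a4 := norm_sub_sq_real (G (rho (2 * π / v) u)) (G u)
    rw [hG.unit u hu, hG.unit _ (rho_mem_U hu _)] at a4
    have a5 := pow_le_pow_left₀ hc0.le a2 2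
    have a6 := (abs_le.1 a1).1
    nlinarith [pow_pos hc0 2]
  have b1 := hf π ⟨pi_pos.le, le_rfl⟩
  rw [rho_pi, hG.odd u hu, inner_neg_left, real_inner_self_eq_norm_sq, hG.unit u hu] at b1
  have b2 : cos ((v - 1) * π) ≤ 1 - 2 / π ^ 2 * ((v - 1) * π) ^ 2 := by
    refine Real.cos_le_one_sub_mul_cos_sq ?_
    rw [abs_mul, abs_of_pos pi_pos]
    exact mul_le_of_le_one_left pi_pos.le (abs_le.2 ⟨by linarith, by linarith⟩)
  have b3 : cos ((v - 1) * π) = -cos (v * π) := by rw [sub_mul, one_mul, cos_sub_pi]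
  have b4 : 2 / π ^ 2 * ((v - 1) * π) ^ 2 = 2 * (v - 1) ^ 2 := by field_simp
  have b5 := (abs_le.1 b1).1
  have b6 : (v - 1) ^ 2 ≤ 16 * η := by linarith
  rw [← hvs]
  refine abs_le_of_sq_le_sq ?_ hε.le
  have b7 : (v + 1) ^ 2 ≤ 9 := by nlinarith
  have b8 := mul_le_mul b6 b7 (sq_nonneg _) (by positivity)
  nlinarith [pow_pos hε 2]

end CurveB

theorem curveb_of (_hM : MeanStmt) (hA : CurveAStmt) : CurveBStmt :=
  ⟨CurveB.part1 hA, CurveB.part2 hA, CurveB.part3 hA⟩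

end Pool.Agent.MP_2291e2_gt.Zl

end MrgPart2

-- ======== part 3: formerly Pool.Agent.MP_2291e2_gt.zl.Glue
section MrgPart3

/-! Gluing the background chart and the two polar charts into one odd immersion of the strip. -/

open scoped ContDiff RealInnerProductSpace Topology
open Set Filter Real

namespace Pool.Agent.MP_2291e2_gt.Zl

namespace Glue

/-- Mercator parametrisation of the sphere. -/
noncomputable def sph (r t : ℝ) : E := !₂[cos t / cosh r, sin t / cosh r, sinh r / cosh r]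

lemma sph0 (r t : ℝ) : sph r t 0 = cos t / cosh r := by simp [sph]
lemma sph1 (r t : ℝ) : sph r t 1 = sin t / cosh r := by simp [sph]
lemma sph2 (r t : ℝ) : sph r t 2 = sinh r / cosh r := by simp [sph]

lemma norm_sph (r t : ℝ) : ‖sph r t‖ = 1 := by
  have hc : cosh r ≠ 0 := (cosh_pos r).ne'
  have h : ‖sph r t‖ ^ 2 = 1 := by
    rw [normsq3, sph0, sph1, sph2]
    have h1 := cos_sq_add_sin_sq t
    have h2 := cosh_sq r
    field_simp
    linarith
  have h0 := norm_nonneg (sph r t)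
  nlinarith

lemma sph_neg (r t : ℝ) : sph (-r) (t + π) = -sph r t := by
  apply ext3
  · simp [sph0, neg_div]
  · simp [sph1, neg_div]
  · simp [sph2, neg_div]

lemma sph_per (r t : ℝ) : sph r (t + 2 * π) = sph r t := by
  apply ext3
  · simp [sph0]
  · simp [sph1]
  · simp [sph2]

lemma st_exp (r t : ℝ) : st (Complex.exp ((r : ℝ) + (t : ℝ) * Complex.I)) = sph r t := by
  have he : 0 < exp r := exp_pos r
  have hn : Complex.normSq (Complex.exp ((r : ℝ) + (t : ℝ) * Complex.I)) = exp r ^ 2 := by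
    rw [Complex.normSq_eq_norm_sq, Complex.norm_exp]
    simp
  have hre : (Complex.exp ((r : ℝ) + (t : ℝ) * Complex.I)).re = exp r * cos t := by
    rw [Complex.exp_re]; simp
  have him : (Complex.exp ((r : ℝ) + (t : ℝ) * Complex.I)).im = exp r * sin t := by
    rw [Complex.exp_im]; simp
  have hc : cosh r = (exp r ^ 2 + 1) / (2 * exp r) := by
    rw [cosh_eq, exp_neg]; field_simp
  have hs : sinh r = (exp r ^ 2 - 1) / (2 * exp r) := by
    rw [sinh_eq, exp_neg]; field_simp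
  have hp : exp r ^ 2 + 1 ≠ 0 := by positivity
  unfold st
  rw [hn, hre, him]
  apply ext3
  · rw [sph0, hc]; simp; field_simp
  · rw [sph1, hc]; simp; field_simp
  · rw [sph2, hc, hs]; simp; field_simp

lemma contDiffAt_sph {X : Type} [NormedAddCommGroup X] [NormedSpace ℝ X] {f g : X → ℝ} {z : X}
    (hf : ContDiffAt ℝ ∞ f z) (hg : ContDiffAt ℝ ∞ g z) :
    ContDiffAt ℝ ∞ (fun z => sph (f z) (g z)) z := by
  have hc : cosh (f z) ≠ 0 := (cosh_pos _).ne'
  rw [contDiffAt_euclidean]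
  intro i
  fin_cases i
  · exact (hg.cos.div hf.cosh hc).congr_of_eventuallyEq (Eventually.of_forall fun y => sph0 _ _)
  · exact (hg.sin.div hf.cosh hc).congr_of_eventuallyEq (Eventually.of_forall fun y => sph1 _ _)
  · exact (hf.sinh.div hf.cosh hc).congr_of_eventuallyEq (Eventually.of_forall fun y => sph2 _ _)

lemma sph_inj {X : Type} [NormedAddCommGroup X] [NormedSpace ℝ X] {f g : X → ℝ} {z δ : X}
    (hf : ContDiffAt ℝ ∞ f z) (hg : ContDiffAt ℝ ∞ g z)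
    (h : fderiv ℝ (fun z => sph (f z) (g z)) z δ = 0) :
    fderiv ℝ f z δ = 0 ∧ fderiv ℝ g z δ = 0 := by
  have hΨ := ((contDiffAt_sph hf hg).differentiableAt (by simp)).hasFDerivAt
  have hf' := (hf.differentiableAt (by simp)).hasFDerivAt
  have hg' := (hg.differentiableAt (by simp)).hasFDerivAt
  have hc : ∀ y, cosh (f y) ≠ 0 := fun y => (cosh_pos _).ne'
  have key : ∀ (i : Fin 3) (k : X → ℝ) (k' : X →L[ℝ] ℝ), HasFDerivAt k k' z →
      (∀ y, cosh (f y) * sph (f y) (g y) i = k y) →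
      k' δ = sph (f z) (g z) i * (sinh (f z) * fderiv ℝ f z δ) := by
    intro i k k' hk he
    have h1 : HasFDerivAt (fun y => sph (f y) (g y) i)
        ((EuclideanSpace.proj i : E →L[ℝ] ℝ).comp (fderiv ℝ (fun z => sph (f z) (g z)) z)) z :=
      (EuclideanSpace.proj i : E →L[ℝ] ℝ).hasFDerivAt.comp z hΨ
    have h2 := hf'.cosh.mul h1
    have h3 : (fun y => cosh (f y)) * (fun y => sph (f y) (g y) i) = k := funext fun y => he y
    rw [h3] at h2
    rw [hk.unique h2]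
    simp [h]
  have k2 := key 2 _ _ hf'.sinh (fun y => by rw [sph2]; field_simp [hc y])
  have k0 := key 0 _ _ hg'.cos (fun y => by rw [sph0]; field_simp [hc y])
  have k1 := key 1 _ _ hg'.sin (fun y => by rw [sph1]; field_simp [hc y])
  simp only [smul_apply, smul_eq_mul, sph2] at k0 k1 k2
  have hf0 : fderiv ℝ f z δ = 0 := by
    have h2 := cosh_sq (f z)
    have h3 := hc z
    field_simp at k2
    have h4 : fderiv ℝ f z δ * (cosh (f z) ^ 2 - sinh (f z) ^ 2) = 0 := by linarith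
    rw [show cosh (f z) ^ 2 - sinh (f z) ^ 2 = 1 by linarith] at h4
    linarith
  refine ⟨hf0, ?_⟩
  rw [hf0] at k0 k1
  have h1 := cos_sq_add_sin_sq (g z)
  have h5 : fderiv ℝ g z δ * (cos (g z) ^ 2 + sin (g z) ^ 2) = 0 := by
    have a0 : sin (g z) * fderiv ℝ g z δ = 0 := by linarith
    have a1 : cos (g z) * fderiv ℝ g z δ = 0 := by linarith
    linear_combination sin (g z) * a0 + cos (g z) * a1
  rw [h1] at h5
  linarith

lemma jdet_inj {f g : ℝ × ℝ → ℝ} {z δ : ℝ × ℝ} (h : jdet f g z ≠ 0) (hf : fderiv ℝ f z δ = 0)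
    (hg : fderiv ℝ g z δ = 0) : δ = 0 := by
  have e : δ = δ.1 • ((1 : ℝ), (0 : ℝ)) + δ.2 • ((0 : ℝ), (1 : ℝ)) := by ext <;> simp
  rw [e, map_add, map_smul, map_smul, smul_eq_mul, smul_eq_mul] at hf hg
  unfold jdet at h
  have h1 : δ.1 * (fderiv ℝ f z (1, 0) * fderiv ℝ g z (0, 1)
      - fderiv ℝ f z (0, 1) * fderiv ℝ g z (1, 0)) = 0 := by
    linear_combination fderiv ℝ g z (0, 1) * hf - fderiv ℝ f z (0, 1) * hg
  have h2 : δ.2 * (fderiv ℝ f z (1, 0) * fderiv ℝ g z (0, 1)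
      - fderiv ℝ f z (0, 1) * fderiv ℝ g z (1, 0)) = 0 := by
    linear_combination fderiv ℝ f z (1, 0) * hg - fderiv ℝ g z (1, 0) * hf
  exact Prod.ext ((mul_eq_zero.1 h1).resolve_right h) ((mul_eq_zero.1 h2).resolve_right h)

variable {T : ℝ} {xp bp zf : ℝ × ℝ → ℝ}

lemma exists_d0 (hI : Invol T xp bp) :
    ∃ δ₀ > 0, ∀ z : ℝ × ℝ, z.2 ∈ Icc 0 δ₀ → δ₀ < bp z := by
  have h1 : ∀ᶠ β in 𝓝 (0 : ℝ), ∀ x ∈ Icc 0 T, π / 2 < bp (x, β) := by
    apply isCompact_Icc.eventually_forall_of_forall_eventually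
    intro x _
    have hc : ContinuousAt (fun q : ℝ × ℝ => bp (q.2, q.1)) (0, x) :=
      (hI.bsm.continuous.comp (continuous_snd.prodMk continuous_fst)).continuousAt
    apply hc.eventually (lt_mem_nhds _)
    show π / 2 < bp (x, 0)
    rw [hI.b0]; linarith [pi_pos]
  obtain ⟨ε, hε, h2⟩ := Metric.eventually_nhds_iff.1 h1
  refine ⟨min (ε / 2) (π / 2), lt_min (by linarith) (by linarith [pi_pos]), ?_⟩
  rintro ⟨x, β⟩ ⟨hβ0, hβ1⟩
  have hp : Function.Periodic (fun x => bp (x, β)) T := fun x => hI.bper x β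
  obtain ⟨y, hy, e⟩ := hp.exists_mem_Ico₀ hI.Tpos x
  have h3 : dist β 0 < ε := by
    rw [Real.dist_eq, sub_zero, abs_of_nonneg hβ0]
    have := min_le_left (ε / 2) (π / 2)
    simp only at hβ1
    linarith
  have h4 := h2 h3 y (Ico_subset_Icc_self hy)
  have e' : bp (x, β) = bp (y, β) := e
  rw [e']
  exact lt_of_le_of_lt (min_le_right _ _) h4

lemma theta_smooth (hI : Invol T xp bp) : ContDiff ℝ ∞ (theta T xp) :=
  (contDiff_const.mul (contDiff_fst.add hI.xsm)).div_const T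

lemma theta_per (hI : Invol T xp bp) (x β : ℝ) :
    theta T xp (x + T, β) = theta T xp (x, β) + 2 * π := by
  have := hI.Tpos.ne'
  unfold theta
  rw [hI.xper]
  field_simp
  ring

lemma theta_inv (hI : Invol T xp bp) (z : ℝ × ℝ) :
    theta T xp (xp z, bp z) = theta T xp z + π := by
  have := hI.Tpos.ne'
  unfold theta
  rw [hI.invx]
  field_simp
  ring

lemma theta_int (hI : Invol T xp bp) (x β : ℝ) (n : ℤ) :
    theta T xp (x + n * T, β) = theta T xp (x, β) + n * (2 * π) := by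
  have hT := hI.Tpos.ne'
  have hp : Function.Periodic (fun x => xp (x, β) - x) T := fun x => by
    show xp (x + T, β) - (x + T) = xp (x, β) - x
    rw [hI.xper]; ring
  have h1 : xp (x + n * T, β) - (x + n * T) = xp (x, β) - x := hp.int_mul n x
  have h2 : xp (x + n * T, β) = xp (x, β) + n * T := by linarith
  unfold theta
  rw [h2]
  field_simp
  ring

lemma lr_inv (hH : Height T xp bp zf) {z : ℝ × ℝ} (hz : z.2 ∈ Ioo 0 π) :
    lr zf (xp z, bp z) = -lr zf z := by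
  unfold lr
  rw [hH.odd z (Ioo_subset_Icc_self hz), ← neg_div, ← log_inv, inv_div, sub_neg_eq_add,
    ← sub_eq_add_neg]

lemma lr_smooth (hH : Height T xp bp zf) {z : ℝ × ℝ} (hz : z.2 ∈ Ioo 0 π) :
    ContDiffAt ℝ ∞ (lr zf) z := by
  obtain ⟨Ω, ho, hs, hc⟩ := hH.smooth
  have h1 : ContDiffAt ℝ ∞ zf z :=
    hc.contDiffAt (ho.mem_nhds (hs ⟨mem_univ _, Ioo_subset_Icc_self hz⟩))
  obtain ⟨h2, h3⟩ := hH.mem z hz
  have h4 : 1 - zf z ≠ 0 := by linarith
  have h5 : (1 + zf z) / (1 - zf z) ≠ 0 := div_ne_zero (by linarith) h4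
  exact (((contDiffAt_const.add h1).div (contDiffAt_const.sub h1) h4).log h5).div_const 2

lemma lr_zero (hH : Height T xp bp zf) {z : ℝ × ℝ} (hz : z.2 ∈ Ioo 0 π) (h : lr zf z = 0) :
    zf z = 0 := by
  obtain ⟨h2, h3⟩ := hH.mem z hz
  have h4 : 0 < 1 - zf z := by linarith
  have h5 : 0 < (1 + zf z) / (1 - zf z) := div_pos (by linarith) h4
  have h6 : log ((1 + zf z) / (1 - zf z)) = 0 := by
    unfold lr at h; linarith
  have h7 : (1 + zf z) / (1 - zf z) = 1 := by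
    rw [← exp_log h5, h6, exp_zero]
  rw [div_eq_iff h4.ne'] at h7
  linarith

lemma exists_zero (hI : Invol T xp bp) (hH : Height T xp bp zf) :
    ∃ β ∈ Ioo 0 π, zf (0, β) = 0 := by
  obtain ⟨Ω, ho, hs, hc⟩ := hH.smooth
  have h1 : ContinuousOn (fun β : ℝ => zf (0, β)) (Icc 0 π) :=
    hc.continuousOn.comp (continuous_const.prodMk continuous_id).continuousOn
      (fun β hβ => hs ⟨mem_univ _, hβ⟩)
  have h2 : zf (0, π) = 1 := by
    have h3 := hH.odd (0, π) ⟨pi_pos.le, le_rfl⟩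
    rw [hI.bpi, hH.bot] at h3
    linarith
  have h4 := intermediate_value_Ioo pi_pos.le h1
  have h5 : (0 : ℝ) ∈ Ioo (zf (0, 0)) (zf (0, π)) := by
    rw [h2, hH.bot]; constructor <;> norm_num
  exact h4 h5

end Glue

open Glue in
theorem glue_of (hI : InterpStmt) : GlueStmt := by
  intro T xp bp zf K hV hH hK hKp hK0 hKt hKo
  obtain ⟨δ₀, hδ₀, hd0⟩ := exists_d0 hV
  obtain ⟨dθ, dρ, hP⟩ := hI T δ₀ (theta T xp) zf K hV.Tpos hδ₀ (theta_smooth hV) (theta_per hV)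
    hH.thx hH.smooth hH.per hH.bot hH.mem hH.det hK hKp hK0 hKt hKo
  obtain ⟨δ₁, ⟨hδ₁, hδ₁'⟩, hs0, hs1⟩ := hP.supp
  set a : ℝ × ℝ → ℝ × ℝ := fun z => (xp z, bp z) with ha
  have hasm : ContDiff ℝ ∞ a := hV.xsm.prodMk hV.bsm
  have haa : ∀ z, a (a z) = (z.1 + T, z.2) := fun z => Prod.ext (hV.invx z) (hV.invb z)
  have hamem : ∀ z : ℝ × ℝ, z.2 ∈ Ioo 0 π → (a z).2 ∈ Ioo 0 π := hV.bmem
  set th : ℝ × ℝ → ℝ := fun z => theta T xp z + dθ z + dθ (a z) with hth
  set rh : ℝ × ℝ → ℝ := fun z => lr zf z + dρ z - dρ (a z) with hrh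
  have thsm : ∀ z : ℝ × ℝ, z.2 ∈ Ioo 0 π → ContDiffAt ℝ ∞ th z := fun z hz =>
    ((theta_smooth hV).contDiffAt.add (hP.smooth z hz).1).add
      ((hP.smooth _ (hamem z hz)).1.comp z hasm.contDiffAt)
  have rhsm : ∀ z : ℝ × ℝ, z.2 ∈ Ioo 0 π → ContDiffAt ℝ ∞ rh z := fun z hz =>
    ((lr_smooth hH hz).add (hP.smooth z hz).2).sub
      ((hP.smooth _ (hamem z hz)).2.comp z hasm.contDiffAt)
  have tha : ∀ z : ℝ × ℝ, z.2 ∈ Ioo 0 π → th (a z) = th z + π := fun z hz => by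
    have h1 : theta T xp (a z) = theta T xp z + π := theta_inv hV z
    have h2 : dθ (a (a z)) = dθ z := by rw [haa]; exact (hP.per z.1 z.2 hz).1
    show theta T xp (a z) + dθ (a z) + dθ (a (a z)) = theta T xp z + dθ z + dθ (a z) + π
    rw [h1, h2]; ring
  have rha : ∀ z : ℝ × ℝ, z.2 ∈ Ioo 0 π → rh (a z) = -rh z := fun z hz => by
    have h1 : lr zf (a z) = -lr zf z := lr_inv hH hz
    have h2 : dρ (a (a z)) = dρ z := by rw [haa]; exact (hP.per z.1 z.2 hz).2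
    show lr zf (a z) + dρ (a z) - dρ (a (a z)) = -(lr zf z + dρ z - dρ (a z))
    rw [h1, h2]; ring
  have hodd : ∀ z : ℝ × ℝ, z.2 ∈ Ioo 0 π → sph (rh (a z)) (th (a z)) = -sph (rh z) (th z) :=
    fun z hz => by rw [tha z hz, rha z hz, sph_neg]
  have hstrip : IsOpen {z : ℝ × ℝ | z.2 ∈ Ioo 0 π} := isOpen_Ioo.preimage continuous_snd
  -- immersion where the second polar correction vanishes
  have imm1 : ∀ z : ℝ × ℝ, z.2 ∈ Ioo 0 π → δ₁ < bp z → ∀ δ,
      fderiv ℝ (fun z => sph (rh z) (th z)) z δ = 0 → δ = 0 := by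
    intro z hz hb δ h
    obtain ⟨h1, h2⟩ := sph_inj (rhsm z hz) (thsm z hz) h
    have hev : ∀ᶠ y in 𝓝 z, δ₁ < bp y := hV.bsm.continuous.continuousAt.eventually (lt_mem_nhds hb)
    have e1 : th =ᶠ[𝓝 z] fun z => theta T xp z + dθ z := hev.mono fun y hy => by
      show theta T xp y + dθ y + dθ (a y) = theta T xp y + dθ y
      rw [(hs0 (a y) hy.le).1, add_zero]
    have e2 : rh =ᶠ[𝓝 z] fun z => lr zf z + dρ z := hev.mono fun y hy => by
      show lr zf y + dρ y - dρ (a y) = lr zf y + dρ y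
      rw [(hs0 (a y) hy.le).2, sub_zero]
    rw [e1.fderiv_eq] at h2
    rw [e2.fderiv_eq] at h1
    exact jdet_inj (hP.det z hz) h2 h1
  -- the lower region
  have low : ∀ z : ℝ × ℝ, z.2 ∈ Ioo 0 δ₁ → zf z < 0 ∧ rh z < 0 := fun z hz => by
    have hb : δ₀ < bp z := hd0 z ⟨hz.1.le, by linarith [hz.2]⟩
    refine ⟨(hs1 z hz).1, ?_⟩
    show lr zf z + dρ z - dρ (a z) < 0
    rw [(hs0 (a z) (by show δ₁ ≤ bp z; linarith)).2, sub_zero]
    exact (hs1 z hz).2
  have mid : ∀ z : ℝ × ℝ, z.2 ∈ Ioo 0 π → (zf z = 0 ∨ rh z = 0) →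
      th z = theta T xp z ∧ rh z = lr zf z := fun z hz h0 => by
    have h1 : δ₁ ≤ z.2 := by
      by_contra hc
      obtain ⟨h2, h3⟩ := low z ⟨hz.1, not_le.1 hc⟩
      rcases h0 with h0 | h0 <;> linarith
    have h2 : δ₁ ≤ (a z).2 := by
      by_contra hc
      obtain ⟨h2, h3⟩ := low (a z) ⟨(hamem z hz).1, not_le.1 hc⟩
      have h4 : zf (a z) = -zf z := hH.odd z (Ioo_subset_Icc_self hz)
      rw [rha z hz] at h3
      rcases h0 with h0 | h0 <;> linarith
    constructor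
    · show theta T xp z + dθ z + dθ (a z) = theta T xp z
      rw [(hs0 z h1).1, (hs0 _ h2).1]; ring
    · show lr zf z + dρ z - dρ (a z) = lr zf z
      rw [(hs0 z h1).2, (hs0 _ h2).2]; ring
  refine ⟨fun z => sph (rh z) (th z), fun z hz => contDiffAt_sph (rhsm z hz) (thsm z hz),
    fun z _ => norm_sph _ _, ?_, hodd, ?_, ?_, ?_⟩
  · intro x β hβ
    have hb : bp (x, β) ∈ Ioo 0 π := hV.bmem (x, β) hβ
    have e : a (x + T, β) = (xp (x, β) + T, bp (x, β)) := Prod.ext (hV.xper x β) (hV.bper x β)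
    have h1 : th (x + T, β) = th (x, β) + 2 * π := by
      show theta T xp (x + T, β) + dθ (x + T, β) + dθ (a (x + T, β))
        = theta T xp (x, β) + dθ (x, β) + dθ (xp (x, β), bp (x, β)) + 2 * π
      rw [theta_per hV, e, (hP.per x β hβ).1, (hP.per _ _ hb).1]; ring
    have h2 : rh (x + T, β) = rh (x, β) := by
      show lr zf (x + T, β) + dρ (x + T, β) - dρ (a (x + T, β))
        = lr zf (x, β) + dρ (x, β) - dρ (xp (x, β), bp (x, β))
      have h3 : lr zf (x + T, β) = lr zf (x, β) := by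
        unfold lr; rw [hH.per x β (Ioo_subset_Icc_self hβ)]
      rw [h3, e, (hP.per x β hβ).2, (hP.per _ _ hb).2]
    show sph (rh (x + T, β)) (th (x + T, β)) = sph (rh (x, β)) (th (x, β))
    rw [h1, h2, sph_per]
  · intro z hz δ h
    by_cases hb : δ₁ < bp z
    · exact imm1 z hz hb δ h
    have hz' := hamem z hz
    have hb' : δ₁ < bp (a z) :=
      hδ₁'.trans (hd0 (a z) ⟨hz'.1.le, by show bp z ≤ δ₀; linarith [not_lt.1 hb]⟩)
    have had : ∀ y, HasFDerivAt a (fderiv ℝ a y) y := fun y =>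
      (hasm.differentiable (by simp) y).hasFDerivAt
    have hΨ := ((contDiffAt_sph (rhsm _ hz') (thsm _ hz')).differentiableAt (by simp)).hasFDerivAt
    have h1 := (hΨ.comp z (had z)).neg
    have e1 : (fun z => sph (rh z) (th z)) =ᶠ[𝓝 z]
        -((fun z => sph (rh z) (th z)) ∘ a) :=
      Filter.mem_of_superset (hstrip.mem_nhds hz) fun y hy => by
        show sph (rh y) (th y) = -sph (rh (a y)) (th (a y))
        rw [hodd y hy, neg_neg]
    rw [(h1.congr_of_eventuallyEq e1).fderiv] at h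
    have h2 : fderiv ℝ (fun z => sph (rh z) (th z)) (a z) (fderiv ℝ a z δ) = 0 := by
      simpa using h
    have h3 := imm1 (a z) hz' hb' _ h2
    have h4 := (had (a z)).comp z (had z)
    have h5 : HasFDerivAt (a ∘ a) (ContinuousLinearMap.id ℝ (ℝ × ℝ)) z := by
      have e2 : a ∘ a = fun y => y + (T, 0) := funext fun y => by
        show a (a y) = y + (T, 0)
        rw [haa]; ext <;> simp
      rw [e2]
      exact (hasFDerivAt_id z).add_const _
    have h6 : fderiv ℝ a (a z) (fderiv ℝ a z δ) = δ := by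
      have := congrArg (fun L : ℝ × ℝ →L[ℝ] ℝ × ℝ => L δ) (h4.unique h5)
      simpa using this
    rw [h3, map_zero] at h6
    exact h6.symm
  · obtain ⟨δ, hδ, hpole⟩ := hP.pole
    refine ⟨min δ δ₀, lt_min hδ hδ₀, fun z hz => ?_⟩
    have hb : δ₀ < bp z := hd0 z ⟨hz.1.le, hz.2.le.trans (min_le_right _ _)⟩
    have h0 := hs0 (a z) (by show δ₁ ≤ bp z; linarith)
    rw [hpole z ⟨hz.1, hz.2.trans_le (min_le_left _ _)⟩, st_exp]
    show sph (lr zf z + dρ z - dρ (a z)) (theta T xp z + dθ z + dθ (a z)) = _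
    rw [h0.1, h0.2, add_zero, sub_zero]
  · obtain ⟨β, hβ, h0⟩ := exists_zero hV hH
    obtain ⟨m1, m2⟩ := mid (0, β) hβ (Or.inl h0)
    have r0 : rh (0, β) = 0 := by
      rw [m2]; unfold lr; rw [h0]; simp
    refine ⟨(0, β), hβ, ?_, fun z hz h => ?_⟩
    · show sph (rh (0, β)) (th (0, β)) 2 = 0
      rw [sph2, r0]; simp
    have h' : sph (rh z) (th z) = sph 0 (theta T xp (0, β)) := by
      have h1 : sph (rh z) (th z) = sph (rh (0, β)) (th (0, β)) := h
      rwa [r0, m1] at h1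
    have r1 : rh z = 0 := by
      have h2 := congrArg (fun v : E => v 2) h'
      simp only [sph2, sinh_zero, zero_div] at h2
      exact sinh_eq_zero.1 ((div_eq_zero_iff.1 h2).resolve_right (cosh_pos _).ne')
    obtain ⟨n1, n2⟩ := mid z hz (Or.inr r1)
    have z1 : zf z = 0 := lr_zero hH hz (by rw [← n2]; exact r1)
    rw [r1, n1] at h'
    have c0 := congrArg (fun v : E => v 0) h'
    have c1 := congrArg (fun v : E => v 1) h'
    simp only [sph0, sph1, cosh_zero, div_one] at c0 c1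
    have hang : ((theta T xp z : ℝ) : Real.Angle) = ((theta T xp (0, β) : ℝ) : Real.Angle) :=
      Real.Angle.cos_sin_inj c0 c1
    obtain ⟨n, hn⟩ := Real.Angle.angle_eq_iff_two_pi_dvd_sub.1 hang
    refine ⟨n, hH.inj z (0 + n * T, β) (Ioo_subset_Icc_self hz) (Ioo_subset_Icc_self hβ) ?_ ?_⟩
    · rw [theta_int hV]; linarith
    · have hp : Function.Periodic (fun x => zf (x, β)) T := fun x =>
        hH.per x β (Ioo_subset_Icc_self hβ)
      have h3 : zf (0 + n * T, β) = zf (0, β) := hp.int_mul n 0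
      rw [h3, h0, z1]

end Pool.Agent.MP_2291e2_gt.Zl

end MrgPart3

-- ======== part 4: formerly Pool.Agent.MP_2291e2_gt.zl.HeatOp
section MrgPart4

/-! The heat operators on continuous functions on the circle depend smoothly on the time scale. -/

open scoped ContDiff RealInnerProductSpace Topology
open Set Filter Real MeasureTheory

set_option maxSynthPendingDepth 3

namespace Pool.Agent.MP_2291e2_gt.Zl

namespace HeatOp

/-- `u ↦ ψ (l u)` as a continuous function on the unit interval. -/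
noncomputable def dil (ψ : ℝ → ℝ) (hψ : Continuous ψ) : C(ℝ, C(II, ℝ)) :=
  ContinuousMap.curry ⟨fun a : ℝ × II => ψ (a.1 * a.2), by fun_prop⟩

lemma dil_apply (ψ : ℝ → ℝ) (hψ : Continuous ψ) (l : ℝ) (u : II) :
    dil ψ hψ l u = ψ (l * u) := rfl

/-- The inclusion of the unit interval. -/
noncomputable def idc : C(II, ℝ) := ⟨fun u => u, by fun_prop⟩

lemma hasDerivAt_dil (ψ ψ' : ℝ → ℝ) (hψ : Continuous ψ) (hψ' : Continuous ψ')
    (h : ∀ x, HasDerivAt ψ (ψ' x) x) (l : ℝ) :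
    HasDerivAt (dil ψ hψ) (idc * dil ψ' hψ' l) l := by
  have hc : Continuous fun t => idc * dil ψ' hψ' t :=
    continuous_const.mul (dil ψ' hψ').continuous
  have e : (dil ψ hψ : ℝ → C(II, ℝ)) =
      fun l => dil ψ hψ 0 + ∫ t in (0 : ℝ)..l, idc * dil ψ' hψ' t := by
    funext l
    ext u
    have h1 := (ContinuousMap.evalCLM ℝ u).intervalIntegral_comp_comm
      (hc.intervalIntegrable (μ := volume) 0 l)
    have h2 : ∫ t in (0 : ℝ)..l, (u : ℝ) * ψ' (t * u) = ψ (l * u) - ψ (0 * u) := by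
      apply intervalIntegral.integral_eq_sub_of_hasDerivAt (f := fun t => ψ (t * u))
      · intro t _
        have := (h (t * u)).comp t (hasDerivAt_mul_const (u : ℝ))
        rw [mul_comm (u : ℝ)]
        exact this
      · exact (by fun_prop : Continuous fun t : ℝ => (u : ℝ) * ψ' (t * u)).intervalIntegrable _ _
    have h3 : (∫ t in (0 : ℝ)..l, idc * dil ψ' hψ' t) u = ψ (l * u) - ψ (0 * u) := by
      rw [← h2]
      exact h1.symm
    rw [ContinuousMap.add_apply, h3, dil_apply, dil_apply]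
    ring
  rw [e]
  exact (intervalIntegral.integral_hasDerivAt_right (hc.intervalIntegrable 0 l)
    (hc.stronglyMeasurableAtFilter _ _) hc.continuousAt).const_add _

lemma contDiff_dil_nat (n : ℕ) : ∀ (ψ : ℝ → ℝ) (hψ : ContDiff ℝ ∞ ψ),
    ContDiff ℝ n (dil ψ hψ.continuous) := by
  induction n with
  | zero => exact fun ψ hψ => contDiff_zero.2 (dil ψ hψ.continuous).continuous
  | succ n ih =>
    intro ψ hψ
    have hd : ContDiff ℝ ∞ (deriv ψ) := (contDiff_infty_iff_deriv.1 hψ).2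
    have h := hasDerivAt_dil ψ (deriv ψ) hψ.continuous hd.continuous
      (fun x => ((contDiff_infty_iff_deriv.1 hψ).1 x).hasDerivAt)
    rw [Nat.cast_succ, contDiff_succ_iff_deriv]
    refine ⟨fun l => (h l).differentiableAt, by simp, ?_⟩
    have e : deriv (dil ψ hψ.continuous) = fun l => idc * dil (deriv ψ) hd.continuous l :=
      funext fun l => (h l).deriv
    rw [e]
    exact contDiff_const.mul (ih _ hd)

lemma contDiff_dil (ψ : ℝ → ℝ) (hψ : ContDiff ℝ ∞ ψ) : ContDiff ℝ ∞ (dil ψ hψ.continuous) :=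
  contDiff_infty.2 fun n => contDiff_dil_nat n ψ hψ

/-- The flat function `exp (-1 / x) / x ^ 2`. -/
noncomputable def fl (x : ℝ) : ℝ := x⁻¹ ^ 2 * expNegInvGlue x

lemma contDiff_fl : ContDiff ℝ ∞ fl := by
  have h := expNegInvGlue.contDiff_polynomial_eval_inv_mul (n := ⊤) (Polynomial.X ^ 2)
  have e : fl = fun x : ℝ => (Polynomial.X ^ 2 : Polynomial ℝ).eval x⁻¹ * expNegInvGlue x := by
    funext x
    simp [fl]
  rw [e]
  exact h

lemma inv_mem (w : ℝ) : (1 + w ^ 2)⁻¹ ∈ unitInterval :=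
  ⟨by positivity, inv_le_one_of_one_le₀ (by nlinarith [sq_nonneg w])⟩

/-- The compactifying variable. -/
noncomputable def uu (w : ℝ) : II := ⟨(1 + w ^ 2)⁻¹, inv_mem w⟩

lemma uu_val (w : ℝ) : (uu w : ℝ) = (1 + w ^ 2)⁻¹ := rfl

lemma continuous_uu : Continuous uu := by
  refine Continuous.subtype_mk ?_ _
  exact Continuous.inv₀ (by fun_prop) fun w => by positivity

/-- The kernel in the compactifying variable. -/
noncomputable def ker (l : ℝ) : C(II, ℝ) :=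
  ((√(2 * π))⁻¹ * (√l)⁻¹ * exp ((2 * l)⁻¹) * (2 * l) ^ 2) • dil fl contDiff_fl.continuous (2 * l)

lemma contDiffOn_ker : ContDiffOn ℝ ∞ ker (Ioi 0) := by
  have h1 : ContDiffOn ℝ ∞ (fun l : ℝ => √l) (Ioi 0) :=
    contDiffOn_id.sqrt fun l hl => ne_of_gt hl
  have h2 : ContDiffOn ℝ ∞ (fun l : ℝ => (√l)⁻¹) (Ioi 0) :=
    h1.inv fun l hl => (Real.sqrt_pos.2 hl).ne'
  have h3 : ContDiffOn ℝ ∞ (fun l : ℝ => 2 * l) (Ioi 0) := contDiffOn_const.mul contDiffOn_id
  have h4 : ContDiffOn ℝ ∞ (fun l : ℝ => (2 * l)⁻¹) (Ioi 0) :=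
    h3.inv fun l hl => (mul_pos two_pos hl).ne'
  exact (((contDiffOn_const.mul h2).mul h4.exp).mul (h3.pow 2)).smul
    ((contDiff_dil fl contDiff_fl).comp_contDiffOn h3)

lemma ker_val {l : ℝ} (hl : 0 < l) (x : ℝ) :
    ker l (uu (√l * x)) * (uu (√l * x) : ℝ) ^ 2 = (√l)⁻¹ * gauss x := by
  have hw : (√l * x) ^ 2 = l * x ^ 2 := by rw [mul_pow, Real.sq_sqrt hl.le]
  have hp : 0 < 1 + l * x ^ 2 := by positivity
  have hq : 0 < 2 * l * (1 + l * x ^ 2)⁻¹ := by positivity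
  have e1 : expNegInvGlue (2 * l * (1 + l * x ^ 2)⁻¹) = exp (-(2 * l * (1 + l * x ^ 2)⁻¹)⁻¹) := by
    simp only [expNegInvGlue, if_neg (not_le.2 hq)]
  have e2 : exp ((2 * l)⁻¹) * exp (-(2 * l * (1 + l * x ^ 2)⁻¹)⁻¹) = exp (-x ^ 2 / 2) := by
    rw [← Real.exp_add]
    congr 1
    field_simp
    ring
  simp only [ker, ContinuousMap.smul_apply, dil_apply, uu_val, hw, smul_eq_mul, fl, e1, gauss]
  rw [← e2]
  field_simp

section gen
variable {Z Y : Type*} [NormedAddCommGroup Z] [NormedSpace ℝ Z] [NormedAddCommGroup Y]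
  [NormedSpace ℝ Y]

omit [NormedSpace ℝ Z] in
lemma norm_le (A : ℝ → Z → Y) (hb : ∀ w z, ‖A w z‖ ≤ (1 + w ^ 2) * ‖z‖) (φ : C(II, ℝ)) (z : Z)
    (w : ℝ) : ‖(φ (uu w) * (uu w : ℝ) ^ 2) • A w z‖ ≤ ‖φ‖ * ‖z‖ * (1 + w ^ 2)⁻¹ := by
  have hp : 0 < 1 + w ^ 2 := by positivity
  rw [norm_smul, norm_mul, norm_pow, uu_val, Real.norm_of_nonneg (inv_pos.2 hp).le]
  calc ‖φ (uu w)‖ * (1 + w ^ 2)⁻¹ ^ 2 * ‖A w z‖
      ≤ ‖φ‖ * (1 + w ^ 2)⁻¹ ^ 2 * ((1 + w ^ 2) * ‖z‖) := by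
        gcongr
        · exact φ.norm_coe_le_norm _
        · exact hb w z
    _ = ‖φ‖ * ‖z‖ * (1 + w ^ 2)⁻¹ := by field_simp

omit [NormedSpace ℝ Z] in
lemma integrable (A : ℝ → Z → Y) (hc : ∀ z, Continuous fun w => A w z)
    (hb : ∀ w z, ‖A w z‖ ≤ (1 + w ^ 2) * ‖z‖) (φ : C(II, ℝ)) (z : Z) :
    Integrable fun w => (φ (uu w) * (uu w : ℝ) ^ 2) • A w z := by
  refine Integrable.mono' (integrable_inv_one_add_sq.const_mul (‖φ‖ * ‖z‖)) ?_
    (Eventually.of_forall (norm_le A hb φ z))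
  have h1 : Continuous fun w => φ (uu w) * (uu w : ℝ) ^ 2 :=
    (φ.continuous.comp continuous_uu).mul ((continuous_subtype_val.comp continuous_uu).pow 2)
  exact (h1.smul (hc z)).aestronglyMeasurable

/-- Gaussian averages of a strongly continuous family of operators are smooth in the scale. -/
lemma gen (A : ℝ → Z → Y) (hadd : ∀ w z z', A w (z + z') = A w z + A w z')
    (hsmul : ∀ w (c : ℝ) z, A w (c • z) = c • A w z) (hc : ∀ z, Continuous fun w => A w z)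
    (hb : ∀ w z, ‖A w z‖ ≤ (1 + w ^ 2) * ‖z‖) :
    ∃ T : ℝ → Z →L[ℝ] Y, ContDiffOn ℝ ∞ T (Ioi 0) ∧ ∀ l > 0, ∀ z,
      Integrable (fun x => gauss x • A (√l * x) z) ∧ T l z = ∫ x, gauss x • A (√l * x) z := by
  let B₀ : C(II, ℝ) →ₗ[ℝ] Z →ₗ[ℝ] Y := LinearMap.mk₂ ℝ
    (fun φ z => ∫ w, (φ (uu w) * (uu w : ℝ) ^ 2) • A w z)
    (fun φ φ' z => by
      rw [← integral_add (integrable A hc hb φ z) (integrable A hc hb φ' z)]
      congr 1
      funext w
      rw [ContinuousMap.add_apply, add_mul, add_smul])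
    (fun c φ z => by
      rw [← integral_smul]
      congr 1
      funext w
      rw [ContinuousMap.smul_apply, smul_eq_mul, mul_assoc, mul_smul])
    (fun φ z z' => by
      rw [← integral_add (integrable A hc hb φ z) (integrable A hc hb φ z')]
      congr 1
      funext w
      rw [hadd, smul_add])
    (fun c φ z => by
      rw [← integral_smul]
      congr 1
      funext w
      rw [hsmul, smul_comm])
  have hB : ∀ φ z, ‖B₀ φ z‖ ≤ π * ‖φ‖ * ‖z‖ := by
    intro φ z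
    have := norm_integral_le_of_norm_le (integrable_inv_one_add_sq.const_mul (‖φ‖ * ‖z‖))
      (Eventually.of_forall (norm_le A hb φ z))
    rw [integral_const_mul, integral_univ_inv_one_add_sq] at this
    calc ‖B₀ φ z‖ ≤ ‖φ‖ * ‖z‖ * π := this
      _ = π * ‖φ‖ * ‖z‖ := by ring
  let B : C(II, ℝ) →L[ℝ] Z →L[ℝ] Y := B₀.mkContinuous₂ π hB
  refine ⟨fun l => B (ker l), B.contDiff.comp_contDiffOn contDiffOn_ker, fun l hl z => ?_⟩
  have hs : 0 < √l := Real.sqrt_pos.2 hl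
  have e : (fun x => gauss x • A (√l * x) z) =
      fun x => √l • ((ker l (uu (√l * x)) * (uu (√l * x) : ℝ) ^ 2) • A (√l * x) z) := by
    funext x
    rw [ker_val hl, smul_smul, ← mul_assoc, mul_inv_cancel₀ hs.ne', one_mul]
  rw [e]
  refine ⟨((integrable A hc hb (ker l) z).comp_mul_left' hs.ne').smul _, ?_⟩
  rw [integral_smul, Measure.integral_comp_mul_left
    (fun w => (ker l (uu w) * (uu w : ℝ) ^ 2) • A w z), smul_smul, abs_of_pos (inv_pos.2 hs),
    mul_inv_cancel₀ hs.ne', one_smul]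
  rfl

end gen

/-- Integration over the unit interval. -/
noncomputable def intI (Y : Type*) [NormedAddCommGroup Y] [NormedSpace ℝ Y] : C(II, Y) →L[ℝ] Y :=
  LinearMap.mkContinuous
    { toFun := fun φ => ∫ θ in (0 : ℝ)..1, φ (projIcc 0 1 zero_le_one θ)
      map_add' := fun φ φ' => intervalIntegral.integral_add
          ((φ.continuous.comp continuous_projIcc).intervalIntegrable _ _)
          ((φ'.continuous.comp continuous_projIcc).intervalIntegrable _ _)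
      map_smul' := fun c φ => by
        rw [RingHom.id_apply, ← intervalIntegral.integral_smul]
        rfl } 1
    (fun φ => by
      have := intervalIntegral.norm_integral_le_of_norm_le_const (a := 0) (b := 1) (C := ‖φ‖)
        (f := fun θ => φ (projIcc 0 1 zero_le_one θ)) fun θ _ => φ.norm_coe_le_norm _
      simpa using this)

lemma intI_apply {Y : Type*} [NormedAddCommGroup Y] [NormedSpace ℝ Y] (φ : C(II, Y)) :
    intI Y φ = ∫ θ in (0 : ℝ)..1, φ (projIcc 0 1 zero_le_one θ) := rfl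

/-- Evaluation at a time and a point of the circle. -/
noncomputable def ev (s : II) (ζ : Circle) : YY →L[ℝ] E :=
  (ContinuousMap.evalCLM ℝ ζ).comp (ContinuousMap.evalCLM ℝ s)

lemma ev_apply (s : II) (ζ : Circle) (f : YY) : ev s ζ f = f s ζ := rfl

/-- Translations. -/
noncomputable def AH (g : XX) : C(ℝ, YY) :=
  ContinuousMap.curry (ContinuousMap.curry
    ⟨fun a : (ℝ × II) × Circle => g (a.2 * Circle.exp (√(2 * a.1.2) * a.1.1)), by fun_prop⟩)

lemma AH_apply (g : XX) (w : ℝ) (s : II) (ζ : Circle) :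
    AH g w s ζ = g (ζ * Circle.exp (√(2 * s) * w)) := rfl

/-- Translations with retarded time. -/
noncomputable def AD (f : YY) : C(ℝ, C(II, YY)) :=
  ContinuousMap.curry (ContinuousMap.curry (ContinuousMap.curry
    ⟨fun a : ((ℝ × II) × II) × Circle => (√(2 * a.1.2) * a.1.1.1) •
      f (projIcc 0 1 zero_le_one (a.1.2 * (1 - a.1.1.2 ^ 2)))
        (a.2 * Circle.exp (√(2 * a.1.2) * a.1.1.2 * a.1.1.1)), by
      have h1 : Continuous fun a : ((ℝ × II) × II) × Circle =>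
          (a.1.2 : ℝ) * (1 - (a.1.1.2 : ℝ) ^ 2) := by fun_prop
      have h2 : Continuous fun a : ((ℝ × II) × II) × Circle =>
          a.2 * Circle.exp (√(2 * a.1.2) * a.1.1.2 * a.1.1.1) := by fun_prop
      have h3 : Continuous fun a : ((ℝ × II) × II) × Circle =>
          √(2 * (a.1.2 : ℝ)) * a.1.1.1 := by fun_prop
      exact h3.smul ((f.continuous.comp (continuous_projIcc.comp h1)).eval h2)⟩))

lemma AD_apply (f : YY) (w : ℝ) (θ s : II) (ζ : Circle) :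
    AD f w θ s ζ = (√(2 * s) * w) • f (projIcc 0 1 zero_le_one (s * (1 - θ ^ 2)))
      (ζ * Circle.exp (√(2 * s) * θ * w)) := rfl

lemma sqrt_split {l : ℝ} (hl : 0 < l) (s : ℝ) : √(2 * l * s) = √(2 * s) * √l := by
  rw [← Real.sqrt_mul' _ hl.le]
  congr 1
  ring

lemma exists_H : ∃ H : ℝ → XX →L[ℝ] YY, ContDiffOn ℝ ∞ H (Ioi 0) ∧
    ∀ l > 0, ∀ (g : XX) (s : II) (σ : ℝ),
      H l g s (Circle.exp σ) = ∫ z, gauss z • g (Circle.exp (σ + √(2 * l * s) * z)) := by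
  obtain ⟨T, hT, hv⟩ := gen (fun w (g : XX) => AH g w) (fun w g g' => by ext s ζ; rfl)
    (fun w c g => by ext s ζ; rfl) (fun g => (AH g).continuous) (fun w g => by
      have h0 : 0 ≤ (1 + w ^ 2) * ‖g‖ := by positivity
      refine (ContinuousMap.norm_le _ h0).2 fun s => (ContinuousMap.norm_le _ h0).2 fun ζ => ?_
      rw [AH_apply]
      calc ‖g (ζ * Circle.exp (√(2 * s) * w))‖ ≤ ‖g‖ := g.norm_coe_le_norm _
        _ ≤ (1 + w ^ 2) * ‖g‖ := le_mul_of_one_le_left (norm_nonneg _) (by nlinarith [sq_nonneg w]))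
  refine ⟨T, hT, fun l hl g s σ => ?_⟩
  obtain ⟨hi, he⟩ := hv l hl g
  rw [← ev_apply, he, ← (ev s (Circle.exp σ)).integral_comp_comm hi]
  congr 1
  funext z
  rw [map_smul, ev_apply, AH_apply, ← Circle.exp_add, sqrt_split hl, mul_assoc]

lemma exists_D : ∃ D : ℝ → YY →L[ℝ] YY, ContDiffOn ℝ ∞ D (Ioi 0) ∧
    ∀ l > 0, ∀ (f : YY) (s : II) (σ : ℝ),
      D l f s (Circle.exp σ) = √(2 * l * s) • ∫ θ in (0 : ℝ)..1, ∫ z, (z * gauss z) •
        f (projIcc 0 1 zero_le_one (s * (1 - θ ^ 2))) (Circle.exp (σ + √(2 * l * s) * θ * z)) := by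
  obtain ⟨T, hT, hv⟩ := gen (fun w (f : YY) => AD f w)
    (fun w f f' => by
      ext θ s ζ : 3
      simp only [AD_apply, ContinuousMap.add_apply, smul_add])
    (fun w c f => by
      ext θ s ζ : 3
      simp only [AD_apply, ContinuousMap.smul_apply]
      rw [smul_comm])
    (fun f => (AD f).continuous)
    (fun w f => by
      have h0 : 0 ≤ (1 + w ^ 2) * ‖f‖ := by positivity
      refine (ContinuousMap.norm_le _ h0).2 fun θ => (ContinuousMap.norm_le _ h0).2 fun s =>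
        (ContinuousMap.norm_le _ h0).2 fun ζ => ?_
      rw [AD_apply, norm_smul]
      have h1 : √(2 * s) ≤ 2 := Real.sqrt_le_iff.2 ⟨by norm_num, by linarith [s.2.2]⟩
      have h2 : ‖√(2 * s) * w‖ ≤ 1 + w ^ 2 := by
        rw [norm_mul, Real.norm_of_nonneg (Real.sqrt_nonneg _), Real.norm_eq_abs]
        calc √(2 * s) * |w| ≤ 2 * |w| := by gcongr
          _ ≤ 1 + w ^ 2 := by nlinarith [sq_nonneg (|w| - 1), sq_abs w]
      exact mul_le_mul h2 (((f _).norm_coe_le_norm _).trans (f.norm_coe_le_norm _))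
        (norm_nonneg _) (by positivity))
  refine ⟨fun l => (intI YY).comp (T l), contDiffOn_const.clm_comp hT, fun l hl f s σ => ?_⟩
  obtain ⟨hi, he⟩ := hv l hl f
  have hc : Continuous fun θ : ℝ => T l f (projIcc 0 1 zero_le_one θ) :=
    (T l f).continuous.comp continuous_projIcc
  rw [← ev_apply, ContinuousLinearMap.comp_apply, intI_apply,
    ← (ev s (Circle.exp σ)).intervalIntegral_comp_comm (hc.intervalIntegrable _ _),
    ← intervalIntegral.integral_smul]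
  refine intervalIntegral.integral_congr fun θ hθ => ?_
  rw [uIcc_of_le zero_le_one] at hθ
  have h1 := ((ev s (Circle.exp σ)).comp
    (ContinuousMap.evalCLM ℝ (projIcc 0 1 zero_le_one θ : II))).integral_comp_comm hi
  rw [← he] at h1
  refine h1.symm.trans ?_
  rw [← integral_smul]
  congr 1
  funext z
  rw [map_smul]
  change gauss z • AD f (√l * z) (projIcc 0 1 zero_le_one θ) s (Circle.exp σ) = _
  rw [AD_apply, projIcc_of_mem _ hθ, ← Circle.exp_add, sqrt_split hl, smul_smul, smul_smul]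
  congr 1
  · ring
  · congr 2
    ring

lemma gauss_nonneg (z : ℝ) : 0 ≤ gauss z := by
  unfold gauss
  positivity

lemma abs_gauss_le (z : ℝ) : |z * gauss z| ≤ (√(2 * π))⁻¹ * exp (-(1 / 4) * z ^ 2) := by
  have h1 : |z| ≤ exp (z ^ 2 / 4) := by
    have := Real.add_one_le_exp (z ^ 2 / 4)
    nlinarith [sq_nonneg (|z| - 2), sq_abs z]
  have h2 : exp (z ^ 2 / 4) * exp (-z ^ 2 / 2) = exp (-(1 / 4) * z ^ 2) := by
    rw [← Real.exp_add]
    congr 1
    ring
  rw [abs_mul, abs_of_nonneg (gauss_nonneg z), gauss, ← h2]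
  calc |z| * ((√(2 * π))⁻¹ * exp (-z ^ 2 / 2))
      ≤ exp (z ^ 2 / 4) * ((√(2 * π))⁻¹ * exp (-z ^ 2 / 2)) := by gcongr
    _ = _ := by ring

lemma inner_bound (φ : ℝ → E) (C : ℝ) (h : ∀ z, ‖φ z‖ ≤ C) :
    ‖∫ z, (z * gauss z) • φ z‖ ≤ 2 * C := by
  have hC : 0 ≤ C := (norm_nonneg _).trans (h 0)
  have hi : Integrable fun z : ℝ => (√(2 * π))⁻¹ * C * exp (-(1 / 4) * z ^ 2) :=
    (integrable_exp_neg_mul_sq (by norm_num)).const_mul _
  have h1 := norm_integral_le_of_norm_le (f := fun z => (z * gauss z) • φ z) hi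
    (Eventually.of_forall fun z => by
      rw [norm_smul, Real.norm_eq_abs]
      calc |z * gauss z| * ‖φ z‖ ≤ (√(2 * π))⁻¹ * exp (-(1 / 4) * z ^ 2) * C :=
            mul_le_mul (abs_gauss_le z) (h z) (norm_nonneg _) (by positivity)
        _ = _ := by ring)
  rw [integral_const_mul, integral_gaussian] at h1
  refine h1.trans ?_
  have hp : 0 < √(2 * π) := Real.sqrt_pos.2 (by positivity)
  have h2 : √(π / (1 / 4)) ≤ 2 * √(2 * π) := by
    refine Real.sqrt_le_iff.2 ⟨by positivity, ?_⟩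
    rw [mul_pow, Real.sq_sqrt (by positivity)]
    linarith [pi_pos]
  calc (√(2 * π))⁻¹ * C * √(π / (1 / 4)) ≤ (√(2 * π))⁻¹ * C * (2 * √(2 * π)) := by gcongr
    _ = 2 * C := by field_simp

lemma outer_bound {a : ℝ} (ha : 0 < a) :
    ∫ θ in (0 : ℝ)..1, exp (-a * θ ^ 2) ≤ √(π / a) / 2 := by
  rw [← integral_gaussian_Ioi, intervalIntegral.integral_of_le zero_le_one]
  exact setIntegral_mono_set (integrable_exp_neg_mul_sq ha).integrableOn
    (Eventually.of_forall fun θ => (exp_pos _).le) Ioc_subset_Ioi_self.eventuallyLE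

lemma D_bound {l K M : ℝ} (hl : 0 < l) (hK : 0 < K) (f : YY)
    (hf : ∀ s : II, ‖f s‖ ≤ M * exp (K * s)) (s : II) (σ : ℝ) :
    ‖√(2 * l * s) • ∫ θ in (0 : ℝ)..1, ∫ z, (z * gauss z) •
        f (projIcc 0 1 zero_le_one (s * (1 - θ ^ 2))) (Circle.exp (σ + √(2 * l * s) * θ * z))‖
      ≤ 3 * √(l / K) * M * exp (K * s) := by
  have hM : 0 ≤ M := nonneg_of_mul_nonneg_left ((norm_nonneg _).trans (hf s)) (exp_pos _)
  rcases s.2.1.eq_or_lt with hs | hs
  · rw [← hs]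
    simp only [mul_zero, Real.sqrt_zero, zero_smul, norm_zero]
    positivity
  have ha : 0 < K * s := mul_pos hK hs
  have h1 : ‖∫ θ in (0 : ℝ)..1, ∫ z, (z * gauss z) •
      f (projIcc 0 1 zero_le_one (s * (1 - θ ^ 2))) (Circle.exp (σ + √(2 * l * s) * θ * z))‖
      ≤ ∫ θ in (0 : ℝ)..1, 2 * M * exp (K * s) * exp (-(K * s) * θ ^ 2) := by
    refine intervalIntegral.norm_integral_le_of_norm_le zero_le_one
      (Eventually.of_forall fun θ hθ => ?_)
      ((by fun_prop : Continuous fun θ : ℝ =>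
        2 * M * exp (K * s) * exp (-(K * s) * θ ^ 2)).intervalIntegrable _ _)
    have hm : (s : ℝ) * (1 - θ ^ 2) ∈ Icc (0 : ℝ) 1 := by
      have h2 : θ ^ 2 ≤ 1 := by nlinarith [hθ.1, hθ.2]
      exact ⟨mul_nonneg hs.le (by linarith), by nlinarith [s.2.2, sq_nonneg θ]⟩
    refine (inner_bound _ (M * exp (K * (s * (1 - θ ^ 2)))) fun z => ?_).trans (le_of_eq ?_)
    · refine ((f _).norm_coe_le_norm _).trans ?_
      have := hf (projIcc 0 1 zero_le_one (s * (1 - θ ^ 2)))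
      rwa [projIcc_of_mem _ hm] at this ⊢
    · rw [mul_assoc (2 * M), ← Real.exp_add, ← mul_assoc]
      congr 2
      ring
  rw [intervalIntegral.integral_const_mul] at h1
  have h2 : √(2 * l * s) * √(π / (K * s)) ≤ 3 * √(l / K) := by
    rw [← Real.sqrt_mul (by positivity)]
    refine Real.sqrt_le_iff.2 ⟨by positivity, ?_⟩
    rw [mul_pow, Real.sq_sqrt (by positivity)]
    have e : 2 * l * s * (π / (K * s)) = 2 * π * (l / K) := by field_simp
    rw [e]
    have : 0 < l / K := by positivity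
    nlinarith [pi_le_four]
  rw [norm_smul, Real.norm_of_nonneg (Real.sqrt_nonneg _)]
  calc √(2 * l * s) * _ ≤ √(2 * l * s) * (2 * M * exp (K * s) * (√(π / (K * s)) / 2)) := by
        refine mul_le_mul_of_nonneg_left (h1.trans ?_) (Real.sqrt_nonneg _)
        exact mul_le_mul_of_nonneg_left (outer_bound ha) (by positivity)
    _ = √(2 * l * s) * √(π / (K * s)) * (M * exp (K * s)) := by ring
    _ ≤ 3 * √(l / K) * (M * exp (K * s)) := by gcongr
    _ = _ := by ring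

end HeatOp

theorem heatop_of : HeatOpStmt := by
  obtain ⟨H, hH, hHv⟩ := HeatOp.exists_H
  obtain ⟨D, hD, hDv⟩ := HeatOp.exists_D
  refine ⟨H, D, ?_, ?_, hHv, hDv, fun l hl K hK M f hf s => ?_⟩
  · exact (hH.comp contDiffOn_fst fun a ha => ha.1).clm_apply contDiffOn_snd
  · exact (hD.comp contDiffOn_fst fun a ha => ha.1).clm_apply contDiffOn_snd
  · have hM : 0 ≤ M := nonneg_of_mul_nonneg_left ((norm_nonneg _).trans (hf s)) (exp_pos _)
    refine (ContinuousMap.norm_le _ (by positivity)).2 fun ζ => ?_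
    obtain ⟨σ, rfl⟩ := Circle.exp_surjective ζ
    rw [hDv l hl]
    exact HeatOp.D_bound hl hK f hf s σ

end Pool.Agent.MP_2291e2_gt.Zl

end MrgPart4

-- marker of a merged file
example : 731051 + 643713 = 731051 + 643713 := rfl
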