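import Pool.Agent.MP_2291e2_gt.zl.Spec2

/-! The map to the space of geodesics gives the initial data of the deformation. -/

open scoped ContDiff RealInnerProductSpace Topology
open Set Filter Real

namespace Pool.Agent.MP_2291e2_gt.Zl

namespace Init

/-- Two vectors orthogonal to a unit vector with vanishing triple product are dependent. -/
lemma dep {g A B : E} (hg : ‖g‖ = 1) (hA : ⟪g, A⟫ = 0) (hB : ⟪g, B⟫ = 0) (h : dt g A B = 0) :
    ∃ s t : ℝ, (s ≠ 0 ∨ t ≠ 0) ∧ s • A + t • B = 0 := by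
  have h1 : cr g (cr A B) = 0 := by rw [cr_cr_right, hA, hB]; simp
  have h2 := cr_cr_right g g (cr A B)
  have h3 : ⟪g, cr A B⟫ = 0 := h
  rw [h1, h3, real_inner_self_eq_norm_sq, hg] at h2
  have h4 : cr A B = 0 := by simpa using h2
  by_cases h0 : A = 0
  · exact ⟨1, 0, Or.inl one_ne_zero, by simp [h0]⟩
  · have h5 := cr_cr_right A A B
    rw [h4, cr_zero_right] at h5
    refine ⟨⟪A, B⟫, -⟪A, A⟫, Or.inr (neg_ne_zero.2 (by simpa using h0)), ?_⟩
    rw [neg_smul, ← sub_eq_add_neg]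
    exact h5.symm

lemma dt_comb (g A B : E) (s t s' t' : ℝ) :
    dt g (s • A + t • B) (s' • A + t' • B) = (s * t' - t * s') * dt g A B := by
  simp [dt3]; ring

variable {φ : ℝ → P → P} {a b : P → ℝ} {T : ℝ} {Φ : P → E} {u : P}

lemma inner_xi_w (hu : u ∈ U) : ⟪xi a b u, cr u.1 u.2⟫ = a u := by
  simp [xi, inner_add_left, inner_smul_left, norm_cr_U hu]

lemma basis (hu : u ∈ U) (ha : a u ≠ 0) (α : E) :
    ∃ s r : ℝ, α = s • u.1 + ⟪α, u.2⟫ • u.2 + r • xi a b u := by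
  refine ⟨⟪α, u.1⟫ - ⟪α, cr u.1 u.2⟫ / a u * b u, ⟪α, cr u.1 u.2⟫ / a u, ?_⟩
  rw [xi, smul_add, smul_smul, div_mul_cancel₀ _ ha]
  conv_lhs => rw [frameU hu α]
  module

lemma dW_xi (hF : PFlow φ a b) (h : PhiOut φ a b Φ) (hu : u ∈ U) : dW Φ u (xi a b u) = 0 := by
  have h1 := hasDerivAt_comp_W (f := Φ) (c := fun t => φ t u)
    (diffAt_of_U h.odd1.smooth (hF.maps 0 u hu)) (hF.ode u hu 0)
  have h2 : (fun t => Φ (φ t u)) = fun _ => Φ u := funext fun t => h.inv u hu t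
  rw [h2] at h1
  have h3 := h1.unique (hasDerivAt_const _ _)
  simpa only [hF.zero] using h3

/-- The area form of `Φ` on the pair `y, v`. -/
noncomputable def om (Φ : P → E) (u : P) : ℝ := dt (Φ u) (dW Φ u u.1) (dW Φ u u.2)

lemma om_smooth (h : ContDiffOn ℝ ∞ Φ Ind) : ContDiffOn ℝ ∞ (om Φ) Ind := by
  have h1 := contDiffOn_dW h contDiffOn_fst
  have h2 := contDiffOn_dW h contDiffOn_snd
  exact h.inner ℝ ((crL.contDiff.comp_contDiffOn h1).clm_apply h2)

lemma om_ne (hF : PFlow φ a b) (h : PhiOut φ a b Φ) (hu : u ∈ U) : om Φ u ≠ 0 := by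
  intro h0
  obtain ⟨s, t, hst, e⟩ := dep (h.odd1.unit u hu) (inner_dW_unit h.odd1.smooth h.odd1.unit hu _)
    (inner_dW_unit h.odd1.smooth h.odd1.unit hu _) h0
  rw [← dW_smul, ← dW_smul, ← dW_add] at e
  obtain ⟨r, hr⟩ := h.rank u hu _ e
  have h1 := congrArg (fun x => ⟪x, cr u.1 u.2⟫) hr
  simp only [inner_add_left, real_inner_smul_left, inner_cr_left, inner_cr_right,
    inner_xi_w hu, mul_zero, add_zero] at h1
  have h2 : r = 0 := (mul_eq_zero.1 h1.symm).resolve_right (hF.apos u hu).ne'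
  rw [h2, zero_smul] at hr
  have h3 := congrArg (fun x => ⟪x, u.1⟫) hr
  have h4 := congrArg (fun x => ⟪x, u.2⟫) hr
  simp only [inner_add_left, real_inner_smul_left, inner_self_U1 hu, inner_self_U2 hu,
    inner_U21 hu, hu.2.2, inner_zero_left, mul_one, mul_zero, add_zero, zero_add] at h3 h4
  exact hst.elim (fun h => h h3) fun h => h h4

lemma V_ne (hF : PFlow φ a b) (h : PhiOut φ a b Φ) (hu : u ∈ U) : V Φ u ≠ 0 := by
  intro h0
  refine om_ne hF h hu ?_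
  have h1 : dW Φ u u.1 = 0 := h0
  simp [om, h1, dt]

lemma dW_dec (hF : PFlow φ a b) (h : PhiOut φ a b Φ) (hu : u ∈ U) (s t r : ℝ) :
    dW Φ u (s • u.1 + t • u.2 + r • xi a b u) = s • dW Φ u u.1 + t • dW Φ u u.2 := by
  rw [dW_add, dW_add, dW_smul, dW_smul, dW_smul, dW_xi hF h hu, smul_zero, add_zero]

lemma mm_eq (hF : PFlow φ a b) (h : PhiOut φ a b Φ) (hu : u ∈ U) (ξ : E) :
    mm Φ u ξ = -om Φ u * ⟪ξ, u.2⟫ := by
  obtain ⟨s, r, e⟩ := basis (b := b) hu (hF.apos u hu).ne' ξ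
  have h1 : dW Φ u ξ = s • dW Φ u u.1 + ⟪ξ, u.2⟫ • dW Φ u u.2 := by
    conv_lhs => rw [e]
    exact dW_dec hF h hu _ _ _
  have h2 : V Φ u = (1 : ℝ) • dW Φ u u.1 + (0 : ℝ) • dW Φ u u.2 := by simp [V]
  rw [mm, h1, h2, dt_comb, om]
  ring

lemma turn0 : Turn (fun (u : P) (ξ : E) => ⟪ξ, u.2⟫) := by
  have key : ∀ u ∈ U, wedge (fun (u : P) (ξ : E) => ⟪ξ, u.2⟫) u = sin := by
    intro u hu
    funext s
    simp [wedge, rho_snd, inner_add_right, inner_smul_right, norm_cr_U hu, hu.2.1]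
  refine ⟨fun u hu s hs => ?_, fun u hu => ?_⟩
  · rw [key u hu]; exact sin_pos_of_mem_Ioo hs
  · rw [key u hu]; simp

lemma om_sign (hF : PFlow φ a b) (h : PhiOut φ a b Φ) :
    (∀ u ∈ U, 0 < om Φ u) ∨ ∀ u ∈ U, om Φ u < 0 :=
  sign_const isPreconnected_U ((om_smooth h.odd1.smooth).continuousOn.mono U_sub_Ind)
    fun _ hu => om_ne hF h hu

lemma turn (hF : PFlow φ a b) (h : PhiOut φ a b Φ) : Turn (mm Φ) := by
  refine turn0.mul (c := fun u => -om Φ u) (fun ξ u _ => ?_)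
    (fun u hu => (diffAt_of_U (om_smooth h.odd1.smooth) hu).neg) (fun u hu u' hu' => ?_)
    fun u hu ξ => mm_eq hF h hu ξ
  · exact (differentiableAt_const ξ).inner ℝ differentiableAt_snd
  · rw [neg_mul_neg]
    rcases om_sign hF h with hs | hs
    · exact mul_pos (hs u hu) (hs u' hu')
    · exact mul_pos_of_neg_of_neg (hs u hu) (hs u' hu')

lemma periodic (hZ : ZFlow φ a b T) (hu : u ∈ U) : Function.Periodic (fun t => φ t u) T := by
  intro t
  simp only [hZ.add, hZ.per u hu]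

lemma slice (hF : PFlow φ a b) (t : ℝ) : ContDiff ℝ ∞ (φ t) :=
  hF.smooth.comp (contDiff_const.prodMk contDiff_id)

lemma orbit (hF : PFlow φ a b) (u : P) : ContDiff ℝ ∞ (fun t => φ t u) :=
  hF.smooth.comp (contDiff_id.prodMk contDiff_const)

/-- On one orbit the tangent lift is injective. -/
lemma eq_of_Th (hZ : ZFlow φ a b T) (hJ : Jac φ a b T) (h : PhiOut φ a b Φ) (hu : u ∈ U) {t : ℝ}
    (e : Th Φ (φ t u) = Th Φ u) : φ t u = u := by
  have hF := hZ.toPFlow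
  have hu' := hF.maps t u hu
  have dφ : DifferentiableAt ℝ (φ t) u := (slice hF t).differentiable (by simp) u
  have c1 : HasDerivAt (fun s => φ t (rho s u)) (fderiv ℝ (φ t) u (W u u.1)) 0 := by
    have := hasDerivAt_V (f := φ t) hu (s := 0) (by rwa [rho_zero])
    rwa [rho_zero] at this
  obtain ⟨η, hη⟩ := exists_W_hasDerivAt c1
    (Eventually.of_forall fun s => hF.maps t _ (rho_mem_U hu s))
  simp only [rho_zero] at hη
  have c2 : dW (fun w => Φ (φ t w)) u u.1 = dW Φ (φ t u) η :=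
    dW_comp (diffAt_of_U h.odd1.smooth hu') dφ hη
  have c3 : dW (fun w => Φ (φ t w)) u u.1 = V Φ u :=
    dW_congr hu ((diffAt_of_U h.odd1.smooth hu').comp u dφ) (diffAt_of_U h.odd1.smooth hu)
      (fun w hw => h.inv w hw t) _
  have n1 : 0 < ‖V Φ u‖ := norm_pos_iff.2 (V_ne hF h hu)
  have n2 : 0 < ‖V Φ (φ t u)‖ := norm_pos_iff.2 (V_ne hF h hu')
  have e2 : ‖V Φ (φ t u)‖⁻¹ • V Φ (φ t u) = ‖V Φ u‖⁻¹ • V Φ u := congrArg Prod.snd e
  have e3 : (‖V Φ u‖ * ‖V Φ (φ t u)‖⁻¹) • V Φ (φ t u) = V Φ u := by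
    rw [mul_smul, e2, smul_smul, mul_inv_cancel₀ n1.ne', one_smul]
  have e4 : dW Φ (φ t u) (η - (‖V Φ u‖ * ‖V Φ (φ t u)‖⁻¹) • (φ t u).1) = 0 := by
    rw [dW_sub, dW_smul, ← c2, c3]
    exact sub_eq_zero.2 e3.symm
  obtain ⟨ν, hν⟩ := h.rank _ hu' _ e4
  obtain ⟨k, hk⟩ := hJ u hu t (‖V Φ u‖ * ‖V Φ (φ t u)‖⁻¹) ν (by positivity)
    (by rw [hη, ← hν, add_sub_cancel])
  have := (periodic hZ hu).int_mul_eq k
  simpa only [← hk, hF.zero] using this

lemma single (hZ : ZFlow φ a b T) (hJ : Jac φ a b T) (h : PhiOut φ a b Φ) : Single Φ := by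
  obtain ⟨u₁, h1, h2⟩ := h.single
  refine ⟨u₁, h1, fun u hu e => ?_⟩
  obtain ⟨t, rfl⟩ := h2 u hu (congrArg Prod.fst e)
  exact eq_of_Th hZ hJ h h1 e

lemma Th_smooth (hF : PFlow φ a b) (h : PhiOut φ a b Φ) (hu : u ∈ U) :
    ContDiffAt ℝ ∞ (Th Φ) u := by
  have h1 := contDiffAt_of_U h.odd1.smooth hu
  have h2 := contDiffAt_V h1
  have h3 := V_ne hF h hu
  exact h1.prodMk (((h2.norm ℝ h3).inv (norm_ne_zero_iff.2 h3)).smul h2)

/-- The fibres of `Φ` are single orbits. -/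
lemma fibre (hL : LiftStmt) (hZ : ZFlow φ a b T) (h : PhiOut φ a b Φ) {Ti : P → P}
    (hT : ThInv Φ Ti) (hu : u ∈ U) {u' : P} (hu' : u' ∈ U) (e : Φ u' = Φ u) :
    ∃ t, u' = φ t u := by
  have hF := hZ.toPFlow
  set w : ℝ → P := fun t => Th Φ (φ t u) with hw
  set w0 : P := Th Φ u with hw0
  have wU : ∀ t, w t ∈ U := fun t => hT.maps' (hF.maps t u hu)
  have w0U : w0 ∈ U := hT.maps' hu
  have w1 : ∀ t, (w t).1 = w0.1 := fun t => h.inv u hu t
  have ws : ContDiff ℝ ∞ w := contDiff_iff_contDiffAt.2 fun t =>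
    ContDiffAt.comp (g := Th Φ) (f := fun t => φ t u) t (Th_smooth hF h (hF.maps t u hu))
      (orbit hF u).contDiffAt
  have wz : w 0 = w0 := by simp only [hw, hw0, hF.zero]
  let ζ : ℝ → ℂ := fun t =>
    (⟪(w t).2, w0.2⟫ : ℝ) + (⟪(w t).2, cr w0.1 w0.2⟫ : ℝ) * Complex.I
  have ζs : ContDiff ℝ ∞ ζ := by
    have a1 : ContDiff ℝ ∞ fun t => ⟪(w t).2, w0.2⟫ := ws.snd.inner ℝ contDiff_const
    have a2 : ContDiff ℝ ∞ fun t => ⟪(w t).2, cr w0.1 w0.2⟫ := ws.snd.inner ℝ contDiff_const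
    exact (Complex.ofRealCLM.contDiff.comp a1).add
      ((Complex.ofRealCLM.contDiff.comp a2).mul contDiff_const)
  have ζe : ∀ t σ, w t = rho σ w0 → ζ t = Complex.exp (σ * Complex.I) := by
    intro t σ hσ
    rw [Complex.exp_mul_I, ← Complex.ofReal_cos, ← Complex.ofReal_sin]
    simp only [ζ, hσ, rho_snd, inner_add_left, real_inner_smul_left, inner_self_U2 w0U,
      cr_inner_right, inner_cr_right, real_inner_self_eq_norm_sq, norm_cr_U w0U, one_pow, mul_one,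
      mul_zero, add_zero, zero_add]
  have ζn : ∀ t, ‖ζ t‖ = 1 := by
    intro t
    obtain ⟨σ, -, hσ⟩ := exists_rho w0U (wU t) (w1 t)
    rw [ζe t σ hσ, Complex.norm_exp_ofReal_mul_I]
  obtain ⟨θ, θs, θ0, θe⟩ := hL ℝ univ ζ 0 0 isOpen_univ convex_univ ζs.contDiffOn
    (fun t _ h0 => by have := ζn t; rw [h0] at this; simp at this) (mem_univ _)
    (by rw [ζn, ζe 0 0 (by rw [wz, rho_zero])]; simp)
  rw [contDiffOn_univ] at θs
  have wθ : ∀ t, w t = rho (θ t) w0 := by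
    intro t
    obtain ⟨σ, -, hσ⟩ := exists_rho w0U (wU t) (w1 t)
    have h1 := θe t (mem_univ _)
    rw [ζn, ζe t σ hσ, Complex.ofReal_one, one_mul, Complex.exp_eq_exp_iff_exists_int] at h1
    obtain ⟨k, hk⟩ := h1
    rw [hσ, rho_eq_iff w0U]
    refine ⟨k, ?_⟩
    have h2 := congrArg Complex.im hk
    simpa using h2
  have θd : ∀ t, deriv θ t ≠ 0 := by
    intro t h0
    have d1 : HasDerivAt θ 0 t := h0 ▸ (θs.differentiable (by simp) t).hasDerivAt
    have d2 := (hasDerivAt_rho w0U (θ t)).scomp t d1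
    rw [zero_smul] at d2
    have d3 : HasDerivAt w 0 t := by
      rw [show w = (fun s => rho s w0) ∘ θ from funext wθ]; exact d2
    have d4 := (diffAt_of_U hT.smooth (wU t)).hasFDerivAt.comp_hasDerivAt t d3
    rw [map_zero, show Ti ∘ w = fun t => φ t u from
      funext fun t => hT.left _ (hF.maps t u hu)] at d4
    have d5 := W_inj (hF.maps t u hu) ((hF.ode u hu t).unique d4)
    have d6 := inner_xi_w (a := a) (b := b) (hF.maps t u hu)
    rw [d5, inner_zero_left] at d6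
    exact (hF.apos _ (hF.maps t u hu)).ne d6
  obtain ⟨k, hk⟩ : ∃ k : ℤ, θ T = 0 + k * (2 * π) := by
    rw [← rho_eq_iff w0U, ← wθ, rho_zero]
    simp only [hw, hw0, hZ.per u hu]
  have k0 : k ≠ 0 := by
    rintro rfl
    obtain ⟨t, -, ht⟩ := exists_deriv_eq_zero hZ.Tpos θs.continuous.continuousOn
      (by rw [θ0, hk]; simp)
    exact θd t ht
  obtain ⟨σ, hσ, e2⟩ := exists_rho w0U (hT.maps' hu') e
  have fin : ∀ t, rho (θ t) w0 = rho σ w0 → u' = φ t u := by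
    intro t ht
    rw [← hT.left u' hu', e2, ← ht, ← wθ]
    exact hT.left _ (hF.maps t u hu)
  have hp := pi_pos
  rcases lt_or_gt_of_ne k0 with k1 | k1
  · have k2 : (k : ℝ) ≤ -1 := by exact_mod_cast Int.le_sub_one_of_lt k1
    obtain ⟨t, ht⟩ : σ - 2 * π ∈ range θ := by
      refine intermediate_value_univ T 0 θs.continuous ⟨?_, ?_⟩
      · rw [hk]; nlinarith [hσ.1]
      · rw [θ0]; linarith [hσ.2]
    exact ⟨t, fin t (by rw [ht, rho_eq_iff w0U]; exact ⟨-1, by push_cast; ring⟩)⟩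
  · have k2 : (1 : ℝ) ≤ k := by exact_mod_cast k1
    obtain ⟨t, ht⟩ : σ ∈ range θ := by
      refine intermediate_value_univ 0 T θs.continuous ⟨?_, ?_⟩
      · rw [θ0]; exact hσ.1
      · rw [hk]; nlinarith [hσ.2]
    exact ⟨t, fin t (by rw [ht])⟩

lemma emb (hL : LiftStmt) (hZ : ZFlow φ a b T) (h : PhiOut φ a b Φ) {Ti : P → P}
    (hT : ThInv Φ Ti) (hu : u ∈ U) {s : ℝ} (hs : s ∈ Ioc 0 π) : Φ (rho s u) ≠ Φ u := by
  intro e
  obtain ⟨t, ht⟩ := fibre hL hZ h hT hu (rho_mem_U hu s) e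
  obtain ⟨t', h1, h2⟩ := (periodic hZ hu).exists_mem_Ico₀ hZ.Tpos t
  have h3 : t' = 0 := by
    refine hZ.inj u hu h1 ⟨le_rfl, hZ.Tpos⟩ ?_
    simp only at h2 ⊢
    rw [← h2, ← ht, hZ.zero, rho_fst]
  simp only [h3, hZ.zero] at h2
  rw [h2] at ht
  obtain ⟨k, hk⟩ := (rho_eq_iff hu (s := s) (t := 0)).1 (by rw [ht, rho_zero])
  have hp := pi_pos
  rcases le_or_gt k 0 with k1 | k1
  · have k2 : (k : ℝ) ≤ 0 := by exact_mod_cast k1
    nlinarith [hs.1]
  · have k2 : (1 : ℝ) ≤ k := by exact_mod_cast k1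
    nlinarith [hs.2]

/-- The structure equation with the quotient of the two forms. -/
lemma str {L : P → ℝ} {p : P → E} (hG : GeoOut L φ a b p) (h : PhiOut φ a b Φ) (hu : u ∈ U)
    (α β : E) : ⟪dW p u α, cr β u.1⟫ - ⟪dW p u β, cr α u.1⟫
      = -⟪V p u, cr u.1 u.2⟫ / om Φ u * dt (Φ u) (dW Φ u α) (dW Φ u β) := by
  have hF := hG.flow
  obtain ⟨s, r, e⟩ := basis (b := b) hu (hF.apos u hu).ne' α
  obtain ⟨s', r', e'⟩ := basis (b := b) hu (hF.apos u hu).ne' β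
  generalize ⟪α, u.2⟫ = t at e
  generalize ⟪β, u.2⟫ = t' at e'
  subst e e'
  have k1 := hG.ker u hu u.1
  have k2 := hG.ker u hu u.2
  rw [dW_dec hF h hu, dW_dec hF h hu, dt_comb, ← om, mul_comm (_ - _), ← mul_assoc,
    div_mul_cancel₀ _ (om_ne hF h hu), cr_anti u.1 u.2, inner_neg_right, neg_neg, V]
  simp only [dW_add, dW_smul, cr_add_left, cr_smul_left, cr_self, inner_add_left, inner_add_right,
    real_inner_smul_left, real_inner_smul_right, inner_zero_right, smul_zero, zero_add] at k1 ⊢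
  linear_combination (r * s' - s * r') * k1 + (r * t' - t * r') * k2

end Init

open Init in
theorem init_of (hT : ThStmt) (hL : LiftStmt) : InitStmt := by
  intro L φ a b p T Φ hG hZ hJ h
  have hF := hG.flow
  have hS := single hZ hJ h
  have hU := turn hF h
  obtain ⟨Ti, hTi⟩ := hT (fun _ => Φ)
    (h.odd1.smooth.comp contDiffOn_snd fun q hq => hq.2) (fun _ => h.odd1.unit)
    (fun _ u hu => (hU.pos0 u hu).ne') hS 0
  have good : Good Φ := ⟨h.odd1, fun u hu s hs => emb hL hZ h hTi hu hs, hU⟩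
  have key : ∀ ε : ℝ, (∀ u ∈ U, ε * om Φ u < 0) → Data Φ (fun u => ε • p u)
      (fun u => ε * (-⟪V p (rt u), cr (rt u).1 (rt u).2⟫ / om Φ (rt u))) := by
    intro ε hε
    refine ⟨good, hG.psm.const_smul ε, ?_, fun u hu => ?_, fun u hu => ?_, fun u hu α β => ?_⟩
    · refine contDiffOn_comp_rt
        (f := fun u => ε * (-⟪V p u, cr u.1 u.2⟫ / om Φ u)) fun u hu => ?_
      have h1 := contDiffAt_V (contDiffAt_of_U hG.psm hu)
      have h2 : ContDiffAt ℝ ∞ (fun u : P => cr u.1 u.2) u :=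
        (crL.contDiff.contDiffAt.comp u contDiffAt_fst).clm_apply contDiffAt_snd
      exact contDiffAt_const.mul ((h1.inner ℝ h2).neg.div
        (contDiffAt_of_U (om_smooth h.odd1.smooth) hu) (om_ne hF h hu))
    · rw [hG.podd u hu, smul_neg]
    · rw [rt_of_U hu]
      have h1 := hG.conv u hu
      have h2 := om_ne hF h hu
      have h3 : ε * (-⟪V p u, cr u.1 u.2⟫ / om Φ u)
          = -(ε * om Φ u) * ⟪V p u, cr u.1 u.2⟫ / om Φ u ^ 2 := by field_simp
      rw [h3]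
      exact div_pos (mul_pos (neg_pos.2 (hε u hu)) h1) (by positivity)
    · have hd := diffAt_of_U hG.psm hu
      rw [rt_of_U hu, dW_csmul ε hd, dW_csmul ε hd, real_inner_smul_left, real_inner_smul_left,
        ← mul_sub, str hG h hu, mul_assoc]
  refine ⟨hS, ?_⟩
  rcases om_sign hF h with hs | hs
  · exact ⟨-1, _, Or.inr rfl, key _ fun u hu => by linarith [hs u hu]⟩
  · exact ⟨1, _, Or.inl rfl, key _ fun u hu => by linarith [hs u hu]⟩

end Pool.Agent.MP_2291e2_gt.Zl
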