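import Mathlib.LinearAlgebra.FreeModule.PID
import Mathlib.Topology.Sheaves.Presheaf
import Mathlib.RingTheory.Flat.TorsionFree
import Mathlib.Algebra.Order.Ring.Star
import Mathlib.LinearAlgebra.Complex.FiniteDimensional
import Mathlib.Combinatorics.SimpleGraph.Basic
import Mathlib.RingTheory.PiTensorProduct
import Mathlib.RingTheory.SimpleRing.Principal
import Mathlib.RingTheory.TotallySplit
import Mathlib.RingTheory.Etale.Weakly
import Pool.Agent.MP_2291e2_gt.zl.Spec2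
import Pool.Agent.MP_2291e2_gt.zl.Spec

-- ======== part 0: formerly Pool.Agent.MP_2291e2_gt.zl.Chord
section MrgPart0

/-! The chord-arc barrier is kept by the flow. -/

open scoped ContDiff RealInnerProductSpace Topology
open Set Filter Real

namespace Pool.Agent.MP_2291e2_gt.Zl

namespace ChordA

noncomputable def ph (A l : ℝ) : ℝ := arsinh (A * l) / A

noncomputable def f1 (A l : ℝ) : ℝ := (√(1 + (A * l) ^ 2))⁻¹

lemma ph_d {A : ℝ} (hA : A ≠ 0) (l : ℝ) : HasDerivAt (ph A) (f1 A l) l := by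
  have h := ((Real.hasDerivAt_arsinh (A * l)).comp l ((hasDerivAt_id l).const_mul A)).div_const A
  have e : (√(1 + (A * l) ^ 2))⁻¹ * (A * 1) / A = f1 A l := by
    unfold f1; field_simp
  rw [e] at h
  exact h

lemma f1_pos (A l : ℝ) : 0 < f1 A l := by unfold f1; positivity

lemma f1_sq (A l : ℝ) : f1 A l ^ 2 * (1 + (A * l) ^ 2) = 1 := by
  unfold f1
  rw [inv_pow, Real.sq_sqrt (by positivity)]
  exact inv_mul_cancel₀ (by positivity)

lemma f1_le (A l : ℝ) : f1 A l ≤ 1 := by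
  have h := f1_sq A l
  have h0 := f1_pos A l
  nlinarith [sq_nonneg (f1 A l * (A * l))]

lemma f1_d (A l : ℝ) : HasDerivAt (f1 A) (-(A ^ 2 * l * f1 A l ^ 3)) l := by
  have hp : (0 : ℝ) < 1 + (A * l) ^ 2 := by positivity
  have h0 : HasDerivAt (fun l => 1 + (A * l) ^ 2) (2 * (A * l) * A) l := by
    have := (((hasDerivAt_id l).const_mul A).pow 2).const_add 1
    simpa using this
  have hs : 0 < √(1 + (A * l) ^ 2) := Real.sqrt_pos.2 hp
  have h := (h0.sqrt hp.ne').inv hs.ne'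
  have e : -(2 * (A * l) * A / (2 * √(1 + (A * l) ^ 2))) / √(1 + (A * l) ^ 2) ^ 2
      = -(A ^ 2 * l * f1 A l ^ 3) := by
    unfold f1; field_simp
  rw [e] at h
  exact h

lemma ph_mono {A : ℝ} (hA : 0 < A) {a b : ℝ} (h : a ≤ b) : ph A a ≤ ph A b :=
  div_le_div_of_nonneg_right
    (Real.arsinh_le_arsinh.2 (mul_le_mul_of_nonneg_left h hA.le)) hA.le

lemma ph_le {A : ℝ} (hA : 0 < A) {l : ℝ} (h : 0 ≤ l) : ph A l ≤ l := by
  unfold ph
  rw [div_le_iff₀ hA, mul_comm l A]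
  have : arsinh (A * l) ≤ arsinh (sinh (A * l)) :=
    Real.arsinh_le_arsinh.2 (Real.self_le_sinh_iff.2 (by positivity))
  rwa [Real.arsinh_sinh] at this

lemma ph_pos {A : ℝ} (hA : 0 < A) {l : ℝ} (h : 0 < l) : 0 < ph A l :=
  div_pos (Real.arsinh_pos_iff.2 (by positivity)) hA

lemma ph_cont (A : ℝ) : Continuous (ph A) :=
  (Real.continuous_arsinh.comp (continuous_const.mul continuous_id)).div_const A

/-- First and second order conditions at a point where a norm touches a barrier from above. -/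
lemma second {δ δ1 : ℝ → E} {δ2 : E} {w w1 : ℝ → ℝ} {w2 : ℝ}
    (hδ : ∀ s, HasDerivAt δ (δ1 s) s) (hδ1 : HasDerivAt δ1 δ2 0)
    (hw : ∀ s, HasDerivAt w (w1 s) s) (hw1 : HasDerivAt w1 w2 0)
    (h0 : ‖δ 0‖ = w 0) (hp : 0 < w 0) (hle : ∀ᶠ s in 𝓝 (0 : ℝ), w s ≤ ‖δ s‖) :
    ⟪δ 0, δ1 0⟫ = w 0 * w1 0 ∧ w1 0 ^ 2 + w 0 * w2 ≤ ‖δ1 0‖ ^ 2 + ⟪δ 0, δ2⟫ := by
  have hm : IsLocalMin (fun s => ⟪δ s, δ s⟫ - w s * w s) 0 := by
    have hpos : ∀ᶠ s in 𝓝 (0 : ℝ), 0 < w s := (hw 0).continuousAt.eventually (lt_mem_nhds hp)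
    filter_upwards [hpos, hle] with s h1 h2
    simp only [real_inner_self_eq_norm_sq, h0]
    nlinarith
  have h1 : ∀ᶠ y in 𝓝 (0 : ℝ), HasDerivAt (fun s => ⟪δ s, δ s⟫ - w s * w s)
      ((fun y => 2 * ⟪δ y, δ1 y⟫ - 2 * (w y * w1 y)) y) y := by
    refine Eventually.of_forall fun y => ?_
    have := (hasDerivAt_inner (hδ y) (hδ y)).fun_sub ((hw y).fun_mul (hw y))
    refine this.congr_deriv ?_
    simp only [real_inner_comm (δ y) (δ1 y)]
    ring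
  have h2 : HasDerivAt (fun y => 2 * ⟪δ y, δ1 y⟫ - 2 * (w y * w1 y))
      (2 * (⟪δ1 0, δ1 0⟫ + ⟪δ 0, δ2⟫) - 2 * (w1 0 * w1 0 + w 0 * w2)) 0 :=
    ((hasDerivAt_inner (hδ 0) hδ1).const_mul 2).fun_sub (((hw 0).fun_mul hw1).const_mul 2)
  obtain ⟨e1, e2⟩ := min_deriv hm h1 h2
  rw [real_inner_self_eq_norm_sq] at e2
  constructor <;> nlinarith

lemma gram (a b c c' : E) : dt a b c * dt a b c' =
    ⟪a, a⟫ * (⟪b, b⟫ * ⟪c, c'⟫ - ⟪b, c'⟫ * ⟪c, b⟫)
    - ⟪a, b⟫ * (⟪a, b⟫ * ⟪c, c'⟫ - ⟪b, c'⟫ * ⟪c, a⟫)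
    + ⟪a, c'⟫ * (⟪a, b⟫ * ⟪c, b⟫ - ⟪b, b⟫ * ⟪c, a⟫) := by
  simp only [dt3, inner3]; ring

/-- The two possible positions of the tangent vectors at a critical chord. -/
lemma alt {a b p r : E} {v d k : ℝ} (ha : ‖a‖ = 1) (hb : ‖b‖ = 1) (hp : ‖p‖ = v) (hr : ‖r‖ = v)
    (hap : ⟪a, p⟫ = 0) (hbr : ⟪b, r⟫ = 0) (hd : ‖b - a‖ = d) (hd0 : 0 < d) (hd2 : d < 2)
    (h1 : ⟪b - a, p⟫ = d * v * k) (h2 : ⟪b - a, r⟫ = d * v * k) :
    ‖r - p‖ ^ 2 ≤ v ^ 2 * d ^ 2 ∨ (‖r + p‖ ^ 2 = 4 * v ^ 2 * k ^ 2 ∧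
      ‖cr b r - cr a p‖ ^ 2 = 4 * v ^ 2 * (1 - d ^ 2 / 4 - k ^ 2)) := by
  have aa : ⟪a, a⟫ = 1 := by rw [real_inner_self_eq_norm_sq, ha]; norm_num
  have bb : ⟪b, b⟫ = 1 := by rw [real_inner_self_eq_norm_sq, hb]; norm_num
  have pp : ⟪p, p⟫ = v ^ 2 := by rw [real_inner_self_eq_norm_sq, hp]
  have rr : ⟪r, r⟫ = v ^ 2 := by rw [real_inner_self_eq_norm_sq, hr]
  have ab : ⟪a, b⟫ = 1 - d ^ 2 / 2 := by
    have := norm_sub_sq_real b a
    rw [hd, ha, hb, real_inner_comm] at this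
    linarith
  have bp : ⟪b, p⟫ = d * v * k := by rw [← h1, inner_sub_left, hap, sub_zero]
  have ar : ⟪a, r⟫ = -(d * v * k) := by rw [← h2, inner_sub_left, hbr]; ring
  have g1 := gram a b p p
  have g2 := gram a b r r
  have g3 := gram a b p r
  rw [real_inner_comm b p, real_inner_comm a p] at g1 g3
  rw [real_inner_comm b r, real_inner_comm a r] at g2
  simp only [aa, bb, pp, rr, ab, bp, ar, hap, hbr] at g1 g2 g3
  have hdd : 0 < d ^ 2 := by positivity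
  have h4 : 0 < 2 - d ^ 2 / 2 := by nlinarith
  have e : dt a b p = dt a b r ∨ dt a b p = -dt a b r := by
    apply sq_eq_sq_iff_eq_or_eq_neg.1
    rw [sq, sq, g1, g2]; ring
  have pr := real_inner_comm p r
  rcases e with e | e
  · left
    rw [norm_sub_sq_real, hr, hp, pr]
    have hS := mul_self_nonneg (dt a b p)
    have e1 : (d ^ 2 / 2) * ((2 - d ^ 2 / 2) * (v ^ 2 - ⟪p, r⟫) - (d * v * k) ^ 2) = 0 := by
      rw [← e] at g3
      linear_combination g3 - g1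
    have e2 : (2 - d ^ 2 / 2) * (v ^ 2 - ⟪p, r⟫) = (d * v * k) ^ 2 := by
      rcases mul_eq_zero.1 e1 with h | h
      · linarith
      · linarith
    refine le_of_mul_le_mul_left ?_ h4
    rw [g1] at hS
    nlinarith
  · right
    have e1 : (2 - d ^ 2 / 2) * (d ^ 2 / 2 * (⟪p, r⟫ + v ^ 2 - 2 * v ^ 2 * k ^ 2)) = 0 := by
      have : dt a b r = -dt a b p := by rw [e, neg_neg]
      rw [this] at g3
      linear_combination -g3 - g1
    have e2 : ⟪p, r⟫ = 2 * v ^ 2 * k ^ 2 - v ^ 2 := by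
      rcases mul_eq_zero.1 e1 with h | h
      · linarith
      · rcases mul_eq_zero.1 h with h | h
        · linarith
        · linarith
    constructor
    · rw [norm_add_sq_real, hr, hp, pr, e2]; ring
    · rw [norm_sub_sq_real, normsq_cr, normsq_cr, inner_cr_cr, ha, hb, hp, hr, hap, hbr,
        real_inner_comm a b, ab, pr, e2, bp, real_inner_comm a r, ar]
      ring

/-- Cauchy-Schwarz for a curve, without integrals. -/
lemma cs {n n1 : ℝ → E} {m : ℝ → ℝ} (hn : ∀ s, HasDerivAt n (n1 s) s)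
    (hm : ∀ s, HasDerivAt m (‖n1 s‖ ^ 2) s) {h : ℝ} (h0 : 0 < h) :
    ‖n h - n 0‖ ^ 2 ≤ h * (m h - m 0) := by
  set a : E := h⁻¹ • (n h - n 0) with ha
  have hk : ∀ s, HasDerivAt (fun s => m s - 2 * ⟪a, n s⟫ + ‖a‖ ^ 2 * s) (‖n1 s - a‖ ^ 2) s := by
    intro s
    have := ((hm s).fun_sub ((hasDerivAt_inner (hasDerivAt_const s a) (hn s)).const_mul 2)).fun_add
      ((hasDerivAt_id s).const_mul (‖a‖ ^ 2))
    refine this.congr_deriv ?_
    rw [norm_sub_sq_real, real_inner_comm a (n1 s), inner_zero_left]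
    ring
  have hmono : Monotone fun s => m s - 2 * ⟪a, n s⟫ + ‖a‖ ^ 2 * s :=
    monotone_of_deriv_nonneg (fun s => (hk s).differentiableAt) fun s => by
      rw [(hk s).deriv]; positivity
  have h1 := hmono h0.le
  have e1 : n h - n 0 = h • a := by rw [ha, smul_smul, mul_inv_cancel₀ h0.ne', one_smul]
  have e2 : ⟪a, n h⟫ - ⟪a, n 0⟫ = h * ‖a‖ ^ 2 := by
    rw [← inner_sub_right, e1, real_inner_smul_right, real_inner_self_eq_norm_sq]
  rw [e1, norm_smul, Real.norm_eq_abs, abs_of_pos h0]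
  simp only at h1
  nlinarith

/-- A curve of speed `v` with bounded acceleration does not close up quickly. -/
lemma loop {g p q : ℝ → E} {B h : ℝ} (hg : ∀ s, HasDerivAt g (p s) s)
    (hp : ∀ s, HasDerivAt p (q s) s) (hB : ∀ s, ‖q s‖ ≤ B) (h0 : 0 < h) (e : g h = g 0) :
    ‖p 0‖ ≤ B * h := by
  have hB0 : 0 ≤ B := (norm_nonneg _).trans (hB 0)
  have h1 : ∀ s ∈ Icc 0 h, ‖p s - p 0‖ ≤ B * h := fun s hs => by
    have := norm_image_sub_le_of_norm_deriv_le_segment' (f := p) (f' := q) (a := 0) (b := h)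
      (C := B) (fun x _ => (hp x).hasDerivWithinAt) (fun x _ => hB x) s hs
    refine this.trans (mul_le_mul_of_nonneg_left (by linarith [hs.2]) hB0)
  have h2 := norm_image_sub_le_of_norm_deriv_le_segment' (f := fun s => g s - s • p 0)
    (f' := fun s => p s - p 0) (a := 0) (b := h) (C := B * h)
    (fun x _ => by
      have := (hg x).fun_sub ((hasDerivAt_id x).smul_const (p 0))
      rw [one_smul] at this
      exact this.hasDerivWithinAt)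
    (fun x hx => h1 x (Ico_subset_Icc_self hx)) h (right_mem_Icc.2 h0.le)
  have e2 : g h - h • p 0 - (g 0 - (0 : ℝ) • p 0) = -(h • p 0) := by rw [e, zero_smul]; abel
  rw [e2, norm_neg, norm_smul, Real.norm_eq_abs, abs_of_pos h0, sub_zero, mul_comm] at h2
  exact le_of_mul_le_mul_right h2 h0

/-- The inequality at a touching point, for one curve. -/
lemma curve {g p q : ℝ → E} {μ : ℝ → ℝ} {A v M h c : ℝ} (hA : 0 < A) (hv : 0 < v)
    (hg : ∀ s, HasDerivAt g (p s) s) (hp : ∀ s, HasDerivAt p (q s) s)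
    (hμ : ∀ s, HasDerivAt μ ((‖q s‖ ^ 2 - M) / v ^ 2) s)
    (g1 : ∀ s, ‖g s‖ = 1) (p1 : ∀ s, ‖p s‖ = v) (gp : ∀ s, ⟪g s, p s⟫ = 0)
    (gq : ∀ s, ⟪g s, q s⟫ = -v ^ 2) (h0 : 0 < h) (hπ : h < π) (hc : 0 < c)
    (hd : ‖g h - g 0‖ = ph A (v * h) - c) (hd0 : 0 < ‖g h - g 0‖) (hd2 : ‖g h - g 0‖ < 2)
    (hle : ∀ a b, b - a ∈ Icc 0 π → ph A (v * (b - a)) - c ≤ ‖g b - g a‖) :
    f1 A (v * h) * ((2 * (v ^ 2) ^ 2 - 2 * M) / (2 * v) * h) * ‖g h - g 0‖ ≤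
      ⟪g h - g 0, (q h + v ^ 2 • g h + μ h • p h) - (q 0 + v ^ 2 • g 0 + μ 0 • p 0)⟫ := by
  set d := ‖g h - g 0‖ with hdd
  set k := f1 A (v * h) with hk
  have dir : ∀ α β : ℝ, ⟪g h - g 0, β • p h - α • p 0⟫ = d * (k * (v * (β - α))) ∧
      (k * (v * (β - α))) ^ 2 + d * (-(A ^ 2 * (v * h) * k ^ 3) * (v * (β - α)) * (v * (β - α)))
        ≤ ‖β • p h - α • p 0‖ ^ 2 + ⟪g h - g 0, β • β • q h - α • α • q 0⟫ := by
    intro α β
    have l1 : ∀ s : ℝ, HasDerivAt (fun s => h + β * s) β s := fun s => by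
      simpa using ((hasDerivAt_id s).const_mul β).const_add h
    have l2 : ∀ s : ℝ, HasDerivAt (fun s => α * s) α s := fun s => by
      simpa using (hasDerivAt_id s).const_mul α
    have l3 : ∀ s : ℝ, HasDerivAt (fun s => v * (h + β * s - α * s)) (v * (β - α)) s :=
      fun s => ((l1 s).fun_sub (l2 s)).const_mul v
    have := second (δ := fun s => g (h + β * s) - g (α * s))
      (δ1 := fun s => β • p (h + β * s) - α • p (α * s))
      (δ2 := β • β • q (h + β * 0) - α • α • q (α * 0))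
      (w := fun s => ph A (v * (h + β * s - α * s)) - c)
      (w1 := fun s => f1 A (v * (h + β * s - α * s)) * (v * (β - α)))
      (w2 := -(A ^ 2 * (v * (h + β * 0 - α * 0)) * f1 A (v * (h + β * 0 - α * 0)) ^ 3)
        * (v * (β - α)) * (v * (β - α)))
      (fun s => ((hg _).scomp s (l1 s)).fun_sub ((hg _).scomp s (l2 s)))
      ((((hp _).scomp 0 (l1 0)).fun_const_smul β).fun_sub
        (((hp _).scomp 0 (l2 0)).fun_const_smul α))
      (fun s => ((ph_d hA.ne' _).comp s (l3 s)).sub_const c)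
      (((f1_d A _).comp 0 (l3 0)).mul_const _)
      (by simpa using hd) (by simp only [mul_zero, add_zero, sub_zero]; linarith)
      (by
        have : ∀ᶠ s in 𝓝 (0 : ℝ), h + β * s - α * s ∈ Ioo 0 π :=
          ((l1 0).fun_sub (l2 0)).continuousAt.eventually (Ioo_mem_nhds (by simpa) (by simpa))
        filter_upwards [this] with s hs
        exact hle _ _ (Ioo_subset_Icc_self hs))
    simp only [mul_zero, add_zero, sub_zero, ← hd] at this
    exact this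
  obtain ⟨a1, -⟩ := dir 0 1
  obtain ⟨a2, a3⟩ := dir 1 1
  obtain ⟨-, a4⟩ := dir (-1) 1
  simp only [one_smul, zero_smul, sub_zero, mul_one, sub_self, mul_zero, neg_smul, smul_neg,
    neg_neg, sub_neg_eq_add] at a1 a2 a3 a4
  have b2 : ⟪g h - g 0, p h⟫ = d * v * k := by rw [a1]; ring
  have b1 : ⟪g h - g 0, p 0⟫ = d * v * k := by
    rw [inner_sub_right] at a2
    linarith
  have hcs := cs (n := fun s => cr (g s) (p s)) (n1 := fun s => cr (g s) (q s))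
    (m := fun s => v ^ 2 * μ s + (M - v ^ 4) * s)
    (fun s => by simpa using hasDerivAt_cr (hg s) (hp s))
    (fun s => by
      have := ((hμ s).const_mul (v ^ 2)).fun_add ((hasDerivAt_id s).const_mul (M - v ^ 4))
      refine this.congr_deriv ?_
      rw [normsq_cr, g1, gq]
      field_simp
      ring) h0
  simp only [mul_zero, add_zero] at hcs
  set J := v ^ 2 * μ h + (M - v ^ 4) * h - v ^ 2 * μ 0 with hJ
  set Q := ⟪g h - g 0, q h - q 0⟫ with hQ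
  have e : ⟪g h - g 0, (q h + v ^ 2 • g h + μ h • p h) - (q 0 + v ^ 2 • g 0 + μ 0 • p 0)⟫
      - k * ((2 * (v ^ 2) ^ 2 - 2 * M) / (2 * v) * h) * d = Q + v ^ 2 * d ^ 2 + d * k / v * J := by
    have : (q h + v ^ 2 • g h + μ h • p h) - (q 0 + v ^ 2 • g 0 + μ 0 • p 0)
        = (q h - q 0) + v ^ 2 • (g h - g 0) + μ h • p h - μ 0 • p 0 := by module
    rw [this, inner_sub_right, inner_add_right, inner_add_right, real_inner_smul_right,
      real_inner_smul_right, real_inner_smul_right, b1, b2, real_inner_self_eq_norm_sq, ← hQ, hJ]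
    field_simp
    ring
  have k0 : 0 < k := f1_pos _ _
  have k1 : k ≤ 1 := f1_le _ _
  have k2 : k ^ 2 * (1 + (A * (v * h)) ^ 2) = 1 := f1_sq _ _
  have J0 : 0 ≤ J := nonneg_of_mul_nonneg_right ((sq_nonneg _).trans hcs) h0
  rw [← sub_nonneg, e]
  rcases alt (g1 0) (g1 h) (p1 0) (p1 h) (gp 0) (gp h) rfl hd0 hd2 b1 b2 with h1 | ⟨h1, h2⟩
  · have : 0 ≤ d * k / v * J := by positivity
    nlinarith
  · rw [h1] at a4
    rw [h2] at hcs
    have dl : d ≤ v * h := by linarith [ph_le hA (mul_pos hv h0).le]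
    have c1 : -(4 * d * v ^ 2 * A ^ 2 * (v * h) * k ^ 3) ≤ Q := by nlinarith
    have c2 : 4 * v ^ 2 * (1 - d ^ 2 / 4 - k ^ 2) / h ≤ J := by
      rw [div_le_iff₀ h0, mul_comm J]; exact hcs
    have c3 := mul_le_mul_of_nonneg_left c2 (show 0 ≤ d * k / v by positivity)
    have c4 : d * k / v * (4 * v ^ 2 * (1 - d ^ 2 / 4 - k ^ 2) / h)
        = 4 * d * v ^ 2 * A ^ 2 * (v * h) * k ^ 3 - v ^ 2 * d ^ 2 * (k * d / (v * h)) := by
      have : 1 - d ^ 2 / 4 - k ^ 2 = k ^ 2 * (A * (v * h)) ^ 2 - d ^ 2 / 4 := by linarith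
      rw [this]
      field_simp
    have c5 : k * d / (v * h) ≤ 1 := by
      rw [div_le_one (mul_pos hv h0)]
      nlinarith
    have c6 := mul_le_mul_of_nonneg_left c5 (show 0 ≤ v ^ 2 * d ^ 2 by positivity)
    linarith

end ChordA

open ChordA in
theorem chord_of (_hM : MeanStmt) (hA : CurveAStmt) : ChordStmt := by
  intro G₀ γ T A hA0 pre up con ch0 lt2
  have odd : ∀ t ∈ Icc 0 T, Odd1 (γ t) := fun t ht =>
    ⟨pre.slice t ht.1, fun u hu => ((con t ht).1 u hu).1, pre.odd t ht.1⟩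
  have CA := fun t ht u hu => hA (γ t) (odd t ht) (con t ht).1 u hu
  have hv : ∀ t ∈ Icc 0 T, ∀ u ∈ U, √(vsq (γ t) u) = ‖V (γ t) u‖ := fun t ht u hu => by
    rw [← ((con t ht).1 u hu).2, Real.sqrt_sq (norm_nonneg _)]
  have hv2 : ∀ t ∈ Icc 0 T, ∀ u ∈ U, 1 / 2 ≤ √(vsq (γ t) u) := fun t ht u hu =>
    Real.le_sqrt_of_sq_le (by linarith [(up t ht u hu).1])
  have anti : ∀ u ∈ U, ∀ t ∈ Icc 0 T, √(vsq (γ t) u) ≤ ‖V (γ 0) u‖ := by
    intro u hu t ht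
    have h0 : (0 : ℝ) ∈ Icc 0 T := ⟨le_rfl, ht.1.trans ht.2⟩
    rw [← hv 0 h0 u hu]
    refine Real.sqrt_le_sqrt (antitoneOn_of_deriv_nonpos (f := fun t => vsq (γ t) u)
      (convex_Icc 0 T) ?_ ?_ ?_ h0 ht ht.1)
    · have c1 : ContinuousOn (fun t => V (γ t) u) (Icc 0 T) :=
        pre.c1.comp (f := fun t : ℝ => (t, u)) (by fun_prop) fun t ht => ⟨ht.1, U_sub_Ind hu⟩
      exact (c1.norm.pow 2).congr fun t ht => ((con t ht).1 u hu).2.symm
    · rw [interior_Icc]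
      exact fun t ht =>
        ((con t (Ioo_subset_Icc_self ht)).2 u hu ht.1).differentiableAt.differentiableWithinAt
    · rw [interior_Icc]
      intro t ht
      rw [((con t (Ioo_subset_Icc_self ht)).2 u hu ht.1).deriv]
      obtain ⟨-, -, -, -, -, -, -, -, -, -, -, -, -, h, -⟩ := CA t (Ioo_subset_Icc_self ht) u hu
      linarith
  obtain ⟨B₀, hB₀⟩ := pre.c2.c0U.bdd T
  set B := max B₀ 1 with hBd
  have hB : ∀ t ∈ Icc 0 T, ∀ u ∈ U, ‖V (V (γ t)) u‖ ≤ B := fun t ht u hu =>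
    (hB₀ t ht u hu).trans (le_max_left _ _)
  have B0 : 0 < B := lt_of_lt_of_le one_pos (le_max_right _ _)
  have main : ∀ ε > 0, ε * (1 + T) < ph A (1 / (4 * B)) → ∀ t ∈ Icc 0 T, ∀ x ∈ U ×ˢ Icc 0 π,
      0 < ‖γ t (rho x.2 x.1) - γ t x.1‖ - ph A (√(vsq (γ t) x.1) * x.2) + ε * (1 + t) := by
    intro ε hε hεs
    by_cases hT : 0 ≤ T
    swap
    · exact fun t ht => absurd (ht.1.trans ht.2) hT
    refine stay_pos (Z := fun t (x : P × ℝ) =>
      ‖γ t (rho x.2 x.1) - γ t x.1‖ - ph A (√(vsq (γ t) x.1) * x.2) + ε * (1 + t))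
      (isCompact_U.prod isCompact_Icc) ?_ ?_ ?_
    · have cr' : Continuous fun q : ℝ × P × ℝ => rho q.2.2 q.2.1 := by
        simp only [rho, ← crL_apply]
        fun_prop
      have c1 : ContinuousOn (fun q : ℝ × P × ℝ => γ q.1 (rho q.2.2 q.2.1))
          (Icc 0 T ×ˢ U ×ˢ Icc 0 π) :=
        pre.c0.comp (f := fun q : ℝ × P × ℝ => (q.1, rho q.2.2 q.2.1))
          (continuous_fst.prodMk cr').continuousOn
          fun q hq => ⟨hq.1.1, U_sub_Ind (rho_mem_U hq.2.1 _)⟩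
      have c2 : ContinuousOn (fun q : ℝ × P × ℝ => γ q.1 q.2.1) (Icc 0 T ×ˢ U ×ˢ Icc 0 π) :=
        pre.c0.comp (f := fun q : ℝ × P × ℝ => (q.1, q.2.1)) (by fun_prop)
          fun q hq => ⟨hq.1.1, U_sub_Ind hq.2.1⟩
      have c3 : ContinuousOn (fun q : ℝ × P × ℝ => V (γ q.1) q.2.1) (Icc 0 T ×ˢ U ×ˢ Icc 0 π) :=
        pre.c1.comp (f := fun q : ℝ × P × ℝ => (q.1, q.2.1)) (by fun_prop)
          fun q hq => ⟨hq.1.1, U_sub_Ind hq.2.1⟩
      have c4 : ContinuousOn (fun q : ℝ × P × ℝ => √(vsq (γ q.1) q.2.1))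
          (Icc 0 T ×ˢ U ×ˢ Icc 0 π) := c3.norm.congr fun q hq => hv _ hq.1 _ hq.2.1
      exact ((c1.sub c2).norm.sub ((ph_cont A).comp_continuousOn (c4.mul (by fun_prop)))).add
        (by fun_prop)
    · rintro ⟨u, h⟩ ⟨hu, hh⟩
      have := ch0 u hu h hh
      simp only [hv 0 ⟨le_rfl, hT⟩ u hu, ph]
      linarith
    · rintro τ hτ ⟨u, h⟩ ⟨hu, hh⟩ hZ hmin
      have hτ' : τ ∈ Icc 0 T := Ioc_subset_Icc_self hτ
      have sm := (odd τ hτ').smooth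
      simp only at hu hh hZ ⊢
      set v := √(vsq (γ τ) u) with hvd
      have v0 : 0 < v := by linarith [hv2 τ hτ' u hu]
      have vq : vsq (γ τ) u = v ^ 2 := (Real.sq_sqrt (by linarith [(up τ hτ' u hu).1])).symm
      have vr : ∀ s, vsq (γ τ) (rho s u) = v ^ 2 := fun s => ((CA τ hτ' u hu).2.1 s).trans vq
      have c0 : 0 < ε * (1 + τ) := mul_pos hε (by linarith [hτ.1])
      have hg := hasDerivAt_V' sm hu
      have hp := hasDerivAt_V' (contDiffOn_V sm) hu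
      have p1 : ∀ s, ‖V (γ τ) (rho s u)‖ = v := fun s => by
        rw [← hv τ hτ' _ (rho_mem_U hu s), vr, Real.sqrt_sq v0.le]
      have hd : ‖γ τ (rho h u) - γ τ (rho 0 u)‖ = ph A (v * h) - ε * (1 + τ) := by
        rw [rho_zero]; linarith
      have h0 : 0 < h := by
        refine lt_of_le_of_ne hh.1 ?_
        rintro rfl
        simp only [ph, sub_self, norm_zero, mul_zero, arsinh_zero, zero_div] at hd
        linarith
      have l2 : ph A (v * π) < 2 := lt_of_le_of_lt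
        (ph_mono hA0 (mul_le_mul_of_nonneg_right (anti u hu τ hτ') pi_pos.le)) (lt2 u hu)
      have hd2 : ‖γ τ (rho h u) - γ τ (rho 0 u)‖ < 2 := by
        linarith [ph_mono hA0 (mul_le_mul_of_nonneg_left hh.2 v0.le)]
      have hπ : h < π := by
        refine lt_of_le_of_ne hh.2 ?_
        rintro rfl
        rw [rho_pi, rho_zero, (odd τ hτ').odd u hu, ← neg_add', norm_neg, ← two_smul ℝ, norm_smul,
          (odd τ hτ').unit u hu] at hd2
        norm_num at hd2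
      have hd0 : 0 < ‖γ τ (rho h u) - γ τ (rho 0 u)‖ := by
        refine norm_pos_iff.2 fun e => ?_
        have := loop hg hp (fun s => hB τ hτ' _ (rho_mem_U hu s)) h0 (sub_eq_zero.1 e)
        rw [p1] at this
        have h3 : 1 / (4 * B) ≤ v * h := by
          rw [div_le_iff₀ (by positivity)]
          nlinarith [hv2 τ hτ' u hu]
        have h4 := ph_mono hA0 h3
        rw [e, norm_zero] at hd
        nlinarith [hτ.2]
      have key := curve (g := fun s => γ τ (rho s u)) (p := fun s => V (γ τ) (rho s u))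
        (q := fun s => V (V (γ τ)) (rho s u)) (μ := fun s => mu (γ τ) (rho s u))
        (M := MM (γ τ) u) hA0 v0 hg hp
        (fun s => by
          obtain ⟨-, -, -, -, -, -, -, -, -, -, -, h1, h2, -⟩ := CA τ hτ' _ (rho_mem_U hu s)
          have := hasDerivAt_V hu (h1.differentiableAt (by simp))
          rwa [h2, vr, (CA τ hτ' u hu).2.2.1 s] at this)
        (fun s => (odd τ hτ').unit _ (rho_mem_U hu s)) p1
        (fun s => (CA τ hτ' _ (rho_mem_U hu s)).2.2.2.1)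
        (fun s => by rw [(CA τ hτ' _ (rho_mem_U hu s)).2.2.2.2.1, vr]) h0 hπ c0 hd hd0 hd2
        (fun a b hab => by
          have := hmin τ ⟨hτ'.1, le_rfl⟩ (rho a u, b - a) ⟨rho_mem_U hu a, hab⟩
          simp only [rho_add hu, sub_add_cancel, vr, Real.sqrt_sq v0.le] at this
          linarith)
      simp only [rho_zero] at key hd0
      have d1 := ((up τ hτ' _ (rho_mem_U hu h)).2 hτ.1).fun_sub ((up τ hτ' u hu).2 hτ.1)
      have d2 := (d1.norm_sq.sqrt (by positivity))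
      simp only [Real.sqrt_sq (norm_nonneg _)] at d2
      have d3 := (ph_d hA0.ne' (v * h)).comp τ
        ((((con τ hτ').2 u hu hτ.1).sqrt (by rw [vq]; positivity)).mul_const h)
      have d4 := (d2.fun_sub d3).fun_add (((hasDerivAt_id τ).const_add 1).const_mul ε)
      refine ⟨_, ?_, d4⟩
      simp only [RHS, vr, vq, Real.sqrt_sq v0.le]
      rw [mul_div_mul_left _ _ two_ne_zero]
      have := (le_div_iff₀ hd0).2 key
      linarith
  intro τ hτ u hu h hh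
  have T0 : 0 < 1 + T := by linarith [hτ.1, hτ.2]
  have s0 : 0 < ph A (1 / (4 * B)) := ph_pos hA0 (by positivity)
  refine le_of_forall_pos_le_add fun η hη => ?_
  have m0 : 0 < min η (ph A (1 / (4 * B)) / 2) := lt_min hη (by linarith)
  have e1 : min η (ph A (1 / (4 * B)) / 2) / (1 + T) * (1 + T) = min η (ph A (1 / (4 * B)) / 2) :=
    div_mul_cancel₀ _ T0.ne'
  have := main _ (div_pos m0 T0) (by
    rw [e1]; linarith [min_le_right η (ph A (1 / (4 * B)) / 2)]) τ hτ (u, h) ⟨hu, hh⟩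
  have e2 := mul_le_mul_of_nonneg_left (show 1 + τ ≤ 1 + T by linarith [hτ.2]) (div_pos m0 T0).le
  simp only [hv τ hτ u hu, ph] at this e1 e2 ⊢
  linarith [min_le_left η (arsinh (A * (1 / (4 * B))) / A / 2)]

end Pool.Agent.MP_2291e2_gt.Zl

end MrgPart0

-- ======== part 1: formerly Pool.Agent.MP_2291e2_gt.zl.EnergyA
section MrgPart1

/-! Static estimates for the energy inequality: one fixed time. -/

open scoped ContDiff RealInnerProductSpace Topology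
open Set Filter Real

namespace Pool.Agent.MP_2291e2_gt.Zl
namespace Energy

lemma sm_deriv {f : ℝ → ℝ} (h : ContDiff ℝ ∞ f) : ContDiff ℝ ∞ (deriv f) :=
  (contDiff_infty_iff_deriv.1 h).2

lemma sm_has {f : ℝ → ℝ} (h : ContDiff ℝ ∞ f) (x : ℝ) : HasDerivAt f (deriv f x) x :=
  ((contDiff_infty_iff_deriv.1 h).1 x).hasDerivAt

lemma anti_deriv {f : ℝ → ℝ} (h : ∀ σ, f (σ + π) = -f σ) (σ : ℝ) :
    deriv f (σ + π) = -deriv f σ := by
  have e : (fun σ => f (σ + π)) = fun σ => -f σ := funext h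
  rw [← deriv_comp_add_const f π σ, e]
  simp

lemma per_deriv {f : ℝ → ℝ} (h : ∀ σ, f (σ + π) = f σ) (σ : ℝ) :
    deriv f (σ + π) = deriv f σ := by
  have e : (fun σ => f (σ + π)) = f := funext h
  rw [← deriv_comp_add_const f π σ, e]

lemma anti_per {f : ℝ → ℝ} (h : ∀ σ, f (σ + π) = -f σ) : Function.Periodic f (2 * π) := by
  intro σ
  have : σ + 2 * π = σ + π + π := by ring
  rw [this, h, h, neg_neg]

/-- The integral over a period of a derivative vanishes. -/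
lemma int_zero {F F' : ℝ → ℝ} (h : ∀ x, HasDerivAt F (F' x) x) (hc : Continuous F')
    (hp : ∀ σ, F (σ + π) = F σ) : ∫ x in (0 : ℝ)..2 * π, F' x = 0 := by
  rw [intervalIntegral.integral_eq_sub_of_hasDerivAt (fun x _ => h x) (hc.intervalIntegrable _ _)]
  have : 2 * π = 0 + π + π := by ring
  rw [this, hp, hp, sub_self]

/-- The common properties of `cos` and `sin`. -/
structure Trig (k k' : ℝ → ℝ) : Prop where
  d1 : ∀ x, HasDerivAt k (k' x) x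
  d2 : ∀ x, HasDerivAt k' (-k x) x
  b1 : ∀ x, |k x| ≤ 1
  b2 : ∀ x, |k' x| ≤ 1
  a1 : ∀ x, k (x + π) = -k x
  a2 : ∀ x, k' (x + π) = -k' x

lemma trig_cos : Trig cos (fun x => -sin x) where
  d1 := Real.hasDerivAt_cos
  d2 := fun x => (Real.hasDerivAt_sin x).neg
  b1 := Real.abs_cos_le_one
  b2 := fun x => by rw [abs_neg]; exact Real.abs_sin_le_one x
  a1 := Real.cos_add_pi
  a2 := fun x => by rw [Real.sin_add_pi]

lemma trig_sin : Trig sin cos where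
  d1 := Real.hasDerivAt_sin
  d2 := Real.hasDerivAt_cos
  b1 := Real.abs_sin_le_one
  b2 := Real.abs_cos_le_one
  a1 := Real.sin_add_pi
  a2 := Real.cos_add_pi

lemma Trig.c1 {k k' : ℝ → ℝ} (h : Trig k k') : Continuous k :=
  continuous_iff_continuousAt.2 fun x => (h.d1 x).continuousAt

lemma Trig.c2 {k k' : ℝ → ℝ} (h : Trig k k') : Continuous k' :=
  continuous_iff_continuousAt.2 fun x => (h.d2 x).continuousAt

/-- `n'' + n` has no first harmonic. -/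
lemma z_orth {n k k' : ℝ → ℝ} (hn : ContDiff ℝ ∞ n) (ha : ∀ σ, n (σ + π) = -n σ)
    (hk : Trig k k') : ∫ σ in (0 : ℝ)..2 * π, (deriv (deriv n) σ + n σ) * k σ = 0 := by
  have h1 := sm_deriv hn
  have h2 := sm_deriv h1
  have c0 := hn.continuous
  have c2 := h2.continuous
  have ck := hk.c1
  refine int_zero (F := fun σ => deriv n σ * k σ - n σ * k' σ) (fun x => ?_) (by fun_prop)
    (fun σ => ?_)
  · have := ((sm_has h1 x).mul (hk.d1 x)).sub ((sm_has hn x).mul (hk.d2 x))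
    refine this.congr_deriv ?_
    ring
  · simp only [anti_deriv ha, ha, hk.a1, hk.a2]
    ring

lemma abs_mul_le {a b η : ℝ} (ha : |a| ≤ η) (hb : |b| ≤ 1) : |a * b| ≤ η := by
  rw [abs_mul]
  calc |a| * |b| ≤ η * 1 := mul_le_mul ha hb (abs_nonneg _) ((abs_nonneg _).trans ha)
    _ = η := mul_one η

/-- The data at one time. -/
structure Slice (η : ℝ) (n μ c : ℝ → ℝ) : Prop where
  hn : ContDiff ℝ ∞ n
  hm : ContDiff ℝ ∞ μ
  hc : ContDiff ℝ ∞ c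
  an : ∀ σ, n (σ + π) = -n σ
  pm : ∀ σ, μ (σ + π) = μ σ
  pc : ∀ σ, c (σ + π) = c σ
  b0 : ∀ σ, |μ σ| ≤ η
  b1 : ∀ σ, |deriv μ σ| ≤ η
  b2 : ∀ σ, |deriv (deriv μ) σ| ≤ η
  b3 : ∀ σ, |c σ| ≤ η
  b4 : ∀ σ, |deriv c σ| ≤ η
  half : ∃ σ₀, ∀ σ ∈ Icc σ₀ (σ₀ + π), 0 ≤ n σ

/-- The right hand side of the equation. -/
noncomputable def rhs (n μ c : ℝ → ℝ) (σ : ℝ) : ℝ :=
  deriv (deriv n) σ + μ σ * deriv n σ + (1 + c σ) * n σ

/-- The time derivative of a first harmonic is small. -/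
lemma harm_le (hO : OneDStmt) {η : ℝ} {n μ c k k' : ℝ → ℝ} (h : Slice η n μ c) (hk : Trig k k') :
    |∫ σ in (0 : ℝ)..2 * π, rhs n μ c σ * k σ| ≤ 60 * η * √(c1sq n) := by
  obtain ⟨σ₀, hσ₀⟩ := h.half
  have h1 := sm_deriv h.hn
  have h2 := sm_deriv h1
  have m1 := sm_deriv h.hm
  have c0 := h.hn.continuous
  have c1 := h1.continuous
  have c2 := h2.continuous
  have cm := h.hm.continuous
  have cm1 := m1.continuous
  have cc := h.hc.continuous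
  have ck := hk.c1
  have ck' := hk.c2
  have hη : 0 ≤ η := (abs_nonneg _).trans (h.b0 0)
  set ψ : ℝ → ℝ := fun σ => c σ * k σ - deriv μ σ * k σ - μ σ * k' σ with hψ
  have cψ : Continuous ψ := by rw [hψ]; fun_prop
  have e0 : ∫ σ in (0 : ℝ)..2 * π, (rhs n μ c σ * k σ - n σ * ψ σ) = 0 := by
    refine int_zero (F := fun σ => deriv n σ * k σ - n σ * k' σ + μ σ * n σ * k σ) (fun x => ?_)
      (by unfold rhs; fun_prop) (fun σ => ?_)
    · have := (((sm_has h1 x).mul (hk.d1 x)).sub ((sm_has h.hn x).mul (hk.d2 x))).add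
        (((sm_has h.hm x).mul (sm_has h.hn x)).mul (hk.d1 x))
      refine this.congr_deriv ?_
      simp only [rhs, hψ, Pi.mul_apply]
      ring
    · simp only [anti_deriv h.an, h.an, hk.a1, hk.a2, h.pm]
      ring
  rw [intervalIntegral.integral_sub ((by unfold rhs; fun_prop : Continuous
    fun σ => rhs n μ c σ * k σ).intervalIntegrable _ _)
    ((by fun_prop : Continuous fun σ => n σ * ψ σ).intervalIntegrable _ _), sub_eq_zero] at e0
  rw [e0]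
  have hd : ∀ x, HasDerivAt ψ (deriv c x * k x + c x * k' x
      - (deriv (deriv μ) x * k x + deriv μ x * k' x) - (deriv μ x * k' x + μ x * -k x)) x :=
    fun x => (((sm_has h.hc x).mul (hk.d1 x)).sub ((sm_has m1 x).mul (hk.d1 x))).sub
      ((sm_has h.hm x).mul (hk.d2 x))
  have hb : ∀ x, |deriv c x * k x + c x * k' x
      - (deriv (deriv μ) x * k x + deriv μ x * k' x) - (deriv μ x * k' x + μ x * -k x)| ≤ 6 * η := by
    intro x
    have t1 := abs_le.1 (abs_mul_le (h.b4 x) (hk.b1 x))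
    have t2 := abs_le.1 (abs_mul_le (h.b3 x) (hk.b2 x))
    have t3 := abs_le.1 (abs_mul_le (h.b2 x) (hk.b1 x))
    have t4 := abs_le.1 (abs_mul_le (h.b1 x) (hk.b2 x))
    have t5 := abs_le.1 (abs_mul_le (h.b0 x) (hk.b1 x))
    rw [abs_le]
    constructor <;> nlinarith [t1.1, t1.2, t2.1, t2.2, t3.1, t3.2, t4.1, t4.2, t5.1, t5.2]
  have key := hO.2.1 n ψ σ₀ (6 * η) c0 cψ h.an (fun σ => ?_) hσ₀ (fun σ => ?_) (fun σ σ' => ?_)
  · linarith
  · simp only [hψ, per_deriv h.pm, h.pm, h.pc, hk.a1, hk.a2]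
    ring
  · have t1 := abs_le.1 (abs_mul_le (h.b3 σ) (hk.b1 σ))
    have t2 := abs_le.1 (abs_mul_le (h.b1 σ) (hk.b1 σ))
    have t3 := abs_le.1 (abs_mul_le (h.b0 σ) (hk.b2 σ))
    simp only [hψ]
    rw [abs_le]
    constructor <;> linarith [t1.1, t1.2, t2.1, t2.2, t3.1, t3.2]
  · have := convex_univ.norm_image_sub_le_of_norm_hasDerivWithin_le (C := 6 * η)
      (fun x _ => (hd x).hasDerivWithinAt) (fun x _ => by rw [Real.norm_eq_abs]; exact hb x)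
      (mem_univ σ') (mem_univ σ)
    simpa only [Real.norm_eq_abs] using this

/-- A crude Cauchy-Schwarz inequality. -/
lemma cs {z : ℝ → ℝ} (hz : Continuous z) :
    (∫ x in (0 : ℝ)..2 * π, |z x|) ^ 2 ≤ 8 * ∫ x in (0 : ℝ)..2 * π, z x ^ 2 := by
  set Z := ∫ x in (0 : ℝ)..2 * π, |z x| with hZ
  have h0 : 0 ≤ ∫ x in (0 : ℝ)..2 * π, (|z x| - Z / 8) ^ 2 :=
    intervalIntegral.integral_nonneg (by positivity) fun x _ => sq_nonneg _
  have e : ∀ x, (|z x| - Z / 8) ^ 2 = z x ^ 2 - Z / 4 * |z x| + (Z / 8) ^ 2 := by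
    intro x
    rw [← sq_abs (z x)]
    ring
  simp only [e] at h0
  rw [intervalIntegral.integral_add ((by fun_prop : Continuous
      fun x => z x ^ 2 - Z / 4 * |z x|).intervalIntegrable _ _) (continuous_const.intervalIntegrable _ _),
    intervalIntegral.integral_sub ((by fun_prop : Continuous fun x => z x ^ 2).intervalIntegrable _ _)
      ((by fun_prop : Continuous fun x => Z / 4 * |z x|).intervalIntegrable _ _),
    intervalIntegral.integral_const_mul, intervalIntegral.integral_const, ← hZ] at h0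
  simp only [sub_zero, smul_eq_mul] at h0
  nlinarith [Real.pi_le_four, sq_nonneg Z, mul_nonneg (sub_nonneg.2 Real.pi_le_four) (sq_nonneg Z)]

lemma zsq_nonneg (n : ℝ → ℝ) : 0 ≤ zsq n :=
  intervalIntegral.integral_nonneg (by positivity) fun _ _ => sq_nonneg _

lemma c1sq_nonneg (n : ℝ → ℝ) : 0 ≤ c1sq n := by unfold c1sq; positivity

/-- Sup bounds for `n` and `n'`. -/
lemma sup_le (hO : OneDStmt) {n : ℝ → ℝ} (hn : ContDiff ℝ ∞ n) (ha : ∀ σ, n (σ + π) = -n σ)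
    (σ : ℝ) : n σ ^ 2 ≤ 2 * c1sq n + 400 * zsq n ∧ deriv n σ ^ 2 ≤ 2 * c1sq n + 400 * zsq n := by
  have h1 := sm_deriv hn
  have h2 := sm_deriv h1
  have c0 := hn.continuous
  have c2 := h2.continuous
  obtain ⟨k1, k2⟩ := hO.2.2 ℝ n (deriv n) (deriv (deriv n)) (sm_has hn) (sm_has h1) c2 (anti_per ha)
    _ _ _ rfl rfl rfl σ
  have hcs := cs (z := fun σ => deriv (deriv n) σ + n σ) (by fun_prop)
  simp only [smul_eq_mul, Real.norm_eq_abs] at k1 k2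
  set Z := ∫ x in (0 : ℝ)..2 * π, |deriv (deriv n) x + n x| with hZ
  have eA : ∫ x in (0 : ℝ)..2 * π, cos x * n x = ∫ x in (0 : ℝ)..2 * π, n x * cos x := by
    simp only [mul_comm]
  have eB : ∫ x in (0 : ℝ)..2 * π, sin x * n x = ∫ x in (0 : ℝ)..2 * π, n x * sin x := by
    simp only [mul_comm]
  rw [eA, eB] at k1 k2
  unfold c1sq zsq
  set A := ∫ x in (0 : ℝ)..2 * π, n x * cos x
  set B := ∫ x in (0 : ℝ)..2 * π, n x * sin x
  set E := ∫ x in (0 : ℝ)..2 * π, (deriv (deriv n) x + n x) ^ 2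
  have hp : π⁻¹ ^ 2 ≤ 1 := by
    have : π⁻¹ ≤ 1 := inv_le_one_of_one_le₀ (by linarith [Real.two_le_pi])
    have h0 : 0 ≤ π⁻¹ := by positivity
    nlinarith
  have hab : (π⁻¹ * A) ^ 2 + (π⁻¹ * B) ^ 2 ≤ A ^ 2 + B ^ 2 := by
    nlinarith [mul_nonneg (sub_nonneg.2 hp) (sq_nonneg A), mul_nonneg (sub_nonneg.2 hp) (sq_nonneg B)]
  set a := π⁻¹ * A
  set b := π⁻¹ * B
  have hsc := Real.sin_sq_add_cos_sq σ
  have q1 : (cos σ * a + sin σ * b) ^ 2 ≤ a ^ 2 + b ^ 2 := by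
    nlinarith [sq_nonneg (sin σ * a - cos σ * b)]
  have q2 : (-sin σ * a + cos σ * b) ^ 2 ≤ a ^ 2 + b ^ 2 := by
    nlinarith [sq_nonneg (cos σ * a + sin σ * b)]
  have r1 := sq_le_sq' (abs_le.1 k1).1 (abs_le.1 k1).2
  have r2 := sq_le_sq' (abs_le.1 k2).1 (abs_le.1 k2).2
  constructor
  · nlinarith [sq_nonneg (n σ - 2 * (cos σ * a + sin σ * b))]
  · nlinarith [sq_nonneg (deriv n σ - 2 * (-sin σ * a + cos σ * b))]

end Energy
end Pool.Agent.MP_2291e2_gt.Zl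

end MrgPart1

-- ======== part 2: formerly Pool.Agent.MP_2291e2_gt.zl.Energy
section MrgPart2

/-! The energy inequality: the higher harmonics decay relative to the first harmonic. -/

open scoped ContDiff RealInnerProductSpace Topology
open Set Filter Real

namespace Pool.Agent.MP_2291e2_gt.Zl
namespace Energy

lemma sm_rhs {η : ℝ} {n μ c : ℝ → ℝ} (h : Slice η n μ c) : ContDiff ℝ ∞ (rhs n μ c) := by
  have h1 := sm_deriv h.hn
  have h2 := sm_deriv h1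
  exact (h2.add (h.hm.mul h1)).add ((contDiff_const.add h.hc).mul h.hn)

lemma anti_rhs {η : ℝ} {n μ c : ℝ → ℝ} (h : Slice η n μ c) (σ : ℝ) :
    rhs n μ c (σ + π) = -rhs n μ c σ := by
  simp only [rhs, anti_deriv (anti_deriv h.an), anti_deriv h.an, h.an, h.pm, h.pc]
  ring

lemma sq_le_of_abs {a η : ℝ} (h : |a| ≤ η) : a ^ 2 ≤ η ^ 2 :=
  sq_le_sq' (abs_le.1 h).1 (abs_le.1 h).2

/-- The pointwise inequality behind the energy estimate. -/
lemma pointwise {η S n0 n1 z z1 m0 m1 c0 c1 : ℝ} (hm0 : |m0| ≤ η) (hm1 : |m1| ≤ η) (hc0 : |c0| ≤ η)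
    (hc1 : |c1| ≤ η) (h0 : n0 ^ 2 ≤ S) (h1 : n1 ^ 2 ≤ S) :
    -2 * z1 * (z1 + ((m1 + c0) * n1 + (c1 - m0) * n0 + m0 * z)) + 2 * z * (z + (m0 * n1 + c0 * n0))
      ≤ -(3 / 2) * z1 ^ 2 + (3 + 6 * η ^ 2) * z ^ 2 + 52 * η ^ 2 * S := by
  have hS : 0 ≤ S := (sq_nonneg _).trans h0
  have hη : 0 ≤ η ^ 2 := sq_nonneg _
  have a1 : (m1 + c0) ^ 2 ≤ (2 * η) ^ 2 :=
    sq_le_of_abs ((abs_add_le _ _).trans (by linarith))
  have a2 : (c1 - m0) ^ 2 ≤ (2 * η) ^ 2 :=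
    sq_le_of_abs ((abs_sub _ _).trans (by linarith))
  have a3 := sq_le_of_abs hm0
  have a4 := sq_le_of_abs hc0
  have p1 : ((m1 + c0) * n1) ^ 2 ≤ 4 * η ^ 2 * S := by
    rw [mul_pow]
    exact (mul_le_mul a1 h1 (sq_nonneg _) (sq_nonneg _)).trans (le_of_eq (by ring))
  have p2 : ((c1 - m0) * n0) ^ 2 ≤ 4 * η ^ 2 * S := by
    rw [mul_pow]
    exact (mul_le_mul a2 h0 (sq_nonneg _) (sq_nonneg _)).trans (le_of_eq (by ring))
  have p3 : (m0 * z) ^ 2 ≤ η ^ 2 * z ^ 2 := by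
    rw [mul_pow]
    exact mul_le_mul_of_nonneg_right a3 (sq_nonneg _)
  have p4 : (m0 * n1) ^ 2 ≤ η ^ 2 * S := by
    rw [mul_pow]
    exact mul_le_mul a3 h1 (sq_nonneg _) hη
  have p5 : (c0 * n0) ^ 2 ≤ η ^ 2 * S := by
    rw [mul_pow]
    exact mul_le_mul a4 h0 (sq_nonneg _) hη
  generalize (m1 + c0) * n1 = x1 at *
  generalize (c1 - m0) * n0 = x2 at *
  generalize m0 * z = x3 at *
  generalize m0 * n1 = x4 at *
  generalize c0 * n0 = x5 at *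
  have q1 : (x1 + x2 + x3) ^ 2 ≤ 3 * (x1 ^ 2 + x2 ^ 2 + x3 ^ 2) := by
    nlinarith [sq_nonneg (x1 - x2), sq_nonneg (x1 - x3), sq_nonneg (x2 - x3)]
  have q2 : (x4 + x5) ^ 2 ≤ 2 * (x4 ^ 2 + x5 ^ 2) := by nlinarith [sq_nonneg (x4 - x5)]
  have q3 : -2 * z1 * (x1 + x2 + x3) ≤ z1 ^ 2 / 2 + 2 * (x1 + x2 + x3) ^ 2 := by
    nlinarith [sq_nonneg (z1 + 2 * (x1 + x2 + x3))]
  have q4 : 2 * z * (x4 + x5) ≤ z ^ 2 + (x4 + x5) ^ 2 := by
    nlinarith [sq_nonneg (z - (x4 + x5))]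
  nlinarith

/-- The time derivative of the energy. -/
lemma energy_le (hO : OneDStmt) {η : ℝ} {n μ c : ℝ → ℝ} (h : Slice η n μ c)
    (hη : η ^ 2 ≤ 1 / 250000) :
    ∫ σ in (0 : ℝ)..2 * π, 2 * (deriv (deriv n) σ + n σ)
        * (deriv (deriv (rhs n μ c)) σ + rhs n μ c σ)
      ≤ -2 * zsq n + 1000 * η ^ 2 * c1sq n := by
  have h1 := sm_deriv h.hn
  have h2 := sm_deriv h1
  have hw := sm_rhs h
  have hw1 := sm_deriv hw
  have hw2 := sm_deriv hw1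
  set z : ℝ → ℝ := fun σ => deriv (deriv n) σ + n σ with hz
  have sz : ContDiff ℝ ∞ z := h2.add h.hn
  have sz1 := sm_deriv sz
  have az : ∀ σ, z (σ + π) = -z σ := by
    intro σ
    simp only [hz, anti_deriv (anti_deriv h.an), h.an]
    ring
  have cz := sz.continuous
  have cz1 := sz1.continuous
  have cw := hw.continuous
  have cw1 := hw1.continuous
  have cw2 := hw2.continuous
  have e0 : ∫ σ in (0 : ℝ)..2 * π, (2 * z σ * (deriv (deriv (rhs n μ c)) σ + rhs n μ c σ)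
      - (-2 * deriv z σ * deriv (rhs n μ c) σ + 2 * z σ * rhs n μ c σ)) = 0 := by
    refine int_zero (F := fun σ => 2 * (z σ * deriv (rhs n μ c) σ)) (fun x => ?_)
      (by fun_prop) (fun σ => ?_)
    · have := ((sm_has sz x).mul (sm_has hw1 x)).const_mul 2
      refine this.congr_deriv ?_
      ring
    · simp only [az, anti_deriv (anti_rhs h)]
      ring
  rw [intervalIntegral.integral_sub ((by fun_prop : Continuous fun σ =>
      2 * z σ * (deriv (deriv (rhs n μ c)) σ + rhs n μ c σ)).intervalIntegrable _ _)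
    ((by fun_prop : Continuous fun σ =>
      -2 * deriv z σ * deriv (rhs n μ c) σ + 2 * z σ * rhs n μ c σ).intervalIntegrable _ _),
    sub_eq_zero] at e0
  change ∫ σ in (0 : ℝ)..2 * π, 2 * z σ * (deriv (deriv (rhs n μ c)) σ + rhs n μ c σ) ≤ _
  rw [e0]
  set S := 2 * c1sq n + 400 * zsq n with hS
  have hpt : ∀ σ, -2 * deriv z σ * deriv (rhs n μ c) σ + 2 * z σ * rhs n μ c σ
      ≤ -(3 / 2) * deriv z σ ^ 2 + (3 + 6 * η ^ 2) * z σ ^ 2 + 52 * η ^ 2 * S := by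
    intro σ
    obtain ⟨s0, s1⟩ := sup_le hO h.hn h.an σ
    have e1 : rhs n μ c σ = z σ + (μ σ * deriv n σ + c σ * n σ) := by
      simp only [rhs, hz]
      ring
    have e2 : deriv (rhs n μ c) σ = deriv z σ + ((deriv μ σ + c σ) * deriv n σ
        + (deriv c σ - μ σ) * n σ + μ σ * z σ) := by
      have ef : rhs n μ c = fun σ => z σ + (μ σ * deriv n σ + c σ * n σ) := by
        funext σ
        simp only [rhs, hz]
        ring
      have hd : HasDerivAt (fun σ => z σ + (μ σ * deriv n σ + c σ * n σ)) (deriv z σ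
          + ((deriv μ σ * deriv n σ + μ σ * deriv (deriv n) σ)
            + (deriv c σ * n σ + c σ * deriv n σ))) σ :=
        (sm_has sz σ).add (((sm_has h.hm σ).mul (sm_has h1 σ)).add
          ((sm_has h.hc σ).mul (sm_has h.hn σ)))
      rw [ef, hd.deriv]
      simp only [hz]
      ring
    rw [e1, e2]
    exact pointwise (h.b0 σ) (h.b1 σ) (h.b3 σ) (h.b4 σ) s0 s1
  have hi := intervalIntegral.integral_mono_on (a := 0) (b := 2 * π) (μ := MeasureTheory.volume)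
    (by positivity)
    ((by fun_prop : Continuous fun σ =>
      -2 * deriv z σ * deriv (rhs n μ c) σ + 2 * z σ * rhs n μ c σ).intervalIntegrable _ _)
    ((by fun_prop : Continuous fun σ => -(3 / 2) * deriv z σ ^ 2 + (3 + 6 * η ^ 2) * z σ ^ 2
      + 52 * η ^ 2 * S).intervalIntegrable _ _) (fun σ _ => hpt σ)
  refine hi.trans ?_
  rw [intervalIntegral.integral_add ((by fun_prop : Continuous fun σ =>
      -(3 / 2) * deriv z σ ^ 2 + (3 + 6 * η ^ 2) * z σ ^ 2).intervalIntegrable _ _)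
      (continuous_const.intervalIntegrable _ _),
    intervalIntegral.integral_add ((by fun_prop : Continuous fun σ =>
      -(3 / 2) * deriv z σ ^ 2).intervalIntegrable _ _)
      ((by fun_prop : Continuous fun σ => (3 + 6 * η ^ 2) * z σ ^ 2).intervalIntegrable _ _),
    intervalIntegral.integral_const_mul, intervalIntegral.integral_const_mul,
    intervalIntegral.integral_const]
  have hW := hO.1 z (sz.of_le (by exact_mod_cast le_top)) az (z_orth h.hn h.an trig_cos)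
    (z_orth h.hn h.an trig_sin)
  have eE : ∫ σ in (0 : ℝ)..2 * π, z σ ^ 2 = zsq n := rfl
  rw [eE] at hW ⊢
  simp only [sub_zero, smul_eq_mul]
  have hE := zsq_nonneg n
  have hc := c1sq_nonneg n
  have hη0 : 0 ≤ η ^ 2 := sq_nonneg _
  have hS0 : 0 ≤ S := by positivity
  have t1 : 2 * π * (52 * η ^ 2 * S) ≤ 8 * (52 * η ^ 2 * S) :=
    mul_le_mul_of_nonneg_right (by linarith [Real.pi_le_four]) (by positivity)
  have t2 : η ^ 2 * zsq n ≤ 1 / 250000 * zsq n := mul_le_mul_of_nonneg_right hη hE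
  have t3 : 0 ≤ η ^ 2 * c1sq n := by positivity
  rw [hS] at t1 ⊢
  nlinarith

/-! ### Functions of time and space -/

/-- Jointly smooth for positive time. -/
def Sm2 (f : ℝ → ℝ → ℝ) : Prop :=
  ContDiffOn ℝ ∞ (fun q : ℝ × ℝ => f q.1 q.2) (Ioi 0 ×ˢ univ)

lemma isOpen_dom : IsOpen (Ioi (0 : ℝ) ×ˢ (univ : Set ℝ)) := isOpen_Ioi.prod isOpen_univ

lemma Sm2.at {f : ℝ → ℝ → ℝ} (h : Sm2 f) {τ : ℝ} (hτ : 0 < τ) (σ : ℝ) :
    ContDiffAt ℝ ∞ (fun q : ℝ × ℝ => f q.1 q.2) (τ, σ) :=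
  h.contDiffAt (isOpen_dom.mem_nhds ⟨hτ, mem_univ _⟩)

lemma Sm2.slice {f : ℝ → ℝ → ℝ} (h : Sm2 f) {τ : ℝ} (hτ : 0 < τ) : ContDiff ℝ ∞ (f τ) :=
  contDiff_iff_contDiffAt.2 fun σ =>
    (h.at hτ σ).comp σ (f := fun σ : ℝ => (τ, σ)) (contDiffAt_const.prodMk contDiffAt_id)

lemma Sm2.deriv {f : ℝ → ℝ → ℝ} (h : Sm2 f) : Sm2 fun τ => deriv (f τ) := by
  have h1 : ContDiffOn ℝ ∞ (fun q : ℝ × ℝ => fderiv ℝ (fun q : ℝ × ℝ => f q.1 q.2) q (0, 1))
      (Ioi 0 ×ˢ univ) :=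
    (h.fderiv_of_isOpen (m := ∞) isOpen_dom (by simp)).clm_apply contDiffOn_const
  refine h1.congr ?_
  rintro ⟨τ, σ⟩ hq
  have hd := ((h.at hq.1 σ).differentiableAt (by simp)).hasFDerivAt
  have hc : HasDerivAt (fun σ : ℝ => (τ, σ)) ((0 : ℝ), (1 : ℝ)) σ :=
    (hasDerivAt_const σ τ).prodMk (hasDerivAt_id σ)
  exact (hd.comp_hasDerivAt σ hc).deriv

lemma Sm2.comm {f : ℝ → ℝ → ℝ} (h : Sm2 f) {τ : ℝ} (hτ : 0 < τ) {g : ℝ → ℝ}
    (hg : ∀ σ, HasDerivAt (fun t => f t σ) (g σ) τ) (σ : ℝ) :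
    HasDerivAt (fun t => _root_.deriv (f t) σ) (_root_.deriv g σ) τ := by
  have := hasDerivAt_fderiv_time (h.at hτ σ) (1 : ℝ)
  have e : (fun y => _root_.deriv (fun t => f t y) τ) = g := funext fun y => (hg y).deriv
  rw [e] at this
  exact this

lemma Sm2.integral (hP : PIntStmt) {f : ℝ → ℝ → ℝ} (h : Sm2 f) {τ : ℝ} (hτ : 0 < τ) :
    DifferentiableAt ℝ (fun t => ∫ σ in (0 : ℝ)..2 * π, f t σ) τ ∧
    ∀ g : ℝ → ℝ, (∀ σ, HasDerivAt (fun t => f t σ) (g σ) τ) →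
      HasDerivAt (fun t => ∫ σ in (0 : ℝ)..2 * π, f t σ) (∫ σ in (0 : ℝ)..2 * π, g σ) τ := by
  obtain ⟨k1, k2⟩ := (hP ℝ ℝ _ _ isOpen_dom h).1 0 (2 * π) τ fun s _ => ⟨hτ, mem_univ _⟩
  have hd : DifferentiableAt ℝ (fun t => ∫ σ in (0 : ℝ)..2 * π, f t σ) τ :=
    k1.differentiableAt (by simp)
  refine ⟨hd, fun g hg => hd.hasDerivAt.congr_deriv ?_⟩
  refine (k2 1).trans (intervalIntegral.integral_congr fun σ _ => ?_)
  have hf := ((h.at hτ σ).differentiableAt (by simp)).hasFDerivAt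
  have hc : HasDerivAt (fun t : ℝ => (t, σ)) ((1 : ℝ), (0 : ℝ)) τ :=
    (hasDerivAt_id τ).prodMk (hasDerivAt_const τ σ)
  have he := hf.comp_hasDerivAt τ hc
  exact he.unique (hg σ)

lemma hasDerivAt_zsq (hP : PIntStmt) {n : ℝ → ℝ → ℝ} (h : Sm2 n) {τ : ℝ} (hτ : 0 < τ) {w : ℝ → ℝ}
    (hw : ∀ σ, HasDerivAt (fun t => n t σ) (w σ) τ) :
    HasDerivAt (fun t => zsq (n t)) (∫ σ in (0 : ℝ)..2 * π,
      2 * (deriv (deriv (n τ)) σ + n τ σ) * (deriv (deriv w) σ + w σ)) τ := by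
  have hs : Sm2 fun t σ => (deriv (deriv (n t)) σ + n t σ) ^ 2 :=
    ContDiffOn.pow (ContDiffOn.add h.deriv.deriv h) 2
  refine (hs.integral hP hτ).2 _ fun σ => ?_
  have := ((h.deriv.comm hτ (h.comm hτ hw) σ).add (hw σ)).pow 2
  refine this.congr_deriv ?_
  simp

lemma hasDerivAt_harm (hP : PIntStmt) {n : ℝ → ℝ → ℝ} (h : Sm2 n) {τ : ℝ} (hτ : 0 < τ)
    {w : ℝ → ℝ} (hw : ∀ σ, HasDerivAt (fun t => n t σ) (w σ) τ) {k : ℝ → ℝ}
    (hk : ContDiff ℝ ∞ k) :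
    HasDerivAt (fun t => ∫ σ in (0 : ℝ)..2 * π, n t σ * k σ)
      (∫ σ in (0 : ℝ)..2 * π, w σ * k σ) τ := by
  have hs : Sm2 fun t σ => n t σ * k σ :=
    ContDiffOn.mul h (hk.comp contDiff_snd).contDiffOn
  exact (hs.integral hP hτ).2 _ fun σ => (hw σ).mul_const (k σ)

/-- The differential inequality for the quotient. -/
lemma quot_le {E E' A A' B B' η : ℝ} (hη' : η ≤ 1 / 500) (hE : 0 ≤ E)
    (hc : 0 < A ^ 2 + B ^ 2) (h1 : E' ≤ -2 * E + 1000 * η ^ 2 * (A ^ 2 + B ^ 2))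
    (hA : |A'| ≤ 60 * η * √(A ^ 2 + B ^ 2)) (hB : |B'| ≤ 60 * η * √(A ^ 2 + B ^ 2)) :
    (E' * (A ^ 2 + B ^ 2) - E * (2 * A * A' + 2 * B * B')) / (A ^ 2 + B ^ 2) ^ 2
      + (E / (A ^ 2 + B ^ 2) - 1000 * η ^ 2) ≤ 0 := by
  set c := A ^ 2 + B ^ 2 with hcd
  have hs : √c * √c = c := Real.mul_self_sqrt hc.le
  have hs0 : 0 ≤ √c := Real.sqrt_nonneg c
  have a1 : |A| ≤ √c := Real.abs_le_sqrt (by rw [hcd]; nlinarith [sq_nonneg B])
  have a2 : |B| ≤ √c := Real.abs_le_sqrt (by rw [hcd]; nlinarith [sq_nonneg A])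
  have b1 : |A * A'| ≤ 60 * η * c := by
    rw [abs_mul]
    calc |A| * |A'| ≤ √c * (60 * η * √c) := mul_le_mul a1 hA (abs_nonneg _) hs0
      _ = 60 * η * (√c * √c) := by ring
      _ = _ := by rw [hs]
  have b2 : |B * B'| ≤ 60 * η * c := by
    rw [abs_mul]
    calc |B| * |B'| ≤ √c * (60 * η * √c) := mul_le_mul a2 hB (abs_nonneg _) hs0
      _ = 60 * η * (√c * √c) := by ring
      _ = _ := by rw [hs]
  have b3 : -c ≤ 2 * A * A' + 2 * B * B' := by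
    have t : η * c ≤ 1 / 500 * c := mul_le_mul_of_nonneg_right hη' hc.le
    nlinarith [(abs_le.1 b1).1, (abs_le.1 b2).1]
  have e : (E' * c - E * (2 * A * A' + 2 * B * B')) / c ^ 2 + (E / c - 1000 * η ^ 2)
      = (E' * c - E * (2 * A * A' + 2 * B * B') + E * c - 1000 * η ^ 2 * c ^ 2) / c ^ 2 := by
    field_simp
    ring
  rw [e]
  refine div_nonpos_of_nonpos_of_nonneg ?_ (sq_nonneg _)
  have t1 := mul_le_mul_of_nonneg_right h1 hc.le
  have t2 := mul_le_mul_of_nonneg_left b3 hE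
  nlinarith

end Energy

open Energy in
theorem energy_of (hP : PIntStmt) (hO : OneDStmt) : EnergyStmt := by
  refine ⟨1000, 1 / 500, by norm_num, by norm_num, ?_⟩
  intro η τ₀ Y₀ n μ c hη hη' hτ₀ hY hn hμ hc hpde hhalf hinit
  have hn' : Sm2 n := hn
  have hμ' : Sm2 μ := hμ
  have hc' : Sm2 c := hc
  have hsl : ∀ τ ≥ τ₀, Slice η (n τ) (μ τ) (c τ) := fun τ hτ =>
    { hn := hn'.slice (hτ₀.trans_le hτ)
      hm := hμ'.slice (hτ₀.trans_le hτ)
      hc := hc'.slice (hτ₀.trans_le hτ)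
      an := fun σ => (hpde τ hτ σ).1
      pm := fun σ => (hpde τ hτ σ).2.1
      pc := fun σ => (hpde τ hτ σ).2.2.1
      b0 := fun σ => (hpde τ hτ σ).2.2.2.2.1
      b1 := fun σ => (hpde τ hτ σ).2.2.2.2.2.1
      b2 := fun σ => (hpde τ hτ σ).2.2.2.2.2.2.1
      b3 := fun σ => (hpde τ hτ σ).2.2.2.2.2.2.2.1
      b4 := fun σ => (hpde τ hτ σ).2.2.2.2.2.2.2.2
      half := (hhalf τ hτ).2 }
  have hη2 : η ^ 2 ≤ 1 / 250000 := by nlinarith
  have hF : ∀ τ ≥ τ₀, ∃ D ≤ 0,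
      HasDerivAt (fun t => exp t * (zsq (n t) / c1sq (n t) - 1000 * η ^ 2)) D τ := by
    intro τ hτ
    have hτp : 0 < τ := hτ₀.trans_le hτ
    have hw : ∀ σ, HasDerivAt (fun t => n t σ) (rhs (n τ) (μ τ) (c τ) σ) τ :=
      fun σ => (hpde τ hτ σ).2.2.2.1
    have d1 := hasDerivAt_zsq hP hn' hτp hw
    have d2 := hasDerivAt_harm hP hn' hτp hw Real.contDiff_cos
    have d3 := hasDerivAt_harm hP hn' hτp hw Real.contDiff_sin
    have k1 := energy_le hO (hsl τ hτ) hη2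
    have k2 := harm_le hO (hsl τ hτ) trig_cos
    have k3 := harm_le hO (hsl τ hτ) trig_sin
    have hcp := (hhalf τ hτ).1
    have q := quot_le hη' (zsq_nonneg (n τ)) hcp k1 k2 k3
    have d4 : HasDerivAt (fun t => c1sq (n t))
        (2 * (∫ σ in (0 : ℝ)..2 * π, n τ σ * cos σ)
            * (∫ σ in (0 : ℝ)..2 * π, rhs (n τ) (μ τ) (c τ) σ * cos σ)
          + 2 * (∫ σ in (0 : ℝ)..2 * π, n τ σ * sin σ)
            * (∫ σ in (0 : ℝ)..2 * π, rhs (n τ) (μ τ) (c τ) σ * sin σ)) τ := by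
      refine ((d2.pow 2).add (d3.pow 2)).congr_deriv ?_
      simp
    have d5 := (Real.hasDerivAt_exp τ).mul ((d1.div d4 hcp.ne').sub_const (1000 * η ^ 2))
    refine ⟨_, ?_, d5⟩
    rw [← mul_add]
    refine mul_nonpos_of_nonneg_of_nonpos (Real.exp_pos τ).le ?_
    rw [add_comm]
    exact q
  choose! D hD0 hD using hF
  have hanti : AntitoneOn (fun t => exp t * (zsq (n t) / c1sq (n t) - 1000 * η ^ 2)) (Ici τ₀) := by
    refine antitoneOn_of_deriv_nonpos (convex_Ici τ₀)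
      (fun t ht => (hD t ht).continuousAt.continuousWithinAt)
      (fun t ht => (hD t (interior_subset ht)).differentiableAt.differentiableWithinAt)
      (fun t ht => ?_)
    rw [(hD t (interior_subset ht)).deriv]
    exact hD0 t (interior_subset ht)
  intro τ hτ
  have h1 : exp τ * (zsq (n τ) / c1sq (n τ) - 1000 * η ^ 2)
      ≤ exp τ₀ * (zsq (n τ₀) / c1sq (n τ₀) - 1000 * η ^ 2) := hanti (mem_Ici.2 le_rfl) hτ hτ
  have h2 : zsq (n τ₀) / c1sq (n τ₀) ≤ Y₀ := (div_le_iff₀ (hhalf τ₀ le_rfl).1).2 hinit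
  have h3 : exp τ₀ * (zsq (n τ₀) / c1sq (n τ₀) - 1000 * η ^ 2) ≤ exp τ₀ * Y₀ :=
    mul_le_mul_of_nonneg_left (by nlinarith [sq_nonneg η]) (Real.exp_pos _).le
  have h4 : exp τ₀ * Y₀ = exp τ * (exp (-(τ - τ₀)) * Y₀) := by
    rw [← mul_assoc, ← Real.exp_add]
    congr 2
    ring
  have h5 := le_of_mul_le_mul_left ((h1.trans h3).trans h4.le) (Real.exp_pos τ)
  rw [← div_le_iff₀ (hhalf τ hτ).1]
  linarith

end Pool.Agent.MP_2291e2_gt.Zl

end MrgPart2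

-- ======== part 3: formerly Pool.Agent.MP_2291e2_gt.zl.Folia
section MrgPart3

/-! The level sets of a submersion of the strip are arcs from the bottom to the top. -/

open scoped ContDiff RealInnerProductSpace Topology
open Set Filter Real

namespace Pool.Agent.MP_2291e2_gt.Zl

namespace FOLIA

/-- The Hamiltonian vector field of `θ`. -/
noncomputable def Y (θ : ℝ × ℝ → ℝ) (z : ℝ × ℝ) : ℝ × ℝ :=
  (-fderiv ℝ θ z (0, 1), fderiv ℝ θ z (1, 0))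

lemma clm_pair (L : ℝ × ℝ →L[ℝ] ℝ) (a b : ℝ) : L (a, b) = a * L (1, 0) + b * L (0, 1) := by
  have : ((a, b) : ℝ × ℝ) = a • ((1, 0) : ℝ × ℝ) + b • ((0, 1) : ℝ × ℝ) := by simp
  rw [this, map_add, map_smul, map_smul, smul_eq_mul, smul_eq_mul]

lemma jdet_eq (θ g : ℝ × ℝ → ℝ) (z : ℝ × ℝ) : jdet θ g z = fderiv ℝ g z (Y θ z) := by
  rw [Y, clm_pair, jdet]
  ring

lemma fderiv_Y (θ : ℝ × ℝ → ℝ) (z : ℝ × ℝ) : fderiv ℝ θ z (Y θ z) = 0 := by
  rw [Y, clm_pair]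
  ring

lemma contDiff_Y {θ : ℝ × ℝ → ℝ} (h : ContDiff ℝ ∞ θ) : ContDiff ℝ ∞ (Y θ) := by
  have h1 : ContDiff ℝ ∞ (fderiv ℝ θ) := h.fderiv_right (m := ∞) (by simp)
  exact (h1.clm_apply contDiff_const).neg.prodMk (h1.clm_apply contDiff_const)

lemma fderiv_shift {G : Type*} [NormedAddCommGroup G] [NormedSpace ℝ G] {f : ℝ × ℝ → G}
    {e : ℝ × ℝ} {c : G} (h : ∀ z, f (z + e) = f z + c) (z : ℝ × ℝ) :
    fderiv ℝ f (z + e) = fderiv ℝ f z := by
  rw [← fderiv_comp_add_right]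
  simp only [h]
  exact fderiv_add_const c

lemma Y_shift {θ : ℝ × ℝ → ℝ} {e : ℝ × ℝ} {c : ℝ} (h : ∀ z, θ (z + e) = θ z + c) (z : ℝ × ℝ) :
    Y θ (z + e) = Y θ z := by
  simp only [Y, fderiv_shift h]

/-- A continuous function that is periodic in the first variable is bounded on strips. -/
lemma bdd_per {G : Type*} [NormedAddCommGroup G] {f : ℝ × ℝ → G} {T : ℝ} (hT : 0 < T)
    (hf : Continuous f) (h : ∀ x β, f (x + T, β) = f (x, β)) (L : ℝ) :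
    ∃ C, ∀ x, ∀ β ∈ Icc 0 L, ‖f (x, β)‖ ≤ C := by
  obtain ⟨C, hC⟩ := ((isCompact_Icc (a := 0) (b := T)).prod
    (isCompact_Icc (a := 0) (b := L))).exists_bound_of_continuousOn hf.continuousOn
  refine ⟨C, fun x β hβ => ?_⟩
  have hp : Function.Periodic (fun x => f (x, β)) T := fun x => h x β
  obtain ⟨y, hy, e⟩ := hp.exists_mem_Ico₀ hT x
  rw [e]
  exact hC (y, β) ⟨Ico_subset_Icc_self hy, hβ⟩

lemma lip_Y {θ : ℝ × ℝ → ℝ} {T : ℝ} (hT : 0 < T) (hθ : ContDiff ℝ ∞ θ)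
    (h1 : ∀ z, θ (z + (T, 0)) = θ z + 2 * π) (h2 : ∀ z, θ (z + (0, 2 * π)) = θ z + 0) :
    ∃ K, LipschitzWith K (Y θ) := by
  have hY := contDiff_Y hθ
  have hc : Continuous (fderiv ℝ (Y θ)) := hY.continuous_fderiv (by simp)
  have p1 : ∀ x β, fderiv ℝ (Y θ) (x + T, β) = fderiv ℝ (Y θ) (x, β) := by
    intro x β
    have := fderiv_shift (f := Y θ) (e := (T, 0)) (c := 0)
      (fun z => by rw [Y_shift h1, add_zero]) (x, β)
    simpa using this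
  have p2 : ∀ x β, fderiv ℝ (Y θ) (x, β + 2 * π) = fderiv ℝ (Y θ) (x, β) := by
    intro x β
    have := fderiv_shift (f := Y θ) (e := (0, 2 * π)) (c := 0)
      (fun z => by rw [Y_shift h2, add_zero]) (x, β)
    simpa using this
  obtain ⟨C, hC⟩ := bdd_per hT hc p1 (2 * π)
  refine ⟨C.toNNReal, lipschitzWith_of_nnnorm_fderiv_le (𝕜 := ℝ)
    (hY.differentiable (by simp)) fun z => ?_⟩
  obtain ⟨x, β⟩ := z
  have hp : Function.Periodic (fun β => fderiv ℝ (Y θ) (x, β)) (2 * π) := fun β => p2 x β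
  obtain ⟨y, hy, e⟩ := hp.exists_mem_Ico₀ (by positivity) β
  rw [e, ← NNReal.coe_le_coe, coe_nnnorm]
  exact (hC x y (Ico_subset_Icc_self hy)).trans (Real.le_coe_toNNReal C)

/-- A level that is only crossed upward. -/
lemma up {h h' : ℝ → ℝ} {c : ℝ} (hd : ∀ t, HasDerivAt h (h' t) t)
    (hp : ∀ t, h t = c → 0 < h' t) {a x : ℝ} (ha : c ≤ h a) (hx : a < x) : c < h x := by
  have key : ∀ y ∈ Icc a x, c ≤ h y := by
    intro y hy
    exact image_le_of_deriv_right_lt_deriv_boundary (f := fun _ => c) (f' := fun _ => 0)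
      (a := a) (b := x) continuousOn_const (fun t _ => hasDerivWithinAt_const _ _ _) ha hd
      (fun t _ e => hp t e.symm) hy
  refine lt_of_le_of_ne (key x ⟨hx.le, le_rfl⟩) fun e => ?_
  have h0 := hp x e.symm
  have hs := (hasDerivAt_iff_tendsto_slope.1 (hd x)).eventually (lt_mem_nhds h0)
  have hs' : ∀ᶠ y in 𝓝[<] x, 0 < slope h x y :=
    hs.filter_mono (nhdsWithin_mono _ fun y hy => ne_of_lt hy)
  obtain ⟨y, hy1, hy2⟩ := (hs'.and (Ioo_mem_nhdsLT hx)).exists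
  rw [slope_def_field] at hy1
  have h3 := key y ⟨hy2.1.le, hy2.2.le⟩
  have h4 : (h y - h x) / (y - x) ≤ 0 :=
    div_nonpos_of_nonneg_of_nonpos (by linarith) (by linarith [hy2.2])
  linarith

lemma fderiv_partial {X : Type*} [NormedAddCommGroup X] [NormedSpace ℝ X] {f : X × ℝ → ℝ}
    {x : X} {t d : ℝ} (hf : DifferentiableAt ℝ f (x, t))
    (h : HasDerivAt (fun s => f (x, s)) d t) : fderiv ℝ f (x, t) (0, 1) = d := by
  have h1 : HasDerivAt (fun s : ℝ => ((x, s) : X × ℝ)) (0, 1) t :=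
    (hasDerivAt_const t x).prodMk (hasDerivAt_id t)
  exact (hf.hasFDerivAt.comp_hasDerivAt t h1).unique h

/-- The flow of `Y θ`. -/
structure Fl (θ : ℝ × ℝ → ℝ) (φ : ℝ → ℝ × ℝ → ℝ × ℝ) : Prop where
  sθ : ContDiff ℝ ∞ θ
  sm : ContDiff ℝ ∞ (fun q : ℝ × (ℝ × ℝ) => φ q.1 q.2)
  zero : ∀ x, φ 0 x = x
  add : ∀ s t x, φ (s + t) x = φ s (φ t x)
  der : ∀ x t, HasDerivAt (fun t => φ t x) (Y θ (φ t x)) t

variable {θ : ℝ × ℝ → ℝ} {φ : ℝ → ℝ × ℝ → ℝ × ℝ}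

lemma Fl.sm' (h : Fl θ φ) : ContDiff ℝ ∞ (fun q : (ℝ × ℝ) × ℝ => φ q.2 q.1) :=
  h.sm.comp (contDiff_snd.prodMk contDiff_fst)

lemma Fl.neg (h : Fl θ φ) (t : ℝ) (z : ℝ × ℝ) : φ (-t) (φ t z) = z := by
  rw [← h.add, neg_add_cancel, h.zero]

lemma Fl.comp (h : Fl θ φ) {g : ℝ × ℝ → ℝ} (z : ℝ × ℝ) (t : ℝ)
    (hg : DifferentiableAt ℝ g (φ t z)) :
    HasDerivAt (fun t => g (φ t z)) (jdet θ g (φ t z)) t := by
  rw [jdet_eq]
  exact hg.hasFDerivAt.comp_hasDerivAt t (h.der z t)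

lemma Fl.inv (h : Fl θ φ) (t : ℝ) (z : ℝ × ℝ) : θ (φ t z) = θ z := by
  have hd : ∀ t, HasDerivAt (fun t => θ (φ t z)) 0 t := by
    intro t
    have := h.comp z t (g := θ) (h.sθ.differentiable (by simp) _)
    rwa [jdet_eq, fderiv_Y] at this
  have := is_const_of_deriv_eq_zero (fun t => (hd t).differentiableAt) (fun t => (hd t).deriv) t 0
  rwa [h.zero] at this

lemma Fl.der2 (h : Fl θ φ) (z : ℝ × ℝ) (t : ℝ) :
    HasDerivAt (fun t => (φ t z).2) (fderiv ℝ θ (φ t z) (1, 0)) t :=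
  (h.der z t).snd

/-- The line at height `c` is crossed upward. -/
def Lev (θ : ℝ × ℝ → ℝ) (c : ℝ) : Prop := ∀ x, 0 < fderiv ℝ θ (x, c) (1, 0)

lemma Lev.pos {c : ℝ} (hc : Lev θ c) {w : ℝ × ℝ} (e : w.2 = c) : 0 < fderiv ℝ θ w (1, 0) := by
  have := hc w.1
  rwa [← e] at this

lemma Fl.up (h : Fl θ φ) {c : ℝ} (hc : Lev θ c) {z : ℝ × ℝ} {a x : ℝ} (ha : c ≤ (φ a z).2)
    (hx : a < x) : c < (φ x z).2 :=
  FOLIA.up (h := fun t => (φ t z).2) (h.der2 z) (fun _ e => hc.pos e) ha hx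

lemma Fl.up' (h : Fl θ φ) {c : ℝ} (hc : Lev θ c) {z : ℝ × ℝ} {a x : ℝ} (ha : c ≤ (φ a z).2)
    (hx : a ≤ x) : c ≤ (φ x z).2 := by
  rcases hx.eq_or_lt with rfl | hx
  · exact ha
  · exact (h.up hc ha hx).le

lemma Fl.down' (h : Fl θ φ) {c : ℝ} (hc : Lev θ c) {z : ℝ × ℝ} {a x : ℝ} (hx : (φ x z).2 ≤ c)
    (ha : a ≤ x) : (φ a z).2 ≤ c := by
  rcases ha.eq_or_lt with rfl | ha
  · exact hx
  · by_contra hn
    exact absurd (h.up hc (not_le.1 hn).le ha) (not_lt.2 hx)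

lemma Fl.uniq (h : Fl θ φ) {c : ℝ} (hc : Lev θ c) {z : ℝ × ℝ} {s t : ℝ} (hs : (φ s z).2 = c)
    (ht : (φ t z).2 = c) : s = t := by
  rcases lt_trichotomy s t with e | e | e
  · exact absurd (h.up hc hs.ge e) (not_lt.2 ht.le)
  · exact e
  · exact absurd (h.up hc ht.ge e) (not_lt.2 hs.le)

/-- The points whose orbit meets the line at height `c`. -/
def Om (φ : ℝ → ℝ × ℝ → ℝ × ℝ) (c : ℝ) : Set (ℝ × ℝ) := {z | ∃ s, (φ s z).2 = c}

/-- The time at which the orbit meets the line at height `c`. -/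
noncomputable def tm (φ : ℝ → ℝ × ℝ → ℝ × ℝ) (c : ℝ) (z : ℝ × ℝ) : ℝ :=
  Classical.epsilon fun s => (φ s z).2 = c

lemma tm_spec {c : ℝ} {z : ℝ × ℝ} (hz : z ∈ Om φ c) : (φ (tm φ c z) z).2 = c :=
  Classical.epsilon_spec hz

lemma Fl.tm_eq (h : Fl θ φ) {c : ℝ} (hc : Lev θ c) {z : ℝ × ℝ} {s : ℝ} (hs : (φ s z).2 = c) :
    tm φ c z = s :=
  h.uniq hc (tm_spec ⟨s, hs⟩) hs

lemma Fl.mem_flow (h : Fl θ φ) {c : ℝ} {z : ℝ × ℝ} (hz : z ∈ Om φ c) (t : ℝ) :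
    φ t z ∈ Om φ c := by
  obtain ⟨s, hs⟩ := hz
  exact ⟨s - t, by rw [← h.add, sub_add_cancel, hs]⟩

lemma Fl.tm_flow (h : Fl θ φ) {c : ℝ} (hc : Lev θ c) {z : ℝ × ℝ} (hz : z ∈ Om φ c) (t : ℝ) :
    tm φ c (φ t z) = tm φ c z - t :=
  h.tm_eq hc (by rw [← h.add, sub_add_cancel, tm_spec hz])

lemma Fl.transv (h : Fl θ φ) {c : ℝ} (hc : Lev θ c) {z : ℝ × ℝ} {s : ℝ} (hs : (φ s z).2 = c) :
    fderiv ℝ (fun q : (ℝ × ℝ) × ℝ => (φ q.2 q.1).2) (z, s) (0, 1) ≠ 0 := by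
  rw [fderiv_partial (h.sm'.snd.differentiable (by simp) _) (h.der2 z s)]
  exact (hc.pos hs).ne'

lemma Fl.isOpen_Om (h : Fl θ φ) {c : ℝ} (hc : Lev θ c) : IsOpen (Om φ c) := by
  refine isOpen_iff_mem_nhds.2 fun z hz => ?_
  obtain ⟨s, hs⟩ := hz
  obtain ⟨g, -, -, hg, -⟩ := exists_implicit (f := fun q : (ℝ × ℝ) × ℝ => (φ q.2 q.1).2)
    (x₀ := z) (t₀ := s) h.sm'.snd.contDiffAt (h.transv hc hs)
  filter_upwards [hg] with w hw
  exact ⟨g w, hw.trans hs⟩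

lemma Fl.contDiffAt_tm (h : Fl θ φ) {c : ℝ} (hc : Lev θ c) {z : ℝ × ℝ} (hz : z ∈ Om φ c) :
    ContDiffAt ℝ ∞ (tm φ c) z := by
  refine contDiffAt_of_mono (f := fun q : (ℝ × ℝ) × ℝ => (φ q.2 q.1).2) (c := c) (J := univ)
    univ_mem h.sm'.snd.contDiffAt (h.transv hc (tm_spec hz)) ?_
  filter_upwards [(h.isOpen_Om hc).mem_nhds hz] with w hw
  exact ⟨tm_spec hw, fun t _ ht => (h.tm_eq hc ht).symm⟩

/-- Near a regular point the level set is one arc of an orbit. -/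
lemma Fl.box (h : Fl θ φ) {w : ℝ × ℝ} (hw : fderiv ℝ θ w ≠ 0) :
    ∀ᶠ z in 𝓝 w, θ z = θ w → ∃ s, |s| < 1 / 4 ∧ φ s z = w := by
  set A := fderiv ℝ θ w (1, 0) with hA
  set B := fderiv ℝ θ w (0, 1) with hB
  have hN : 0 < A ^ 2 + B ^ 2 := by
    by_contra hn
    have hA0 : A = 0 := by nlinarith [sq_nonneg A, sq_nonneg B]
    have hB0 : B = 0 := by nlinarith [sq_nonneg A, sq_nonneg B]
    refine hw (ContinuousLinearMap.ext fun v => ?_)
    obtain ⟨a, b⟩ := v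
    rw [clm_pair, ← hA, ← hB, hA0, hB0]
    simp
  have hs : ContDiff ℝ ∞ (fun q : (ℝ × ℝ) × ℝ => -B * (φ q.2 q.1).1 + A * (φ q.2 q.1).2) :=
    (contDiff_const.mul h.sm'.fst).add (contDiff_const.mul h.sm'.snd)
  have hd : HasDerivAt (fun s => -B * (φ s w).1 + A * (φ s w).2) (A ^ 2 + B ^ 2) 0 := by
    have d1 : HasDerivAt (fun s => (φ s w).1) (Y θ (φ 0 w)).1 0 := (h.der w 0).fst
    have d2 : HasDerivAt (fun s => (φ s w).2) (Y θ (φ 0 w)).2 0 := (h.der w 0).snd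
    have := (d1.const_mul (-B)).fun_add (d2.const_mul A)
    refine this.congr_deriv ?_
    simp only [h.zero, Y, ← hA, ← hB]
    ring
  obtain ⟨g, hg, hg0, hg1, -⟩ := exists_implicit
    (f := fun q : (ℝ × ℝ) × ℝ => -B * (φ q.2 q.1).1 + A * (φ q.2 q.1).2) (x₀ := w) (t₀ := 0)
    hs.contDiffAt (by rw [fderiv_partial (hs.differentiable (by simp) _) hd]; exact hN.ne')
  have hgc := hg.continuousAt
  have hp : ContinuousAt (fun z => φ (g z) z) w :=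
    h.sm.continuous.continuousAt.comp (f := fun z => (g z, z)) (hgc.prodMk continuousAt_id)
  let r : ℝ × ℝ → ℝ := fun z =>
    (A * ((φ (g z) z).1 - w.1) + B * ((φ (g z) z).2 - w.2)) / (A ^ 2 + B ^ 2)
  have hr : Tendsto r (𝓝 w) (𝓝 0) := by
    have hc : ContinuousAt r w :=
      ((continuousAt_const.mul (hp.fst.sub continuousAt_const)).add
        (continuousAt_const.mul (hp.snd.sub continuousAt_const))).div_const _
    have e : r w = 0 := by simp [r, hg0, h.zero]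
    have := hc.tendsto
    rwa [e] at this
  have hl : HasDerivAt (fun ρ : ℝ => θ (w + ρ • (A, B))) (A ^ 2 + B ^ 2) 0 := by
    have h1 : HasDerivAt (fun ρ : ℝ => w + ρ • ((A, B) : ℝ × ℝ)) (A, B) 0 := by
      simpa using ((hasDerivAt_id (0 : ℝ)).smul_const ((A, B) : ℝ × ℝ)).const_add w
    have h2 : HasFDerivAt θ (fderiv ℝ θ w) (w + (0 : ℝ) • ((A, B) : ℝ × ℝ)) := by
      simpa using (h.sθ.differentiable (by simp) w).hasFDerivAt
    refine (h2.comp_hasDerivAt (0 : ℝ) h1).congr_deriv ?_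
    rw [clm_pair, ← hA, ← hB]
    ring
  have hne : ∀ᶠ ρ : ℝ in 𝓝 0, ρ ≠ 0 → θ (w + ρ • (A, B)) ≠ θ w := by
    have := eventually_nhdsWithin_iff.1 (hl.eventually_ne (c := θ w) hN.ne')
    simpa using this
  have hsm : ∀ᶠ z in 𝓝 w, |g z| < 1 / 4 := by
    have : Tendsto (fun z => |g z|) (𝓝 w) (𝓝 |g w|) := hgc.abs
    rw [hg0, abs_zero] at this
    exact this.eventually (gt_mem_nhds (by norm_num))
  filter_upwards [hg1, hr.eventually hne, hsm] with z h1 h2 h3 hz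
  refine ⟨g z, h3, ?_⟩
  simp only [h.zero] at h1
  have e : φ (g z) z = w + r z • (A, B) := by
    refine Prod.ext ?_ ?_
    · simp only [r, Prod.fst_add, Prod.smul_fst, smul_eq_mul]
      field_simp
      linear_combination (-B) * h1
    · simp only [r, Prod.snd_add, Prod.smul_snd, smul_eq_mul]
      field_simp
      linear_combination A * h1
  have e0 : r z = 0 := by
    by_contra hn
    exact h2 hn (by rw [← e, h.inv, hz])
  rw [e, e0]
  simp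

/-- Orbits that start at the bottom reach the top. -/
lemma Fl.reach (h : Fl θ φ) {T : ℝ} (hT : 0 < T) (h1 : ∀ x β, θ (x + T, β) = θ (x, β) + 2 * π)
    (hs : ∀ z, fderiv ℝ θ z ≠ 0) (h0 : Lev θ 0) (x : ℝ) : ((x, 0) : ℝ × ℝ) ∈ Om φ π := by
  by_contra hn
  have hne : ∀ s, (φ s (x, 0)).2 ≠ π := fun s e => hn ⟨s, e⟩
  have hz : (φ 0 (x, 0)).2 = 0 := by rw [h.zero]
  have hcont : Continuous fun s => (φ s (x, 0)).2 :=
    continuous_iff_continuousAt.2 fun s => (h.der2 _ s).continuousAt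
  have hmem : ∀ s, 0 ≤ s → (φ s (x, 0)).2 ∈ Icc 0 π := by
    intro s hs0
    refine ⟨h.up' h0 hz.ge hs0, ?_⟩
    by_contra hc
    obtain ⟨t, -, ht⟩ := intermediate_value_Icc hs0 hcont.continuousOn
      (show π ∈ Icc (φ 0 (x, 0)).2 (φ s (x, 0)).2 from
        ⟨by rw [hz]; exact pi_pos.le, (not_le.1 hc).le⟩)
    exact hne t ht
  obtain ⟨C, hC⟩ := bdd_per (f := fun z : ℝ × ℝ => θ z - 2 * π / T * z.1) hT
    (h.sθ.continuous.sub (by fun_prop)) (fun x β => by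
      rw [h1]
      field_simp
      ring) π
  have hk : 0 < 2 * π / T := by positivity
  set R := (|θ (x, 0)| + C) / (2 * π / T) with hR
  have hK : IsCompact (Icc (-R) R ×ˢ Icc 0 π) := isCompact_Icc.prod isCompact_Icc
  have hin : ∀ n : ℕ, φ n (x, 0) ∈ Icc (-R) R ×ˢ Icc 0 π := by
    intro n
    have m := hmem n (Nat.cast_nonneg n)
    refine ⟨abs_le.1 ?_, m⟩
    have b := hC (φ n (x, 0)).1 _ m
    simp only [Prod.mk.eta, h.inv, Real.norm_eq_abs] at b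
    rw [hR, le_div_iff₀ hk, mul_comm, ← abs_of_pos hk, ← abs_mul]
    have := abs_sub_abs_le_abs_sub (2 * π / T * (φ n (x, 0)).1) (θ (x, 0))
    rw [abs_sub_comm] at this
    linarith
  obtain ⟨w, -, ψ, hψ, hlim⟩ := hK.tendsto_subseq hin
  have hw : θ w = θ (x, 0) := by
    have t1 := (h.sθ.continuous.tendsto w).comp hlim
    have e : (θ ∘ (fun n : ℕ => φ n (x, 0)) ∘ ψ) = fun _ => θ (x, 0) := by
      funext n
      simp [h.inv]
    rw [e] at t1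
    exact tendsto_nhds_unique t1 tendsto_const_nhds
  obtain ⟨N, hN⟩ := eventually_atTop.1 (hlim.eventually (h.box (hs w)))
  obtain ⟨s₁, a₁, e₁⟩ := hN N le_rfl (by simp [h.inv, hw])
  obtain ⟨s₂, a₂, e₂⟩ := hN (N + 1) (Nat.le_succ N) (by simp [h.inv, hw])
  simp only [Function.comp, ← h.add] at e₁ e₂
  have hlt : (ψ N : ℝ) + 1 ≤ ψ (N + 1) := by exact_mod_cast hψ (Nat.lt_succ_self N)
  have e₃ : φ (-(s₁ + ψ N) + (s₂ + ψ (N + 1))) (x, 0) = (x, 0) := by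
    rw [h.add, e₂, ← e₁, h.neg]
  have p := h.up h0 hz.ge (x := -(s₁ + ψ N) + (s₂ + ψ (N + 1)))
    (by linarith [abs_lt.1 a₁, abs_lt.1 a₂])
  rw [e₃] at p
  exact lt_irrefl _ p

lemma Fl.sub (h : Fl θ φ) (hr : ∀ x, ((x, 0) : ℝ × ℝ) ∈ Om φ π) {z : ℝ × ℝ}
    (hz : z ∈ Om φ 0) : z ∈ Om φ π := by
  obtain ⟨s, hs⟩ := hz
  have := h.mem_flow (hr (φ s z).1) (-s)
  rwa [← hs, Prod.mk.eta, h.neg] at this

lemma Fl.tm_nonpos (h : Fl θ φ) {c : ℝ} (hc : Lev θ c) {z : ℝ × ℝ} (hz : z ∈ Om φ c)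
    (h1 : c ≤ z.2) : tm φ c z ≤ 0 := by
  by_contra hn
  have := h.up hc (z := z) (a := 0) (by rwa [h.zero]) (not_le.1 hn)
  rw [tm_spec hz] at this
  exact lt_irrefl _ this

lemma Fl.tm_nonneg (h : Fl θ φ) {c : ℝ} (hc : Lev θ c) {z : ℝ × ℝ} (hz : z ∈ Om φ c)
    (h1 : z.2 ≤ c) : 0 ≤ tm φ c z := by
  by_contra hn
  have := h.up hc (tm_spec hz).ge (not_le.1 hn)
  rw [h.zero] at this
  linarith

lemma Fl.tm_ne (h : Fl θ φ) {c : ℝ} {z : ℝ × ℝ} (hz : z ∈ Om φ c) (h1 : z.2 ≠ c) :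
    tm φ c z ≠ 0 := by
  intro e
  have := tm_spec hz
  rw [e, h.zero] at this
  exact h1 this

lemma Fl.tm_lt (h : Fl θ φ) (hp : Lev θ π) {z : ℝ × ℝ} (hz : z ∈ Om φ 0) (hz' : z ∈ Om φ π) :
    tm φ 0 z < tm φ π z := by
  by_contra hn
  have := h.up' hp (tm_spec hz').ge (not_lt.1 hn)
  rw [tm_spec hz] at this
  linarith [pi_pos]

lemma tm_shift {T : ℝ} (he : ∀ t z, φ t (z + (T, 0)) = φ t z + (T, 0)) (c x β : ℝ) :
    tm φ c (x + T, β) = tm φ c (x, β) := by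
  have : ∀ s, (φ s (x + T, β)).2 = (φ s (x, β)).2 := by
    intro s
    have := congrArg Prod.snd (he s (x, β))
    simpa using this
  simp only [tm, this]

/-- Every point of the closed strip lies on an orbit that starts at the bottom. -/
lemma Fl.strip (h : Fl θ φ) {T : ℝ} (hT : 0 < T)
    (he : ∀ t z, φ t (z + (T, 0)) = φ t z + (T, 0)) (h0 : Lev θ 0) (hp : Lev θ π)
    (hr : ∀ x, ((x, 0) : ℝ × ℝ) ∈ Om φ π) : univ ×ˢ Icc 0 π ⊆ Om φ 0 := by
  have hc : Continuous fun z : ℝ × ℝ => tm φ π (z.1, 0) :=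
    continuous_iff_continuousAt.2 fun z =>
      (h.contDiffAt_tm hp (hr z.1)).continuousAt.comp (f := fun z : ℝ × ℝ => ((z.1, 0) : ℝ × ℝ))
        (by fun_prop)
  obtain ⟨M, hM⟩ := bdd_per hT hc (fun x _ => tm_shift he π x 0) 0
  have hB : IsOpen {z : ℝ × ℝ | ∀ s ∈ Icc (-M) 0, (φ s z).2 ≠ 0} := by
    refine isOpen_iff_mem_nhds.2 fun z hz => ?_
    refine isCompact_Icc.eventually_forall_of_forall_eventually
      (P := fun z s => (φ s z).2 ≠ 0) fun s hs => ?_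
    exact h.sm'.snd.continuous.continuousAt.eventually_ne (hz s hs)
  have hS : IsPreconnected ((univ : Set ℝ) ×ˢ Icc 0 π) :=
    isPreconnected_univ.prod isPreconnected_Icc
  intro z hz
  by_contra hn
  obtain ⟨w, hw, hw0, hwB⟩ := hS _ _ (h.isOpen_Om h0) hB
    (fun w _ => by
      by_cases e : w ∈ Om φ 0
      · exact Or.inl e
      · exact Or.inr fun s _ e' => e ⟨s, e'⟩)
    ⟨(0, 0), ⟨mem_univ _, le_rfl, pi_pos.le⟩, 0, by rw [h.zero]⟩
    ⟨z, hz, fun s _ e' => hn ⟨s, e'⟩⟩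
  have hw1 := h.sub hr hw0
  have a1 := h.tm_nonpos h0 hw0 hw.2.1
  have a2 := h.tm_nonneg hp hw1 hw.2.2
  have a3 := h.tm_flow hp hw1 (tm φ 0 w)
  have a4 := hM (φ (tm φ 0 w) w).1 0 ⟨le_rfl, le_rfl⟩
  have a5 : ((φ (tm φ 0 w) w).1, (0 : ℝ)) = φ (tm φ 0 w) w := Prod.ext rfl (tm_spec hw0).symm
  simp only [a5, a3, Real.norm_eq_abs] at a4
  exact hwB _ ⟨by linarith [abs_le.1 a4], a1⟩ (tm_spec hw0)

lemma Fl.inj (h : Fl θ φ) (h0 : Lev θ 0) (hp : Lev θ π) (hS : univ ×ˢ Icc 0 π ⊆ Om φ 0)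
    (g : ℝ × ℝ → ℝ)
    (hg : ∀ z : ℝ × ℝ, z.2 ∈ Icc 0 π → DifferentiableAt ℝ g z ∧ 0 < jdet θ g z)
    (z z' : ℝ × ℝ) (hz : z.2 ∈ Icc 0 π) (hz' : z'.2 ∈ Icc 0 π) (e1 : θ z = θ z')
    (e2 : g z = g z') : z = z' := by
  have hmono : StrictMono fun x => θ (x, 0) := by
    refine strictMono_of_hasDerivAt_pos (f' := fun x => fderiv ℝ θ (x, 0) (1, 0))
      (fun x => ?_) h0
    exact (h.sθ.differentiable (by simp) (x, 0)).hasFDerivAt.comp_hasDerivAt x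
      ((hasDerivAt_id x).prodMk (hasDerivAt_const x (0 : ℝ)))
  obtain ⟨s, hs⟩ := hS (a := z) ⟨mem_univ _, hz⟩
  obtain ⟨s', hs'⟩ := hS (a := z') ⟨mem_univ _, hz'⟩
  have e3 : φ s z = φ s' z' := by
    refine Prod.ext (hmono.injective ?_) (hs.trans hs'.symm)
    have b1 : ((φ s z).1, (0 : ℝ)) = φ s z := Prod.ext rfl hs.symm
    have b2 : ((φ s' z').1, (0 : ℝ)) = φ s' z' := Prod.ext rfl hs'.symm
    simp only [b1, b2, h.inv, e1]
  have key : ∀ (p : ℝ × ℝ) (a b : ℝ), a < b → (φ a p).2 ∈ Icc 0 π → (φ b p).2 ∈ Icc 0 π →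
      g (φ a p) < g (φ b p) := by
    intro p a b hab ha hb
    have hm : ∀ t ∈ Icc a b, (φ t p).2 ∈ Icc 0 π := fun t ht =>
      ⟨h.up' h0 ha.1 ht.1, h.down' hp hb.2 ht.2⟩
    have hd : ∀ t ∈ Icc a b, HasDerivAt (fun t => g (φ t p)) (jdet θ g (φ t p)) t := fun t ht =>
      h.comp p t (hg _ (hm t ht)).1
    have := strictMonoOn_of_deriv_pos (convex_Icc a b)
      (fun t ht => (hd t ht).continuousAt.continuousWithinAt) (fun t ht => by
        have ht' := interior_subset ht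
        rw [(hd t ht').deriv]
        exact (hg _ (hm t ht')).2)
    exact this ⟨le_rfl, hab.le⟩ ⟨hab.le, le_rfl⟩ hab
  have c1 : φ (-s) (φ s z) = z := h.neg s z
  have c2 : φ (-s') (φ s z) = z' := by rw [e3, h.neg]
  rcases lt_trichotomy (-s) (-s') with e | e | e
  · have := key (φ s z) _ _ e (by rwa [c1]) (by rwa [c2])
    rw [c1, c2] at this
    exact absurd e2 this.ne
  · rw [← c1, e, c2]
  · have := key (φ s z) _ _ e (by rwa [c2]) (by rwa [c1])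
    rw [c1, c2] at this
    exact absurd e2 this.ne'

end FOLIA

open FOLIA in
theorem folia_of (hF : FlowStmt) : FoliaStmt := by
  intro T θ hT hθ h1 h2 hs h0 hp
  have h1' : ∀ z : ℝ × ℝ, θ (z + (T, 0)) = θ z + 2 * π := fun z => by
    obtain ⟨x, β⟩ := z
    simpa using h1 x β
  have h2' : ∀ z : ℝ × ℝ, θ (z + (0, 2 * π)) = θ z + 0 := fun z => by
    obtain ⟨x, β⟩ := z
    simpa using h2 x β
  obtain ⟨K, hK⟩ := lip_Y hT hθ h1' h2'
  obtain ⟨φ, f1, f2, f3, f4, f5⟩ := hF (ℝ × ℝ) (Y θ) K (contDiff_Y hθ) hK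
  have h : Fl θ φ := ⟨hθ, f1, f2, f3, f4⟩
  have he0 : ∀ t, 0 ≤ t → ∀ z, φ t (z + (T, 0)) = φ t z + (T, 0) := by
    intro t ht z
    have hd : ∀ s, HasDerivAt (fun s => φ s z + (T, 0)) (Y θ (φ s z + (T, 0))) s := by
      intro s
      rw [Y_shift h1']
      exact (f4 z s).add_const _
    have := f5 (fun s => φ s z + (T, 0)) 0 t ht
      (fun s _ => (hd s).continuousAt.continuousWithinAt) fun s _ => hd s
    simp only [sub_zero, f2] at this
    exact this.symm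
  have he : ∀ t z, φ t (z + (T, 0)) = φ t z + (T, 0) := by
    intro t z
    rcases le_total 0 t with ht | ht
    · exact he0 t ht z
    · have := he0 (-t) (by linarith) (φ t z)
      rw [h.neg] at this
      rw [← this, ← f3, add_neg_cancel, f2]
  have hr := h.reach hT h1 hs h0
  have hS := h.strip hT he h0 hp hr
  have hm : ∀ z : ℝ × ℝ, z.2 ∈ Icc 0 π → z ∈ Om φ 0 := fun z hz => hS ⟨mem_univ _, hz⟩
  have hsm : ∀ z ∈ Om φ 0, ContDiffAt ℝ ∞ (fun z => -tm φ 0 z / (tm φ π z - tm φ 0 z)) z := by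
    intro z hz
    have a := h.contDiffAt_tm h0 hz
    have b := h.contDiffAt_tm hp (h.sub hr hz)
    exact a.neg.div (b.sub a) (sub_pos.2 (h.tm_lt hp hz (h.sub hr hz))).ne'
  refine ⟨fun z => -tm φ 0 z / (tm φ π z - tm φ 0 z),
    ⟨Om φ 0, h.isOpen_Om h0, hS, fun z hz => (hsm z hz).contDiffWithinAt⟩,
    fun x β _ => by simp only [tm_shift he], fun x => ?_, fun x => ?_, fun z hz => ?_,
    fun z hz => ?_, h.inj h0 hp hS⟩
  · have : tm φ 0 (x, 0) = 0 := h.tm_eq h0 (by rw [f2])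
    simp [this]
  · have e : tm φ π (x, π) = 0 := h.tm_eq hp (by rw [f2])
    have m := hm (x, π) ⟨pi_pos.le, le_rfl⟩
    have l := h.tm_lt hp m (h.sub hr m)
    rw [e] at l
    simp only [e, zero_sub]
    exact div_self (neg_ne_zero.2 l.ne)
  · have m := hm z (Ioo_subset_Icc_self hz)
    have m' := h.sub hr m
    have a : tm φ 0 z < 0 := lt_of_le_of_ne (h.tm_nonpos h0 m hz.1.le) (h.tm_ne m hz.1.ne')
    have b : 0 < tm φ π z := lt_of_le_of_ne (h.tm_nonneg hp m' hz.2.le) (h.tm_ne m' hz.2.ne).symm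
    exact ⟨div_pos (by linarith) (by linarith), (div_lt_one (by linarith)).2 (by linarith)⟩
  · have m := hm z hz
    have m' := h.sub hr m
    have l := sub_pos.2 (h.tm_lt hp m m')
    have d1 := h.comp z 0 (g := fun z => -tm φ 0 z / (tm φ π z - tm φ 0 z))
      (by rw [f2]; exact (hsm z m).differentiableAt (by simp))
    have e : (fun t => -tm φ 0 (φ t z) / (tm φ π (φ t z) - tm φ 0 (φ t z))) =
        fun t => (t - tm φ 0 z) / (tm φ π z - tm φ 0 z) := by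
      funext t
      rw [h.tm_flow h0 m, h.tm_flow hp m']
      congr 1 <;> ring
    rw [e, f2] at d1
    have d2 : HasDerivAt (fun t : ℝ => (t - tm φ 0 z) / (tm φ π z - tm φ 0 z))
        (1 / (tm φ π z - tm φ 0 z)) 0 := ((hasDerivAt_id (0 : ℝ)).sub_const _).div_const _
    rw [d1.unique d2]
    positivity

end Pool.Agent.MP_2291e2_gt.Zl

end MrgPart3

-- ======== part 4: formerly Pool.Agent.MP_2291e2_gt.zl.InterpA
section MrgPart4

/-! Tools for the interpolation of the two charts: cut-off, local division, bounds on a strip,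
the determinant, the angle function. -/

open scoped ContDiff Topology
open Set Filter Real

namespace Pool.Agent.MP_2291e2_gt.Zl.INTERP

lemma st_deriv : ∃ c : ℝ, 0 < c ∧ ∀ x, 0 ≤ deriv smoothTransition x ∧ deriv smoothTransition x ≤ c := by
  have hc : Continuous (deriv smoothTransition) :=
    (smoothTransition.contDiff (n := 1)).continuous_deriv le_rfl
  obtain ⟨C, hC⟩ := (isCompact_Icc (a := (0 : ℝ)) (b := 1)).exists_bound_of_continuousOn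
    hc.continuousOn
  refine ⟨|C| + 1, by positivity, fun x => ⟨smoothTransition.monotone.deriv_nonneg, ?_⟩⟩
  have h0 : (0 : ℝ) ≤ |C| + 1 := by positivity
  rcases lt_or_ge x 0 with h | h
  · have : smoothTransition =ᶠ[𝓝 x] fun _ => 0 := by
      filter_upwards [Iio_mem_nhds h] with y hy
      exact smoothTransition.zero_of_nonpos (le_of_lt hy)
    rw [this.deriv_eq, deriv_const]
    exact h0
  rcases lt_or_ge 1 x with h' | h'
  · have : smoothTransition =ᶠ[𝓝 x] fun _ => 1 := by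
      filter_upwards [Ioi_mem_nhds h'] with y hy
      exact smoothTransition.one_of_one_le (le_of_lt hy)
    rw [this.deriv_eq, deriv_const]
    exact h0
  have := (le_abs_self _).trans (hC x ⟨h, h'⟩)
  linarith [le_abs_self C]

/-- A cut-off function that varies slowly in the logarithm. -/
lemma cut {a ε : ℝ} (ha : 0 < a) (hε : 0 < ε) : ∃ (χ : ℝ → ℝ) (δ : ℝ), 0 < δ ∧
    (∀ β > 0, ContDiffAt ℝ ∞ χ β) ∧ (∀ β, 0 ≤ χ β ∧ χ β ≤ 1) ∧ (∀ β, a ≤ β → χ β = 0) ∧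
    (∀ β ∈ Ioo 0 δ, χ β = 1) ∧ ∀ β > 0, -ε ≤ β * deriv χ β ∧ β * deriv χ β ≤ 0 := by
  obtain ⟨c, hc, hd⟩ := st_deriv
  have hL : 0 < c / ε := by positivity
  refine ⟨fun β => smoothTransition ((log a - log β) / (c / ε)), a * exp (-(c / ε)),
    by positivity, fun β hβ => ?_,
    fun β => ⟨smoothTransition.nonneg _, smoothTransition.le_one _⟩, fun β hβ => ?_,
    fun β hβ => ?_, fun β hβ => ?_⟩
  · exact smoothTransition.contDiffAt.comp β
      ((contDiffAt_const.sub (contDiffAt_log.2 hβ.ne')).div_const _)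
  · exact smoothTransition.zero_of_nonpos
      (div_nonpos_of_nonpos_of_nonneg (sub_nonpos.2 (log_le_log ha hβ)) hL.le)
  · refine smoothTransition.one_of_one_le ((one_le_div hL).2 ?_)
    have := log_le_log hβ.1 hβ.2.le
    rw [log_mul ha.ne' (exp_pos _).ne', log_exp] at this
    linarith
  · have h1 : HasDerivAt (fun β => (log a - log β) / (c / ε)) (-β⁻¹ / (c / ε)) β :=
      ((hasDerivAt_log hβ.ne').const_sub _).div_const _
    have h2 := (((smoothTransition.contDiff (n := 1)).differentiable one_ne_zero)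
      ((log a - log β) / (c / ε))).hasDerivAt.comp β h1
    have h3 : deriv (fun β => smoothTransition ((log a - log β) / (c / ε))) β = _ := h2.deriv
    rw [h3]
    obtain ⟨d1, d2⟩ := hd ((log a - log β) / (c / ε))
    generalize deriv smoothTransition ((log a - log β) / (c / ε)) = s at d1 d2
    have : β * (s * (-β⁻¹ / (c / ε))) = -(s / c * ε) := by
      have := hβ.ne'
      field_simp
    rw [this]
    have h4 : s / c ≤ 1 := (div_le_one hc).2 d2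
    have h5 : 0 ≤ s / c := by positivity
    constructor <;> nlinarith

/-- Division by the second variable, local form. -/
lemma had (hP : PIntStmt) {F : Type} [NormedAddCommGroup F] [NormedSpace ℝ F] [CompleteSpace F]
    {Ω : Set (ℝ × ℝ)} {f : ℝ × ℝ → F} (hΩ : IsOpen Ω) (hf : ContDiffOn ℝ ∞ f Ω) :
    ∃ g : ℝ × ℝ → F, (∀ x, g (x, 0) = fderiv ℝ f (x, 0) (0, 1)) ∧
      ∀ z : ℝ × ℝ, (∀ s ∈ Icc (0 : ℝ) 1, (z.1, s * z.2) ∈ Ω) →
        ContDiffAt ℝ ∞ g z ∧ z.2 • g z = f z - f (z.1, 0) := by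
  have hm : ContDiff ℝ ∞ fun q : (ℝ × ℝ) × ℝ => (q.1.1, q.2 * q.1.2) := by fun_prop
  have hd : ContDiffOn ℝ ∞ (fun z => fderiv ℝ f z (0, 1)) Ω :=
    contDiffOn_fderiv_apply hΩ hf contDiffOn_const
  have hI := (hP (ℝ × ℝ) F ((fun q : (ℝ × ℝ) × ℝ => (q.1.1, q.2 * q.1.2)) ⁻¹' Ω)
    (fun q => fderiv ℝ f (q.1.1, q.2 * q.1.2) (0, 1)) (hΩ.preimage hm.continuous)
    (hd.comp hm.contDiffOn fun _ h => h)).1 0 1
  refine ⟨fun z => ∫ s in (0 : ℝ)..1, fderiv ℝ f (z.1, s * z.2) (0, 1), fun x => by simp,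
    fun z hz => ⟨(hI z fun s hs => hz s (by simpa using hs)).1, ?_⟩⟩
  have h1 : ∀ s ∈ uIcc (0 : ℝ) 1, HasDerivAt (fun s => f (z.1, s * z.2))
      (z.2 • fderiv ℝ f (z.1, s * z.2) (0, 1)) s := fun s hs => by
    have h2 : HasDerivAt (fun s : ℝ => (z.1, s * z.2)) (0, z.2) s := by
      simpa using (hasDerivAt_const s z.1).prodMk ((hasDerivAt_id s).mul_const z.2)
    have h3 := ((hf.contDiffAt (hΩ.mem_nhds (hz s (by simpa using hs)))).differentiableAt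
      (by simp)).hasFDerivAt.comp_hasDerivAt s h2
    rwa [show ((0, z.2) : ℝ × ℝ) = z.2 • ((0, 1) : ℝ × ℝ) by simp, map_smul] at h3
  have h4 : ContinuousOn (fun s : ℝ => z.2 • fderiv ℝ f (z.1, s * z.2) (0, 1)) (uIcc 0 1) :=
    (hd.continuousOn.comp (by fun_prop) fun s hs => hz s (by simpa using hs)).const_smul z.2
  rw [← intervalIntegral.integral_smul,
    intervalIntegral.integral_eq_sub_of_hasDerivAt h1 h4.intervalIntegrable]
  simp

lemma per_all {T : ℝ} (hT : 0 < T) {F : Type} {G : ℝ → F} {p : F → Prop}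
    (hper : ∀ x, G (x + T) = G x) (h : ∀ x ∈ Icc 0 T, p (G x)) (x : ℝ) : p (G x) := by
  obtain ⟨y, hy, e⟩ := Function.Periodic.exists_mem_Ico₀ (f := G) hper hT x
  rw [e]
  exact h y (Ico_subset_Icc_self hy)

lemma bdd {T d : ℝ} (hT : 0 < T) {F : Type} [NormedAddCommGroup F] {G : ℝ × ℝ → F}
    (hper : ∀ x, ∀ β ∈ Ioo 0 d, G (x + T, β) = G (x, β))
    (hc : ∀ z : ℝ × ℝ, z.2 ∈ Icc 0 d → ContinuousAt G z) :
    ∃ C, ∀ z : ℝ × ℝ, z.2 ∈ Ioo 0 d → ‖G z‖ ≤ C := by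
  obtain ⟨C, hC⟩ := ((isCompact_Icc (a := (0 : ℝ)) (b := T)).prod
    (isCompact_Icc (a := (0 : ℝ)) (b := d))).exists_bound_of_continuousOn (f := G)
    fun z hz => (hc z hz.2).continuousWithinAt
  exact ⟨C, fun z hz => per_all hT (G := fun x => G (x, z.2)) (p := fun y => ‖y‖ ≤ C)
    (fun x => hper x _ hz) (fun x hx => hC _ ⟨hx, Ioo_subset_Icc_self hz⟩) z.1⟩

lemma tube {T : ℝ} {p : ℝ × ℝ → Prop} (h : ∀ x, ∀ᶠ z in 𝓝 (x, (0 : ℝ)), p z) :
    ∃ d > 0, ∀ β ∈ Ioo (-d) d, ∀ x ∈ Icc 0 T, p (x, β) := by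
  have := (isCompact_Icc (a := (0 : ℝ)) (b := T)).eventually_forall_of_forall_eventually
    (x₀ := (0 : ℝ)) (P := fun β x => p (x, β)) fun x _ =>
      (continuous_swap.tendsto ((0 : ℝ), x)).eventually (h x)
  obtain ⟨d, hd, h'⟩ := Metric.eventually_nhds_iff.1 this
  exact ⟨d, hd, fun β hβ => h' (by rw [Real.dist_eq, sub_zero]; exact abs_lt.2 hβ)⟩

lemma pos_strip {T d : ℝ} (hT : 0 < T) {G : ℝ × ℝ → ℝ}
    (hper : ∀ x, ∀ β ∈ Ioo 0 d, G (x + T, β) = G (x, β)) (hc : ∀ x, ContinuousAt G (x, 0))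
    (h0 : ∀ x, 0 < G (x, 0)) :
    ∃ m > 0, ∃ d' > 0, ∀ z : ℝ × ℝ, z.2 ∈ Ioo 0 d → z.2 < d' → m ≤ G z := by
  obtain ⟨x₀, -, hx₀⟩ := (isCompact_Icc (a := (0 : ℝ)) (b := T)).exists_isMinOn
    (f := fun x => G (x, 0)) (nonempty_Icc.2 hT.le) fun x _ =>
      ((hc x).comp (f := fun x : ℝ => (x, (0 : ℝ))) (by fun_prop)).continuousWithinAt
  obtain ⟨d', hd', h⟩ := tube (T := T)
    (p := fun z => z.1 ∈ Icc 0 T → G (x₀, 0) / 2 ≤ G z) fun x => by
      by_cases hx : x ∈ Icc 0 T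
      · have h1 : G (x₀, 0) ≤ G (x, 0) := hx₀ hx
        exact ((hc x).eventually (lt_mem_nhds (a := G (x₀, 0) / 2)
          (by linarith [h0 x₀]))).mono fun z hz _ => hz.le
      · exact ((continuous_fst.tendsto (x, (0 : ℝ))).eventually
          (isClosed_Icc.isOpen_compl.mem_nhds hx)).mono fun z hz hz' => absurd hz' hz
  refine ⟨G (x₀, 0) / 2, by linarith [h0 x₀], d', hd', fun z hz hz' => ?_⟩
  exact per_all hT (G := fun x => G (x, z.2)) (p := fun y => G (x₀, 0) / 2 ≤ y)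
    (fun x => hper x _ hz) (fun x hx => h _ ⟨by linarith [hz.1], hz'⟩ x hx hx) z.1

lemma fderiv_per {T d c : ℝ} {g : ℝ × ℝ → ℝ}
    (hper : ∀ x, ∀ β ∈ Ioo 0 d, g (x + T, β) = g (x, β) + c) (x : ℝ) :
    ∀ β ∈ Ioo 0 d, fderiv ℝ g (x + T, β) = fderiv ℝ g (x, β) := fun β hβ => by
  have h1 : (fun z => g (z + (T, 0))) =ᶠ[𝓝 (x, β)] fun z => g z + c :=
    ((continuous_snd.tendsto (x, β)).eventually (Ioo_mem_nhds hβ.1 hβ.2)).mono fun z hz => by
      have := hper z.1 z.2 hz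
      simpa [Prod.add_def] using this
  have h2 := h1.fderiv_eq (𝕜 := ℝ)
  rw [fderiv_comp_add_right, fderiv_add_const] at h2
  simpa using h2

/-- Bounds for the first derivatives on the strip. -/
lemma bdd1 {T d c : ℝ} (hT : 0 < T) {g : ℝ × ℝ → ℝ}
    (hper : ∀ x, ∀ β ∈ Ioo 0 d, g (x + T, β) = g (x, β) + c)
    (hc : ∀ z : ℝ × ℝ, z.2 ∈ Icc 0 d → ContDiffAt ℝ ∞ g z) :
    ∃ C, ∀ z : ℝ × ℝ, z.2 ∈ Ioo 0 d →
      |fderiv ℝ g z (1, 0)| ≤ C ∧ |fderiv ℝ g z (0, 1)| ≤ C := by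
  obtain ⟨C, hC⟩ := bdd hT (G := fderiv ℝ g) (fderiv_per hper) fun z hz =>
    (hc z hz).continuousAt_fderiv (by simp)
  refine ⟨C, fun z hz => ⟨?_, ?_⟩⟩
  · simpa using (fderiv ℝ g z).le_of_opNorm_le (hC z hz) (1, 0)
  · simpa using (fderiv ℝ g z).le_of_opNorm_le (hC z hz) (0, 1)

lemma conv_abs {a b c C : ℝ} (h0 : 0 ≤ c) (h1 : c ≤ 1) (ha : |a| ≤ C) (hb : |b| ≤ C) :
    |a + c * (b - a)| ≤ C := by
  rw [abs_le] at *
  constructor <;> nlinarith [ha.1, ha.2, hb.1, hb.2]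

lemma alg {m C ε β c e tx tb vx vb D E ax ab bx bb : ℝ} (hm : 0 < m) (hβ : 0 < β) (h0 : 0 ≤ c)
    (h1 : c ≤ 1) (he : -ε ≤ β * e) (he' : β * e ≤ 0) (htx : m ≤ tx) (hvx : m ≤ vx)
    (htb : |tb| ≤ C) (hvb : |vb| ≤ C) (hD : |D| ≤ C) (hE : E ≤ 0) (hax : |ax| ≤ C)
    (hab : |ab| ≤ C) (hbx : |bx| ≤ C) (hbb : |bb| ≤ C) (hβC : β * C ≤ 1 / 4)
    (hs : (β + ε) * C ^ 2 < m / 4) :
    (tx + c * (vx - tx)) * ((β⁻¹ / 2 + ab) + (c * ((β⁻¹ + bb) - (β⁻¹ / 2 + ab)) + E * e))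
      - (tb + (c * (vb - tb) + D * e)) * (ax + c * (bx - ax)) ≠ 0 := by
  have hA : m ≤ tx + c * (vx - tx) := by nlinarith
  have hB : 1 / 4 ≤ β * ((β⁻¹ / 2 + ab) + (c * ((β⁻¹ + bb) - (β⁻¹ / 2 + ab)) + E * e)) := by
    have e1 : β * ((β⁻¹ / 2 + ab) + (c * ((β⁻¹ + bb) - (β⁻¹ / 2 + ab)) + E * e)) =
        1 / 2 + c / 2 + β * (ab + c * (bb - ab)) + E * (β * e) := by
      field_simp
      ring
    have e2 := (abs_le.1 (conv_abs h0 h1 hab hbb)).1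
    have e3 : 0 ≤ E * (β * e) := mul_nonneg_of_nonpos_of_nonpos hE he'
    rw [e1]
    nlinarith
  have hC0 : 0 ≤ C := (abs_nonneg _).trans hD
  have hC : |β * (tb + (c * (vb - tb) + D * e))| ≤ (β + ε) * C := by
    have e1 : β * (tb + (c * (vb - tb) + D * e)) = β * (tb + c * (vb - tb)) + D * (β * e) := by
      ring
    have e2 : |β * (tb + c * (vb - tb))| ≤ β * C := by
      rw [abs_mul, abs_of_pos hβ]
      exact mul_le_mul_of_nonneg_left (conv_abs h0 h1 htb hvb) hβ.le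
    have e3 : |D * (β * e)| ≤ C * ε := by
      rw [abs_mul]
      exact mul_le_mul hD (abs_le.2 ⟨he, by linarith⟩) (abs_nonneg _) hC0
    rw [e1]
    refine (abs_add_le _ _).trans ?_
    linarith
  have hD' := conv_abs h0 h1 hax hbx
  have hP : |β * (tb + (c * (vb - tb) + D * e)) * (ax + c * (bx - ax))| ≤ (β + ε) * C * C := by
    rw [abs_mul]
    exact mul_le_mul hC hD' (abs_nonneg _) ((abs_nonneg _).trans hC)
  intro h
  have h2 := mul_le_mul hA hB (by norm_num) (by linarith)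
  have h3 := (abs_le.1 hP).2
  have h4 := congrArg (β * ·) h
  simp only [mul_zero] at h4
  nlinarith

/-- The determinant of the interpolated chart. -/
lemma core {θ ϑ ρ₀ ρ₁ σ₀ σ₁ dθ dρ : ℝ × ℝ → ℝ} {χ : ℝ → ℝ} {z : ℝ × ℝ} {m C ε : ℝ} (hm : 0 < m)
    (hβ : 0 < z.2) (hθ : DifferentiableAt ℝ θ z) (hϑ : DifferentiableAt ℝ ϑ z)
    (hσ₀ : DifferentiableAt ℝ σ₀ z) (hσ₁ : DifferentiableAt ℝ σ₁ z)
    (hχ : DifferentiableAt ℝ χ z.2) (e₀ : ρ₀ =ᶠ[𝓝 z] fun z => log z.2 / 2 + σ₀ z)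
    (e₁ : ρ₁ = fun z => log z.2 + σ₁ z) (e₂ : dθ = fun z => χ z.2 * (ϑ z - θ z))
    (e₃ : dρ = fun z => χ z.2 * (ρ₁ z - ρ₀ z)) (h0 : 0 ≤ χ z.2) (h1 : χ z.2 ≤ 1)
    (he : -ε ≤ z.2 * deriv χ z.2) (he' : z.2 * deriv χ z.2 ≤ 0)
    (htx : m ≤ fderiv ℝ θ z (1, 0)) (hvx : m ≤ fderiv ℝ ϑ z (1, 0))
    (htb : |fderiv ℝ θ z (0, 1)| ≤ C) (hvb : |fderiv ℝ ϑ z (0, 1)| ≤ C) (hD : |ϑ z - θ z| ≤ C)
    (hE : ρ₁ z - ρ₀ z ≤ 0) (hax : |fderiv ℝ σ₀ z (1, 0)| ≤ C) (hab : |fderiv ℝ σ₀ z (0, 1)| ≤ C)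
    (hbx : |fderiv ℝ σ₁ z (1, 0)| ≤ C) (hbb : |fderiv ℝ σ₁ z (0, 1)| ≤ C)
    (hβC : z.2 * C ≤ 1 / 4) (hs : (z.2 + ε) * C ^ 2 < m / 4) :
    jdet (fun z => θ z + dθ z) (fun z => ρ₀ z + dρ z) z ≠ 0 := by
  have c1 : HasFDerivAt (fun z : ℝ × ℝ => χ z.2) (deriv χ z.2 • ContinuousLinearMap.snd ℝ ℝ ℝ) z :=
    hχ.hasDerivAt.comp_hasFDerivAt z hasFDerivAt_snd
  have c2 : HasFDerivAt (fun z : ℝ × ℝ => log z.2) (z.2⁻¹ • ContinuousLinearMap.snd ℝ ℝ ℝ) z :=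
    (hasDerivAt_log hβ.ne').comp_hasFDerivAt z hasFDerivAt_snd
  have r0 := ((c2.mul_const (2⁻¹ : ℝ)).add hσ₀.hasFDerivAt).congr_of_eventuallyEq
    (f₁ := ρ₀) (e₀.mono fun z hz => hz.trans (by simp [div_eq_mul_inv]))
  have r1 : HasFDerivAt ρ₁ _ z := e₁ ▸ c2.fun_add hσ₁.hasFDerivAt
  have a1 := hθ.hasFDerivAt.fun_add (c1.fun_mul (hϑ.hasFDerivAt.fun_sub hθ.hasFDerivAt))
  have a2 := r0.fun_add (c1.fun_mul (r1.fun_sub r0))
  subst e₂ e₃
  have := alg hm hβ h0 h1 he he' htx hvx htb hvb hD hE hax hab hbx hbb hβC hs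
  rw [jdet, a1.fderiv, a2.fderiv]
  intro h
  apply this
  simp only [add_apply, smul_apply, sub_apply, ContinuousLinearMap.coe_snd', smul_eq_mul] at h
  linear_combination h

lemma jdet_lr {θ zf : ℝ × ℝ → ℝ} {z : ℝ × ℝ} (hz : DifferentiableAt ℝ zf z)
    (hm : zf z ∈ Ioo (-1) 1) (h : 0 < jdet θ zf z) : jdet θ (lr zf) z ≠ 0 := by
  have h1 : 0 < 1 + zf z := by linarith [hm.1]
  have h2 : 0 < 1 - zf z := by linarith [hm.2]
  have a1 : HasDerivAt (fun t : ℝ => log ((1 + t) / (1 - t)) / 2)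
      (((1 + zf z) * (1 - zf z))⁻¹) (zf z) := by
    have := (((((hasDerivAt_id (zf z)).const_add 1).div ((hasDerivAt_id (zf z)).const_sub 1)
      h2.ne').log (div_pos h1 h2).ne')).div_const 2
    refine this.congr_deriv ?_
    simp only [id, Pi.div_apply]
    field_simp
    ring
  have a2 : HasFDerivAt (lr zf) (((1 + zf z) * (1 - zf z))⁻¹ • fderiv ℝ zf z) z :=
    a1.comp_hasFDerivAt z hz.hasFDerivAt
  have : jdet θ (lr zf) z = ((1 + zf z) * (1 - zf z))⁻¹ * jdet θ zf z := by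
    rw [jdet, jdet, a2.fderiv]
    simp only [smul_apply, smul_eq_mul]
    ring
  rw [this]
  positivity

lemma hasDerivAt_fst {F : Type} [NormedAddCommGroup F] [NormedSpace ℝ F] {g : ℝ × ℝ → F}
    {x β : ℝ} (h : DifferentiableAt ℝ g (x, β)) :
    HasDerivAt (fun x => g (x, β)) (fderiv ℝ g (x, β) (1, 0)) x :=
  h.hasFDerivAt.comp_hasDerivAt x ((hasDerivAt_id x).prodMk (hasDerivAt_const x β))

lemma polar {w : ℂ} {t : ℝ} (h0 : w ≠ 0) (h : w = ‖w‖ * Complex.exp (t * Complex.I)) :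
    w = Complex.exp ((log ‖w‖ : ℝ) + t * Complex.I) := by
  rw [Complex.exp_add, ← Complex.ofReal_exp, exp_log (norm_pos_iff.2 h0)]
  exact h

/-- The angle function of the polar chart. -/
lemma angle (hL : LiftStmt) {T : ℝ} {k : ℝ × ℝ → ℂ} (hT : 0 < T) (hk : ContDiff ℝ ∞ k)
    (hper : ∀ x β, k (x + T, β) = k (x, β))
    (ht : ∀ x, 0 < ((starRingEnd ℂ) (k (x, 0)) * deriv (fun x => k (x, 0)) x).im)
    (ho : ∀ x x' μ : ℝ, 0 < μ → k (x, 0) = μ * k (x', 0) → ∃ n : ℤ, x = x' + n * T) :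
    ∃ d > 0, ∃ ϑ : ℝ × ℝ → ℝ, (∀ z : ℝ × ℝ, z.2 ∈ Ioo (-d) d → k z ≠ 0 ∧ ContDiffAt ℝ ∞ ϑ z ∧
      k z = Complex.exp ((log ‖k z‖ : ℝ) + ϑ z * Complex.I)) ∧
      (∀ x, ∀ β ∈ Ioo (-d) d, ϑ (x + T, β) = ϑ (x, β) + 2 * π) ∧
      ∀ x, 0 < fderiv ℝ ϑ (x, 0) (1, 0) := by
  have hk0 : ∀ x, k (x, 0) ≠ 0 := fun x h => by
    have := ht x
    rw [h] at this
    simp at this
  obtain ⟨d, hd, hne⟩ := tube (T := T) (p := fun z => k z ≠ 0) fun x =>
    hk.continuous.continuousAt.eventually_ne (hk0 x)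
  have hne' : ∀ z : ℝ × ℝ, z.2 ∈ Ioo (-d) d → k z ≠ 0 := fun z hz =>
    per_all hT (G := fun x => k (x, z.2)) (p := fun y => y ≠ 0) (fun x => hper x _)
      (hne _ hz) z.1
  have hop : IsOpen ((univ : Set ℝ) ×ˢ Ioo (-d) d) := isOpen_univ.prod isOpen_Ioo
  have hcv : Convex ℝ ((univ : Set ℝ) ×ˢ Ioo (-d) d) := convex_univ.prod (convex_Ioo _ _)
  have h0 : (0 : ℝ) ∈ Ioo (-d) d := ⟨by linarith, hd⟩
  obtain ⟨ϑ, hϑ, -, hk'⟩ := hL (ℝ × ℝ) _ k (0, 0) (Complex.arg (k (0, 0))) hop hcv hk.contDiffOn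
    (fun z hz => hne' z hz.2) ⟨trivial, h0⟩ (Complex.norm_mul_exp_arg_mul_I _).symm
  have hs : ∀ z : ℝ × ℝ, z.2 ∈ Ioo (-d) d → ContDiffAt ℝ ∞ ϑ z := fun z hz =>
    hϑ.contDiffAt (hop.mem_nhds ⟨trivial, hz⟩)
  have hp : ∀ z : ℝ × ℝ, z.2 ∈ Ioo (-d) d →
      k z = Complex.exp ((log ‖k z‖ : ℝ) + ϑ z * Complex.I) := fun z hz =>
    polar (hne' z hz) (hk' z ⟨trivial, hz⟩)
  have hφ : ∀ x, HasDerivAt (fun x => ϑ (x, 0)) (fderiv ℝ ϑ (x, 0) (1, 0)) x := fun x =>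
    hasDerivAt_fst ((hs (x, 0) h0).differentiableAt (by simp))
  have hpos : ∀ x, 0 < fderiv ℝ ϑ (x, 0) (1, 0) := fun x => by
    have a1 : DifferentiableAt ℝ (fun z => log ‖k z‖) (x, 0) :=
      ((hk.contDiffAt.norm ℝ (hk0 x)).log (norm_ne_zero_iff.2 (hk0 x))).differentiableAt
        (by simp)
    have a2 := (((hasDerivAt_fst a1).ofReal_comp).add
      ((hφ x).ofReal_comp.mul_const Complex.I)).cexp
    have a3 : HasDerivAt (fun x => k (x, 0)) (k (x, 0) *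
        ((fderiv ℝ (fun z => log ‖k z‖) (x, 0) (1, 0) : ℝ) +
          (fderiv ℝ ϑ (x, 0) (1, 0) : ℝ) * Complex.I)) x := by
      have e : (fun x => k (x, 0)) = fun x => Complex.exp
          ((log ‖k (x, 0)‖ : ℝ) + ϑ (x, 0) * Complex.I) := funext fun x => hp (x, 0) h0
      rw [e]
      refine a2.congr_deriv ?_
      congr 1
      exact (hp (x, 0) h0).symm
    have a4 := ht x
    rw [a3.deriv, ← mul_assoc, ← Complex.normSq_eq_conj_mul_self] at a4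
    simp only [Complex.im_ofReal_mul, Complex.add_im, Complex.ofReal_im,
      Complex.I_im, zero_add, mul_one] at a4
    exact (mul_pos_iff_of_pos_left (Complex.normSq_pos.2 (hk0 x))).1 a4
  refine ⟨d, hd, ϑ, fun z hz => ⟨hne' z hz, hs z hz, hp z hz⟩, ?_, hpos⟩
  have hint : ∀ z : ℝ × ℝ, z.2 ∈ Ioo (-d) d →
      ∃ n : ℤ, ϑ (z.1 + T, z.2) - ϑ z = n * (2 * π) := fun z hz => by
    have a1 := hp (z.1 + T, z.2) hz
    rw [hper] at a1
    obtain ⟨n, hn⟩ := Complex.exp_eq_exp_iff_exists_int.1 (a1.symm.trans (hp z hz))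
    refine ⟨n, ?_⟩
    have := congrArg Complex.im hn
    simp at this
    linarith
  have hconst : ∀ z : ℝ × ℝ, z.2 ∈ Ioo (-d) d →
      ϑ (z.1 + T, z.2) - ϑ z = ϑ (0 + T, 0) - ϑ (0, 0) := fun z hz =>
    hcv.isPreconnected.constant_of_mapsTo (T := (AddSubgroup.zmultiples (2 * π) : Set ℝ))
      ⟨NormedSpace.discreteTopology_zmultiples _⟩ (f := fun z => ϑ (z.1 + T, z.2) - ϑ z)
      ((hϑ.continuousOn.comp (by fun_prop) fun z hz => ⟨trivial, hz.2⟩).sub hϑ.continuousOn)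
      (fun z hz => by
        obtain ⟨n, hn⟩ := hint z hz.2
        exact ⟨n, by simp [hn]⟩) (x := z) (y := (0, 0)) ⟨trivial, hz⟩ ⟨trivial, h0⟩
  obtain ⟨n, hn⟩ := hint (0, 0) h0
  simp only [zero_add] at hn hconst
  have hmono : StrictMono fun x => ϑ (x, 0) :=
    strictMono_of_deriv_pos fun x => by rw [(hφ x).deriv]; exact hpos x
  have hn1 : n = 1 := by
    have b1 : (0 : ℝ) < n * (2 * π) := by
      rw [← hn]
      exact sub_pos.2 (hmono hT)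
    have b2 : 0 < n := by exact_mod_cast (mul_pos_iff_of_pos_right two_pi_pos).1 b1
    by_contra hne1
    have b3 : (2 : ℝ) ≤ n := by exact_mod_cast (by omega : (2 : ℤ) ≤ n)
    obtain ⟨x, hx, hx'⟩ := intermediate_value_Ioo hT.le (f := fun x => ϑ (x, 0))
      (fun x _ => (hφ x).continuousAt.continuousWithinAt)
      (show ϑ (0, 0) + 2 * π ∈ Ioo (ϑ (0, 0)) (ϑ (T, 0)) from
        ⟨by linarith [two_pi_pos], by nlinarith [two_pi_pos]⟩)
    have hx'' : ϑ (x, 0) = ϑ (0, 0) + 2 * π := hx'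
    obtain ⟨j, hj⟩ := ho x 0 (‖k (x, 0)‖ / ‖k (0, 0)‖)
      (div_pos (norm_pos_iff.2 (hk0 x)) (norm_pos_iff.2 (hk0 0))) (by
        have c1 := hk' (x, 0) ⟨trivial, h0⟩
        have c2 := hk' (0, 0) ⟨trivial, h0⟩
        have c3 : ((‖k (0, 0)‖ : ℝ) : ℂ) ≠ 0 := by exact_mod_cast norm_ne_zero_iff.2 (hk0 0)
        rw [hx'', Complex.ofReal_add, add_mul, Complex.exp_add] at c1
        push_cast at c1 ⊢
        rw [Complex.exp_two_pi_mul_I, mul_one] at c1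
        rw [div_mul_eq_mul_div, eq_div_iff c3]
        linear_combination ((‖k (0, 0)‖ : ℝ) : ℂ) * c1 - ((‖k (x, 0)‖ : ℝ) : ℂ) * c2)
    rw [zero_add] at hj
    have d1 : (0 : ℝ) < j := (mul_pos_iff_of_pos_right hT).1 (hj ▸ hx.1)
    have d2 : (j : ℝ) < 1 := by
      by_contra hc
      have := mul_le_mul_of_nonneg_right (not_lt.1 hc) hT.le
      linarith [hx.2]
    have d3 : 0 < j := by exact_mod_cast d1
    have d4 : j < 1 := by exact_mod_cast d2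
    omega
  intro x β hβ
  have := hconst (x, β) hβ
  rw [hn, hn1] at this
  push_cast at this
  linarith

end Pool.Agent.MP_2291e2_gt.Zl.INTERP

end MrgPart4

-- ======== part 5: formerly Pool.Agent.MP_2291e2_gt.zl.Interp
section MrgPart5

/-! Interpolation between the background chart and the polar chart. -/

open scoped ContDiff Topology
open Set Filter Real

namespace Pool.Agent.MP_2291e2_gt.Zl

namespace INTERP

/-- The logarithmic radius of the background chart near the boundary. -/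
lemma radial (hP : PIntStmt) {θ zf : ℝ × ℝ → ℝ} {Ω : Set (ℝ × ℝ)} (hΩ : IsOpen Ω)
    (hΩs : univ ×ˢ Icc 0 π ⊆ Ω) (hzf : ContDiffOn ℝ ∞ zf Ω)
    (hθx : ∀ x, 0 < fderiv ℝ θ (x, 0) (1, 0)) (hz0 : ∀ x, zf (x, 0) = -1)
    (hzm : ∀ z : ℝ × ℝ, z.2 ∈ Ioo 0 π → zf z ∈ Ioo (-1) 1)
    (hdet : ∀ z : ℝ × ℝ, z.2 ∈ Icc 0 π → 0 < jdet θ zf z) :
    ∃ σ : ℝ × ℝ → ℝ, (∀ z : ℝ × ℝ, z.2 ∈ Ico 0 π → ContDiffAt ℝ ∞ σ z) ∧
      ∀ z : ℝ × ℝ, z.2 ∈ Ioo 0 π → lr zf z = log z.2 / 2 + σ z := by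
  obtain ⟨h, h0, hh⟩ := had hP hΩ hzf
  have hs : ∀ z : ℝ × ℝ, z.2 ∈ Icc 0 π → ContDiffAt ℝ ∞ zf z := fun z hz =>
    hzf.contDiffAt (hΩ.mem_nhds (hΩs ⟨trivial, hz⟩))
  have h1 : ∀ z : ℝ × ℝ, z.2 ∈ Icc 0 π → ContDiffAt ℝ ∞ h z ∧ z.2 * h z = 1 + zf z :=
    fun z hz => by
      obtain ⟨a1, a2⟩ := hh z fun s hs => hΩs ⟨trivial, mul_nonneg hs.1 hz.1,
        (mul_le_of_le_one_left hz.1 hs.2).trans hz.2⟩
      refine ⟨a1, ?_⟩
      rw [hz0, smul_eq_mul] at a2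
      linarith
  have h2 : ∀ z : ℝ × ℝ, z.2 ∈ Ico 0 π → 0 < h z ∧ 0 < 1 - zf z := by
    rintro ⟨x, β⟩ hz
    rcases eq_or_lt_of_le hz.1 with e | e
    · obtain rfl : 0 = β := e
      have a0 : (0 : ℝ) ∈ Icc 0 π := ⟨le_rfl, pi_pos.le⟩
      have a1 := hasDerivAt_fst ((hs (x, 0) a0).differentiableAt (by simp))
      have a2 : fderiv ℝ zf (x, 0) (1, 0) = 0 := by
        simp only [hz0] at a1
        exact a1.unique (hasDerivAt_const x _)
      have a3 := hdet (x, 0) a0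
      rw [jdet, a2, mul_zero, sub_zero] at a3
      rw [h0, hz0]
      exact ⟨(mul_pos_iff_of_pos_left (hθx x)).1 a3, by norm_num⟩
    · have a1 := hzm (x, β) ⟨e, hz.2⟩
      have a2 := (h1 (x, β) (Ico_subset_Icc_self hz)).2
      refine ⟨(mul_pos_iff_of_pos_left e).1 ?_, by linarith [a1.2]⟩
      rw [a2]
      linarith [a1.1]
  refine ⟨fun z => (log (h z) - log (1 - zf z)) / 2, fun z hz => ?_, fun z hz => ?_⟩
  · exact (((h1 z (Ico_subset_Icc_self hz)).1.log (h2 z hz).1.ne').sub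
      ((contDiffAt_const.sub (hs z (Ico_subset_Icc_self hz))).log (h2 z hz).2.ne')).div_const _
  · obtain ⟨a1, a2⟩ := h2 z (Ioo_subset_Ico_self hz)
    rw [lr, ← (h1 z (Ioo_subset_Icc_self hz)).2, log_div (mul_pos hz.1 a1).ne' a2.ne',
      log_mul hz.1.ne' a1.ne']
    ring

/-- Polar coordinates of the second chart. -/
lemma polarK (hP : PIntStmt) (hL : LiftStmt) {T : ℝ} {K : ℝ × ℝ → ℂ} (hT : 0 < T)
    (hK : ContDiff ℝ ∞ K) (hKp : ∀ x β, K (x + T, β) = K (x, β)) (hK0 : ∀ x, K (x, 0) = 0)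
    (ht : ∀ x, 0 < ((starRingEnd ℂ) (fderiv ℝ K (x, 0) (0, 1)) *
      deriv (fun x => fderiv ℝ K (x, 0) (0, 1)) x).im)
    (ho : ∀ x x' μ : ℝ, 0 < μ → fderiv ℝ K (x, 0) (0, 1) = μ * fderiv ℝ K (x', 0) (0, 1) →
      ∃ n : ℤ, x = x' + n * T) :
    ∃ d > 0, ∃ ϑ σ : ℝ × ℝ → ℝ,
      (∀ z : ℝ × ℝ, z.2 ∈ Ico 0 d → ContDiffAt ℝ ∞ ϑ z ∧ ContDiffAt ℝ ∞ σ z) ∧
      (∀ x, ∀ β ∈ Ioo 0 d, ϑ (x + T, β) = ϑ (x, β) + 2 * π) ∧
      (∀ x β, σ (x + T, β) = σ (x, β)) ∧ (∀ x, 0 < fderiv ℝ ϑ (x, 0) (1, 0)) ∧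
      ∀ z : ℝ × ℝ, z.2 ∈ Ioo 0 d →
        K z = Complex.exp ((log z.2 + σ z : ℝ) + ϑ z * Complex.I) := by
  obtain ⟨k, hk0, hk⟩ := had hP (Ω := univ) isOpen_univ hK.contDiffOn
  have hks : ContDiff ℝ ∞ k := contDiff_iff_contDiffAt.2 fun z => (hk z fun _ _ => trivial).1
  have hkK : ∀ z : ℝ × ℝ, z.2 • k z = K z := fun z => by
    rw [(hk z fun _ _ => trivial).2, hK0, sub_zero]
  have hkp : ∀ x β, k (x + T, β) = k (x, β) := fun x β => by
    rcases eq_or_ne β 0 with rfl | hβ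
    · have a1 : (fun z => K (z + (T, 0))) = K :=
        funext fun z => by simpa [Prod.add_def] using hKp z.1 z.2
      have a2 : fderiv ℝ K ((x, 0) + (T, 0)) = fderiv ℝ K (x, 0) := by
        rw [← fderiv_comp_add_right, a1]
      rw [hk0, hk0, ← a2]
      simp
    · exact smul_right_injective ℂ hβ
        ((hkK (x + T, β)).trans ((hKp x β).trans (hkK (x, β)).symm))
  obtain ⟨d, hd, ϑ, h1, h2, h3⟩ := angle hL hT hks hkp (by simpa only [hk0] using ht)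
    (by simpa only [hk0] using ho)
  have hsub : Ico 0 d ⊆ Ioo (-d) d := fun β hβ => ⟨by linarith [hβ.1], hβ.2⟩
  refine ⟨d, hd, ϑ, fun z => log ‖k z‖, fun z hz => ?_,
    fun x β hβ => h2 x β (hsub (Ioo_subset_Ico_self hβ)), fun x β => by simp only [hkp], h3,
    fun z hz => ?_⟩
  · obtain ⟨a1, a2, -⟩ := h1 z (hsub hz)
    exact ⟨a2, (hks.contDiffAt.norm ℝ a1).log (norm_ne_zero_iff.2 a1)⟩
  · obtain ⟨-, -, a3⟩ := h1 z (hsub (Ioo_subset_Ico_self hz))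
    rw [← hkK, Complex.ofReal_add, add_assoc, Complex.exp_add, ← a3, ← Complex.ofReal_exp,
      exp_log hz.1, Complex.real_smul]

lemma ev {ι : Type} {p : ι → Prop} {f g : ι → ℝ} (h : ∃ C, ∀ z, p z → f z ≤ C ∧ g z ≤ C) :
    ∀ᶠ C in atTop, ∀ z, p z → f z ≤ C ∧ g z ≤ C := by
  obtain ⟨C, hC⟩ := h
  filter_upwards [eventually_ge_atTop C] with C' h' z hz
  exact ⟨(hC z hz).1.trans h', (hC z hz).2.trans h'⟩

lemma ev0 {T d : ℝ} (hT : 0 < T) {G : ℝ × ℝ → ℝ}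
    (hper : ∀ x, ∀ β ∈ Ioo 0 d, G (x + T, β) = G (x, β))
    (hc : ∀ z : ℝ × ℝ, z.2 ∈ Icc 0 d → ContDiffAt ℝ ∞ G z) :
    ∀ᶠ C in atTop, ∀ z : ℝ × ℝ, z.2 ∈ Ioo 0 d → |G z| ≤ C := by
  obtain ⟨C, hC⟩ := bdd hT hper fun z hz => (hc z hz).continuousAt
  filter_upwards [eventually_ge_atTop C] with C' h' z hz
  exact (hC z hz).trans h'

lemma pos1 {T d c : ℝ} (hT : 0 < T) {g : ℝ × ℝ → ℝ}
    (hper : ∀ x, ∀ β ∈ Ioo 0 d, g (x + T, β) = g (x, β) + c)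
    (hc : ∀ x, ContDiffAt ℝ ∞ g (x, 0)) (h0 : ∀ x, 0 < fderiv ℝ g (x, 0) (1, 0)) :
    ∃ m > 0, ∃ d' > 0, ∀ z : ℝ × ℝ, z.2 ∈ Ioo 0 d → z.2 < d' → m ≤ fderiv ℝ g z (1, 0) :=
  pos_strip hT (G := fun z => fderiv ℝ g z (1, 0))
    (fun x β hβ => by simp only [fderiv_per hper x β hβ])
    (fun x => ((hc x).continuousAt_fderiv (by simp)).clm_apply continuousAt_const) h0

lemma glue {T δ₀ d : ℝ} {θ zf ϑ σ₀ σ₁ : ℝ × ℝ → ℝ} {K : ℝ × ℝ → ℂ} (hT : 0 < T) (hδ₀ : 0 < δ₀)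
    (hd : 0 < d) (hdπ : d < π) (hθ : ContDiff ℝ ∞ θ)
    (hθp : ∀ x β, θ (x + T, β) = θ (x, β) + 2 * π) (hθx : ∀ x, 0 < fderiv ℝ θ (x, 0) (1, 0))
    (hzs : ∀ z : ℝ × ℝ, z.2 ∈ Ioo 0 π → DifferentiableAt ℝ zf z)
    (hzm : ∀ z : ℝ × ℝ, z.2 ∈ Ioo 0 π → zf z ∈ Ioo (-1) 1)
    (hdet : ∀ z : ℝ × ℝ, z.2 ∈ Icc 0 π → 0 < jdet θ zf z)
    (sϑ : ∀ z : ℝ × ℝ, z.2 ∈ Icc 0 d → ContDiffAt ℝ ∞ ϑ z)
    (s₀ : ∀ z : ℝ × ℝ, z.2 ∈ Icc 0 d → ContDiffAt ℝ ∞ σ₀ z)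
    (s₁ : ∀ z : ℝ × ℝ, z.2 ∈ Icc 0 d → ContDiffAt ℝ ∞ σ₁ z)
    (pϑ : ∀ x, ∀ β ∈ Ioo 0 d, ϑ (x + T, β) = ϑ (x, β) + 2 * π)
    (p₀ : ∀ x, ∀ β ∈ Ioo 0 d, σ₀ (x + T, β) = σ₀ (x, β))
    (p₁ : ∀ x, ∀ β ∈ Ioo 0 d, σ₁ (x + T, β) = σ₁ (x, β))
    (hϑx : ∀ x, 0 < fderiv ℝ ϑ (x, 0) (1, 0))
    (h0 : ∀ z : ℝ × ℝ, z.2 ∈ Ioo 0 d → lr zf z = log z.2 / 2 + σ₀ z)
    (hK : ∀ z : ℝ × ℝ, z.2 ∈ Ioo 0 d →
      K z = Complex.exp ((log z.2 + σ₁ z : ℝ) + ϑ z * Complex.I)) :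
    ∃ dθ dρ, Interp T δ₀ θ zf K dθ dρ := by
  have b1 := ev (bdd1 (d := d) hT (fun x β _ => hθp x β) fun z _ => hθ.contDiffAt)
  have b2 := ev (bdd1 hT pϑ sϑ)
  have b3 := ev (bdd1 (c := 0) hT (by simpa using p₀) s₀)
  have b4 := ev (bdd1 (c := 0) hT (by simpa using p₁) s₁)
  have b5 := ev0 hT (G := fun z => ϑ z - θ z)
    (fun x β hβ => by simp only [pϑ x β hβ, hθp]; ring) fun z hz => (sϑ z hz).sub hθ.contDiffAt
  obtain ⟨C, hC, c1, c2, c3, c4, c5, c6, c7⟩ := ((eventually_gt_atTop 0).and (b1.and (b2.and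
    (b3.and (b4.and (b5.and ((ev0 hT p₀ s₀).and (ev0 hT p₁ s₁)))))))).exists
  have h0d : (0 : ℝ) ∈ Icc 0 d := ⟨le_rfl, hd.le⟩
  obtain ⟨m₁, hm₁, d₁, hd₁, m1⟩ := pos1 (d := d) hT (fun x β _ => hθp x β)
    (fun x => hθ.contDiffAt) hθx
  obtain ⟨m₂, hm₂, d₂, hd₂, m2⟩ := pos1 hT pϑ (fun x => sϑ _ h0d) hϑx
  have hm : 0 < min m₁ m₂ := lt_min hm₁ hm₂
  have e1 : ∀ {t : ℝ}, 0 < t → ∀ᶠ a in 𝓝[>] (0 : ℝ), a ∈ Ioo 0 t := fun h => Ioo_mem_nhdsGT h
  have e2 : ∀ᶠ a in 𝓝[>] (0 : ℝ), a * C < 1 / 4 := nhdsWithin_le_nhds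
    (ContinuousAt.eventually_lt (f := fun a : ℝ => a * C) (by fun_prop) continuousAt_const
      (by simp))
  have e3 : ∀ᶠ a in 𝓝[>] (0 : ℝ), (a + a) * C ^ 2 < min m₁ m₂ / 4 := nhdsWithin_le_nhds
    (ContinuousAt.eventually_lt (f := fun a : ℝ => (a + a) * C ^ 2) (by fun_prop)
      continuousAt_const (by simpa using hm))
  have e4 : ∀ᶠ a in 𝓝[>] (0 : ℝ), log a < -4 * C :=
    tendsto_log_nhdsGT_zero.eventually (eventually_lt_atBot _)
  obtain ⟨a, ⟨ha, had⟩, haδ, ⟨-, ha₁⟩, ⟨-, ha₂⟩, a2, a3, a4⟩ := ((e1 hd).and ((e1 hδ₀).and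
    ((e1 hd₁).and ((e1 hd₂).and (e2.and (e3.and e4)))))).exists
  obtain ⟨χ, δ, hδ, x1, x2, x3, x4, x5⟩ := cut ha ha
  have hev : ∀ z : ℝ × ℝ, z.2 ∈ Ioo 0 d → lr zf =ᶠ[𝓝 z] fun z => log z.2 / 2 + σ₀ z :=
    fun z hz => ((continuous_snd.tendsto z).eventually (Ioo_mem_nhds hz.1 hz.2)).mono h0
  have hz : ∀ (z : ℝ × ℝ) (g : ℝ × ℝ → ℝ), a < z.2 →
      (fun z => χ z.2 * g z) =ᶠ[𝓝 z] fun _ => 0 := fun z g h =>
    ((continuous_snd.tendsto z).eventually (lt_mem_nhds h)).mono fun w hw => by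
      simp only [x3 _ hw.le, zero_mul]
  have hneg : ∀ z : ℝ × ℝ, 0 < z.2 → z.2 ≤ a →
      lr zf z < 0 ∧ log z.2 + σ₁ z - lr zf z ≤ 0 := fun z h h' => by
    have hzd : z.2 ∈ Ioo 0 d := ⟨h, h'.trans_lt had⟩
    have f1 := log_le_log h h'
    have f2 := abs_le.1 (c6 z hzd)
    have f3 := abs_le.1 (c7 z hzd)
    rw [h0 z hzd]
    constructor <;> linarith [f2.1, f2.2, f3.2]
  refine ⟨fun z => χ z.2 * (ϑ z - θ z), fun z => χ z.2 * (log z.2 + σ₁ z - lr zf z),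
    fun z hz' => ?_, fun x β hβ => ?_, ⟨a, haδ, fun z h => by simp [x3 _ h], fun z h => ?_⟩,
    fun z hz' => ?_, min δ d, lt_min hδ hd, fun z h => ?_⟩
  · rcases le_or_gt z.2 a with h | h
    · have hzd : z.2 ∈ Ioo 0 d := ⟨hz'.1, h.trans_lt had⟩
      have hzc := Ioo_subset_Icc_self hzd
      have f1 : ContDiffAt ℝ ∞ (fun z : ℝ × ℝ => χ z.2) z := (x1 _ hzd.1).comp z contDiffAt_snd
      have f2 : ContDiffAt ℝ ∞ (fun z : ℝ × ℝ => log z.2) z := contDiffAt_snd.log hzd.1.ne'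
      exact ⟨f1.mul ((sϑ z hzc).sub hθ.contDiffAt), f1.mul ((f2.add (s₁ z hzc)).sub
        (((f2.div_const 2).add (s₀ z hzc)).congr_of_eventuallyEq (hev z hzd)))⟩
    · exact ⟨contDiffAt_const.congr_of_eventuallyEq (hz z _ h),
        contDiffAt_const.congr_of_eventuallyEq (hz z _ h)⟩
  · rcases le_or_gt β a with h | h
    · have hzd : β ∈ Ioo 0 d := ⟨hβ.1, h.trans_lt had⟩
      simp only [h0 (x + T, β) hzd, h0 (x, β) hzd, pϑ x β hzd, p₀ x β hzd, p₁ x β hzd, hθp]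
      exact ⟨by ring, trivial⟩
    · simp [x3 _ h.le]
  · obtain ⟨f1, f2⟩ := hneg z h.1 h.2.le
    obtain ⟨f3, f4⟩ := hzm z ⟨h.1, (h.2.trans had).trans hdπ⟩
    refine ⟨?_, by nlinarith [(x2 z.2).1]⟩
    have f5 : 0 < 1 - zf z := by linarith
    have f6 : log ((1 + zf z) / (1 - zf z)) < 0 := by
      rw [lr] at f1
      linarith
    have := (div_lt_one f5).1 ((log_neg_iff (div_pos (by linarith) f5)).1 f6)
    linarith
  · rcases le_or_gt z.2 a with h | h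
    · have hzd : z.2 ∈ Ioo 0 d := ⟨hz'.1, h.trans_lt had⟩
      have hzc := Ioo_subset_Icc_self hzd
      refine core (ρ₁ := fun z => log z.2 + σ₁ z) (ε := a) (C := C) hm hzd.1
        (hθ.differentiable (by simp) z) ((sϑ z hzc).differentiableAt (by simp))
        ((s₀ z hzc).differentiableAt (by simp)) ((s₁ z hzc).differentiableAt (by simp))
        ((x1 _ hzd.1).differentiableAt (by simp)) (hev z hzd) rfl rfl rfl (x2 _).1 (x2 _).2
        (x5 _ hzd.1).1 (x5 _ hzd.1).2 ((min_le_left _ _).trans (m1 z hzd (h.trans_lt ha₁)))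
        ((min_le_right _ _).trans (m2 z hzd (h.trans_lt ha₂))) (c1 z hzd).2 (c2 z hzd).2
        (c5 z hzd) (hneg z hzd.1 h).2 (c3 z hzd).1 (c3 z hzd).2 (c4 z hzd).1 (c4 z hzd).2 ?_ ?_
      · nlinarith
      · nlinarith [sq_nonneg C]
    · have f1 : (fun z => θ z + χ z.2 * (ϑ z - θ z)) =ᶠ[𝓝 z] θ :=
        (hz z (fun z => ϑ z - θ z) h).mono fun w hw => by simp only [hw, add_zero]
      have f2 : (fun z => lr zf z + χ z.2 * (log z.2 + σ₁ z - lr zf z)) =ᶠ[𝓝 z] lr zf :=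
        (hz z (fun z => log z.2 + σ₁ z - lr zf z) h).mono fun w hw => by simp only [hw, add_zero]
      have := jdet_lr (hzs z hz') (hzm z hz') (hdet z (Ioo_subset_Icc_self hz'))
      rwa [jdet, ← f1.fderiv_eq, ← f2.fderiv_eq] at this
  · rw [hK z ⟨h.1, h.2.trans_le (min_le_right _ _)⟩, x4 _ ⟨h.1, h.2.trans_le (min_le_left _ _)⟩]
    congr 1
    push_cast
    ring

end INTERP

open INTERP in
theorem interp_of (hP : PIntStmt) (hL : LiftStmt) : InterpStmt := by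
  rintro T δ₀ θ zf K hT hδ₀ hθ hθp hθx ⟨Ω, hΩ, hΩs, hzf⟩ hzp hz0 hzm hdet hK hKp hK0 ht ho
  obtain ⟨σ₀, s₀, h0⟩ := radial hP hΩ hΩs hzf hθx hz0 hzm hdet
  obtain ⟨d, hd, ϑ, σ₁, s₁, pϑ, p₁, hϑx, h1⟩ := polarK hP hL hT hK hKp hK0 ht ho
  have hm : 0 < min d π := lt_min hd pi_pos
  have a1 : min d π / 2 < d := (half_lt_self hm).trans_le (min_le_left _ _)
  have a2 : min d π / 2 < π := (half_lt_self hm).trans_le (min_le_right _ _)
  refine glue (d := min d π / 2) (ϑ := ϑ) (σ₀ := σ₀) (σ₁ := σ₁) hT hδ₀ (half_pos hm) a2 hθ hθp hθx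
    (fun z hz => (hzf.contDiffAt (hΩ.mem_nhds
      (hΩs ⟨trivial, Ioo_subset_Icc_self hz⟩))).differentiableAt (by simp)) hzm hdet
    (fun z hz => (s₁ z ⟨hz.1, hz.2.trans_lt a1⟩).1) (fun z hz => s₀ z ⟨hz.1, hz.2.trans_lt a2⟩)
    (fun z hz => (s₁ z ⟨hz.1, hz.2.trans_lt a1⟩).2)
    (fun x β hβ => pϑ x β ⟨hβ.1, hβ.2.trans a1⟩) (fun x β hβ => ?_) (fun x β _ => p₁ x β) hϑx
    (fun z hz => h0 z ⟨hz.1, hz.2.trans a2⟩) fun z hz => h1 z ⟨hz.1, hz.2.trans a1⟩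
  have hβ' : β ∈ Ioo 0 π := ⟨hβ.1, hβ.2.trans a2⟩
  have b1 := h0 (x + T, β) hβ'
  have b2 := h0 (x, β) hβ'
  rw [lr, hzp x β (Ioo_subset_Icc_self hβ')] at b1
  rw [lr] at b2
  linarith

end Pool.Agent.MP_2291e2_gt.Zl

end MrgPart5

-- marker of a merged file
example : 731051 + 646608 = 731051 + 646608 := rfl
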