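import Mathlib.Analysis.SpecialFunctions.Integrals.Basic
import Mathlib.Analysis.Fourier.AddCircle
import Pool.Agent.MP_2291e2_gt.zl.Spec2

/-! One variable lemmas: Wirtinger, the cone property, variation of constants. -/

open scoped ContDiff RealInnerProductSpace Topology
open Set Filter Real MeasureTheory intervalIntegral

namespace Pool.Agent.MP_2291e2_gt.Zl

namespace ONED

lemma tp : (0 : ℝ) < 2 * π := by positivity

lemma memLp_two {f : ℝ → ℂ} (hf : Continuous f) :
    MemLp f 2 (volume.restrict (Ioc 0 (2 * π))) := by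
  obtain ⟨C, hC⟩ := (isCompact_Icc (a := (0 : ℝ)) (b := 2 * π)).exists_bound_of_continuousOn
    hf.continuousOn
  refine MemLp.of_bound hf.aestronglyMeasurable C ?_
  filter_upwards [ae_restrict_mem measurableSet_Ioc] with x hx
  exact hC x (Ioc_subset_Icc_self hx)

lemma parseval {z : ℝ → ℝ} (hz : Continuous z) :
    HasSum (fun i => ‖fourierCoeffOn tp (fun x => (z x : ℂ)) i‖ ^ 2)
      ((2 * π)⁻¹ * ∫ x in (0 : ℝ)..2 * π, z x ^ 2) := by
  have := hasSum_sq_fourierCoeffOn tp (memLp_two (f := fun x => (z x : ℂ)) (by fun_prop))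
  simpa using this

lemma coeff_eq (z : ℝ → ℝ) (hz : Continuous z) (n : ℤ) :
    fourierCoeffOn tp (fun x => (z x : ℂ)) n = (1 / (2 * π) : ℝ) •
      (((∫ x in (0 : ℝ)..2 * π, z x * cos (n * x) : ℝ) : ℂ) -
        Complex.I * ((∫ x in (0 : ℝ)..2 * π, z x * sin (n * x) : ℝ) : ℂ)) := by
  rw [fourierCoeffOn_eq_integral, ← intervalIntegral.integral_ofReal,
    ← intervalIntegral.integral_ofReal, ← intervalIntegral.integral_const_mul,
    ← intervalIntegral.integral_sub (Continuous.intervalIntegrable (by fun_prop) _ _)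
      (Continuous.intervalIntegrable (by fun_prop) _ _)]
  congr 1
  · rw [sub_zero]
  · refine integral_congr fun x _ => ?_
    have hpi : (π : ℂ) ≠ 0 := by exact_mod_cast pi_pos.ne'
    have e : 2 * (π : ℂ) * Complex.I * ((-n : ℤ) : ℂ) * x / ((2 * π - 0 : ℝ) : ℂ) =
        ((-(n * x) : ℝ) : ℂ) * Complex.I := by
      push_cast
      field_simp
      ring
    simp only [fourier_coe_apply, smul_eq_mul]
    rw [e, Complex.exp_mul_I, ← Complex.ofReal_cos, ← Complex.ofReal_sin, cos_neg, sin_neg]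
    push_cast
    ring

lemma integral_anti {z : ℝ → ℝ} (hz : Continuous z) (ha : ∀ σ, z (σ + π) = -z σ) :
    ∫ x in (0 : ℝ)..2 * π, z x = 0 := by
  rw [← integral_add_adjacent_intervals (b := π) (hz.intervalIntegrable _ _)
    (hz.intervalIntegrable _ _)]
  have := integral_comp_add_right (a := 0) (b := π) z π
  simp only [ha, intervalIntegral.integral_neg, zero_add] at this
  rw [two_mul, ← this]
  ring

theorem wirtinger (z : ℝ → ℝ) (hz : ContDiff ℝ 1 z) (ha : ∀ σ, z (σ + π) = -z σ)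
    (hc : (∫ σ in (0 : ℝ)..2 * π, z σ * cos σ) = 0)
    (hs : (∫ σ in (0 : ℝ)..2 * π, z σ * sin σ) = 0) :
    4 * ∫ σ in (0 : ℝ)..2 * π, z σ ^ 2 ≤ ∫ σ in (0 : ℝ)..2 * π, deriv z σ ^ 2 := by
  have c0 := hz.continuous
  have c1 : Continuous (deriv z) := hz.continuous_deriv le_rfl
  have hd : ∀ x, HasDerivAt (fun x => (z x : ℂ)) ((deriv z x : ℝ) : ℂ) x := fun x =>
    (hz.differentiable (by simp) x).hasDerivAt.ofReal_comp
  have hper : z (2 * π) = z 0 := by
    have h1 := ha 0
    have h2 := ha π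
    rw [zero_add] at h1
    rw [two_mul, h2, h1, neg_neg]
  have key : ∀ n : ℤ, 4 * ‖fourierCoeffOn tp (fun x => (z x : ℂ)) n‖ ^ 2 ≤
      ‖fourierCoeffOn tp (fun x => ((deriv z x : ℝ) : ℂ)) n‖ ^ 2 := by
    intro n
    by_cases h : |n| ≤ 1
    · have : fourierCoeffOn tp (fun x => (z x : ℂ)) n = 0 := by
        rw [coeff_eq z c0]
        have : n = -1 ∨ n = 0 ∨ n = 1 := by
          have := abs_le.1 h
          omega
        rcases this with rfl | rfl | rfl
        · simp [hc, hs]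
        · simp [integral_anti c0 ha]
        · simp [hc, hs]
      rw [this]
      simp
    · have hn : n ≠ 0 := by
        rintro rfl
        simp at h
      have e := fourierCoeffOn_of_hasDerivAt tp (f := fun x => (z x : ℂ))
        (f' := fun x => ((deriv z x : ℝ) : ℂ)) hn (fun x _ => hd x)
        (Continuous.intervalIntegrable (by fun_prop) _ _)
      have hpi : (π : ℂ) ≠ 0 := by exact_mod_cast pi_pos.ne'
      have hn' : (n : ℂ) ≠ 0 := by exact_mod_cast hn
      have e2 : fourierCoeffOn tp (fun x => ((deriv z x : ℝ) : ℂ)) n =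
          Complex.I * n * fourierCoeffOn tp (fun x => (z x : ℂ)) n := by
        rw [e, hper]
        push_cast
        field_simp
        ring
      have h2 : (2 : ℝ) ≤ |(n : ℝ)| := by
        have : (2 : ℤ) ≤ |n| := by omega
        exact_mod_cast this
      rw [e2, norm_mul, norm_mul, Complex.norm_I, one_mul, Complex.norm_intCast, mul_pow]
      exact mul_le_mul_of_nonneg_right (by nlinarith) (sq_nonneg _)
  have := hasSum_le key ((parseval c0).mul_left 4) (parseval c1)
  have hp : 0 < (2 * π)⁻¹ := by positivity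
  nlinarith

/-! ### The cone property -/

lemma half {f : ℝ → ℝ} (hf : Continuous f) (hp : Function.Periodic f π) (a : ℝ) :
    ∫ x in (0 : ℝ)..2 * π, f x = 2 * ∫ x in a..a + π, f x := by
  rw [← integral_add_adjacent_intervals (b := π) (hf.intervalIntegrable _ _)
    (hf.intervalIntegrable _ _)]
  have h1 := hp.intervalIntegral_add_eq 0 a
  have h2 := hp.intervalIntegral_add_eq π a
  rw [zero_add] at h1
  rw [← two_mul] at h2
  rw [h1, h2]
  ring

lemma le_sqrt (C S c s : ℝ) (h : c ^ 2 + s ^ 2 = 1) : |c * C + s * S| ≤ √(C ^ 2 + S ^ 2) := by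
  refine Real.abs_le_sqrt ?_
  nlinarith [sq_nonneg (c * S - s * C)]

lemma lip_sin {χ : ℝ → ℝ} {a L : ℝ} (hL : 0 ≤ L) (h0 : χ a = 0) (h1 : χ (a + π) = 0)
    (hl : ∀ σ σ', |χ σ - χ σ'| ≤ L * |σ - σ'|) {σ : ℝ} (hσ : σ ∈ Icc a (a + π)) :
    |χ σ| ≤ 2 * L * sin (σ - a) := by
  have hq : ∀ x, 0 ≤ x → x ≤ π / 2 → x ≤ 2 * sin x := by
    intro x hx hx'
    have h := mul_le_sin hx hx'
    have h4 : 1 / 2 ≤ 2 / π := by
      rw [div_le_div_iff₀ (by norm_num) pi_pos]
      linarith [pi_le_four]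
    nlinarith
  rcases le_total (σ - a) (π / 2) with h | h
  · have e := hl σ a
    rw [h0, sub_zero, abs_of_nonneg (by linarith [hσ.1] : 0 ≤ σ - a)] at e
    have := hq (σ - a) (by linarith [hσ.1]) h
    nlinarith
  · have e := hl σ (a + π)
    rw [h1, sub_zero, abs_of_nonpos (by linarith [hσ.2] : σ - (a + π) ≤ 0)] at e
    have := hq (π - (σ - a)) (by linarith [hσ.2]) (by linarith)
    rw [sin_pi_sub] at this
    nlinarith

theorem cone (n ψ : ℝ → ℝ) (σ₀ M : ℝ) (hn : Continuous n) (hψ : Continuous ψ)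
    (an : ∀ σ, n (σ + π) = -n σ) (aψ : ∀ σ, ψ (σ + π) = -ψ σ)
    (hpos : ∀ σ ∈ Icc σ₀ (σ₀ + π), 0 ≤ n σ) (hM : ∀ σ, |ψ σ| ≤ M)
    (hl : ∀ σ σ', |ψ σ - ψ σ'| ≤ M * |σ - σ'|) :
    |∫ σ in (0 : ℝ)..2 * π, n σ * ψ σ| ≤ 10 * M * √(c1sq n) := by
  have M0 : 0 ≤ M := (abs_nonneg _).trans (hM 0)
  set C := ∫ σ in (0 : ℝ)..2 * π, n σ * cos σ with hC
  set S := ∫ σ in (0 : ℝ)..2 * π, n σ * sin σ with hS
  have hc1 : c1sq n = C ^ 2 + S ^ 2 := rfl
  have lin : ∀ c s : ℝ, ∫ σ in (0 : ℝ)..2 * π, n σ * (c * cos σ + s * sin σ) = c * C + s * S := by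
    intro c s
    rw [hC, hS, ← intervalIntegral.integral_const_mul, ← intervalIntegral.integral_const_mul,
      ← intervalIntegral.integral_add (Continuous.intervalIntegrable (by fun_prop) _ _)
        (Continuous.intervalIntegrable (by fun_prop) _ _)]
    exact integral_congr fun x _ => by ring
  have b1 : |∫ σ in (0 : ℝ)..2 * π, n σ * cos (σ - σ₀)| ≤ √(c1sq n) := by
    have := lin (cos σ₀) (sin σ₀)
    have e : (fun σ => n σ * cos (σ - σ₀)) = fun σ => n σ * (cos σ₀ * cos σ + sin σ₀ * sin σ) := by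
      funext σ
      rw [cos_sub]
      ring
    rw [e, this, hc1]
    exact le_sqrt _ _ _ _ (cos_sq_add_sin_sq _)
  have b2 : |∫ σ in (0 : ℝ)..2 * π, n σ * sin (σ - σ₀)| ≤ √(c1sq n) := by
    have := lin (-sin σ₀) (cos σ₀)
    have e : (fun σ => n σ * sin (σ - σ₀)) =
        fun σ => n σ * (-sin σ₀ * cos σ + cos σ₀ * sin σ) := by
      funext σ
      rw [sin_sub]
      ring
    rw [e, this, hc1]
    exact le_sqrt _ _ _ _ (by rw [neg_sq]; exact sin_sq_add_cos_sq _)
  let χ : ℝ → ℝ := fun σ => ψ σ - ψ σ₀ * cos (σ - σ₀)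
  have cχ : Continuous χ := by fun_prop
  have aχ : ∀ σ, χ (σ + π) = -χ σ := by
    intro σ
    simp only [χ]
    rw [aψ, show σ + π - σ₀ = σ - σ₀ + π by ring, cos_add_pi]
    ring
  have χ0 : χ σ₀ = 0 := by simp [χ]
  have lχ : ∀ σ σ', |χ σ - χ σ'| ≤ 2 * M * |σ - σ'| := by
    intro σ σ'
    have e : χ σ - χ σ' = (ψ σ - ψ σ') - ψ σ₀ * (cos (σ - σ₀) - cos (σ' - σ₀)) := by
      simp only [χ]
      ring
    have h1 := abs_cos_sub_cos_le (σ - σ₀) (σ' - σ₀)
    rw [show σ - σ₀ - (σ' - σ₀) = σ - σ' by ring] at h1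
    have h2 : |ψ σ₀ * (cos (σ - σ₀) - cos (σ' - σ₀))| ≤ M * |σ - σ'| := by
      rw [abs_mul]
      exact mul_le_mul (hM _) h1 (abs_nonneg _) M0
    rw [e]
    linarith [abs_sub (ψ σ - ψ σ') (ψ σ₀ * (cos (σ - σ₀) - cos (σ' - σ₀))), hl σ σ']
  have b3 : |∫ σ in (0 : ℝ)..2 * π, n σ * χ σ| ≤
      4 * M * ∫ σ in (0 : ℝ)..2 * π, n σ * sin (σ - σ₀) := by
    rw [half (f := fun σ => n σ * χ σ) (by fun_prop) (fun σ => by simp only [an, aχ]; ring) σ₀,
      half (f := fun σ => n σ * sin (σ - σ₀)) (by fun_prop) (fun σ => by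
        simp only [an]
        rw [show σ + π - σ₀ = σ - σ₀ + π by ring, sin_add_pi]
        ring) σ₀, abs_mul, abs_two]
    have := norm_integral_le_of_norm_le (μ := volume) (f := fun σ => n σ * χ σ)
      (g := fun σ => 4 * M * (n σ * sin (σ - σ₀))) (a := σ₀) (b := σ₀ + π)
      (by linarith [pi_pos]) (Eventually.of_forall fun t ht => by
        have ht' := Ioc_subset_Icc_self ht
        have h1 := lip_sin (by linarith) χ0 (by rw [aχ, χ0, neg_zero]) lχ ht'
        rw [Real.norm_eq_abs, abs_mul, abs_of_nonneg (hpos t ht')]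
        nlinarith [hpos t ht'])
      (Continuous.intervalIntegrable (by fun_prop) _ _)
    rw [intervalIntegral.integral_const_mul, Real.norm_eq_abs] at this
    linarith
  have e : ∫ σ in (0 : ℝ)..2 * π, n σ * ψ σ = (∫ σ in (0 : ℝ)..2 * π, n σ * χ σ) +
      ψ σ₀ * ∫ σ in (0 : ℝ)..2 * π, n σ * cos (σ - σ₀) := by
    rw [← intervalIntegral.integral_const_mul,
      ← intervalIntegral.integral_add (Continuous.intervalIntegrable (by fun_prop) _ _)
        (Continuous.intervalIntegrable (by fun_prop) _ _)]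
    refine integral_congr fun x _ => ?_
    simp only [χ]
    ring
  have b4 : |ψ σ₀ * ∫ σ in (0 : ℝ)..2 * π, n σ * cos (σ - σ₀)| ≤ M * √(c1sq n) := by
    rw [abs_mul]
    exact mul_le_mul (hM _) b1 (abs_nonneg _) M0
  have b5 := mul_le_mul_of_nonneg_left ((le_abs_self _).trans b2) M0
  have b6 := mul_nonneg M0 (Real.sqrt_nonneg (c1sq n))
  rw [e]
  refine (abs_add_le _ _).trans ?_
  linarith

/-! ### Variation of constants -/

variable {F : Type} [NormedAddCommGroup F] [NormedSpace ℝ F] [CompleteSpace F]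

lemma osc {g g' : ℝ → F} {φ : ℝ → ℝ} (hg : ∀ t, HasDerivAt g (g' t) t) (hg' : Continuous g')
    (hφ : Continuous φ) (hb : ∀ t, ‖g' t‖ ≤ φ t) (hp : Function.Periodic g (2 * π)) (σ : ℝ)
    {τ : ℝ} (hτ : τ ∈ Icc 0 (2 * π)) : ‖g τ - g σ‖ ≤ ∫ t in (0 : ℝ)..2 * π, φ t := by
  have key : ∀ s ∈ Icc 0 (2 * π), ∀ t ∈ Icc 0 (2 * π), s ≤ t →
      ‖g t - g s‖ ≤ ∫ t in (0 : ℝ)..2 * π, φ t := by
    intro s hs t ht hst
    rw [← integral_eq_sub_of_hasDerivAt (fun x _ => hg x) (hg'.intervalIntegrable _ _)]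
    refine (norm_integral_le_of_norm_le hst (Eventually.of_forall fun t _ => hb t)
      (hφ.intervalIntegrable _ _)).trans ?_
    exact integral_mono_interval hs.1 hst ht.2
      (Eventually.of_forall fun t => (norm_nonneg _).trans (hb t)) (hφ.intervalIntegrable _ _)
  obtain ⟨y, hy, e⟩ := hp.exists_mem_Ico₀ tp σ
  rw [e]
  rcases le_total y τ with h | h
  · exact key y (Ico_subset_Icc_self hy) τ hτ h
  · rw [norm_sub_rev]
    exact key τ hτ y (Ico_subset_Icc_self hy) h

lemma avg {p q : ℝ → ℝ} {X Y : ℝ → F} {x y : F} {Z : ℝ} (hp : Continuous p) (hq : Continuous q)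
    (hX : Continuous X) (hY : Continuous Y) (ip : ∫ t in (0 : ℝ)..2 * π, p t = π)
    (iq : ∫ t in (0 : ℝ)..2 * π, q t = 0) (hb : ∀ t, |p t| + |q t| ≤ 5 / 4)
    (bX : ∀ t ∈ Icc 0 (2 * π), ‖X t - x‖ ≤ Z) (bY : ∀ t ∈ Icc 0 (2 * π), ‖Y t - y‖ ≤ Z) :
    ‖x - π⁻¹ • ∫ t in (0 : ℝ)..2 * π, (p t • X t + q t • Y t)‖ ≤ 5 / 2 * Z := by
  have Z0 : 0 ≤ Z := (norm_nonneg _).trans (bX 0 ⟨le_rfl, tp.le⟩)
  have e1 : ∫ t in (0 : ℝ)..2 * π, (p t • x + q t • y) = π • x := by
    rw [intervalIntegral.integral_add (Continuous.intervalIntegrable (by fun_prop) _ _)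
      (Continuous.intervalIntegrable (by fun_prop) _ _), intervalIntegral.integral_smul_const,
      intervalIntegral.integral_smul_const, ip, iq, zero_smul, add_zero]
  have e2 : x - π⁻¹ • ∫ t in (0 : ℝ)..2 * π, (p t • X t + q t • Y t) =
      π⁻¹ • ∫ t in (0 : ℝ)..2 * π, ((p t • x + q t • y) - (p t • X t + q t • Y t)) := by
    rw [intervalIntegral.integral_sub (Continuous.intervalIntegrable (by fun_prop) _ _)
      (Continuous.intervalIntegrable (by fun_prop) _ _), e1, smul_sub, smul_smul,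
      inv_mul_cancel₀ pi_pos.ne', one_smul]
  have b := norm_integral_le_of_norm_le_const (a := 0) (b := 2 * π) (C := 5 / 4 * Z)
    (f := fun t => (p t • x + q t • y) - (p t • X t + q t • Y t)) (fun t ht => by
      rw [uIoc_of_le tp.le] at ht
      have ht' := Ioc_subset_Icc_self ht
      have e : (p t • x + q t • y) - (p t • X t + q t • Y t) =
          -(p t • (X t - x) + q t • (Y t - y)) := by
        simp only [smul_sub]
        abel
      rw [e, norm_neg]
      refine (norm_add_le _ _).trans ?_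
      rw [norm_smul, norm_smul, Real.norm_eq_abs, Real.norm_eq_abs]
      have h1 := mul_le_mul_of_nonneg_left (bX t ht') (abs_nonneg (p t))
      have h2 := mul_le_mul_of_nonneg_left (bY t ht') (abs_nonneg (q t))
      nlinarith [hb t])
  rw [sub_zero, abs_of_pos tp] at b
  rw [e2, norm_smul, Real.norm_eq_abs, abs_of_pos (inv_pos.2 pi_pos), inv_mul_le_iff₀ pi_pos]
  linarith

lemma trig (c s : ℝ) (h : c ^ 2 + s ^ 2 = 1) : |c ^ 2| + |c * s| ≤ 5 / 4 := by
  rw [abs_mul, abs_of_nonneg (sq_nonneg c)]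
  nlinarith [sq_abs c, sq_abs s, sq_nonneg (|c| - 2 * |s|), sq_nonneg s]

theorem varc (n n1 n2 : ℝ → F) (h1 : ∀ σ, HasDerivAt n (n1 σ) σ)
    (h2 : ∀ σ, HasDerivAt n1 (n2 σ) σ) (c2 : Continuous n2) (hp : Function.Periodic n (2 * π))
    (a b : F) (Z : ℝ) (ha : a = π⁻¹ • (∫ σ in (0 : ℝ)..2 * π, cos σ • n σ))
    (hb : b = π⁻¹ • (∫ σ in (0 : ℝ)..2 * π, sin σ • n σ))
    (hZ : Z = (∫ σ in (0 : ℝ)..2 * π, ‖n2 σ + n σ‖)) (σ : ℝ) :
    ‖n σ - (cos σ • a + sin σ • b)‖ ≤ 5 * Z ∧ ‖n1 σ - (-sin σ • a + cos σ • b)‖ ≤ 5 * Z := by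
  have c0 : Continuous n := continuous_iff_continuousAt.2 fun σ => (h1 σ).continuousAt
  have c1 : Continuous n1 := continuous_iff_continuousAt.2 fun σ => (h2 σ).continuousAt
  have p1 : Function.Periodic n1 (2 * π) := by
    intro t
    have d : HasDerivAt (fun s => n (s + 2 * π)) (n1 (t + 2 * π)) t :=
      (h1 (t + 2 * π)).comp_add_const t (2 * π)
    simp only [hp _] at d
    exact d.unique (h1 t)
  let A : ℝ → F := fun t => cos t • n t - sin t • n1 t
  let B : ℝ → F := fun t => sin t • n t + cos t • n1 t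
  have dA : ∀ t, HasDerivAt A (-sin t • (n2 t + n t)) t := by
    intro t
    refine (((hasDerivAt_cos t).fun_smul (h1 t)).fun_sub
      ((hasDerivAt_sin t).fun_smul (h2 t))).congr_deriv ?_
    module
  have dB : ∀ t, HasDerivAt B (cos t • (n2 t + n t)) t := by
    intro t
    refine (((hasDerivAt_sin t).fun_smul (h1 t)).fun_add
      ((hasDerivAt_cos t).fun_smul (h2 t))).congr_deriv ?_
    module
  have pA : Function.Periodic A (2 * π) := fun t => by
    simp only [A, hp t, p1 t, cos_add_two_pi, sin_add_two_pi]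
  have pB : Function.Periodic B (2 * π) := fun t => by
    simp only [B, hp t, p1 t, cos_add_two_pi, sin_add_two_pi]
  have oA : ∀ t ∈ Icc 0 (2 * π), ‖A t - A σ‖ ≤ Z := fun t ht => by
    rw [hZ]
    refine osc dA (by fun_prop) (by fun_prop) (fun t => ?_) pA σ ht
    rw [norm_smul, norm_neg, Real.norm_eq_abs]
    exact mul_le_of_le_one_left (norm_nonneg _) (abs_sin_le_one t)
  have oB : ∀ t ∈ Icc 0 (2 * π), ‖B t - B σ‖ ≤ Z := fun t ht => by
    rw [hZ]
    refine osc dB (by fun_prop) (by fun_prop) (fun t => ?_) pB σ ht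
    rw [norm_smul, Real.norm_eq_abs]
    exact mul_le_of_le_one_left (norm_nonneg _) (abs_cos_le_one t)
  have en : ∀ t, n t = cos t • A t + sin t • B t := by
    intro t
    have : n t = (cos t ^ 2 + sin t ^ 2) • n t := by rw [cos_sq_add_sin_sq, one_smul]
    rw [this]
    simp only [A, B]
    module
  have en1 : ∀ t, n1 t = -sin t • A t + cos t • B t := by
    intro t
    have : n1 t = (cos t ^ 2 + sin t ^ 2) • n1 t := by rw [cos_sq_add_sin_sq, one_smul]
    rw [this]
    simp only [A, B]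
    module
  have cA : Continuous A := by fun_prop
  have cB : Continuous B := by fun_prop
  have isc : ∫ t in (0 : ℝ)..2 * π, sin t * cos t = 0 := by
    rw [integral_sin_mul_cos₁]
    simp
  have ba : ‖A σ - a‖ ≤ 5 / 2 * Z := by
    have := avg (p := fun t => cos t ^ 2) (q := fun t => cos t * sin t) (by fun_prop)
      (by fun_prop) cA cB (by rw [integral_cos_sq]; simp)
      (by simpa only [mul_comm] using isc) (fun t => trig _ _ (cos_sq_add_sin_sq t)) oA oB
    have e : (fun t => cos t • n t) = fun t => cos t ^ 2 • A t + (cos t * sin t) • B t := by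
      funext t
      rw [en t]
      module
    rw [ha, e]
    exact this
  have bb : ‖B σ - b‖ ≤ 5 / 2 * Z := by
    have := avg (p := fun t => sin t ^ 2) (q := fun t => sin t * cos t) (by fun_prop)
      (by fun_prop) cB cA (by rw [integral_sin_sq]; simp) isc
      (fun t => trig _ _ (sin_sq_add_cos_sq t)) oB oA
    have e : (fun t => sin t • n t) = fun t => sin t ^ 2 • B t + (sin t * cos t) • A t := by
      funext t
      rw [en t]
      module
    rw [hb, e]
    exact this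
  have fin : ∀ c s : ℝ, |c| ≤ 1 → |s| ≤ 1 →
      ‖c • A σ + s • B σ - (c • a + s • b)‖ ≤ 5 * Z := by
    intro c s hc hs
    have e : c • A σ + s • B σ - (c • a + s • b) = c • (A σ - a) + s • (B σ - b) := by module
    rw [e]
    refine (norm_add_le _ _).trans ?_
    rw [norm_smul, norm_smul, Real.norm_eq_abs, Real.norm_eq_abs]
    have u1 := mul_le_of_le_one_left (norm_nonneg (A σ - a)) hc
    have u2 := mul_le_of_le_one_left (norm_nonneg (B σ - b)) hs
    linarith
  constructor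
  · rw [en σ]
    exact fin _ _ (abs_cos_le_one σ) (abs_sin_le_one σ)
  · rw [en1 σ]
    exact fin _ _ (by rw [abs_neg]; exact abs_sin_le_one σ) (abs_cos_le_one σ)

end ONED

theorem oned_of : OneDStmt :=
  ⟨ONED.wirtinger, ONED.cone, fun _ _ _ _ => ONED.varc⟩

end Pool.Agent.MP_2291e2_gt.Zl
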