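import Mathlib.RingTheory.Flat.TorsionFree
import Mathlib.RingTheory.SimpleRing.Principal
import Pool.Agent.MP_2291e2_gt.zl.Spec2

/-! Normalisation of families and openness of goodness. -/

open scoped ContDiff RealInnerProductSpace Topology
open Set Filter Real

namespace Pool.Agent.MP_2291e2_gt.Zl

namespace OPEN

lemma mm_nrm {g : P → E} (hg : ContDiffOn ℝ ∞ g Ind) {u : P} (hu : u ∈ U) (h0 : g u ≠ 0) (ξ : E) :
    mm (nrm g) u ξ = ‖g u‖⁻¹ ^ 3 * mm g u ξ := by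
  have d1 := diffAt_of_U hg hu
  have d2 : DifferentiableAt ℝ (fun w => ‖g w‖⁻¹) u := (d1.norm ℝ h0).inv (by simpa using h0)
  have e : ∀ ξ, dW (nrm g) u ξ = dW (fun w => ‖g w‖⁻¹) u ξ • g u + ‖g u‖⁻¹ • dW g u ξ := by
    intro ξ
    rw [← dW_fsmul d2 d1]
    exact dW_comp_rt (f := fun w => ‖g w‖⁻¹ • g w) hu (d2.smul d1) ξ
  simp only [mm, V, e, nrm, rt_of_U hu, dt3, PiLp.add_apply, PiLp.smul_apply, smul_eq_mul]
  ring

end OPEN

open OPEN in
theorem norm_of : NormStmt := by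
  intro G hG h1 h2 h3
  have hs : Sm (fun s => nrm (G s)) := by
    have a : ContDiffOn ℝ ∞ (fun q : ℝ × P => G q.1 (rt q.2)) (univ ×ˢ Ind) :=
      hG.comp (f := fun q : ℝ × P => (q.1, rt q.2))
        (contDiffOn_fst.prodMk (contDiffOn_rt.comp contDiffOn_snd fun q hq => hq.2))
        fun q hq => ⟨trivial, rt_mapsTo hq.2⟩
    have b : ∀ q ∈ (univ : Set ℝ) ×ˢ Ind, G q.1 (rt q.2) ≠ 0 :=
      fun q hq => (h1 _ _ (rt_mem_U hq.2)).2
    exact ((a.norm ℝ b).inv fun q hq => by simpa using b q hq).smul a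
  refine ⟨hs, fun s => ?_⟩
  have hn : ∀ u ∈ U, ‖G s u‖ ≠ 0 := fun u hu => by simpa using (h1 s u hu).2
  have hunit : ∀ u ∈ U, ‖nrm (G s) u‖ = 1 := fun u hu => by
    simp [nrm, rt_of_U hu, norm_smul, hn u hu]
  have hodd : ∀ u ∈ U, nrm (G s) (rev u) = -nrm (G s) u := fun u hu => by
    simp [nrm, rt_of_U hu, rt_of_U (rev_mem_U hu), (h1 s u hu).1]
  refine ⟨⟨hs.slice s, hunit, hodd⟩, fun u hu r hr e => ?_, ?_⟩
  · rcases hr.2.lt_or_eq with h | h
    · have hu' := rho_mem_U hu r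
      refine h3 s u hu r ⟨hr.1, h⟩ (‖G s (rho r u)‖ * ‖G s u‖⁻¹)
        (mul_pos ((norm_nonneg _).lt_of_ne' (hn _ hu'))
          (inv_pos.2 ((norm_nonneg _).lt_of_ne' (hn _ hu)))) ?_
      simp only [nrm, rt_of_U hu, rt_of_U hu'] at e
      rw [mul_smul, ← e, smul_smul, mul_inv_cancel₀ (hn _ hu'), one_smul]
    · rw [h, rho_pi, hodd u hu, neg_eq_iff_add_eq_zero, ← two_smul ℝ, smul_eq_zero] at e
      have := hunit u hu
      rw [e.resolve_left two_ne_zero] at this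
      simp at this
  · refine (h2 s).mul (c := fun u => ‖G s u‖⁻¹ ^ 3)
      (fun ξ u hu => diffAt_of_U (contDiffOn_mm (hG.slice s) ξ) hu)
      (fun u hu => (((diffAt_of_U (hG.slice s) hu).norm ℝ (h1 s u hu).2).inv (hn u hu)).pow 3)
      (fun u hu u' hu' => ?_) fun u hu ξ => mm_nrm (hG.slice s) hu (h1 s u hu).2 ξ
    have a := (norm_nonneg _).lt_of_ne' (hn _ hu)
    have b := (norm_nonneg _).lt_of_ne' (hn _ hu')
    positivity

namespace OPEN

/-- Admissible perturbations. -/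
def Adm (G : P → E) (ε : ℝ) (K : P → E) : Prop :=
  ContDiffOn ℝ ∞ K Ind ∧ (∀ u ∈ U, K (rev u) = -K u) ∧ Close ε G K

section
variable {X Y F F' F'' : Type*} [NormedAddCommGroup F] [NormedAddCommGroup F']
  [NormedAddCommGroup F''] {G : P → E} {S : Set X}

/-- A quantity that is bounded for `G` and stable under admissible perturbations. -/
def Ap (G : P → E) (S : Set X) (f : (P → E) → X → F) : Prop :=
  ∃ C, 0 ≤ C ∧ ∀ x ∈ S, ‖f G x‖ ≤ C ∧
    ∀ ε K, 0 ≤ ε → ε ≤ 1 → Adm G ε K → ‖f K x - f G x‖ ≤ C * ε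

lemma Ap.comp {f : (P → E) → X → F} (h : Ap G S f) {T : Set Y} (g : Y → X) (hg : MapsTo g T S) :
    Ap G T (fun K y => f K (g y)) := by
  obtain ⟨C, h0, h⟩ := h
  exact ⟨C, h0, fun y hy => h _ (hg hy)⟩

lemma Ap.fix {f : (P → E) → X → F} (h : Ap G S f) : Ap G S (fun _ x => f G x) := by
  obtain ⟨C, h0, h⟩ := h
  exact ⟨C, h0, fun x hx => ⟨(h x hx).1, fun ε K h1 _ _ => by simpa using mul_nonneg h0 h1⟩⟩

lemma Ap.add {f g : (P → E) → X → F} (h : Ap G S f) (h' : Ap G S g) :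
    Ap G S (fun K x => f K x + g K x) := by
  obtain ⟨C, h0, h⟩ := h
  obtain ⟨C', h0', h'⟩ := h'
  refine ⟨C + C', by positivity, fun x hx => ⟨norm_add_le_of_le (h x hx).1 (h' x hx).1,
    fun ε K h1 h2 h3 => ?_⟩⟩
  rw [add_sub_add_comm, add_mul]
  exact norm_add_le_of_le ((h x hx).2 ε K h1 h2 h3) ((h' x hx).2 ε K h1 h2 h3)

lemma Ap.sub {f g : (P → E) → X → F} (h : Ap G S f) (h' : Ap G S g) :
    Ap G S (fun K x => f K x - g K x) := by
  obtain ⟨C, h0, h⟩ := h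
  obtain ⟨C', h0', h'⟩ := h'
  refine ⟨C + C', by positivity, fun x hx => ⟨norm_sub_le_of_le (h x hx).1 (h' x hx).1,
    fun ε K h1 h2 h3 => ?_⟩⟩
  rw [sub_sub_sub_comm, add_mul]
  exact norm_sub_le_of_le ((h x hx).2 ε K h1 h2 h3) ((h' x hx).2 ε K h1 h2 h3)

lemma Ap.bil {f : (P → E) → X → F} {g : (P → E) → X → F'} (L : F → F' → F'')
    (hL : ∀ a b, ‖L a b‖ ≤ ‖a‖ * ‖b‖)
    (hL' : ∀ a a' b b', L a' b' - L a b = L (a' - a) b' + L a (b' - b))
    (h : Ap G S f) (h' : Ap G S g) : Ap G S (fun K x => L (f K x) (g K x)) := by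
  obtain ⟨C, h0, h⟩ := h
  obtain ⟨C', h0', h'⟩ := h'
  refine ⟨3 * (C * C'), by positivity, fun x hx => ⟨?_, fun ε K h1 h2 h3 => ?_⟩⟩
  · have := (hL _ _).trans (mul_le_mul (h x hx).1 (h' x hx).1 (norm_nonneg _) h0)
    nlinarith [mul_nonneg h0 h0']
  · have a := (h x hx).2 ε K h1 h2 h3
    have b := (h' x hx).2 ε K h1 h2 h3
    have c : ‖g K x‖ ≤ 2 * C' := by
      have := norm_le_insert' (g K x) (g G x)
      nlinarith [(h' x hx).1]
    rw [hL']
    refine (norm_add_le_of_le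
      ((hL _ _).trans (mul_le_mul a c (norm_nonneg _) (by positivity)))
      ((hL _ _).trans (mul_le_mul (h x hx).1 b (norm_nonneg _) h0))).trans_eq (by ring)

lemma Ap.mul {f g : (P → E) → X → ℝ} (h : Ap G S f) (h' : Ap G S g) :
    Ap G S (fun K x => f K x * g K x) :=
  Ap.bil (fun a b : ℝ => a * b) (fun a b => (norm_mul a b).le) (fun a a' b b' => by ring) h h'

lemma Ap.cr {f g : (P → E) → X → E} (h : Ap G S f) (h' : Ap G S g) :
    Ap G S (fun K x => cr (f K x) (g K x)) :=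
  Ap.bil Zl.cr norm_cr_le (fun a a' b b' => by rw [cr_sub_left, cr_sub_right]; abel) h h'

lemma Ap.dt {f g k : (P → E) → X → E} (h : Ap G S f) (h' : Ap G S g) (h'' : Ap G S k) :
    Ap G S (fun K x => dt (f K x) (g K x) (k K x)) :=
  Ap.bil (fun a b : E => ⟪a, b⟫) (fun a b => norm_inner_le_norm a b)
    (fun a a' b b' => by rw [inner_sub_left, inner_sub_right]; ring) h (h'.cr h'')

end

variable {G K : P → E} {ε : ℝ}

lemma lin_bound {n : E → E} (h : IsLinearMap ℝ n) {c : ℝ}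
    (hc : ∀ i, ‖n (EuclideanSpace.single i 1)‖ ≤ c) {ξ : E} (hξ : ‖ξ‖ ≤ 1) : ‖n ξ‖ ≤ 3 * c := by
  have k : ∀ i, ‖ξ i • n (EuclideanSpace.single i 1)‖ ≤ c := fun i => by
    rw [norm_smul]
    exact (mul_le_mul ((PiLp.norm_apply_le ξ i).trans hξ) (hc i) (norm_nonneg _)
      zero_le_one).trans_eq (one_mul c)
  rw [lin_expand h ξ]
  exact (norm_add_le_of_le (norm_add_le_of_le (k 0) (k 1)) (k 2)).trans_eq (by ring)

lemma ap0 (hG : Odd1 G) : Ap G U (fun K u => K u) :=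
  ⟨1, zero_le_one, fun u hu => ⟨(hG.unit u hu).le, fun _ _ _ _ h => by
    simpa using (h.2.2 u hu).1⟩⟩

lemma apD (T : (P → E) → P → E) (hT : ContDiffOn ℝ ∞ (T G) Ind)
    (h : ∀ ε K, Adm G ε K → ∀ u ∈ U, ∀ i, ‖dW (T K) u (EuclideanSpace.single i 1)
      - dW (T G) u (EuclideanSpace.single i 1)‖ ≤ ε) :
    Ap G (U ×ˢ Metric.closedBall (0 : E) 1) (fun K q => dW (T K) q.1 q.2) := by
  have k : ∀ i : Fin 3, ∃ B, ∀ u ∈ U, ‖dW (T G) u (EuclideanSpace.single i 1)‖ ≤ B := fun i =>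
    isCompact_U.exists_bound_of_continuousOn
      ((contDiffOn_dW hT contDiffOn_const).continuousOn.mono U_sub_Ind)
  choose B hB using k
  refine ⟨3 * (1 + ∑ i, |B i|), by positivity, fun q hq => ⟨?_, fun ε K h1 _ h3 => ?_⟩⟩
  · refine lin_bound (dW_lin _ _) (fun i => (hB i _ hq.1).trans ?_) (by simpa using hq.2)
    have := Finset.single_le_sum (f := fun i => |B i|) (fun i _ => abs_nonneg _) (Finset.mem_univ i)
    linarith [le_abs_self (B i)]
  · refine (lin_bound (n := fun ξ => dW (T K) q.1 ξ - dW (T G) q.1 ξ)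
      ⟨fun a b => by simp only [dW_add]; abel, fun t a => by simp only [dW_smul, smul_sub]⟩
      (h ε K h3 _ hq.1) (by simpa using hq.2)).trans ?_
    have : 0 ≤ ∑ i, |B i| := by positivity
    nlinarith

lemma ap1 (hG : Odd1 G) : Ap G (U ×ˢ Metric.closedBall (0 : E) 1) (fun K q => dW K q.1 q.2) :=
  apD (fun K => K) hG.smooth fun _ _ h u hu i => ((h.2.2 u hu).2 i).1

lemma ap2 (hG : Odd1 G) :
    Ap G (U ×ˢ Metric.closedBall (0 : E) 1) (fun K q => dW (V K) q.1 q.2) :=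
  apD (fun K => V K) (contDiffOn_V hG.smooth) fun _ _ h u hu i => by
    rw [← V_dW_comm (contDiffAt_of_U h.1 hu), ← V_dW_comm (contDiffAt_of_U hG.smooth hu)]
    exact ((h.2.2 u hu).2 i).2

lemma apV (hG : Odd1 G) : Ap G U (fun K u => V K u) :=
  (ap1 hG).comp (fun u => (u, u.1)) fun u hu => ⟨hu, by simp [hu.1]⟩

lemma apVV (hG : Odd1 G) : Ap G U (fun K u => V (V K) u) :=
  (ap2 hG).comp (fun u => (u, u.1)) fun u hu => ⟨hu, by simp [hu.1]⟩

/-- The fibre derivative of `mm`. -/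
noncomputable def m1 (K : P → E) (u : P) (ξ : E) : ℝ :=
  dt (K u) (dW (V K) u ξ) (V K u) + dt (K u) (dW K u ξ) (V (V K) u)

lemma V_mm' (hK : ContDiffOn ℝ ∞ K Ind) {u : P} (hu : u ∈ U) (ξ : E) :
    V (fun w => mm K w ξ) u = m1 K u ξ := by
  rw [V_mm hK hu, V_dW_comm (contDiffAt_of_U hK hu), m1]

lemma apm (hG : Odd1 G) : Ap G (U ×ˢ Metric.closedBall (0 : E) 1) (fun K q => mm K q.1 q.2) :=
  ((ap0 hG).comp Prod.fst fun _ h => h.1).dt (ap1 hG) ((apV hG).comp Prod.fst fun _ h => h.1)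

lemma apm1 (hG : Odd1 G) : Ap G (U ×ˢ Metric.closedBall (0 : E) 1) (fun K q => m1 K q.1 q.2) :=
  (((ap0 hG).comp Prod.fst fun _ h => h.1).dt (ap2 hG)
    ((apV hG).comp Prod.fst fun _ h => h.1)).add
  (((ap0 hG).comp Prod.fst fun _ h => h.1).dt (ap1 hG) ((apVV hG).comp Prod.fst fun _ h => h.1))

/-- The derivative of the wedge. -/
noncomputable def w1 (K : P → E) (q : P × ℝ) : ℝ :=
  mm K q.1 q.1.2 * m1 K (rho q.2 q.1) (cr q.1.1 q.1.2)
    - mm K q.1 (cr q.1.1 q.1.2) * m1 K (rho q.2 q.1) q.1.2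

lemma apw (hG : Odd1 G) : Ap G (U ×ˢ univ) w1 :=
  (((apm hG).comp (fun q : P × ℝ => (q.1, q.1.2)) fun q h => ⟨h.1, by simp [h.1.2.1]⟩).mul
    ((apm1 hG).comp (fun q : P × ℝ => (rho q.2 q.1, cr q.1.1 q.1.2))
      fun q h => ⟨rho_mem_U h.1 _, by simp [norm_cr_U h.1]⟩)).sub
  (((apm hG).comp (fun q : P × ℝ => (q.1, cr q.1.1 q.1.2))
      fun q h => ⟨h.1, by simp [norm_cr_U h.1]⟩).mul
    ((apm1 hG).comp (fun q : P × ℝ => (rho q.2 q.1, q.1.2))
      fun q h => ⟨rho_mem_U h.1 _, by simp [h.1.2.1]⟩))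

lemma hasDerivAt_w (hK : ContDiffOn ℝ ∞ K Ind) {u : P} (hu : u ∈ U) (s : ℝ) :
    HasDerivAt (wedge (mm K) u) (w1 K (u, s)) s := by
  have := hasDerivAt_wedge (n := mm K) (fun ξ u hu => diffAt_of_U (contDiffOn_mm hK ξ) hu) hu s
  rwa [V_mm' hK (rho_mem_U hu s), V_mm' hK (rho_mem_U hu s)] at this

lemma wedge_pi (hK : ContDiffOn ℝ ∞ K Ind) (ho : ∀ u ∈ U, K (rev u) = -K u) {u : P} (hu : u ∈ U) :
    wedge (mm K) u π = 0 := by
  simp only [wedge, rho_pi, mm_odd hK ho hu]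
  ring

lemma small {C m : ℝ} (hC : 0 ≤ C) (hm : 0 < m) :
    ∃ ε > 0, ε ≤ 1 ∧ ∀ η, 0 ≤ η → η ≤ ε → C * η < m := by
  refine ⟨min 1 (m / (C + 1)), by positivity, min_le_left _ _, fun η h0 h => ?_⟩
  have := (le_div_iff₀ (by positivity)).1 (h.trans (min_le_right _ _))
  rcases h0.lt_or_eq with h1 | h1
  · nlinarith
  · rw [← h1]; simpa using hm

lemma turn_open (hG : Good G) :
    ∃ ε > 0, ∀ η K, 0 ≤ η → η ≤ ε → Adm G η K → Turn (mm K) := by
  obtain ⟨δ, hδ, h⟩ := hG.turn.sin_le (mm_lin G)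
    (fun ξ u hu => contDiffAt_of_U (contDiffOn_mm hG.smooth ξ) hu)
    fun u hu ξ => mm_odd hG.smooth hG.odd hu ξ
  obtain ⟨C, hC, hw⟩ := apw hG.toOdd1
  obtain ⟨ε, hε, hε1, hs⟩ := small (C := 2 * C) (by positivity) hδ
  refine ⟨ε, hε, fun η K h0 h1 hK => turn_of_sin_le
    (fun ξ u hu => diffAt_of_U (contDiffOn_mm hK.1 ξ) hu) fun u hu =>
      ⟨δ - 2 * C * η, by linarith [hs η h0 h1], fun s hs => ?_⟩⟩
  have := abs_le_sin (e := fun s => wedge (mm K) u s - wedge (mm G) u s)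
    (e1 := fun s => w1 K (u, s) - w1 G (u, s)) (M := C * η)
    (fun s _ => (hasDerivAt_w hK.1 hu s).sub (hasDerivAt_w hG.smooth hu s))
    (fun s _ => (hw (u, s) ⟨hu, trivial⟩).2 η K h0 (h1.trans hε1) hK) (by simp)
    (by simp only [wedge_pi hK.1 hK.2.1 hu, wedge_pi hG.smooth hG.odd hu, sub_zero]) s hs
  nlinarith [h u hu s hs, (abs_le.1 this).1]

/-- The derivative of the transversality function. -/
noncomputable def tr (G K : P → E) (q : P × ℝ) : ℝ :=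
  dt (cr (G q.1) (V G q.1)) (K q.1) (V K (rho q.2 q.1))

lemma aptr (hG : Odd1 G) : Ap G (U ×ˢ univ) (tr G) :=
  ((((ap0 hG).cr (apV hG)).fix.comp Prod.fst fun _ h => h.1).dt
    ((ap0 hG).comp Prod.fst fun _ h => h.1))
    ((apV hG).comp (fun q : P × ℝ => rho q.2 q.1) fun _ h => rho_mem_U h.1 _)

lemma cont_rho {f : P → E} (hf : ContDiffOn ℝ ∞ f Ind) {q : P × ℝ} (hq : q.1 ∈ U) :
    ContinuousAt (fun q : P × ℝ => f (rho q.2 q.1)) q :=
  (contDiffAt_of_U hf (rho_mem_U hq q.2)).continuousAt.comp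
    (f := fun q : P × ℝ => rho q.2 q.1) (continuous_rho.comp continuous_swap).continuousAt

lemma cont_fst {f : P → E} (hf : ContDiffOn ℝ ∞ f Ind) {q : P × ℝ} (hq : q.1 ∈ U) :
    ContinuousAt (fun q : P × ℝ => f q.1) q :=
  (contDiffAt_of_U hf hq).continuousAt.comp continuousAt_fst

lemma cont_tr (hG : ContDiffOn ℝ ∞ G Ind) {q : P × ℝ} (hq : q.1 ∈ U) :
    ContinuousAt (tr G G) q :=
  (ContinuousAt.cr' (cont_fst hG hq) (cont_fst (contDiffOn_V hG) hq)).inner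
    (ContinuousAt.cr' (cont_fst hG hq) (cont_rho (contDiffOn_V hG) hq))

lemma near_open (hG : Good G) : ∃ r > 0, ∃ ε > 0, ∀ η K, 0 ≤ η → η ≤ ε → Adm G η K →
    ∀ u ∈ U, ∀ s ∈ Ioc 0 r, ∀ t : ℝ, K (rho s u) ≠ t • K u := by
  have h0 : ∀ u ∈ U, 0 < tr G G (u, 0) := fun u hu => by
    have a := normsq_cr (G u) (V G u)
    rw [hG.unit u hu, show ⟪G u, V G u⟫ = 0 from inner_dW_unit hG.smooth hG.unit hu _] at a
    have b := norm_pos_iff.2 (hG.V_ne hu)
    simp only [tr, rho_zero, dt, real_inner_self_eq_norm_sq, a]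
    nlinarith
  have h1 : ∀ᶠ s in 𝓝 (0 : ℝ), ∀ u ∈ U, 0 < tr G G (u, s) := by
    refine isCompact_U.eventually_forall_of_forall_eventually fun u hu => ?_
    have : ContinuousAt (fun z : ℝ × P => tr G G (z.2, z.1)) (0, u) :=
      ContinuousAt.comp (f := fun z : ℝ × P => (z.2, z.1)) (x := (0, u))
        (cont_tr hG.smooth (q := (u, 0)) hu) continuous_swap.continuousAt
    exact this.eventually (lt_mem_nhds (h0 u hu))
  obtain ⟨r, hr, h2⟩ := Metric.eventually_nhds_iff.1 h1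
  obtain ⟨m, hm, h3⟩ := (isCompact_U.prod (isCompact_Icc (a := 0) (b := r / 2))).exists_forall_le'
    (f := tr G G) (a := 0) (fun q hq => (cont_tr hG.smooth hq.1).continuousWithinAt)
    fun q hq => h2 (by rw [dist_zero_right, norm_of_nonneg hq.2.1]; linarith [hq.2.2]) _ hq.1
  obtain ⟨C, hC, hw⟩ := aptr hG.toOdd1
  obtain ⟨ε, hε, hε1, hs⟩ := small hC hm
  refine ⟨r / 2, by positivity, ε, hε, fun η K h4 h5 hK u hu s hs' t e => ?_⟩
  have d : ∀ x, HasDerivAt (fun x => dt (cr (G u) (V G u)) (K u) (K (rho x u)))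
      (tr G K (u, x)) x := fun x => by
    have := hasDerivAt_dt (hasDerivAt_const x (cr (G u) (V G u))) (hasDerivAt_const x (K u))
      (hasDerivAt_V' hK.1 hu x)
    refine this.congr_deriv ?_
    simp [tr, dt]
  obtain ⟨x, hx, hx'⟩ := exists_hasDerivAt_eq_zero hs'.1
    (fun x _ => (d x).continuousAt.continuousWithinAt) (by simp [e, dt, cr_smul_right])
    fun x _ => d x
  have a := (hw (u, x) ⟨hu, trivial⟩).2 η K h4 (h5.trans hε1) hK
  have b := h3 (u, x) ⟨hu, hx.1.le, hx.2.le.trans hs'.2⟩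
  rw [hx', zero_sub, norm_neg, norm_of_nonneg (by linarith)] at a
  linarith [hs η h4 h5]

lemma far_open (hG : Good G) {r : ℝ} (hr : 0 < r) : ∃ ε > 0, ∀ η K, η ≤ ε → Adm G η K →
    ∀ u ∈ U, ∀ s ∈ Icc r π, ∀ t > (0 : ℝ), K (rho s u) ≠ t • K u := by
  have hc : ContinuousOn (fun q : P × ℝ => ‖G (rho q.2 q.1) - G q.1‖) (U ×ˢ Icc r π) := by
    intro q hq
    have a := cont_rho hG.smooth hq.1
    have b := cont_fst hG.smooth hq.1
    have c : ContinuousAt (fun q : P × ℝ => G (rho q.2 q.1) - G q.1) q := a.sub b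
    exact c.norm.continuousWithinAt
  obtain ⟨m, hm, h3⟩ := (isCompact_U.prod (isCompact_Icc (a := r) (b := π))).exists_forall_le'
    (a := 0) hc fun q hq =>
      norm_pos_iff.2 (sub_ne_zero.2 (hG.emb _ hq.1 _ ⟨hr.trans_le hq.2.1, hq.2.2⟩))
  refine ⟨m / 5, by positivity, fun η K h hK u hu s hs t ht e => ?_⟩
  have a := h3 (u, s) ⟨hu, hs⟩
  have b := (hK.2.2 u hu).1
  have c := (hK.2.2 _ (rho_mem_U hu s)).1
  have b' := abs_le.1 ((abs_norm_sub_norm_le _ _).trans b)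
  have c' := abs_le.1 ((abs_norm_sub_norm_le _ _).trans c)
  rw [hG.unit u hu] at b'
  rw [hG.unit _ (rho_mem_U hu s), e, norm_smul, norm_of_nonneg ht.le] at c'
  have d : ‖K (rho s u) - K u‖ ≤ 2 * η := by
    rw [e, show t • K u - K u = (t - 1) • K u by module, norm_smul, norm_eq_abs,
      ← abs_of_nonneg (norm_nonneg (K u)), ← abs_mul, abs_le]
    constructor <;> nlinarith
  have f : G (rho s u) - G u = (K (rho s u) - K u) - (K (rho s u) - G (rho s u)) + (K u - G u) := by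
    abel
  have := norm_add_le_of_le (norm_sub_le_of_le d c) b
  rw [← f] at this
  simp only at a
  linarith

lemma adm_mix (hG : Odd1 G) (hK : Odd1 K) (h : Close ε G K) {a : ℝ} (h0 : 0 ≤ a) (h1 : a ≤ 1) :
    Adm G ε (fun u => (1 - a) • G u + a • K u) := by
  have s : ContDiffOn ℝ ∞ (fun u => (1 - a) • G u + a • K u) Ind :=
    (hG.smooth.const_smul _).add (hK.smooth.const_smul _)
  have k : ∀ x y : E, ‖y - x‖ ≤ ε → ‖(1 - a) • x + a • y - x‖ ≤ ε := fun x y h => by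
    rw [show (1 - a) • x + a • y - x = a • (y - x) by module, norm_smul, norm_of_nonneg h0]
    exact (mul_le_of_le_one_left (norm_nonneg _) h1).trans h
  have e : ∀ f g : P → E, ContDiffOn ℝ ∞ f Ind → ContDiffOn ℝ ∞ g Ind → ∀ u ∈ U, ∀ ξ,
      dW (fun u => (1 - a) • f u + a • g u) u ξ = (1 - a) • dW f u ξ + a • dW g u ξ := by
    intro f g hf hg u hu ξ
    have d1 := diffAt_of_U hf hu
    have d2 := diffAt_of_U hg hu
    rw [dW_fadd (d1.fun_const_smul _) (d2.fun_const_smul _), dW_csmul _ d1, dW_csmul _ d2]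
  refine ⟨s, fun u hu => ?_, fun u hu => ⟨k _ _ (h u hu).1, fun i => ⟨?_, ?_⟩⟩⟩
  · simp only [hG.odd u hu, hK.odd u hu]
    module
  · rw [e _ _ hG.smooth hK.smooth u hu]
    exact k _ _ ((h u hu).2 i).1
  · have s1 := contDiffOn_dW hG.smooth (contDiffOn_const (c := EuclideanSpace.single i 1))
    have s2 := contDiffOn_dW hK.smooth (contDiffOn_const (c := EuclideanSpace.single i 1))
    rw [V_congr hu (diffAt_of_U (contDiffOn_dW s contDiffOn_const) hu)
      (diffAt_of_U ((s1.const_smul (1 - a)).add (s2.const_smul a)) hu)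
      fun w hw => e _ _ hG.smooth hK.smooth w hw _, V, e _ _ s1 s2 u hu]
    exact k _ _ ((h u hu).2 i).2

end OPEN

open OPEN in
theorem open_of (hN : NormStmt) : OpenStmt := by
  intro G hG
  obtain ⟨ε1, p1, h1⟩ := turn_open hG
  obtain ⟨r, hr, ε2, p2, h2⟩ := near_open hG
  obtain ⟨ε3, p3, h3⟩ := far_open hG hr
  refine ⟨min (min ε1 ε2) (min ε3 (1 / 2)), by positivity, fun K hK hc => ?_⟩
  set ε := min (min ε1 ε2) (min ε3 (1 / 2)) with hε
  have e0 : 0 ≤ ε := by positivity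
  have e1 : ε ≤ ε1 := (min_le_left _ _).trans (min_le_left _ _)
  have e2 : ε ≤ ε2 := (min_le_left _ _).trans (min_le_right _ _)
  have e3 : ε ≤ ε3 := (min_le_right _ _).trans (min_le_left _ _)
  have e4 : ε ≤ 1 / 2 := (min_le_right _ _).trans (min_le_right _ _)
  have hA := fun s : ℝ => adm_mix hG.toOdd1 hK hc (smoothTransition.nonneg s)
    (smoothTransition.le_one s)
  have st : ContDiffOn ℝ ∞ (fun q : ℝ × P => smoothTransition q.1) (univ ×ˢ Ind) :=
    (smoothTransition.contDiff.comp contDiff_fst).contDiffOn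
  obtain ⟨hs, hg⟩ := hN (fun s u => (1 - smoothTransition s) • G u + smoothTransition s • K u)
    (((contDiffOn_const.sub st).smul (hG.smooth.comp contDiffOn_snd fun q hq => hq.2)).add
      (st.smul (hK.smooth.comp contDiffOn_snd fun q hq => hq.2)))
    (fun s u hu => ⟨(hA s).2.1 u hu, fun e => by
      have := ((hA s).2.2 u hu).1
      simp only [e, zero_sub, norm_neg, hG.unit u hu] at this
      linarith⟩)
    (fun s => h1 ε _ e0 e1 (hA s))
    (fun s u hu x hx t ht => by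
      rcases le_total x r with h | h
      · exact h2 ε _ e0 e2 (hA s) u hu x ⟨hx.1, h⟩ t
      · exact h3 ε _ e3 (hA s) u hu x ⟨h, hx.2.le⟩ t ht)
  have k1 : ∀ u ∈ U, nrm (fun u => (1 - smoothTransition 1) • G u + smoothTransition 1 • K u) u
      = K u := fun u hu => by simp [nrm, rt_of_U hu, hK.unit u hu]
  exact ⟨(hg 1).congr hK.smooth fun u hu => (k1 u hu).symm, _, hs, hg,
    fun u hu => by simp [nrm, rt_of_U hu, hG.unit u hu], k1⟩

end Pool.Agent.MP_2291e2_gt.Zl
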