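import Mathlib.Topology.Sheaves.Presheaf
import Pool.Agent.MP_2291e2_gt.zl.Spec2

/-! A first integral of the flow with values in the plane that vanishes on a given orbit. -/

open scoped ContDiff RealInnerProductSpace Topology
open Set Filter Real

namespace Pool.Agent.MP_2291e2_gt.Zl

namespace PoleA

variable {φ : ℝ → P → P} {a b : P → ℝ} {T : ℝ} {u₀ : P}

lemma sl (h : PFlow φ a b) (t : ℝ) : ContDiff ℝ ∞ (φ t) :=
  h.smooth.comp (contDiff_const.prodMk contDiff_id)

lemma sld (h : PFlow φ a b) (t : ℝ) (u : P) : DifferentiableAt ℝ (φ t) u :=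
  (sl h t).differentiable (by simp) u

/-- A map of `U` to `U` sends rotation fields to rotation fields. -/
lemma exists_dW {g : P → P} {u : P} (hu : u ∈ U) (hg : DifferentiableAt ℝ g u)
    (hm : ∀ w ∈ U, g w ∈ U) (ξ : E) : ∃ η, dW g u ξ = W (g u) η := by
  obtain ⟨c, -, h0, hU, hd⟩ := exists_curve hu ξ
  have h1 := hasDerivAt_comp_W (f := g) (h0 ▸ hg) (hd 0)
  obtain ⟨η, e⟩ := exists_W_hasDerivAt h1 (Eventually.of_forall fun s => hm _ (hU s))
  exact ⟨η, by rwa [h0] at e⟩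

lemma dW_flow_xi (h : PFlow φ a b) {u : P} (hu : u ∈ U) (t : ℝ) :
    dW (φ t) u (xi a b u) = W (φ t u) (xi a b (φ t u)) := by
  have h1 := hasDerivAt_comp_W (f := φ t) (c := fun s => φ s u) (t := 0) (sld h t _) (h.ode u hu 0)
  have h2 : HasDerivAt (fun s => φ (t + s) u) (W (φ t u) (xi a b (φ t u))) 0 := by
    have := h.ode u hu (t + 0)
    rw [add_zero] at this
    exact HasDerivAt.comp_const_add t 0 (by rwa [add_zero])
  simp only [h.zero, ← h.add] at h1
  exact h1.unique h2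

lemma cr_xi {u : P} (hu : u ∈ U) : cr (xi a b u) u.1 = a u • u.2 := by
  simp [xi, cr_add_left, cr_smul_left, cr_cr_left, hu.1, inner_U21 hu]

lemma base_deriv (h : PFlow φ a b) {u : P} (hu : u ∈ U) (t : ℝ) :
    HasDerivAt (fun s => (φ s u).1) (a (φ t u) • (φ t u).2) t := by
  rw [← cr_xi (b := b) (h.maps t u hu)]
  exact (hasFDerivAt_fst (𝕜 := ℝ)).comp_hasDerivAt t (h.ode u hu t)

lemma inner_ww {u : P} (hu : u ∈ U) : ⟪cr u.1 u.2, cr u.1 u.2⟫ = 1 := by
  rw [real_inner_self_eq_norm_sq, norm_cr_U hu]; norm_num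

lemma basis (h : PFlow φ a b) {u : P} (hu : u ∈ U) (ζ : E) :
    ∃ α β γ : ℝ, ζ = α • u.1 + β • u.2 + γ • xi a b u := by
  have ha := (h.apos u hu).ne'
  refine ⟨⟪ζ, u.1⟫ - ⟪ζ, cr u.1 u.2⟫ / a u * b u, ⟪ζ, u.2⟫, ⟪ζ, cr u.1 u.2⟫ / a u, ?_⟩
  conv_lhs => rw [frameU hu ζ]
  rw [xi, smul_add, smul_smul, smul_smul, div_mul_cancel₀ _ ha]
  module

lemma dW_var {F : Type*} [NormedAddCommGroup F] [NormedSpace ℝ F] {f : P → F} {ξ : P → E} {u : P}
    (hf : ContDiffAt ℝ ∞ f u) (hξ : DifferentiableAt ℝ ξ u) (η : E) :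
    dW (fun w => dW f w (ξ w)) u η = dW (fun w => dW f w (ξ u)) u η + dW f u (dW ξ u η) := by
  have d : ∀ z : E, DifferentiableAt ℝ (fun w => dW f w z) u := fun z =>
    (contDiffAt_dW hf contDiffAt_const).differentiableAt (by simp)
  have c : ∀ i : Fin 3, DifferentiableAt ℝ (fun w => ξ w i) u := fun i =>
    (EuclideanSpace.proj (𝕜 := ℝ) i).differentiableAt.comp u hξ
  have c' : ∀ i : Fin 3, dW (fun w => ξ w i) u η = dW ξ u η i := fun i => by
    have := ((EuclideanSpace.proj (𝕜 := ℝ) i).hasFDerivAt.comp u hξ.hasFDerivAt).fderiv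
    exact congrArg (fun L : P →L[ℝ] ℝ => L (W u η)) this
  have e1 : (fun w => dW f w (ξ w)) = fun w => ξ w 0 • dW f w (EuclideanSpace.single 0 1) +
      ξ w 1 • dW f w (EuclideanSpace.single 1 1) + ξ w 2 • dW f w (EuclideanSpace.single 2 1) :=
    funext fun w => lin_expand (dW_lin f w) _
  have e2 : (fun w => dW f w (ξ u)) = fun w => ξ u 0 • dW f w (EuclideanSpace.single 0 1) +
      ξ u 1 • dW f w (EuclideanSpace.single 1 1) + ξ u 2 • dW f w (EuclideanSpace.single 2 1) :=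
    funext fun w => lin_expand (dW_lin f w) _
  rw [e1, e2, lin_expand (dW_lin f u) (dW ξ u η),
    dW_fadd (((c 0).fun_smul (d _)).fun_add ((c 1).fun_smul (d _))) ((c 2).fun_smul (d _)),
    dW_fadd ((c 0).fun_smul (d _)) ((c 1).fun_smul (d _)),
    dW_fadd (((d _).fun_const_smul _).fun_add ((d _).fun_const_smul _)) ((d _).fun_const_smul _),
    dW_fadd ((d _).fun_const_smul _) ((d _).fun_const_smul _),
    dW_fsmul (c 0) (d _), dW_fsmul (c 1) (d _), dW_fsmul (c 2) (d _),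
    dW_csmul _ (d _), dW_csmul _ (d _), dW_csmul _ (d _), c', c', c']
  abel

lemma diff_xi (h : PFlow φ a b) {u : P} (hu : u ∈ U) : DifferentiableAt ℝ (xi a b) u := by
  have := diffAt_of_U h.asm hu
  have := diffAt_of_U h.bsm hu
  unfold xi
  fun_prop

lemma inner_V_xi (h : PFlow φ a b) {u : P} (hu : u ∈ U) : ⟪V (xi a b) u, u.2⟫ = -a u := by
  have da := diffAt_of_U h.asm hu
  have db := diffAt_of_U h.bsm hu
  have dc : DifferentiableAt ℝ (fun w : P => cr w.1 w.2) u := by fun_prop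
  have e : V (xi a b) u = V a u • cr u.1 u.2 + a u • (-u.2) + (V b u • u.1 + b u • 0) := by
    unfold V xi
    rw [dW_fadd (da.fun_smul dc) (db.fun_smul differentiableAt_fst), dW_fsmul da dc,
      dW_fsmul db differentiableAt_fst, dW_cr differentiableAt_fst differentiableAt_snd, dW_fst,
      dW_snd, cr_self, cr_zero_left, zero_add, cr_cr_U hu]
  rw [e]
  simp [inner_add_left, inner_smul_left, hu.2.1, hu.2.2]

/-- The properties that do not depend on the orientation. -/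
structure P0 (φ : ℝ → P → P) (a b : P → ℝ) (u₀ : P) (κ : P → ℂ) : Prop where
  smooth : ContDiff ℝ ∞ κ
  inv : ∀ u ∈ U, ∀ t, κ (φ t u) = κ u
  zero : κ u₀ = 0
  rank0 : ∀ ξ, dW κ u₀ ξ = 0 → ∃ t : ℝ, ξ = t • xi a b u₀

variable {κ : P → ℂ}

lemma P0.diff (k : P0 φ a b u₀ κ) (u : P) : DifferentiableAt ℝ κ u :=
  k.smooth.differentiable (by simp) u

lemma P0.push (k : P0 φ a b u₀ κ) (h : PFlow φ a b) {u : P} (hu : u ∈ U) {t : ℝ} {ξ η : E}
    (e : dW (φ t) u ξ = W (φ t u) η) : dW κ u ξ = dW κ (φ t u) η := by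
  rw [← dW_comp (k.diff _) (sld h t u) e]
  exact dW_congr hu (k.diff _) ((k.diff _).comp u (sld h t u)) (fun w hw => (k.inv w hw t).symm) ξ

lemma P0.rank (k : P0 φ a b u₀ κ) (h : PFlow φ a b) (hu : u₀ ∈ U) (x : ℝ) (ξ : E)
    (e : dW κ (φ x u₀) ξ = 0) : ∃ t : ℝ, ξ = t • xi a b (φ x u₀) := by
  have hx := h.maps x u₀ hu
  have e0 : φ (-x) (φ x u₀) = u₀ := by rw [← h.add, neg_add_cancel, h.zero]
  obtain ⟨η, e1⟩ := exists_dW hx (sld h (-x) _) (h.maps (-x)) ξ
  have e2 := k.push h hx e1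
  rw [e0, e] at e2
  obtain ⟨t, rfl⟩ := k.rank0 η e2.symm
  have e3 : dW (fun w => φ x (φ (-x) w)) (φ x u₀) ξ = W (φ x u₀) ξ := by
    have : (fun w => φ x (φ (-x) w)) = id := by
      funext w; rw [← h.add, add_neg_cancel, h.zero]; rfl
    rw [this]; simp [dW]
  rw [dW_comp (sld h x _) (sld h (-x) _) e1, e0, dW_smul, dW_flow_xi h hu, ← W_smul] at e3
  refine ⟨t, ?_⟩
  have := W_inj hx (ξ := ξ - t • xi a b (φ x u₀)) (by rw [W_sub, e3, sub_self])
  exact sub_eq_zero.mp this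

lemma P0.once (k : P0 φ a b u₀ κ) (h : PFlow φ a b) (hu : u₀ ∈ U) (hJ : Jac φ a b T)
    (x x' μ : ℝ) (hμ : 0 < μ) (e : V κ (φ x u₀) = μ * V κ (φ x' u₀)) :
    ∃ n : ℤ, x = x' + n * T := by
  have hx := h.maps x u₀ hu
  have e0 : φ (x' - x) (φ x u₀) = φ x' u₀ := by rw [← h.add, sub_add_cancel]
  obtain ⟨η, e1⟩ := exists_dW hx (sld h (x' - x) _) (h.maps _) (φ x u₀).1
  have e2 := k.push h hx e1
  rw [e0] at e2
  obtain ⟨ν, e3⟩ := k.rank h hu x' (η - μ • (φ x' u₀).1) (by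
    rw [dW_sub, dW_smul, ← e2]
    exact sub_eq_zero.mpr e)
  obtain ⟨n, hn⟩ := hJ _ hx (x' - x) μ ν hμ (by
    rw [e0, ← e3, add_sub_cancel, ← e0]; exact e1)
  exact ⟨-n, by push_cast; linarith⟩

lemma P0.der (k : P0 φ a b u₀ κ) (h : PFlow φ a b) (hu : u₀ ∈ U) (x : ℝ) :
    HasDerivAt (fun x => V κ (φ x u₀)) (-dW κ (φ x u₀) (V (xi a b) (φ x u₀))) x := by
  have hx := h.maps x u₀ hu
  have h1 := hasDerivAt_comp_W (f := V κ) (c := fun s => φ s u₀)
    ((contDiffAt_V k.smooth.contDiffAt).differentiableAt (by simp)) (h.ode u₀ hu x)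
  refine h1.congr_deriv ?_
  rw [← V_dW_comm k.smooth.contDiffAt]
  have h2 := dW_var (ξ := xi a b) k.smooth.contDiffAt (diff_xi h hx) (φ x u₀).1
  have h3 : dW (fun w => dW κ w (xi a b w)) (φ x u₀) (φ x u₀).1 = 0 := by
    refine dW_const_on (a := 0) hx ?_ (fun w hw => ?_) _
    · have : ContDiffAt ℝ ∞ (xi a b) (φ x u₀) := by
        have := contDiffAt_of_U h.asm hx
        have := contDiffAt_of_U h.bsm hx
        unfold xi
        fun_prop
      exact (contDiffAt_dW k.smooth.contDiffAt this).differentiableAt (by simp)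
    · have h4 := hasDerivAt_comp_W (f := κ) (c := fun s => φ s w) (t := 0) (k.diff _)
        (h.ode w hw 0)
      simp only [k.inv w hw, h.zero] at h4
      exact h4.unique (hasDerivAt_const _ _)
  rw [h3] at h2
  exact eq_neg_of_add_eq_zero_left h2.symm

lemma P0.ne (k : P0 φ a b u₀ κ) (h : PFlow φ a b) (hu : u₀ ∈ U) (x : ℝ) :
    ((starRingEnd ℂ) (V κ (φ x u₀)) * deriv (fun x => V κ (φ x u₀)) x).im ≠ 0 := by
  have hx := h.maps x u₀ hu
  have ha := (h.apos _ hx).ne'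
  rw [(k.der h hu x).deriv]
  set u := φ x u₀ with hu'
  intro e
  have k0 : V κ u ≠ 0 := by
    intro h0
    obtain ⟨t, ht⟩ := k.rank h hu x _ h0
    have h1 := congrArg (fun z => ⟪z, cr u.1 u.2⟫) ht
    have h2 := congrArg (fun z => ⟪z, u.1⟫) ht
    simp only [← hu', xi, inner_smul_left, inner_add_left, inner_cr_left, inner_ww hx,
      conj_trivial, mul_one, mul_zero, add_zero] at h1
    have h3 : t = 0 := (mul_eq_zero.mp h1.symm).resolve_right ha
    simp [h3, inner_self_U1 hx, hx.1] at h2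
  set c := V κ u with hc
  set d := dW κ u (V (xi a b) u) with hd
  have hn : Complex.normSq c ≠ 0 := by simpa using k0
  set lam := ((starRingEnd ℂ) c * d).re / Complex.normSq c with hl
  have e1 : d = lam • c := by
    rw [Complex.normSq_apply] at hn
    simp only [Complex.mul_im, Complex.conj_re, Complex.conj_im, Complex.neg_im,
      Complex.neg_re] at e
    apply Complex.ext
    · simp only [hl, Complex.real_smul, Complex.mul_re, Complex.ofReal_re, Complex.ofReal_im,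
        Complex.conj_re, Complex.conj_im, Complex.normSq_apply, zero_mul, sub_zero]
      rw [div_mul_eq_mul_div, eq_div_iff hn]
      linear_combination c.im * e
    · simp only [hl, Complex.real_smul, Complex.mul_re, Complex.mul_im, Complex.ofReal_re,
        Complex.ofReal_im, Complex.conj_re, Complex.conj_im, Complex.normSq_apply, zero_mul,
        add_zero]
      rw [div_mul_eq_mul_div, eq_div_iff hn]
      linear_combination -c.re * e
  obtain ⟨t, ht⟩ := k.rank h hu x (V (xi a b) u - lam • u.1) (by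
    rw [dW_sub, dW_smul]
    exact sub_eq_zero.mpr e1)
  have h1 := congrArg (fun z => ⟪z, u.2⟫) ht
  simp only [← hu', inner_sub_left, inner_V_xi h hx, inner_smul_left, xi, inner_add_left,
    cr_inner_right, hx.2.2, mul_zero, add_zero, sub_zero] at h1
  exact ha (neg_eq_zero.mp h1)

lemma dW_conj (k : P0 φ a b u₀ κ) (u : P) (ξ : E) :
    dW (fun w => (starRingEnd ℂ) (κ w)) u ξ = (starRingEnd ℂ) (dW κ u ξ) := by
  have := (Complex.conjCLE.toContinuousLinearMap.hasFDerivAt.comp u (k.diff u).hasFDerivAt).fderiv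
  exact congrArg (fun L : P →L[ℝ] ℂ => L (W u ξ)) this

lemma P0.conj (k : P0 φ a b u₀ κ) : P0 φ a b u₀ (fun w => (starRingEnd ℂ) (κ w)) where
  smooth := Complex.conjCLE.contDiff.comp k.smooth
  inv u hu t := by rw [k.inv u hu]
  zero := by rw [k.zero, map_zero]
  rank0 ξ e := k.rank0 ξ (by rwa [dW_conj k, map_eq_zero] at e)

lemma P0.pole (k : P0 φ a b u₀ κ) (h : PFlow φ a b) (hu : u₀ ∈ U) (hJ : Jac φ a b T) :
    ∃ κ, Pole φ a b T u₀ κ := by
  have s1 : ContDiff ℝ ∞ (fun x => V κ (φ x u₀)) :=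
    (contDiff_iff_contDiffAt.mpr fun _ => contDiffAt_V k.smooth.contDiffAt).comp
      (h.smooth.comp (contDiff_id.prodMk contDiff_const))
  have s2 : Continuous (deriv fun x => V κ (φ x u₀)) := s1.continuous_deriv (by simp)
  have s3 : Continuous fun x =>
      ((starRingEnd ℂ) (V κ (φ x u₀)) * deriv (fun x => V κ (φ x u₀)) x).im :=
    Complex.continuous_im.comp ((Complex.continuous_conj.comp s1.continuous).mul s2)
  rcases sign_const isPreconnected_univ s3.continuousOn (fun x _ => k.ne h hu x) with e | e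
  · exact ⟨κ, k.smooth, k.inv, k.zero, k.rank h hu, fun x => e x trivial, k.once h hu hJ⟩
  · refine ⟨_, k.conj.smooth, k.conj.inv, k.conj.zero, k.conj.rank h hu, fun x => ?_,
      k.conj.once h hu hJ⟩
    have e1 := e x trivial
    rw [(k.der h hu x).deriv] at e1
    rw [(k.conj.der h hu x).deriv, dW_conj k, V, dW_conj k]
    simp only [V, Complex.mul_im, Complex.conj_re, Complex.conj_im, Complex.neg_im,
      Complex.neg_re] at e1 ⊢
    linarith

variable {N : Set E} {f : E → ℝ}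

/-- The normal component of the variation field. -/
noncomputable def jj (φ : ℝ → P → P) (f : E → ℝ) (u₀ : P) (ζ : E) (s : ℝ) : ℝ :=
  dW (fun u => f (φ s u).1) u₀ ζ

lemma f_zero (hF : Fermi φ T u₀ N f) (h : PFlow φ a b) (hu : u₀ ∈ U) (x : ℝ) :
    f (φ x u₀).1 = 0 :=
  (hF.zero _ (hF.sub ⟨x, rfl⟩) (h.maps x u₀ hu).1).mpr ⟨x, rfl⟩

lemma F_sm (hF : Fermi φ T u₀ N f) (h : PFlow φ a b) :
    ContDiff ℝ ∞ (fun q : ℝ × P => f (φ q.1 q.2).1) := hF.smooth.comp h.smooth.fst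

lemma F_diff (hF : Fermi φ T u₀ N f) (h : PFlow φ a b) (s : ℝ) (u : P) :
    DifferentiableAt ℝ (fun u => f (φ s u).1) u :=
  (hF.smooth.comp (sl h s).fst).differentiable (by simp) u

lemma jj_sm (hF : Fermi φ T u₀ N f) (h : PFlow φ a b) (ζ : E) : ContDiff ℝ ∞ (jj φ f u₀ ζ) :=
  (ContDiff.fderiv (f := fun s u => f (φ s u).1) (g := fun _ => u₀) (F_sm hF h) contDiff_const
    (by simp)).clm_apply contDiff_const

lemma jj_per (hF : Fermi φ T u₀ N f) (h : ZFlow φ a b T) (hu : u₀ ∈ U) (ζ : E) :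
    Function.Periodic (jj φ f u₀ ζ) T := fun s =>
  dW_congr hu (F_diff hF h.toPFlow _ _) (F_diff hF h.toPFlow _ _)
    (fun w hw => by rw [h.add, h.per w hw]) ζ

lemma jj_xi (hF : Fermi φ T u₀ N f) (h : PFlow φ a b) (hu : u₀ ∈ U) (s : ℝ) :
    jj φ f u₀ (xi a b u₀) s = 0 := by
  have h1 := hasDerivAt_comp_W (f := fun u => f (φ s u).1) (c := fun r => φ r u₀) (t := 0)
    (F_diff hF h _ _) (h.ode u₀ hu 0)
  simp only [← h.add, f_zero hF h hu, h.zero] at h1
  exact h1.unique (hasDerivAt_const _ _)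

lemma jj_zero (hF : Fermi φ T u₀ N f) (h : PFlow φ a b) (ζ : E) :
    jj φ f u₀ ζ 0 = fderiv ℝ f u₀.1 (cr ζ u₀.1) := by
  have hd := (hF.smooth.differentiable (by simp) u₀.1).hasFDerivAt
  have := (hd.comp u₀ (hasFDerivAt_fst (𝕜 := ℝ) (p := u₀))).fderiv
  simp only [jj, h.zero]
  exact congrArg (fun L : P →L[ℝ] ℝ => L (W u₀ ζ)) this

lemma jj_der (hF : Fermi φ T u₀ N f) (h : PFlow φ a b) (hu : u₀ ∈ U) :
    HasDerivAt (jj φ f u₀ u₀.1) (a u₀ * fderiv ℝ f u₀.1 (cr u₀.1 u₀.2)) 0 := by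
  have da := diffAt_of_U h.asm hu
  have df : ∀ y, HasFDerivAt f (fderiv ℝ f y) y := fun y =>
    (hF.smooth.differentiable (by simp) y).hasFDerivAt
  have d1 : DifferentiableAt ℝ (fun w : P => fderiv ℝ f w.1) u₀ :=
    ((hF.smooth.fderiv_right (m := ∞) (by simp)).differentiable (by simp) _).comp u₀
      differentiableAt_fst
  have dg : DifferentiableAt ℝ (fun w : P => fderiv ℝ f w.1 (a w • w.2)) u₀ :=
    d1.clm_apply (da.fun_smul differentiableAt_snd)
  have h1 := hasDerivAt_dW_time (f := fun s u => f (φ s u).1)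
    (g := fun w : P => fderiv ℝ f w.1 (a w • w.2)) (τ := 0) hu (F_sm hF h).contDiffAt dg
    (fun w hw => by
      have := (df _).comp_hasDerivAt 0 (base_deriv h hw 0)
      rwa [h.zero] at this) u₀.1
  refine h1.congr_deriv (V_eq_of_hasDerivAt hu dg ?_)
  have h2 : fderiv ℝ f u₀.1 u₀.2 = 0 := by
    have := (df _).comp_hasDerivAt 0 (base_deriv h hu 0)
    rw [h.zero, show (f ∘ fun s => (φ s u₀).1) = fun _ => 0 from funext (f_zero hF h hu)] at this
    have h3 := this.unique (hasDerivAt_const _ _)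
    rw [map_smul, smul_eq_mul] at h3
    exact (mul_eq_zero.mp h3).resolve_left (h.apos _ hu).ne'
  have h3 := (hasDerivAt_V' h.asm hu 0).smul
    ((hasFDerivAt_snd (𝕜 := ℝ)).comp_hasDerivAt 0 (hasDerivAt_rho hu 0))
  have h4 := (fderiv ℝ f u₀.1).hasFDerivAt.comp_hasDerivAt 0 h3
  refine h4.congr_deriv ?_
  simp [W, h2]

lemma exists_P0 (hP : PIntStmt) (h : ZFlow φ a b T) (hu : u₀ ∈ U) (hF : Fermi φ T u₀ N f) :
    ∃ κ, P0 φ a b u₀ κ := by
  have hp := h.toPFlow
  obtain ⟨J1, s1, e1⟩ := hF.ext _ (jj_sm hF hp u₀.1) (jj_per hF h hu _)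
  obtain ⟨J2, s2, e2⟩ := hF.ext _ (jj_sm hF hp u₀.2) (jj_per hF h hu _)
  set J : E → ℂ := fun y => J1 y • (1 : ℂ) + J2 y • Complex.I with hJ
  have sJ : ContDiff ℝ ∞ J := (s1.smul contDiff_const).add (s2.smul contDiff_const)
  set G : P × ℝ → ℂ := fun q => f (φ q.2 q.1).1 • J (φ q.2 q.1).1 with hG
  have sφ : ContDiff ℝ ∞ (fun q : P × ℝ => (φ q.2 q.1).1) :=
    (hp.smooth.comp (contDiff_snd.prodMk contDiff_fst)).fst
  have sG : ContDiff ℝ ∞ G := (hF.smooth.comp sφ).smul (sJ.comp sφ)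
  have hI := fun u => (hP P ℂ univ G isOpen_univ sG.contDiffOn).1 0 T u fun _ _ => trivial
  refine ⟨fun u => ∫ s in (0 : ℝ)..T, G (u, s), contDiff_iff_contDiffAt.mpr fun u => (hI u).1,
    fun u hu t => ?_, ?_, fun ζ e => ?_⟩
  · have hper : Function.Periodic (fun s => G (u, s)) T := fun s => by
      simp only [hG, hp.add, h.per u hu]
    have := hper.intervalIntegral_add_eq t 0
    rw [zero_add] at this
    rw [← this, show (∫ s in (0 : ℝ)..T, G (φ t u, s)) = ∫ s in (0 : ℝ)..T, G (u, s + t) by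
      simp only [hG, hp.add], intervalIntegral.integral_comp_add_right (fun s => G (u, s)),
      zero_add, add_comm]
  · simp [hG, f_zero hF hp hu]
  · obtain ⟨α, β, γ, rfl⟩ := basis hp hu ζ
    set ζ := α • u₀.1 + β • u₀.2 + γ • xi a b u₀ with hζ
    have j1 : ∀ s, jj φ f u₀ ζ s = α * jj φ f u₀ u₀.1 s + β * jj φ f u₀ u₀.2 s := fun s => by
      have := jj_xi hF hp hu s
      simp only [jj, hζ, dW_add, dW_smul, smul_eq_mul] at this ⊢
      rw [this]; ring
    have j2 : ∀ s, fderiv ℝ G (u₀, s) (W u₀ ζ, 0) = jj φ f u₀ ζ s • J (φ s u₀).1 := fun s => by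
      have a1 := ((sG.differentiable (by simp) (u₀, s)).hasFDerivAt.comp u₀
        (hasFDerivAt_prodMk_left (𝕜 := ℝ) u₀ s)).fderiv
      have a2 : dW (fun u => G (u, s)) u₀ ζ = fderiv ℝ G (u₀, s) (W u₀ ζ, 0) :=
        congrArg (fun L : P →L[ℝ] ℂ => L (W u₀ ζ)) a1
      rw [← a2]
      simp only [hG]
      rw [dW_fsmul (g := fun u => J (φ s u).1) (F_diff hF hp s _)
        ((sJ.comp (sl hp s).fst).differentiable (by simp) _), f_zero hF hp hu, zero_smul, add_zero]
      rfl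
    have cj := (jj_sm hF hp ζ).continuous
    have cJ : Continuous fun s => jj φ f u₀ ζ s • J (φ s u₀).1 :=
      cj.smul (sJ.continuous.comp
        (hp.smooth.continuous.comp (continuous_id.prodMk continuous_const)).fst)
    have e3 : (∫ s in (0 : ℝ)..T, jj φ f u₀ ζ s • J (φ s u₀).1) = 0 := by
      rw [← e, dW, (hI u₀).2]; simp only [j2]
    have e4 := (α • Complex.reCLM + β • Complex.imCLM).intervalIntegral_comp_comm
      (cJ.intervalIntegrable (μ := MeasureTheory.volume) 0 T)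
    rw [e3, map_zero] at e4
    have e5 : (∫ s in (0 : ℝ)..T, jj φ f u₀ ζ s ^ 2) = 0 := by
      rw [← e4]
      congr 1
      funext s
      simp [hJ, e1, e2, j1 s]
      ring
    have e6 : ∀ s, jj φ f u₀ ζ s = 0 := by
      intro s
      obtain ⟨r, hr, e⟩ := (jj_per hF h hu ζ).exists_mem_Ico₀ h.Tpos s
      rw [e]
      by_contra hne
      exact (intervalIntegral.integral_pos h.Tpos (cj.pow 2).continuousOn
        (fun x _ => sq_nonneg _) ⟨r, Ico_subset_Icc_self hr, sq_pos_of_ne_zero hne⟩).ne' e5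
    have g0 : 0 < fderiv ℝ f u₀.1 (cr u₀.1 u₀.2) := by
      have := hF.grad 0
      rwa [hp.zero] at this
    have hβ : β = 0 := by
      have := e6 0
      rw [j1, jj_zero hF hp, jj_zero hF hp, cr_self, map_zero, cr_anti, map_neg] at this
      nlinarith [mul_eq_zero.mp (show β * fderiv ℝ f u₀.1 (cr u₀.1 u₀.2) = 0 by linarith)]
    have hα : α = 0 := by
      have h1 := (jj_der hF hp hu).const_mul α
      rw [show (fun s => α * jj φ f u₀ u₀.1 s) = fun _ => 0 from funext fun s => by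
        have := e6 s
        rwa [j1, hβ, zero_mul, add_zero] at this] at h1
      exact (mul_eq_zero.mp (h1.unique (hasDerivAt_const _ _))).resolve_right
        (mul_pos (hp.apos _ hu) g0).ne'
    exact ⟨γ, by rw [hζ, hα, hβ]; simp⟩

end PoleA

theorem pole_of (hP : PIntStmt) : PoleStmt := by
  intro φ a b T u₀ N f h hu hF hJ
  obtain ⟨κ, k⟩ := PoleA.exists_P0 hP h hu hF
  exact k.pole h.toPFlow hu hJ

end Pool.Agent.MP_2291e2_gt.Zl
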