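import Pool.Agent.MP_2291e2_gt.zl.Spec2

/-! Pull-backs of the round metric are Zoll. -/

open scoped ContDiff RealInnerProductSpace Topology
open Set Filter Real

namespace Pool.Agent.MP_2291e2_gt.Zl

namespace Pull

lemma ne_of_unit {x : E} (h : ‖x‖ = 1) : x ≠ 0 := fun h0 => by simp [h0] at h

lemma cda {ψ : E → E} (h : ContDiffOn ℝ ∞ ψ {0}ᶜ) {x : E} (hx : x ≠ 0) : ContDiffAt ℝ ∞ ψ x :=
  h.contDiffAt (isOpen_compl_singleton.mem_nhds hx)

lemma hasF {ψ : E → E} (h : ContDiffOn ℝ ∞ ψ {0}ᶜ) {x : E} (hx : x ≠ 0) :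
    HasFDerivAt ψ (fderiv ℝ ψ x) x :=
  ((cda h hx).differentiableAt (by simp)).hasFDerivAt

lemma hasF2 {ψ : E → E} (h : ContDiffOn ℝ ∞ ψ {0}ᶜ) {x : E} (hx : x ≠ 0) :
    HasFDerivAt (fderiv ℝ ψ) (fderiv ℝ (fderiv ℝ ψ) x) x :=
  (((cda h hx).fderiv_right (m := ∞) (by simp)).differentiableAt (by simp)).hasFDerivAt

/-- A curve on the sphere with a given initial velocity. -/
lemma curve {x w : E} (h : Tan x w) :
    ∃ c : ℝ → E, (∀ t, ‖c t‖ = 1) ∧ c 0 = x ∧ HasDerivAt c w 0 := by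
  have n0 : ‖w‖ ≠ 0 := by simpa using h.2.2
  refine ⟨fun t => cos (‖w‖ * t) • x + (sin (‖w‖ * t) / ‖w‖) • w, fun t => ?_, by simp, ?_⟩
  · have e : ‖cos (‖w‖ * t) • x + (sin (‖w‖ * t) / ‖w‖) • w‖ ^ 2 = 1 ^ 2 := by
      rw [norm_add_sq_real, real_inner_smul_left, real_inner_smul_right, h.2.1, norm_smul,
        norm_smul, mul_pow, mul_pow, Real.norm_eq_abs, Real.norm_eq_abs, sq_abs, sq_abs, h.1]
      field_simp
      linear_combination ‖w‖ * sin_sq_add_cos_sq (‖w‖ * t)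
    exact (pow_left_inj₀ (norm_nonneg _) zero_le_one two_ne_zero).1 e
  · have a : HasDerivAt (fun t : ℝ => ‖w‖ * t) ‖w‖ 0 := by
      simpa using (hasDerivAt_id (0 : ℝ)).const_mul ‖w‖
    have := (a.cos.smul_const x).add ((a.sin.div_const ‖w‖).smul_const w)
    refine this.congr_deriv ?_
    simp [n0]

lemma congr_fderiv {ψ ψ' : E → E} (A : E ≃ₗᵢ[ℝ] E) (h : ContDiffOn ℝ ∞ ψ {0}ᶜ)
    (h' : ContDiffOn ℝ ∞ ψ' {0}ᶜ) (e : ∀ y, ‖y‖ = 1 → ψ' y = A (ψ y)) {x w : E} (ht : Tan x w) :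
    fderiv ℝ ψ' x w = A (fderiv ℝ ψ x w) := by
  obtain ⟨c, hc, h0, hd⟩ := curve ht
  have hx := ne_of_unit ht.1
  have a := (h0 ▸ hasF h hx).comp_hasDerivAt 0 hd
  have b := (h0 ▸ hasF h' hx).comp_hasDerivAt 0 hd
  have a' := A.toContinuousLinearEquiv.hasFDerivAt.comp_hasDerivAt 0 a
  have e' : (ψ' ∘ c) = (A.toContinuousLinearEquiv ∘ (ψ ∘ c)) := by
    ext1 t; simp [e _ (hc t)]
  rw [e'] at b
  simpa [h0] using b.unique a'

lemma fderiv_pull {ψ : E → E} (h : ContDiffOn ℝ ∞ ψ {0}ᶜ) {x : E} (hx : x ≠ 0) (w a b : E) :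
    fderiv ℝ (pull ψ) (x, w) (a, b)
      = ⟪fderiv ℝ ψ x w, fderiv ℝ (fderiv ℝ ψ) x a w + fderiv ℝ ψ x b⟫ := by
  have h1 : HasFDerivAt (fun u : P => fderiv ℝ ψ u.1)
      ((fderiv ℝ (fderiv ℝ ψ) x).comp (ContinuousLinearMap.fst ℝ E E)) (x, w) :=
    HasFDerivAt.comp (x, w) (g := fderiv ℝ ψ) (f := Prod.fst) (hasF2 h hx) hasFDerivAt_fst
  have h2 := h1.clm_apply (hasFDerivAt_snd (𝕜 := ℝ) (p := (x, w)))
  have h3 := (h2.norm_sq).mul_const (1 / 2 : ℝ)
  have e : pull ψ = fun u : P => ‖fderiv ℝ ψ u.1 u.2‖ ^ 2 * (1 / 2) := by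
    ext u; simp [pull, div_eq_mul_inv]
  rw [e, h3.fderiv]
  simp [inner_add_right, add_comm]

lemma sm {Ψ : ℝ → E → E} (h : SphIso Ψ) : Sm (fun s => pull (Ψ s)) := by
  intro q hq
  have hx : q.2.1 ≠ 0 := Ind_fst_ne hq.2
  have h1 : ContDiffAt ℝ ∞ (fun q : ℝ × E => Ψ q.1 q.2) (q.1, q.2.1) :=
    h.1.contDiffAt ((isOpen_univ.prod isOpen_compl_singleton).mem_nhds ⟨trivial, hx⟩)
  have h2 : ContDiffAt ℝ ∞ (fun p : ℝ × P => Ψ p.1 p.2.1) q :=
    ContDiffAt.comp q (g := fun q : ℝ × E => Ψ q.1 q.2) (f := fun p : ℝ × P => (p.1, p.2.1)) h1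
      (by fun_prop)
  have h3 := contDiffAt_fderiv_slice (f := fun s (u : P) => Ψ s u.1) h2
    (A := fun p : ℝ × P => (p.2.2, 0)) (by fun_prop)
  have h4 : ContDiffAt ℝ ∞ (fun p : ℝ × P => fderiv ℝ (Ψ p.1) p.2.1 p.2.2) q := by
    refine h3.congr_of_eventuallyEq ?_
    have : ∀ᶠ p : ℝ × P in 𝓝 q, p.2.1 ≠ 0 :=
      (isOpen_compl_singleton.preimage (f := fun p : ℝ × P => p.2.1) (by fun_prop)).mem_nhds hx
    filter_upwards [this] with p hp
    have := HasFDerivAt.comp p.2 (g := Ψ p.1) (f := Prod.fst) (hasF (h.2 p.1).1 hp)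
      (hasFDerivAt_fst (𝕜 := ℝ))
    have e : (fun u : P => Ψ p.1 u.1) = Ψ p.1 ∘ Prod.fst := rfl
    rw [e, this.fderiv]
    simp
  exact ((h4.norm_sq ℝ).div_const 2).contDiffWithinAt

lemma finsler {ψ : E → E} (h : IsoDiff ψ) : IsFinsler (pull ψ) where
  smooth := (sm (Ψ := fun _ => ψ) ⟨h.1.comp contDiffOn_snd (fun _ hq => hq.2), fun _ => h⟩).slice 0
  pos x w ht := by
    have := norm_pos_iff.2 (h.2.2 x w ht)
    simp only [pull]; positivity
  hom x w _ t _ := by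
    simp only [pull, map_smul, norm_smul, mul_pow, Real.norm_eq_abs, sq_abs]; ring
  convex x w z _ hz := by
    have hb := norm_pos_iff.2 (h.2.2 x z hz)
    set a := fderiv ℝ ψ x w
    set b := fderiv ℝ ψ x z
    have e : (fun t : ℝ => pull ψ (x, w + t • z))
        = fun t => ‖a‖ ^ 2 / 2 + ⟪a, b⟫ * t + ‖b‖ ^ 2 / 2 * t ^ 2 := by
      ext t
      simp only [pull, map_add, map_smul]
      rw [norm_add_sq_real, real_inner_smul_right, norm_smul, mul_pow, Real.norm_eq_abs, sq_abs]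
      ring
    have d1 : ∀ t : ℝ, HasDerivAt (fun t : ℝ => ‖a‖ ^ 2 / 2 + ⟪a, b⟫ * t + ‖b‖ ^ 2 / 2 * t ^ 2)
        (⟪a, b⟫ + ‖b‖ ^ 2 * t) t := fun t => by
      have := (((hasDerivAt_id t).const_mul ⟪a, b⟫).const_add (‖a‖ ^ 2 / 2)).add
        ((hasDerivAt_pow 2 t).const_mul (‖b‖ ^ 2 / 2))
      refine (this.congr_deriv ?_)
      simp; ring
    have d2 : HasDerivAt (fun t : ℝ => ⟪a, b⟫ + ‖b‖ ^ 2 * t) (‖b‖ ^ 2) 0 := by
      simpa using ((hasDerivAt_id (0 : ℝ)).const_mul (‖b‖ ^ 2)).const_add ⟪a, b⟫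
    rw [e, iteratedDeriv_succ, iteratedDeriv_one, funext fun t => (d1 t).deriv, d2.deriv]
    positivity

lemma tangent {ψ : E → E} (h : IsoDiff ψ) {x w : E} (ht : Tan x w) :
    ⟪ψ x, fderiv ℝ ψ x w⟫ = 0 := by
  obtain ⟨c, hc, h0, hd⟩ := curve ht
  have a := (h0 ▸ hasF h.1 (ne_of_unit ht.1)).comp_hasDerivAt 0 hd
  have b := hasDerivAt_inner a a
  have e : (fun t => ⟪(ψ ∘ c) t, (ψ ∘ c) t⟫) = fun _ => (1 : ℝ) := by
    ext t
    have : ‖ψ (c t)‖ = 1 := by simpa using h.2.1.mapsTo (x := c t) (by simpa using hc t)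
    simp [this]
  rw [e] at b
  have := b.unique (hasDerivAt_const _ _)
  simp only [Function.comp, h0] at this
  rw [real_inner_comm (ψ x)] at this
  linarith

/-- The harmonic oscillator. -/
lemma osc {y v : ℝ → E} (hy : ∀ t, HasDerivAt y (v t) t) (hv : ∀ t, HasDerivAt v (-y t) t)
    (t : ℝ) : y t = cos t • y 0 + sin t • v 0 := by
  have f1 : ∀ t, HasDerivAt (fun t => cos t • y t - sin t • v t) 0 t := fun t => by
    have := ((hasDerivAt_cos t).smul (hy t)).sub ((hasDerivAt_sin t).smul (hv t))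
    refine this.congr_deriv ?_
    module
  have f2 : ∀ t, HasDerivAt (fun t => sin t • y t + cos t • v t) 0 t := fun t => by
    have := ((hasDerivAt_sin t).smul (hy t)).add ((hasDerivAt_cos t).smul (hv t))
    refine this.congr_deriv ?_
    module
  have c1 := is_const_of_deriv_eq_zero (fun t => (f1 t).differentiableAt)
    (fun t => (f1 t).deriv) t 0
  have c2 := is_const_of_deriv_eq_zero (fun t => (f2 t).differentiableAt)
    (fun t => (f2 t).deriv) t 0
  simp only [cos_zero, sin_zero, one_smul, zero_smul, sub_zero, zero_add] at c1 c2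
  rw [← c1, ← c2]
  have : y t = (sin t ^ 2 + cos t ^ 2) • y t := by rw [sin_sq_add_cos_sq, one_smul]
  rw [this]
  nth_rewrite 2 3 [← this]
  module

lemma great {ψ : E → E} (h : IsoDiff ψ) {c : ℝ → E} (hc : IsGeodesic (pull ψ) c) :
    ∃ y₀ v₀ : E, ‖y₀‖ = 1 ∧ ‖v₀‖ = 1 ∧ ⟪y₀, v₀⟫ = 0 ∧
      ∀ t, ψ (c t) = cos t • y₀ + sin t • v₀ := by
  have hx : ∀ t, c t ≠ 0 := fun t => ne_of_unit (hc.tangent t).1
  have d1 : ∀ t, HasDerivAt c (deriv c t) t := fun t =>
    (hc.smooth.differentiable (by simp) t).hasDerivAt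
  have d2 : ∀ t, HasDerivAt (deriv c) (deriv (deriv c) t) t := fun t =>
    ((hc.smooth.differentiable_deriv_two) t).hasDerivAt
  set y : ℝ → E := fun t => ψ (c t) with hy
  set v : ℝ → E := fun t => fderiv ℝ ψ (c t) (deriv c t) with hv
  have dy : ∀ t, HasDerivAt y (v t) t := fun t => (hasF h.1 (hx t)).comp_hasDerivAt t (d1 t)
  have dD : ∀ t, HasDerivAt (fun t => fderiv ℝ ψ (c t))
      (fderiv ℝ (fderiv ℝ ψ) (c t) (deriv c t)) t := fun t =>
    (hasF2 h.1 (hx t)).comp_hasDerivAt t (d1 t)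
  have ny : ∀ t, ‖y t‖ = 1 := fun t => by
    simpa using h.2.1.mapsTo (x := c t) (by simpa using (hc.tangent t).1)
  have nv : ∀ t, ‖v t‖ = 1 := fun t => by
    have := hc.unit t
    simp only [pull] at this
    exact (pow_left_inj₀ (norm_nonneg _) zero_le_one two_ne_zero).1 (by linarith)
  have yv : ∀ t, ⟪y t, v t⟫ = 0 := fun t => tangent h (hc.tangent t)
  have dv : ∀ t, HasDerivAt v (-y t) t := fun t => by
    obtain ⟨a, da⟩ : ∃ a, HasDerivAt v a t := ⟨_, (dD t).clm_apply (d2 t)⟩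
    have key : ∀ z, ⟪c t, z⟫ = 0 → ⟪a, fderiv ℝ ψ (c t) z⟫ = 0 := by
      intro z hz
      have e := hc.euler t z hz
      have e1 : (fun s => fderiv ℝ (pull ψ) (c s, deriv c s) (0, z))
          = fun s => ⟪v s, fderiv ℝ ψ (c s) z⟫ := by
        ext s; rw [fderiv_pull h.1 (hx s)]; simp [hv]
      have e2 := hasDerivAt_inner da ((dD t).clm_apply (hasDerivAt_const t z))
      rw [e1, e2.deriv, fderiv_pull h.1 (hx t), snd_symm (cda h.1 (hx t)) z] at e
      simpa [hv] using e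
    have ay : ⟪a, y t⟫ = -1 := by
      have b := hasDerivAt_inner (dy t) da
      rw [funext yv] at b
      have := b.unique (hasDerivAt_const _ _)
      rw [real_inner_self_eq_norm_sq, nv, real_inner_comm] at this
      linarith
    have av : ⟪a, v t⟫ = 0 := key _ (hc.tangent t).2.1
    have tz : ∀ l : ℝ, Tan (c t) (cr (c t) (deriv c t) - l • deriv c t) := fun l => by
      refine ⟨(hc.tangent t).1, by simp [inner_sub_right, inner_smul_right, (hc.tangent t).2.1],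
        fun h0 => ?_⟩
      have h1 := congrArg (fun a => ⟪cr (c t) (deriv c t), a⟫) h0
      simp only [inner_sub_right, inner_smul_right, inner_zero_right] at h1
      rw [real_inner_comm (deriv c t), inner_cr_right, mul_zero, sub_zero, inner_self_eq_zero] at h1
      exact mem_Ind.1 (hc.tangent t).mem_Ind h1
    set b := fderiv ℝ ψ (c t) (cr (c t) (deriv c t)) with hb
    have by0 : ⟪b, y t⟫ = 0 := by
      have := tangent h (tz 0)
      rw [real_inner_comm]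
      simpa using this
    have ab : ⟪a, b⟫ = 0 := key _ (by simp)
    have fb := frame (y t) (v t) b (ny t) (nv t) (yv t)
    have bn : ⟪b, cr (y t) (v t)⟫ ≠ 0 := fun h0 => by
      refine h.2.2 _ _ (tz ⟪b, v t⟫) ?_
      rw [map_sub, map_smul, ← hb, sub_eq_zero]
      rw [by0, h0, zero_smul, zero_smul, zero_add, add_zero] at fb
      exact fb
    have an : ⟪a, cr (y t) (v t)⟫ = 0 := by
      rw [fb, inner_add_right, inner_add_right, inner_smul_right, inner_smul_right,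
        inner_smul_right, by0, av, zero_mul, mul_zero, zero_add, zero_add] at ab
      exact (mul_eq_zero.1 ab).resolve_left bn
    have fa := frame (y t) (v t) a (ny t) (nv t) (yv t)
    rw [ay, av, an] at fa
    refine da.congr_deriv ?_
    rw [fa]; simp
  exact ⟨y 0, v 0, ny 0, nv 0, yv 0, osc dy dv⟩

lemma zoll {ψ : E → E} (h : IsoDiff ψ) : IsZoll (pull ψ) := by
  refine ⟨finsler h, 2 * π, two_pi_pos, fun c hc => ?_⟩
  obtain ⟨y, v, ny, nv, yv, e⟩ := great h hc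
  have hs : ∀ t, c t ∈ Metric.sphere (0 : E) 1 := fun t => by simpa using (hc.tangent t).1
  refine ⟨fun t => h.2.1.injOn (hs _) (hs _) (by rw [e, e, cos_add_two_pi, sin_add_two_pi]),
    fun s hs' t ht' est => ?_⟩
  have e1 : cos s • y + sin s • v = cos t • y + sin t • v := by rw [← e, ← e, est]
  have vy : ⟪v, y⟫ = 0 := by rw [real_inner_comm]; exact yv
  have a := congrArg (fun a => ⟪y, a⟫) e1
  have b := congrArg (fun a => ⟪v, a⟫) e1
  simp only [inner_add_right, inner_smul_right, yv, vy, real_inner_self_eq_norm_sq, ny, nv] at a b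
  have : cos (s - t) = 1 := by
    rw [cos_sub, show cos s = cos t by linarith, show sin s = sin t by linarith]
    nlinarith [sin_sq_add_cos_sq t]
  have := (cos_eq_one_iff_of_lt_of_lt (by linarith [hs'.1, ht'.2]) (by linarith [hs'.2, ht'.1])).1
    this
  linarith

end Pull

theorem pull_of : PullStmt :=
  ⟨fun Ψ h => ⟨fun s => pull (Ψ s), Pull.sm h, fun s => Pull.zoll (h.2 s), fun _ _ _ => rfl,
      fun _ _ _ => rfl⟩,
    fun ψ ψ' A h h' e x w ht => by
      simp only [pull, Pull.congr_fderiv A h h' e ht, LinearIsometryEquiv.norm_map]⟩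

end Pool.Agent.MP_2291e2_gt.Zl
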