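import Pool.Agent.MP_2291e2_gt.zl.Spec2

/-! Row S: the support covector `pG` satisfies the structure equation. -/

open scoped ContDiff RealInnerProductSpace Topology
open Set Filter Real

namespace Pool.Agent.MP_2291e2_gt.Zl

namespace S

lemma Nv_eq (G : P → E) (u : P) : Nv G u =
    mm G u (EuclideanSpace.single 0 1) • EuclideanSpace.single 0 (1 : ℝ)
      + mm G u (EuclideanSpace.single 1 1) • EuclideanSpace.single 1 (1 : ℝ)
      + mm G u (EuclideanSpace.single 2 1) • EuclideanSpace.single 2 (1 : ℝ) :=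
  ext3 (by simp [Nv]) (by simp [Nv]) (by simp [Nv])

lemma inner_Nv (G : P → E) (u : P) (ξ : E) : ⟪Nv G u, ξ⟫ = mm G u ξ := by
  rw [lin_expand (mm_lin G u) ξ, inner3]
  simp [Nv]
  ring

lemma sm_mm {G : ℝ → P → E} (h : Sm G) (ξ : E) : Sm fun s u => mm (G s) u ξ :=
  ContDiffOn.dt' h (h.dW (ξ := fun _ => ξ) contDiffOn_const) h.V

lemma sm_Nv {G : ℝ → P → E} (h : Sm G) : Sm fun s u => Nv (G s) u := by
  simp only [Nv_eq]
  exact (((sm_mm h _).smul contDiffOn_const).add ((sm_mm h _).smul contDiffOn_const)).add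
    ((sm_mm h _).smul contDiffOn_const)

/-- The integral of `Nv` over a half fibre. -/
noncomputable def II (G : P → E) (u : P) : E := ∫ s in (0 : ℝ)..π, Nv G (rho s u)

lemma sm_II (hP : PIntStmt) {G : ℝ → P → E} (h : Sm G) : Sm fun s u => II (G s) u := by
  intro q hq
  have hO : IsOpen {z : (ℝ × P) × ℝ | z.1.2 ∈ Ind} :=
    isOpen_Ind.preimage (continuous_snd.comp continuous_fst)
  have hf : ContDiffOn ℝ ∞ (fun z : (ℝ × P) × ℝ => Nv (G z.1.1) (rho z.2 z.1.2))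
      {z : (ℝ × P) × ℝ | z.1.2 ∈ Ind} := by
    have hr : ContDiff ℝ ∞ (fun z : (ℝ × P) × ℝ => (z.1.1, rho z.2 z.1.2)) :=
      contDiff_fst.fst.prodMk (contDiff_rho.comp (contDiff_snd.prodMk contDiff_fst.snd))
    exact ContDiffOn.comp (g := fun q : ℝ × P => Nv (G q.1) q.2)
      (f := fun z : (ℝ × P) × ℝ => (z.1.1, rho z.2 z.1.2)) (sm_Nv h) hr.contDiffOn
      fun z hz => ⟨mem_univ _, rho_mem_Ind hz _⟩
  exact (((hP (ℝ × P) E _ _ hO hf).1 0 π q fun s _ => hq.2).1).contDiffWithinAt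

lemma sm_pG (hP : PIntStmt) {G : ℝ → P → E} (h : Sm G) : Sm fun s => pG (G s) :=
  (ContDiffOn.cr' (sm_II hP h) contDiffOn_snd.fst).const_smul (1 / 2 : ℝ)

lemma Nv_odd {G : P → E} (h : Odd1 G) {u : P} (hu : u ∈ U) : Nv G (rev u) = -Nv G u := by
  simp only [Nv_eq, mm_odd h.smooth h.odd hu]
  module

lemma II_odd {G : P → E} (h : Odd1 G) {u : P} (hu : u ∈ U) : II G (rev u) = -II G u := by
  rw [II, II, ← intervalIntegral.integral_neg]
  congr 1
  funext s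
  rw [rho_rev, Nv_odd h (rho_mem_U hu s)]

lemma pG_odd {G : P → E} (h : Odd1 G) {u : P} (hu : u ∈ U) : pG G (rev u) = -pG G u := by
  change (1 / 2 : ℝ) • cr (II G (rev u)) u.1 = -((1 / 2 : ℝ) • cr (II G u) u.1)
  rw [II_odd h hu, cr_neg_left, smul_neg]

lemma V_II {G : P → E} (h : Odd1 G) (hN : ContDiffOn ℝ ∞ (Nv G) Ind)
    (hI : ContDiffOn ℝ ∞ (II G) Ind) {u : P} (hu : u ∈ U) : V (II G) u = (-2 : ℝ) • Nv G u := by
  refine V_eq_of_hasDerivAt hu (diffAt_of_U hI hu) ?_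
  have hc : Continuous fun s => Nv G (rho s u) :=
    (contDiff_fibre (fun w hw => contDiffAt_of_U hN hw) hu).continuous
  have e : (fun r => II G (rho r u)) = fun r =>
      (∫ s in (0 : ℝ)..(π + r), Nv G (rho s u)) - ∫ s in (0 : ℝ)..r, Nv G (rho s u) := by
    funext r
    rw [intervalIntegral.integral_interval_sub_left (hc.intervalIntegrable _ _)
      (hc.intervalIntegrable _ _), II]
    simp only [rho_add hu]
    rw [intervalIntegral.integral_comp_add_right (fun s => Nv G (rho s u)) r, zero_add]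
  rw [e]
  have h0 : ∀ t, HasDerivAt (fun r => ∫ s in (0 : ℝ)..r, Nv G (rho s u)) (Nv G (rho t u)) t :=
    fun t => (hc.integral_hasStrictDerivAt 0 t).hasDerivAt
  have h1 : HasDerivAt (fun r => ∫ s in (0 : ℝ)..(π + r), Nv G (rho s u)) (Nv G (rho π u)) 0 :=
    HasDerivAt.comp_const_add (f := fun r => ∫ s in (0 : ℝ)..r, Nv G (rho s u)) π 0
      (by rw [add_zero]; exact h0 π)
  refine (h1.sub (h0 0)).congr_deriv ?_
  rw [rho_pi, rho_zero, Nv_odd h hu]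
  module

lemma V_pG {G : P → E} (h : Odd1 G) (hN : ContDiffOn ℝ ∞ (Nv G) Ind)
    (hI : ContDiffOn ℝ ∞ (II G) Ind) {u : P} (hu : u ∈ U) :
    V (pG G) u = -cr (Nv G u) u.1 := by
  have d := diffAt_of_U hI hu
  change dW (fun w => (1 / 2 : ℝ) • cr (II G w) w.1) u u.1 = _
  rw [dW_csmul _ (DifferentiableAt.cr' d differentiableAt_fst), dW_cr d differentiableAt_fst,
    dW_fst, cr_self, cr_zero_right, add_zero]
  change (1 / 2 : ℝ) • cr (V (II G) u) u.1 = _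
  rw [V_II h hN hI hu, cr_smul_left]
  module

lemma dt_perp {g a b c : E} (hg : ‖g‖ = 1) (ha : ⟪g, a⟫ = 0) (hb : ⟪g, b⟫ = 0)
    (hc : ⟪g, c⟫ = 0) : dt a b c = 0 := by
  have h1 : ‖g‖ ^ 2 = 1 := by rw [hg]; norm_num
  rw [normsq3] at h1
  rw [inner3] at ha hb hc
  rw [dt3]
  linear_combination
    (-(a 0 * (b 1 * c 2 - b 2 * c 1) + a 1 * (b 2 * c 0 - b 0 * c 2)
      + a 2 * (b 0 * c 1 - b 1 * c 0))) * h1
    + (g 0 * (b 1 * c 2 - b 2 * c 1) + g 1 * (b 2 * c 0 - b 0 * c 2)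
      + g 2 * (b 0 * c 1 - b 1 * c 0)) * ha
    - (g 0 * (a 1 * c 2 - a 2 * c 1) + g 1 * (a 2 * c 0 - a 0 * c 2)
      + g 2 * (a 0 * c 1 - a 1 * c 0)) * hb
    + (g 0 * (a 1 * b 2 - a 2 * b 1) + g 1 * (a 2 * b 0 - a 0 * b 2)
      + g 2 * (a 0 * b 1 - a 1 * b 0)) * hc

/-- The defect of the structure equation. -/
noncomputable def DD (G p : P → E) (a b : E) (u : P) : ℝ :=
  ⟪dW p u a, cr b u.1⟫ - ⟪dW p u b, cr a u.1⟫ - dt (G u) (dW G u a) (dW G u b)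

lemma alg {n y a b A B : E} (hy : ‖y‖ = 1) (hn : ⟪n, y⟫ = 0) (hA : ⟪A, y⟫ + ⟪n, cr a y⟫ = 0)
    (hB : ⟪B, y⟫ + ⟪n, cr b y⟫ = 0) :
    ⟪-(cr A y + cr n (cr a y)), cr b y⟫ - ⟪-(cr B y + cr n (cr b y)), cr a y⟫
      = ⟪B, a⟫ - ⟪A, b⟫ - ⟪n, cr a b⟫ := by
  have h1 : ⟪y, y⟫ = 1 := by rw [real_inner_self_eq_norm_sq, hy]; norm_num
  have k : ⟪y, y⟫ * ⟪n, cr a b⟫ - ⟪y, b⟫ * ⟪n, cr a y⟫ + ⟪y, a⟫ * ⟪n, cr b y⟫
      = ⟪n, y⟫ * dt y a b := by
    simp only [inner3, dt3, cr_0, cr_1, cr_2]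
    ring
  simp only [inner_neg_left, inner_add_left, inner_cr_cr, cr_inner_right]
  rw [h1, hn] at *
  linear_combination (-⟪y, b⟫) * (-1) * hA - ⟪y, a⟫ * hB + k

lemma V_DD {G : P → E} (h : Odd1 G) (hN : ContDiffOn ℝ ∞ (Nv G) Ind)
    (hI : ContDiffOn ℝ ∞ (II G) Ind) (hp : ContDiffOn ℝ ∞ (pG G) Ind) (a b : E) {u : P}
    (hu : u ∈ U) : V (DD G (pG G) a b) u = 0 := by
  have dG := diffAt_of_U h.smooth hu
  have dN := diffAt_of_U hN hu
  have dGx : ∀ ξ : E, DifferentiableAt ℝ (fun w => dW G w ξ) u := fun ξ =>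
    diffAt_of_U (contDiffOn_dW h.smooth contDiffOn_const) hu
  have dpx : ∀ ξ : E, DifferentiableAt ℝ (fun w => dW (pG G) w ξ) u := fun ξ =>
    diffAt_of_U (contDiffOn_dW hp contDiffOn_const) hu
  have dV := diffAt_of_U (contDiffOn_V h.smooth) hu
  have dc : ∀ ξ : E, DifferentiableAt ℝ (fun w : P => cr ξ w.1) u := fun ξ =>
    DifferentiableAt.cr' (differentiableAt_const _) differentiableAt_fst
  have perp : ∀ ξ, ⟪G u, dW G u ξ⟫ = 0 := inner_dW_unit h.smooth h.unit hu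
  have c1 : ∀ ξ : E, dW (fun w : P => cr ξ w.1) u u.1 = 0 := by
    intro ξ
    rw [dW_cr (differentiableAt_const _) differentiableAt_fst, dW_const, dW_fst]
    simp
  have c2 : ∀ ξ : E, dW (fun w => dW (pG G) w ξ) u u.1
      = -(cr (dW (Nv G) u ξ) u.1 + cr (Nv G u) (cr ξ u.1)) := by
    intro ξ
    change V (fun w => dW (pG G) w ξ) u = _
    rw [V_dW_comm (contDiffAt_of_U hp hu), dW_congr (g := fun w => -cr (Nv G w) w.1) hu
      (diffAt_of_U (contDiffOn_V hp) hu) (DifferentiableAt.cr' dN differentiableAt_fst).neg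
      (fun w hw => V_pG h hN hI hw), dW_neg, dW_cr dN differentiableAt_fst, dW_fst]
  have c3 : ∀ ξ : E, ⟪dW (Nv G) u ξ, u.1⟫ + ⟪Nv G u, cr ξ u.1⟫ = 0 := by
    intro ξ
    rw [← dW_fst, ← dW_inner dN differentiableAt_fst]
    simp only [inner_Nv, mm_fst, dW_const]
  have c4 : ∀ ξ ζ : E, ⟪dW (Nv G) u ξ, ζ⟫ = dt (G u) (dW (fun w => dW G w ζ) u ξ) (V G u)
      + dt (G u) (dW G u ζ) (dW (V G) u ξ) := by
    intro ξ ζ
    have e := dW_inner dN (differentiableAt_const ζ) ξ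
    rw [dW_const, inner_zero_right, add_zero] at e
    rw [← e]
    simp only [inner_Nv, mm]
    rw [dW_dt dG (dGx ζ) dV, dt_perp (c := V G u) (h.unit u hu) (perp ξ) (perp ζ) (perp u.1),
      zero_add]
  have c5 : ∀ ξ : E, dW (fun w => dW G w ξ) u u.1 = dW (V G) u ξ := fun ξ =>
    V_dW_comm (contDiffAt_of_U h.smooth hu) ξ
  have c6 := dW_comm (contDiffAt_of_U h.smooth hu) b a
  change dW (fun w => ⟪dW (pG G) w a, cr b w.1⟫ - ⟪dW (pG G) w b, cr a w.1⟫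
    - dt (G w) (dW G w a) (dW G w b)) u u.1 = 0
  rw [dW_fsub (((dpx a).inner ℝ (dc b)).fun_sub ((dpx b).inner ℝ (dc a)))
      (DifferentiableAt.dt' dG (dGx a) (dGx b)),
    dW_fsub ((dpx a).inner ℝ (dc b)) ((dpx b).inner ℝ (dc a)), dW_inner (dpx a) (dc b),
    dW_inner (dpx b) (dc a), dW_dt dG (dGx a) (dGx b), c1, c1, c2, c2, c5, c5,
    dt_perp (h.unit u hu) (perp u.1) (perp a) (perp b), inner_zero_right, inner_zero_right,
    add_zero, add_zero, zero_add,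
    alg hu.1 (by rw [inner_Nv, mm_fst]) (c3 a) (c3 b), c4, c4, inner_Nv, mm, ← c6]
  simp only [dt3, PiLp.sub_apply]
  ring

lemma str {G : P → E} (h : Odd1 G) (hN : ContDiffOn ℝ ∞ (Nv G) Ind)
    (hI : ContDiffOn ℝ ∞ (II G) Ind) (hp : ContDiffOn ℝ ∞ (pG G) Ind) :
    Str G (pG G) fun _ => 1 := by
  intro u hu a b
  have hD : ContDiffOn ℝ ∞ (DD G (pG G) a b) Ind :=
    (((contDiffOn_dW hp contDiffOn_const).inner ℝ
      (ContDiffOn.cr' contDiffOn_const contDiffOn_fst)).sub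
      ((contDiffOn_dW hp contDiffOn_const).inner ℝ
        (ContDiffOn.cr' contDiffOn_const contDiffOn_fst))).sub
      (ContDiffOn.dt' h.smooth (contDiffOn_dW h.smooth contDiffOn_const)
        (contDiffOn_dW h.smooth contDiffOn_const))
  have h0 : ∀ s, HasDerivAt (fun s => DD G (pG G) a b (rho s u)) 0 s := fun s =>
    V_DD h hN hI hp a b (rho_mem_U hu s) ▸ hasDerivAt_V' hD hu s
  have h1 := is_const_of_deriv_eq_zero (fun s => (h0 s).differentiableAt) (fun s => (h0 s).deriv)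
    π 0
  have ho : ∀ w ∈ U, pG G (rev w) = -pG G w := fun w hw => pG_odd h hw
  simp only [rho_pi, rho_zero, DD, rev_fst, dW_odd hp ho hu, dW_odd h.smooth h.odd hu,
    h.odd u hu, inner_neg_left] at h1
  have h2 : dt (-G u) (-dW G u a) (-dW G u b) = -dt (G u) (dW G u a) (dW G u b) := by
    simp only [dt3, PiLp.neg_apply]
    ring
  rw [h2] at h1
  linarith

end S

theorem s_of (hP : PIntStmt) : SStmt := fun _ hG ho =>
  ⟨S.sm_pG hP hG, fun s => ⟨fun _ hu => S.pG_odd (ho s) hu,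
    S.str (ho s) ((S.sm_Nv hG).slice s) ((S.sm_II hP hG).slice s) ((S.sm_pG hP hG).slice s)⟩⟩

end Pool.Agent.MP_2291e2_gt.Zl
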