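import Pool.Agent.MP_2291e2_gt.zl.Spec2

/-! Row VAR: the linear equations for the normal variation and for the curvature. -/

open scoped ContDiff RealInnerProductSpace Topology
open Set Filter Real

namespace Pool.Agent.MP_2291e2_gt.Zl

namespace Var

section
variable {F : Type*} [NormedAddCommGroup F] [NormedSpace ℝ F]

/-- Smooth at the points of `U`. -/
def S (f : P → F) : Prop := ∀ u ∈ U, ContDiffAt ℝ ∞ f u

lemma S.d {f : P → F} (h : S f) {u : P} (hu : u ∈ U) : DifferentiableAt ℝ f u :=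
  (h u hu).differentiableAt (by simp)
lemma S.v {f : P → F} (h : S f) : S (V f) := fun u hu => contDiffAt_V (h u hu)
lemma S.w {f : P → F} (h : S f) (ξ : E) : S (fun w => dW f w ξ) :=
  fun u hu => contDiffAt_dW (h u hu) contDiffAt_const
lemma S.add {f g : P → F} (hf : S f) (hg : S g) : S (fun w => f w + g w) :=
  fun u hu => (hf u hu).add (hg u hu)
lemma S.smul {c : P → ℝ} {g : P → F} (hc : S c) (hg : S g) : S (fun w => c w • g w) :=
  fun u hu => (hc u hu).smul (hg u hu)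
lemma S.mul {c g : P → ℝ} (hc : S c) (hg : S g) : S (fun w => c w * g w) :=
  fun u hu => (hc u hu).mul (hg u hu)
lemma S.dt {f g h : P → E} (hf : S f) (hg : S g) (hh : S h) :
    S (fun w => dt (f w) (g w) (h w)) :=
  fun u hu => ContDiffAt.dt' (hf u hu) (hg u hu) (hh u hu)

lemma V_add {f g : P → F} (hf : S f) (hg : S g) {u : P} (hu : u ∈ U) :
    V (fun w => f w + g w) u = V f u + V g u := dW_fadd (hf.d hu) (hg.d hu) _
lemma V_smul {c : P → ℝ} {g : P → F} (hc : S c) (hg : S g) {u : P} (hu : u ∈ U) :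
    V (fun w => c w • g w) u = V c u • g u + c u • V g u := dW_fsmul (hc.d hu) (hg.d hu) _
lemma V_mul {c g : P → ℝ} (hc : S c) (hg : S g) {u : P} (hu : u ∈ U) :
    V (fun w => c w * g w) u = V c u * g u + c u * V g u := dW_fmul (hc.d hu) (hg.d hu) _
lemma V_dt {f g h : P → E} (hf : S f) (hg : S g) (hh : S h) {u : P} (hu : u ∈ U) :
    V (fun w => dt (f w) (g w) (h w)) u = dt (V f u) (g u) (h u) + dt (f u) (V g u) (h u)
      + dt (f u) (g u) (V h u) := dW_dt (hf.d hu) (hg.d hu) (hh.d hu) _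
lemma V_eq {f g : P → F} (hf : S f) (hg : S g) (e : ∀ u ∈ U, f u = g u) {u : P} (hu : u ∈ U) :
    V f u = V g u := V_congr hu (hf.d hu) (hg.d hu) e
lemma V_zero {f : P → F} (hf : S f) {u : P} (hu : u ∈ U) (e : ∀ s, f (rho s u) = f u) :
    V f u = 0 :=
  V_eq_of_hasDerivAt hu (hf.d hu) (by simpa only [e] using hasDerivAt_const (0 : ℝ) (f u))

end

variable {G : P → E} {u : P}

lemma S_wk (hG : S G) : S (wk G) := hG.dt hG.v hG.v.v

lemma V_wk (hG : S G) (hu : u ∈ U) : V (wk G) u = dt (G u) (V G u) (V (V (V G)) u) := by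
  have := V_dt hG hG.v hG.v.v hu
  rw [dt_self12, dt_self23, zero_add, zero_add] at this
  exact this

lemma VV_wk (hG : S G) (hu : u ∈ U) : V (V (wk G)) u = dt (G u) (V (V G) u) (V (V (V G)) u)
    + dt (G u) (V G u) (V (V (V (V G))) u) := by
  rw [V_eq (S_wk hG).v (hG.dt hG.v hG.v.v.v) (fun _ h => V_wk hG h) hu, V_dt hG hG.v hG.v.v.v hu]
  simp

lemma S_mm (hG : S G) (ξ : E) : S (fun w => mm G w ξ) := hG.dt (hG.w ξ) hG.v

lemma V_m (hG : S G) (hu : u ∈ U) (ξ : E) : V (fun w => mm G w ξ) u =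
    dt (G u) (dW (V G) u ξ) (V G u) + dt (G u) (dW G u ξ) (V (V G) u) := by
  have := V_dt hG (hG.w ξ) hG.v hu
  rw [V_dW_comm (hG u hu), dt_self13, zero_add] at this
  exact this

lemma VV_m (hG : S G) (hu : u ∈ U) (ξ : E) : V (V fun w => mm G w ξ) u =
    dt (G u) (dW (V (V G)) u ξ) (V G u) + 2 * dt (G u) (dW (V G) u ξ) (V (V G) u)
      + dt (V G u) (dW G u ξ) (V (V G) u) + dt (G u) (dW G u ξ) (V (V (V G)) u) := by
  have h1 := hG.dt (hG.v.w ξ) hG.v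
  have h2 := hG.dt (hG.w ξ) hG.v.v
  rw [V_eq (S_mm hG ξ).v (h1.add h2) (fun _ h => V_m hG h ξ) hu, V_add h1 h2 hu,
    V_dt hG (hG.v.w ξ) hG.v hu, V_dt hG (hG.w ξ) hG.v.v hu, V_dW_comm (hG u hu),
    V_dW_comm (hG.v u hu), dt_self13]
  ring

section rhs
variable (hG : S G) (ha : S (vsq G)) (hm : S (mu G))
include hG ha hm

lemma S_R : S (RHS G) := (hG.v.v.add (ha.smul hG)).add (hm.smul hG.v)

lemma dW_R (hu : u ∈ U) (ξ : E) : dW (RHS G) u ξ = dW (V (V G)) u ξ + dW (vsq G) u ξ • G u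
    + vsq G u • dW G u ξ + dW (mu G) u ξ • V G u + mu G u • dW (V G) u ξ := by
  have := dW_fadd ((hG.v.v.add (ha.smul hG)).d hu) ((hm.smul hG.v).d hu) ξ
  rw [dW_fadd (hG.v.v.d hu) ((ha.smul hG).d hu), dW_fsmul (ha.d hu) (hG.d hu),
    dW_fsmul (hm.d hu) (hG.v.d hu)] at this
  refine this.trans ?_
  abel

variable (h0 : ∀ u ∈ U, V (vsq G) u = 0)
include h0

lemma V_R (hu : u ∈ U) : V (RHS G) u = V (V (V G)) u + vsq G u • V G u
    + V (mu G) u • V G u + mu G u • V (V G) u := by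
  have := dW_R hG ha hm hu u.1
  rw [show dW (vsq G) u u.1 = 0 from h0 u hu, zero_smul, add_zero] at this
  exact this

lemma VV_R (hu : u ∈ U) : V (V (RHS G)) u = V (V (V (V G))) u + vsq G u • V (V G) u
    + V (V (mu G)) u • V G u + (2 * V (mu G) u) • V (V G) u + mu G u • V (V (V G)) u := by
  have h1 := ha.smul hG.v
  have h2 := hm.v.smul hG.v
  have h3 := hm.smul hG.v.v
  rw [V_eq (S_R hG ha hm).v (((hG.v.v.v.add h1).add h2).add h3) (fun _ h => V_R hG ha hm h0 h) hu,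
    V_add ((hG.v.v.v.add h1).add h2) h3 hu, V_add (hG.v.v.v.add h1) h2 hu,
    V_add hG.v.v.v h1 hu, V_smul ha hG.v hu, V_smul hm.v hG.v hu, V_smul hm hG.v.v hu, h0 u hu]
  module

end rhs

lemma alg_w (g p q r r4 : E) (a μ μ1 μ2 : ℝ) :
    dt (q + a • g + μ • p) p q + dt g (r + a • p + μ1 • p + μ • q) q
      + dt g p (r4 + a • q + μ2 • p + (2 * μ1) • q + μ • r) =
    dt g q r + dt g p r4 + μ * dt g p r + (3 * a + 3 * μ1) * dt g p q - 2 * dt g q r := by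
  simp only [dt3, PiLp.add_apply, PiLp.smul_apply, smul_eq_mul]
  ring

lemma alg_m (g p q r e e1 e2 : E) (a μ μ1 a' μ' : ℝ) :
    dt (q + a • g + μ • p) e p + dt g (e2 + a' • g + a • e + μ' • p + μ • e1) p
      + dt g e (r + a • p + μ1 • p + μ • q) =
    dt g e2 p + 2 * dt g e1 q + dt p e q + dt g e r + μ * (dt g e1 p + dt g e q)
      + (3 * a + μ1) * dt g e p + 2 * dt q e p + 2 * ⟪cr g q, e1⟫ := by
  simp only [dt3, inner3, cr_0, cr_1, cr_2, PiLp.add_apply, PiLp.smul_apply, smul_eq_mul]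
  ring

lemma alg_q (g p e : E) (a k : ℝ) : dt (-a • g + k • cr g p) e p =
    -a * dt g e p + k * (⟪g, e⟫ * ⟪p, p⟫ - ⟪g, p⟫ * ⟪p, e⟫) := by
  simp only [dt3, inner3, cr_0, cr_1, cr_2, PiLp.add_apply, PiLp.smul_apply, smul_eq_mul]
  ring

end Var

open Var in
theorem var_of (_hM : MeanStmt) (hA : CurveAStmt) (hR : VarRegStmt) : VarStmt := by
  intro G₀ γ A hS τ hτ u hu
  have hV := hR G₀ γ A hS
  have hI := hS.slice τ hτ.le
  have hG : S (γ τ) := fun w hw => contDiffAt_of_U hI hw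
  have ha : S (vsq (γ τ)) := fun w hw => hV.vs.slice hτ hw
  have hm : S (mu (γ τ)) := fun w hw => hV.mus.slice hτ hw
  have hc := hS.con τ hτ.le
  have hC := hA (γ τ) ⟨hI, fun w hw => (hc w hw).1, hS.odd τ hτ.le⟩ hc
  have h0 : ∀ w ∈ U, V (vsq (γ τ)) w = 0 := fun w hw => V_zero ha hw (hC w hw).2.1
  have hRs := S_R hG ha hm
  have hp : ∀ w ∈ U, HasDerivAt (fun t => V (γ t) w) (V (RHS (γ τ)) w) τ := fun w hw =>
    hasDerivAt_V_time hw (hS.smp.smU τ hτ w hw) (hRs.d hw)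
      fun s => hS.pde τ hτ _ (rho_mem_U hw s)
  have hq : HasDerivAt (fun t => V (V (γ t)) u) (V (V (RHS (γ τ))) u) τ :=
    hasDerivAt_V_time (f := fun t => V (γ t)) hu (hS.smp.V.smU τ hτ u hu) (hRs.v.d hu)
      fun s => hp _ (rho_mem_U hu s)
  have hg : HasDerivAt (fun t => γ t u) (RHS (γ τ) u) τ := hS.pde τ hτ u hu
  obtain ⟨B, hB⟩ := hS.bd
  have ha0 : ∀ w ∈ U, vsq (γ τ) w ≠ 0 := fun w hw => by
    have := (hB τ hτ.le w hw).1
    intro h; rw [h] at this; norm_num at this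
  obtain ⟨-, -, -, gp, -, -, hqq, -, hcr, -, -, -, hμ1, -⟩ := hC u hu
  have hw : HasDerivAt (fun t => wk (γ t) u)
      (V (V (wk (γ τ))) u + mu (γ τ) u * V (wk (γ τ)) u
        + (3 * vsq (γ τ) u + V (mu (γ τ)) u - 2 * MM (γ τ) u / vsq (γ τ) u) * wk (γ τ) u) τ := by
    refine (hasDerivAt_dt hg (hp u hu) hq).congr_deriv ?_
    have pr : ‖V (V (γ τ)) u‖ ^ 2 + ⟪V (γ τ) u, V (V (V (γ τ))) u⟫ = 0 := by
      have := dW_const_on hu ((hG.v.d hu).inner ℝ (hG.v.v.d hu))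
        (fun w hw => (hC w hw).2.2.2.2.2.1) u.1
      rw [dW_inner (hG.v.d hu) (hG.v.v.d hu)] at this
      rw [← real_inner_self_eq_norm_sq]
      exact this
    have key := congrArg (fun x => ⟪x, V (V (V (γ τ))) u⟫) hcr
    simp only [real_inner_smul_left, inner_cr_eq] at key
    rw [V_R hG ha hm h0 hu, VV_R hG ha hm h0 hu, RHS, alg_w, VV_wk hG hu, V_wk hG hu]
    have h1 := ha0 u hu
    have h2 : V (mu (γ τ)) u * vsq (γ τ) u = ‖V (V (γ τ)) u‖ ^ 2 - MM (γ τ) u := by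
      rw [hμ1]; field_simp
    change _ + _ * wk (γ τ) u - _ = _
    field_simp
    linear_combination (2 * wk (γ τ) u) * h2 - 2 * key + 2 * wk (γ τ) u * pr
  refine ⟨fun ξ => ?_, hw⟩
  have he : HasDerivAt (fun t => dW (γ t) u ξ) (dW (RHS (γ τ)) u ξ) τ :=
    hasDerivAt_dW_time hu (hS.smp.smU τ hτ u hu) (hRs.d hu) (hS.pde τ hτ) ξ
  have hmm : HasDerivAt (fun t => mm (γ t) u ξ)
      (V (V fun w => mm (γ τ) w ξ) u + mu (γ τ) u * V (fun w => mm (γ τ) w ξ) u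
        + (vsq (γ τ) u + V (mu (γ τ)) u) * mm (γ τ) u ξ
        - wk (γ τ) u * dW (vsq (γ τ)) u ξ / vsq (γ τ) u) τ := by
    refine (hasDerivAt_dt hg he (hp u hu)).congr_deriv ?_
    have ge : ⟪γ τ u, dW (γ τ) u ξ⟫ = 0 := inner_dW_unit hI (fun w hw => (hc w hw).1) hu ξ
    have pe : 2 * ⟪V (γ τ) u, dW (V (γ τ)) u ξ⟫ = dW (vsq (γ τ)) u ξ := by
      rw [← dW_normsq (hG.v.d hu)]
      exact dW_congr hu ((hG.v.d hu).norm_sq ℝ) (ha.d hu) (fun w hw => (hc w hw).2) ξ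
    have key := congrArg (fun x => ⟪x, dW (V (γ τ)) u ξ⟫) hcr
    simp only [real_inner_smul_left] at key
    have k2 : dt (V (V (γ τ)) u) (dW (γ τ) u ξ) (V (γ τ) u) = -vsq (γ τ) u * mm (γ τ) u ξ := by
      rw [hqq, alg_q, ge, gp, mm]; ring
    rw [V_R hG ha hm h0 hu, dW_R hG ha hm hu, RHS, alg_m, VV_m hG hu, V_m hG hu, k2]
    have h1 := ha0 u hu
    change _ + _ * mm (γ τ) u ξ + _ + _ = _
    field_simp
    linear_combination 2 * key - wk (γ τ) u * pe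
  have ht : S (tt γ τ) := fun w hw => contDiffAt_of_U (hS.tsl τ hτ.le) hw
  have hk : S (fun w => dW (tt γ τ) w ξ / vsq (γ τ) w) := fun w hw =>
    (ht.w ξ w hw).div (ha w hw) (ha0 w hw)
  have hk0 : ∀ w ∈ U, V (fun w => dW (tt γ τ) w ξ / vsq (γ τ) w) w = 0 := fun w hw =>
    V_zero hk hw fun s => by rw [hV.dttrho τ hτ.le w hw, (hC w hw).2.1]
  have hwk := S_wk hG
  have v1 : ∀ w ∈ U, V (fun w => mh γ τ w ξ) w = V (fun w => mm (γ τ) w ξ) w
      + dW (tt γ τ) w ξ / vsq (γ τ) w * V (wk (γ τ)) w := fun w hw => by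
    have := V_add (S_mm hG ξ) (hk.mul hwk) hw
    rw [V_mul hk hwk hw, hk0 w hw, zero_mul, zero_add] at this
    exact this
  have v2 : V (V fun w => mh γ τ w ξ) u = V (V fun w => mm (γ τ) w ξ) u
      + dW (tt γ τ) u ξ / vsq (γ τ) u * V (V (wk (γ τ))) u := by
    have s1 : S (fun w => mh γ τ w ξ) := (S_mm hG ξ).add (hk.mul hwk)
    rw [V_eq s1.v ((S_mm hG ξ).v.add (hk.mul hwk.v)) v1 hu, V_add (S_mm hG ξ).v (hk.mul hwk.v) hu,
      V_mul hk hwk.v hu, hk0 u hu, zero_mul, zero_add]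
  refine (hmm.add (((hV.dttd τ hτ u hu ξ).div (hS.dv τ hτ u hu) (ha0 u hu)).mul hw)).congr_deriv ?_
  rw [v1 u hu, v2, mh]
  have h1 := ha0 u hu
  simp only [Pi.div_apply]
  field_simp
  ring

end Pool.Agent.MP_2291e2_gt.Zl
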