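import Mathlib.Topology.Sheaves.Presheaf
import Mathlib.RingTheory.Flat.TorsionFree
import Mathlib.Analysis.SpecialFunctions.Complex.Circle
import Mathlib.Topology.Compactness.CompactlyGeneratedSpace
import Mathlib.RingTheory.PiTensorProduct
import Mathlib.RingTheory.TotallySplit
import Mathlib.RingTheory.Etale.Weakly
import Pool.Agent.MP_2291e2_gt.zl.Spec2
import Pool.Agent.MP_2291e2_gt.zl.Var
import Pool.Agent.MP_2291e2_gt.zl.Spec

-- ======== part 0: formerly Pool.Agent.MP_2291e2_gt.zl.Asym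
section MrgPart0

/-! Asymptotics of the flow: the curves become round, uniformly. -/

open scoped ContDiff RealInnerProductSpace Topology
open Set Filter Real

namespace Pool.Agent.MP_2291e2_gt.Zl

namespace Asym

lemma lip {g g' : ℝ → ℝ} {B : ℝ} (hd : ∀ s, HasDerivAt g (g' s) s) (hB : ∀ s, |g' s| ≤ B)
    (s : ℝ) : |g s - g 0| ≤ B * |s| := by
  have := convex_univ.norm_image_sub_le_of_norm_hasDerivWithin_le (f := g) (f' := g') (C := B)
    (fun x _ => (hd x).hasDerivWithinAt) (fun x _ => hB x) (mem_univ 0) (mem_univ s)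
  simpa using this

lemma lip_lower {B η : ℝ} (hB : 0 ≤ B) (hη : 0 < η) : ∃ c > 0, ∀ g g' : ℝ → ℝ,
    (∀ s, HasDerivAt g (g' s) s) → (∀ s, |g' s| ≤ B) → ∫ s in (0 : ℝ)..π, g s ^ 2 ≤ c →
    |g 0| ≤ η := by
  obtain ⟨r, r0, r1, r2⟩ : ∃ r > 0, r ≤ π ∧ B * r ≤ η / 2 := by
    refine ⟨min π (η / (2 * (B + 1))), lt_min pi_pos (by positivity), min_le_left _ _, ?_⟩
    have h1 : min π (η / (2 * (B + 1))) ≤ η / (2 * (B + 1)) := min_le_right _ _
    have h2 : 0 < min π (η / (2 * (B + 1))) := lt_min pi_pos (by positivity)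
    rw [le_div_iff₀ (by positivity)] at h1
    nlinarith
  refine ⟨r * η ^ 2 / 8, by positivity, fun g g' hd hg hc => ?_⟩
  by_contra hn
  push Not at hn
  have hcont : Continuous g := continuous_iff_continuousAt.2 fun s => (hd s).continuousAt
  have h1 : ∫ s in (0 : ℝ)..r, g s ^ 2 ≤ ∫ s in (0 : ℝ)..π, g s ^ 2 :=
    intervalIntegral.integral_mono_interval le_rfl r0.le r1
      (Eventually.of_forall fun s => sq_nonneg (g s))
      ((hcont.pow 2).intervalIntegrable _ _)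
  have h2 : ∫ _ in (0 : ℝ)..r, η ^ 2 / 4 ≤ ∫ s in (0 : ℝ)..r, g s ^ 2 := by
    refine intervalIntegral.integral_mono_on r0.le (by simp)
      ((hcont.pow 2).intervalIntegrable _ _) fun s hs => ?_
    have h3 := lip hd hg s
    rw [abs_of_nonneg hs.1] at h3
    have h4 : B * s ≤ B * r := mul_le_mul_of_nonneg_left hs.2 hB
    have h5 : |g 0| ≤ |g s| + |g s - g 0| := by
      have := abs_sub (g s) (g s - g 0)
      rwa [sub_sub_cancel] at this
    have h6 : η / 2 ≤ |g s| := by linarith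
    rw [← sq_abs (g s)]
    nlinarith
  simp only [intervalIntegral.integral_const, sub_zero, smul_eq_mul] at h2
  have : 0 < r * η ^ 2 := by positivity
  linarith

lemma mean_zero {g g' : ℝ → ℝ} {B : ℝ} (hd : ∀ s, HasDerivAt g (g' s) s) (hB : ∀ s, |g' s| ≤ B)
    (h0 : ∫ s in (0 : ℝ)..π, g s = 0) : |g 0| ≤ 4 * B := by
  have hB0 : 0 ≤ B := (abs_nonneg _).trans (hB 0)
  have hcont : Continuous g := continuous_iff_continuousAt.2 fun s => (hd s).continuousAt
  have h1 : ‖∫ s in (0 : ℝ)..π, (g s - g 0)‖ ≤ 4 * B * |π - 0| := by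
    refine intervalIntegral.norm_integral_le_of_norm_le_const fun s hs => ?_
    rw [uIoc_of_le pi_pos.le] at hs
    have h3 := lip hd hB s
    rw [abs_of_pos hs.1] at h3
    have h4 : B * s ≤ B * 4 := mul_le_mul_of_nonneg_left (hs.2.trans pi_le_four) hB0
    rw [Real.norm_eq_abs]
    linarith
  rw [intervalIntegral.integral_sub (hcont.intervalIntegrable _ _) (by simp), h0] at h1
  simp only [intervalIntegral.integral_const, sub_zero, smul_eq_mul, zero_sub, norm_neg, norm_mul,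
    Real.norm_eq_abs, abs_of_pos pi_pos] at h1
  rw [mul_comm] at h1
  exact le_of_mul_le_mul_right h1 pi_pos

lemma mean_nonneg (f : P → ℝ) (u : P) : 0 ≤ Mean (fun u => f u ^ 2) u :=
  mul_nonneg (inv_nonneg.2 pi_pos.le)
    (intervalIntegral.integral_nonneg pi_pos.le fun _ _ => sq_nonneg _)

lemma mean_le {f : P → ℝ} {u : P} {ε : ℝ} (h : ∀ s, |f (rho s u)| ≤ ε) :
    Mean (fun u => f u ^ 2) u ≤ ε ^ 2 := by
  have h1 : ‖∫ s in (0 : ℝ)..π, f (rho s u) ^ 2‖ ≤ ε ^ 2 * |π - 0| := by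
    refine intervalIntegral.norm_integral_le_of_norm_le_const fun s _ => ?_
    rw [Real.norm_eq_abs, abs_pow]
    exact pow_le_pow_left₀ (abs_nonneg _) (h s) 2
  rw [sub_zero, abs_of_pos pi_pos, Real.norm_eq_abs] at h1
  unfold Mean
  rw [inv_mul_le_iff₀ pi_pos, mul_comm]
  exact (le_abs_self _).trans h1

lemma small_step {v : ℝ → ℝ} {T δ : ℝ} (hδ : 0 < δ) (h : ∀ t ≥ T, 0 ≤ v t) :
    ∃ t ≥ T, v t - v (t + 1) ≤ δ := by
  by_contra hn
  push Not at hn
  have h1 : ∀ n : ℕ, v (T + n) ≤ v T - n * δ := fun n => by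
    induction n with
    | zero => simp
    | succ n ih =>
      have := hn (T + n) (by simp)
      push_cast
      rw [← add_assoc]
      linarith
  obtain ⟨n, hn⟩ := exists_nat_gt (v T / δ)
  rw [div_lt_iff₀ hδ] at hn
  have := h (T + n) (by simp)
  have := h1 n
  linarith

variable {G₀ : P → E} {γ : ℝ → P → E} {A : ℝ}

lemma odd1 (S : Sol G₀ γ A) {τ : ℝ} (h : 0 ≤ τ) : Odd1 (γ τ) :=
  ⟨S.slice τ h, fun u hu => (S.con τ h u hu).1, S.odd τ h⟩

lemma anti (hA : CurveAStmt) (S : Sol G₀ γ A) {u : P} (hu : u ∈ U) {s t : ℝ} (hs : 0 < s)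
    (hst : s ≤ t) : vsq (γ t) u ≤ vsq (γ s) u := by
  have hd : ∀ τ ∈ Ioi (0 : ℝ), HasDerivAt (fun t => vsq (γ t) u)
      (2 * vsq (γ τ) u ^ 2 - 2 * MM (γ τ) u) τ := fun τ h => S.dv τ h u hu
  refine antitoneOn_of_deriv_nonpos (convex_Ioi 0)
    (fun τ h => (hd τ h).continuousAt.continuousWithinAt)
    (fun τ h => (hd τ (interior_subset h)).differentiableAt.differentiableWithinAt)
    (fun τ h => ?_) hs (hs.trans_le hst) hst
  have h0 : τ ∈ Ioi (0 : ℝ) := interior_subset h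
  rw [(hd τ h0).deriv]
  obtain ⟨-, -, -, -, -, -, -, -, -, -, -, -, -, e, -⟩ :=
    hA _ (odd1 S (le_of_lt h0)) (S.con τ (le_of_lt h0)) u hu
  linarith

/-- A small drop of the speed forces small curvature one unit of time later. -/
lemma drop (hB : BernStmt) (hR : VarRegStmt) (hA : CurveAStmt) (S : Sol G₀ γ A) {ε : ℝ}
    (hε : 0 < ε) : ∃ δ > 0, ∀ t ≥ 1, ∀ u ∈ U, vsq (γ t) u - vsq (γ (t + 1)) u ≤ δ →
      ∀ s, |wk (γ (t + 1)) (rho s u)| ≤ ε := by
  obtain ⟨⟨B1, b1⟩, C, C0, b2⟩ := hB _ _ _ S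
  obtain ⟨B, bd⟩ := S.bd
  obtain ⟨u0, hu0⟩ := U_nonempty
  have B10 : 0 ≤ B1 := (abs_nonneg _).trans (b1 1 le_rfl u0 hu0)
  have B0 : 0 < B := by have := bd 0 le_rfl u0 hu0; linarith [this.1, this.2.1]
  obtain ⟨c, c0, hc⟩ := lip_lower B10 (div_pos hε C0)
  refine ⟨c / (2 * B), by positivity, fun t ht u hu hd s => ?_⟩
  obtain ⟨τ, hτ, e⟩ := exists_hasDerivAt_eq_slope (fun t => vsq (γ t) u)
    (fun τ => 2 * vsq (γ τ) u ^ 2 - 2 * MM (γ τ) u) (show t < t + 1 by linarith)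
    (fun τ h => (S.dv τ (by linarith [h.1]) u hu).continuousAt.continuousWithinAt)
    (fun τ h => S.dv τ (by linarith [h.1]) u hu)
  have τ1 : 1 ≤ τ := by linarith [hτ.1]
  have τ0 : 0 < τ := by linarith
  rw [add_sub_cancel_left, div_one] at e
  have key : ∀ s, |wk (γ τ) (rho s u)| ≤ ε / C := fun s => by
    have hs := rho_mem_U hu s
    obtain ⟨-, e1, e2, -⟩ := hA _ (odd1 S τ0.le) (S.con τ τ0.le) u hu
    obtain ⟨-, -, -, -, -, -, -, -, -, -, -, -, -, -, e3, -⟩ :=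
      hA _ (odd1 S τ0.le) (S.con τ τ0.le) _ hs
    rw [e1, e2] at e3
    obtain ⟨v1, v2, -⟩ := bd τ τ0.le u hu
    have m0 := mean_nonneg (wk (γ τ)) (rho s u)
    have m1 : Mean (fun u => wk (γ τ) u ^ 2) (rho s u) / vsq (γ τ) u ≤ c / (2 * B) / 2 := by
      linarith
    rw [div_le_iff₀ (by linarith)] at m1
    have m2 : c / (2 * B) / 2 * vsq (γ τ) u ≤ c / 4 := by
      calc _ ≤ c / (2 * B) / 2 * B := mul_le_mul_of_nonneg_left v2 (by positivity)
        _ = _ := by field_simp; norm_num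
    have m3 : ∫ r in (0 : ℝ)..π, wk (γ τ) (rho r (rho s u)) ^ 2 ≤ c := by
      have m4 := m1.trans m2
      unfold Mean at m4
      rw [inv_mul_le_iff₀ pi_pos] at m4
      nlinarith [pi_le_four]
    have := hc (fun r => wk (γ τ) (rho r (rho s u))) (fun r => V (wk (γ τ)) (rho r (rho s u)))
      (fun r => hasDerivAt_V hs
        (((hR _ _ _ S).wks.slice τ0 (rho_mem_U hs r)).differentiableAt (by simp)))
      (fun r => b1 τ τ1 _ (rho_mem_U hs r)) m3
    simpa using this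
  have := b2 τ τ0 (t + 1) ⟨hτ.2.le, by linarith [hτ.1]⟩ _ (rho_mem_U hu s) (ε / C)
    fun r => by rw [rho_add hu]; exact key _
  rwa [mul_div_cancel₀ _ C0.ne'] at this

lemma near_one (hB : BernStmt) (hR : VarRegStmt) (hA : CurveAStmt) (hC : CurveBStmt)
    (S : Sol G₀ γ A) {ε : ℝ} (hε : 0 < ε) {u : P} (hu : u ∈ U) (T : ℝ) :
    ∃ t ≥ T, 1 ≤ t ∧ |vsq (γ t) u - 1| ≤ ε := by
  obtain ⟨η, η0, h1⟩ := hC.2.2 A S.Apos ε hε
  obtain ⟨δ, δ0, h2⟩ := drop hB hR hA S η0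
  obtain ⟨B, bd⟩ := S.bd
  obtain ⟨t, ht, h3⟩ := small_step (v := fun t => vsq (γ t) u) (T := max T 1) δ0
    fun t ht => by linarith [(bd t (by linarith [le_max_right T 1]) u hu).1]
  have t1 : 1 ≤ t := (le_max_right _ _).trans ht
  have t2 : T ≤ t := (le_max_left _ _).trans ht
  have t0 : 0 ≤ t + 1 := by linarith
  exact ⟨t + 1, by linarith, by linarith,
    h1 _ (odd1 S t0) (S.con _ t0) (S.chord _ t0) u hu (h2 t t1 u hu h3)⟩

lemma one_le (hB : BernStmt) (hR : VarRegStmt) (hA : CurveAStmt) (hC : CurveBStmt)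
    (S : Sol G₀ γ A) {u : P} (hu : u ∈ U) {τ : ℝ} (hτ : 0 < τ) : 1 ≤ vsq (γ τ) u := by
  refine le_of_forall_pos_le_add fun ε hε => ?_
  obtain ⟨t, h1, -, h2⟩ := near_one hB hR hA hC S hε hu τ
  have := anti hA S hu hτ h1
  linarith [(abs_le.1 h2).1]

lemma dini (hB : BernStmt) (hR : VarRegStmt) (hA : CurveAStmt) (hC : CurveBStmt)
    (S : Sol G₀ γ A) {δ : ℝ} (hδ : 0 < δ) :
    ∃ T ≥ 1, ∀ τ ≥ T, ∀ u ∈ U, u ∈ U → vsq (γ τ) u ≤ 1 + δ := by
  refine isCompact_U.induction_on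
    (p := fun K => ∃ T ≥ 1, ∀ τ ≥ T, ∀ u ∈ K, u ∈ U → vsq (γ τ) u ≤ 1 + δ)
    ⟨1, le_rfl, by simp⟩ ?_ ?_ ?_
  · rintro K K' hK ⟨T, h1, h2⟩
    exact ⟨T, h1, fun τ hτ u hu => h2 τ hτ u (hK hu)⟩
  · rintro K K' ⟨T, h1, h2⟩ ⟨T', -, h3⟩
    refine ⟨max T T', le_max_of_le_left h1, fun τ hτ u hu => hu.elim ?_ ?_⟩
    · exact h2 τ ((le_max_left _ _).trans hτ) u
    · exact h3 τ ((le_max_right _ _).trans hτ) u
  · intro x hx
    obtain ⟨t, -, t1, h⟩ := near_one hB hR hA hC S (half_pos hδ) hx 1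
    have t0 : 0 < t := by linarith
    have hc : ContinuousAt (vsq (γ t)) x := ((hR _ _ _ S).vs.slice t0 hx).continuousAt
    have he : ∀ᶠ y in 𝓝 x, vsq (γ t) y < 1 + δ :=
      hc.eventually_lt continuousAt_const (by linarith [(abs_le.1 h).2])
    refine ⟨_, mem_nhdsWithin_of_mem_nhds he, t, t1, fun τ hτ u hu hU => ?_⟩
    exact (anti hA S hU t0 hτ).trans (le_of_lt hu)

end Asym

theorem asym_of (hB : BernStmt) (hR : VarRegStmt) (hA : CurveAStmt) (hC : CurveBStmt)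
    (_hM : MeanStmt) : AsymStmt := by
  intro G₀ γ A S η hη
  obtain ⟨⟨B1, b1⟩, -⟩ := hB _ _ _ S
  obtain ⟨u0, hu0⟩ := U_nonempty
  have B10 : 0 ≤ B1 := (abs_nonneg _).trans (b1 1 le_rfl u0 hu0)
  obtain ⟨ε, ε0, ε1, ε2⟩ : ∃ ε > 0, ε ≤ 1 ∧ ε * (4 + 2 * B1) ≤ η := by
    refine ⟨min 1 (η / (4 + 2 * B1)), lt_min one_pos (by positivity), min_le_left _ _, ?_⟩
    rw [← le_div_iff₀ (by positivity)]
    exact min_le_right _ _
  have ε3 : 0 ≤ ε * B1 := by positivity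
  have ε4 : ε ^ 2 ≤ ε := by nlinarith
  obtain ⟨δ, δ0, h1⟩ := Asym.drop hB hR hA S ε0
  obtain ⟨T, T1, h2⟩ := Asym.dini hB hR hA hC S (lt_min δ0 hη)
  refine ⟨T + 1, by linarith, fun τ hτ u hu => ?_⟩
  have τ0 : 0 < τ := by linarith
  have hv : ∀ u ∈ U, 1 ≤ vsq (γ τ) u := fun u hu => Asym.one_le hB hR hA hC S hu τ0
  have hw : ∀ u ∈ U, ∀ s, |wk (γ τ) (rho s u)| ≤ ε := fun u hu => by
    have a1 := h2 (τ - 1) (by linarith) u hu hu
    have a2 := hv u hu
    have := h1 (τ - 1) (by linarith) u hu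
      (by rw [sub_add_cancel]; linarith [min_le_left δ η])
    rwa [sub_add_cancel] at this
  have hw0 : ∀ u ∈ U, |wk (γ τ) u| ≤ ε := fun u hu => by simpa using hw u hu 0
  have cA := hA _ (Asym.odd1 S τ0.le) (S.con τ τ0.le)
  have hm : ∀ u ∈ U, |V (mu (γ τ)) u| ≤ ε := fun u hu => by
    obtain ⟨-, -, -, -, -, -, -, e1, -, -, -, -, e2, -, e3, -⟩ := cA u hu
    have a1 := hv u hu
    have a2 := Asym.mean_nonneg (wk (γ τ)) u
    have a3 := Asym.mean_le (hw u hu)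
    have a4 : wk (γ τ) u ^ 2 ≤ ε ^ 2 := by
      rw [← sq_abs]; exact pow_le_pow_left₀ (abs_nonneg _) (hw0 u hu) 2
    have a5 := sq_nonneg (wk (γ τ) u)
    rw [e2, e1, e3, add_sub_add_left_eq_sub, ← sub_div, abs_div, abs_div,
      abs_of_pos (show 0 < vsq (γ τ) u by linarith)]
    refine (div_le_self (by positivity) a1).trans ((div_le_self (abs_nonneg _) a1).trans ?_)
    rw [abs_le]
    constructor <;> linarith
  obtain ⟨-, -, -, -, -, -, -, -, -, -, -, -, -, -, -, e1, e2⟩ := cA u hu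
  refine ⟨?_, by linarith [hw0 u hu], ?_, by linarith [hm u hu], ?_⟩
  · have a1 := h2 τ (by linarith) u hu hu
    have a2 := hv u hu
    rw [abs_le]
    constructor <;> linarith [min_le_right δ η]
  · have a1 : ∫ s in (0 : ℝ)..π, mu (γ τ) (rho s u) = 0 := by
      unfold Mean at e1
      exact (mul_eq_zero.1 e1).resolve_left (inv_ne_zero pi_pos.ne')
    have := Asym.mean_zero (g := fun s => mu (γ τ) (rho s u))
      (fun s => hasDerivAt_V hu
        (((hR _ _ _ S).mus.slice τ0 (rho_mem_U hu s)).differentiableAt (by simp)))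
      (fun s => hm _ (rho_mem_U hu s)) a1
    simp only [rho_zero] at this
    linarith
  · have a1 := hv u hu
    rw [e2, abs_div, abs_mul, abs_mul, abs_two, abs_of_pos (show 0 < vsq (γ τ) u ^ 2 by positivity)]
    refine (div_le_self (by positivity) (one_le_pow₀ a1)).trans ?_
    have := mul_le_mul (hw0 u hu) (b1 τ (by linarith) u hu) (abs_nonneg _) ε0.le
    linarith

end Pool.Agent.MP_2291e2_gt.Zl

end MrgPart0

-- ======== part 1: formerly Pool.Agent.MP_2291e2_gt.zl.Bern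
section MrgPart1

/-! Row BERN: gradient bound and short time bound for the curvature. -/

open scoped ContDiff RealInnerProductSpace Topology
open Set Filter Real

namespace Pool.Agent.MP_2291e2_gt.Zl

namespace Bern

open Var

/-- At a maximum along the fibre. -/
lemma at_max {f : P → ℝ} (hf : S f) {x : P} (hx : x ∈ U) (h : ∀ s, f (rho s x) ≤ f x) :
    V f x = 0 ∧ V (V f) x ≤ 0 := by
  have := min_deriv (f := fun s => -f (rho s x)) (f1 := fun s => -V f (rho s x))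
    (f2 := -V (V f) (rho 0 x)) (x := 0)
    (Eventually.of_forall fun s => by simpa using h s)
    (Eventually.of_forall fun s => (hasDerivAt_V hx (hf.d (rho_mem_U hx s))).neg)
    (hasDerivAt_V hx (hf.v.d (rho_mem_U hx 0))).neg
  simpa using this

lemma S_const (a : ℝ) : S (fun _ : P => a) := fun _ _ => contDiffAt_const

lemma V_sq {f : P → ℝ} (hf : S f) {x : P} (hx : x ∈ U) :
    V (fun w => f w * f w) x = 2 * (f x * V f x) := by
  rw [V_mul hf hf hx]; ring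

lemma V_cmul (a : ℝ) {f : P → ℝ} (hf : S f) {x : P} (hx : x ∈ U) :
    V (fun w => a * f w) x = a * V f x := by
  rw [V_mul (S_const a) hf hx, show V (fun _ : P => a) x = 0 from dW_const a x _]; ring

lemma VV_sq {f : P → ℝ} (hf : S f) {x : P} (hx : x ∈ U) :
    V (V fun w => f w * f w) x = 2 * (V f x * V f x + f x * V (V f) x) := by
  rw [V_eq (hf.mul hf).v ((S_const 2).mul (hf.mul hf.v)) (fun _ h => V_sq hf h) hx,
    V_cmul 2 (hf.mul hf.v) hx, V_mul hf hf.v hx]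

/-- The zero order coefficient of the curvature equation. -/
noncomputable def cc (G : P → E) (u : P) : ℝ :=
  3 * vsq G u + V (mu G) u - 2 * MM G u / vsq G u

variable {G₀ : P → E} {γ : ℝ → P → E} {A : ℝ}

lemma bounds (hA : CurveAStmt) (hS : Sol G₀ γ A) : ∃ C > 0, ∀ τ ≥ 0, ∀ u ∈ U,
    wk (γ τ) u ^ 2 ≤ C ∧ cc (γ τ) u ≤ C ∧
      V (mu (γ τ)) u + cc (γ τ) u + 2 * wk (γ τ) u ^ 2 / vsq (γ τ) u ^ 2 ≤ C := by
  obtain ⟨B, hB⟩ := hS.bd
  refine ⟨33 * |B| ^ 3 + 8 * B ^ 2 + 3 * |B| + 1, by positivity, fun τ hτ u hu => ?_⟩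
  have hc := hS.con τ hτ
  obtain ⟨-, -, -, -, -, -, -, hq, -, -, -, -, hμ, hM, -⟩ :=
    hA (γ τ) ⟨hS.slice τ hτ, fun w hw => (hc w hw).1, hS.odd τ hτ⟩ hc u hu
  obtain ⟨h1, h2, h3⟩ := hB τ hτ u hu
  set a := vsq (γ τ) u
  set w := wk (γ τ) u
  have ha : 0 < a := by linarith
  have hB0 : 0 ≤ B := by linarith
  rw [abs_of_nonneg hB0]
  have hq2 : ‖V (V (γ τ)) u‖ ^ 2 ≤ B ^ 2 := pow_le_pow_left₀ (norm_nonneg _) h3 2
  have hw : w ^ 2 ≤ B ^ 3 := by
    have : w ^ 2 / a ≤ B ^ 2 := by nlinarith [sq_nonneg a]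
    rw [div_le_iff₀ ha] at this
    nlinarith [mul_le_mul_of_nonneg_left h2 (sq_nonneg B)]
  have hM0 : 0 ≤ MM (γ τ) u := (sq_nonneg a).trans hM
  have hμ1 : V (mu (γ τ)) u ≤ 4 * B ^ 2 := by
    rw [hμ, div_le_iff₀ ha]
    nlinarith [mul_le_mul_of_nonneg_left h1 (sq_nonneg B)]
  have h4 : 0 ≤ 2 * MM (γ τ) u / a := by positivity
  have hcc : cc (γ τ) u ≤ 3 * B + 4 * B ^ 2 := by
    change 3 * a + _ - 2 * _ / a ≤ _
    linarith
  have h5 : 2 * w ^ 2 / a ^ 2 ≤ 32 * B ^ 3 := by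
    rw [div_le_iff₀ (by positivity)]
    have : 1 / 16 ≤ a ^ 2 := by nlinarith
    nlinarith [mul_le_mul_of_nonneg_left this (pow_nonneg hB0 3)]
  have h6 := pow_nonneg hB0 3
  have h7 := sq_nonneg B
  exact ⟨by linarith, by linarith, by linarith⟩

lemma ws_eq (hA : CurveAStmt) (hS : Sol G₀ γ A) (hV : VarReg γ) (hE : VarEq γ) {τ : ℝ}
    (hτ : 0 < τ) {u : P} (hu : u ∈ U) : HasDerivAt (fun t => V (wk (γ t)) u)
      (V (V (V (wk (γ τ)))) u + mu (γ τ) u * V (V (wk (γ τ))) u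
        + (V (mu (γ τ)) u + cc (γ τ) u + 2 * wk (γ τ) u ^ 2 / vsq (γ τ) u ^ 2)
          * V (wk (γ τ)) u) τ := by
  have hw : S (wk (γ τ)) := fun w hw => hV.wks.slice hτ hw
  have ha : S (vsq (γ τ)) := fun w hw => hV.vs.slice hτ hw
  have hm : S (mu (γ τ)) := fun w hw => hV.mus.slice hτ hw
  have hM : S (MM (γ τ)) := fun w hw => hV.Ms.slice hτ hw
  have hc := hS.con τ hτ.le
  have hC := hA (γ τ) ⟨hS.slice τ hτ.le, fun w hw => (hc w hw).1, hS.odd τ hτ.le⟩ hc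
  obtain ⟨B, hB⟩ := hS.bd
  have ha0 : ∀ w ∈ U, vsq (γ τ) w ≠ 0 := fun w hw => by
    have := (hB τ hτ.le w hw).1
    intro h; rw [h] at this; norm_num at this
  have hk : S (fun w => 3 * vsq (γ τ) w - 2 * MM (γ τ) w / vsq (γ τ) w) := fun w hw =>
    (contDiffAt_const.mul (ha w hw)).sub ((contDiffAt_const.mul (hM w hw)).div (ha w hw) (ha0 w hw))
  have e : cc (γ τ) = fun w => V (mu (γ τ)) w
      + (3 * vsq (γ τ) w - 2 * MM (γ τ) w / vsq (γ τ) w) := by
    funext w; rw [cc]; ring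
  have hcc : S (cc (γ τ)) := e ▸ hm.v.add hk
  have hVc : V (cc (γ τ)) u = 2 * wk (γ τ) u * V (wk (γ τ)) u / vsq (γ τ) u ^ 2 := by
    rw [e, V_add hm.v hk hu, V_zero hk hu fun s => by rw [(hC u hu).2.1, (hC u hu).2.2.1], add_zero]
    exact (hC u hu).2.2.2.2.2.2.2.2.2.2.2.2.2.2.2.2
  have h1 := hw.v.v.add (hm.mul hw.v)
  have := hasDerivAt_V_time (f := fun t => wk (γ t)) hu (hV.wks τ hτ u hu)
    ((h1.add (hcc.mul hw)).d hu) fun s => (hE τ hτ _ (rho_mem_U hu s)).2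
  refine this.congr_deriv ?_
  rw [V_add h1 (hcc.mul hw) hu, V_add hw.v.v (hm.mul hw.v) hu, V_mul hm hw.v hu, V_mul hcc hw hu,
    hVc]
  ring

end Bern

open Var Bern in
theorem bern_of (hR : VarRegStmt) (hV : VarStmt) (hA : CurveAStmt) : BernStmt := by
  intro G₀ γ A hS
  have hE := hV G₀ γ A hS
  have hV := hR G₀ γ A hS
  obtain ⟨C, hC0, hC⟩ := bounds hA hS
  have hw : ∀ τ > 0, S (wk (γ τ)) := fun τ hτ w hw => hV.wks.slice hτ hw
  have c0 := hV.wks.c0
  have c1 := hV.wks.V.c0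
  constructor
  · obtain ⟨B, hB⟩ := isCompact_U.exists_bound_of_continuousOn
      (f := V (wk (γ 1))) fun w hw' => ((hw 1 one_pos).v w hw').continuousAt.continuousWithinAt
    set L := B ^ 2 + (C + 1) * C * (C + 1) + 1 with hL
    have hpos : 0 < (C + 1) * C * C := by positivity
    refine ⟨√L, fun τ hτ u hu => abs_le_sqrt ?_⟩
    have key := stay_pos isCompact_U (a := 1) (b := τ) (Z := fun t x => L -
      (V (wk (γ t)) x * V (wk (γ t)) x + (C + 1) * (wk (γ t) x * wk (γ t) x))) ?_ ?_ ?_ τ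
      ⟨hτ, le_rfl⟩ u hu
    · nlinarith [mul_self_nonneg (wk (γ τ) u)]
    · have s : Icc 1 τ ×ˢ U ⊆ Ioi 0 ×ˢ U :=
        prod_mono (fun t ht => lt_of_lt_of_le one_pos ht.1) Subset.rfl
      exact continuousOn_const.sub (((c1.mono s).mul (c1.mono s)).add
        (continuousOn_const.mul ((c0.mono s).mul (c0.mono s))))
    · intro x hx
      have h1 := (hC 1 zero_le_one x hx).1
      have h2 : V (wk (γ 1)) x ^ 2 ≤ B ^ 2 := by
        rw [← sq_abs]
        exact pow_le_pow_left₀ (abs_nonneg _) (hB x hx) 2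
      nlinarith
    · intro t ht x hx hz hmin
      have ht0 : 0 < t := lt_trans one_pos ht.1
      have sw := hw t ht0
      have s1 := sw.v.mul sw.v
      have s2 := (S_const (C + 1)).mul (sw.mul sw)
      obtain ⟨m1, m2⟩ := at_max (s1.add s2) hx fun s => by
        have := hmin t ⟨ht.1.le, le_rfl⟩ _ (rho_mem_U hx s)
        linarith
      have v1 : ∀ y ∈ U, V (fun x => V (wk (γ t)) x * V (wk (γ t)) x
          + (C + 1) * (wk (γ t) x * wk (γ t) x)) y = V (fun x => V (wk (γ t)) x * V (wk (γ t)) x) y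
          + (C + 1) * V (fun x => wk (γ t) x * wk (γ t) x) y := fun y hy => by
        rw [V_add s1 s2 hy, V_cmul _ (sw.mul sw) hy]
      rw [V_eq (s1.add s2).v (s1.v.add ((S_const (C + 1)).mul (sw.mul sw).v)) v1 hx,
        V_add s1.v ((S_const (C + 1)).mul (sw.mul sw).v) hx, V_cmul _ (sw.mul sw).v hx,
        VV_sq sw.v hx, VV_sq sw hx] at m2
      rw [v1 x hx, V_sq sw.v hx, V_sq sw hx] at m1
      have d1 := ws_eq hA hS hV hE ht0 hx
      have d0 := (hE t ht0 x hx).2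
      refine ⟨_, ?_, ((d1.fun_mul d1).fun_add ((d0.fun_mul d0).const_mul (C + 1))).const_sub L⟩
      obtain ⟨b1, b2, b3⟩ := hC t ht0.le x hx
      change _ < -(_ + (C + 1) * ((_ + cc (γ t) x * _) * _ + _ * (_ + cc (γ t) x * _)))
      generalize V (mu (γ t)) x + cc (γ t) x + 2 * wk (γ t) x ^ 2 / vsq (γ t) x ^ 2 = c' at b3 ⊢
      generalize cc (γ t) x = c at b2 ⊢
      generalize V (V (V (wk (γ t)))) x = w3 at *
      generalize V (V (wk (γ t))) x = w2 at *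
      generalize V (wk (γ t)) x = w1 at *
      generalize wk (γ t) x = w at *
      generalize mu (γ t) x = μ at *
      have k1 : c' * w1 ^ 2 ≤ C * w1 ^ 2 := mul_le_mul_of_nonneg_right b3 (sq_nonneg _)
      have k2 : c * w ^ 2 ≤ C * C :=
        (mul_le_mul_of_nonneg_right b2 (sq_nonneg _)).trans (mul_le_mul_of_nonneg_left b1 hC0.le)
      have k3 : (C + 1) * (c * w ^ 2) ≤ (C + 1) * (C * C) :=
        mul_le_mul_of_nonneg_left k2 (by linarith)
      have k4 : (C + 1) * w ^ 2 ≤ (C + 1) * C := mul_le_mul_of_nonneg_left b1 (by linarith)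
      have k5 : μ * (2 * (w1 * w2) + (C + 1) * (2 * (w * w1))) = 0 := by rw [m1, mul_zero]
      nlinarith [sq_nonneg w2, sq_nonneg B]
  · refine ⟨exp (2 * (C + 1)), exp_pos _, fun τ₀ h0 τ hτ u hu η hη => ?_⟩
    have hη0 : 0 ≤ η := (abs_nonneg _).trans (hη 0)
    have hK : IsCompact (range fun s => rho s u) :=
      (rho_periodic u).compact_of_continuous two_pi_pos.ne' (by fun_prop)
    have hKU : (range fun s => rho s u) ⊆ U := by
      rintro _ ⟨s, rfl⟩; exact rho_mem_U hu s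
    refine le_of_forall_pos_le_add fun δ hδ => ?_
    obtain ⟨ε, hε, hεδ⟩ : ∃ ε > 0, exp (2 * (C + 1)) * ε = δ :=
      ⟨δ / exp (2 * (C + 1)), by positivity, by field_simp⟩
    rw [← hεδ, ← mul_add]
    have key := stay_pos hK (a := τ₀) (b := τ₀ + 2) (Z := fun t x =>
      (η + ε) ^ 2 * exp (2 * (C + 1) * (t - τ₀)) - wk (γ t) x * wk (γ t) x) ?_ ?_ ?_ τ hτ u
      ⟨0, by simp⟩
    · refine abs_le_of_sq_le_sq' ?_ (by positivity) |> abs_le.2
      have h1 : exp (2 * (C + 1) * (τ - τ₀)) ≤ exp (2 * (C + 1)) ^ 2 := by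
        rw [← exp_nat_mul]
        refine exp_le_exp.2 ?_
        have := hτ.2
        push_cast
        nlinarith
      nlinarith [mul_le_mul_of_nonneg_left h1 (sq_nonneg (η + ε))]
    · have s : Icc τ₀ (τ₀ + 2) ×ˢ (range fun s => rho s u) ⊆ Ioi 0 ×ˢ U :=
        prod_mono (fun t ht => lt_of_lt_of_le h0 ht.1) hKU
      exact ContinuousOn.sub (by fun_prop) ((c0.mono s).mul (c0.mono s))
    · rintro _ ⟨s, rfl⟩
      have h1 : wk (γ τ₀) (rho s u) ^ 2 ≤ η ^ 2 := by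
        rw [← sq_abs]
        exact pow_le_pow_left₀ (abs_nonneg _) (hη s) 2
      simp only [sub_self, mul_zero, exp_zero, mul_one]
      nlinarith
    · rintro t ht _ ⟨r, rfl⟩ hz hmin
      have ht0 : 0 < t := lt_trans h0 ht.1
      have sw := hw t ht0
      have hx := rho_mem_U hu r
      obtain ⟨m1, m2⟩ := at_max (sw.mul sw) hx fun s => by
        have := hmin t ⟨ht.1.le, le_rfl⟩ _ ⟨s + r, rfl⟩
        rw [rho_add hu]
        simp only at this hz
        linarith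
      rw [VV_sq sw hx] at m2
      rw [V_sq sw hx] at m1
      have d0 := (hE t ht0 _ hx).2
      have de : HasDerivAt (fun t => (η + ε) ^ 2 * exp (2 * (C + 1) * (t - τ₀)))
          ((η + ε) ^ 2 * (exp (2 * (C + 1) * (t - τ₀)) * (2 * (C + 1) * 1))) t :=
        ((((hasDerivAt_id t).sub_const τ₀).const_mul _).exp).const_mul _
      refine ⟨_, ?_, de.fun_sub (d0.fun_mul d0)⟩
      obtain ⟨-, b2, -⟩ := hC t ht0.le _ hx
      have hp : 0 < (η + ε) ^ 2 * exp (2 * (C + 1) * (t - τ₀)) := by positivity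
      change _ < _ - ((_ + cc (γ t) (rho r u) * _) * _ + _ * (_ + cc (γ t) (rho r u) * _))
      simp only at hz
      generalize cc (γ t) (rho r u) = c at b2 ⊢
      generalize V (V (wk (γ t))) (rho r u) = w2 at *
      generalize V (wk (γ t)) (rho r u) = w1 at *
      generalize wk (γ t) (rho r u) = w at *
      generalize mu (γ t) (rho r u) = μ at *
      have k1 : c * w ^ 2 ≤ C * w ^ 2 := mul_le_mul_of_nonneg_right b2 (sq_nonneg _)
      have k5 : μ * (2 * (w * w1)) = 0 := by rw [m1, mul_zero]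
      have k6 : (η + ε) ^ 2 * (exp (2 * (C + 1) * (t - τ₀)) * (2 * (C + 1) * 1))
          = 2 * (C + 1) * w ^ 2 := by
        linear_combination (2 * (C + 1)) * hz
      rw [k6]
      nlinarith [sq_nonneg w1]

end Pool.Agent.MP_2291e2_gt.Zl

end MrgPart1

-- ======== part 2: formerly Pool.Agent.MP_2291e2_gt.zl.Height
section MrgPart2

/-! An odd height function on the strip. -/

open scoped ContDiff Topology
open Set Filter Real

namespace Pool.Agent.MP_2291e2_gt.Zl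

namespace HEIGHT

lemma lin_apply (A : ℝ × ℝ →L[ℝ] ℝ) (p q : ℝ) : A (p, q) = p * A (1, 0) + q * A (0, 1) := by
  have : ((p, q) : ℝ × ℝ) = p • ((1, 0) : ℝ × ℝ) + q • ((0, 1) : ℝ × ℝ) := by simp
  rw [this, map_add, map_smul, map_smul, smul_eq_mul, smul_eq_mul]

lemma fderiv_comp2 {f xp bp : ℝ × ℝ → ℝ} {z : ℝ × ℝ} (hf : DifferentiableAt ℝ f (xp z, bp z))
    (hx : DifferentiableAt ℝ xp z) (hb : DifferentiableAt ℝ bp z) (v : ℝ × ℝ) :
    fderiv ℝ (fun z => f (xp z, bp z)) z v =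
      fderiv ℝ xp z v * fderiv ℝ f (xp z, bp z) (1, 0) +
        fderiv ℝ bp z v * fderiv ℝ f (xp z, bp z) (0, 1) := by
  have h := (hf.hasFDerivAt.comp z (hx.hasFDerivAt.prodMk hb.hasFDerivAt)).fderiv
  have e : fderiv ℝ (fun z => f (xp z, bp z)) z = _ := h
  rw [e, ContinuousLinearMap.comp_apply, ContinuousLinearMap.prod_apply, lin_apply]

lemma jdet_comp {f g xp bp : ℝ × ℝ → ℝ} {z : ℝ × ℝ} (hf : DifferentiableAt ℝ f (xp z, bp z))
    (hg : DifferentiableAt ℝ g (xp z, bp z)) (hx : DifferentiableAt ℝ xp z)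
    (hb : DifferentiableAt ℝ bp z) :
    jdet (fun z => f (xp z, bp z)) (fun z => g (xp z, bp z)) z =
      jdet f g (xp z, bp z) * jdet xp bp z := by
  unfold jdet
  simp only [fderiv_comp2 hf hx hb, fderiv_comp2 hg hx hb]
  ring

lemma hasDerivAt_x {f : ℝ × ℝ → ℝ} {x β : ℝ} (hf : DifferentiableAt ℝ f (x, β)) :
    HasDerivAt (fun x => f (x, β)) (fderiv ℝ f (x, β) (1, 0)) x :=
  hf.hasFDerivAt.comp_hasDerivAt x ((hasDerivAt_id x).prodMk (hasDerivAt_const x β))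

lemma hasDerivAt_b {f : ℝ × ℝ → ℝ} {x β : ℝ} (hf : DifferentiableAt ℝ f (x, β)) :
    HasDerivAt (fun β => f (x, β)) (fderiv ℝ f (x, β) (0, 1)) β :=
  hf.hasFDerivAt.comp_hasDerivAt β ((hasDerivAt_const β x).prodMk (hasDerivAt_id β))

lemma deriv_le_right {g : ℝ → ℝ} {g' a b : ℝ} (hab : a < b) (h : HasDerivAt g g' a)
    (hle : ∀ t ∈ Ioo a b, g t ≤ g a) : g' ≤ 0 := by
  have h1 := (hasDerivAt_iff_tendsto_slope_left_right.mp h).2
  refine le_of_tendsto h1 ?_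
  filter_upwards [Ioo_mem_nhdsGT hab] with t ht
  rw [slope_def_field]
  exact div_nonpos_of_nonpos_of_nonneg (sub_nonpos.mpr (hle t ht)) (sub_pos.mpr ht.1).le

lemma deriv_le_left {g : ℝ → ℝ} {g' a b : ℝ} (hab : a < b) (h : HasDerivAt g g' b)
    (hle : ∀ t ∈ Ioo a b, g b ≤ g t) : g' ≤ 0 := by
  have h1 := (hasDerivAt_iff_tendsto_slope_left_right.mp h).1
  refine le_of_tendsto h1 ?_
  filter_upwards [Ioo_mem_nhdsLT hab] with t ht
  rw [slope_def_field]
  exact div_nonpos_of_nonneg_of_nonpos (sub_nonneg.mpr (hle t ht)) (sub_neg.mpr ht.2).le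

variable {T : ℝ} {xp bp : ℝ × ℝ → ℝ}

lemma dx (h : Invol T xp bp) (z : ℝ × ℝ) : DifferentiableAt ℝ xp z :=
  h.xsm.differentiable (by simp) z

lemma db (h : Invol T xp bp) (z : ℝ × ℝ) : DifferentiableAt ℝ bp z :=
  h.bsm.differentiable (by simp) z

lemma J_ne (h : Invol T xp bp) (z : ℝ × ℝ) : jdet xp bp z ≠ 0 := by
  have e := jdet_comp (z := z) (dx h (xp z, bp z)) (db h (xp z, bp z)) (dx h z) (db h z)
  have e1 : (fun z => xp (xp z, bp z)) = fun z : ℝ × ℝ => z.1 + T := funext h.invx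
  have e2 : (fun z => bp (xp z, bp z)) = fun z : ℝ × ℝ => z.2 := funext h.invb
  rw [e1, e2] at e
  have e3 : jdet (fun z : ℝ × ℝ => z.1 + T) (fun z : ℝ × ℝ => z.2) z = 1 := by
    unfold jdet
    rw [(hasFDerivAt_fst.add_const T).fderiv, hasFDerivAt_snd.fderiv]
    simp
  intro h0
  rw [e3, h0, mul_zero] at e
  exact one_ne_zero e

lemma bx0 (h : Invol T xp bp) (x : ℝ) : fderiv ℝ bp (x, 0) (1, 0) = 0 := by
  have e := hasDerivAt_x (db h (x, 0))
  simp only [h.b0] at e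
  exact e.unique (hasDerivAt_const x π)

lemma bxpi (h : Invol T xp bp) (x : ℝ) : fderiv ℝ bp (x, π) (1, 0) = 0 := by
  have e := hasDerivAt_x (db h (x, π))
  simp only [h.bpi] at e
  exact e.unique (hasDerivAt_const x 0)

lemma bb0 (h : Invol T xp bp) (x : ℝ) : fderiv ℝ bp (x, 0) (0, 1) ≤ 0 :=
  deriv_le_right pi_pos (hasDerivAt_b (db h (x, 0))) fun t ht => by
    rw [h.b0]; exact (h.bmem (x, t) ht).2.le

lemma bbpi (h : Invol T xp bp) (x : ℝ) : fderiv ℝ bp (x, π) (0, 1) ≤ 0 :=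
  deriv_le_left pi_pos (hasDerivAt_b (db h (x, π))) fun t ht => by
    rw [h.bpi]; exact (h.bmem (x, t) ht).1.le

lemma J_cont (h : Invol T xp bp) : Continuous (jdet xp bp) := by
  have h1 := h.xsm.continuous_fderiv (by simp)
  have h2 := h.bsm.continuous_fderiv (by simp)
  unfold jdet
  fun_prop

lemma J_neg (h : Invol T xp bp) (z : ℝ × ℝ) : jdet xp bp z < 0 := by
  obtain ⟨x, -, hx⟩ := exists_hasDerivAt_eq_slope (fun x => xp (x, 0))
    (fun x => fderiv ℝ xp (x, 0) (1, 0)) h.Tpos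
    (fun x _ => (hasDerivAt_x (dx h (x, 0))).continuousAt.continuousWithinAt)
    (fun x _ => hasDerivAt_x (dx h (x, 0)))
  have e := h.xper 0 0
  rw [zero_add] at e
  rw [e, add_sub_cancel_left, sub_zero, div_self h.Tpos.ne'] at hx
  have h0 : jdet xp bp (x, 0) ≤ 0 := by
    unfold jdet
    rw [hx, bx0 h, mul_zero, sub_zero, one_mul]
    exact bb0 h x
  by_contra hc
  obtain ⟨w, hw⟩ := intermediate_value_univ (x, 0) z (J_cont h) ⟨h0, not_lt.mp hc⟩
  exact J_ne h w hw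

lemma xx0 (h : Invol T xp bp) (x : ℝ) : 0 < fderiv ℝ xp (x, 0) (1, 0) := by
  have e := J_neg h (x, 0)
  unfold jdet at e
  rw [bx0 h, mul_zero, sub_zero] at e
  by_contra hc
  exact absurd e (not_lt.mpr (mul_nonneg_of_nonpos_of_nonpos (not_lt.mp hc) (bb0 h x)))

lemma xxpi (h : Invol T xp bp) (x : ℝ) : 0 < fderiv ℝ xp (x, π) (1, 0) := by
  have e := J_neg h (x, π)
  unfold jdet at e
  rw [bxpi h, mul_zero, sub_zero] at e
  by_contra hc
  exact absurd e (not_lt.mpr (mul_nonneg_of_nonpos_of_nonpos (not_lt.mp hc) (bbpi h x)))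

lemma theta_smooth (h : Invol T xp bp) : ContDiff ℝ ∞ (theta T xp) :=
  (contDiff_const.mul (contDiff_fst.add h.xsm)).div_const T

lemma theta_fderiv (h : Invol T xp bp) (z v : ℝ × ℝ) :
    fderiv ℝ (theta T xp) z v = π * (v.1 + fderiv ℝ xp z v) / T := by
  have e : theta T xp = fun z : ℝ × ℝ => (π / T) * (z.1 + xp z) := by
    funext z; unfold theta; ring
  have e2 : HasFDerivAt (fun z : ℝ × ℝ => (π / T) * (z.1 + xp z))
      ((π / T) • (ContinuousLinearMap.fst ℝ ℝ ℝ + fderiv ℝ xp z)) z :=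
    (hasFDerivAt_fst.add (dx h z).hasFDerivAt).const_mul (π / T)
  rw [e, e2.fderiv]
  simp only [smul_apply, add_apply,
    ContinuousLinearMap.coe_fst', smul_eq_mul]
  ring

lemma theta_ne (h : Invol T xp bp) (z : ℝ × ℝ) : fderiv ℝ (theta T xp) z ≠ 0 := by
  intro h0
  have e1 := theta_fderiv h z (1, 0)
  have e2 := theta_fderiv h z (0, 1)
  rw [h0, zero_apply, eq_comm, div_eq_zero_iff, mul_eq_zero] at e1 e2
  have a1 : fderiv ℝ xp z (1, 0) = -1 := by
    rcases e1 with (e | e) | e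
    · exact absurd e pi_ne_zero
    · linarith
    · exact absurd e h.Tpos.ne'
  have a2 : fderiv ℝ xp z (0, 1) = 0 := by
    rcases e2 with (e | e) | e
    · exact absurd e pi_ne_zero
    · linarith
    · exact absurd e h.Tpos.ne'
  have e := J_neg h z
  have := h.key z a2
  unfold jdet at e
  rw [a1, a2] at e
  linarith

lemma strip (h : Invol T xp bp) (z : ℝ × ℝ) (hz : z.2 ∈ Icc 0 π) : bp z ∈ Icc 0 π := by
  obtain ⟨x, β⟩ := z
  rcases hz.1.eq_or_lt with h0 | h0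
  · have : β = 0 := h0.symm
    rw [this, h.b0]; exact ⟨pi_pos.le, le_rfl⟩
  · rcases hz.2.eq_or_lt with h1 | h1
    · have : β = π := h1
      rw [this, h.bpi]; exact ⟨le_rfl, pi_pos.le⟩
    · exact Ioo_subset_Icc_self (h.bmem _ ⟨h0, h1⟩)

end HEIGHT

open HEIGHT in
theorem height_of (hF : FoliaStmt) : HeightStmt := by
  intro T xp bp h
  have hT := h.Tpos
  have hthx : ∀ x, 0 < fderiv ℝ (theta T xp) (x, 0) (1, 0) := fun x => by
    rw [theta_fderiv h]
    have := xx0 h x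
    exact div_pos (mul_pos pi_pos (by simp only; linarith)) hT
  obtain ⟨z0, hz⟩ := hF T (theta T xp) hT (theta_smooth h)
    (fun x β => by unfold theta; rw [h.xper]; field_simp; ring)
    (fun x β => by unfold theta; rw [h.xper2]) (theta_ne h) hthx
    (fun x => by
      rw [theta_fderiv h]
      have := xxpi h x
      exact div_pos (mul_pos pi_pos (by simp only; linarith)) hT)
  obtain ⟨Ω, o1, o2, o3⟩ := hz.smooth
  have ha : ContDiff ℝ ∞ (fun z => (xp z, bp z)) := h.xsm.prodMk h.bsm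
  have hd : ∀ z : ℝ × ℝ, z.2 ∈ Icc 0 π → DifferentiableAt ℝ z0 z := fun z hz' =>
    (o3.contDiffAt (o1.mem_nhds (o2 ⟨mem_univ _, hz'⟩))).differentiableAt (by simp)
  have hd' : ∀ z : ℝ × ℝ, z.2 ∈ Icc 0 π → DifferentiableAt ℝ (fun z => z0 (xp z, bp z)) z :=
    fun z hz' => (hd (xp z, bp z) (strip h z hz')).comp z ((dx h z).prodMk (db h z))
  have hdet : ∀ z : ℝ × ℝ, z.2 ∈ Icc 0 π →
      0 < jdet (theta T xp) (fun z => z0 z - z0 (xp z, bp z)) z := by
    intro z hz'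
    have e := jdet_comp (z := z) ((theta_smooth h).differentiable (by simp) (xp z, bp z))
      (hd (xp z, bp z) (strip h z hz')) (dx h z) (db h z)
    have e1 : (fun z => theta T xp (xp z, bp z)) = fun z => theta T xp z + π := by
      funext z
      unfold theta
      rw [h.invx]; field_simp; ring
    rw [e1] at e
    have e2 := mul_neg_of_pos_of_neg (hz.det (xp z, bp z) (strip h z hz')) (J_neg h z)
    have e3 := hz.det z hz'
    rw [← e] at e2
    unfold jdet at e2 e3 ⊢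
    rw [fderiv_add_const] at e2
    rw [fderiv_fun_sub (hd z hz') (hd' z hz')]
    simp only [sub_apply]
    linarith
  refine ⟨fun z => z0 z - z0 (xp z, bp z),
    ⟨⟨Ω ∩ (fun z => (xp z, bp z)) ⁻¹' Ω, o1.inter (o1.preimage ha.continuous),
      fun z hz' => ⟨o2 hz', o2 ⟨mem_univ _, strip h z hz'.2⟩⟩, ?_⟩, ?_, ?_, ?_, ?_, hdet, hthx, ?_⟩⟩
  · exact (o3.mono inter_subset_left).sub (o3.comp ha.contDiffOn fun z hz' => hz'.2)
  · intro x β hβ
    rw [hz.per x β hβ, h.xper, h.bper, hz.per _ _ (strip h (x, β) hβ)]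
  · intro z hz'
    rw [h.invx, h.invb, hz.per _ _ hz']
    simp
  · intro x
    rw [hz.bot, h.b0, hz.top]
    simp
  · intro z hz'
    have a1 := hz.mem z hz'
    have a2 := hz.mem (xp z, bp z) (h.bmem z hz')
    exact ⟨by linarith [a1.1, a2.2], by linarith [a1.2, a2.1]⟩
  · exact hz.inj _ fun z hz' => ⟨(hd z hz').sub (hd' z hz'), hdet z hz'⟩

end Pool.Agent.MP_2291e2_gt.Zl

end MrgPart2

-- ======== part 3: formerly Pool.Agent.MP_2291e2_gt.zl.Late
section MrgPart3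

/-! Late times: the normal variations are close to their first harmonics. -/

open scoped ContDiff RealInnerProductSpace Topology
open Set Filter Real

namespace Pool.Agent.MP_2291e2_gt.Zl

namespace Late

lemma zsq_mul (r : ℝ) (n : ℝ → ℝ) : zsq (fun σ => r * n σ) = r ^ 2 * zsq n := by
  unfold zsq
  rw [deriv_const_mul_field', deriv_const_mul_field', ← intervalIntegral.integral_const_mul]
  congr 1
  funext σ
  ring

lemma c1sq_mul (r : ℝ) (n : ℝ → ℝ) : c1sq (fun σ => r * n σ) = r ^ 2 * c1sq n := by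
  unfold c1sq
  simp only [mul_assoc, intervalIntegral.integral_const_mul]
  ring

lemma c1sq_nonneg (n : ℝ → ℝ) : 0 ≤ c1sq n := by unfold c1sq; positivity

lemma rho_add_pi {u : P} (hu : u ∈ U) (σ : ℝ) : rho (σ + π) u = rev (rho σ u) := by
  rw [← rho_pi, rho_add hu, add_comm]

lemma dd {f : P → ℝ} (hf : ∀ u ∈ U, ContDiffAt ℝ ∞ f u) {u : P} (hu : u ∈ U) :
    deriv (fun σ => f (rho σ u)) = (fun σ => V f (rho σ u)) ∧
      deriv (deriv fun σ => f (rho σ u)) = fun σ => V (V f) (rho σ u) := by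
  have h1 := deriv_fibre (fun w hw => (hf w hw).differentiableAt (by simp)) hu
  refine ⟨h1, ?_⟩
  rw [h1]
  exact deriv_fibre (fun w hw => (contDiffAt_V (hf w hw)).differentiableAt (by simp)) hu

noncomputable abbrev ee (i : Fin 3) : E := EuclideanSpace.single i 1

lemma dd3 {N : P → E → ℝ} (hl : ∀ u, IsLinearMap ℝ (N u))
    (hs : ∀ ξ, ∀ u ∈ U, ContDiffAt ℝ ∞ (fun w => N w ξ) u) {u : P} (hu : u ∈ U) (ξ : E) :
    deriv (deriv fun σ => N (rho σ u) ξ) = fun σ =>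
      ξ 0 * V (V fun w => N w (ee 0)) (rho σ u) + ξ 1 * V (V fun w => N w (ee 1)) (rho σ u)
        + ξ 2 * V (V fun w => N w (ee 2)) (rho σ u) := by
  have e : (fun σ => N (rho σ u) ξ) = fun σ =>
      ξ 0 * N (rho σ u) (ee 0) + ξ 1 * N (rho σ u) (ee 1) + ξ 2 * N (rho σ u) (ee 2) :=
    funext fun σ => lin_expand (hl _) ξ
  have d1 : ∀ i σ, HasDerivAt (fun σ => N (rho σ u) (ee i))
      (V (fun w => N w (ee i)) (rho σ u)) σ := fun i σ =>
    hasDerivAt_V (f := fun w => N w (ee i)) hu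
      ((hs _ _ (rho_mem_U hu σ)).differentiableAt (by simp))
  have d2 : ∀ i σ, HasDerivAt (fun σ => V (fun w => N w (ee i)) (rho σ u))
      (V (V fun w => N w (ee i)) (rho σ u)) σ := fun i σ =>
    hasDerivAt_V hu ((contDiffAt_V (hs _ _ (rho_mem_U hu σ))).differentiableAt (by simp))
  have e1 : deriv (fun σ => N (rho σ u) ξ) = fun σ =>
      ξ 0 * V (fun w => N w (ee 0)) (rho σ u) + ξ 1 * V (fun w => N w (ee 1)) (rho σ u)
        + ξ 2 * V (fun w => N w (ee 2)) (rho σ u) := by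
    rw [e]
    exact funext fun σ => ((((d1 0 σ).const_mul _).fun_add ((d1 1 σ).const_mul _)).fun_add
      ((d1 2 σ).const_mul _)).deriv
  rw [e1]
  exact funext fun σ => ((((d2 0 σ).const_mul _).fun_add ((d2 1 σ).const_mul _)).fun_add
    ((d2 2 σ).const_mul _)).deriv

def KK : Set (P × E) := {x | x.1 ∈ U ∧ ‖x.2‖ = 1 ∧ ⟪x.2, x.1.1⟫ = 0}

lemma isCompact_KK : IsCompact KK := by
  refine (isCompact_U.prod (isCompact_sphere (0 : E) 1)).of_isClosed_subset ?_ ?_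
  · refine (isClosed_U.preimage continuous_fst).inter
      ((isClosed_eq ?_ ?_).inter (isClosed_eq ?_ ?_)) <;> fun_prop
  · intro x hx
    exact ⟨hx.1, by simpa using hx.2.1⟩

lemma cont_fib {g : P → ℝ} (hg : ∀ u ∈ U, ContDiffAt ℝ ∞ g u) :
    Continuous fun q : KK × ℝ => g (rho q.2 q.1.1.1) := by
  refine ContinuousOn.comp_continuous (s := U)
    (fun u hu => (hg u hu).continuousAt.continuousWithinAt) ?_ fun q => rho_mem_U q.1.2.1 _
  unfold rho
  fun_prop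

lemma ratio {N : P → E → ℝ} (hl : ∀ u, IsLinearMap ℝ (N u))
    (hs : ∀ ξ, ∀ u ∈ U, ContDiffAt ℝ ∞ (fun w => N w ξ) u) (hy : ∀ u ∈ U, N u u.1 = 0)
    (hp : ∀ u ∈ U, ∀ ξ, cr ξ u.1 ≠ 0 → 0 < c1sq fun σ => N (rho σ u) ξ) :
    ∃ Y ≥ 0, ∀ u ∈ U, ∀ ξ, cr ξ u.1 ≠ 0 →
      zsq (fun σ => N (rho σ u) ξ) ≤ Y * c1sq fun σ => N (rho σ u) ξ := by
  have : CompactSpace KK := isCompact_iff_compactSpace.1 isCompact_KK
  have a0 := fun i => cont_fib (hs (ee i))
  have a2 := fun i => cont_fib fun u hu => contDiffAt_V (contDiffAt_V (hs (ee i) u hu))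
  have cx : ∀ i, Continuous fun q : KK × ℝ => q.1.1.2 i := fun i => by fun_prop
  have c0 : Continuous fun q : KK × ℝ => N (rho q.2 q.1.1.1) q.1.1.2 := by
    refine (((cx 0).mul (a0 0)).add ((cx 1).mul (a0 1)) |>.add ((cx 2).mul (a0 2))).congr
      fun q => ?_
    exact (lin_expand (hl _) _).symm
  have c2 : Continuous fun q : KK × ℝ =>
      deriv (deriv fun σ => N (rho σ q.1.1.1) q.1.1.2) q.2 := by
    refine (((cx 0).mul (a2 0)).add ((cx 1).mul (a2 1)) |>.add ((cx 2).mul (a2 2))).congr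
      fun q => ?_
    rw [dd3 hl hs q.1.2.1]
    rfl
  have cz : Continuous fun x : KK => zsq fun σ => N (rho σ x.1.1) x.1.2 :=
    intervalIntegral.continuous_parametric_intervalIntegral_of_continuous'
      (f := fun (x : KK) σ => (deriv (deriv fun σ => N (rho σ x.1.1) x.1.2) σ +
        N (rho σ x.1.1) x.1.2) ^ 2) (((c2.add c0).pow 2).congr fun _ => rfl) _ _
  have cc : Continuous fun x : KK => c1sq fun σ => N (rho σ x.1.1) x.1.2 :=
    ((intervalIntegral.continuous_parametric_intervalIntegral_of_continuous'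
      (f := fun (x : KK) σ => N (rho σ x.1.1) x.1.2 * cos σ)
      (c0.mul (continuous_cos.comp continuous_snd)) _ _).pow 2).add
    ((intervalIntegral.continuous_parametric_intervalIntegral_of_continuous'
      (f := fun (x : KK) σ => N (rho σ x.1.1) x.1.2 * sin σ)
      (c0.mul (continuous_sin.comp continuous_snd)) _ _).pow 2)
  have pos : ∀ x : KK, 0 < c1sq fun σ => N (rho σ x.1.1) x.1.2 := fun x => by
    refine hp _ x.2.1 _ fun h0 => ?_
    have := normsq_cr x.1.2 x.1.1.1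
    rw [h0, x.2.2.1, x.2.2.2, x.2.1.1] at this
    norm_num at this
  obtain ⟨Y, hY⟩ := (isCompact_range (cz.div cc fun x => (pos x).ne')).bddAbove
  refine ⟨max Y 0, le_max_right _ _, fun u hu ξ hξ => ?_⟩
  obtain ⟨ξ', e⟩ : ∃ ξ', ξ' = ξ - ⟪ξ, u.1⟫ • u.1 := ⟨_, rfl⟩
  have n0 : ξ' ≠ 0 := fun h0 => hξ (by
    rw [h0, eq_comm, sub_eq_zero] at e
    rw [e, cr_smul_left, cr_self, smul_zero])
  have n1 : ‖ξ'‖ ≠ 0 := norm_ne_zero_iff.2 n0
  have hK : (u, ‖ξ'‖⁻¹ • ξ') ∈ KK := by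
    refine ⟨hu, norm_smul_inv_norm n0, ?_⟩
    change ⟪‖ξ'‖⁻¹ • ξ', u.1⟫ = 0
    rw [real_inner_smul_left]
    nth_rw 2 [e]
    rw [inner_sub_left, real_inner_smul_left, inner_self_U1 hu]
    ring
  have e2 : (fun σ => N (rho σ u) ξ) = fun σ => ‖ξ'‖ * N (rho σ u) (‖ξ'‖⁻¹ • ξ') := by
    funext σ
    have h1 := hy _ (rho_mem_U hu σ)
    rw [rho_fst] at h1
    rw [(hl _).map_smul, smul_eq_mul, ← mul_assoc, mul_inv_cancel₀ n1, one_mul, e,
      (hl _).map_sub, (hl _).map_smul, h1, smul_zero, sub_zero]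
  have h3 := hY ⟨⟨_, hK⟩, rfl⟩
  have h4 := pos ⟨_, hK⟩
  simp only [Pi.div_apply] at h3 h4
  rw [div_le_iff₀ h4] at h3
  rw [e2, zsq_mul, c1sq_mul, mul_left_comm]
  exact mul_le_mul_of_nonneg_left
    (h3.trans (mul_le_mul_of_nonneg_right (le_max_left _ _) h4.le)) (sq_nonneg _)

end Late

theorem late_of (hR : VarRegStmt) (hV : VarStmt) (hT : TurnStmt) (hS : AsymStmt)
    (hE : EnergyStmt) (hA : CurveAStmt) (_hP : PIntStmt) : LateStmt := by
  intro G₀ γ A hG S ε hε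
  obtain ⟨C, η₀, C0, η00, hE⟩ := hE
  have R := hR _ _ _ S
  obtain ⟨η, η0, η1, η2, η3⟩ : ∃ η > 0, η ≤ η₀ ∧ η ≤ ε ∧ C * η ^ 2 ≤ ε ^ 2 / 2 := by
    have h1 : min η₀ (ε / (C + 2)) ≤ ε / (C + 2) := min_le_right _ _
    have h2 : 0 < min η₀ (ε / (C + 2)) := lt_min η00 (by positivity)
    refine ⟨_, h2, min_le_left _ _, ?_⟩
    generalize min η₀ (ε / (C + 2)) = η at h1 h2
    rw [le_div_iff₀ (by positivity)] at h1
    have h3 : 0 < η * C := by positivity
    have h4 : (η * (C + 2)) ^ 2 ≤ ε ^ 2 := pow_le_pow_left₀ (by positivity) h1 2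
    refine ⟨by linarith, ?_⟩
    nlinarith [sq_nonneg (η * C), sq_nonneg η]
  obtain ⟨τ₀, τ00, hs⟩ := hS _ _ _ S (η / 2) (half_pos η0)
  have half : ∀ τ > 0, ∀ u ∈ U, ∀ ξ, cr ξ u.1 ≠ 0 → ∃ σ₀, mh γ τ (rho σ₀ u) ξ = 0 ∧
      (∀ σ ∈ Ioo σ₀ (σ₀ + π), 0 < mh γ τ (rho σ u) ξ) ∧
      0 < c1sq (fun σ => mh γ τ (rho σ u) ξ) := fun τ hτ u hu ξ hξ =>
    (hT _ _ _ hG S τ hτ.le).half (mh_lin γ τ) (R.mhfst τ hτ.le)
      (fun ξ w hw => ((R.mhs ξ).slice hτ hw).differentiableAt (by simp)) (R.mhodd τ hτ.le) hu hξ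
  obtain ⟨Y, Y0, hY⟩ := Late.ratio (mh_lin γ τ₀) (fun ξ w hw => (R.mhs ξ).slice τ00 hw)
    (R.mhfst τ₀ τ00.le) fun u hu ξ hξ => (half τ₀ τ00 u hu ξ hξ).choose_spec.2.2
  have q0 : 0 ≤ 2 * Y / ε ^ 2 := by positivity
  refine ⟨τ₀ + 2 * Y / ε ^ 2, by linarith, fun τ hτ u hu => ?_⟩
  have τ1 : τ₀ ≤ τ := by linarith
  obtain ⟨s1, s2, -⟩ := hs τ τ1 u hu
  refine ⟨by linarith, by linarith, fun ξ => ?_⟩
  by_cases hξ : cr ξ u.1 = 0
  · have e := cr_cr_right u.1 ξ u.1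
    rw [hξ, cr_zero_right, inner_self_U1 hu, one_smul, eq_comm, sub_eq_zero] at e
    have e2 : (fun σ => mh γ τ (rho σ u) ξ) = fun σ => 0 * mh γ τ (rho σ u) ξ := by
      funext σ
      have h1 := R.mhfst τ (by linarith) _ (rho_mem_U hu σ)
      rw [rho_fst] at h1
      rw [zero_mul, e, (mh_lin γ τ _).map_smul, h1, smul_zero]
    rw [e2, Late.zsq_mul, Late.c1sq_mul]
    simp
  have odd : ∀ t ≥ τ₀, ∀ σ, mh γ t (rho (σ + π) u) ξ = -mh γ t (rho σ u) ξ := fun t ht σ => by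
    rw [Late.rho_add_pi hu]
    exact R.mhodd t (by linarith) _ (rho_mem_U hu σ) ξ
  have main := hE η τ₀ Y (fun t σ => mh γ t (rho σ u) ξ) (fun t σ => mu (γ t) (rho σ u))
    (fun t σ => vsq (γ t) (rho σ u) + V (mu (γ t)) (rho σ u) - 1) η0 η1 τ00 Y0
    ((R.mhs ξ).fibre hu) (R.mus.fibre hu)
    (((R.vs.fibre hu).add (R.mus.V.fibre hu)).sub contDiffOn_const)
    (fun t ht σ => ?_) (fun t ht => ?_) (hY u hu ξ hξ) τ τ1
  · refine main.trans (mul_le_mul_of_nonneg_right ?_ (Late.c1sq_nonneg _))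
    have h1 : 2 * Y / ε ^ 2 ≤ exp (τ - τ₀) := by linarith [add_one_le_exp (τ - τ₀)]
    rw [div_le_iff₀ (by positivity)] at h1
    have h2 : exp (-(τ - τ₀)) * Y ≤ ε ^ 2 / 2 := by
      rw [exp_neg, inv_mul_le_iff₀ (exp_pos _)]
      linarith
    linarith
  · have t0 : 0 < t := by linarith
    have hσ := rho_mem_U hu σ
    have cA := hA _ ⟨S.slice t t0.le, fun u hu => (S.con t t0.le u hu).1, S.odd t t0.le⟩
      (S.con t t0.le)
    have vr := (cA u hu).2.1
    have per : ∀ σ, mu (γ t) (rho (σ + π) u) = mu (γ t) (rho σ u) := fun σ => by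
      rw [Late.rho_add_pi hu]
      exact (cA _ (rho_mem_U hu σ)).2.2.2.2.2.2.2.2.2.2.1
    obtain ⟨n1, n2⟩ := Late.dd (fun w hw => (R.mhs ξ).slice t0 hw) hu
    obtain ⟨m1, m2⟩ := Late.dd (fun w hw => R.mus.slice t0 hw) hu
    have per1 : V (mu (γ t)) (rho (σ + π) u) = V (mu (γ t)) (rho σ u) := by
      have := deriv_comp_add_const (fun σ => mu (γ t) (rho σ u)) π σ
      rw [funext per, m1] at this
      exact this.symm
    have dc : deriv (fun σ => vsq (γ t) (rho σ u) + V (mu (γ t)) (rho σ u) - 1) σ =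
        V (V (mu (γ t))) (rho σ u) := by
      simp only [vr]
      exact (((hasDerivAt_V hu ((R.mus.V.slice t0 hσ).differentiableAt (by simp))).const_add
        _).sub_const _).deriv
    obtain ⟨s1, -, s3, s4, s5⟩ := hs t ht _ hσ
    refine ⟨odd t ht σ, per σ, by simp only [vr, per1], ?_, by linarith, ?_, ?_, ?_, ?_⟩
    · rw [n2, n1, add_sub_cancel]
      exact (hV _ _ _ S t t0 _ hσ).1 ξ
    · rw [m1]; linarith
    · rw [m2]; linarith
    · rw [abs_le] at s1 s4 ⊢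
      constructor <;> linarith [s1.1, s1.2, s4.1, s4.2]
    · rw [dc]; linarith
  · obtain ⟨σ₀, z, p, c⟩ := half t (by linarith) u hu ξ hξ
    refine ⟨c, σ₀, fun σ hσ => ?_⟩
    rcases hσ.1.eq_or_lt with h | h
    · rw [← h]; exact z.ge
    rcases hσ.2.eq_or_lt with h' | h'
    · rw [h', odd t ht, z, neg_zero]
    · exact (p σ ⟨h, h'⟩).le

end Pool.Agent.MP_2291e2_gt.Zl

end MrgPart3

-- ======== part 4: formerly Pool.Agent.MP_2291e2_gt.zl.Mild
section MrgPart4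

/-! Mild solutions: existence, smooth dependence, scaling, oddness and equivariance. -/

open scoped ContDiff RealInnerProductSpace Topology
open Set Filter Real

namespace Pool.Agent.MP_2291e2_gt.Zl

namespace Mild

section weight
variable {A : Type} [NormedAddCommGroup A] [NormedSpace ℝ A]

/-- Multiplication by the weight `exp (K s)`. -/
noncomputable def wLin (K : ℝ) : C(II, A) →ₗ[ℝ] C(II, A) where
  toFun := fun q => ⟨fun s => exp (K * s) • q s, by fun_prop⟩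
  map_add' := fun q q' => by
    ext1 s
    simp [smul_add]
  map_smul' := fun c q => by
    ext1 s
    simp only [ContinuousMap.coe_mk, ContinuousMap.smul_apply, RingHom.id_apply]
    rw [smul_comm]

lemma wLin_bd (K : ℝ) (q : C(II, A)) : ‖wLin K q‖ ≤ exp |K| * ‖q‖ := by
  refine (ContinuousMap.norm_le _ (by positivity)).2 fun s => ?_
  show ‖exp (K * s) • q s‖ ≤ _
  rw [norm_smul, Real.norm_eq_abs, abs_of_pos (exp_pos _)]
  refine mul_le_mul ?_ (q.norm_coe_le_norm s) (norm_nonneg _) (exp_pos _).le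
  refine exp_le_exp.2 ?_
  calc K * s ≤ |K * s| := le_abs_self _
    _ = |K| * |(s : ℝ)| := abs_mul _ _
    _ ≤ |K| * 1 := by
      refine mul_le_mul_of_nonneg_left ?_ (abs_nonneg _)
      rw [abs_of_nonneg s.2.1]
      exact s.2.2
    _ = |K| := mul_one _

/-- The weight as a plain map. -/
noncomputable def wL (K : ℝ) (q : C(II, A)) : C(II, A) := wLin K q

lemma wL_smooth (K : ℝ) : ContDiff ℝ ∞ (wL K : C(II, A) → C(II, A)) :=
  ContinuousLinearMap.contDiff (𝕜 := ℝ) (E := C(II, A)) (F := C(II, A))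
    ((wLin K).mkContinuous (exp |K|) (wLin_bd K))

lemma wL_apply (K : ℝ) (q : C(II, A)) (s : II) : wL K q s = exp (K * s) • q s := rfl

lemma wL_sub (K : ℝ) (q q' : C(II, A)) : wL K (q - q') = wL K q - wL K q' :=
  map_sub (wLin K) q q'

lemma wL_neg_wL (K : ℝ) (q : C(II, A)) : wL (-K) (wL K q) = q := by
  ext1 s
  rw [wL_apply, wL_apply, smul_smul, ← exp_add]
  simp

lemma wL_wL_neg (K : ℝ) (q : C(II, A)) : wL K (wL (-K) q) = q := by
  have := wL_neg_wL (-K) q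
  rwa [neg_neg] at this

lemma lip_wL {f : A → A} {Kf : NNReal} (hf : LipschitzWith Kf f) (K : ℝ) (y y' : C(II, A))
    (s : II) : ‖f (wL K y s) - f (wL K y' s)‖ ≤ (Kf * ‖y - y'‖) * exp (K * s) := by
  rw [wL_apply, wL_apply]
  have h2 := hf.dist_le_mul (exp (K * s) • y s) (exp (K * s) • y' s)
  rw [dist_eq_norm, dist_eq_norm, ← smul_sub, norm_smul, Real.norm_eq_abs,
    abs_of_pos (exp_pos _)] at h2
  have h3 : ‖y s - y' s‖ ≤ ‖y - y'‖ := (y - y').norm_coe_le_norm s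
  calc _ ≤ Kf * (exp (K * s) * ‖y s - y' s‖) := h2
    _ ≤ Kf * (exp (K * s) * ‖y - y'‖) := by gcongr
    _ = _ := by ring

lemma norm_wL (K : ℝ) (q : C(II, A)) (s : II) : ‖wL K q s‖ = exp (K * s) * ‖q s‖ := by
  rw [wL_apply, norm_smul, Real.norm_eq_abs, abs_of_pos (exp_pos _)]

end weight

variable {H : ℝ → XX →L[ℝ] YY} {D : ℝ → YY →L[ℝ] YY} {f : XX → XX} {Nf : YY → YY}

/-- The weighted map is a contraction. -/
lemma contr (hH : HeatOps H D) {Kf : NNReal} (hf : LipschitzWith Kf f)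
    (hN : ∀ (q : YY) (s : II), Nf q s = f (q s)) {Λ K l : ℝ} (hK : 0 < K)
    (hKΛ : 3 * √(Λ / K) * Kf ≤ 1 / 2) (hl : 0 < l) (hlΛ : l ≤ Λ) (g : XX) (y y' : YY) :
    ‖wL (-K) (H l g + D l (Nf (wL K y))) - wL (-K) (H l g + D l (Nf (wL K y')))‖
      ≤ 1 / 2 * ‖y - y'‖ := by
  rw [← wL_sub, add_sub_add_left_eq_sub, ← map_sub]
  have h1 : ∀ s : II, ‖(Nf (wL K y) - Nf (wL K y')) s‖ ≤ (Kf * ‖y - y'‖) * exp (K * s) := by
    intro s
    rw [ContinuousMap.sub_apply, hN, hN]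
    exact lip_wL hf K y y' s
  refine (ContinuousMap.norm_le _ (by positivity)).2 fun s => ?_
  have h4 := hH.Dbd l hl K hK _ _ h1 s
  rw [norm_wL]
  have h5 : √(l / K) ≤ √(Λ / K) := by gcongr
  have h6 : exp (-K * s) * exp (K * s) = 1 := by
    rw [← exp_add]
    simp
  calc _ ≤ exp (-K * s) * (3 * √(l / K) * (Kf * ‖y - y'‖) * exp (K * s)) := by gcongr
    _ = (exp (-K * s) * exp (K * s)) * (3 * √(l / K) * Kf * ‖y - y'‖) := by ring
    _ = 3 * √(l / K) * Kf * ‖y - y'‖ := by rw [h6, one_mul]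
    _ ≤ 3 * √(Λ / K) * Kf * ‖y - y'‖ := by gcongr
    _ ≤ 1 / 2 * ‖y - y'‖ := by gcongr

lemma exists_K (Λ : ℝ) (hΛ : 0 < Λ) (Kf : NNReal) : ∃ K > 0, 3 * √(Λ / K) * Kf ≤ 1 / 2 := by
  refine ⟨Λ * (6 * Kf + 1) ^ 2, by positivity, ?_⟩
  have h1 : (0 : ℝ) < 6 * Kf + 1 := by positivity
  have h2 : Λ / (Λ * (6 * Kf + 1) ^ 2) = ((6 * (Kf : ℝ) + 1)⁻¹) ^ 2 := by
    field_simp
  rw [h2, Real.sqrt_sq (by positivity)]
  have h3 : 3 * (6 * (Kf : ℝ) + 1)⁻¹ * Kf = 3 * Kf / (6 * Kf + 1) := by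
    field_simp
  rw [h3, div_le_iff₀ h1]
  linarith

/-- Smooth solution operator for bounded `l`, with uniqueness. -/
lemma exists_loc (hF : FixStmt) (hH : HeatOps H D) {Kf : NNReal} (hf : LipschitzWith Kf f)
    (hNs : ContDiff ℝ ∞ Nf) (hN : ∀ (q : YY) (s : II), Nf q s = f (q s)) (Λ : ℝ) (hΛ : 0 < Λ) :
    ∃ Q : ℝ × XX → YY, ContDiffOn ℝ ∞ Q (Ioo 0 Λ ×ˢ univ) ∧ ∀ l ∈ Ioo 0 Λ, ∀ g,
      Q (l, g) = H l g + D l (Nf (Q (l, g))) ∧
      ∀ q, q = H l g + D l (Nf q) → q = Q (l, g) := by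
  obtain ⟨K, hK, hKΛ⟩ := exists_K Λ hΛ Kf
  have hop : IsOpen (Ioo 0 Λ ×ˢ (univ : Set XX)) := isOpen_Ioo.prod isOpen_univ
  have hsm : ContDiffOn ℝ ∞
      (fun a : (ℝ × XX) × YY => wL (-K) (H a.1.1 a.1.2 + D a.1.1 (Nf (wL K a.2))))
      ((Ioo 0 Λ ×ˢ univ) ×ˢ univ) := by
    refine (wL_smooth (-K)).comp_contDiffOn (ContDiffOn.add ?_ ?_)
    · refine hH.Hsm.comp (f := fun a : (ℝ × XX) × YY => a.1) contDiff_fst.contDiffOn ?_
      intro a ha
      exact ⟨ha.1.1.1, trivial⟩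
    · refine hH.Dsm.comp (f := fun a : (ℝ × XX) × YY => (a.1.1, Nf (wL K a.2))) ?_ ?_
      · exact (contDiff_fst.fst.prodMk
          (hNs.comp ((wL_smooth K).comp contDiff_snd))).contDiffOn
      · intro a ha
        exact ⟨ha.1.1.1, trivial⟩
  obtain ⟨G, hG, hG'⟩ := hF (ℝ × XX) YY (Ioo 0 Λ ×ˢ univ) _ hop hsm (fun x hx y y' =>
    contr hH hf hN hK hKΛ hx.1.1 hx.1.2.le x.2 y y')
  refine ⟨fun a => wL K (G a), (wL_smooth K).comp_contDiffOn hG, fun l hl g => ⟨?_, ?_⟩⟩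
  · have h1 := (hG' (l, g) ⟨hl, trivial⟩).1
    have h2 := congrArg (wL K) h1
    rw [wL_wL_neg] at h2
    exact h2.symm
  · intro q hq
    have h1 := (hG' (l, g) ⟨hl, trivial⟩).2 (wL (-K) q) (by
      show wL (-K) (H l g + D l (Nf (wL K (wL (-K) q)))) = wL (-K) q
      rw [wL_wL_neg, ← hq])
    show q = wL K (G (l, g))
    rw [← h1, wL_wL_neg]

/-- Global solution operator with uniqueness. -/
lemma exists_glob (hF : FixStmt) (hH : HeatOps H D) {Kf : NNReal} (hf : LipschitzWith Kf f)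
    (hNs : ContDiff ℝ ∞ Nf) (hN : ∀ (q : YY) (s : II), Nf q s = f (q s)) :
    ∃ Q : ℝ × XX → YY, ContDiffOn ℝ ∞ Q (Ioi 0 ×ˢ univ) ∧ ∀ l > 0, ∀ g,
      Q (l, g) = H l g + D l (Nf (Q (l, g))) ∧
      ∀ q, q = H l g + D l (Nf q) → q = Q (l, g) := by
  have h := fun Λ : ℝ => exists_loc hF hH hf hNs hN (|Λ| + 1) (by positivity)
  choose QL hQs hQ using h
  have hmem : ∀ l > (0 : ℝ), l ∈ Ioo 0 (|l| + 1) := fun l hl =>
    ⟨hl, by linarith [le_abs_self l]⟩
  refine ⟨fun a => QL a.1 a, ?_, fun l hl g => hQ l l (hmem l hl) g⟩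
  intro a ha
  have hop : IsOpen (Ioo 0 (|a.1| + 1) ×ˢ (univ : Set XX)) := isOpen_Ioo.prod isOpen_univ
  have hn : Ioo 0 (|a.1| + 1) ×ˢ (univ : Set XX) ∈ 𝓝 a :=
    hop.mem_nhds ⟨hmem a.1 ha.1, trivial⟩
  have h1 : ContDiffAt ℝ ∞ (QL a.1) a := (hQs a.1).contDiffAt hn
  refine (h1.congr_of_eventuallyEq ?_).contDiffWithinAt
  filter_upwards [hn] with b hb
  exact (hQ a.1 b.1 hb.1 b.2).2 _ (hQ b.1 b.1 (hmem b.1 hb.1.1) b.2).1

lemma ext_exp {q q' : YY} (h : ∀ (s : II) (σ : ℝ), q s (Circle.exp σ) = q' s (Circle.exp σ)) :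
    q = q' := by
  refine ContinuousMap.ext fun s => ContinuousMap.ext fun z => ?_
  rw [← Circle.exp_arg z]
  exact h s _

/-- Rescaling of time. -/
noncomputable def resc (r : II) (q : YY) : YY :=
  q.comp ⟨fun s => r * s, Continuous.subtype_mk (by fun_prop) _⟩

lemma resc_apply (r : II) (q : YY) (s : II) : resc r q s = q (r * s) := rfl

lemma mul_projIcc (r s : II) {θ : ℝ} (hθ : θ ∈ uIcc (0 : ℝ) 1) :
    r * projIcc 0 1 zero_le_one (s * (1 - θ ^ 2))
      = projIcc 0 1 zero_le_one ((r * s : II) * (1 - θ ^ 2)) := by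
  rw [uIcc_of_le zero_le_one] at hθ
  have h0 : 0 ≤ 1 - θ ^ 2 := by nlinarith [hθ.1, hθ.2]
  have h1 : 1 - θ ^ 2 ≤ 1 := by nlinarith [hθ.1, hθ.2]
  have m1 : ∀ t : II, (t : ℝ) * (1 - θ ^ 2) ∈ Icc (0 : ℝ) 1 := fun t =>
    ⟨mul_nonneg t.2.1 h0, mul_le_one₀ t.2.2 h0 h1⟩
  rw [projIcc_of_mem _ (m1 s), projIcc_of_mem _ (m1 (r * s))]
  apply Subtype.ext
  simp only [Set.Icc.coe_mul]
  ring

lemma resc_sol (hH : HeatOps H D) (hN : ∀ (q : YY) (s : II), Nf q s = f (q s)) {l : ℝ}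
    (hl : 0 < l) (g : XX) (r : II) (hr : 0 < (r : ℝ)) {q : YY}
    (hq : q = H l g + D l (Nf q)) :
    resc r q = H (l * r) g + D (l * r) (Nf (resc r q)) := by
  have hlr : 0 < l * r := mul_pos hl hr
  refine ext_exp fun s σ => ?_
  have e1 : 2 * l * ((r * s : II) : ℝ) = 2 * (l * r) * s := by
    rw [Set.Icc.coe_mul]
    ring
  have e2 : resc r q s (Circle.exp σ)
      = H l g (r * s) (Circle.exp σ) + D l (Nf q) (r * s) (Circle.exp σ) := by
    rw [resc_apply]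
    conv_lhs => rw [hq]
    rfl
  rw [e2, ContinuousMap.add_apply, ContinuousMap.add_apply, hH.Hval l hl, hH.Dval l hl,
    hH.Hval _ hlr, hH.Dval _ hlr, e1]
  congr 2
  refine intervalIntegral.integral_congr fun θ hθ => ?_
  rw [hN, hN, resc_apply, mul_projIcc r s hθ]

/-- Rotation of the circle. -/
noncomputable def rot (h : ℝ) (q : YY) : YY :=
  (ContinuousMap.compRightContinuousMap E
    (⟨fun z => z * Circle.exp h, by fun_prop⟩ : C(Circle, Circle))).comp q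

lemma rot_apply (h : ℝ) (q : YY) (s : II) (σ : ℝ) :
    rot h q s (Circle.exp σ) = q s (Circle.exp (σ + h)) := by
  rw [Circle.exp_add]
  rfl

lemma rot_sol (hH : HeatOps H D) {R : ℝ} {J : XX →L[ℝ] XX} (hf : Nonlin R J f)
    (hN : ∀ (q : YY) (s : II), Nf q s = f (q s)) {l : ℝ} (hl : 0 < l) {g g' : XX} {h : ℝ}
    (hg : ∀ σ, g' (Circle.exp σ) = g (Circle.exp (σ + h))) {q : YY}
    (hq : q = H l g + D l (Nf q)) :
    rot h q = H l g' + D l (Nf (rot h q)) := by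
  refine ext_exp fun s σ => ?_
  have e2 : rot h q s (Circle.exp σ)
      = H l g s (Circle.exp (σ + h)) + D l (Nf q) s (Circle.exp (σ + h)) := by
    rw [rot_apply]
    conv_lhs => rw [hq]
    rfl
  have e3 : ∀ (t : II) (x : ℝ), Nf (rot h q) t (Circle.exp x) = Nf q t (Circle.exp (x + h)) := by
    intro t x
    rw [hN, hN]
    exact hf.equi (q t) (rot h q t) h (fun σ => rot_apply h q t σ) x
  rw [e2, ContinuousMap.add_apply, ContinuousMap.add_apply, hH.Hval l hl, hH.Dval l hl,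
    hH.Hval l hl, hH.Dval l hl]
  simp only [hg, e3, add_right_comm σ h]

end Mild

open Mild in
theorem mild_of (hN : NemStmt) (hF : FixStmt) : MildStmt := by
  intro H D R J f hH hf
  obtain ⟨-, Nf, hNs, hNv⟩ := hN II XX XX univ f isOpen_univ hf.smooth.contDiffOn
  have hNs' : ContDiff ℝ ∞ Nf := by
    rw [← contDiffOn_univ]
    simpa using hNs
  have hNv' : ∀ (q : YY) (s : II), Nf q s = f (q s) := fun q s => hNv q (fun _ => trivial) s
  obtain ⟨Kf, hKf⟩ := hf.lip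
  obtain ⟨Q, hQs, hQ⟩ := exists_glob hF hH hKf hNs' hNv'
  refine ⟨Nf, Q, hNs', hNv', hQs, fun l hl g => (hQ l hl g).1, ?_, ?_, ?_⟩
  · intro l hl g r s hr
    rw [← (hQ (l * r) (mul_pos hl hr) g).2 _ (resc_sol hH hNv' hl g r hr (hQ l hl g).1),
      resc_apply]
  · intro l hl g
    refine ((hQ l hl (-g)).2 _ ?_).symm
    have h1 : Nf (-Q (l, g)) = -Nf (Q (l, g)) := by
      refine ContinuousMap.ext fun s => ?_
      rw [ContinuousMap.neg_apply, hNv', hNv', ContinuousMap.neg_apply, hf.odd]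
    rw [h1, map_neg, map_neg, ← neg_add, ← (hQ l hl g).1]
  · intro l hl g g' h hg s σ
    rw [← (hQ l hl g').2 _ (rot_sol hH hf hNv' hl hg (hQ l hl g).1), rot_apply]

end Pool.Agent.MP_2291e2_gt.Zl

end MrgPart4

-- ======== part 5: formerly Pool.Agent.MP_2291e2_gt.zl.Reparam
section MrgPart5

/-! Reparametrisation of the fibres to constant speed. -/

open scoped ContDiff RealInnerProductSpace Topology
open Set Filter Real

namespace Pool.Agent.MP_2291e2_gt.Zl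

namespace Reparam

/-- The family `G` shifted along the fibres by the angle `e`. -/
noncomputable def sh (e : P → ℝ) (G : P → E) (u : P) : E := G (rho (e (rt u)) (rt u))

lemma cdc {X F : Type*} [NormedAddCommGroup X] [NormedSpace ℝ X] [NormedAddCommGroup F]
    [NormedSpace ℝ F] {G : P → F} {a : X → ℝ} {b : X → P} {x : X}
    (hG : ContDiffAt ℝ ∞ G (rho (a x) (b x))) (ha : ContDiffAt ℝ ∞ a x)
    (hb : ContDiffAt ℝ ∞ b x) : ContDiffAt ℝ ∞ (fun y => G (rho (a y) (b y))) x :=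
  ContDiffAt.comp (g := G) (f := fun y => rho (a y) (b y)) x hG
    (ContDiffAt.comp (g := fun q : ℝ × P => rho q.1 q.2) (f := fun y => (a y, b y)) x
      contDiff_rho.contDiffAt (ha.prodMk hb))

lemma dW_rep {G : P → E} {e : P → ℝ} {u : P} (hu : u ∈ U)
    (hG : DifferentiableAt ℝ G (rho (e u) u)) (he : DifferentiableAt ℝ e u) (ξ : E) :
    dW (fun w => G (rho (e w) w)) u ξ
      = dW G (rho (e u) u) ξ + dW e u ξ • V G (rho (e u) u) := by
  have hΓ : DifferentiableAt ℝ (fun q : ℝ × P => G (rho q.1 q.2)) (e u, u) :=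
    hG.comp (f := fun q : ℝ × P => rho q.1 q.2) _
      ((contDiff_rho (n := 1)).differentiable one_ne_zero _)
  set L := fderiv ℝ (fun q : ℝ × P => G (rho q.1 q.2)) (e u, u) with hL
  have h1 := (HasFDerivAt.comp (f := fun w => (e w, w)) u hΓ.hasFDerivAt
    (he.hasFDerivAt.prodMk (hasFDerivAt_id u))).fderiv
  have h2 : L (1, 0) = V G (rho (e u) u) :=
    (HasFDerivAt.comp_hasDerivAt (f := fun s => (s, u)) (e u) hΓ.hasFDerivAt
      ((hasDerivAt_id (e u)).prodMk (hasDerivAt_const (e u) u))).unique (hasDerivAt_V hu hG)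
  have h3 := (HasFDerivAt.comp (f := fun w => (e u, w)) u hΓ.hasFDerivAt
    ((hasFDerivAt_const (e u) u).prodMk (hasFDerivAt_id u))).fderiv
  have h4 : L (0, W u ξ) = dW G (rho (e u) u) ξ := by
    rw [← dW_comp_rho hG]
    exact (congrArg (fun T : P →L[ℝ] E => T (W u ξ)) h3).symm
  have h5 : dW (fun w => G (rho (e w) w)) u ξ = L (dW e u ξ, W u ξ) :=
    congrArg (fun T : P →L[ℝ] E => T (W u ξ)) h1
  rw [h5, ← h2, ← h4, ← map_smul, ← map_add]
  simp

section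
variable {G : P → E} {e : P → ℝ} (hG : Good G) (he : ∀ u ∈ U, ContDiffAt ℝ ∞ e u)
include hG he

lemma cd_sh {u : P} (hu : u ∈ U) : ContDiffAt ℝ ∞ (fun w => G (rho (e w) w)) u :=
  cdc (b := fun w => w) (contDiffAt_of_U hG.smooth (rho_mem_U hu _)) (he u hu) contDiffAt_id

lemma dW_sh {u : P} (hu : u ∈ U) (ξ : E) :
    dW (sh e G) u ξ = dW G (rho (e u) u) ξ + dW e u ξ • V G (rho (e u) u) :=
  (dW_comp_rt hu ((cd_sh hG he hu).differentiableAt (by simp)) ξ).trans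
    (dW_rep hu (diffAt_of_U hG.smooth (rho_mem_U hu _)) ((he u hu).differentiableAt (by simp)) ξ)

lemma V_sh {u : P} (hu : u ∈ U) : V (sh e G) u = (1 + V e u) • V G (rho (e u) u) := by
  rw [add_smul, one_smul]
  exact dW_sh hG he hu u.1

lemma good_sh (ev : ∀ u ∈ U, e (rev u) = e u) (hp : ∀ u ∈ U, 0 < 1 + V e u) :
    Good (sh e G) := by
  have val : ∀ u ∈ U, sh e G u = G (rho (e u) u) := fun u hu => by rw [sh, rt_of_U hu]
  have hσ : ∀ u ∈ U, ∀ r, HasDerivAt (fun r => e (rho r u) + r) (1 + V e (rho r u)) r :=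
    fun u hu r => by
      rw [add_comm 1]
      exact (hasDerivAt_V hu ((he _ (rho_mem_U hu r)).differentiableAt (by simp))).fun_add
        (hasDerivAt_id r)
  have mono : ∀ u ∈ U, StrictMono fun r => e (rho r u) + r := fun u hu =>
    strictMono_of_deriv_pos fun r => by rw [(hσ u hu r).deriv]; exact hp _ (rho_mem_U hu r)
  have lo : ∀ u ∈ U, ∀ s, 0 < s → 0 < e (rho s u) + s - e u := fun u hu s hs => by
    have := mono u hu hs
    simp only [rho_zero] at this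
    linarith
  have hi : ∀ u ∈ U, ∀ s, s < π → e (rho s u) + s - e u < π := fun u hu s hs => by
    have := mono u hu hs
    simp only [rho_pi, ev u hu] at this
    linarith
  have dm : ∀ ξ, ∀ u ∈ U, DifferentiableAt ℝ (fun w => mm G w ξ) u := fun ξ u hu =>
    diffAt_of_U (contDiffOn_mm hG.smooth ξ) hu
  have wd : ∀ u ∈ U, wedge (fun w => mm G (rho (e w) w)) u
      = fun s => wedge (mm G) (rho (e u) u) (e (rho s u) + s - e u) := fun u hu => by
    funext s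
    rw [wedge_rho (mm_lin G) hu, add_sub_cancel, wedge, rho_add hu]
  have T0 : Turn fun w => mm G (rho (e w) w) := by
    refine ⟨fun u hu s hs => ?_, fun u hu => ?_⟩
    · rw [wd u hu]
      exact hG.turn.pos _ (rho_mem_U hu _) _ ⟨lo u hu s hs.1, hi u hu s hs.2⟩
    · have h1 := (hasDerivAt_wedge dm (rho_mem_U hu (e u)) 0).differentiableAt.hasDerivAt
      have h2 := (hσ u hu 0).sub_const (e u)
      have h3 := HasDerivAt.comp_of_eq (0 : ℝ) h1 h2 (by simp)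
      rw [wd u hu]
      exact (mul_pos (hG.turn.pos0 _ (rho_mem_U hu _)) (hp _ (rho_mem_U hu 0))).trans_eq
        h3.deriv.symm
  refine ⟨⟨contDiffOn_comp_rt fun u hu => cd_sh hG he hu, fun u hu => ?_, fun u hu => ?_⟩,
    fun u hu s hs => ?_, ?_⟩
  · rw [val u hu, hG.unit _ (rho_mem_U hu _)]
  · rw [val u hu, val _ (rev_mem_U hu), ev u hu, rho_rev, hG.odd _ (rho_mem_U hu _)]
  · have h1 : e (rho s u) + s - e u ≤ π := by
      rcases hs.2.eq_or_lt with h | h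
      · rw [h, rho_pi, ev u hu]; linarith
      · exact (hi u hu s h).le
    have := hG.emb _ (rho_mem_U hu (e u)) _ ⟨lo u hu s hs.1, h1⟩
    rwa [rho_add hu, sub_add_cancel, ← rho_add hu, ← val _ (rho_mem_U hu s), ← val u hu] at this
  · refine T0.mul (c := fun u => 1 + V e u) (fun ξ u hu => ?_) (fun u hu => ?_)
      (fun u hu u' hu' => mul_pos (hp u hu) (hp u' hu')) fun u hu ξ => ?_
    · exact (cdc (G := fun w => mm G w ξ) (b := fun w => w) (contDiffAt_of_U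
        (contDiffOn_mm hG.smooth ξ) (rho_mem_U hu _)) (he u hu) contDiffAt_id).differentiableAt
        (by simp)
    · exact ((contDiffAt_V (he u hu)).differentiableAt (by simp)).const_add 1
    · simp only [mm]
      rw [V_sh hG he hu, dW_sh hG he hu, val u hu]
      simp only [dt3, PiLp.add_apply, PiLp.smul_apply, smul_eq_mul]
      ring

end

/-- The shift to constant speed. -/
lemma ex_shift (hM : MeanStmt) {G : P → E} (hG : Good G) :
    ∃ e m : P → ℝ, (∀ u ∈ U, ContDiffAt ℝ ∞ e u) ∧ (∀ u ∈ U, e (rev u) = e u) ∧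
      ∀ u ∈ U, 0 < m u ∧ (∀ s, m (rho s u) = m u) ∧
        (1 + V e u) * ‖V G (rho (e u) u)‖ = m u := by
  have fs : ContDiffOn ℝ ∞ (fun u => ‖V G (rt u)‖) Ind := contDiffOn_comp_rt (f := fun u => ‖V G u‖)
    fun u hu => (contDiffAt_of_U (contDiffOn_V hG.smooth) hu).norm ℝ (hG.V_ne hu)
  set f : P → ℝ := fun u => ‖V G (rt u)‖ with hf
  have fv : ∀ u ∈ U, f u = ‖V G u‖ := fun u hu => by simp only [hf, rt_of_U hu]
  have fp : ∀ u ∈ U, 0 < f u := fun u hu => fv u hu ▸ norm_pos_iff.2 (hG.V_ne hu)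
  obtain ⟨m1, k1, -, h⟩ := hM.1 f fs
  have h := h fun u hu => by
    rw [fv u hu, fv _ (rev_mem_U hu), V_odd hG.smooth hG.odd hu, norm_neg]
  have mp : ∀ u ∈ U, 0 < Mean f u := fun u hu =>
    mul_pos (inv_pos.2 pi_pos) (intervalIntegral.intervalIntegral_pos_of_pos
      ((contDiff_fibre (fun u hu => contDiffAt_of_U fs hu) hu).continuous.intervalIntegrable _ _)
      (fun s => fp _ (rho_mem_U hu s)) pi_pos)
  set d : P → ℝ := fun u => Kop f u / Mean f u with hd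
  have ds : ∀ u ∈ U, ContDiffAt ℝ ∞ d u := fun u hu =>
    (contDiffAt_of_U k1 hu).div (contDiffAt_of_U m1 hu) (mp u hu).ne'
  have dev : ∀ u ∈ U, d (rev u) = d u := fun u hu => by
    simp only [hd]
    rw [(h u hu).2.2.1, ← rho_pi, (h u hu).1]
  have hS : ∀ u ∈ U, ∀ s, HasDerivAt (fun s => s + d (rho s u)) (f (rho s u) / Mean f u) s := by
    intro u hu s
    have hu' := rho_mem_U hu s
    refine ((hasDerivAt_id s).fun_add
      (hasDerivAt_V hu ((ds _ hu').differentiableAt (by simp)))).congr_deriv ?_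
    have e1 : V d (rho s u) = (V (Kop f) (rho s u) * Mean f (rho s u)
        - Kop f (rho s u) * V (Mean f) (rho s u)) / Mean f (rho s u) ^ 2 :=
      dW_fdiv (diffAt_of_U k1 hu') (diffAt_of_U m1 hu') (mp _ hu').ne' _
    rw [e1, (h _ hu').2.1, (h _ hu').2.2.2.1, (h u hu).1]
    have := (mp u hu).ne'
    field_simp
    ring
  have mono : ∀ u ∈ U, StrictMono fun s => s + d (rho s u) := fun u hu =>
    strictMono_of_deriv_pos fun s => by
      rw [(hS u hu s).deriv]; exact div_pos (fp _ (rho_mem_U hu s)) (mp u hu)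
  obtain ⟨C, hC⟩ := isCompact_U.exists_bound_of_continuousOn
    fun u hu => (ds u hu).continuousAt.continuousWithinAt
  have ex : ∀ u ∈ U, ∃ s, s + d (rho s u) = 0 := fun u hu =>
    intermediate_value_univ (-C) C (continuous_iff_continuousAt.2 fun s => (hS u hu s).continuousAt)
      ⟨by linarith [(abs_le.1 (hC _ (rho_mem_U hu (-C)))).2],
        by linarith [(abs_le.1 (hC _ (rho_mem_U hu C))).1]⟩
  set e : P → ℝ := fun x => Function.invFun (fun s => s + d (rho s (rt x))) 0 with he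
  have e0 : ∀ x ∈ Ind, e x + d (rho (e x) (rt x)) = 0 := fun x hx =>
    Function.invFun_eq (f := fun s => s + d (rho s (rt x))) (ex _ (rt_mem_U hx))
  have e1 : ∀ u ∈ U, e u + d (rho (e u) u) = 0 := fun u hu => by
    have := e0 u (U_sub_Ind hu)
    rwa [rt_of_U hu] at this
  have es : ∀ u ∈ U, ContDiffAt ℝ ∞ e u := by
    intro u hu
    have c1 : ContDiffAt ℝ ∞ (fun q : P × ℝ => rt q.1) (u, e u) :=
      ContDiffAt.comp (g := rt) (f := Prod.fst) (u, e u) (contDiffAt_rt (U_sub_Ind hu))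
        contDiffAt_fst
    have c2 : ContDiffAt ℝ ∞ (fun q : P × ℝ => q.2 + d (rho q.2 (rt q.1))) (u, e u) :=
      contDiffAt_snd.add (cdc (a := Prod.snd) (b := fun q : P × ℝ => rt q.1)
        (ds _ (rho_mem_U (rt_mem_U (U_sub_Ind hu)) _)) contDiffAt_snd c1)
    refine contDiffAt_of_mono (c := 0) (J := univ) univ_mem c2 ?_ ?_
    · have c3 := HasFDerivAt.comp_hasDerivAt (f := fun s => (u, s)) (e u)
        (c2.differentiableAt (by simp)).hasFDerivAt
        ((hasDerivAt_const (e u) u).prodMk (hasDerivAt_id (e u)))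
      have hu' := rt_mem_U (U_sub_Ind hu)
      rw [c3.unique (hS _ hu' (e u))]
      exact (div_pos (fp _ (rho_mem_U hu' _)) (mp _ hu')).ne'
    · filter_upwards [Ind_nhds hu] with x hx
      exact ⟨e0 x hx, fun t _ ht => (mono _ (rt_mem_U hx)).injective (ht.trans (e0 x hx).symm)⟩
  refine ⟨e, Mean f, es, fun u hu => (mono u hu).injective ?_, fun u hu =>
    ⟨mp u hu, (h u hu).1, ?_⟩⟩
  · have := e1 _ (rev_mem_U hu)
    rw [rho_rev, dev _ (rho_mem_U hu _)] at this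
    exact this.trans (e1 u hu).symm
  · have h1 := (hasDerivAt_V hu (s := 0)
      ((es _ (rho_mem_U hu 0)).differentiableAt (by simp))).fun_add (hasDerivAt_id' 0)
    have h2 := HasDerivAt.comp_of_eq (0 : ℝ) (hS u hu (e u)) h1 (by simp)
    have h3 : ((fun s => s + d (rho s u)) ∘ fun s => e (rho s u) + s) = id := by
      funext s
      have := e1 _ (rho_mem_U hu s)
      rw [rho_add hu] at this
      simp only [Function.comp, id]
      linarith
    rw [h3] at h2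
    have h4 := h2.unique (hasDerivAt_id 0)
    rw [fv _ (rho_mem_U hu _), rho_zero] at h4
    have := (mp u hu).ne'
    field_simp at h4
    linarith

end Reparam

open Reparam in
theorem reparam_of (hM : MeanStmt) : ReparamStmt := by
  intro G hG
  obtain ⟨e, m, es, ev, h⟩ := ex_shift hM hG
  have hp : ∀ u ∈ U, 0 < 1 + V e u := fun u hu =>
    pos_of_mul_pos_right ((h u hu).1.trans_eq ((h u hu).2.2.symm.trans (mul_comm _ _)))
      (norm_nonneg _)
  have sp : ∀ u ∈ U, ‖V (sh e G) u‖ = m u := fun u hu => by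
    rw [V_sh hG es hu, norm_smul, Real.norm_eq_abs, abs_of_pos (hp u hu), (h u hu).2.2]
  refine ⟨sh e G, good_sh hG es ev hp, fun u hu s => ?_,
    fun t => sh (fun u => smoothTransition t * e u) G, ?_, fun t => ?_, fun u hu => ?_,
    fun u hu => ?_⟩
  · rw [sp u hu, sp _ (rho_mem_U hu s), (h u hu).2.1]
  · rintro ⟨t, u⟩ ⟨-, hu⟩
    have hu' := rt_mem_U hu
    have c1 : ContDiffAt ℝ ∞ (fun q : ℝ × P => rt q.2) (t, u) :=
      ContDiffAt.comp (g := rt) (f := Prod.snd) (t, u) (contDiffAt_rt hu) contDiffAt_snd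
    have c2 : ContDiffAt ℝ ∞ (fun q : ℝ × P => smoothTransition q.1 * e (rt q.2)) (t, u) :=
      (ContDiffAt.comp (g := smoothTransition) (f := Prod.fst) (t, u)
        smoothTransition.contDiffAt contDiffAt_fst).mul
        (ContDiffAt.comp (g := e) (f := fun q : ℝ × P => rt q.2) (t, u) (es _ hu') c1)
    exact (cdc (a := fun q : ℝ × P => smoothTransition q.1 * e (rt q.2))
      (b := fun q : ℝ × P => rt q.2) (x := (t, u))
      (contDiffAt_of_U hG.smooth (rho_mem_U hu' _)) c2 c1).contDiffWithinAt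
  · refine good_sh hG (fun u hu => contDiffAt_const.mul (es u hu))
      (fun u hu => by rw [ev u hu]) fun u hu => ?_
    have e1 : V (fun u => smoothTransition t * e u) u = smoothTransition t * V e u :=
      dW_csmul (smoothTransition t) ((es u hu).differentiableAt (by simp)) _
    rw [e1]
    rcases (smoothTransition.nonneg t).eq_or_lt with h0 | h0
    · rw [← h0]; norm_num
    · nlinarith [mul_pos h0 (hp u hu), smoothTransition.le_one t]
  · simp [sh, rt_of_U hu]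
  · simp [sh]

end Pool.Agent.MP_2291e2_gt.Zl

end MrgPart5

-- ======== part 6: formerly Pool.Agent.MP_2291e2_gt.zl.Round
section MrgPart6

/-! Families of great circles come from a round metric. -/

open scoped ContDiff RealInnerProductSpace Topology
open Set Filter Real

namespace Pool.Agent.MP_2291e2_gt.Zl

namespace Round

open Classical in
noncomputable def ee (y : E) : E := if h : ∃ e, (y, e) ∈ Ind then h.choose else 0

noncomputable def psi (G : P → E) (y : E) : E := pole G (rt (y, ee y))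

lemma ex_e {y : E} (h : y ≠ 0) : ∃ e, (y, e) ∈ Ind := by
  have hn : ‖y‖ ≠ 0 := by simpa using h
  obtain ⟨v, hv⟩ := exists_U_over (y := ‖y‖⁻¹ • y) (by simp [norm_smul, hn])
  refine ⟨v, mem_Ind.2 fun h0 => mem_Ind.1 (U_sub_Ind hv) ?_⟩
  simp only at h0 ⊢
  rw [cr_smul_left, h0, smul_zero]

lemma ee_mem {y : E} (h : ∃ e, (y, e) ∈ Ind) : (y, ee y) ∈ Ind := by
  unfold ee
  rw [dif_pos h]
  exact h.choose_spec

lemma mkU {a b : E} (h1 : ‖a‖ = 1) (h2 : ‖b‖ = 1) (h3 : ⟪a, b⟫ = 0) : ((a, b) : P) ∈ U :=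
  ⟨h1, h2, h3⟩

lemma ofU {a b : E} (h : ((a, b) : P) ∈ U) :
    ‖a‖ = 1 ∧ ‖b‖ = 1 ∧ ⟪a, b⟫ = 0 ∧ ‖cr a b‖ = 1 := by
  have h4 := norm_cr_U h
  obtain ⟨h1, h2, h3⟩ := h
  dsimp only at h1 h2 h3 h4
  exact ⟨h1, h2, h3, h4⟩

variable {G : P → E}

lemma pole_eq (hg : Great G) {u u' : P} (hu : u ∈ U) (hu' : u' ∈ U) (e : u'.1 = u.1) :
    pole G u' = pole G u := by
  obtain ⟨s, -, rfl⟩ := exists_rho hu hu' e
  exact hg u hu s

lemma psi_eq (hg : Great G) {y e : E} (h : (y, e) ∈ Ind) : psi G y = pole G (rt (y, e)) :=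
  pole_eq hg (rt_mem_U h) (rt_mem_U (ee_mem ⟨e, h⟩)) rfl

lemma psi_U (hg : Great G) {u : P} (h : u ∈ U) : psi G u.1 = pole G u := by
  rw [psi_eq hg (e := u.2) (U_sub_Ind h), rt_of_U h]

lemma psi_U' (hg : Great G) {y v : E} (h : ((y, v) : P) ∈ U) : psi G y = pole G (y, v) := by
  rw [psi_eq hg (U_sub_Ind h), rt_of_U h]

lemma pole_smooth (hG : Good G) {u : P} (h : u ∈ U) : ContDiffAt ℝ ∞ (pole G) u := by
  have h1 := contDiffAt_of_U hG.smooth h
  have h2 := contDiffAt_V h1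
  have h3 := hG.V_ne h
  exact ((h2.norm ℝ h3).inv (by simpa using h3)).smul (ContDiffAt.cr' h1 h2)

lemma psi_smoothAt (hG : Good G) (hg : Great G) {y : E} (h : y ≠ 0) :
    ContDiffAt ℝ ∞ (psi G) y := by
  obtain ⟨e, he⟩ := ex_e h
  have hc : ContDiffAt ℝ ∞ (fun y : E => ((y, e) : P)) y := by fun_prop
  have h1 : ContDiffAt ℝ ∞ (fun y : E => pole G (rt (y, e))) y :=
    ContDiffAt.comp (g := pole G) y (pole_smooth hG (rt_mem_U he))
      (ContDiffAt.comp (g := rt) y (contDiffAt_rt he) hc)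
  refine h1.congr_of_eventuallyEq ?_
  have : ∀ᶠ y' in 𝓝 y, ((y', e) : P) ∈ Ind :=
    hc.continuousAt.preimage_mem_nhds (isOpen_Ind.mem_nhds he)
  exact this.mono fun y' hy' => psi_eq hg hy'

lemma Psi_smooth (hG : Good G) (hg : Great G) :
    ContDiffOn ℝ ∞ (fun u : P => psi G u.1) Ind := fun u h =>
  (ContDiffAt.comp (g := psi G) u (psi_smoothAt hG hg (Ind_fst_ne h))
    contDiffAt_fst).contDiffWithinAt

lemma dW_Psi (hG : Good G) (hg : Great G) {u : P} (h : u ∈ U) (ξ : E) :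
    dW (fun u : P => psi G u.1) u ξ = fderiv ℝ (psi G) u.1 (cr ξ u.1) := by
  have h1 : DifferentiableAt ℝ (psi G) u.1 :=
    (psi_smoothAt hG hg (Ind_fst_ne (U_sub_Ind h))).differentiableAt (by simp)
  unfold dW
  rw [show (fun u : P => psi G u.1) = psi G ∘ Prod.fst from rfl,
    fderiv_comp u h1 differentiableAt_fst, fderiv_fst]
  rfl

lemma pole_cr (u : P) : pole G u = cr (Th G u).1 (Th G u).2 := by
  simp only [pole, Th, cr_smul_right]

variable {Ti : P → P}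

lemma pole_norm (hT : ThInv G Ti) {u : P} (h : u ∈ U) : ‖pole G u‖ = 1 := by
  rw [pole_cr]; exact norm_cr_U (hT.maps' h)

lemma pole_U (hT : ThInv G Ti) {u : P} (h : u ∈ U) : (pole G u, G u) ∈ U := by
  refine ⟨pole_norm hT h, (hT.maps' h).1, ?_⟩
  show ⟪pole G u, G u⟫ = 0
  rw [pole_cr]
  exact cr_inner_left _ _

/-- The unit tangent is determined by the pole and the point. -/
lemma tan_eq (hT : ThInv G Ti) {u : P} (h : u ∈ U) : (Th G u).2 = cr (pole G u) (G u) := by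
  have hm := hT.maps' h
  rw [pole_cr, show G u = (Th G u).1 from rfl, cr_cr_left, inner_self_U1 hm, inner_U21 hm]
  simp

lemma cr_pole_V (hG : Good G) (hT : ThInv G Ti) {u : P} (h : u ∈ U) :
    cr (pole G u) (V G u) = -‖V G u‖ • G u := by
  have hm := hT.maps' h
  have hn : ‖V G u‖ ≠ 0 := by simpa using hG.V_ne h
  have e : V G u = ‖V G u‖ • (Th G u).2 := by
    simp only [Th, smul_smul, mul_inv_cancel₀ hn, one_smul]
  have e2 : cr (pole G u) (Th G u).2 = -G u := by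
    rw [pole_cr, cr_cr_left, inner_self_U2 hm, hm.2.2]
    simp [Th]
  conv_lhs => rw [e, cr_smul_right, e2]
  simp

/-- Every direction is orthogonal to some point of the curve. -/
lemma ex_orth (hG : Good G) {u : P} (h : u ∈ U) (a : E) : ∃ s, ⟪G (rho s u), a⟫ = 0 := by
  have hc : Continuous fun s => ⟪G (rho s u), a⟫ :=
    ((contDiff_fibre (fun u hu => contDiffAt_of_U hG.smooth hu) h).continuous).inner
      continuous_const
  have h0 : ⟪G (rho π u), a⟫ = -⟪G (rho 0 u), a⟫ := by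
    rw [rho_pi, rho_zero, hG.odd u h, inner_neg_left]
  rcases le_total 0 ⟪G (rho 0 u), a⟫ with h1 | h1
  · exact intermediate_value_univ (f := fun s => ⟪G (rho s u), a⟫) π 0 hc ⟨by linarith, h1⟩
  · exact intermediate_value_univ (f := fun s => ⟪G (rho s u), a⟫) 0 π hc ⟨h1, by linarith⟩

lemma mm_eq (hG : Good G) (hg : Great G) (hT : ThInv G Ti) {u : P} (h : u ∈ U) (ξ : E) :
    mm G u ξ = ‖V G u‖ * ⟪G u, fderiv ℝ (psi G) u.1 (cr ξ u.1)⟫ := by
  have d1 := diffAt_of_U hG.smooth h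
  have d2 := diffAt_of_U (Psi_smooth hG hg) h
  have h0 : dW (fun w : P => ⟪G w, psi G w.1⟫) u ξ = 0 := by
    refine dW_const_on h (d1.inner ℝ d2) (a := 0) (fun w hw => ?_) ξ
    rw [psi_U hg hw, real_inner_comm]
    exact (pole_U hT hw).2.2
  rw [dW_inner d1 d2, dW_Psi hG hg h, psi_U hg h] at h0
  have hn : ‖V G u‖ ≠ 0 := by simpa using hG.V_ne h
  have e : ⟪dW G u ξ, pole G u⟫ = ‖V G u‖⁻¹ * -mm G u ξ := by
    rw [pole, inner_smul_right, mm, dt_swap12, neg_neg]; rfl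
  rw [e] at h0
  have : ⟪G u, fderiv ℝ (psi G) u.1 (cr ξ u.1)⟫ = ‖V G u‖⁻¹ * mm G u ξ := by linarith
  rw [this, ← mul_assoc, mul_inv_cancel₀ hn, one_mul]

lemma bij (hG : Good G) (hg : Great G) (hT : ThInv G Ti) :
    BijOn (psi G) (Metric.sphere 0 1) (Metric.sphere 0 1) := by
  refine ⟨fun y hy => ?_, fun y hy y' hy' e => ?_, fun n hn => ?_⟩
  · obtain ⟨v, hv⟩ := exists_U_over (y := y) (by simpa using hy)
    rw [mem_sphere_zero_iff_norm, psi_U' hg hv]
    exact pole_norm hT hv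
  · obtain ⟨v, hv⟩ := exists_U_over (y := y) (by simpa using hy)
    obtain ⟨v', hv'⟩ := exists_U_over (y := y') (by simpa using hy')
    have e1 : psi G y = pole G (y, v) := psi_U' hg hv
    have e2 : psi G y' = pole G (y', v') := psi_U' hg hv'
    have key : ∀ w ∈ U, w.1 = y → G w = G (y', v') → y = y' := by
      intro w hw hw1 hw2
      have hp : pole G w = pole G (y', v') := by
        rw [pole_eq hg hv hw hw1, ← e1, e, e2]
      have : Th G w = Th G (y', v') :=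
        Prod.ext hw2 (by rw [tan_eq hT hw, tan_eq hT hv', hp, hw2])
      have h3 := congrArg Ti this
      rw [hT.left w hw, hT.left _ hv'] at h3
      rw [← hw1, h3]
    obtain ⟨s, hs⟩ := ex_orth hG hv (cr (pole G (y', v')) (G (y', v')))
    have hw := rho_mem_U hv s
    have hf := frameU (pole_U hT hv') (G (rho s (y, v)))
    have ho : ⟪G (rho s (y, v)), pole G (y', v')⟫ = 0 := by
      rw [← e2, ← e, e1, ← hg _ hv s, real_inner_comm]
      exact (pole_U hT hw).2.2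
    simp only [ho, hs, zero_smul, zero_add, add_zero] at hf
    set c := ⟪G (rho s (y, v)), G (y', v')⟫ with hc
    have hc1 : |c| = 1 := by
      have := congrArg norm hf
      rw [norm_smul, hG.unit _ hw, hG.unit _ hv', mul_one] at this
      exact this.symm
    rcases (abs_eq zero_le_one).1 hc1 with h1 | h1
    · exact key _ hw (rho_fst _ _) (by rw [hf, h1, one_smul])
    · refine key _ (rev_mem_U hw) ((rev_fst _).trans (rho_fst _ _)) ?_
      rw [hG.odd _ hw, hf, h1]; simp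
  · have hn1 : ‖n‖ = 1 := by simpa using hn
    obtain ⟨l, hl⟩ := exists_U_over hn1
    have hm : ((l, cr n l) : P) ∈ U := mkU (ofU hl).2.1 (ofU hl).2.2.2 (inner_cr_right n l)
    have hu := hT.maps hm
    refine ⟨(Ti (l, cr n l)).1, by simpa using hu.1, ?_⟩
    rw [psi_U hg hu, pole_cr, hT.right _ hm]
    have a1 : ⟪l, l⟫ = 1 := inner_self_U2 hl
    have a2 : ⟪l, n⟫ = 0 := inner_U21 hl
    simp only [cr_cr_right, a1, a2, one_smul, zero_smul, sub_zero]

lemma cr_tan {x w : E} (hxw : Tan x w) : cr (cr x w) x = w := by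
  have a1 : ⟪x, x⟫ = 1 := by rw [real_inner_self_eq_norm_sq, hxw.1]; norm_num
  have a2 : ⟪w, x⟫ = 0 := by rw [real_inner_comm]; exact hxw.2.1
  rw [cr_cr_left, a1, a2]; simp

variable {p : P → E}

lemma V_val (hG : Good G) (hg : Great G) (hT : ThInv G Ti) (hstr : Str G p fun _ => 1) {x w : E}
    (hxw : Tan x w) {u : P} (hu : u ∈ U) (e : u.1 = x) :
    ⟪V p u, w⟫ = -(‖V G u‖ * ⟪G u, fderiv ℝ (psi G) x w⟫) := by
  have := hstr.npp hu (cr x w)
  rw [mm_eq hG hg hT hu, npp, e, cr_tan hxw] at this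
  rw [this]; ring

lemma p_val (hG : Good G) (hg : Great G) (hT : ThInv G Ti) (hp : ContDiffOn ℝ ∞ p Ind)
    (hodd : ∀ u ∈ U, p (rev u) = -p u) {x w a : E}
    (hV : ∀ u ∈ U, u.1 = x → ⟪V p u, w⟫ = -(‖V G u‖ * ⟪G u, a⟫)) {u : P} (hu : u ∈ U)
    (e : u.1 = x) : ⟪p u, w⟫ = ⟪cr (pole G u) (G u), a⟫ := by
  have hd : ∀ s, HasDerivAt
      (fun s => ⟪p (rho s u), w⟫ - ⟪cr (pole G u) (G (rho s u)), a⟫) 0 s := by
    intro s
    have d1 := hasDerivAt_inner (hasDerivAt_V' hp hu s) (hasDerivAt_const s w)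
    have d2 := hasDerivAt_inner (hasDerivAt_cr (hasDerivAt_const s (pole G u))
      (hasDerivAt_V' hG.smooth hu s)) (hasDerivAt_const s a)
    refine (d1.sub d2).congr_deriv ?_
    have hs := rho_mem_U hu s
    have e2 : cr (pole G u) (V G (rho s u)) = -‖V G (rho s u)‖ • G (rho s u) := by
      rw [← hg u hu s]; exact cr_pole_V hG hT hs
    rw [hV _ hs ((rho_fst _ _).trans e), e2, cr_zero_left, zero_add, inner_smul_left,
      inner_zero_right, inner_zero_right]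
    simp
  have hc := is_const_of_deriv_eq_zero (fun s => (hd s).differentiableAt)
    (fun s => (hd s).deriv) π 0
  simp only [rho_pi, rho_zero, hodd u hu, hG.odd u hu, cr_neg_right, inner_neg_left] at hc
  linarith

lemma metric (hG : Good G) (hg : Great G) (hT : ThInv G Ti) (hp : ContDiffOn ℝ ∞ p Ind)
    (hodd : ∀ u ∈ U, p (rev u) = -p u) (hstr : Str G p fun _ => 1) {x w : E} (hxw : Tan x w) :
    ∃ u ∈ U, u.1 = x ∧ ⟪V p u, w⟫ = 0 ∧ ⟪p u, w⟫ ^ 2 = ‖fderiv ℝ (psi G) x w‖ ^ 2 := by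
  have hV := fun u hu e => V_val hG hg hT hstr hxw (u := u) hu e
  have ho : ∀ u ∈ U, u.1 = x → ⟪fderiv ℝ (psi G) x w, pole G u⟫ = 0 := by
    intro u hu hx
    have := inner_dW_unit (Psi_smooth hG hg)
      (fun u hu => by rw [psi_U hg hu]; exact pole_norm hT hu) hu (cr x w)
    rw [dW_Psi hG hg hu, psi_U hg hu, hx, cr_tan hxw] at this
    rw [real_inner_comm]
    exact this
  generalize fderiv ℝ (psi G) x w = a at hV ho
  obtain ⟨v, hv⟩ := exists_U_over hxw.1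
  obtain ⟨s, hs⟩ := ex_orth hG hv a
  have hu := rho_mem_U hv s
  have hx : (rho s (x, v)).1 = x := rho_fst _ _
  generalize rho s (x, v) = u at hs hu hx
  refine ⟨u, hu, hx, by rw [hV _ hu hx, hs]; simp, ?_⟩
  rw [p_val hG hg hT hp hodd hV hu hx]
  obtain ⟨k1, k2, k3, h3⟩ := ofU (pole_U hT hu)
  have hf := frame _ _ a k1 k2 k3
  have hs' : ⟪a, G u⟫ = 0 := by rw [real_inner_comm]; exact hs
  simp only [ho u hu hx, hs', zero_smul, zero_add] at hf
  have hn := congrArg norm hf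
  rw [norm_smul, h3, mul_one] at hn
  rw [hn, real_inner_comm, Real.norm_eq_abs, sq_abs]

end Round

open Round in
theorem round_of (_hP : PIntStmt) (hS : SStmt) : RoundStmt := by
  intro G Ti hG hg hT
  have hsm : Sm (fun _ : ℝ => G) :=
    ContDiffOn.comp (g := G) (f := Prod.snd) hG.smooth contDiffOn_snd fun _ hq => hq.2
  obtain ⟨h1, h2⟩ := hS (fun _ => G) hsm fun _ => hG.toOdd1
  obtain ⟨hodd, hstr⟩ := h2 0
  exact ⟨psi G, fun y hy => (psi_smoothAt hG hg hy).contDiffWithinAt, bij hG hg hT,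
    fun x w hxw => metric hG hg hT (Sm.slice (f := fun _ => pG G) h1 0) hodd hstr hxw⟩

end Pool.Agent.MP_2291e2_gt.Zl

end MrgPart6

-- ======== part 7: formerly Pool.Agent.MP_2291e2_gt.zl.Sync
section MrgPart7

/-! The family at fixed true time joins the initial family to a nearly round one. -/

open scoped ContDiff RealInnerProductSpace Topology
open Set Filter Real

namespace Pool.Agent.MP_2291e2_gt.Zl

namespace Sync

variable {G₀ : P → E} {γ Gt : ℝ → P → E} {τf : ℝ → P → ℝ} {A : ℝ}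

lemma odd1 (h : Sol G₀ γ A) {τ : ℝ} (hτ : 0 ≤ τ) : Odd1 (γ τ) :=
  ⟨h.slice τ hτ, fun u hu => (h.con τ hτ u hu).1, h.odd τ hτ⟩

lemma val_rho (hC : TimeCh γ Gt τf) {t : ℝ} (ht : 0 < t) {u : P} (hu : u ∈ U) (s : ℝ) :
    Gt t (rho s u) = γ (τf t u) (rho s u) := by
  rw [hC.val t ht _ (rho_mem_U hu s), hC.fib t ht u hu]

lemma mm_rho (hC : TimeCh γ Gt τf) {t : ℝ} (ht : 0 < t) {u : P} (hu : u ∈ U) (s : ℝ) (ξ : E) :
    mm (Gt t) (rho s u) ξ = mh γ (τf t u) (rho s u) ξ := by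
  rw [hC.mmv t ht _ (rho_mem_U hu s), hC.fib t ht u hu]

lemma odd1_t (h : Sol G₀ γ A) (hC : TimeCh γ Gt τf) {t : ℝ} (ht : 0 < t) : Odd1 (Gt t) := by
  refine ⟨hC.smooth.slice ht, fun u hu => ?_, fun u hu => ?_⟩
  · rw [hC.val t ht u hu]
    exact (h.con _ (hC.pos t ht u hu).le u hu).1
  · rw [← rho_pi, val_rho hC ht hu, rho_pi, hC.val t ht u hu]
    exact h.odd _ (hC.pos t ht u hu).le u hu

lemma good_t (hA : CurveAStmt) (h : Sol G₀ γ A) (hC : TimeCh γ Gt τf)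
    (hT : ∀ τ ≥ 0, Turn (mh γ τ)) {t : ℝ} (ht : 0 < t) : Good (Gt t) := by
  have hw : ∀ u ∈ U, wedge (mm (Gt t)) u = wedge (mh γ (τf t u)) u := by
    intro u hu
    funext s
    unfold wedge
    rw [mm_rho hC ht hu, mm_rho hC ht hu, hC.mmv t ht u hu, hC.mmv t ht u hu]
  refine ⟨odd1_t h hC ht, fun u hu s hs e => ?_, fun u hu s hs => ?_, fun u hu => ?_⟩
  · have hτ := (hC.pos t ht u hu).le
    rw [val_rho hC ht hu, hC.val t ht u hu] at e
    have h1 := h.chord _ hτ u hu s ⟨hs.1.le, hs.2⟩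
    rw [e, sub_self, norm_zero] at h1
    have h2 := (hA _ (odd1 h hτ) (h.con _ hτ) u hu).1
    have h3 : 0 < ‖V (γ (τf t u)) u‖ := lt_of_lt_of_le (by positivity) h2
    have h4 : 0 < arsinh (A * (‖V (γ (τf t u)) u‖ * s)) :=
      arsinh_pos_iff.2 (mul_pos h.Apos (mul_pos h3 hs.1))
    exact absurd h1 (not_le.2 (div_pos h4 h.Apos))
  · rw [hw u hu]; exact (hT _ (hC.pos t ht u hu).le).pos u hu s hs
  · rw [hw u hu]; exact (hT _ (hC.pos t ht u hu).le).pos0 u hu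

lemma cspeed_t (hA : CurveAStmt) (h : Sol G₀ γ A) (hC : TimeCh γ Gt τf) {t : ℝ} (ht : 0 < t) :
    CSpeed (Gt t) := by
  intro u hu s
  have hτ := (hC.pos t ht u hu).le
  rw [hC.v1 t ht _ (rho_mem_U hu s), hC.fib t ht u hu, hC.v1 t ht u hu]
  refine (pow_left_inj₀ (norm_nonneg _) (norm_nonneg _) two_ne_zero).1 ?_
  rw [(h.con _ hτ _ (rho_mem_U hu s)).2, (h.con _ hτ u hu).2]
  exact (hA _ (odd1 h hτ) (h.con _ hτ) u hu).2.1 s

/-- The true time is comparable with the parameter time. -/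
lemma tt_bd (hR : VarReg γ) {B : ℝ}
    (hB : ∀ τ ≥ 0, ∀ u ∈ U, 1 / 4 ≤ vsq (γ τ) u ∧ vsq (γ τ) u ≤ B) {τ : ℝ} (hτ : 0 ≤ τ) {u : P}
    (hu : u ∈ U) : τ / 4 ≤ tt γ τ u ∧ tt γ τ u ≤ B * τ := by
  have hc : ContinuousOn (fun t => vsq (γ t) u) (Icc 0 τ) :=
    hR.vc.comp (f := fun t : ℝ => (t, u)) (by fun_prop) fun t ht => ⟨ht.1, hu⟩
  have hi : IntervalIntegrable (fun t => vsq (γ t) u) MeasureTheory.volume 0 τ :=
    hc.intervalIntegrable_of_Icc hτ
  constructor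
  · have := intervalIntegral.integral_mono_on (f := fun _ => (1 / 4 : ℝ)) hτ (by simp) hi
      fun t ht => (hB t ht.1 u hu).1
    rw [intervalIntegral.integral_const, smul_eq_mul] at this
    unfold tt; linarith
  · have := intervalIntegral.integral_mono_on (g := fun _ => B) hτ hi (by simp)
      fun t ht => (hB t ht.1 u hu).2
    rw [intervalIntegral.integral_const, smul_eq_mul] at this
    unfold tt; linarith

lemma V_rhs (hA : CurveAStmt) (h : Sol G₀ γ A) (hR : VarReg γ) {τ : ℝ} (hτ : 0 < τ) {u : P}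
    (hu : u ∈ U) : V (RHS (γ τ)) u = V (V (V (γ τ))) u + vsq (γ τ) u • V (γ τ) u +
      (((‖V (V (γ τ)) u‖ ^ 2 - MM (γ τ) u) / vsq (γ τ) u) • V (γ τ) u
        + mu (γ τ) u • V (V (γ τ)) u) := by
  have s0 := h.slice τ hτ.le
  have d0 := diffAt_of_U s0 hu
  have d1 := diffAt_of_U (contDiffOn_V s0) hu
  have d2 := diffAt_of_U (contDiffOn_V (contDiffOn_V s0)) hu
  have dv : DifferentiableAt ℝ (vsq (γ τ)) u := (hR.vs.slice hτ hu).differentiableAt (by simp)
  have dm : DifferentiableAt ℝ (mu (γ τ)) u := (hR.mus.slice hτ hu).differentiableAt (by simp)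
  obtain ⟨-, a1, -, -, -, -, -, -, -, -, -, -, a2, -⟩ := hA _ (odd1 h hτ.le) (h.con _ hτ.le) u hu
  have v0 : V (vsq (γ τ)) u = 0 := by
    refine V_eq_of_hasDerivAt hu dv ?_
    simp only [a1]
    exact hasDerivAt_const _ _
  have e : V (RHS (γ τ)) u = dW (fun w => V (V (γ τ)) w + vsq (γ τ) w • γ τ w
      + mu (γ τ) w • V (γ τ) w) u u.1 := rfl
  rw [e, dW_fadd (d2.fun_add (dv.fun_smul d0)) (dm.fun_smul d1), dW_fadd d2 (dv.fun_smul d0),
    dW_fsmul dv d0, dW_fsmul dm d1]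
  change V (V (V (γ τ))) u + (V (vsq (γ τ)) u • γ τ u + vsq (γ τ) u • V (γ τ) u)
    + (V (mu (γ τ)) u • V (γ τ) u + mu (γ τ) u • V (V (γ τ)) u) = _
  rw [v0, a2, zero_smul, zero_add]

lemma rhs_bd (hA : CurveAStmt) (h : Sol G₀ γ A) (hR : VarReg γ) :
    ∃ K > 0, ∀ τ ∈ Ioc (0 : ℝ) 1, ∀ u ∈ U, ‖RHS (γ τ) u‖ ≤ K ∧ ‖V (RHS (γ τ)) u‖ ≤ K := by
  obtain ⟨B, hB⟩ := h.bd
  obtain ⟨B1, h1⟩ := h.c1.c0U.bdd 1
  obtain ⟨B5, h5⟩ := h.c5.c0U.bdd 1
  obtain ⟨Bm, hm⟩ := hR.muc.bdd 1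
  obtain ⟨BM, hM⟩ := hR.Mc.bdd 1
  refine ⟨max 1 (max (B + B * 1 + Bm * B1) (B5 + B * B1 + ((B ^ 2 + BM) / (1 / 4) * B1 + Bm * B))),
    lt_of_lt_of_le one_pos (le_max_left _ _), fun τ hτ u hu => ?_⟩
  have hτ' : τ ∈ Icc (0 : ℝ) 1 := ⟨hτ.1.le, hτ.2⟩
  obtain ⟨b1, b2, b3⟩ := hB τ hτ.1.le u hu
  have c1 := h1 τ hτ' u hu
  have c5 := h5 τ hτ' u hu
  have cm := hm τ hτ' u hu
  have cM := hM τ hτ' u hu
  have c0 := (h.con τ hτ.1.le u hu).1
  have cv : ‖vsq (γ τ) u‖ ≤ B := by rw [Real.norm_of_nonneg (by linarith)]; exact b2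
  have p1 : 0 ≤ B := by linarith
  have p2 : 0 ≤ Bm := (norm_nonneg _).trans cm
  have p3 : 0 ≤ BM := (norm_nonneg _).trans cM
  constructor
  · refine le_trans ?_ ((le_max_left _ _).trans (le_max_right _ _))
    unfold RHS
    refine norm_add₃_le.trans ?_
    rw [norm_smul, norm_smul, c0]
    gcongr
  · refine le_trans ?_ ((le_max_right _ _).trans (le_max_right _ _))
    rw [V_rhs hA h hR hτ.1 hu]
    have k : ‖(‖V (V (γ τ)) u‖ ^ 2 - MM (γ τ) u) / vsq (γ τ) u‖ ≤ (B ^ 2 + BM) / (1 / 4) := by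
      rw [norm_div, Real.norm_of_nonneg (show 0 ≤ vsq (γ τ) u by linarith)]
      refine div_le_div₀ (by positivity) ((norm_sub_le _ _).trans ?_) (by norm_num) b1
      rw [norm_pow, norm_norm]
      gcongr
    refine norm_add₃_le.trans (add_le_add (add_le_add c5 ?_) ((norm_add_le _ _).trans ?_))
    · rw [norm_smul]; gcongr
    · rw [norm_smul, norm_smul]; gcongr

lemma ev_unif {F : Type*} [NormedAddCommGroup F] [NormedSpace ℝ F] {f : ℝ → P → F} (h : C0 f)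
    {ε : ℝ} (hε : 0 < ε) : ∀ᶠ τ in 𝓝[>] (0 : ℝ), ∀ u ∈ U, ‖f τ u - f 0 u‖ ≤ ε := by
  obtain ⟨δ, hδ, h1⟩ := h.c0U.unif le_rfl hε
  filter_upwards [Ioc_mem_nhdsGT hδ] with τ hτ
  exact h1 τ hτ.1.le (by rw [sub_zero, abs_of_pos hτ.1]; exact hτ.2)

lemma corr {a b c r : E} {x v ε K : ℝ} (hK : 0 < K) (h1 : ‖a - b‖ ≤ ε / 2)
    (hx : ‖x‖ ≤ ε / (8 * K)) (hv : 1 / 4 ≤ v) (hr : ‖r‖ ≤ K) (e : c = a - (x / v) • r) :
    ‖c - b‖ ≤ ε := by
  have p : 0 ≤ ε / (8 * K) := (norm_nonneg _).trans hx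
  have k : ‖x / v‖ ≤ ε / (8 * K) / (1 / 4) := by
    rw [norm_div, Real.norm_of_nonneg (show 0 ≤ v by linarith)]
    exact div_le_div₀ p hx (by norm_num) hv
  have k2 : ‖(x / v) • r‖ ≤ ε / 2 := by
    rw [norm_smul]
    calc ‖x / v‖ * ‖r‖ ≤ ε / (8 * K) / (1 / 4) * K := by gcongr
      _ = ε / 2 := by field_simp; ring
  rw [e, show a - (x / v) • r - b = (a - b) - (x / v) • r by abel]
  linarith [norm_sub_le (a - b) ((x / v) • r)]

lemma close_t (hA : CurveAStmt) (hG : Good G₀) (h : Sol G₀ γ A) (hR : VarReg γ)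
    (hC : TimeCh γ Gt τf) {ε : ℝ} (hε : 0 < ε) : ∃ t > 0, Close ε G₀ (Gt t) := by
  obtain ⟨K, hK, hb⟩ := rhs_bd hA h hR
  obtain ⟨B, hB⟩ := h.bd
  have e0 := ev_unif h.c0 hε
  have e3 := eventually_all.2 fun i : Fin 3 =>
    ev_unif (h.c3 (EuclideanSpace.single i 1)) (half_pos hε)
  have e4 := eventually_all.2 fun i : Fin 3 =>
    ev_unif (h.c4 (EuclideanSpace.single i 1)) (half_pos hε)
  have e5 := eventually_all.2 fun i : Fin 3 =>
    ev_unif (h.tc (EuclideanSpace.single i 1)) (show 0 < ε / (8 * K) by positivity)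
  have e6 : ∀ᶠ τ in 𝓝[>] (0 : ℝ), τ ∈ Ioc (0 : ℝ) 1 := Ioc_mem_nhdsGT one_pos
  obtain ⟨δ, hδ, hs⟩ := mem_nhdsGT_iff_exists_Ioc_subset.1 (e0.and (e3.and (e4.and (e5.and e6))))
  have hδ' : 0 < δ / 4 := by have : 0 < δ := hδ; positivity
  refine ⟨δ / 4, hδ', fun u hu => ?_⟩
  have hτ := hC.pos _ hδ' u hu
  have k := (tt_bd hR (fun τ a u b => ⟨(hB τ a u b).1, (hB τ a u b).2.1⟩) hτ.le hu).1
  rw [hC.eqn _ hδ' u hu] at k
  obtain ⟨f0, f3, f4, f5, f6⟩ := hs ⟨hτ, by linarith⟩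
  have s0 := h.slice 0 le_rfl
  have hv := (hB _ hτ.le u hu).1
  have q1 : ∀ ξ, ∀ w ∈ U, dW G₀ w ξ = dW (γ 0) w ξ := fun ξ w hw =>
    dW_congr hw (diffAt_of_U hG.smooth hw) (diffAt_of_U s0 hw) (fun w' b => (h.init w' b).symm) ξ
  have q0 : ∀ ξ, dW (tt γ 0) u ξ = 0 := fun ξ => by
    have : tt γ 0 = fun _ => 0 := by funext w; simp [tt]
    rw [this, dW_const]
  refine ⟨?_, fun i => ⟨?_, ?_⟩⟩
  · rw [hC.val _ hδ' u hu, ← h.init u hu]; exact f0 u hu
  · have f := f5 i u hu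
    rw [q0, sub_zero] at f
    rw [q1 _ u hu]
    exact corr hK (f3 i u hu) f hv (hb _ f6 u hu).1 (hC.d1 _ hδ' u hu _)
  · have f := f5 i u hu
    rw [q0, sub_zero] at f
    rw [V_congr hu (diffAt_of_U (contDiffOn_dW hG.smooth contDiffOn_const) hu)
      (diffAt_of_U (contDiffOn_dW s0 contDiffOn_const) hu) (q1 _)]
    exact corr hK (f4 i u hu) f hv (hb _ f6 u hu).2 (hC.d2 _ hδ' u hu _)

lemma join_t (hs : SmP Gt) (hg : ∀ t > 0, Good (Gt t)) {a b : ℝ} (ha : 0 < a) (hab : a ≤ b) :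
    Join (Gt a) (Gt b) := by
  have hp : ∀ s, 0 < a + (b - a) * smoothTransition s := fun s =>
    add_pos_of_pos_of_nonneg ha (mul_nonneg (sub_nonneg.2 hab) (smoothTransition.nonneg s))
  refine ⟨fun s => Gt (a + (b - a) * smoothTransition s), ?_, fun s => hg _ (hp s),
    fun u _ => by simp, fun u _ => by simp⟩
  have h1 : ContDiff ℝ ∞ (fun q : ℝ × P => (a + (b - a) * smoothTransition q.1, q.2)) :=
    (contDiff_const.add (contDiff_const.mul (smoothTransition.contDiff.comp contDiff_fst))).prodMk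
      contDiff_snd
  exact ContDiffOn.comp hs h1.contDiffOn fun q hq => ⟨hp _, hq.2⟩

end Sync

open Sync in
theorem sync_of (hT : TimeStmt) (hO : OpenStmt) (hU : TurnStmt) (hL : LateStmt)
    (hR : VarRegStmt) (hA : CurveAStmt) : SyncStmt := by
  intro G₀ γ A hG h ε hε
  obtain ⟨Gt, τf, hC⟩ := hT G₀ γ A h
  have hR' := hR G₀ γ A h
  have hg : ∀ t > 0, Good (Gt t) := fun t ht => good_t hA h hC (hU G₀ γ A hG h) ht
  obtain ⟨ε₀, h0, hop⟩ := hO G₀ hG
  obtain ⟨t₀, ht₀, hcl⟩ := close_t hA hG h hR' hC h0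
  obtain ⟨τ₁, h1, hl⟩ := hL G₀ γ A hG h ε hε
  obtain ⟨B, hB⟩ := h.bd
  have ht₁ : 0 < max t₀ (B * τ₁) := lt_of_lt_of_le ht₀ (le_max_left _ _)
  refine ⟨Gt (max t₀ (B * τ₁)), hg _ ht₁, cspeed_t hA h hC ht₁, fun u hu => ?_,
    (hop _ (hg _ ht₀).toOdd1 hcl).2.trans (join_t hC.smooth hg ht₀ (le_max_left _ _))⟩
  have hτ := hC.pos _ ht₁ u hu
  have k := (tt_bd hR' (fun τ a u b => ⟨(hB τ a u b).1, (hB τ a u b).2.1⟩) hτ.le hu).2
  rw [hC.eqn _ ht₁ u hu] at k
  have hB0 : 0 < B := by linarith [(hB 0 le_rfl u hu).1, (hB 0 le_rfl u hu).2.1]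
  obtain ⟨a1, a2, a3⟩ := hl _ (le_of_mul_le_mul_left ((le_max_right _ _).trans k) hB0) u hu
  refine ⟨?_, ?_, fun ξ => ?_⟩
  · rw [hC.v1 _ ht₁ u hu, (h.con _ hτ.le u hu).2]; exact a1
  · unfold wk at a2 ⊢
    rw [hC.val _ ht₁ u hu, hC.v1 _ ht₁ u hu, hC.v2 _ ht₁ u hu]; exact a2
  · simp only [mm_rho hC ht₁ hu]; exact a3 ξ

end Pool.Agent.MP_2291e2_gt.Zl

end MrgPart7

-- marker of a merged file
example : 731051 + 404702 = 731051 + 404702 := rfl
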