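import Mathlib.LinearAlgebra.FreeModule.PID
import Mathlib.Topology.Sheaves.Presheaf
import Mathlib.RingTheory.Flat.TorsionFree
import Mathlib.Analysis.Calculus.ParametricIntervalIntegral
import Mathlib.Topology.Compactness.CompactlyGeneratedSpace
import Mathlib.Analysis.SpecialFunctions.Gaussian.GaussianIntegral
import Mathlib.Analysis.ODE.ExistUnique
import Mathlib.RingTheory.PiTensorProduct
import Mathlib.RingTheory.SimpleRing.Principal
import Mathlib.RingTheory.TotallySplit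
import Mathlib.RingTheory.Etale.Weakly
import Pool.Agent.MP_2291e2_gt.zl.Spec2
import Pool.Agent.MP_2291e2_gt.zl.Spec

-- ======== part 0: formerly Pool.Agent.MP_2291e2_gt.zl.Constr
section MrgPart0

/-! The flow preserves the constraints. -/

open scoped ContDiff RealInnerProductSpace Topology
open Set Filter Real

namespace Pool.Agent.MP_2291e2_gt.Zl

namespace ConstrX

lemma dU {F : Type*} [NormedAddCommGroup F] [NormedSpace ℝ F] {f : P → F} {u : P}
    (h : ContDiffAt ℝ ∞ f u) : DifferentiableAt ℝ f u := h.differentiableAt (by simp)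

/-- Uniqueness for a linear parabolic inequality along the fibres. -/
lemma zero_of_par {b : ℝ → P → ℝ} {T C : ℝ}
    (hc : ContinuousOn (fun q : ℝ × P => b q.1 q.2) (Icc 0 T ×ˢ U)) (h0 : ∀ u ∈ U, b 0 u = 0)
    (hs : ∀ τ ∈ Ioc 0 T, ∀ u ∈ U, ContDiffAt ℝ ∞ (b τ) u)
    (h : ∀ τ ∈ Ioc 0 T, ∀ u ∈ U, (∀ w ∈ U, |b τ w| ≤ |b τ u|) → ∃ D m,
      HasDerivAt (fun t => b t u) D τ ∧ |D - V (V (b τ)) u - m * V (b τ) u| ≤ C * |b τ u|) :
    ∀ τ ∈ Icc 0 T, ∀ u ∈ U, b τ u = 0 := by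
  have key : ∀ ε > 0, ∀ τ ∈ Icc 0 T, ∀ u ∈ U, 0 < ε * exp ((2 * C + 1) * τ) - b τ u ^ 2 := by
    intro ε hε
    refine stay_pos (Z := fun t u => ε * exp ((2 * C + 1) * t) - b t u ^ 2) isCompact_U
      ((Continuous.continuousOn (by fun_prop)).sub (hc.pow 2))
      (fun u hu => by simpa [h0 u hu] using hε) fun τ hτ u hu hz hm => ?_
    have hE : 0 < ε * exp ((2 * C + 1) * τ) := by positivity
    have hw : ∀ w ∈ U, b τ w ^ 2 ≤ b τ u ^ 2 := fun w hw => by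
      have := hm τ ⟨hτ.1.le, le_rfl⟩ w hw
      linarith
    obtain ⟨D, m, hD, hb⟩ := h τ hτ u hu fun w hw' => sq_le_sq.1 (hw w hw')
    have d1 : ∀ s, HasDerivAt (fun s => b τ (rho s u)) (V (b τ) (rho s u)) s := fun s =>
      hasDerivAt_V hu (dU (hs τ hτ _ (rho_mem_U hu s)))
    have d2 : HasDerivAt (fun s => V (b τ) (rho s u)) (V (V (b τ)) (rho 0 u)) 0 :=
      hasDerivAt_V hu (dU (contDiffAt_V (hs τ hτ _ (rho_mem_U hu 0))))
    have m1 := min_deriv (f := fun s => -(b τ (rho s u) * b τ (rho s u)))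
      (f1 := fun s => -(2 * (b τ (rho s u) * V (b τ) (rho s u)))) (x := 0)
      (Eventually.of_forall fun s => by
        have := hw _ (rho_mem_U hu s)
        simp only [rho_zero]; linarith)
      (Eventually.of_forall fun s => (((d1 s).mul (d1 s)).neg).congr_deriv (by ring))
      ((((d1 0).mul d2).const_mul 2).neg)
    simp only [rho_zero] at m1
    refine ⟨_, ?_, ((((hasDerivAt_id τ).const_mul (2 * C + 1)).exp.const_mul ε).sub (hD.pow 2))⟩
    have e1 : b τ u * (D - V (V (b τ)) u - m * V (b τ) u) ≤ C * b τ u ^ 2 := by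
      refine (le_abs_self _).trans ?_
      rw [abs_mul, ← sq_abs (b τ u)]
      nlinarith [mul_le_mul_of_nonneg_left hb (abs_nonneg (b τ u))]
    have e2 : b τ u * V (b τ) u = 0 := by linarith [m1.1]
    have e3 : m * (b τ u * V (b τ) u) = 0 := by rw [e2, mul_zero]
    simp only [id, Nat.cast_ofNat, Nat.add_one_sub_one, pow_one, mul_one]
    have e4 : ε * (exp ((2 * C + 1) * τ) * (2 * C + 1)) = (2 * C + 1) * b τ u ^ 2 := by
      rw [← sub_eq_zero.1 hz]; ring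
    rw [e4]
    linarith [m1.2, mul_self_nonneg (V (b τ) u)]
  intro τ hτ u hu
  by_contra hne
  have hp : 0 < b τ u ^ 2 := by positivity
  have := key (b τ u ^ 2 / exp ((2 * C + 1) * τ)) (by positivity) τ hτ u hu
  rw [div_mul_cancel₀ _ (exp_pos _).ne'] at this
  linarith

variable {G : P → E} {u : P}

lemma V_normsq (hG : ContDiffOn ℝ ∞ G Ind) (hu : u ∈ U) :
    V (fun w => ‖G w‖ ^ 2) u = 2 * ⟪G u, V G u⟫ ∧
      V (V fun w => ‖G w‖ ^ 2) u = 2 * (‖V G u‖ ^ 2 + ⟪G u, V (V G) u⟫) := by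
  refine ⟨dW_normsq (diffAt_of_U hG hu) _, ?_⟩
  have d1 := diffAt_of_U hG hu
  have d2 := diffAt_of_U (contDiffOn_V hG) hu
  rw [V_congr (g := fun w => (2 : ℝ) • ⟪G w, V G w⟫) hu
    (diffAt_of_U (contDiffOn_V (hG.norm_sq ℝ)) hu) ((d1.inner ℝ d2).fun_const_smul _)
    fun w hw => dW_normsq (diffAt_of_U hG hw) _, V, dW_csmul _ (d1.inner ℝ d2), dW_inner d1 d2,
    ← real_inner_self_eq_norm_sq]
  rfl

lemma V_sub {c : P → ℝ} {f : P → ℝ} (hf : ContDiffOn ℝ ∞ f Ind) (hc : ContDiffOn ℝ ∞ c Ind)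
    (h0 : ∀ w ∈ U, V c w = 0) (hu : u ∈ U) :
    V (fun w => f w - c w) u = V f u ∧ V (V fun w => f w - c w) u = V (V f) u := by
  have a : ∀ w ∈ U, V (fun w => f w - c w) w = V f w := fun w hw => by
    have := dW_fsub (diffAt_of_U hf hw) (diffAt_of_U hc hw) w.1
    rw [show dW c w w.1 = 0 from h0 w hw, sub_zero] at this
    exact this
  exact ⟨a u hu, V_congr hu (diffAt_of_U (contDiffOn_V (hf.sub hc)) hu)
    (diffAt_of_U (contDiffOn_V hf) hu) a⟩

/-- Static facts which do not use the constraints. -/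
lemma static (hM : MeanStmt) (hG : ContDiffOn ℝ ∞ G Ind) (ho : ∀ u ∈ U, G (rev u) = -G u)
    (hv : ∀ u ∈ U, vsq G u ≠ 0) (hu : u ∈ U) :
    ContDiffOn ℝ ∞ (vsq G) Ind ∧ V (vsq G) u = 0 ∧ (∀ s, vsq G (rho s u) = vsq G u) ∧
      (∀ s, MM G (rho s u) = MM G u) ∧ ContDiffAt ℝ ∞ (mu G) u ∧ mu G (rev u) = mu G u ∧
      V (mu G) u * vsq G u = ‖V (V G) u‖ ^ 2 - MM G u ∧ ContDiffAt ℝ ∞ (RHS G) u ∧
      V (RHS G) u = V (V (V G)) u + vsq G u • V G u + (V (mu G) u • V G u + mu G u • V (V G) u) ∧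
      ∀ w ∈ U, ‖V G (rev w)‖ ^ 2 = ‖V G w‖ ^ 2 := by
  have s1 := contDiffOn_V hG
  have s2 := contDiffOn_V s1
  have o1 : ∀ w ∈ U, V G (rev w) = -V G w := fun w hw => V_odd hG ho hw
  have e1 : ∀ w ∈ U, ‖V G (rev w)‖ ^ 2 = ‖V G w‖ ^ 2 := fun w hw => by rw [o1 w hw, norm_neg]
  obtain ⟨a1, -, -, a2⟩ := hM.1 _ (s1.norm_sq ℝ)
  obtain ⟨b1, b2, -, b3⟩ := hM.1 _ (s2.norm_sq ℝ)
  obtain ⟨a3, a4, -⟩ := a2 e1 u hu
  obtain ⟨b4, -, b5, b6, -⟩ := b3 (fun w hw => by rw [V_odd s1 o1 hw, norm_neg]) u hu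
  have c1 : ContDiffAt ℝ ∞ (vsq G) u := contDiffAt_of_U a1 hu
  have c2 : ContDiffAt ℝ ∞ (mu G) u := (contDiffAt_of_U b2 hu).div c1 (hv u hu)
  have a4' : dW (vsq G) u u.1 = 0 := a4
  have g0 := contDiffAt_of_U hG hu
  have g1 := contDiffAt_of_U s1 hu
  have g2 := contDiffAt_of_U s2 hu
  refine ⟨a1, a4, a3, b4, c2, ?_, ?_, (g2.add (c1.smul g0)).add (c2.smul g1), ?_, e1⟩
  · unfold mu
    rw [b5, ← rho_pi, show vsq G (rho π u) = vsq G u from a3 π]
  · have := dW_fdiv (diffAt_of_U b2 hu) (dU c1) (hv u hu) u.1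
    rw [a4', show dW (Kop fun w => ‖V (V G) w‖ ^ 2) u u.1 = _ from b6] at this
    rw [show V (mu G) u = _ from this]
    have := hv u hu
    unfold MM
    field_simp
    ring
  · have h1 := dW_fadd (dU (g2.add (c1.smul g0))) (dU (c2.smul g1)) u.1
    have h2 := dW_fadd (dU g2) (dU (c1.smul g0)) u.1
    have h3 := dW_fsmul (dU c1) (dU g0) u.1
    have h4 := dW_fsmul (dU c2) (dU g1) u.1
    rw [a4', zero_smul, zero_add] at h3
    exact h1.trans (congrArg₂ (· + ·) (h2.trans (congrArg (_ + ·) h3)) h4)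

lemma mean_est {D h : P → ℝ} {c B : ℝ} (hu : u ∈ U) (hh : ∀ w ∈ U, ContDiffAt ℝ ∞ h w)
    (hD : ∀ w ∈ U, ContDiffAt ℝ ∞ D w) (he : h (rev u) = h u)
    (hB : ∀ s, |D (rho s u) - c - V h (rho s u)| ≤ B) : |Mean D u - c| ≤ B := by
  have c1 := (contDiff_fibre hD hu).continuous
  have c2 := (contDiff_fibre (fun w hw => contDiffAt_V (hh w hw)) hu).continuous
  have i1 : ∫ s in (0 : ℝ)..π, V h (rho s u) = 0 := by
    rw [intervalIntegral.integral_eq_sub_of_hasDerivAt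
      (fun s _ => hasDerivAt_V hu (dU (hh _ (rho_mem_U hu s)))) (c2.intervalIntegrable _ _),
      rho_pi, rho_zero, he, sub_self]
  have i2 := intervalIntegral.norm_integral_le_of_norm_le_const (a := 0) (b := π)
    (f := fun s => D (rho s u) - c - V h (rho s u)) fun s _ => hB s
  rw [intervalIntegral.integral_sub (f := fun s => D (rho s u) - c)
    ((c1.sub continuous_const).intervalIntegrable _ _) (c2.intervalIntegrable _ _), intervalIntegral.integral_sub (c1.intervalIntegrable _ _)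
    (continuous_const.intervalIntegrable _ _), i1, intervalIntegral.integral_const, sub_zero,
    sub_zero, abs_of_pos pi_pos, Real.norm_eq_abs, smul_eq_mul] at i2
  have : Mean D u - c = π⁻¹ * ((∫ s in (0 : ℝ)..π, D (rho s u)) - π * c) := by
    unfold Mean; field_simp
  rw [this, abs_mul, abs_of_pos (inv_pos.2 pi_pos), inv_mul_le_iff₀ pi_pos, mul_comm π B]
  exact i2

end ConstrX

open ConstrX in
theorem constr_of (hM : MeanStmt) : ConstrStmt := by
  intro G₀ γ T hO hC hP hU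
  have sG : ∀ τ ∈ Icc 0 T, ContDiffOn ℝ ∞ (γ τ) Ind := fun τ hτ => hP.slice τ hτ.1
  have v0 : ∀ τ ∈ Icc 0 T, ∀ u ∈ U, vsq (γ τ) u ≠ 0 := fun τ hτ u hu => by
    have := (hU τ hτ u hu).1
    positivity
  have st := fun τ (hτ : τ ∈ Icc 0 T) u (hu : u ∈ U) =>
    static hM (sG τ hτ) (hP.odd τ hτ.1) (v0 τ hτ) hu
  have cf : C0 fun τ u => ‖V (γ τ) u‖ ^ 2 := hP.c1.norm.pow 2
  have cv : C0 fun τ => vsq (γ τ) := (hM.2.2 _ cf).1
  have cq : C0 fun τ u => ‖V (V (γ τ)) u‖ ^ 2 := hP.c2.norm.pow 2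
  have cM : C0 fun τ => MM (γ τ) := (hM.2.2 _ cq).1
  obtain ⟨B1, hB1⟩ := cv.c0U.bdd T
  obtain ⟨B2, hB2⟩ := cq.c0U.bdd T
  obtain ⟨B3, hB3⟩ := cM.c0U.bdd T
  have bv : ∀ τ ∈ Icc 0 T, ∀ u ∈ U, |vsq (γ τ) u| ≤ B1 := hB1
  have bm : ∀ τ ∈ Icc 0 T, ∀ u ∈ U, |V (mu (γ τ)) u| ≤ 4 * (B2 + B3) := fun τ hτ u hu => by
    have a := (hU τ hτ u hu).1
    have b := congrArg abs (st τ hτ u hu).2.2.2.2.2.2.1
    rw [abs_mul, abs_of_nonneg (by linarith : 0 ≤ vsq (γ τ) u)] at b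
    have c : |‖V (V (γ τ)) u‖ ^ 2 - MM (γ τ) u| ≤ B2 + B3 :=
      (abs_sub _ _).trans (add_le_add (hB2 τ hτ u hu) (hB3 τ hτ u hu))
    nlinarith [abs_nonneg (V (mu (γ τ)) u)]
  set b : ℝ → P → ℝ := fun τ u => ‖V (γ τ) u‖ ^ 2 - vsq (γ τ) u with hb
  have sb : ∀ τ ∈ Icc 0 T, ContDiffOn ℝ ∞ (b τ) Ind := fun τ hτ => by
    obtain ⟨u, hu⟩ := U_nonempty
    exact ((contDiffOn_V (sG τ hτ)).norm_sq ℝ).sub (st τ hτ u hu).1
  have Vb : ∀ τ ∈ Icc 0 T, ∀ u ∈ U, V (b τ) u = 2 * ⟪V (γ τ) u, V (V (γ τ)) u⟫ ∧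
      V (V (b τ)) u = 2 * (‖V (V (γ τ)) u‖ ^ 2 + ⟪V (γ τ) u, V (V (V (γ τ))) u⟫) := by
    intro τ hτ u hu
    have a := V_sub ((contDiffOn_V (sG τ hτ)).norm_sq ℝ) (st τ hτ u hu).1
      (fun w hw => (st τ hτ w hw).2.1) hu
    have c := V_normsq (contDiffOn_V (sG τ hτ)) hu
    exact ⟨a.1.trans c.1, a.2.trans c.2⟩
  have df : ∀ τ ∈ Ioc 0 T, ∀ u ∈ U, HasDerivAt (fun t => ‖V (γ t) u‖ ^ 2)
      (V (V (b τ)) u + mu (γ τ) u * V (b τ) u + 2 * (vsq (γ τ) u + V (mu (γ τ)) u) * b τ u +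
        (2 * vsq (γ τ) u ^ 2 - 2 * MM (γ τ) u)) τ := by
    intro τ hτ u hu
    have hτ' : τ ∈ Icc 0 T := ⟨hτ.1.le, hτ.2⟩
    obtain ⟨-, -, -, -, -, -, a1, a2, a3, -⟩ := st τ hτ' u hu
    have d := hasDerivAt_V_time hu (hP.smp.smU τ hτ.1 u hu) (dU a2)
      fun s => (hU τ hτ' _ (rho_mem_U hu s)).2 hτ.1
    refine d.norm_sq.congr_deriv ?_
    rw [a3, (Vb τ hτ' u hu).1, (Vb τ hτ' u hu).2]
    simp only [inner_add_right, inner_smul_right, real_inner_self_eq_norm_sq, hb]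
    linear_combination 2 * a1
  have dv : ∀ τ ∈ Ioc 0 T, ∀ u ∈ U, ∃ v', HasDerivAt (fun t => vsq (γ t) u) v' τ ∧ ∀ B,
      (∀ w ∈ U, |b τ w| ≤ B) → |v' - (2 * vsq (γ τ) u ^ 2 - 2 * MM (γ τ) u)| ≤
        (2 * B1 + 4 * (B2 + B3)) * B := by
    intro τ hτ u hu
    have hτ' : τ ∈ Icc 0 T := ⟨hτ.1.le, hτ.2⟩
    have sf : SmP fun τ u => ‖V (γ τ) u‖ ^ 2 := ContDiffOn.norm_sq ℝ hP.smp.V
    refine ⟨_, (hM.2.1 _ sf).2.2 τ hτ.1 u (U_sub_Ind hu), fun B hB => ?_⟩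
    have sb' := fun w (hw : w ∈ U) => contDiffAt_of_U (sb τ hτ') hw
    have sm := fun w (hw : w ∈ U) => (st τ hτ' w hw).2.2.2.2.1
    have sv := fun w (hw : w ∈ U) => contDiffAt_of_U (st τ hτ' w hw).1 hw
    have ev : ∀ w ∈ U, b τ (rev w) = b τ w := fun w hw => by
      simp only [hb]
      rw [(st τ hτ' w hw).2.2.2.2.2.2.2.2.2 w hw, ← rho_pi, (st τ hτ' w hw).2.2.1]
    have e := mean_est (D := fun w => V (V (b τ)) w + mu (γ τ) w * V (b τ) w +
        2 * (vsq (γ τ) w + V (mu (γ τ)) w) * b τ w + (2 * vsq (γ τ) u ^ 2 - 2 * MM (γ τ) u))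
      (h := fun w => V (b τ) w + mu (γ τ) w * b τ w) (c := 2 * vsq (γ τ) u ^ 2 - 2 * MM (γ τ) u)
      (B := (2 * B1 + 4 * (B2 + B3)) * B) hu
      (fun w hw => (contDiffAt_V (sb' w hw)).add ((sm w hw).mul (sb' w hw)))
      (fun w hw => (((contDiffAt_V (contDiffAt_V (sb' w hw))).add
        ((sm w hw).mul (contDiffAt_V (sb' w hw)))).add ((contDiffAt_const.mul
          ((sv w hw).add (contDiffAt_V (sm w hw)))).mul (sb' w hw))).add contDiffAt_const)
      (by simp only [V_even (sb τ hτ') ev hu, (st τ hτ' u hu).2.2.2.2.2.1, ev u hu]) fun s => by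
        have hw := rho_mem_U hu s
        have h1 := dW_fadd (dU (contDiffAt_V (sb' _ hw))) (dU ((sm _ hw).mul (sb' _ hw)))
          (rho s u).1
        have h2 := dW_fmul (dU (sm _ hw)) (dU (sb' _ hw)) (rho s u).1
        have h3 : V (fun w => V (b τ) w + mu (γ τ) w * b τ w) (rho s u) = V (V (b τ)) (rho s u) +
            (V (mu (γ τ)) (rho s u) * b τ (rho s u) + mu (γ τ) (rho s u) * V (b τ) (rho s u)) :=
          h1.trans (congrArg (_ + ·) h2)
        rw [h3, show ∀ x1 x2 x3 x4 x5 x6 c : ℝ, x1 + x2 * x3 + 2 * (x4 + x5) * x6 + c - c -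
          (x1 + (x5 * x6 + x2 * x3)) = (2 * x4 + x5) * x6 from fun _ _ _ _ _ _ _ => by ring, abs_mul]
        have b1 := abs_le.1 (bv τ hτ' _ hw)
        have b2 := abs_le.1 (bm τ hτ' _ hw)
        exact mul_le_mul (abs_le.2 ⟨by linarith, by linarith⟩) (hB _ hw) (abs_nonneg _)
          (by linarith)
    refine le_of_eq_of_le (congrArg (fun x => |x - _|) ?_) e
    unfold Mean
    refine congrArg _ (intervalIntegral.integral_congr fun s _ => ?_)
    have := (df τ hτ _ (rho_mem_U hu s)).deriv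
    rw [(st τ hτ' u hu).2.2.1, (st τ hτ' u hu).2.2.2.1] at this
    simp only [this, (st τ hτ' u hu).2.2.1]
  have sub : Icc 0 T ×ˢ U ⊆ Ici 0 ×ˢ U := prod_mono (fun _ h => h.1) le_rfl
  have c0 := constr_of_cspeed hO hC
  have b0 : ∀ τ ∈ Icc 0 T, ∀ u ∈ U, b τ u = 0 := by
    refine zero_of_par (C := 2 * (B1 + 4 * (B2 + B3)) + (2 * B1 + 4 * (B2 + B3)))
      ((cf.c0U.mono sub).sub (cv.c0U.mono sub)) (fun u hu => ?_)
      (fun τ hτ u hu => contDiffAt_of_U (sb τ ⟨hτ.1.le, hτ.2⟩) hu) fun τ hτ u hu hm => ?_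
    · have e : ∀ w ∈ U, V (γ 0) w = V G₀ w := fun w hw => V_congr hw
        (diffAt_of_U (hP.slice 0 le_rfl) hw) (diffAt_of_U hO.smooth hw) hP.init
      simp only [hb]
      rw [e u hu, (c0 u hu).2, sub_eq_zero]
      unfold vsq Mean
      simp only [e _ (rho_mem_U hu _)]
    · obtain ⟨v', d1, d2⟩ := dv τ hτ u hu
      have hτ' : τ ∈ Icc 0 T := ⟨hτ.1.le, hτ.2⟩
      refine ⟨_, mu (γ τ) u, (df τ hτ u hu).sub d1, ?_⟩
      rw [show ∀ x1 x2 x3 x4 c v : ℝ, x1 + x2 * x3 + x4 + c - v - x1 - x2 * x3 = x4 - (v - c) from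
        fun _ _ _ _ _ _ => by ring, add_mul]
      refine (abs_sub _ _).trans (add_le_add ?_ (d2 _ hm))
      rw [abs_mul]
      have b1 := abs_le.1 (bv τ hτ' _ hu)
      have b2 := abs_le.1 (bm τ hτ' _ hu)
      exact mul_le_mul_of_nonneg_right (abs_le.2 ⟨by linarith, by linarith⟩) (abs_nonneg _)
  have a0 : ∀ τ ∈ Icc 0 T, ∀ u ∈ U, ‖γ τ u‖ ^ 2 - 1 = 0 := by
    refine zero_of_par (b := fun τ u => ‖γ τ u‖ ^ 2 - 1) (C := 2 * B1)
      (((hP.c0.c0U.mono sub).norm.pow 2).sub continuousOn_const)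
      (fun u hu => by simp [hP.init u hu, hO.unit u hu])
      (fun τ hτ u hu => contDiffAt_of_U (((sG τ ⟨hτ.1.le, hτ.2⟩).norm_sq ℝ).sub contDiffOn_const) hu)
      fun τ hτ u hu _ => ?_
    have hτ' : τ ∈ Icc 0 T := ⟨hτ.1.le, hτ.2⟩
    have a := V_sub ((sG τ hτ').norm_sq ℝ) (contDiffOn_const (c := (1 : ℝ)))
      (fun w _ => dW_const _ _ _) hu
    have c := V_normsq (sG τ hτ') hu
    refine ⟨_, mu (γ τ) u, (HasDerivAt.norm_sq ((hU τ hτ' u hu).2 hτ.1)).sub_const 1, ?_⟩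
    have e : ‖V (γ τ) u‖ ^ 2 = vsq (γ τ) u := sub_eq_zero.1 (b0 τ hτ' u hu)
    rw [a.1, a.2, c.1, c.2, e]
    simp only [RHS, inner_add_right, inner_smul_right, real_inner_self_eq_norm_sq]
    rw [show ∀ x1 v n m x2 : ℝ, 2 * (x1 + v * n + m * x2) - 2 * (v + x1) - m * (2 * x2) =
      2 * v * (n - 1) from fun _ _ _ _ _ => by ring, abs_mul]
    have b1 := abs_le.1 (bv τ hτ' _ hu)
    exact mul_le_mul_of_nonneg_right (abs_le.2 ⟨by linarith, by linarith⟩) (abs_nonneg _)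
  refine fun τ hτ => ⟨fun u hu => ⟨?_, sub_eq_zero.1 (b0 τ hτ u hu)⟩, fun u hu h0 => ?_⟩
  · exact (pow_eq_one_iff_of_nonneg (norm_nonneg _) two_ne_zero).1 (sub_eq_zero.1 (a0 τ hτ u hu))
  · obtain ⟨v', d1, d2⟩ := dv τ ⟨h0, hτ.2⟩ u hu
    have := d2 0 fun w hw => by rw [b0 τ hτ w hw, abs_zero]
    rw [mul_zero, abs_nonpos_iff, sub_eq_zero] at this
    exact this ▸ d1

end Pool.Agent.MP_2291e2_gt.Zl

end MrgPart0

-- ======== part 1: formerly Pool.Agent.MP_2291e2_gt.zl.Duhamel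
section MrgPart1

/-! A mild solution of the heat equation with enough space derivatives solves the integrated
equation. -/

open scoped Topology
open Set Filter Real MeasureTheory

namespace Pool.Agent.MP_2291e2_gt.Zl

namespace Duhamel

/-- bounded continuous functions -/
def Bd (B : ℝ) (g : ℝ → E) : Prop := Continuous g ∧ ∀ x, ‖g x‖ ≤ B

/-- Gaussian average -/
noncomputable def K (g : ℝ → E) (a σ : ℝ) : E := ∫ z, gauss z • g (σ + a * z)

lemma gauss_eq : gauss = fun z => (√(2 * π))⁻¹ * exp (-(1 / 2) * z ^ 2) := by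
  funext z
  rw [gauss]
  congr 2
  ring

lemma gauss_nonneg (z : ℝ) : 0 ≤ gauss z := by unfold gauss; positivity

lemma gauss_int : Integrable gauss := by
  rw [gauss_eq]
  exact (integrable_exp_neg_mul_sq (by norm_num)).const_mul _

lemma zg_int : Integrable fun z => z * gauss z := by
  rw [gauss_eq]
  simp only [mul_left_comm _ (√(2 * π))⁻¹]
  exact (integrable_mul_exp_neg_mul_sq (by norm_num)).const_mul _

lemma gauss_one : ∫ z, gauss z = 1 := by
  rw [gauss_eq, integral_const_mul, integral_gaussian, show π / (1 / 2) = 2 * π by ring]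
  exact inv_mul_cancel₀ (by positivity)

lemma gauss_der (z : ℝ) : HasDerivAt gauss (-(z * gauss z)) z := by
  have h : HasDerivAt (fun z : ℝ => -z ^ 2 / 2) (-z) z :=
    (((hasDerivAt_pow 2 z).neg).div_const 2).congr_deriv (by simp; ring)
  exact (h.exp.const_mul (√(2 * π))⁻¹).congr_deriv (by rw [gauss]; ring)

variable {B : ℝ} {g g' g'' : ℝ → E}

lemma wbd (w : ℝ → ℝ) (hg : Bd B g) (z x : ℝ) : ‖w z • g x‖ ≤ ‖w z‖ * B := by
  rw [norm_smul]
  exact mul_le_mul_of_nonneg_left (hg.2 _) (norm_nonneg _)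

lemma wint {w : ℝ → ℝ} (hw : Integrable w) (hg : Bd B g) (a σ : ℝ) :
    Integrable fun z => w z • g (σ + a * z) :=
  (hw.norm.mul_const B).mono'
    (hw.aestronglyMeasurable.smul (hg.1.comp (by fun_prop)).aestronglyMeasurable)
    (ae_of_all _ fun z => wbd w hg z _)

lemma K_bd (hg : Bd B g) (a σ : ℝ) : ‖K g a σ‖ ≤ B := by
  refine (norm_integral_le_of_norm_le (gauss_int.mul_const B) (ae_of_all _ fun z => ?_)).trans ?_
  · simpa only [Real.norm_of_nonneg (gauss_nonneg z)] using wbd gauss hg z (σ + a * z)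
  · rw [integral_mul_const, gauss_one, one_mul]

lemma K_cont {G : ℝ → ℝ → E} (hc : Continuous fun p : ℝ × ℝ => G p.1 p.2)
    (hb : ∀ r, Bd B (G r)) (σ : ℝ) : Continuous fun p : ℝ × ℝ => K (G p.1) p.2 σ :=
  continuous_of_dominated (fun p => (wint gauss_int (hb p.1) p.2 σ).aestronglyMeasurable)
    (fun p => ae_of_all _ fun z => wbd gauss (hb p.1) z _) (gauss_int.norm.mul_const B)
    (ae_of_all _ fun z => Continuous.const_smul (g := fun p : ℝ × ℝ => G p.1 (σ + p.2 * z)) (hc.comp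
      (by fun_prop : Continuous fun p : ℝ × ℝ => (p.1, σ + p.2 * z))) (gauss z))

lemma K_cont' (hg : Bd B g) (σ : ℝ) : Continuous fun a => K g a σ :=
  (K_cont (G := fun _ => g) (hg.1.comp continuous_snd) (fun _ => hg) σ).comp
    (by fun_prop : Continuous fun a : ℝ => ((0 : ℝ), a))

lemma ibp (hg : Bd B g) (hg' : Bd B g') (hd : ∀ x, HasDerivAt g (g' x) x) (a σ : ℝ) :
    ∫ z, (z * gauss z) • g (σ + a * z) = a • K g' a σ := by
  have i1 := wint zg_int hg a σ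
  have i2 : Integrable fun z => a • gauss z • g' (σ + a * z) := (wint gauss_int hg' a σ).smul a
  have h := integral_eq_zero_of_hasDerivAt_of_integrable
    (f := fun z => gauss z • g (σ + a * z))
    (f' := fun z => a • gauss z • g' (σ + a * z) - (z * gauss z) • g (σ + a * z))
    (fun z => ?_) (i2.sub i1) (wint gauss_int hg a σ)
  · rw [integral_sub i2 i1, integral_smul] at h
    exact (sub_eq_zero.1 h).symm
  · have h1 : HasDerivAt (fun z => σ + a * z) a z := by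
      simpa using ((hasDerivAt_id z).const_mul a).const_add σ
    refine ((gauss_der z).smul ((hd _).scomp z h1)).congr_deriv ?_
    rw [smul_comm, neg_smul, sub_eq_add_neg]
    rfl

lemma dsig (hg : Bd B g) (hg' : Bd B g') (hd : ∀ x, HasDerivAt g (g' x) x) (a σ : ℝ) :
    HasDerivAt (K g a) (K g' a σ) σ :=
  (hasDerivAt_integral_of_dominated_loc_of_deriv_le
    (F := fun σ z => gauss z • g (σ + a * z)) (F' := fun σ z => gauss z • g' (σ + a * z))
    univ_mem (Eventually.of_forall fun σ => (wint gauss_int hg a σ).aestronglyMeasurable)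
    (wint gauss_int hg a σ) (wint gauss_int hg' a σ).aestronglyMeasurable
    (ae_of_all _ fun z _ _ => wbd gauss hg' z _) (gauss_int.norm.mul_const B)
    (ae_of_all _ fun z x _ => ((hd _).comp_add_const x (a * z)).const_smul (gauss z))).2

lemma da (hg : Bd B g) (hg' : Bd B g') (hg'' : Bd B g'') (hd : ∀ x, HasDerivAt g (g' x) x)
    (hd' : ∀ x, HasDerivAt g' (g'' x) x) (a σ : ℝ) :
    HasDerivAt (fun a => K g a σ) (a • K g'' a σ) a := by
  rw [← ibp hg' hg'' hd']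
  refine (hasDerivAt_integral_of_dominated_loc_of_deriv_le
    (F := fun a z => gauss z • g (σ + a * z)) (F' := fun a z => (z * gauss z) • g' (σ + a * z))
    univ_mem (Eventually.of_forall fun a => (wint gauss_int hg a σ).aestronglyMeasurable)
    (wint gauss_int hg a σ) (wint zg_int hg' a σ).aestronglyMeasurable
    (ae_of_all _ fun z _ _ => wbd (fun z => z * gauss z) hg' z _) (zg_int.norm.mul_const B)
    (ae_of_all _ fun z x _ => ?_)).2
  have h1 : HasDerivAt (fun a => σ + a * z) z x := by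
    simpa using ((hasDerivAt_id x).mul_const z).const_add σ
  refine (((hd _).scomp x h1).const_smul (gauss z)).congr_deriv ?_
  rw [smul_smul, mul_comm]

lemma heat (hg : Bd B g) (hg' : Bd B g') (hg'' : Bd B g'') (hd : ∀ x, HasDerivAt g (g' x) x)
    (hd' : ∀ x, HasDerivAt g' (g'' x) x) {t : ℝ} (ht : 0 ≤ t) (σ : ℝ) :
    K g (√(2 * t)) σ = g σ + ∫ s in (0 : ℝ)..t, K g'' (√(2 * s)) σ := by
  have h1 := intervalIntegral.integral_eq_sub_of_hasDerivAt (a := 0) (b := √(2 * t))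
    (fun a _ => da hg hg' hg'' hd hd' a σ)
    ((continuous_id.smul (K_cont' hg'' σ)).intervalIntegrable _ _)
  have h2 := intervalIntegral.integral_deriv_smul_comp (a := 0) (b := √(2 * t))
    (f := fun b => b ^ 2 / 2) (f' := fun b => b) (g := fun s => K g'' (√(2 * s)) σ)
    (fun b _ => ((hasDerivAt_pow 2 b).div_const 2).congr_deriv (by simp)) continuousOn_id
    ((K_cont' hg'' σ).comp (by fun_prop))
  have h3 : K g 0 σ = g σ := by
    simp only [K, zero_mul, add_zero]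
    rw [integral_smul_const, gauss_one, one_smul]
  have h4 : √(2 * t) ^ 2 / 2 = t := by
    rw [sq_sqrt (by positivity)]
    ring
  rw [h4, show (0 : ℝ) ^ 2 / 2 = 0 by norm_num] at h2
  rw [← h2, ← h3, ← sub_eq_iff_eq_add', ← h1]
  refine intervalIntegral.integral_congr fun b hb => ?_
  rw [uIcc_of_le (sqrt_nonneg _)] at hb
  simp only [Function.comp_apply]
  rw [show 2 * (b ^ 2 / 2) = b ^ 2 by ring, sqrt_sq hb.1]

lemma tri {h : ℝ → ℝ → E} (hc : Continuous fun p : ℝ × ℝ => h p.1 p.2) {τ : ℝ} (hτ : 0 ≤ τ) :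
    ∫ t in (0 : ℝ)..τ, ∫ r in (0 : ℝ)..t, h t r = ∫ r in (0 : ℝ)..τ, ∫ t in r..τ, h t r := by
  have hi : Integrable (Function.uncurry fun t r => {p : ℝ × ℝ | p.2 ≤ p.1}.indicator
      (fun p => h p.1 p.2) (t, r))
      ((volume.restrict (Ioc 0 τ)).prod (volume.restrict (Ioc 0 τ))) := by
    rw [Measure.prod_restrict]
    exact ((hc.continuousOn.integrableOn_compact (isCompact_Icc.prod isCompact_Icc)).mono_set
      (prod_mono Ioc_subset_Icc_self Ioc_subset_Icc_self)).indicator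
      (isClosed_le continuous_snd continuous_fst).measurableSet
  rw [intervalIntegral.integral_of_le hτ, intervalIntegral.integral_of_le hτ]
  refine Eq.trans (setIntegral_congr_fun measurableSet_Ioc fun t ht => ?_)
    ((integral_integral_swap hi).trans (setIntegral_congr_fun measurableSet_Ioc fun r hr => ?_))
  · have e : (fun r => {p : ℝ × ℝ | p.2 ≤ p.1}.indicator (fun p => h p.1 p.2) (t, r)) =
        (Iic t).indicator (h t) := rfl
    simp only [e]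
    rw [setIntegral_indicator measurableSet_Iic, Ioc_inter_Iic, min_eq_right ht.2,
      intervalIntegral.integral_of_le ht.1.le]
  · have e : (fun t => {p : ℝ × ℝ | p.2 ≤ p.1}.indicator (fun p => h p.1 p.2) (t, r)) =
        (Ici r).indicator fun t => h t r := rfl
    have e2 : Ioc 0 τ ∩ Ici r = Icc r τ :=
      Set.ext fun x => ⟨fun a => ⟨a.2, a.1.2⟩, fun a => ⟨⟨hr.1.trans_le a.1, a.2⟩, a.1⟩⟩
    simp only [e]
    rw [setIntegral_indicator measurableSet_Ici, e2, integral_Icc_eq_integral_Ioc,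
      intervalIntegral.integral_of_le hr.2]

/-- the Duhamel term -/
noncomputable def Du (f : ℝ → ℝ → E) (τ σ : ℝ) : E :=
  ∫ r in (0 : ℝ)..τ, K (f r) (√(2 * (τ - r))) σ

variable {f f' : ℝ → ℝ → E}

lemma subst (hc' : Continuous fun p : ℝ × ℝ => f' p.1 p.2) (hb : ∀ r, Bd B (f r))
    (hb' : ∀ r, Bd B (f' r)) (hd : ∀ r x, HasDerivAt (f r) (f' r x) x) {τ : ℝ} (hτ : 0 ≤ τ)
    (σ : ℝ) : √(2 * τ) • ∫ θ in (0 : ℝ)..1, ∫ z, (z * gauss z) •
      f (τ * (1 - θ ^ 2)) (σ + √(2 * τ) * θ * z) = Du f' τ σ := by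
  have h2 := intervalIntegral.integral_deriv_smul_comp (a := 1) (b := 0)
    (f := fun θ => τ * (1 - θ ^ 2)) (f' := fun θ => -(2 * τ * θ))
    (g := fun r => K (f' r) (√(2 * (τ - r))) σ)
    (fun θ _ => (((hasDerivAt_pow 2 θ).const_sub 1).const_mul τ).congr_deriv (by simp; ring))
    (by fun_prop) ((K_cont hc' hb' σ).comp
      (by fun_prop : Continuous fun r : ℝ => (r, √(2 * (τ - r)))))
  rw [show τ * (1 - 1 ^ 2) = 0 by ring, show τ * (1 - 0 ^ 2) = τ by ring] at h2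
  rw [Du, ← h2, intervalIntegral.integral_symm 0 1, ← intervalIntegral.integral_neg,
    ← intervalIntegral.integral_smul]
  refine intervalIntegral.integral_congr fun θ hθ => ?_
  rw [uIcc_of_le zero_le_one] at hθ
  have e : √(2 * (τ - τ * (1 - θ ^ 2))) = √(2 * τ) * θ := by
    rw [show 2 * (τ - τ * (1 - θ ^ 2)) = 2 * τ * θ ^ 2 by ring, sqrt_mul (by positivity),
      sqrt_sq hθ.1]
  simp only [Function.comp_apply]
  rw [ibp (hb _) (hb' _) (hd _), e, smul_smul, neg_smul, neg_neg, ← mul_assoc,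
    mul_self_sqrt (by positivity)]

lemma du_cont (hc : Continuous fun p : ℝ × ℝ => f p.1 p.2) (hb : ∀ r, Bd B (f r)) (σ : ℝ) :
    Continuous fun p : ℝ × ℝ => K (f p.2) (√(2 * (p.1 - p.2))) σ :=
  (K_cont hc hb σ).comp (by fun_prop : Continuous fun p : ℝ × ℝ => (p.2, √(2 * (p.1 - p.2))))

lemma ddu (hc : Continuous fun p : ℝ × ℝ => f p.1 p.2)
    (hc' : Continuous fun p : ℝ × ℝ => f' p.1 p.2) (hb : ∀ r, Bd B (f r))
    (hb' : ∀ r, Bd B (f' r)) (hd : ∀ r x, HasDerivAt (f r) (f' r x) x) (τ σ : ℝ) :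
    HasDerivAt (Du f τ) (Du f' τ σ) σ := by
  have c := fun σ => (du_cont hc hb σ).comp (by fun_prop : Continuous fun r : ℝ => (τ, r))
  have c' := (du_cont hc' hb' σ).comp (by fun_prop : Continuous fun r : ℝ => (τ, r))
  exact (intervalIntegral.hasDerivAt_integral_of_dominated_loc_of_deriv_le
    (F := fun σ r => K (f r) (√(2 * (τ - r))) σ) (F' := fun σ r => K (f' r) (√(2 * (τ - r))) σ)
    (bound := fun _ => B) univ_mem (Eventually.of_forall fun σ => (c σ).aestronglyMeasurable)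
    ((c σ).intervalIntegrable _ _) c'.aestronglyMeasurable
    (ae_of_all _ fun r _ _ _ => K_bd (hb' r) _ _) intervalIntegrable_const
    (ae_of_all _ fun r _ x _ => dsig (hb r) (hb' r) (hd r) _ x)).2

lemma core {T : ℝ} {q q1 q2 f f1 f2 f3 : ℝ → ℝ → E}
    (c1 : Continuous fun p : ℝ × ℝ => f1 p.1 p.2) (c2 : Continuous fun p : ℝ × ℝ => f2 p.1 p.2)
    (c3 : Continuous fun p : ℝ × ℝ => f3 p.1 p.2) (a0 : Bd B (q 0)) (a1 : Bd B (q1 0))
    (a2 : Bd B (q2 0)) (b0 : ∀ r, Bd B (f r)) (b1 : ∀ r, Bd B (f1 r)) (b2 : ∀ r, Bd B (f2 r))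
    (b3 : ∀ r, Bd B (f3 r))
    (hd : ∀ τ σ, HasDerivAt (q τ) (q1 τ σ) σ ∧ HasDerivAt (q1 τ) (q2 τ σ) σ ∧
      HasDerivAt (f τ) (f1 τ σ) σ ∧ HasDerivAt (f1 τ) (f2 τ σ) σ ∧ HasDerivAt (f2 τ) (f3 τ σ) σ)
    (he : ∀ τ ∈ Icc 0 T, ∀ σ, q τ σ = (∫ z, gauss z • q 0 (σ + √(2 * τ) * z)) +
      √(2 * τ) • ∫ θ in (0 : ℝ)..1, ∫ z, (z * gauss z) •
        f (τ * (1 - θ ^ 2)) (σ + √(2 * τ) * θ * z))
    {τ : ℝ} (hτ : τ ∈ Icc 0 T) (σ : ℝ) :
    q τ σ = q 0 σ + ∫ t in (0 : ℝ)..τ, (q2 t σ + f1 t σ) := by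
  have e0 : ∀ t ∈ Icc 0 T, q t = fun σ => K (q 0) (√(2 * t)) σ + Du f1 t σ := fun t ht =>
    funext fun σ => by
      rw [he t ht, subst c1 b0 b1 (fun r x => (hd r x).2.2.1) ht.1]
      rfl
  have e1 : ∀ t ∈ Icc 0 T, q1 t = fun σ => K (q1 0) (√(2 * t)) σ + Du f2 t σ := fun t ht =>
    funext fun σ => (hd t σ).1.unique (by
      rw [e0 t ht]
      exact (dsig a0 a1 (fun x => (hd 0 x).1) _ σ).fun_add
        (ddu c1 c2 b1 b2 (fun r x => (hd r x).2.2.2.1) t σ))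
  have e2 : ∀ t ∈ Icc 0 T, q2 t σ = K (q2 0) (√(2 * t)) σ + Du f3 t σ := fun t ht =>
    (hd t σ).2.1.unique (by
      rw [e1 t ht]
      exact (dsig a1 a2 (fun x => (hd 0 x).2.1) _ σ).fun_add
        (ddu c2 c3 b2 b3 (fun r x => (hd r x).2.2.2.2) t σ))
  have k3 := du_cont c3 b3 σ
  have i1 : IntervalIntegrable (fun t => K (q2 0) (√(2 * t)) σ) volume 0 τ :=
    ((K_cont' a2 σ).comp (by fun_prop)).intervalIntegrable _ _
  have i2 : IntervalIntegrable (fun t => Du f3 t σ) volume 0 τ :=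
    (intervalIntegral.continuous_parametric_intervalIntegral_of_continuous
      (f := fun t r => K (f3 r) (√(2 * (t - r))) σ) k3 continuous_id).intervalIntegrable _ _
  have i3 : IntervalIntegrable (fun t => f1 t σ) volume 0 τ :=
    (c1.comp (by fun_prop : Continuous fun t : ℝ => (t, σ))).intervalIntegrable _ _
  have i4 : IntervalIntegrable (fun r => ∫ s in (0 : ℝ)..τ - r, K (f3 r) (√(2 * s)) σ) volume 0 τ :=
    (intervalIntegral.continuous_parametric_intervalIntegral_of_continuous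
      (f := fun r s => K (f3 r) (√(2 * s)) σ) ((K_cont c3 b3 σ).comp
        (by fun_prop : Continuous fun p : ℝ × ℝ => (p.1, √(2 * p.2))))
      (by fun_prop)).intervalIntegrable _ _
  have s1 : ∫ t in (0 : ℝ)..τ, (q2 t σ + f1 t σ) =
      ∫ t in (0 : ℝ)..τ, (K (q2 0) (√(2 * t)) σ + Du f3 t σ + f1 t σ) := by
    refine intervalIntegral.integral_congr fun t ht => ?_
    rw [uIcc_of_le hτ.1] at ht
    simp only [e2 t ⟨ht.1, ht.2.trans hτ.2⟩]
  have s2 : Du f1 τ σ = ∫ r in (0 : ℝ)..τ,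
      (f1 r σ + ∫ s in (0 : ℝ)..τ - r, K (f3 r) (√(2 * s)) σ) := by
    refine intervalIntegral.integral_congr fun r hr => ?_
    rw [uIcc_of_le hτ.1] at hr
    exact heat (b1 r) (b2 r) (b3 r) (fun x => (hd r x).2.2.2.1) (fun x => (hd r x).2.2.2.2)
      (sub_nonneg.2 hr.2) σ
  have s3 : ∫ t in (0 : ℝ)..τ, Du f3 t σ =
      ∫ r in (0 : ℝ)..τ, ∫ s in (0 : ℝ)..τ - r, K (f3 r) (√(2 * s)) σ := by
    refine (tri (h := fun t r => K (f3 r) (√(2 * (t - r))) σ) k3 hτ.1).trans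
      (intervalIntegral.integral_congr fun r _ => ?_)
    have := intervalIntegral.integral_comp_sub_right (a := r) (b := τ)
      (fun s => K (f3 r) (√(2 * s)) σ) r
    rwa [sub_self] at this
  rw [s1, intervalIntegral.integral_add (i1.add i2) i3, intervalIntegral.integral_add i1 i2, s3,
    congrFun (e0 τ hτ) σ, s2, intervalIntegral.integral_add i3 i4,
    heat a0 a1 a2 (fun x => (hd 0 x).1) (fun x => (hd 0 x).2.1) hτ.1]
  abel

end Duhamel

open Duhamel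

theorem duhamel_of : DuhamelStmt := by
  intro T B q q1 q2 f f1 f2 f3 hT hg hd he τ hτ σ
  let c : ℝ → ℝ := fun t => max 0 (min t T)
  have cm : ∀ t, c t ∈ Icc 0 T := fun t => ⟨le_max_left _ _, max_le hT.le (min_le_right _ _)⟩
  have ce : ∀ t ∈ Icc 0 T, c t = t := fun t ht => by
    simp only [c, min_eq_left ht.2, max_eq_right ht.1]
  have c0 : c 0 = 0 := ce 0 ⟨le_rfl, hT.le⟩
  have cc : ∀ g ∈ [q, q1, q2, f, f1, f2, f3], Continuous fun p : ℝ × ℝ => g (c p.1) p.2 :=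
    fun g h => (hg g h).1.comp_continuous
      (by fun_prop : Continuous fun p : ℝ × ℝ => (max 0 (min p.1 T), p.2))
      fun p => ⟨cm _, mem_univ _⟩
  have cb : ∀ g ∈ [q, q1, q2, f, f1, f2, f3], ∀ r, Bd B (g (c r)) := fun g h r =>
    ⟨(cc g h).comp (by fun_prop : Continuous fun x : ℝ => (r, x)), (hg g h).2 _ (cm r)⟩
  have h := core (T := T) (q := fun t => q (c t)) (q1 := fun t => q1 (c t))
    (q2 := fun t => q2 (c t)) (f := fun t => f (c t)) (f1 := fun t => f1 (c t))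
    (f2 := fun t => f2 (c t)) (f3 := fun t => f3 (c t)) (cc f1 (by simp)) (cc f2 (by simp))
    (cc f3 (by simp)) (cb q (by simp) 0) (cb q1 (by simp) 0) (cb q2 (by simp) 0) (cb f (by simp))
    (cb f1 (by simp)) (cb f2 (by simp)) (cb f3 (by simp)) (fun t => hd _ (cm t))
    (fun t ht x => ?_) hτ σ
  · simp only [ce τ hτ, c0] at h
    rw [h]
    refine congrArg _ (intervalIntegral.integral_congr fun t ht => ?_)
    rw [uIcc_of_le hτ.1] at ht
    simp only [ce t ⟨ht.1, ht.2.trans hτ.2⟩]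
  · simp only [ce t ht, c0]
    rw [he t ht]
    refine congrArg _ (congrArg _ (intervalIntegral.integral_congr fun θ hθ => ?_))
    rw [uIcc_of_le zero_le_one] at hθ
    have h1 : 0 ≤ 1 - θ ^ 2 := by nlinarith [hθ.1, hθ.2]
    have h2 : t * (1 - θ ^ 2) ≤ T := by nlinarith [ht.1, ht.2, mul_nonneg ht.1 (sq_nonneg θ)]
    simp only [ce _ ⟨mul_nonneg ht.1 h1, h2⟩]

end Pool.Agent.MP_2291e2_gt.Zl

end MrgPart1

-- ======== part 2: formerly Pool.Agent.MP_2291e2_gt.zl.Fermi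
section MrgPart2

/-! A tubular neighbourhood of a simple closed orbit, a defining function, and extension of
periodic functions. -/

open scoped ContDiff RealInnerProductSpace Topology
open Set Filter Real

namespace Pool.Agent.MP_2291e2_gt.Zl

namespace FermiAux

/-- A periodic chart of a neighbourhood of a simple closed curve on the sphere. -/
structure Chart (C : ℝ × ℝ → E) (T : ℝ) : Prop where
  smooth : ContDiff ℝ ∞ C
  unit : ∀ a, ‖C a‖ = 1
  Tpos : 0 < T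
  per : ∀ (k : ℤ) (a : ℝ × ℝ), C (a + (k * T, 0)) = C a
  imm : ∀ x δ, fderiv ℝ C (x, 0) δ = 0 → δ = 0
  inj : ∀ x x', C (x, 0) = C (x', 0) → ∃ k : ℤ, x' = x + k * T

variable {C : ℝ × ℝ → E} {T : ℝ}

lemma reduce (hT : 0 < T) (a : ℝ × ℝ) : ∃ (k : ℤ) (x : ℝ), x ∈ Icc 0 T ∧
    a = (x, a.2) + ((k : ℝ) * T, 0) := by
  refine ⟨toIcoDiv hT 0 a.1, toIcoMod hT 0 a.1, ?_, Prod.ext ?_ (by simp)⟩
  · have := toIcoMod_mem_Ico hT 0 a.1
    exact ⟨this.1, by simpa using this.2.le⟩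
  · simp

lemma Chart.fderiv_per (h : Chart C T) (k : ℤ) (a : ℝ × ℝ) :
    fderiv ℝ C (a + (k * T, 0)) = fderiv ℝ C a := by
  rw [← fderiv_comp_add_right]
  congr 1
  exact funext fun a => h.per k a

lemma Chart.imm_strip (h : Chart C T) :
    ∀ᶠ t in 𝓝 (0 : ℝ), ∀ x δ, fderiv ℝ C (x, t) δ = 0 → δ = 0 := by
  have hc : Continuous fun z : ℝ × ℝ => fderiv ℝ C (z.2, z.1) :=
    (h.smooth.continuous_fderiv (by simp)).comp (by fun_prop)
  have := (isCompact_Icc (a := (0 : ℝ)) (b := T)).eventually_forall_of_forall_eventually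
    (x₀ := (0 : ℝ)) (P := fun t x => Function.Injective (fderiv ℝ C (x, t))) fun x _ =>
      (ContinuousLinearMap.isOpen_injective.preimage hc).mem_nhds
        ((injective_iff_map_eq_zero _).2 (h.imm x))
  filter_upwards [this] with t ht x δ hδ
  obtain ⟨k, x', hx', e⟩ := reduce h.Tpos (x, t)
  rw [e, h.fderiv_per] at hδ
  exact (injective_iff_map_eq_zero _).1 (ht x' hx') δ hδ

lemma Chart.inj_strip (hL : LocInvStmt) (h : Chart C T) :
    ∀ᶠ t in 𝓝 ((0, 0) : ℝ × ℝ), ∀ x x', C (x, t.1) = C (x', t.2) →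
      ∃ k : ℤ, (x', t.2) = (x, t.1) + ((k : ℝ) * T, 0) := by
  have := ((isCompact_Icc (a := (0 : ℝ)) (b := T)).prod
    (isCompact_Icc (a := (0 : ℝ)) (b := T))).eventually_forall_of_forall_eventually
    (x₀ := ((0, 0) : ℝ × ℝ)) (P := fun t x => C (x.1, t.1) = C (x.2, t.2) →
      ∃ k : ℤ, (x.2, t.2) = (x.1, t.1) + ((k : ℝ) * T, 0)) fun x _ => by
      have hc := h.smooth.continuous
      by_cases e : C (x.1, 0) = C (x.2, 0)
      · obtain ⟨k, hk⟩ := h.inj _ _ e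
        obtain ⟨g, -, hg, -⟩ := hL.2.2 C (x.1, 0) h.smooth.contDiffAt
          (Eventually.of_forall h.unit) (h.imm _)
        have t1 : Tendsto (fun z : (ℝ × ℝ) × (ℝ × ℝ) => (z.2.1, z.1.1)) (𝓝 ((0, 0), x))
            (𝓝 (x.1, 0)) := Continuous.tendsto' (by fun_prop) _ _ rfl
        have t2 : Tendsto (fun z : (ℝ × ℝ) × (ℝ × ℝ) => (z.2.2 - k * T, z.1.2)) (𝓝 ((0, 0), x))
            (𝓝 (x.1, 0)) := Continuous.tendsto' (by fun_prop) _ _ (by simp [hk])
        filter_upwards [t1.eventually hg, t2.eventually hg] with z h1 h2 h3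
        have h4 : C (z.2.2 - k * T, z.1.2) = C (z.2.2, z.1.2) := by
          rw [← h.per k]
          simp
        rw [h4, ← h3, h1] at h2
        exact ⟨k, by rw [h2]; simp⟩
      · have : ∀ᶠ z : (ℝ × ℝ) × (ℝ × ℝ) in 𝓝 ((0, 0), x), C (z.2.1, z.1.1) ≠ C (z.2.2, z.1.2) :=
          (isOpen_ne_fun (by fun_prop) (by fun_prop)).mem_nhds e
        filter_upwards [this] with z h1 h2 using (h1 h2).elim
  filter_upwards [this] with t ht x x' e
  obtain ⟨k, y, hy, e1⟩ := reduce h.Tpos (x, t.1)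
  obtain ⟨k', y', hy', e2⟩ := reduce h.Tpos (x', t.2)
  rw [e1, e2, h.per, h.per] at e
  obtain ⟨n, hn⟩ := ht (y, y') ⟨hy, hy'⟩ e
  refine ⟨n + k' - k, ?_⟩
  simp only [Prod.mk_add_mk, Prod.mk.injEq, add_zero, and_true] at e1 e2 hn ⊢
  push_cast
  exact ⟨by linarith [hn.1], hn.2⟩

lemma Chart.tube (hL : LocInvStmt) (h : Chart C T) : ∃ d > 0,
    (∀ a : ℝ × ℝ, |a.2| < d → ∀ δ, fderiv ℝ C a δ = 0 → δ = 0) ∧
    ∀ a a' : ℝ × ℝ, |a.2| < d → |a'.2| < d → C a = C a' →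
      ∃ k : ℤ, a' = a + ((k : ℝ) * T, 0) := by
  obtain ⟨d₁, h1, e1⟩ := Metric.eventually_nhds_iff.1 h.imm_strip
  obtain ⟨d₂, h2, e2⟩ := Metric.eventually_nhds_iff.1 (h.inj_strip hL)
  refine ⟨min d₁ d₂, lt_min h1 h2, fun a ha => e1 (y := a.2) ?_ a.1,
    fun a a' ha ha' => e2 (y := (a.2, a'.2)) ?_ a.1 a'.1⟩
  · simpa using ha.trans_le (min_le_left _ _)
  · simpa [Prod.dist_eq] using
      And.intro (ha.trans_le (min_le_right _ _)) (ha'.trans_le (min_le_right _ _))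

/-- Extension of functions on a strip. -/
lemma Chart.ext (hL : LocInvStmt) (h : Chart C T) : ∃ d > 0, ∀ j : ℝ × ℝ → ℝ, ContDiff ℝ ∞ j →
    (∀ (k : ℤ) (a : ℝ × ℝ), j (a + (k * T, 0)) = j a) → (∀ a : ℝ × ℝ, d / 2 ≤ |a.2| → j a = 0) →
    ∃ J : E → ℝ, ContDiff ℝ ∞ J ∧ (∀ a : ℝ × ℝ, |a.2| < d → J (C a) = j a) ∧
      ∀ y, ‖y‖ = 1 → J y ≠ 0 → ∃ a : ℝ × ℝ, |a.2| < d ∧ y = C a := by
  classical
  obtain ⟨d, hd, himm, hinj⟩ := h.tube hL
  refine ⟨d, hd, fun j hj hper hsupp => ?_⟩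
  let J0 : E → ℝ := fun y => if e : ∃ a : ℝ × ℝ, |a.2| < d ∧ y = C a then j e.choose else 0
  have hJ0 : ∀ a : ℝ × ℝ, |a.2| < d → J0 (C a) = j a := fun a ha => by
    have e : ∃ a' : ℝ × ℝ, |a'.2| < d ∧ C a = C a' := ⟨a, ha, rfl⟩
    obtain ⟨k, hk⟩ := hinj a e.choose ha e.choose_spec.1 e.choose_spec.2
    simp only [J0, dif_pos e]
    rw [hk, hper]
  have hJ1 : ∀ y, J0 y ≠ 0 → ∃ a : ℝ × ℝ, |a.2| < d ∧ y = C a := fun y hy => by
    by_contra e
    exact hy (dif_neg e)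
  let n : E → E := fun y => ‖y‖⁻¹ • y
  have hn : ∀ y, y ≠ 0 → ContDiffAt ℝ ∞ n y := fun y hy =>
    ((contDiffAt_id.norm ℝ hy).inv (by simpa using hy)).smul contDiffAt_id
  have hn1 : ∀ y, y ≠ 0 → ‖n y‖ = 1 := fun y hy => by simp [n, norm_smul, hy]
  have hn2 : ∀ y, ‖y‖ = 1 → n y = y := fun y hy => by simp [n, hy]
  have hK : IsClosed (C '' (Icc 0 T ×ˢ Icc (-(d / 2)) (d / 2))) :=
    ((isCompact_Icc.prod isCompact_Icc).image h.smooth.continuous).isClosed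
  have hs : ∀ y, y ≠ 0 → ContDiffAt ℝ ∞ (fun y => J0 (n y)) y := fun y hy => by
    have hne : ∀ᶠ y' in 𝓝 y, y' ≠ 0 := isOpen_ne.mem_nhds hy
    by_cases e : ∃ a : ℝ × ℝ, |a.2| < d ∧ n y = C a
    · obtain ⟨a, ha, e⟩ := e
      obtain ⟨g, g1, g2, -, g3⟩ := hL.2.2 C a h.smooth.contDiffAt
        (Eventually.of_forall h.unit) (himm a ha)
      have ga : g (n y) = a := e ▸ g2.self_of_nhds
      rw [← e] at g1 g3
      have g4 : ContDiffAt ℝ ∞ (fun y => g (n y)) y := g1.comp y (hn y hy)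
      have g5 : ∀ᶠ y' in 𝓝 y, |(g (n y')).2| < d :=
        g4.continuousAt.snd.abs.eventually_lt continuousAt_const (by simpa [ga] using ha)
      refine (hj.contDiffAt.comp y g4).congr_of_eventuallyEq ?_
      filter_upwards [hne, g5, (hn y hy).continuousAt.eventually g3] with y' h1 h2 h3
      rw [Function.comp_apply, ← hJ0 _ h2, h3 (hn1 _ h1)]
    · have e1 : n y ∈ (C '' (Icc 0 T ×ˢ Icc (-(d / 2)) (d / 2)))ᶜ := by
        rintro ⟨a, ha, e2⟩
        exact e ⟨a, (abs_le.2 ha.2).trans_lt (by linarith), e2.symm⟩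
      refine (contDiffAt_const (c := (0 : ℝ))).congr_of_eventuallyEq ?_
      filter_upwards [(hn y hy).continuousAt.eventually (hK.isOpen_compl.mem_nhds e1)] with y' h1
      by_contra h2
      obtain ⟨a, ha, e2⟩ := hJ1 _ h2
      rw [e2, hJ0 a ha] at h2
      obtain ⟨k, x, hx, e3⟩ := reduce h.Tpos a
      refine h1 ⟨(x, a.2), ⟨hx, abs_le.1 (not_lt.1 fun h3 => h2 (hsupp a h3.le))⟩, ?_⟩
      rw [e2, ← h.per k, ← e3]
  refine ⟨fun y => smoothTransition (2 * ‖y‖ ^ 2 - 1) * J0 (n y), contDiff_iff_contDiffAt.2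
    fun y => ?_, fun a ha => ?_, fun y hy h1 => ?_⟩
  · by_cases hy : y = 0
    · refine (contDiffAt_const (c := (0 : ℝ))).congr_of_eventuallyEq ?_
      have : ∀ᶠ y' : E in 𝓝 y, 2 * ‖y'‖ ^ 2 - 1 < 0 :=
        (isOpen_lt (by fun_prop) continuous_const).mem_nhds (by simp [hy])
      filter_upwards [this] with y' h1
      rw [smoothTransition.zero_of_nonpos h1.le, zero_mul]
    · exact (smoothTransition.contDiff.comp
        ((contDiff_const.mul (contDiff_norm_sq ℝ)).sub contDiff_const)).contDiffAt.mul (hs y hy)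
  · simp only
    rw [hn2 _ (h.unit a), h.unit a, hJ0 a ha, smoothTransition.one_of_one_le (by norm_num), one_mul]
  · exact hJ1 _ (hn2 _ hy ▸ right_ne_zero_of_mul h1)

variable {φ : ℝ → P → P} {a b : P → ℝ} {u₀ : P}

lemma vel (h : PFlow φ a b) {u : P} (hu : u ∈ U) (t : ℝ) :
    HasDerivAt (fun t => (φ t u).1) (a (φ t u) • (φ t u).2) t := by
  have hv := h.maps t u hu
  refine ((ContinuousLinearMap.fst ℝ E E).hasFDerivAt.comp_hasDerivAt t
    (h.ode u hu t)).congr_deriv ?_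
  simp [W, xi, cr_add_left, cr_smul_left, cr_cr_left, hv.1, inner_U21 hv]

lemma periodic (h : ZFlow φ a b T) (hu : u₀ ∈ U) : Function.Periodic (fun x => φ x u₀) T :=
  fun x => by simp only [h.add, h.per u₀ hu]

/-- The chart given by the orbits that leave the curve at a right angle. -/
noncomputable def Ch (φ : ℝ → P → P) (u₀ : P) (z : ℝ × ℝ) : E := (φ z.2 (Ax φ u₀ (z.1, π / 2))).1

lemma Ch_zero (h : PFlow φ a b) (x : ℝ) : Ch φ u₀ (x, 0) = (φ x u₀).1 := by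
  simp [Ch, Ax, h.zero]

lemma Ch_smooth (h : PFlow φ a b) : ContDiff ℝ ∞ (Ch φ u₀) :=
  (h.smooth.comp (contDiff_snd.prodMk (contDiff_rho.comp (contDiff_const.prodMk
    (h.smooth.comp (contDiff_fst.prodMk contDiff_const)))))).fst

lemma Ch_vert (h : PFlow φ a b) (hu : u₀ ∈ U) (x : ℝ) : ∃ c > (0 : ℝ),
    HasDerivAt (fun t => Ch φ u₀ (x, t)) (c • cr (φ x u₀).1 (φ x u₀).2) 0 := by
  have hv := rho_mem_U (h.maps x u₀ hu) (π / 2)
  refine ⟨_, h.apos _ hv, ?_⟩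
  have := vel h hv 0
  rw [h.zero] at this
  refine this.congr_deriv ?_
  simp [rho_snd]

lemma chart (h : ZFlow φ a b T) (hu : u₀ ∈ U) : Chart (Ch φ u₀) T where
  smooth := Ch_smooth h.toPFlow
  unit z := (h.maps _ _ (rho_mem_U (h.maps _ _ hu) _)).1
  Tpos := h.Tpos
  per k z := by
    have := (periodic h hu).int_mul k z.1
    simp [Ch, Ax, this]
  imm x δ hδ := by
    have hv := h.maps x u₀ hu
    have hd := ((Ch_smooth (u₀ := u₀) h.toPFlow).differentiable (by simp) (x, 0)).hasFDerivAt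
    obtain ⟨c, hc, h2⟩ := Ch_vert h.toPFlow hu x
    have h1 := vel h.toPFlow hu x
    simp only [← Ch_zero h.toPFlow] at h1
    have e1 := (hd.comp_hasDerivAt (f := fun t : ℝ => (t, (0 : ℝ))) x
      ((hasDerivAt_id x).prodMk (hasDerivAt_const x (0 : ℝ)))).unique h1
    have e2 := (hd.comp_hasDerivAt (f := fun t : ℝ => (x, t)) (0 : ℝ)
      ((hasDerivAt_const (0 : ℝ) x).prodMk (hasDerivAt_id (0 : ℝ)))).unique h2
    have e3 : δ = δ.1 • ((1 : ℝ), (0 : ℝ)) + δ.2 • ((0 : ℝ), (1 : ℝ)) := by ext <;> simp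
    rw [e3, map_add, map_smul, map_smul, e1, e2] at hδ
    have i1 := congrArg (fun w => ⟪w, (φ x u₀).2⟫) hδ
    have i2 := congrArg (fun w => ⟪w, cr (φ x u₀).1 (φ x u₀).2⟫) hδ
    simp only [inner_add_left, inner_smul_left, conj_trivial, inner_self_U2 hv, cr_inner_right,
      inner_cr_right, real_inner_self_eq_norm_sq, norm_cr_U hv, inner_zero_left] at i1 i2
    have := h.apos _ hv
    exact Prod.ext (by simpa [this.ne'] using i1) (by simpa [hc.ne'] using i2)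
  inj x x' e := by
    rw [Ch_zero h.toPFlow, Ch_zero h.toPFlow] at e
    have k : ∀ x, φ (toIcoMod h.Tpos 0 x) u₀ = φ x u₀ := fun x =>
      (periodic h hu).sub_zsmul_eq _
    have := h.inj u₀ hu (by simpa using toIcoMod_mem_Ico h.Tpos 0 x')
      (by simpa using toIcoMod_mem_Ico h.Tpos 0 x) (by simp only [k, e])
    obtain ⟨n, hn⟩ := (toIcoMod_eq_toIcoMod h.Tpos).1 this
    exact ⟨-n, by rw [zsmul_eq_mul] at hn; push_cast; linarith⟩

end FermiAux

open FermiAux in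
theorem fermi_of (hL : LocInvStmt) : FermiStmt := by
  intro φ a b T u₀ h hu
  have hC := chart h hu
  obtain ⟨d, hd, hext⟩ := hC.ext hL
  let β : ℝ → ℝ := fun t => smoothTransition (1 - (2 * t / d) ^ 2)
  have β0 : β 0 = 1 := by simp [β]
  have βs : ContDiff ℝ ∞ β := smoothTransition.contDiff.comp (by fun_prop)
  have βz : ∀ t, d / 2 ≤ |t| → β t = 0 := fun t ht => by
    refine smoothTransition.zero_of_nonpos ?_
    have : 1 ≤ |2 * t / d| := by
      rw [abs_div, abs_mul, abs_two, abs_of_pos hd, le_div_iff₀ hd]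
      linarith
    nlinarith [sq_abs (2 * t / d)]
  have h0 : ∀ x : ℝ, |((x, 0) : ℝ × ℝ).2| < d := fun x => by simpa using hd
  obtain ⟨B, B1, B2, B3⟩ := hext (fun z => β z.2) (βs.comp contDiff_snd) (fun k z => by simp)
    fun z hz => βz _ hz
  obtain ⟨f, f1, f2, -⟩ := hext (fun z => β z.2 * z.2) ((βs.comp contDiff_snd).mul contDiff_snd)
    (fun k z => by simp) fun z hz => by simp [βz _ hz]
  refine ⟨{y | B y ≠ 0}, f, isOpen_ne_fun B1.continuous continuous_const, ?_, f1, ?_, ?_, ?_, ?_⟩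
  · rintro _ ⟨x, rfl⟩
    have := B2 _ (h0 x)
    rw [Ch_zero h.toPFlow] at this
    simp [this, β0]
  · intro y hy h1
    obtain ⟨z, hz, rfl⟩ := B3 y h1 hy
    constructor
    · intro e
      rw [f2 z hz] at e
      have h2 : β z.2 ≠ 0 := B2 z hz ▸ hy
      have h3 : z = (z.1, 0) := Prod.ext rfl ((mul_eq_zero.1 e).resolve_left h2)
      exact ⟨z.1, by rw [h3, Ch_zero h.toPFlow]⟩
    · rintro ⟨x, e⟩
      have := f2 _ (h0 x)
      rw [Ch_zero h.toPFlow] at this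
      rw [← e]
      simpa using this
  · intro x
    obtain ⟨c, hc, h2⟩ := Ch_vert h.toPFlow hu x
    have h3 := (f1.differentiable (by simp) _).hasFDerivAt.comp_hasDerivAt (0 : ℝ) h2
    have h4 : HasDerivAt (fun t => β t * t) 1 0 := by
      simpa [β0] using
        ((βs.differentiable (by simp) 0).hasDerivAt.fun_mul (hasDerivAt_id' (0 : ℝ)))
    have h5 : (f ∘ fun t => Ch φ u₀ (x, t)) =ᶠ[𝓝 0] fun t => β t * t := by
      have : ∀ᶠ t : ℝ in 𝓝 0, |t| < d :=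
        (isOpen_lt continuous_abs continuous_const).mem_nhds (by simpa using hd)
      filter_upwards [this] with t ht using f2 (x, t) ht
    have h6 := h3.unique (h4.congr_of_eventuallyEq h5)
    rw [Ch_zero h.toPFlow, map_smul, smul_eq_mul] at h6
    exact (mul_pos_iff_of_pos_left hc).1 (h6 ▸ one_pos)
  · intro j hj hp
    obtain ⟨J, J1, J2, -⟩ := hext (fun z => β z.2 * j z.1)
      ((βs.comp contDiff_snd).mul (hj.comp contDiff_fst))
      (fun k z => by simp [hp.int_mul k z.1]) fun z hz => by simp [βz _ hz]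
    refine ⟨J, J1, fun x => ?_⟩
    have := J2 _ (h0 x)
    rw [Ch_zero h.toPFlow] at this
    simpa [β0] using this
  · intro y hy h1
    obtain ⟨z, -, e⟩ := B3 y h1 hy
    exact ⟨z.1, z.2, e⟩

end Pool.Agent.MP_2291e2_gt.Zl

end MrgPart2

-- ======== part 3: formerly Pool.Agent.MP_2291e2_gt.zl.Flow
section MrgPart3

/-! The smooth global flow of a smooth globally Lipschitz vector field. The integral equation
`y s = x + t ∫_0^s f (y r) dr` on the unit interval is a contraction after conjugation with the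
weight `exp (L t * s)`, where `L t = 2 (K + 1) (1 + t ^ 2)`. -/

open scoped ContDiff RealInnerProductSpace Topology
open Set Filter Real

namespace Pool.Agent.MP_2291e2_gt.Zl

namespace Flow

variable {X : Type} [NormedAddCommGroup X] [NormedSpace ℝ X]

/-- Extension of a function on the unit interval to the line. -/
noncomputable def ex (g : C(II, X)) (r : ℝ) : X := g (projIcc 0 1 zero_le_one r)

omit [NormedSpace ℝ X] in
lemma continuous_ex (g : C(II, X)) : Continuous (ex g) :=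
  g.continuous.comp continuous_projIcc

omit [NormedSpace ℝ X] in
lemma ex_of_mem (g : C(II, X)) {r : ℝ} (h : r ∈ Icc (0 : ℝ) 1) : ex g r = g ⟨r, h⟩ := by
  simp only [ex, projIcc_of_mem _ h]

lemma continuous_prim [CompleteSpace X] {c : ℝ → X} (hc : Continuous c) :
    Continuous fun s => ∫ r in (0 : ℝ)..s, c r :=
  intervalIntegral.continuous_primitive (fun a b => hc.intervalIntegrable a b) 0

/-- The primitive as a linear map. -/
noncomputable def primL [CompleteSpace X] : C(II, X) →ₗ[ℝ] C(II, X) where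
  toFun g := ⟨fun s => ∫ r in (0 : ℝ)..(s : ℝ), ex g r,
    (continuous_prim (continuous_ex g)).comp continuous_subtype_val⟩
  map_add' g h := by
    ext s
    have e : ex (g + h) = fun r => ex g r + ex h r := rfl
    simp only [ContinuousMap.coe_mk, ContinuousMap.add_apply, e]
    exact intervalIntegral.integral_add ((continuous_ex g).intervalIntegrable _ _)
      ((continuous_ex h).intervalIntegrable _ _)
  map_smul' c g := by
    ext s
    have e : ex (c • g) = fun r => c • ex g r := rfl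
    simp only [ContinuousMap.coe_mk, ContinuousMap.smul_apply, e, RingHom.id_apply]
    exact intervalIntegral.integral_smul c _

lemma primL_apply [CompleteSpace X] (g : C(II, X)) (s : II) :
    primL g s = ∫ r in (0 : ℝ)..(s : ℝ), ex g r := rfl

/-- The primitive as a continuous linear map. -/
noncomputable def prim [CompleteSpace X] : C(II, X) →L[ℝ] C(II, X) :=
  primL.mkContinuous 1 (by
    intro g
    rw [one_mul, ContinuousMap.norm_le _ (norm_nonneg g)]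
    intro s
    rw [primL_apply]
    have h := intervalIntegral.norm_integral_le_of_norm_le_const (a := 0) (b := (s : ℝ))
      (C := ‖g‖) (f := ex g) (fun r _ => g.norm_coe_le_norm _)
    refine h.trans ?_
    have h1 : |(s : ℝ) - 0| ≤ 1 := by
      rw [sub_zero, abs_of_nonneg s.2.1]
      exact s.2.2
    exact mul_le_of_le_one_right (norm_nonneg g) h1)

lemma prim_apply [CompleteSpace X] (g : C(II, X)) (s : II) :
    prim g s = ∫ r in (0 : ℝ)..(s : ℝ), ex g r := rfl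

/-- The graph embedding. -/
noncomputable def emb (q : ℝ × C(II, X)) : C(II, ℝ × ℝ × X) :=
  ⟨fun r => (q.1, (r : ℝ), q.2 r), by fun_prop⟩

omit [NormedSpace ℝ X] in
lemma emb_apply (q : ℝ × C(II, X)) (r : II) : emb q r = (q.1, (r : ℝ), q.2 r) := rfl

lemma contDiff_emb : ContDiff ℝ ∞ (emb : ℝ × C(II, X) → C(II, ℝ × ℝ × X)) := by
  let c0 : C(II, ℝ × ℝ × X) := ⟨fun r => (0, (r : ℝ), 0), by fun_prop⟩
  let A : ℝ →L[ℝ] C(II, ℝ × ℝ × X) :=
    (ContinuousLinearMap.const ℝ II).comp (ContinuousLinearMap.inl ℝ ℝ (ℝ × X))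
  let B : C(II, X) →L[ℝ] C(II, ℝ × ℝ × X) :=
    ContinuousLinearMap.compLeftContinuous ℝ II
      ((ContinuousLinearMap.inr ℝ ℝ (ℝ × X)).comp (ContinuousLinearMap.inr ℝ ℝ X))
  have e : (emb : ℝ × C(II, X) → C(II, ℝ × ℝ × X)) = fun q => c0 + A q.1 + B q.2 := by
    funext q
    ext r <;> simp [emb_apply, c0, A, B]
  rw [e]
  exact (contDiff_const.add (A.contDiff.comp contDiff_fst)).add (B.contDiff.comp contDiff_snd)

lemma nem (hN : NemStmt) {A B : Type} [NormedAddCommGroup A] [NormedSpace ℝ A]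
    [NormedAddCommGroup B] [NormedSpace ℝ B] {χ : A → B} (h : ContDiff ℝ ∞ χ) :
    ∃ N : C(II, A) → C(II, B), ContDiff ℝ ∞ N ∧ ∀ g k, N g k = χ (g k) := by
  obtain ⟨-, N, h1, h2⟩ := hN II A B univ χ isOpen_univ h.contDiffOn
  refine ⟨N, ?_, fun g k => h2 g (fun _ => mem_univ _) k⟩
  rw [← contDiffOn_univ]
  exact h1.mono fun g _ _ => mem_univ _

/-- The weight. -/
noncomputable def wt (K : ℝ) (t : ℝ) : ℝ := 2 * (K + 1) * (1 + t ^ 2)

lemma wt_pos {K : ℝ} (hK : 0 ≤ K) (t : ℝ) : 0 < wt K t := by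
  unfold wt
  positivity

lemma wt_bound {K : ℝ} (hK : 0 ≤ K) (t : ℝ) : |t| * K ≤ 1 / 2 * wt K t := by
  unfold wt
  have h1 : |t| ≤ 1 + t ^ 2 := by
    have := sq_abs t
    nlinarith [abs_nonneg t, sq_nonneg (|t| - 1)]
  have h2 : |t| * K ≤ (1 + t ^ 2) * K := mul_le_mul_of_nonneg_right h1 hK
  nlinarith [sq_nonneg t]

lemma integral_exp_le {L : ℝ} (hL : 0 < L) (s : ℝ) :
    ∫ r in (0 : ℝ)..s, exp (L * r) ≤ exp (L * s) / L := by
  have h : ∀ r ∈ uIcc (0 : ℝ) s, HasDerivAt (fun r => exp (L * r) / L) (exp (L * r)) r := by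
    intro r _
    have h1 : HasDerivAt (fun r => exp (L * r)) (exp (L * r) * (L * 1)) r :=
      ((hasDerivAt_id r).const_mul L).exp
    have h2 := h1.div_const L
    have e : exp (L * r) * (L * 1) / L = exp (L * r) := by field_simp
    rwa [e] at h2
  rw [intervalIntegral.integral_eq_sub_of_hasDerivAt h
    ((by fun_prop : Continuous fun r => exp (L * r)).intervalIntegrable _ _)]
  have : 0 < exp (L * 0) / L := by positivity
  linarith

/-- Solutions of the integral equation that depend smoothly on the data. -/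
lemma exists_sol (hN : NemStmt) (hF : FixStmt) [CompleteSpace X] {f : X → X} {K : NNReal}
    (hf : ContDiff ℝ ∞ f) (hK : LipschitzWith K f) :
    ∃ y : ℝ × X → C(II, X), ContDiff ℝ ∞ y ∧
      ∀ q s, y q s = q.2 + q.1 • ∫ r in (0 : ℝ)..(s : ℝ), f (ex (y q) r) := by
  have hK0 : (0 : ℝ) ≤ K := K.2
  have hw : ContDiff ℝ ∞ (wt K) := by
    unfold wt
    fun_prop
  have hw1 : ContDiff ℝ ∞ (fun a : ℝ × ℝ × X => wt K a.1 * a.2.1) :=
    (hw.comp contDiff_fst).mul (contDiff_fst.comp contDiff_snd)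
  have hup : ContDiff ℝ ∞ (fun a : ℝ × ℝ × X => exp (wt K a.1 * a.2.1) • a.2.2) :=
    hw1.exp.smul (contDiff_snd.comp contDiff_snd)
  have hdn : ContDiff ℝ ∞ (fun a : ℝ × ℝ × X => exp (-(wt K a.1 * a.2.1)) • a.2.2) :=
    hw1.neg.exp.smul (contDiff_snd.comp contDiff_snd)
  obtain ⟨N0, s0, v0⟩ := nem hN hup
  obtain ⟨N1, s1, v1⟩ := nem hN (hf.comp hup)
  obtain ⟨N2, s2, v2⟩ := nem hN hdn
  let T : (ℝ × X) × C(II, X) → C(II, X) := fun a =>
    N2 (emb (a.1.1, ContinuousLinearMap.const ℝ II a.1.2 + a.1.1 • prim (N1 (emb (a.1.1, a.2)))))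
  have hT : ContDiff ℝ ∞ T := by
    have h1 : ContDiff ℝ ∞ (fun a : (ℝ × X) × C(II, X) => a.1.1) := contDiff_fst.comp contDiff_fst
    have h2 : ContDiff ℝ ∞ (fun a : (ℝ × X) × C(II, X) => a.1.2) := contDiff_snd.comp contDiff_fst
    refine s2.comp (contDiff_emb.comp (h1.prodMk ?_))
    refine ((ContinuousLinearMap.const ℝ II : X →L[ℝ] C(II, X)).contDiff.comp h2).add
      (h1.smul ?_)
    exact (prim : C(II, X) →L[ℝ] C(II, X)).contDiff.comp
      (s1.comp (contDiff_emb.comp (h1.prodMk contDiff_snd)))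
  have vT : ∀ a s, T a s = exp (-(wt K a.1.1 * s)) •
      (a.1.2 + a.1.1 • ∫ r in (0 : ℝ)..(s : ℝ), ex (N1 (emb (a.1.1, a.2))) r) := by
    intro a s
    simp only [T, v2, emb_apply]
    rfl
  have hc : ∀ q ∈ (univ : Set (ℝ × X)), ∀ z z', ‖T (q, z) - T (q, z')‖ ≤ 1 / 2 * ‖z - z'‖ := by
    intro q _ z z'
    rw [ContinuousMap.norm_le _ (by positivity)]
    intro s
    have hL := wt_pos hK0 q.1
    rw [ContinuousMap.sub_apply, vT, vT, ← smul_sub, add_sub_add_left_eq_sub, ← smul_sub,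
      ← intervalIntegral.integral_sub ((continuous_ex _).intervalIntegrable _ _)
        ((continuous_ex _).intervalIntegrable _ _)]
    have hb : ‖∫ r in (0 : ℝ)..(s : ℝ),
        (ex (N1 (emb (q.1, z))) r - ex (N1 (emb (q.1, z'))) r)‖
        ≤ ∫ r in (0 : ℝ)..(s : ℝ), K * ‖z - z'‖ * exp (wt K q.1 * r) := by
      refine intervalIntegral.norm_integral_le_of_norm_le s.2.1 (Eventually.of_forall ?_)
        ((by fun_prop : Continuous fun r => K * ‖z - z'‖ * exp (wt K q.1 * r)).intervalIntegrable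
          _ _)
      intro r hr
      have hr' : r ∈ Icc (0 : ℝ) 1 := ⟨hr.1.le, hr.2.trans s.2.2⟩
      rw [ex_of_mem _ hr', ex_of_mem _ hr', v1, v1]
      simp only [emb_apply, Function.comp]
      refine (hK.norm_sub_le _ _).trans ?_
      rw [← smul_sub, norm_smul, Real.norm_of_nonneg (exp_pos _).le, mul_assoc,
        mul_comm ‖z - z'‖]
      refine mul_le_mul_of_nonneg_left (mul_le_mul_of_nonneg_left ?_ (exp_pos _).le) hK0
      exact (z - z').norm_coe_le_norm ⟨r, hr'⟩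
    rw [intervalIntegral.integral_const_mul] at hb
    have hb2 := hb.trans (mul_le_mul_of_nonneg_left (integral_exp_le hL s)
      (mul_nonneg hK0 (norm_nonneg _)))
    rw [norm_smul, norm_smul, Real.norm_of_nonneg (exp_pos _).le, Real.norm_eq_abs]
    refine (mul_le_mul_of_nonneg_left (mul_le_mul_of_nonneg_left hb2 (abs_nonneg _))
      (exp_pos _).le).trans ?_
    have e : exp (-(wt K q.1 * s)) * (|q.1| * (K * ‖z - z'‖ * (exp (wt K q.1 * s) / wt K q.1)))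
        = (|q.1| * K / wt K q.1) * ‖z - z'‖ := by
      rw [exp_neg]
      field_simp
    rw [e]
    refine mul_le_mul_of_nonneg_right ?_ (norm_nonneg _)
    rw [div_le_iff₀ hL]
    exact wt_bound hK0 q.1
  obtain ⟨g, hg, hg2⟩ := hF (ℝ × X) C(II, X) univ T isOpen_univ hT.contDiffOn hc
  rw [contDiffOn_univ] at hg
  refine ⟨fun q => N0 (emb (q.1, g q)), s0.comp (contDiff_emb.comp (contDiff_fst.prodMk hg)), ?_⟩
  intro q s
  have e1 : ∀ r, ex (N1 (emb (q.1, g q))) r = f (ex (N0 (emb (q.1, g q))) r) := by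
    intro r
    simp only [ex, v0, v1, Function.comp]
  have e2 := vT (q, g q) s
  rw [(hg2 q (mem_univ _)).1] at e2
  simp only [e1] at e2
  rw [v0]
  simp only [emb_apply]
  rw [e2, smul_smul, ← exp_add, add_neg_cancel, exp_zero, one_smul]

/-- The end point map of the solutions satisfies the integral equation in time. -/
lemma exists_flow (hN : NemStmt) (hF : FixStmt) [CompleteSpace X] {f : X → X} {K : NNReal}
    (hf : ContDiff ℝ ∞ f) (hK : LipschitzWith K f) :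
    ∃ φ : ℝ → X → X, ContDiff ℝ ∞ (fun q : ℝ × X => φ q.1 q.2) ∧
      ∀ t x, φ t x = x + ∫ r in (0 : ℝ)..t, f (φ r x) := by
  obtain ⟨y, hy, hy2⟩ := exists_sol hN hF hf hK
  let Y : ℝ × X → ℝ → X := fun q s => q.2 + q.1 • ∫ r in (0 : ℝ)..s, f (ex (y q) r)
  have hYe : ∀ q, ∀ s ∈ Icc (0 : ℝ) 1, Y q s = ex (y q) s := by
    intro q s hs
    rw [ex_of_mem _ hs, hy2]
  have hYd : ∀ q s, HasDerivAt (Y q) (q.1 • f (ex (y q) s)) s := by
    intro q s
    have hc : Continuous fun r => f (ex (y q) r) := hf.continuous.comp (continuous_ex _)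
    exact (((hc.integral_hasStrictDerivAt 0 s).hasDerivAt).const_smul q.1).const_add q.2
  have hsc : ∀ t x, ∀ s ∈ Icc (0 : ℝ) 1, Y (t, x) s = Y (t * s, x) 1 := by
    intro t x s hs
    have hv : ∀ _ : ℝ, LipschitzWith (‖t * s‖₊ * K) (fun w => (t * s) • f w) := fun _ =>
      (lipschitzWith_smul (t * s)).comp hK
    have d1 : ∀ r, HasDerivAt (fun r => Y (t, x) (s * r))
        ((t * s) • f (ex (y (t, x)) (s * r))) r := by
      intro r
      have h1 := (hYd (t, x) (s * r)).scomp r ((hasDerivAt_id r).const_mul s)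
      rw [mul_one, smul_smul, mul_comm s t] at h1
      exact h1
    have key := ODE_solution_unique (v := fun _ w => (t * s) • f w) (a := 0) (b := 1)
      (f := fun r => Y (t, x) (s * r)) (g := Y (t * s, x)) hv
      (fun r _ => (d1 r).continuousAt.continuousWithinAt)
      (fun r hr => by
        have hm : s * r ∈ Icc (0 : ℝ) 1 :=
          ⟨mul_nonneg hs.1 hr.1, mul_le_one₀ hs.2 hr.1 hr.2.le⟩
        have h1 := (d1 r).hasDerivWithinAt (s := Ici r)
        rwa [← hYe _ _ hm] at h1)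
      (fun r _ => (hYd _ r).continuousAt.continuousWithinAt)
      (fun r hr => by
        have h1 := (hYd (t * s, x) r).hasDerivWithinAt (s := Ici r)
        rwa [← hYe _ _ (Ico_subset_Icc_self hr)] at h1)
      (by simp [Y])
    have h2 := key (right_mem_Icc.2 zero_le_one)
    simpa only [mul_one] using h2
  have hone : (1 : ℝ) ∈ Icc (0 : ℝ) 1 := right_mem_Icc.2 zero_le_one
  refine ⟨fun t x => Y (t, x) 1, ?_, ?_⟩
  · have e : (fun q : ℝ × X => Y (q.1, q.2) 1)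
        = fun q => ContinuousMap.evalCLM ℝ (⟨1, hone⟩ : II) (y q) := by
      funext q
      rw [hYe _ _ hone, ex_of_mem _ hone]
      rfl
    rw [e]
    exact (ContinuousMap.evalCLM ℝ (⟨1, hone⟩ : II) : C(II, X) →L[ℝ] X).contDiff.comp hy
  · intro t x
    have e : ∫ r in (0 : ℝ)..1, f (ex (y (t, x)) r) = ∫ r in (0 : ℝ)..1, f (Y (t * r, x) 1) := by
      refine intervalIntegral.integral_congr fun r hr => ?_
      rw [uIcc_of_le zero_le_one] at hr
      simp only [← hsc t x r hr, hYe _ _ hr]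
    have e2 := intervalIntegral.smul_integral_comp_mul_left (a := 0) (b := 1)
      (fun r => f (Y (r, x) 1)) t
    rw [mul_zero, mul_one] at e2
    rw [← e2, ← e]

end Flow

theorem flow_of (hN : NemStmt) (hF : FixStmt) : FlowStmt := by
  intro X _ _ _ f K hf hK
  obtain ⟨φ, hs, he⟩ := Flow.exists_flow hN hF hf hK
  have h0 : ∀ x, φ 0 x = x := fun x => by
    rw [he]
    simp
  have hd : ∀ x t, HasDerivAt (fun t => φ t x) (f (φ t x)) t := by
    intro x t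
    have hc : Continuous fun r => f (φ r x) :=
      hf.continuous.comp (hs.continuous.comp (continuous_id.prodMk continuous_const))
    have h1 := ((hc.integral_hasStrictDerivAt 0 t).hasDerivAt).const_add x
    have e : (fun t => φ t x) = fun t => x + ∫ r in (0 : ℝ)..t, f (φ r x) := funext fun t => he t x
    rw [e]
    exact h1
  have hd' : ∀ x c t, HasDerivAt (fun t => φ (t + c) x) (f (φ (t + c) x)) t := fun x c t =>
    (hd x (t + c)).comp_add_const t c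
  have hv : ∀ _ : ℝ, LipschitzOnWith K f univ := fun _ => hK.lipschitzOnWith
  have ha : ∀ s t x, φ (s + t) x = φ s (φ t x) := by
    intro s t x
    have key := ODE_solution_unique_univ (v := fun _ => f) (s := fun _ => univ) (t₀ := 0)
      (f := fun s => φ (s + t) x) (g := fun s => φ s (φ t x)) hv
      (fun s => ⟨hd' x t s, mem_univ _⟩) (fun s => ⟨hd _ s, mem_univ _⟩)
      (by simp only [zero_add, h0])
    exact congrFun key s
  refine ⟨φ, hs, h0, ha, hd, ?_⟩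
  intro c a b hab hc hc'
  rcases hab.eq_or_lt with rfl | hlt
  · rw [sub_self, h0]
  · have hm : (a + b) / 2 ∈ Ioo a b := ⟨by linarith, by linarith⟩
    have key := ODE_solution_unique_of_mem_Icc (v := fun _ => f) (s := fun _ => univ)
      (f := c) (g := fun t => φ (t + -((a + b) / 2)) (c ((a + b) / 2))) (fun t _ => hv t) hm hc hc'
      (fun _ _ => mem_univ _) (fun t _ => (hd' _ _ t).continuousAt.continuousWithinAt)
      (fun t _ => hd' _ _ t) (fun _ _ => mem_univ _) (by simp only [add_neg_cancel, h0])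
    have k1 := key (left_mem_Icc.2 hab)
    have k2 := key (right_mem_Icc.2 hab)
    simp only at k1 k2
    rw [k2, k1, ← ha]
    congr 1
    ring

end Pool.Agent.MP_2291e2_gt.Zl

end MrgPart3

-- ======== part 4: formerly Pool.Agent.MP_2291e2_gt.zl.LocInv
section MrgPart4

/-! Local inverses: maps of `U` to `U` with a parameter, charts of `U`, charts of the sphere. -/

open scoped ContDiff RealInnerProductSpace Topology
open Set Filter

namespace Pool.Agent.MP_2291e2_gt.Zl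

namespace LocInv

/-- The inverse function theorem for an injective derivative in equal finite dimensions. -/
lemma ift {X Y : Type*} [NormedAddCommGroup X] [NormedSpace ℝ X] [FiniteDimensional ℝ X]
    [NormedAddCommGroup Y] [NormedSpace ℝ Y] [FiniteDimensional ℝ Y]
    (hd : Module.finrank ℝ X = Module.finrank ℝ Y) {F : X → Y} {x₀ : X}
    (hF : ContDiffAt ℝ ∞ F x₀) (hi : ∀ δ, fderiv ℝ F x₀ δ = 0 → δ = 0) :
    ∃ G : Y → X, ContDiffAt ℝ ∞ G (F x₀) ∧ G (F x₀) = x₀ ∧ (∀ᶠ x in 𝓝 x₀, G (F x) = x) ∧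
      ∀ᶠ y in 𝓝 (F x₀), F (G y) = y := by
  haveI : CompleteSpace X := FiniteDimensional.complete ℝ X
  have hinj : Function.Injective (fderiv ℝ F x₀).toLinearMap :=
    (injective_iff_map_eq_zero _).2 hi
  let e : X ≃L[ℝ] Y := (LinearMap.linearEquivOfInjective _ hinj hd).toContinuousLinearEquiv
  have he : (e : X →L[ℝ] Y) = fderiv ℝ F x₀ := by
    ext δ; rfl
  have hF' : HasFDerivAt F (e : X →L[ℝ] Y) x₀ := by
    rw [he]; exact (hF.differentiableAt (by simp)).hasFDerivAt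
  have hn : (∞ : WithTop ℕ∞) ≠ 0 := by simp
  have hs := hF.hasStrictFDerivAt' hF' hn
  exact ⟨hF.localInverse hF' hn, hF.to_localInverse hF' hn, hF.localInverse_apply_image hF' hn,
    hs.eventually_left_inverse, hs.eventually_right_inverse⟩

/-- A linear chart of `U` at `u`. -/
noncomputable def pc (u : P) : P →L[ℝ] ℝ × ℝ × ℝ :=
  ((innerSL ℝ u.2).comp (ContinuousLinearMap.fst ℝ E E)).prod
    (((innerSL ℝ (cr u.1 u.2)).comp (ContinuousLinearMap.fst ℝ E E)).prod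
      ((innerSL ℝ (cr u.1 u.2)).comp (ContinuousLinearMap.snd ℝ E E)))

lemma pc_apply (u δ : P) : pc u δ = (⟪u.2, δ.1⟫, ⟪cr u.1 u.2, δ.1⟫, ⟪cr u.1 u.2, δ.2⟫) := rfl

/-- The constraints that define `U`. -/
noncomputable def nn (u : P) : ℝ × ℝ × ℝ := (⟪u.1, u.1⟫, ⟪u.2, u.2⟫, ⟪u.1, u.2⟫)

lemma contDiff_nn : ContDiff ℝ ∞ nn :=
  (contDiff_fst.inner ℝ contDiff_fst).prodMk
    ((contDiff_snd.inner ℝ contDiff_snd).prodMk (contDiff_fst.inner ℝ contDiff_snd))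

lemma nn_U {u : P} (h : u ∈ U) : nn u = (1, 1, 0) := by
  rw [nn, inner_self_U1 h, inner_self_U2 h, h.2.2]

lemma U_of_nn {u : P} (h : nn u = (1, 1, 0)) : u ∈ U := by
  have h1 : ⟪u.1, u.1⟫ = 1 := congrArg Prod.fst h
  have h2 : ⟪u.2, u.2⟫ = 1 := congrArg (fun a => a.2.1) h
  have h3 : ⟪u.1, u.2⟫ = 0 := congrArg (fun a => a.2.2) h
  rw [real_inner_self_eq_norm_sq] at h1 h2
  exact ⟨(pow_left_inj₀ (norm_nonneg _) zero_le_one two_ne_zero).1 (by rw [h1]; norm_num),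
    (pow_left_inj₀ (norm_nonneg _) zero_le_one two_ne_zero).1 (by rw [h2]; norm_num), h3⟩

lemma fderiv_nn (u δ : P) : fderiv ℝ nn u δ = (⟪δ.1, u.1⟫ + ⟪u.1, δ.1⟫, ⟪δ.2, u.2⟫ + ⟪u.2, δ.2⟫,
    ⟪δ.1, u.2⟫ + ⟪u.1, δ.2⟫) := by
  have d1 : DifferentiableAt ℝ (fun u : P => u.1) u := differentiableAt_fst
  have d2 : DifferentiableAt ℝ (fun u : P => u.2) u := differentiableAt_snd
  unfold nn
  rw [DifferentiableAt.fderiv_prodMk (d1.inner ℝ d1) ((d2.inner ℝ d2).prodMk (d1.inner ℝ d2)),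
    DifferentiableAt.fderiv_prodMk (d2.inner ℝ d2) (d1.inner ℝ d2)]
  simp only [ContinuousLinearMap.prod_apply, fderiv_inner' d1 d1, fderiv_inner' d2 d2,
    fderiv_inner' d1 d2, fderiv_fst, fderiv_snd]
  rfl

lemma lin_nn {u δ : P} (h : fderiv ℝ nn u δ = 0) :
    ⟪u.1, δ.1⟫ = 0 ∧ ⟪u.2, δ.2⟫ = 0 ∧ ⟪δ.1, u.2⟫ + ⟪u.1, δ.2⟫ = 0 := by
  rw [fderiv_nn] at h
  have h1 : ⟪δ.1, u.1⟫ + ⟪u.1, δ.1⟫ = 0 := congrArg Prod.fst h
  have h2 : ⟪δ.2, u.2⟫ + ⟪u.2, δ.2⟫ = 0 := congrArg (fun a => a.2.1) h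
  have h3 : ⟪δ.1, u.2⟫ + ⟪u.1, δ.2⟫ = 0 := congrArg (fun a => a.2.2) h
  rw [real_inner_comm] at h1 h2
  exact ⟨by linarith, by linarith, h3⟩

lemma eq_zero {u δ : P} (hu : u ∈ U) (h1 : ⟪u.1, δ.1⟫ = 0) (h2 : ⟪u.2, δ.2⟫ = 0)
    (h3 : ⟪δ.1, u.2⟫ + ⟪u.1, δ.2⟫ = 0) (hp : pc u δ = 0) : δ = 0 := by
  rw [pc_apply] at hp
  have p1 : ⟪u.2, δ.1⟫ = 0 := congrArg Prod.fst hp
  have p2 : ⟪cr u.1 u.2, δ.1⟫ = 0 := congrArg (fun a => a.2.1) hp
  have p3 : ⟪cr u.1 u.2, δ.2⟫ = 0 := congrArg (fun a => a.2.2) hp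
  rw [real_inner_comm] at h1 h2 p1 p2 p3
  have h4 : ⟪δ.2, u.1⟫ = 0 := by rw [real_inner_comm]; linarith
  refine Prod.ext ?_ ?_
  · rw [frameU hu δ.1, h1, p1, p2]; simp
  · rw [frameU hu δ.2, h4, h2, p3]; simp

lemma W_eq_zero {u : P} (hu : u ∈ U) {η : E} (hp : pc u (W u η) = 0) : W u η = 0 := by
  refine eq_zero hu (by simp [W]) (by simp [W]) ?_ hp
  simp only [W, inner3, cr_0, cr_1, cr_2]; ring

/-- The chart is injective on the tangent space. -/
lemma fderiv_eq_zero {X : Type*} [NormedAddCommGroup X] [NormedSpace ℝ X] {f : X → P} {x : X}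
    (hf : DifferentiableAt ℝ f x) (hU : ∀ᶠ x' in 𝓝 x, f x' ∈ U) {δ : X}
    (hp : pc (f x) (fderiv ℝ f x δ) = 0) : fderiv ℝ f x δ = 0 := by
  obtain ⟨η, hη⟩ := exists_W_fderiv hf hU δ
  rw [hη] at hp ⊢
  exact W_eq_zero hU.self_of_nhds hp

/-- The chart is injective on `U` near the base point. -/
lemma pc_inj {u : P} (hu : u ∈ U) :
    ∃ s ∈ 𝓝 u, ∀ w ∈ s, ∀ w' ∈ s, w ∈ U → w' ∈ U → pc u w = pc u w' → w = w' := by
  have hc : ContDiffAt ℝ ∞ (fun w : P => (pc u w, nn w)) u :=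
    (pc u).contDiff.contDiffAt.prodMk contDiff_nn.contDiffAt
  have hi : ∀ δ, fderiv ℝ (fun w : P => (pc u w, nn w)) u δ = 0 → δ = 0 := by
    intro δ h
    rw [DifferentiableAt.fderiv_prodMk (pc u).differentiableAt
      (contDiff_nn.differentiable (by simp) u)] at h
    have a1 : fderiv ℝ (pc u) u δ = 0 := congrArg Prod.fst h
    have a2 : fderiv ℝ nn u δ = 0 := congrArg Prod.snd h
    rw [ContinuousLinearMap.fderiv] at a1
    obtain ⟨h1, h2, h3⟩ := lin_nn a2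
    exact eq_zero hu h1 h2 h3 a1
  obtain ⟨G, -, -, hG, -⟩ := ift (by simp) hc hi
  refine ⟨_, hG, fun w hw w' hw' h h' e => ?_⟩
  have a : G (pc u w, nn w) = w := hw
  have a' : G (pc u w', nn w') = w' := hw'
  rw [← a, ← a', e, nn_U h, nn_U h']

lemma part1 (f : ℝ × P → P) (s₀ : ℝ) (u₀ : P) (hu : u₀ ∈ U) (hf : ContDiffAt ℝ ∞ f (s₀, u₀))
    (hU : ∀ᶠ q in 𝓝 (s₀, u₀), q.2 ∈ U → f q ∈ U)
    (hi : ∀ ξ, fderiv ℝ f (s₀, u₀) (0, W u₀ ξ) = 0 → ξ = 0) :
    ∃ g : ℝ × P → P, ContDiffAt ℝ ∞ g (s₀, f (s₀, u₀)) ∧ g (s₀, f (s₀, u₀)) = u₀ ∧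
      (∀ᶠ q in 𝓝 (s₀, u₀), q.2 ∈ U → g (q.1, f q) = q.2) ∧
      ∀ᶠ q in 𝓝 (s₀, f (s₀, u₀)), q.2 ∈ U → g q ∈ U ∧ f (q.1, g q) = q.2 := by
  set u₁ := f (s₀, u₀) with hu₁
  have hu1 : u₁ ∈ U := hU.self_of_nhds hu
  let r : ℝ × P → ℝ × P := fun q => (q.1, rt q.2)
  have hr0 : r (s₀, u₀) = (s₀, u₀) := by simp only [r, rt_of_U hu]
  have hrt : ContDiffAt ℝ ∞ (fun q : ℝ × P => rt q.2) (s₀, u₀) :=
    (contDiffAt_rt (U_sub_Ind hu)).comp (s₀, u₀) contDiffAt_snd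
  have hr : ContDiffAt ℝ ∞ r (s₀, u₀) := contDiffAt_fst.prodMk hrt
  have hf' : ContDiffAt ℝ ∞ f (r (s₀, u₀)) := by rwa [hr0]
  have hh : ContDiffAt ℝ ∞ (fun q => f (r q)) (s₀, u₀) := hf'.comp (s₀, u₀) hr
  have hhU : ∀ᶠ q in 𝓝 (s₀, u₀), f (r q) ∈ U := by
    have t1 : Tendsto r (𝓝 (s₀, u₀)) (𝓝 (s₀, u₀)) := by
      have := hr.continuousAt.tendsto
      rwa [hr0] at this
    have t2 : ∀ᶠ q : ℝ × P in 𝓝 (s₀, u₀), q.2 ∈ Ind :=
      continuous_snd.continuousAt.eventually (Ind_nhds hu)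
    filter_upwards [t1.eventually hU, t2] with q h1 h2
    exact h1 (rt_mem_U h2)
  let F : ℝ × P → ℝ × (ℝ × ℝ × ℝ) × (ℝ × ℝ × ℝ) := fun q => (q.1, pc u₁ (f (r q)), nn q.2)
  have c2 : ContDiffAt ℝ ∞ (fun q => pc u₁ (f (r q))) (s₀, u₀) :=
    (pc u₁).contDiff.contDiffAt.comp (s₀, u₀) hh
  have c3 : ContDiffAt ℝ ∞ (fun q : ℝ × P => nn q.2) (s₀, u₀) :=
    contDiff_nn.contDiffAt.comp (s₀, u₀) contDiffAt_snd
  have hF : ContDiffAt ℝ ∞ F (s₀, u₀) := contDiffAt_fst.prodMk (c2.prodMk c3)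
  have hFi : ∀ δ, fderiv ℝ F (s₀, u₀) δ = 0 → δ = 0 := by
    intro δ h
    have dh := hh.differentiableAt (by simp)
    have dn : DifferentiableAt ℝ nn u₀ := contDiff_nn.differentiable (by simp) u₀
    have drt : DifferentiableAt ℝ rt u₀ := diffAt_of_U contDiffOn_rt hu
    have k2 := (pc u₁).hasFDerivAt.comp (s₀, u₀) dh.hasFDerivAt
    have k3 := HasFDerivAt.comp (s₀, u₀) (g := nn) (f := fun q : ℝ × P => q.2) dn.hasFDerivAt
      hasFDerivAt_snd
    have k : HasFDerivAt F _ (s₀, u₀) := hasFDerivAt_fst.prodMk (k2.prodMk k3)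
    rw [k.fderiv] at h
    have a1 : δ.1 = 0 := congrArg Prod.fst h
    have a2 : pc u₁ (fderiv ℝ (fun q => f (r q)) (s₀, u₀) δ) = 0 := congrArg (fun a => a.2.1) h
    have a3 : fderiv ℝ nn u₀ δ.2 = 0 := congrArg (fun a => a.2.2) h
    obtain ⟨h1, h2, h3⟩ := lin_nn a3
    obtain ⟨ξ, hξ⟩ := exists_W hu h1 h2 h3
    have a4 : fderiv ℝ (fun q => f (r q)) (s₀, u₀) δ = 0 := by
      refine fderiv_eq_zero dh hhU ?_
      rw [hr0]; exact a2
    have k4 := HasFDerivAt.comp (s₀, u₀) (g := rt) (f := fun q : ℝ × P => q.2) drt.hasFDerivAt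
      hasFDerivAt_snd
    have k5 : HasFDerivAt r _ (s₀, u₀) := hasFDerivAt_fst.prodMk k4
    have k6 : HasFDerivAt (fun q => f (r q)) _ (s₀, u₀) :=
      (hf'.differentiableAt (by simp)).hasFDerivAt.comp (s₀, u₀) k5
    rw [k6.fderiv, hr0] at a4
    have a5 : fderiv ℝ f (s₀, u₀) (δ.1, fderiv ℝ rt u₀ δ.2) = 0 := a4
    rw [a1, hξ, fderiv_rt_W hu] at a5
    have a6 := hi ξ a5
    rw [a6, W_zero] at hξ
    exact Prod.ext a1 hξ
  obtain ⟨G, hG, hG0, hl, hrr⟩ := ift (by simp) hF hFi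
  have hF0 : F (s₀, u₀) = (s₀, pc u₁ u₁, (1, 1, 0)) := by
    simp only [F, hr0, nn_U hu, ← hu₁]
  let j : ℝ × P → ℝ × (ℝ × ℝ × ℝ) × (ℝ × ℝ × ℝ) := fun q => (q.1, pc u₁ q.2, (1, 1, 0))
  have hj : ContDiff ℝ ∞ j :=
    contDiff_fst.prodMk (((pc u₁).contDiff.comp contDiff_snd).prodMk contDiff_const)
  have hj0 : j (s₀, u₁) = F (s₀, u₀) := hF0.symm
  have hGj : ContDiffAt ℝ ∞ (fun q => G (j q)) (s₀, u₁) :=
    ContDiffAt.comp (s₀, u₁) (by rwa [hj0]) hj.contDiffAt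
  have hGj0 : G (j (s₀, u₁)) = (s₀, u₀) := by rw [hj0, hG0]
  refine ⟨fun q => (G (j q)).2, hGj.snd, by simp only [hGj0], ?_, ?_⟩
  · filter_upwards [hl] with q h1 h2
    have : j (q.1, f q) = F q := by simp only [j, F, r, rt_of_U h2, nn_U h2]
    simp only [this, h1]
  · obtain ⟨s, hs, hinj⟩ := pc_inj hu1
    have t1 : Tendsto j (𝓝 (s₀, u₁)) (𝓝 (F (s₀, u₀))) := hj0 ▸ hj.continuous.tendsto _
    have t2 : Tendsto (fun q => G (j q)) (𝓝 (s₀, u₁)) (𝓝 (s₀, u₀)) :=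
      hGj0 ▸ hGj.continuousAt.tendsto
    have t3 : ∀ᶠ q : ℝ × P in 𝓝 (s₀, u₁), q.2 ∈ s := continuous_snd.continuousAt.eventually hs
    have t4 : ∀ᶠ q : ℝ × P in 𝓝 (s₀, u₀), f q ∈ s := hf.continuousAt.eventually hs
    filter_upwards [t1.eventually hrr, t2.eventually hU, t3, t2.eventually t4] with q h1 h2 h3 h4 hq
    have b1 : (G (j q)).1 = q.1 := congrArg (fun a : ℝ × (ℝ × ℝ × ℝ) × (ℝ × ℝ × ℝ) => a.1) h1
    have b2 : pc u₁ (f (r (G (j q)))) = pc u₁ q.2 := congrArg (fun a => a.2.1) h1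
    have b3 : nn (G (j q)).2 = (1, 1, 0) := congrArg (fun a => a.2.2) h1
    have b4 := U_of_nn b3
    have b5 : r (G (j q)) = G (j q) := by simp only [r, rt_of_U b4]
    rw [b5] at b2
    refine ⟨b4, ?_⟩
    rw [← b1]
    exact hinj _ h4 _ h3 (h2 b4) hq b2

lemma part2 (f : ℝ × ℝ × ℝ → P) (a₀ : ℝ × ℝ × ℝ) (hf : ContDiffAt ℝ ∞ f a₀)
    (hU : ∀ᶠ a in 𝓝 a₀, f a ∈ U) (hi : ∀ δ, fderiv ℝ f a₀ δ = 0 → δ = 0) :
    ∃ g : P → ℝ × ℝ × ℝ, ContDiffAt ℝ ∞ g (f a₀) ∧ (∀ᶠ a in 𝓝 a₀, g (f a) = a) ∧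
      ∀ᶠ w in 𝓝 (f a₀), w ∈ U → f (g w) = w := by
  have hu : f a₀ ∈ U := hU.self_of_nhds
  have df := hf.differentiableAt (by simp)
  have hF : ContDiffAt ℝ ∞ (fun a => pc (f a₀) (f a)) a₀ :=
    (pc (f a₀)).contDiff.contDiffAt.comp a₀ hf
  have hFi : ∀ δ, fderiv ℝ (fun a => pc (f a₀) (f a)) a₀ δ = 0 → δ = 0 := by
    intro δ h
    have k : HasFDerivAt (fun a => pc (f a₀) (f a)) _ a₀ :=
      (pc (f a₀)).hasFDerivAt.comp a₀ df.hasFDerivAt
    rw [k.fderiv] at h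
    exact hi δ (fderiv_eq_zero df hU h)
  obtain ⟨G, hG, hG0, hl, hr⟩ := ift rfl hF hFi
  have hg : ContDiffAt ℝ ∞ (fun w => G (pc (f a₀) w)) (f a₀) :=
    hG.comp (f a₀) (pc (f a₀)).contDiff.contDiffAt
  refine ⟨fun w => G (pc (f a₀) w), hg, hl, ?_⟩
  obtain ⟨s, hs, hinj⟩ := pc_inj hu
  have t1 : Tendsto (pc (f a₀)) (𝓝 (f a₀)) (𝓝 (pc (f a₀) (f a₀))) :=
    (pc (f a₀)).continuous.tendsto _
  have t2 : Tendsto (fun w => G (pc (f a₀) w)) (𝓝 (f a₀)) (𝓝 a₀) := by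
    have := hg.continuousAt.tendsto
    rwa [hG0] at this
  have t4 : ∀ᶠ a in 𝓝 a₀, f a ∈ s := hf.continuousAt.eventually hs
  filter_upwards [t1.eventually hr, t2.eventually hU, hs, t2.eventually t4] with w h1 h2 h3 h4 hw
  exact hinj _ h4 _ h3 h2 hw h1

lemma part3 (f : ℝ × ℝ → E) (a₀ : ℝ × ℝ) (hf : ContDiffAt ℝ ∞ f a₀)
    (hU : ∀ᶠ a in 𝓝 a₀, ‖f a‖ = 1) (hi : ∀ δ, fderiv ℝ f a₀ δ = 0 → δ = 0) :
    ∃ g : E → ℝ × ℝ, ContDiffAt ℝ ∞ g (f a₀) ∧ (∀ᶠ a in 𝓝 a₀, g (f a) = a) ∧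
      (∀ᶠ y in 𝓝 (f a₀), ∀ t : ℝ, 0 < t → g (t • y) = g y) ∧
      ∀ᶠ y in 𝓝 (f a₀), ‖y‖ = 1 → f (g y) = y := by
  have h1 : ‖f a₀‖ = 1 := hU.self_of_nhds
  have df := hf.differentiableAt (by simp)
  let F : (ℝ × ℝ) × ℝ → E := fun q => q.2 • f q.1
  have hf1 : ContDiffAt ℝ ∞ (fun q : (ℝ × ℝ) × ℝ => f q.1) (a₀, 1) :=
    ContDiffAt.comp (a₀, (1 : ℝ)) (g := f) (f := fun q : (ℝ × ℝ) × ℝ => q.1) hf contDiffAt_fst
  have hF : ContDiffAt ℝ ∞ F (a₀, 1) := contDiffAt_snd.smul hf1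
  have hF0 : F (a₀, 1) = f a₀ := one_smul _ _
  have hFi : ∀ δ, fderiv ℝ F (a₀, 1) δ = 0 → δ = 0 := by
    intro δ h
    have k1 := HasFDerivAt.comp (a₀, (1 : ℝ)) (g := f) (f := fun q : (ℝ × ℝ) × ℝ => q.1)
      df.hasFDerivAt hasFDerivAt_fst
    have k : HasFDerivAt F _ (a₀, 1) := hasFDerivAt_snd.smul k1
    rw [k.fderiv] at h
    have a1 : (1 : ℝ) • fderiv ℝ f a₀ δ.1 + δ.2 • f a₀ = 0 := h
    have a2 : ⟪fderiv ℝ f a₀ δ.1, f a₀⟫ + ⟪f a₀, fderiv ℝ f a₀ δ.1⟫ = 0 := by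
      have e : (fun a => ⟪f a, f a⟫) =ᶠ[𝓝 a₀] fun _ => (1 : ℝ) :=
        hU.mono fun a ha => by simp only [real_inner_self_eq_norm_sq, ha, one_pow]
      rw [← fderiv_inner' df df, e.fderiv_eq]; simp
    rw [real_inner_comm] at a2
    have a3 := congrArg (fun y => ⟪f a₀, y⟫) a1
    simp only [one_smul, inner_add_right, inner_smul_right, real_inner_self_eq_norm_sq, h1,
      inner_zero_right] at a3
    have a4 : δ.2 = 0 := by linarith
    rw [a4, zero_smul, add_zero, one_smul] at a1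
    exact Prod.ext (hi _ a1) a4
  obtain ⟨G, hG, hG0, hl, hr⟩ := ift (by simp) hF hFi
  rw [hF0] at hG hG0 hr
  have hne : f a₀ ≠ 0 := fun h0 => by rw [h0] at h1; simp at h1
  have hn : ContDiffAt ℝ ∞ (fun y : E => ‖y‖⁻¹ • y) (f a₀) :=
    ((contDiffAt_id.norm ℝ hne).inv (by simpa using hne)).smul contDiffAt_id
  have hn0 : ‖f a₀‖⁻¹ • f a₀ = f a₀ := by rw [h1, inv_one, one_smul]
  have hg : ContDiffAt ℝ ∞ (fun y : E => G (‖y‖⁻¹ • y)) (f a₀) :=
    ContDiffAt.comp (f a₀) (g := G) (f := fun y : E => ‖y‖⁻¹ • y) (by rwa [hn0]) hn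
  refine ⟨fun y => (G (‖y‖⁻¹ • y)).1, hg.fst, ?_, Eventually.of_forall fun y t ht => ?_, ?_⟩
  · have t1 : Tendsto (fun a : ℝ × ℝ => (a, (1 : ℝ))) (𝓝 a₀) (𝓝 (a₀, 1)) :=
      (continuous_id.prodMk continuous_const).tendsto a₀
    filter_upwards [t1.eventually hl, hU] with a h2 h3
    have h4 : G ((1 : ℝ) • f a) = (a, 1) := h2
    simp only [h3, inv_one, h4]
  · have : ‖t • y‖⁻¹ • t • y = ‖y‖⁻¹ • y := by
      rw [norm_smul, Real.norm_of_nonneg ht.le, smul_smul, mul_inv, mul_comm t⁻¹, mul_assoc,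
        inv_mul_cancel₀ ht.ne', mul_one]
    simp only [this]
  · have t2 : Tendsto G (𝓝 (f a₀)) (𝓝 (a₀, 1)) := hG0 ▸ hG.continuousAt.tendsto
    have t3 : ∀ᶠ q : (ℝ × ℝ) × ℝ in 𝓝 (a₀, 1), ‖f q.1‖ = 1 :=
      (continuous_fst.tendsto (a₀, (1 : ℝ))).eventually hU
    have t4 : ∀ᶠ q : (ℝ × ℝ) × ℝ in 𝓝 (a₀, 1), 0 < q.2 :=
      continuous_snd.continuousAt.eventually (lt_mem_nhds one_pos)
    filter_upwards [hr, t2.eventually t3, t2.eventually t4] with y h2 h3 h4 hy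
    have h5 : (G y).2 • f (G y).1 = y := h2
    have h6 := congrArg norm h5
    rw [norm_smul, h3, hy, mul_one, Real.norm_of_nonneg h4.le] at h6
    rw [h6, one_smul] at h5
    simp only [hy, inv_one, one_smul, h5]

end LocInv

theorem locinv_of : LocInvStmt := ⟨LocInv.part1, LocInv.part2, LocInv.part3⟩

end Pool.Agent.MP_2291e2_gt.Zl

end MrgPart4

-- ======== part 5: formerly Pool.Agent.MP_2291e2_gt.zl.Sup
section MrgPart5

/-! The support function construction: from a family of strictly turning odd curves in the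
cotangent planes to a Finsler energy. -/

open scoped ContDiff RealInnerProductSpace Topology
open Set Filter Real

namespace Pool.Agent.MP_2291e2_gt.Zl

namespace Sup

structure Hyp (p : P → E) : Prop where
  sm : ContDiffOn ℝ ∞ p Ind
  odd : ∀ u ∈ U, p (rev u) = -p u
  turn : Turn (npp p)

variable {p : P → E}

lemma crx {y z : E} (hy : ‖y‖ = 1) (h : ⟪y, z⟫ = 0) : cr (cr y z) y = z := by
  rw [cr_cr_left, real_inner_self_eq_norm_sq, hy, real_inner_comm, h]; simp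

lemma npp_eq {u : P} (hu : u ∈ U) {z : E} (h : ⟪u.1, z⟫ = 0) (r : ℝ) :
    npp p (rho r u) (cr u.1 z) = ⟪V p (rho r u), z⟫ := by
  simp [npp, crx hu.1 h]

lemma npp_fst (u : P) : npp p u u.1 = 0 := by simp [npp]

lemma Hyp.diff (h : Hyp p) (ξ : E) (u : P) (hu : u ∈ U) :
    DifferentiableAt ℝ (fun w => npp p w ξ) u :=
  (diffAt_of_U (contDiffOn_V h.sm) hu).inner ℝ (by fun_prop)

lemma Hyp.vodd (h : Hyp p) {u : P} (hu : u ∈ U) : V p (rev u) = -V p u := V_odd h.sm h.odd hu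

lemma Hyp.nodd (h : Hyp p) (u : P) (hu : u ∈ U) (ξ : E) : npp p (rev u) ξ = -npp p u ξ := by
  simp [npp, h.vodd hu]

lemma Hyp.d0 (h : Hyp p) {u : P} (hu : u ∈ U) (z : E) (r : ℝ) :
    HasDerivAt (fun r => ⟪p (rho r u), z⟫) ⟪V p (rho r u), z⟫ r := by
  simpa using hasDerivAt_inner (hasDerivAt_V' h.sm hu r) (hasDerivAt_const r z)

lemma Hyp.d1 (h : Hyp p) {u : P} (hu : u ∈ U) (z : E) (r : ℝ) :
    HasDerivAt (fun r => ⟪V p (rho r u), z⟫) ⟪V (V p) (rho r u), z⟫ r := by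
  simpa using hasDerivAt_inner (hasDerivAt_V' (contDiffOn_V h.sm) hu r) (hasDerivAt_const r z)

lemma Hyp.simple (h : Hyp p) {u : P} (hu : u ∈ U) {z : E} (hz : Tan u.1 z)
    (h0 : ⟪V p u, z⟫ = 0) : ⟪V (V p) u, z⟫ ≠ 0 := by
  have a := h.turn.simple_zero (npp_lin p) (fun u _ => npp_fst u) h.diff hu (ξ := cr u.1 z)
    (by rw [crx hu.1 hz.2.1]; exact hz.2.2) (by simpa [h0] using npp_eq (p := p) hu hz.2.1 0)
  have b := hasDerivAt_V (f := fun w => npp p w (cr u.1 z)) hu (s := 0)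
    (h.diff _ _ (rho_mem_U hu 0))
  simp only [npp_eq hu hz.2.1] at b
  have c := b.unique (h.d1 hu z 0)
  rw [rho_zero] at c
  rwa [← c]

lemma Hyp.nozero (h : Hyp p) {u : P} (hu : u ∈ U) {z : E} (hz : Tan u.1 z)
    (h0 : ⟪V p u, z⟫ = 0) {r : ℝ} (hr : r ∈ Ioo 0 π) : ⟪V p (rho r u), z⟫ ≠ 0 := by
  have a := h.turn.two_zeros (npp_lin p) (fun u _ => npp_fst u) hu (ξ := cr u.1 z)
    (by rw [crx hu.1 hz.2.1]; exact hz.2.2) (a := 0) hr
    (by rw [npp_eq hu hz.2.1, rho_zero, h0])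
  rwa [npp_eq hu hz.2.1, zero_add] at a

lemma Hyp.uniq (h : Hyp p) {u u' : P} (hu : u ∈ U) (hu' : u' ∈ U) (e : u'.1 = u.1) {z : E}
    (hz : Tan u.1 z) (h0 : ⟪V p u, z⟫ = 0) (h1 : ⟪V p u', z⟫ = 0) : u' = u ∨ u' = rev u := by
  obtain ⟨s, hs, rfl⟩ := exists_rho hu hu' e
  rcases hs.1.eq_or_lt with rfl | hs0
  · left; simp
  rcases lt_trichotomy s π with hl | rfl | hl
  · exact absurd h1 (h.nozero hu hz h0 ⟨hs0, hl⟩)
  · right; exact rho_pi u
  · exfalso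
    refine h.nozero hu hz h0 (r := s - π) ⟨by linarith, by linarith [hs.2]⟩ ?_
    have : rho s u = rev (rho (s - π) u) := by rw [← rho_add_pi]; simp
    rw [this, h.vodd (rho_mem_U hu _), inner_neg_left] at h1
    linarith

lemma Hyp.sign0 (h : Hyp p) {u : P} (hu : u ∈ U) {z : E} (hz : Tan u.1 z)
    (h0 : ⟪V p u, z⟫ = 0) (hp : ∀ r ∈ Ioo 0 π, 0 < ⟪V p (rho r u), z⟫) :
    ⟪p u, z⟫ * ⟪V (V p) u, z⟫ < 0 := by
  have m : StrictMonoOn (fun r => ⟪p (rho r u), z⟫) (Icc 0 π) := by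
    refine strictMonoOn_of_deriv_pos (convex_Icc _ _)
      (fun r _ => (h.d0 hu z r).continuousAt.continuousWithinAt) fun r hr => ?_
    rw [interior_Icc] at hr
    rw [(h.d0 hu z r).deriv]; exact hp r hr
  have a := m ⟨le_rfl, pi_pos.le⟩ ⟨pi_pos.le, le_rfl⟩ pi_pos
  simp only [rho_zero, rho_pi, h.odd u hu, inner_neg_left] at a
  have b : 0 ≤ ⟪V (V p) u, z⟫ := by
    have d := (h.d1 hu z 0).tendsto_slope_zero_right
    rw [rho_zero] at d
    refine ge_of_tendsto d ?_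
    filter_upwards [Ioo_mem_nhdsGT pi_pos] with r hr
    simp only [zero_add, h0, sub_zero, smul_eq_mul]
    exact mul_nonneg (inv_pos.2 hr.1).le (hp r hr).le
  exact mul_neg_of_neg_of_pos (by linarith) (b.lt_of_ne' (h.simple hu hz h0))

lemma tan_smul {x w : E} (h : Tan x w) {t : ℝ} (ht : t ≠ 0) : Tan x (t • w) :=
  ⟨h.1, by rw [inner_smul_right, h.2.1, mul_zero], smul_ne_zero ht h.2.2⟩

lemma Hyp.sign (h : Hyp p) {u : P} (hu : u ∈ U) {z : E} (hz : Tan u.1 z)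
    (h0 : ⟪V p u, z⟫ = 0) : ⟪p u, z⟫ * ⟪V (V p) u, z⟫ < 0 := by
  rcases sign_const (f := fun r => ⟪V p (rho r u), z⟫) isPreconnected_Ioo
    (fun r _ => (h.d1 hu z r).continuousAt.continuousWithinAt)
    (fun r hr => h.nozero hu hz h0 hr) with hp | hp
  · exact h.sign0 hu hz h0 hp
  · have := h.sign0 hu (z := -z) (by simpa using tan_smul hz (t := -1) (by norm_num))
      (by simp [h0]) (fun r hr => by simpa using hp r hr)
    simpa using this

lemma Hyp.ne (h : Hyp p) {u : P} (hu : u ∈ U) {z : E} (hz : Tan u.1 z)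
    (h0 : ⟪V p u, z⟫ = 0) : ⟪p u, z⟫ ≠ 0 := fun e => by
  have := h.sign hu hz h0
  rw [e] at this; simp at this

/-- The point of the fibre of `u` where `p` is extremal in the direction of `u`. -/
def Top (p : P → E) (u u' : P) : Prop :=
  u' ∈ U ∧ u'.1 = u.1 ∧ ⟪V p u', u.2⟫ = 0 ∧ 0 < ⟪p u', u.2⟫

lemma Hyp.ex (h : Hyp p) {u : P} (hu : u ∈ U) : ∃ u', Top p u u' := by
  obtain ⟨σ, h0, -⟩ := h.turn.half (npp_lin p) (fun u _ => npp_fst u) h.diff h.nodd hu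
    (ξ := cr u.1 u.2) (by rw [crx hu.1 hu.2.2]; exact (tan_of_U hu).2.2)
  rw [npp_eq hu hu.2.2] at h0
  have hm := rho_mem_U hu σ
  rcases (h.ne hm (z := u.2) (tan_of_U (u := u) hu) h0).lt_or_gt with hl | hl
  · exact ⟨rev (rho σ u), rev_mem_U hm, rfl, by simp [h.vodd hm, h0], by
      simpa [h.odd _ hm] using hl⟩
  · exact ⟨rho σ u, hm, rfl, h0, hl⟩

lemma Hyp.top_uniq (h : Hyp p) {u a b : P} (hu : u ∈ U) (ha : Top p u a) (hb : Top p u b) :
    b = a := by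
  refine (h.uniq ha.1 hb.1 (hb.2.1.trans ha.2.1.symm) (ha.2.1 ▸ tan_of_U hu) ha.2.2.1
    hb.2.2.1).resolve_right fun e => ?_
  have h1 := hb.2.2.2
  rw [e, h.odd _ ha.1, inner_neg_left] at h1
  linarith [ha.2.2.2]

/-- Smoothness of the extremal point. -/
lemma smooth_us {p : ℝ → P → E} (hp : Sm p) (H : ∀ s, Hyp (p s)) {us : ℝ → P → P}
    (hus : ∀ s, ∀ x ∈ Ind, Top (p s) (rt x) (us s x)) : Sm us := by
  rintro ⟨s₀, x₀⟩ ⟨-, hx⟩
  simp only at hx
  have hu := rt_mem_U hx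
  obtain ⟨r₀, -, hr⟩ := exists_rho hu (hus s₀ x₀ hx).1 (hus s₀ x₀ hx).2.1
  have hop : IsOpen ((univ : Set ℝ) ×ˢ (Ind : Set P)) := isOpen_univ.prod isOpen_Ind
  have hrt : ContDiffAt ℝ ∞ (fun q : (ℝ × P) × ℝ => rt q.1.2) ((s₀, x₀), r₀) :=
    (contDiffAt_rt hx).comp ((s₀, x₀), r₀) (f := fun q : (ℝ × P) × ℝ => q.1.2) (by fun_prop)
  have hrho : ContDiffAt ℝ ∞ (fun q : (ℝ × P) × ℝ => rho q.2 (rt q.1.2)) ((s₀, x₀), r₀) :=
    contDiff_rho.contDiffAt.comp ((s₀, x₀), r₀) (contDiffAt_snd.prodMk hrt)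
  have key : ∀ g : ℝ → P → E, Sm g → ContDiffAt ℝ ∞
      (fun q : (ℝ × P) × ℝ => ⟪g q.1.1 (rho q.2 (rt q.1.2)), (rt q.1.2).2⟫) ((s₀, x₀), r₀) := by
    intro g hg
    have a : ContDiffAt ℝ ∞ (fun q : ℝ × P => g q.1 q.2) (s₀, rho r₀ (rt x₀)) :=
      hg.contDiffAt (hop.mem_nhds ⟨trivial, U_sub_Ind (rho_mem_U hu _)⟩)
    exact (a.comp ((s₀, x₀), r₀) (f := fun q : (ℝ × P) × ℝ => (q.1.1, rho q.2 (rt q.1.2)))
      (ContDiffAt.prodMk (by fun_prop) hrho)).inner ℝ hrt.snd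
  have k1 := key _ hp.V
  have k0 := key _ hp
  have ht := hus s₀ x₀ hx
  rw [hr] at ht
  have hd : fderiv ℝ (fun q : (ℝ × P) × ℝ => ⟪V (p q.1.1) (rho q.2 (rt q.1.2)), (rt q.1.2).2⟫)
      ((s₀, x₀), r₀) (0, 1) ≠ 0 := by
    have a := (k1.differentiableAt (by simp)).hasFDerivAt.comp_hasDerivAt r₀
      ((hasDerivAt_const r₀ (s₀, x₀)).prodMk (hasDerivAt_id r₀))
    rw [a.unique ((H s₀).d1 hu (rt x₀).2 r₀)]
    exact (H s₀).simple ht.1 (tan_of_U hu) ht.2.2.1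
  obtain ⟨g, g1, g2, g3, -⟩ := exists_implicit k1 hd
  have hg : ContDiffAt ℝ ∞ (fun q : ℝ × P => (q, g q)) (s₀, x₀) := contDiffAt_id.prodMk g1
  have e1 : ((s₀, x₀), r₀) = ((s₀, x₀), g (s₀, x₀)) := by rw [g2]
  rw [e1] at hrho k0
  have c0 := (k0.comp (s₀, x₀) hg).continuousAt.eventually
    (lt_mem_nhds (a := 0) (by simpa [g2] using ht.2.2.2))
  refine ((hrho.comp (s₀, x₀) hg).congr_of_eventuallyEq ?_).contDiffWithinAt
  filter_upwards [g3, c0, hop.mem_nhds (show (s₀, x₀) ∈ _ from ⟨trivial, hx⟩)] with q q1 q2 q3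
  have hq := rt_mem_U q3.2
  exact (H q.1).top_uniq hq ⟨rho_mem_U hq _, rfl, q1.trans ht.2.2.1, q2⟩ (hus q.1 q.2 q3.2)

section
variable {us : P → P}

lemma top_tan (hus : ∀ x ∈ Ind, Top p (rt x) (us x)) {x w : E} (h : Tan x w) :
    us (x, w) ∈ U ∧ (us (x, w)).1 = x ∧ ⟪V p (us (x, w)), w⟫ = 0 ∧ 0 < ⟪p (us (x, w)), w⟫ := by
  obtain ⟨a, b, c, d⟩ := hus _ h.mem_Ind
  rw [rt_tan h] at b c d
  have hn : 0 < ‖w‖⁻¹ := inv_pos.2 (norm_pos_iff.2 h.2.2)
  simp only [inner_smul_right] at c d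
  exact ⟨a, b, (mul_eq_zero.1 c).resolve_left hn.ne', (mul_pos_iff_of_pos_left hn).1 d⟩

lemma fderiv_us (hs : ContDiffOn ℝ ∞ us Ind) (hus : ∀ x ∈ Ind, Top p (rt x) (us x)) {x w : E}
    (h : Tan x w) (δ : P) (hδ : ⟪x, δ.1⟫ = 0) :
    ∃ l : ℝ, fderiv ℝ us (x, w) δ = W (us (x, w)) (cr x δ.1 + l • x) := by
  have hn := isOpen_Ind.mem_nhds h.mem_Ind
  have d := diffAt_of_Ind hs h.mem_Ind
  obtain ⟨ξ, hξ⟩ := exists_W_fderiv d (mem_of_superset hn fun x hx => (hus x hx).1) δ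
  have hb := (top_tan hus h).2.1
  have x0 : x ≠ 0 := by rintro rfl; simpa using h.1
  have dn : DifferentiableAt ℝ (fun q : P => ‖q.1‖) (x, w) :=
    (differentiableAt_fst (p := (x, w))).norm ℝ x0
  have e : (fun q : P => ‖q.1‖ • (us q).1) =ᶠ[𝓝 (x, w)] fun q => q.1 := by
    filter_upwards [hn] with q hq
    rw [(hus q hq).2.1, rt, smul_smul, mul_inv_cancel₀ (by simpa using Ind_fst_ne hq), one_smul]
  have e2 : fderiv ℝ (fun q : P => ‖q.1‖ • (us q).1) (x, w) δ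
      = fderiv ℝ (fun q : P => q.1) (x, w) δ := by rw [e.fderiv_eq]
  rw [fderiv_fun_smul dn d.fst, fderiv_fst, fderiv.fst d] at e2
  simp only [add_apply, ContinuousLinearMap.smulRight_apply, h.1, one_smul,
    ContinuousLinearMap.comp_apply, hξ, hb, W, ContinuousLinearMap.coe_fst'] at e2
  have e3 := congrArg (fun a => ⟪x, a⟫) e2
  simp only [inner_add_right, inner_cr_right, inner_smul_right, hδ, real_inner_self_eq_norm_sq,
    h.1] at e3
  rw [show fderiv ℝ (fun q : P => ‖q.1‖) (x, w) δ = 0 by linarith, zero_smul, add_zero] at e2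
  refine ⟨⟪x, ξ⟫, hξ.trans ?_⟩
  rw [← e2, cr_cr_right, real_inner_self_eq_norm_sq, h.1]
  simp

lemma fderiv_comp_us (hs : ContDiffOn ℝ ∞ us Ind) (hus : ∀ x ∈ Ind, Top p (rt x) (us x))
    {x w : E} (h : Tan x w) (δ : P) (hδ : ⟪x, δ.1⟫ = 0) :
    ∃ l : ℝ, ∀ f : P → E, ContDiffOn ℝ ∞ f Ind → DifferentiableAt ℝ (fun q => f (us q)) (x, w) ∧
      fderiv ℝ (fun q => f (us q)) (x, w) δ
        = dW f (us (x, w)) (cr x δ.1) + l • V f (us (x, w)) := by
  obtain ⟨l, hl⟩ := fderiv_us hs hus h δ hδ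
  refine ⟨l, fun f hf => ?_⟩
  have a := (diffAt_of_U hf (top_tan hus h).1).hasFDerivAt.comp (x, w)
    (diffAt_of_Ind hs h.mem_Ind).hasFDerivAt
  refine ⟨a.differentiableAt, ?_⟩
  rw [show (fun q => f (us q)) = f ∘ us from rfl, a.fderiv, ContinuousLinearMap.comp_apply, hl,
    V, (top_tan hus h).2.1, ← dW_smul, ← dW_add]
  rfl

lemma fderiv_L (H : Hyp p) (hs : ContDiffOn ℝ ∞ us Ind) (hus : ∀ x ∈ Ind, Top p (rt x) (us x))
    {x w : E} (h : Tan x w) (δ : P) (hδ : ⟪x, δ.1⟫ = 0) :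
    fderiv ℝ (fun q : P => ⟪p (us q), q.2⟫ ^ 2 / 2) (x, w) δ = ⟪p (us (x, w)), w⟫ *
      (⟪dW p (us (x, w)) (cr x δ.1), w⟫ + ⟪p (us (x, w)), δ.2⟫) := by
  obtain ⟨l, hl⟩ := fderiv_comp_us hs hus h δ hδ
  obtain ⟨d, e⟩ := hl p H.sm
  have a := fderiv_inner' d (differentiableAt_snd (p := (x, w))) δ
  have b := ((d.inner ℝ (differentiableAt_snd (p := (x, w)))).hasFDerivAt.pow 2).mul_const 2⁻¹
  simp only [div_eq_mul_inv]
  rw [b.fderiv]
  simp only [smul_apply, a, e, fderiv_snd, ContinuousLinearMap.coe_snd', inner_add_left,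
    inner_smul_left, (top_tan hus h).2.2.1]
  simp
  ring

lemma val (H : Hyp p) (hus : ∀ x ∈ Ind, Top p (rt x) (us x)) {u : P} (hu : u ∈ U) {w : E}
    (h : Tan u.1 w) (h0 : ⟪V p u, w⟫ = 0) : ⟪p (us (u.1, w)), w⟫ ^ 2 = ⟪p u, w⟫ ^ 2 := by
  obtain ⟨a, b, c, -⟩ := top_tan hus h
  rcases H.uniq hu a b h h0 c with e | e <;> rw [e]
  rw [H.odd u hu, inner_neg_left, neg_sq]

lemma convex (H : Hyp p) (hs : ContDiffOn ℝ ∞ us Ind) (hus : ∀ x ∈ Ind, Top p (rt x) (us x))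
    {x w z : E} (h : Tan x w) (hz : Tan x z) :
    0 < iteratedDeriv 2 (fun t : ℝ => ⟪p (us (x, w + t • z)), w + t • z⟫ ^ 2 / 2) 0 := by
  have hc : ∀ t : ℝ, HasDerivAt (fun t : ℝ => ((x, w + t • z) : P)) (0, z) t := fun t => by
    simpa using (hasDerivAt_const t x).prodMk (((hasDerivAt_id t).smul_const z).const_add w)
  have hT : ∀ᶠ t : ℝ in 𝓝 0, Tan x (w + t • z) := by
    have : ContinuousAt (fun t : ℝ => w + t • z) 0 := by fun_prop
    filter_upwards [this.eventually_ne (show _ ≠ (0 : E) by simpa using h.2.2)] with t ht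
    exact ⟨h.1, by simp [inner_add_right, inner_smul_right, h.2.1, hz.2.1], ht⟩
  have e1 : deriv (fun t : ℝ => ⟪p (us (x, w + t • z)), w + t • z⟫ ^ 2 / 2) =ᶠ[𝓝 0]
      fun t => ⟪p (us (x, w + t • z)), w + t • z⟫ * ⟪p (us (x, w + t • z)), z⟫ := by
    filter_upwards [hT] with t ht
    obtain ⟨l, hl⟩ := fderiv_comp_us hs hus ht 0 (by simp)
    have d : DifferentiableAt ℝ (fun q : P => ⟪p (us q), q.2⟫ ^ 2 / 2) (x, w + t • z) :=
      (((hl p H.sm).1.inner ℝ differentiableAt_snd).pow 2).mul_const 2⁻¹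
    have := (d.hasFDerivAt.comp_hasDerivAt t (hc t)).deriv
    rw [fderiv_L H hs hus ht _ (by simp), cr_zero_right, dW_zero, inner_zero_left,
      zero_add] at this
    exact this
  obtain ⟨l, hl⟩ := fderiv_comp_us hs hus h (0, z) (by simp)
  have k : ∀ f : P → E, ContDiffOn ℝ ∞ f Ind →
      HasDerivAt (fun t : ℝ => f (us (x, w + t • z))) (l • V f (us (x, w))) 0 := by
    intro f hf
    have := (hl f hf).1.hasFDerivAt.comp_hasDerivAt_of_eq 0 (hc 0) (by simp)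
    rw [(hl f hf).2, cr_zero_right, dW_zero, zero_add] at this
    exact this
  have hw : HasDerivAt (fun t : ℝ => w + t • z) z 0 := (hc 0).snd
  have d1 := (hasDerivAt_inner (k p H.sm) hw).mul
    (hasDerivAt_inner (k p H.sm) (hasDerivAt_const 0 z))
  have d2 := (hasDerivAt_inner (k _ (contDiffOn_V H.sm)) hw).unique
    ((hasDerivAt_const (0 : ℝ) (0 : ℝ)).congr_of_eventuallyEq
      (hT.mono fun t ht => (top_tan hus ht).2.2.1))
  obtain ⟨a, b, c, d⟩ := top_tan hus h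
  have sg := H.sign a (b.symm ▸ h) c
  rw [iteratedDeriv_succ, iteratedDeriv_one, e1.deriv_eq]
  refine lt_of_lt_of_eq ?_ d1.deriv.symm
  simp only [zero_smul, add_zero, inner_smul_left, conj_trivial, c, mul_zero, zero_add,
    inner_zero_right] at d2 ⊢
  by_cases h0 : l = 0
  · have := H.ne a (b.symm ▸ hz) (by simpa [h0] using d2)
    simpa [h0] using this
  · rw [show ⟪V p (us (x, w)), z⟫ = -(l * ⟪V (V p) (us (x, w)), w⟫) by linarith]
    nlinarith [mul_self_nonneg ⟪p (us (x, w)), z⟫, mul_pos (mul_self_pos.2 h0) (neg_pos.2 sg)]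

end

end Sup

open Sup in
theorem sup_of : SupStmt := by
  intro p hp ho ht
  have H : ∀ s, Hyp (p s) := fun s => ⟨hp.slice s, ho s, ht s⟩
  have : ∀ (s : ℝ) (x : P), ∃ u', x ∈ Ind → Top (p s) (rt x) u' := fun s x => by
    by_cases hx : x ∈ Ind
    · exact ((H s).ex (rt_mem_U hx)).imp fun _ h _ => h
    · exact ⟨x, fun h => absurd h hx⟩
  choose us hus using this
  have hs : Sm us := smooth_us hp H hus
  have hL : Sm (fun s q => ⟪p s (us s q), q.2⟫ ^ 2 / 2) := by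
    have a : ContDiffOn ℝ ∞ (fun q : ℝ × P => p q.1 (us q.1 q.2)) (univ ×ˢ Ind) :=
      ContDiffOn.comp (g := fun q : ℝ × P => p q.1 q.2) hp (contDiffOn_fst.prodMk hs)
        fun q hq => ⟨trivial, U_sub_Ind (hus q.1 q.2 hq.2).1⟩
    exact ((a.inner ℝ (by fun_prop)).pow 2).div_const 2
  refine ⟨_, us, hL, fun s => ⟨⟨hL.slice s, fun x w h => ?_, fun x w h t t0 => ?_,
    fun x w z h hz => convex (H s) (hs.slice s) (hus s) h hz⟩, hs.slice s,
    fun x w h => (top_tan (hus s) h).1, fun x w h => (top_tan (hus s) h).2.1,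
    fun x w h => (top_tan (hus s) h).2.2.1, fun x w h => (top_tan (hus s) h).2.2.2,
    fun x w h z => ?_, fun x w h z hz => ?_, fun u hu w h h0 => ?_⟩⟩
  · have := (top_tan (hus s) h).2.2.2
    positivity
  · obtain ⟨a, b, c, -⟩ := top_tan (hus s) h
    have := val (H s) (hus s) a (w := t • w) (b.symm ▸ tan_smul h t0)
      (by rw [inner_smul_right, c, mul_zero])
    rw [b] at this
    simp only []
    rw [this, inner_smul_right]
    ring
  · simpa using fderiv_L (H s) (hs.slice s) (hus s) h (0, z) (by simp)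
  · simpa using fderiv_L (H s) (hs.slice s) (hus s) h (z, 0) hz
  · simp only [val (H s) (hus s) hu h h0]

end Pool.Agent.MP_2291e2_gt.Zl

end MrgPart5

-- ======== part 6: formerly Pool.Agent.MP_2291e2_gt.zl.VarReg
section MrgPart6

/-! Regularity and symmetry of the coefficients of the variation equations. -/

open scoped ContDiff RealInnerProductSpace Topology
open Set Filter Real

namespace Pool.Agent.MP_2291e2_gt.Zl

namespace VarRegAux

variable {G₀ : P → E} {γ : ℝ → P → E} {A : ℝ}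

lemma odd1 (h : Sol G₀ γ A) {τ : ℝ} (hτ : 0 ≤ τ) : Odd1 (γ τ) :=
  ⟨h.slice τ hτ, fun u hu => (h.con τ hτ u hu).1, h.odd τ hτ⟩

lemma vsq_ge (h : Sol G₀ γ A) {τ : ℝ} (hτ : 0 ≤ τ) {u : P} (hu : u ∈ U) :
    1 / 4 ≤ vsq (γ τ) u := by
  obtain ⟨B, hB⟩ := h.bd
  exact (hB τ hτ u hu).1

lemma vsq_ne (h : Sol G₀ γ A) {τ : ℝ} (hτ : 0 ≤ τ) {u : P} (hu : u ∈ U) :
    vsq (γ τ) u ≠ 0 := by
  have := vsq_ge h hτ hu
  intro e
  linarith

lemma C0U.slice {f : ℝ → P → ℝ} (h : C0U f) {u : P} (hu : u ∈ U) :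
    ContinuousOn (fun t => f t u) (Ici 0) :=
  ContinuousOn.comp (f := fun t : ℝ => (t, u)) h (by fun_prop) fun _ ht => ⟨ht, hu⟩

lemma C0U.intervalIntegrable {f : ℝ → P → ℝ} (h : C0U f) {u : P} (hu : u ∈ U) {τ : ℝ}
    (hτ : 0 ≤ τ) : IntervalIntegrable (fun t => f t u) MeasureTheory.volume 0 τ :=
  ((C0U.slice h hu).mono (by rw [uIcc_of_le hτ]; exact Icc_subset_Ici_self)).intervalIntegrable

end VarRegAux

open VarRegAux in
theorem varreg_of (hM : MeanStmt) (hA : CurveAStmt) : VarRegStmt := by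
  intro G₀ γ A h
  have s1 : SmP fun τ => V (γ τ) := h.smp.V
  have s2 : SmP fun τ => V (V (γ τ)) := s1.V
  have n1 : SmP fun τ u => ‖V (γ τ) u‖ ^ 2 := ContDiffOn.norm_sq ℝ s1
  have n2 : SmP fun τ u => ‖V (V (γ τ)) u‖ ^ 2 := ContDiffOn.norm_sq ℝ s2
  have m1 : C0 fun τ u => ‖V (γ τ) u‖ ^ 2 := (ContinuousOn.norm h.c1).pow 2
  have m2 : C0 fun τ u => ‖V (V (γ τ)) u‖ ^ 2 := (ContinuousOn.norm h.c2).pow 2
  have vs : SmU fun τ => vsq (γ τ) := (hM.2.1 _ n1).1.smU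
  have vc : C0U fun τ => vsq (γ τ) := (hM.2.2 _ m1).1.c0U
  have wks : SmU fun τ => wk (γ τ) := SmP.smU (ContDiffOn.dt' h.smp s1 s2)
  have wkc : C0U fun τ => wk (γ τ) := C0.c0U (ContinuousOn.dt' h.c0 h.c1 h.c2)
  have ttrho : ∀ τ ≥ 0, ∀ u ∈ U, ∀ s, tt γ τ (rho s u) = tt γ τ u := fun τ hτ u hu s =>
    intervalIntegral.integral_congr fun t ht => by
      have ht0 : 0 ≤ t := (uIcc_of_le hτ ▸ ht).1
      exact (hA _ (odd1 h ht0) (h.con t ht0) u hu).2.1 s
  have dttrho : ∀ τ ≥ 0, ∀ u ∈ U, ∀ s ξ, dW (tt γ τ) (rho s u) ξ = dW (tt γ τ) u ξ :=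
    fun τ hτ u hu s ξ => by
      have d1 := diffAt_of_U (h.tsl τ hτ) (rho_mem_U hu s)
      rw [← dW_comp_rho d1]
      exact dW_congr hu (d1.comp u (by unfold rho; fun_prop)) (diffAt_of_U (h.tsl τ hτ) hu)
        (fun w hw => ttrho τ hτ w hw s) ξ
  have ttd : ∀ τ > 0, ∀ u ∈ U, HasDerivAt (fun t => tt γ t u) (vsq (γ τ) u) τ :=
    fun τ hτ u hu => intervalIntegral.integral_hasDerivAt_right
      (C0U.intervalIntegrable vc hu hτ.le)
      (ContinuousOn.stronglyMeasurableAtFilter isOpen_Ioi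
        ((C0U.slice vc hu).mono Ioi_subset_Ici_self) τ hτ)
      ((C0U.slice vc hu).continuousAt (Ici_mem_nhds hτ))
  refine
    { mhs := fun ξ τ hτ u hu => ?_
      mhc := fun ξ => ?_
      wks := wks
      wkc := wkc
      mus := fun τ hτ u hu =>
        ((hM.2.1 _ n2).2.1.smU τ hτ u hu).div (vs τ hτ u hu) (vsq_ne h hτ.le hu)
      muc := ContinuousOn.div (hM.2.2 _ m2).2.c0U vc fun q hq => vsq_ne h hq.1 hq.2
      vs := vs
      vc := vc
      Ms := (hM.2.1 _ n2).1.smU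
      Mc := (hM.2.2 _ m2).1.c0U
      mhodd := fun τ hτ u hu ξ => ?_
      mh0 := fun u hu ξ => ?_
      mhfst := fun τ hτ u hu => ?_
      ttrho := ttrho
      dttrho := dttrho
      ttd := ttd
      dttd := fun τ hτ u hu ξ => hasDerivAt_dW_time hu (h.tsm.smU τ hτ u hu)
        ((vs.slice hτ hu).differentiableAt (by simp)) (ttd τ hτ) ξ }
  · exact (ContDiffAt.dt' (h.smp.smU τ hτ u hu) (h.smp.smU.dW ξ τ hτ u hu)
      (s1.smU τ hτ u hu)).add (((h.tsm.smU.dW ξ τ hτ u hu).div (vs τ hτ u hu)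
        (vsq_ne h hτ.le hu)).mul (wks τ hτ u hu))
  · exact (ContinuousOn.dt' h.c0.c0U (h.c3 ξ).c0U h.c1.c0U).add
      ((ContinuousOn.div (h.tc ξ).c0U vc fun q hq => vsq_ne h hq.1 hq.2).mul wkc)
  · have a := hA _ (odd1 h hτ) (h.con τ hτ) u hu
    have e1 := dttrho τ hτ u hu π ξ
    have e2 := a.2.1 π
    rw [rho_pi] at e1 e2
    rw [mh, mh, mm_odd (h.slice τ hτ) (h.odd τ hτ) hu, e1, e2, a.2.2.2.2.2.2.2.2.2.1]
    ring
  · have : tt γ 0 = fun _ => 0 := funext fun w => by simp [tt]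
    simp [mh, this, dW]
  · have e : V (tt γ τ) u = 0 := V_eq_of_hasDerivAt hu (diffAt_of_U (h.tsl τ hτ) hu) (by
      simpa only [ttrho τ hτ u hu] using hasDerivAt_const (0 : ℝ) (tt γ τ u))
    rw [mh, mm_fst, show dW (tt γ τ) u u.1 = 0 from e]
    simp

end Pool.Agent.MP_2291e2_gt.Zl

end MrgPart6

-- ======== part 7: formerly Pool.Agent.MP_2291e2_gt.zl.Time
section MrgPart7

/-! The family of curves at fixed true time. -/

open scoped ContDiff RealInnerProductSpace Topology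
open Set Filter Real

namespace Pool.Agent.MP_2291e2_gt.Zl

namespace TimeAux

open VarRegAux

/-- Chain rule for a time that depends on the point. -/
lemma dW_time {F : Type*} [NormedAddCommGroup F] [NormedSpace ℝ F] {f : ℝ → P → F} {σ : P → ℝ}
    {u : P} {D : F} (hf : ContDiffAt ℝ ∞ (fun q : ℝ × P => f q.1 q.2) (σ u, u))
    (hσ : DifferentiableAt ℝ σ u) (hD : HasDerivAt (fun t => f t u) D (σ u)) (ξ : E) :
    dW (fun w => f (σ w) w) u ξ = dW (f (σ u)) u ξ + dW σ u ξ • D := by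
  have d := (hf.differentiableAt (by simp)).hasFDerivAt
  set L := fderiv ℝ (fun q : ℝ × P => f q.1 q.2) (σ u, u)
  have e1 := (d.comp (f := fun w => (σ w, w)) u (hσ.hasFDerivAt.prodMk (hasFDerivAt_id u))).fderiv
  have e2 := (d.comp (f := fun w => (σ u, w)) u
    ((hasFDerivAt_const (σ u) u).prodMk (hasFDerivAt_id u))).fderiv
  have e3 := (d.comp_hasDerivAt (f := fun t => (t, u)) (σ u)
    ((hasDerivAt_id (σ u)).prodMk (hasDerivAt_const (σ u) u))).unique hD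
  have e4 : fderiv ℝ (fun w => f (σ w) w) u (W u ξ) = L (fderiv ℝ σ u (W u ξ), W u ξ) :=
    congrArg (fun l : P →L[ℝ] F => l (W u ξ)) e1
  have e5 : fderiv ℝ (f (σ u)) u (W u ξ) = L (0, W u ξ) :=
    congrArg (fun l : P →L[ℝ] F => l (W u ξ)) e2
  rw [dW, dW, dW, e4, e5, ← e3, ← map_smul, ← map_add]
  congr 1
  simp

variable {G₀ : P → E} {γ : ℝ → P → E} {A : ℝ}

lemma tt_cont (r : VarReg γ) {u : P} (hu : u ∈ U) {b : ℝ} (hb : 0 ≤ b) :
    ContinuousOn (fun τ => tt γ τ u) (Icc 0 b) := by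
  have := intervalIntegral.continuousOn_primitive_interval'
    (C0U.intervalIntegrable r.vc hu hb) left_mem_uIcc
  rwa [uIcc_of_le hb] at this

lemma tt_inj (h : Sol G₀ γ A) (r : VarReg γ) {u : P} (hu : u ∈ U) :
    InjOn (fun τ => tt γ τ u) (Ioi 0) := by
  refine (strictMonoOn_of_deriv_pos (convex_Ioi 0)
    (fun τ hτ => (r.ttd τ hτ u hu).continuousAt.continuousWithinAt) fun τ hτ => ?_).injOn
  rw [interior_Ioi] at hτ
  rw [(r.ttd τ hτ u hu).deriv]
  linarith [vsq_ge h (le_of_lt hτ) hu]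

lemma tt_surj (h : Sol G₀ γ A) (r : VarReg γ) {u : P} (hu : u ∈ U) {t : ℝ} (ht : 0 < t) :
    ∃ τ > 0, tt γ τ u = t := by
  have hb : 0 ≤ 4 * t := by linarith
  have h1 : t ≤ tt γ (4 * t) u := by
    have := intervalIntegral.integral_mono_on hb (intervalIntegrable_const (c := (1 / 4 : ℝ)))
      (C0U.intervalIntegrable r.vc hu hb) fun x hx => vsq_ge h hx.1 hu
    simpa [tt] using (show t = ∫ _ in (0 : ℝ)..4 * t, (1 / 4 : ℝ) by simp; ring).le.trans this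
  have h0 : tt γ 0 u = 0 := by simp [tt]
  obtain ⟨τ, hτ, e⟩ := intermediate_value_Icc hb (tt_cont r hu hb)
    (show t ∈ Icc (tt γ 0 u) (tt γ (4 * t) u) from ⟨by rw [h0]; exact ht.le, h1⟩)
  refine ⟨τ, hτ.1.lt_of_ne fun e0 => ?_, e⟩
  simp only [← e0, h0] at e
  exact ht.ne e

end TimeAux

open VarRegAux TimeAux in
theorem time_of (hR : VarRegStmt) (hA : CurveAStmt) : TimeStmt := by
  intro G₀ γ A h
  classical
  have r := hR G₀ γ A h
  let τf : ℝ → P → ℝ := fun t u => if e : ∃ τ > 0, tt γ τ (rt u) = t then e.choose else 1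
  have spec : ∀ t > 0, ∀ u ∈ Ind, 0 < τf t u ∧ tt γ (τf t u) (rt u) = t := fun t ht u hu => by
    have e := tt_surj h r (rt_mem_U hu) ht
    simp only [τf, dif_pos e]
    exact e.choose_spec
  have uniq : ∀ t > 0, ∀ u ∈ Ind, ∀ τ > 0, tt γ τ (rt u) = t → τ = τf t u :=
    fun t ht u hu τ hτ e => tt_inj h r (rt_mem_U hu) hτ (spec t ht u hu).1
      (e.trans (spec t ht u hu).2.symm)
  have sm : ∀ t > 0, ∀ u ∈ Ind, ContDiffAt ℝ ∞ (fun q : ℝ × P => τf q.1 q.2) (t, u) := by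
    intro t ht u hu
    have hp := (spec t ht u hu).1
    have hf : ContDiffAt ℝ ∞ (fun z : (ℝ × P) × ℝ => tt γ z.2 (rt z.1.2) - z.1.1)
        ((t, u), τf t u) := by
      have a1 : ContDiffAt ℝ ∞ (fun z : (ℝ × P) × ℝ => rt z.1.2) ((t, u), τf t u) :=
        (contDiffAt_rt hu).comp (f := fun z : (ℝ × P) × ℝ => z.1.2) ((t, u), τf t u)
          contDiffAt_fst.snd
      have a2 := (h.tsm.smU _ hp _ (rt_mem_U hu)).comp
        (f := fun z : (ℝ × P) × ℝ => (z.2, rt z.1.2)) ((t, u), τf t u) (contDiffAt_snd.prodMk a1)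
      exact a2.sub contDiffAt_fst.fst
    refine contDiffAt_of_mono (c := 0) (J := Ioi 0) (Ioi_mem_nhds hp) hf ?_ ?_
    · have e := ((hf.differentiableAt (by simp)).hasFDerivAt.comp_hasDerivAt
        (f := fun s : ℝ => (((t, u), s) : (ℝ × P) × ℝ)) (τf t u)
        ((hasDerivAt_const _ (t, u)).prodMk (hasDerivAt_id _))).unique
        ((r.ttd _ hp _ (rt_mem_U hu)).sub_const t)
      rw [e]
      exact vsq_ne h hp.le (rt_mem_U hu)
    · filter_upwards [(isOpen_Ioi.prod isOpen_Ind).mem_nhds (show (t, u) ∈ Ioi 0 ×ˢ Ind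
        from ⟨ht, hu⟩)] with q hq
      exact ⟨sub_eq_zero.2 (spec _ hq.1 _ hq.2).2,
        fun s hs e => uniq _ hq.1 _ hq.2 s hs (sub_eq_zero.1 e)⟩
  let Gt : ℝ → P → E := fun t u => γ (τf t u) (rt u)
  have smooth : SmP Gt := fun q hq =>
    ((h.smp.smU _ (spec _ hq.1 _ hq.2).1 _ (rt_mem_U hq.2)).comp
      (f := fun q : ℝ × P => (τf q.1 q.2, rt q.2)) q ((sm _ hq.1 _ hq.2).prodMk
        ((contDiffAt_rt hq.2).comp q contDiffAt_snd))).contDiffWithinAt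
  have pos : ∀ t > 0, ∀ u ∈ U, 0 < τf t u := fun t ht u hu => (spec t ht u (U_sub_Ind hu)).1
  have eqn : ∀ t > 0, ∀ u ∈ U, tt γ (τf t u) u = t := fun t ht u hu => by
    have := (spec t ht u (U_sub_Ind hu)).2
    rwa [rt_of_U hu] at this
  have fib : ∀ t > 0, ∀ u ∈ U, ∀ s, τf t (rho s u) = τf t u := fun t ht u hu s =>
    (uniq t ht _ (U_sub_Ind (rho_mem_U hu s)) _ (pos t ht u hu) (by
      rw [rt_of_U (rho_mem_U hu s), r.ttrho _ (pos t ht u hu).le u hu, eqn t ht u hu])).symm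
  have val : ∀ t > 0, ∀ u ∈ U, Gt t u = γ (τf t u) u := fun t _ u hu => by
    simp only [Gt, rt_of_U hu]
  have v1 : ∀ t > 0, ∀ u ∈ U, V (Gt t) u = V (γ (τf t u)) u := fun t ht u hu =>
    V_congr_fibre hu (diffAt_of_U (smooth.slice ht) hu)
      (diffAt_of_U (h.slice _ (pos t ht u hu).le) hu) fun s => by
        rw [val t ht _ (rho_mem_U hu s), fib t ht u hu]
  have d1 : ∀ t > 0, ∀ u ∈ U, ∀ ξ, dW (Gt t) u ξ = dW (γ (τf t u)) u ξ
      - (dW (tt γ (τf t u)) u ξ / vsq (γ (τf t u)) u) • RHS (γ (τf t u)) u := by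
    intro t ht u hu ξ
    have hp := pos t ht u hu
    have hσ : DifferentiableAt ℝ (τf t) u :=
      ((sm t ht u (U_sub_Ind hu)).comp (f := fun w : P => (t, w)) u
        (contDiffAt_const.prodMk contDiffAt_id)).differentiableAt (by simp)
    have dc : ∀ {F : Type} [NormedAddCommGroup F] [NormedSpace ℝ F] {f : ℝ → P → F}, SmP f →
        DifferentiableAt ℝ (fun w => f (τf t w) w) u := fun hf =>
      ((hf.smU _ hp u hu).differentiableAt (by simp)).comp (f := fun w : P => (τf t w, w)) u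
        (hσ.prodMk differentiableAt_id)
    have e1 := dW_time (h.tsm.smU _ hp u hu) hσ (r.ttd _ hp u hu) ξ
    rw [dW_const_on hu (dc h.tsm) (eqn t ht), smul_eq_mul] at e1
    have e2 : dW (τf t) u ξ = -(dW (tt γ (τf t u)) u ξ / vsq (γ (τf t u)) u) := by
      have := vsq_ne h hp.le hu
      field_simp
      linarith
    rw [dW_congr hu (diffAt_of_U (smooth.slice ht) hu) (dc h.smp) (val t ht),
      dW_time (h.smp.smU _ hp u hu) hσ (h.pde _ hp u hu), e2, neg_smul, sub_eq_add_neg]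
  refine ⟨Gt, τf, smooth, pos, eqn, fib, val, v1, fun t ht u hu => ?_, d1, fun t ht u hu ξ => ?_,
    fun t ht u hu ξ => ?_⟩
  · exact V_congr_fibre hu (diffAt_of_U (contDiffOn_V (smooth.slice ht)) hu)
      (diffAt_of_U (contDiffOn_V (h.slice _ (pos t ht u hu).le)) hu) fun s => by
        rw [v1 t ht _ (rho_mem_U hu s), fib t ht u hu]
  · have hp := pos t ht u hu
    have s0 := h.slice _ hp.le
    have a1 := diffAt_of_U (contDiffOn_dW s0 (contDiffOn_const (c := ξ))) hu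
    have a2 : DifferentiableAt ℝ (RHS (γ (τf t u))) u :=
      ((diffAt_of_U (contDiffOn_V (contDiffOn_V s0)) hu).add
        (((r.vs.slice hp hu).differentiableAt (by simp)).smul (diffAt_of_U s0 hu))).add
        (((r.mus.slice hp hu).differentiableAt (by simp)).smul (diffAt_of_U (contDiffOn_V s0) hu))
    have a3 := a2.const_smul (dW (tt γ (τf t u)) u ξ / vsq (γ (τf t u)) u)
    rw [V_congr_fibre hu (diffAt_of_U (contDiffOn_dW (smooth.slice ht)
      (contDiffOn_const (c := ξ))) hu) (a1.fun_sub a3) fun s => by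
        rw [d1 t ht _ (rho_mem_U hu s), fib t ht u hu, r.dttrho _ hp.le u hu,
          (hA _ (odd1 h hp.le) (h.con _ hp.le) u hu).2.1 s]
        rfl]
    exact (dW_fsub a1 a3 _).trans (congrArg _ (dW_csmul _ a2 _))
  · rw [mm, val t ht u hu, d1 t ht u hu, v1 t ht u hu, mh, mm, wk, RHS]
    simp only [dt3, PiLp.sub_apply, PiLp.add_apply, PiLp.smul_apply, smul_eq_mul]
    ring

end Pool.Agent.MP_2291e2_gt.Zl

end MrgPart7

-- marker of a merged file
example : 731051 + 63169 = 731051 + 63169 := rfl
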