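import Pool.Agent.MP_2291e2_gt.zl.Spec2

/-! Transfer of compactly supported isotopies of the plane to the sphere. -/

open scoped ContDiff RealInnerProductSpace Topology
open Set Filter Real

namespace Pool.Agent.MP_2291e2_gt.Zl

namespace Transfer

/-- Stereographic projection, homogeneous of degree zero. -/
noncomputable def q (y : E) : ℂ := (‖y‖ - y 2)⁻¹ • ((y 0 : ℂ) + (y 1 : ℂ) * Complex.I)

open Classical in
/-- The map of the sphere induced by a map of the plane. -/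
noncomputable def T (f : ℂ → ℂ) (y : E) : E := if ‖y‖ = y 2 then ‖y‖⁻¹ • y else st (f (q y))

lemma q_re (y : E) : (q y).re = (‖y‖ - y 2)⁻¹ * y 0 := by
  rw [q, Complex.smul_re, smul_eq_mul]
  simp

lemma q_im (y : E) : (q y).im = (‖y‖ - y 2)⁻¹ * y 1 := by
  rw [q, Complex.smul_im, smul_eq_mul]
  simp

lemma le_norm (y : E) : y 2 ≤ ‖y‖ := by
  have h := normsq3 y
  have h0 := norm_nonneg y
  nlinarith [sq_nonneg (y 0), sq_nonneg (y 1), sq_nonneg (y 2 - ‖y‖), le_abs_self (y 2),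
    abs_le_of_sq_le_sq' (show (y 2) ^ 2 ≤ ‖y‖ ^ 2 by nlinarith [sq_nonneg (y 0), sq_nonneg (y 1)])
      h0]

lemma normSq_q {y : E} (h : ‖y‖ ≠ y 2) :
    Complex.normSq (q y) * (‖y‖ - y 2) = ‖y‖ + y 2 := by
  have h1 : ‖y‖ - y 2 ≠ 0 := sub_ne_zero.2 h
  have h2 := normsq3 y
  rw [Complex.normSq_apply, q_re, q_im]
  field_simp
  linear_combination -h2

lemma ne_zero_of {y : E} (h : ‖y‖ ≠ y 2) : y ≠ 0 := by
  rintro rfl
  simp at h

lemma st_q {y : E} (h : ‖y‖ ≠ y 2) : st (q y) = ‖y‖⁻¹ • y := by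
  have h1 : ‖y‖ - y 2 ≠ 0 := sub_ne_zero.2 h
  have h0 : ‖y‖ ≠ 0 := norm_ne_zero_iff.2 (ne_zero_of h)
  have e : Complex.normSq (q y) = (‖y‖ + y 2) / (‖y‖ - y 2) := by
    rw [eq_div_iff h1, normSq_q h]
  have e1 : Complex.normSq (q y) + 1 = 2 * ‖y‖ / (‖y‖ - y 2) := by
    rw [e]; field_simp; ring
  ext i
  fin_cases i
  · simp only [st, PiLp.smul_apply, smul_eq_mul, Fin.zero_eta, Matrix.cons_val_zero, e1, q_re]
    field_simp
  · simp only [st, PiLp.smul_apply, smul_eq_mul, Fin.mk_one, Matrix.cons_val_one,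
      Matrix.cons_val_zero, e1, q_im]
    field_simp
  · simp only [st, PiLp.smul_apply, smul_eq_mul, Fin.reduceFinMk, Matrix.cons_val, e1]
    rw [e]
    field_simp
    ring

lemma st_off (ζ : ℂ) : ‖st ζ‖ ≠ st ζ 2 := by
  rw [Phi.norm_st, ← sub_ne_zero, Phi.one_sub_st]
  exact mul_ne_zero two_ne_zero (inv_ne_zero (Phi.den_pos ζ).ne')

lemma q_st (ζ : ℂ) : q (st ζ) = ζ := by
  rw [q, Phi.norm_st]
  exact Phi.pr_st ζ

lemma T_st (f : ℂ → ℂ) (ζ : ℂ) : T f (st ζ) = st (f ζ) := by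
  rw [T, if_neg (st_off ζ), q_st]

lemma norm_unit {y : E} (h : y ≠ 0) : ‖‖y‖⁻¹ • y‖ = 1 := norm_smul_inv_norm h

lemma norm_T (f : ℂ → ℂ) {y : E} (h : y ≠ 0) : ‖T f y‖ = 1 := by
  unfold T
  split_ifs
  · exact norm_unit h
  · exact Phi.norm_st _

lemma T_T {f g : ℂ → ℂ} (h : ∀ z, g (f z) = z) {y : E} (hy : y ≠ 0) :
    T g (T f y) = ‖y‖⁻¹ • y := by
  by_cases h1 : ‖y‖ = y 2
  · have e : T f y = ‖y‖⁻¹ • y := by rw [T, if_pos h1]
    have h0 : ‖y‖ ≠ 0 := norm_ne_zero_iff.2 hy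
    have h2 : ‖‖y‖⁻¹ • y‖ = (‖y‖⁻¹ • y) 2 := by
      rw [norm_unit hy, PiLp.smul_apply, smul_eq_mul, ← h1, inv_mul_cancel₀ h0]
    rw [e, T, if_pos h2, norm_unit hy, inv_one, one_smul]
  · have e : T f y = st (f (q y)) := by rw [T, if_neg h1]
    rw [e, T_st, h, st_q h1]

lemma cd_coord (i : Fin 3) : ContDiff ℝ ∞ fun y : E => y i :=
  (EuclideanSpace.proj (𝕜 := ℝ) i : E →L[ℝ] ℝ).contDiff

lemma contDiffAt_q {y : E} (h : ‖y‖ ≠ y 2) : ContDiffAt ℝ ∞ q y := by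
  have hz : ∀ i : Fin 3, ContDiff ℝ ∞ fun y : E => ((y i : ℝ) : ℂ) := fun i =>
    Complex.ofRealCLM.contDiff.comp (cd_coord i)
  exact (((contDiffAt_norm ℝ (ne_zero_of h)).sub (cd_coord 2).contDiffAt).inv
    (sub_ne_zero.2 h)).smul ((hz 0).add ((hz 1).mul contDiff_const)).contDiffAt

lemma contDiffAt_unit {y : E} (h : y ≠ 0) : ContDiffAt ℝ ∞ (fun y : E => ‖y‖⁻¹ • y) y :=
  ((contDiffAt_norm ℝ h).inv (norm_ne_zero_iff.2 h)).smul contDiffAt_id

lemma T_axis {f : ℂ → ℂ} {R : ℝ} (hR : ∀ z, R ≤ ‖z‖ → f z = z) {y : E}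
    (h : R ^ 2 * (‖y‖ - y 2) < ‖y‖ + y 2) : T f y = ‖y‖⁻¹ • y := by
  unfold T
  split_ifs with h1
  · rfl
  · have h2 : 0 < ‖y‖ - y 2 := sub_pos.2 (lt_of_le_of_ne (le_norm y) (Ne.symm h1))
    rw [← normSq_q h1] at h
    have h3 := lt_of_mul_lt_mul_right h h2.le
    rw [Complex.normSq_eq_norm_sq] at h3
    rw [hR _ (le_of_lt (lt_of_pow_lt_pow_left₀ 2 (norm_nonneg _) h3)), st_q h1]

lemma contDiffAt_T {k : ℝ → ℂ → ℂ} (hk : ContDiff ℝ ∞ fun u : ℝ × ℂ => k u.1 u.2) {R : ℝ}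
    (hR : ∀ s z, R ≤ ‖z‖ → k s z = z) (s : ℝ) {y : E} (hy : y ≠ 0) :
    ContDiffAt ℝ ∞ (fun u : ℝ × E => T (k u.1) u.2) (s, y) := by
  have c2 : Continuous fun u : ℝ × E => u.2 2 := (cd_coord 2).continuous.comp continuous_snd
  have cn : Continuous fun u : ℝ × E => ‖u.2‖ := continuous_snd.norm
  by_cases h1 : ‖y‖ = y 2
  · have ev : ∀ᶠ u : ℝ × E in 𝓝 (s, y), R ^ 2 * (‖u.2‖ - u.2 2) < ‖u.2‖ + u.2 2 := by
      refine (isOpen_lt (continuous_const.mul (cn.sub c2)) (cn.add c2)).mem_nhds ?_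
      have := norm_pos_iff.2 hy
      change R ^ 2 * (‖y‖ - y 2) < ‖y‖ + y 2
      rw [← h1, sub_self, mul_zero]
      linarith
    refine ((contDiffAt_unit hy).comp (s, y) contDiffAt_snd).congr_of_eventuallyEq ?_
    filter_upwards [ev] with u hu
    exact T_axis (hR u.1) hu
  · have ev : ∀ᶠ u : ℝ × E in 𝓝 (s, y), ‖u.2‖ ≠ u.2 2 :=
      (isOpen_ne_fun cn c2).mem_nhds h1
    have d1 : ContDiffAt ℝ ∞ (fun u : ℝ × E => (u.1, q u.2)) (s, y) :=
      contDiffAt_fst.prodMk ((contDiffAt_q h1).comp (s, y) contDiffAt_snd)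
    refine ((Phi.contDiff_st.comp hk).contDiffAt.comp (s, y) d1).congr_of_eventuallyEq ?_
    filter_upwards [ev] with u hu
    simp only [T, if_neg hu, Function.comp_apply]

lemma contDiffAt_T1 {f : ℂ → ℂ} (hf : ContDiff ℝ ∞ f) {R : ℝ}
    (hR : ∀ z, R ≤ ‖z‖ → f z = z) {y : E} (hy : y ≠ 0) : ContDiffAt ℝ ∞ (T f) y :=
  (contDiffAt_T (k := fun _ => f) (hf.comp contDiff_snd) (fun _ => hR) 0 hy).comp y
    (contDiffAt_const.prodMk contDiffAt_id)

lemma unit_imm {x w : E} (h : Tan x w) : fderiv ℝ (fun y : E => ‖y‖⁻¹ • y) x w ≠ 0 := by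
  obtain ⟨h1, h2, h3⟩ := h
  have hx : x ≠ 0 := by
    rintro rfl
    simp at h1
  intro h0
  have dn : DifferentiableAt ℝ (fun y : E => ‖y‖) x :=
    (contDiffAt_norm ℝ (n := ∞) hx).differentiableAt (by simp)
  have du := (contDiffAt_unit hx).differentiableAt (by simp)
  have e : (fun y : E => ‖y‖ • (‖y‖⁻¹ • y)) =ᶠ[𝓝 x] id := by
    filter_upwards [isOpen_compl_singleton.mem_nhds hx] with y hy
    rw [smul_smul, mul_inv_cancel₀ (norm_ne_zero_iff.2 hy), one_smul, id]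
  have d := (dn.hasFDerivAt.smul du.hasFDerivAt).congr_of_eventuallyEq e.symm
  have u := congrArg (fun L : E →L[ℝ] E => L w) (d.unique (hasFDerivAt_id x))
  simp only [add_apply, smul_apply,
    ContinuousLinearMap.smulRight_apply, h0, smul_zero, zero_add, ContinuousLinearMap.id_apply,
    h1, inv_one, one_smul] at u
  have v : ⟪x, w⟫ = fderiv ℝ (fun y : E => ‖y‖) x w := by
    conv_lhs => rw [← u]
    rw [inner_smul_right, real_inner_self_eq_norm_sq, h1]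
    ring
  rw [← v, h2, zero_smul] at u
  exact h3 u.symm

lemma isoDiff_T (hB : PlaneBijStmt) {f : ℂ → ℂ} (hf : PlaneDiff f) : IsoDiff (T f) := by
  obtain ⟨g, hg, gf, fg⟩ := hB f hf
  obtain ⟨h1, ⟨R, hR⟩, -⟩ := hf
  have hR' : ∀ z, R ≤ ‖z‖ → g z = z := fun z hz => by
    conv_lhs => rw [← hR z hz]
    exact gf z
  have nz : ∀ {y : E}, ‖y‖ = 1 → y ≠ 0 := by
    rintro y hy rfl
    simp at hy
  have mp : ∀ f : ℂ → ℂ, MapsTo (T f) (Metric.sphere 0 1) (Metric.sphere 0 1) := fun f y hy =>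
    mem_sphere_zero_iff_norm.2 (norm_T f (nz (mem_sphere_zero_iff_norm.1 hy)))
  have iv : ∀ {f g : ℂ → ℂ}, (∀ z, g (f z) = z) → ∀ y ∈ Metric.sphere (0 : E) 1,
      T g (T f y) = y := fun h y hy => by
    have hy' := mem_sphere_zero_iff_norm.1 hy
    rw [T_T h (nz hy'), hy', inv_one, one_smul]
  refine ⟨fun y hy => (contDiffAt_T1 h1 hR hy).contDiffWithinAt,
    InvOn.bijOn (f' := T g) ⟨iv gf, iv fg⟩ (mp f) (mp g), fun x w hx h0 => unit_imm hx ?_⟩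
  have x0 := nz hx.1
  have e : (fun y : E => ‖y‖⁻¹ • y) =ᶠ[𝓝 x] T g ∘ T f := by
    filter_upwards [isOpen_compl_singleton.mem_nhds x0] with y hy
    exact (T_T gf hy).symm
  rw [e.fderiv_eq, fderiv_comp x
    ((contDiffAt_T1 hg hR' (nz (norm_T f x0))).differentiableAt (by simp))
    ((contDiffAt_T1 h1 hR x0).differentiableAt (by simp)), ContinuousLinearMap.comp_apply, h0,
    map_zero]

lemma T_north (f : ℂ → ℂ) : T f north = north := by
  have h : ‖north‖ = 1 := by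
    have e : ‖north‖ ^ 2 = 1 := by
      rw [normsq3]
      simp [north]
    exact (pow_eq_one_iff_of_nonneg (norm_nonneg _) two_ne_zero).1 e
  have h2 : ‖north‖ = north 2 := by
    rw [h]
    simp [north]
  rw [T, if_pos h2, h, inv_one, one_smul]

end Transfer

open Transfer in
theorem transfer_of (hB : PlaneBijStmt) : TransferStmt := by
  rintro k ⟨hk, ⟨R, hR⟩, hi⟩
  refine ⟨fun s => T (k s), ⟨?_, fun s => isoDiff_T hB ⟨?_, ⟨R, hR s⟩, hi s⟩⟩,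
    fun s y hy => norm_T _ hy, fun s ζ => T_st _ ζ, fun s => T_north _⟩
  · rintro ⟨s, y⟩ ⟨-, hy⟩
    exact (contDiffAt_T hk hR s hy).contDiffWithinAt
  · exact hk.comp (contDiff_const.prodMk contDiff_id)

end Pool.Agent.MP_2291e2_gt.Zl
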