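import Mathlib.Topology.Sheaves.Presheaf
import Mathlib.RingTheory.Finiteness.Prod
import Mathlib.RingTheory.Flat.TorsionFree
import Mathlib.Analysis.Convex.Contractible
import Mathlib.Analysis.Calculus.BumpFunction.FiniteDimension
import Mathlib.Analysis.Complex.BranchLogRoot
import Mathlib.Analysis.SpecialFunctions.Integrals.Basic
import Mathlib.Topology.Compactness.CompactlyGeneratedSpace
import Mathlib.Topology.MetricSpace.Contracting
import Mathlib.Analysis.Real.Pi.Bounds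
import Mathlib.RingTheory.PiTensorProduct
import Mathlib.RingTheory.SimpleRing.Principal
import Mathlib.Topology.UniformSpace.Uniformizable
import Pool.Agent.MP_2291e2_gt.zl.Spec2
import Pool.Agent.MP_2291e2_gt.zl.Spec

-- ======== part 0: formerly Pool.Agent.MP_2291e2_gt.zl.Main
section MrgPart0

/-! Assembly of the main theorem from the module statements. -/

open scoped ContDiff RealInnerProductSpace Topology
open Set Filter Real

namespace Pool.Agent.MP_2291e2_gt.Zl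

namespace Main

lemma base_deriv {φ : ℝ → P → P} {a b : P → ℝ} (h : PFlow φ a b) {u : P} (hu : u ∈ U) (t : ℝ) :
    HasDerivAt (fun t => (φ t u).1) (a (φ t u) • (φ t u).2) t := by
  have hw := h.maps t u hu
  have d : HasDerivAt (fun t => (φ t u).1) (W (φ t u) (xi a b (φ t u))).1 t :=
    (ContinuousLinearMap.fst ℝ E E).hasFDerivAt.comp_hasDerivAt t (h.ode u hu t)
  refine d.congr_deriv ?_
  simp [W, xi, cr_add_left, cr_smul_left, cr_cr_left, hw.1, inner_U21 hw]

lemma zflow {L : P → ℝ} {φ : ℝ → P → P} {a b : P → ℝ} {p : P → E} (h : GeoOut L φ a b p) {l : ℝ}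
    (hl : 0 < l) (hz : ∀ c, IsGeodesic L c → Function.Periodic c l ∧ InjOn c (Ico 0 l)) :
    ZFlow φ a b l := by
  refine ⟨h.flow, hl, fun u hu => ?_, fun u hu => (hz _ (h.geo u hu)).2⟩
  have hp := (hz _ (h.geo u hu)).1
  have e1 : (φ l u).1 = u.1 := by simpa [h.flow.zero] using hp 0
  have d1 := base_deriv h.flow hu l
  have d0 := base_deriv h.flow hu 0
  have d2 : HasDerivAt (fun t => (φ (t + l) u).1) (a (φ l u) • (φ l u).2) 0 :=
    HasDerivAt.comp_add_const (f := fun t => (φ t u).1) 0 l (by simpa using d1)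
  rw [show (fun t => (φ (t + l) u).1) = fun t => (φ t u).1 from funext hp] at d2
  have e2 := d2.unique d0
  rw [h.flow.zero] at e2
  have hw := h.flow.maps l u hu
  have p1 := h.flow.apos _ hw
  have p0 := h.flow.apos _ hu
  have e3 : a (φ l u) = a u := by
    have := congrArg norm e2
    simpa [norm_smul, hw.2.1, hu.2.1, abs_of_pos p1, abs_of_pos p0] using this
  rw [e3] at e2
  exact Prod.ext e1 (smul_right_injective E p0.ne' e2)

lemma tan_unit {x w : E} (h : Tan x w) : ((x, ‖w‖⁻¹ • w) : P) ∈ U :=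
  rt_tan h ▸ rt_mem_U h.mem_Ind

lemma val_eq {L : P → ℝ} {φ : ℝ → P → P} {a b : P → ℝ} {p : P → E} (hL : IsFinsler L)
    (h : GeoOut L φ a b p) {x w : E} (ht : Tan x w) :
    L (x, w) = (‖w‖ / a (x, ‖w‖⁻¹ • w)) ^ 2 / 2 ∧
      w = (‖w‖ / a (x, ‖w‖⁻¹ • w)) • a (x, ‖w‖⁻¹ • w) • ‖w‖⁻¹ • w := by
  have hu := tan_unit ht
  have pa := h.flow.apos _ hu
  have pw : 0 < ‖w‖ := norm_pos_iff.2 ht.2.2
  set c := a (x, ‖w‖⁻¹ • w)
  have e : w = (‖w‖ / c) • c • ‖w‖⁻¹ • w := by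
    rw [smul_smul, smul_smul, show ‖w‖ / c * c * ‖w‖⁻¹ = 1 by field_simp, one_smul]
  refine ⟨?_, e⟩
  have t2 : Tan x (c • ‖w‖⁻¹ • w) :=
    ⟨ht.1, by simp [inner_smul_right, ht.2.1], by simp [pa.ne', ht.2.2]⟩
  have := hL.hom x _ t2 (‖w‖ / c) (by positivity)
  rw [← e, h.unit _ hu] at this
  rw [this]; ring

lemma complete (hG : GeoStmt) {L : P → ℝ} (hL : IsFinsler L) : IsComplete L := by
  obtain ⟨φ, a, b, p, h⟩ := hG L hL
  intro x w ht h1
  have hu := tan_unit ht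
  obtain ⟨e1, e2⟩ := val_eq hL h ht
  have pa := h.flow.apos _ hu
  have pw : 0 < ‖w‖ := norm_pos_iff.2 ht.2.2
  have e3 : ‖w‖ / a (x, ‖w‖⁻¹ • w) = 1 :=
    (pow_left_inj₀ (by positivity) zero_le_one two_ne_zero).1 (by linarith)
  refine ⟨_, h.geo _ hu, by simp [h.flow.zero], ?_⟩
  rw [(base_deriv h.flow hu 0).deriv, h.flow.zero]
  rw [e3, one_smul] at e2
  exact e2.symm

lemma glue_hyp {φ : ℝ → P → P} {a b : P → ℝ} {T : ℝ} {u₀ : P} {κ : P → ℂ} (h : ZFlow φ a b T)
    (hu : u₀ ∈ U) (k : Pole φ a b T u₀ κ) :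
    ContDiff ℝ ∞ (fun z => κ (Ax φ u₀ z)) ∧
      (∀ x β, κ (Ax φ u₀ (x + T, β)) = κ (Ax φ u₀ (x, β))) ∧ (∀ x, κ (Ax φ u₀ (x, 0)) = 0) ∧
      ∀ x, fderiv ℝ (fun z => κ (Ax φ u₀ z)) (x, 0) (0, 1) = V κ (φ x u₀) := by
  have s : ContDiff ℝ ∞ (fun z => κ (Ax φ u₀ z)) :=
    k.smooth.comp (contDiff_rho.comp (contDiff_snd.prodMk
      (h.smooth.comp (contDiff_fst.prodMk contDiff_const))))
  refine ⟨s, fun x β => ?_, fun x => ?_, fun x => ?_⟩
  · simp only [Ax, h.add, h.per u₀ hu]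
  · simp [Ax, k.inv u₀ hu, k.zero]
  · have d := HasFDerivAt.comp_hasDerivAt (l := fun z => κ (Ax φ u₀ z)) (f := fun t => (x, t)) 0
      (s.differentiable (by simp) _).hasFDerivAt
      ((hasDerivAt_const 0 x).prodMk (hasDerivAt_id 0))
    exact (V_eq_of_hasDerivAt (h.maps x u₀ hu) (k.smooth.differentiable (by simp) _) d).symm

lemma str_congr {G G' p : P → E} {c : P → ℝ} (h : Str G p c) (hG : ContDiffOn ℝ ∞ G Ind)
    (hG' : ContDiffOn ℝ ∞ G' Ind) (e : ∀ u ∈ U, G' u = G u) : Str G' p c := by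
  intro u hu a b
  rw [h u hu a b, e u hu, dW_congr hu (diffAt_of_U hG' hu) (diffAt_of_U hG hu) e,
    dW_congr hu (diffAt_of_U hG' hu) (diffAt_of_U hG hu) e]

lemma str_comb {G p p' : P → E} {c c' : P → ℝ} (h : Str G p c) (h' : Str G p' c')
    (hp : ContDiffOn ℝ ∞ p Ind) (hp' : ContDiffOn ℝ ∞ p' Ind) (s t : ℝ) :
    Str G (fun u => s • p u + t • p' u) (fun u => s * c u + t * c' u) := by
  intro u hu a b
  have d := diffAt_of_U hp hu
  have d' := diffAt_of_U hp' hu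
  have k : ∀ ξ, dW (fun u => s • p u + t • p' u) u ξ = s • dW p u ξ + t • dW p' u ξ := fun ξ => by
    rw [dW_fadd (f := fun u => s • p u) (g := fun u => t • p' u) (d.const_smul s) (d'.const_smul t),
      dW_csmul s d, dW_csmul t d']
  simp only [k, inner_add_left, inner_smul_left, conj_trivial]
  linear_combination s * h u hu a b + t * h' u hu a b

lemma th_congr {G G' : P → E} (hG : ContDiffOn ℝ ∞ G Ind) (hG' : ContDiffOn ℝ ∞ G' Ind)
    (e : ∀ u ∈ U, G' u = G u) {u : P} (hu : u ∈ U) : Th G' u = Th G u := by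
  simp only [Th, e u hu, V_congr hu (diffAt_of_U hG' hu) (diffAt_of_U hG hu) e]

/-- The initial good family and its path to a family of great circles. -/
lemma path (hG : GeoStmt) (hFe : FermiStmt) (hC1 : Cross1Stmt) (hJ : JacStmt) (hC2 : Cross2Stmt)
    (hC3 : Cross3Stmt) (hH : HeightStmt) (hPo : PoleStmt) (hGl : GlueStmt) (hPh : PhiStmt)
    (hI : InitStmt) (hRe : ReparamStmt) (hGb : GlobalStmt) (hSy : SyncStmt) (hE : EndStmt)
    {L : P → ℝ} (hL : IsZoll L) :
    ∃ φ a b p, GeoOut L φ a b p ∧ ∃ (Φ : P → E) (ε : ℝ) (c : P → ℝ), Single Φ ∧ (ε = 1 ∨ ε = -1) ∧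
      Data Φ (fun u => ε • p u) c ∧ ∃ G₁, Good G₁ ∧ Great G₁ ∧ Join Φ G₁ := by
  obtain ⟨hF, l, hl, hz⟩ := hL
  obtain ⟨φ, a, b, p, h⟩ := hG L hF
  have Z := zflow h hl hz
  obtain ⟨u₀, hu⟩ := U_nonempty
  obtain ⟨N, f, fe⟩ := hFe φ a b l u₀ Z hu
  obtain ⟨T1, c1⟩ := hC1 φ a b l u₀ N f Z hu fe
  have j := hJ φ a b l Z
  obtain ⟨xp, bp, c2⟩ := hC2 φ a b l u₀ N f T1 Z hu fe c1 j
  have c3 := hC3 φ a b l u₀ N f T1 xp bp Z hu fe c1 c2
  obtain ⟨zf, he⟩ := hH l xp bp c2.inv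
  obtain ⟨κ, k⟩ := hPo φ a b l u₀ N f Z hu fe j
  obtain ⟨g1, g2, g3, g4⟩ := glue_hyp Z hu k
  obtain ⟨Ψ, gl⟩ := hGl l xp bp zf _ c2.inv he g1 g2 g3
    (by simpa only [g4] using k.turn) (by simpa only [g4] using k.once)
  obtain ⟨Φ, ph⟩ := hPh φ a b l u₀ T1 xp bp κ Ψ Z hu c2 c3 k gl
  obtain ⟨si, ε, c, hε, da⟩ := hI L φ a b p l Φ h Z j ph
  obtain ⟨G', g', cs', j1⟩ := hRe Φ da.good
  obtain ⟨γ, A, sol⟩ := hGb G' g' cs'
  obtain ⟨ε₀, hε₀, en⟩ := hE
  obtain ⟨G, g, cs, sm, j2⟩ := hSy G' γ A g' sol ε₀ hε₀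
  obtain ⟨G₁, g₁, gr, j3⟩ := en G g cs sm
  exact ⟨φ, a, b, p, h, Φ, ε, c, si, hε, da, G₁, g₁, gr, (j1.trans j2).trans j3⟩

end Main

open Main in
theorem main_of (hG : GeoStmt) (hFe : FermiStmt) (hC1 : Cross1Stmt) (hJ : JacStmt)
    (hC2 : Cross2Stmt) (hC3 : Cross3Stmt) (hH : HeightStmt) (hPo : PoleStmt) (hGl : GlueStmt)
    (hPh : PhiStmt) (hI : InitStmt) (hRe : ReparamStmt) (hGb : GlobalStmt) (hSy : SyncStmt)
    (hE : EndStmt) (hS : SStmt) (hSu : SupStmt) (hT : ThStmt) (hZ : ZollStmt) (hR : RoundStmt) :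
    MainStmt := by
  intro L₀ hL
  obtain ⟨φ, a, b, p₀, h, Φ, ε, c₀, si, hε, da, G₁, g₁, gr, H, sH, gH, H0, H1⟩ :=
    path hG hFe hC1 hJ hC2 hC3 hH hPo hGl hPh hI hRe hGb hSy hE hL
  let χ : ℝ → ℝ := fun s => smoothTransition (2 * s)
  have sχ : ContDiff ℝ ∞ χ := smoothTransition.contDiff.comp (by fun_prop)
  let G : ℝ → P → E := fun s => H (smoothTransition (2 * s - 1))
  have sG : Sm G := sm_reparam sH (smoothTransition.contDiff.comp (by fun_prop))
  have gG : ∀ s, Good (G s) := fun s => gH _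
  obtain ⟨sp, hp⟩ := hS G sG fun s => (gG s).toOdd1
  let p : ℝ → P → E := fun s u => (1 - χ s) • ε • p₀ u + χ s • pG (G s) u
  let c : ℝ → P → ℝ := fun s u => (1 - χ s) * c₀ u + χ s * 1
  have sp' : Sm p := by
    have a1 : ContDiff ℝ ∞ fun q : ℝ × P => χ q.1 := sχ.comp contDiff_fst
    have a2 : ContDiffOn ℝ ∞ (fun q : ℝ × P => ε • p₀ q.2) (univ ×ˢ Ind) :=
      da.psm.comp contDiffOn_snd fun q hq => hq.2
    exact ((contDiff_const.sub a1).contDiffOn.smul a2).add (a1.contDiffOn.smul sp)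
  have G0 : ∀ s ≤ 1 / 2, ∀ u ∈ U, G s u = Φ u := fun s hs u hu => by
    simp only [G, smoothTransition.zero_of_nonpos (show 2 * s - 1 ≤ 0 by linarith), H0 u hu]
  have dat : ∀ s, Data (G s) (p s) (c s) := by
    intro s
    refine ⟨gG s, sp'.slice s, ?_, fun u hu => ?_, fun u hu => ?_, ?_⟩
    · exact (contDiffOn_const.mul da.csm).add contDiffOn_const
    · simp only [p, da.podd u hu, (hp s).1 u hu, smul_neg, neg_add]
    · have h0 : 0 ≤ χ s := smoothTransition.nonneg _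
      have h1 : χ s ≤ 1 := smoothTransition.le_one _
      have h2 := da.cpos u hu
      rcases h1.eq_or_lt with e | e
      · simp [c, e]
      · have := mul_pos (sub_pos.2 e) h2
        simp only [c]; linarith
    · by_cases hs : s ≤ 1 / 2
      · exact str_comb (str_congr da.str da.good.smooth (gG s).smooth (G0 s hs)) (hp s).2 da.psm
          (sp.slice s) _ _
      · have e : χ s = 1 := smoothTransition.one_of_one_le (by linarith)
        simpa [p, c, e] using (hp s).2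
  obtain ⟨L, us, sL, so⟩ := hSu p sp' (fun s => (dat s).podd) fun s => (dat s).turn
  have si0 : Single (G 0) := by
    obtain ⟨u₀, hu₀, k⟩ := si
    have e := fun u hu => th_congr da.good.smooth (gG 0).smooth (G0 0 (by norm_num)) (u := u) hu
    exact ⟨u₀, hu₀, fun u hu h => k u hu (by rwa [e u hu, e u₀ hu₀] at h)⟩
  have ti := hT G sG (fun s => (gG s).unit) (fun s u hu => ((gG s).turn.pos0 u hu).ne') si0
  have e1 : ∀ u ∈ U, G 1 u = G₁ u := fun u hu => by
    simp only [G, show (2 : ℝ) * 1 - 1 = 1 by norm_num, smoothTransition.one, H1 u hu]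
  have gr1 : Great (G 1) := by
    have : ∀ u ∈ U, pole (G 1) u = pole G₁ u := fun u hu => by
      simp only [pole, e1 u hu,
        V_congr hu (diffAt_of_U (gG 1).smooth hu) (diffAt_of_U g₁.smooth hu) e1]
    intro u hu s
    rw [this u hu, this _ (rho_mem_U hu s), gr u hu s]
  obtain ⟨Ti, ti1⟩ := ti 1
  obtain ⟨ψ, sψ, bψ, vψ⟩ := hR (G 1) Ti (gG 1) gr1 ti1
  refine ⟨L, ψ, sL, fun s => ⟨⟨(so s).fins, ?_⟩, complete hG (so s).fins⟩, fun x w ht => ?_, sψ, bψ,
    fun x w ht => ?_⟩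
  · obtain ⟨Ti, t⟩ := ti s
    exact hZ _ _ _ _ _ Ti (dat s) (so s) t
  · have hu := tan_unit ht
    have p0 : p 0 = fun u => ε • p₀ u := by ext u : 1; simp [p, χ]
    obtain ⟨v1, v2⟩ := val_eq hL.1 h ht
    have cr0 : ⟪V (p 0) (x, ‖w‖⁻¹ • w), w⟫ = 0 := by
      have k := h.crit _ hu
      simp only [inner_smul_right, mul_eq_zero, inv_eq_zero, norm_eq_zero, ht.2.2, false_or] at k
      rw [p0, V, dW_csmul ε (diffAt_of_U h.psm hu), inner_smul_left]
      rw [show dW p₀ (x, ‖w‖⁻¹ • w) (x, ‖w‖⁻¹ • w).1 = V p₀ (x, ‖w‖⁻¹ • w) from rfl, k, mul_zero]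
    have v3 := (so 0).val _ hu w ht cr0
    have v4 : ⟪p₀ (x, ‖w‖⁻¹ • w), w⟫ = ‖w‖ / a (x, ‖w‖⁻¹ • w) := by
      have k := h.one _ hu
      set u : P := (x, ‖w‖⁻¹ • w)
      conv_lhs => rw [v2]
      rw [inner_smul_right, k, mul_one]
    have ε2 : ε ^ 2 = 1 := by rcases hε with e | e <;> simp [e]
    rw [v1]
    refine v3.trans ?_
    rw [p0, inner_smul_left, v4, conj_trivial, mul_pow, ε2, one_mul]
  · obtain ⟨u, hu, rfl, k1, k2⟩ := vψ x w ht
    have p1 : p 1 = pG (G 1) := by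
      ext u : 1
      simp [p, χ, smoothTransition.one_of_one_le (show (1 : ℝ) ≤ 2 by norm_num)]
    rw [(so 1).val u hu w ht (by rwa [p1]), p1, k2]

end Pool.Agent.MP_2291e2_gt.Zl

end MrgPart0

-- ======== part 1: formerly Pool.Agent.MP_2291e2_gt.zl.Branch
section MrgPart1

/-! The next branch of a zero set is smooth. -/

open scoped ContDiff Topology
open Set Filter

namespace Pool.Agent.MP_2291e2_gt.Zl

namespace Branch

lemma impl {f : (ℝ × ℝ) × ℝ → ℝ} {x₀ : ℝ × ℝ} {t₀ : ℝ} (hf : ContDiffAt ℝ ∞ f (x₀, t₀))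
    (h1 : fderiv ℝ f (x₀, t₀) (0, 1) ≠ 0) :
    ∃ g : ℝ × ℝ → ℝ, ContDiffAt ℝ ∞ g x₀ ∧ g x₀ = t₀ ∧ (∀ᶠ x in 𝓝 x₀, f (x, g x) = f (x₀, t₀)) ∧
      ∀ᶠ q in 𝓝 (x₀, t₀), f q = f (x₀, t₀) → q.2 = g q.1 := by
  have inv : (fderiv ℝ f (x₀, t₀) ∘L ContinuousLinearMap.inr ℝ (ℝ × ℝ) ℝ).IsInvertible := by
    refine ⟨ContinuousLinearEquiv.unitsEquivAut ℝ (Units.mk0 _ h1), ?_⟩
    ext
    simp
  exact ⟨_, hf.contDiffAt_implicitFunction (by simp) inv,
    hf.implicitFunction_apply_self (by simp) inv,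
    hf.eventually_apply_implicitFunction (by simp) inv,
    (hf.eventually_apply_eq_iff_implicitFunction (by simp) inv).mono fun q h e => (h.1 e).symm⟩

end Branch

theorem branch_of : BranchStmt := by
  intro j Z S hj hZ hq hS hSZ hne
  have bd : ∀ z, BddBelow {t | S z < t ∧ (z, t) ∈ Z} := fun z => ⟨S z, fun t ht => ht.1.le⟩
  have bot : ∀ z₀, ∀ᶠ q in 𝓝 (z₀, S z₀), q ∈ Z → q.2 = S q.1 := by
    intro z₀
    obtain ⟨g, -, -, -, h⟩ := Branch.impl hj.contDiffAt (hq _ (hSZ z₀)).2.1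
    have c : ContinuousAt (fun q : (ℝ × ℝ) × ℝ => (q.1, S q.1)) (z₀, S z₀) := by fun_prop
    filter_upwards [h, c.eventually h] with q h1 h2 hqZ
    rw [(hq _ (hSZ z₀)).1] at h1 h2
    exact (h1 (hq q hqZ).1).trans (h2 (hq _ (hSZ _)).1).symm
  have key : ∀ z, S z < sInf {t | S z < t ∧ (z, t) ∈ Z} ∧
      (z, sInf {t | S z < t ∧ (z, t) ∈ Z}) ∈ Z := by
    intro z
    have cl := csInf_mem_closure (s := {t | S z < t ∧ (z, t) ∈ Z}) (hne z) (bd z)
    refine ⟨lt_of_le_of_ne (le_csInf (hne z) fun t ht => ht.1.le) fun e => ?_, ?_⟩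
    · replace cl : S z ∈ closure {t | S z < t ∧ (z, t) ∈ Z} := mem_of_eq_of_mem e cl
      have c : ContinuousAt (fun t : ℝ => (z, t)) (S z) := by fun_prop
      obtain ⟨t, h1, h2⟩ := ((mem_closure_iff_frequently.1 cl).and_eventually
        (c.eventually (bot z))).exists
      exact h1.1.ne' (h2 h1.2)
    · exact closure_minimal (t := (fun t : ℝ => (z, t)) ⁻¹' Z) (fun t ht => ht.2)
        (hZ.preimage (by fun_prop)) cl
  have gap : ∀ z, ∀ t ∈ Ioo (S z) (sInf {t | S z < t ∧ (z, t) ∈ Z}), (z, t) ∉ Z :=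
    fun z t ht h => notMem_of_lt_csInf ht.2 (bd z) ⟨ht.1, h⟩
  refine ⟨fun z => sInf {t | S z < t ∧ (z, t) ∈ Z}, contDiff_iff_contDiffAt.2 fun z₀ => ?_,
    fun z => ⟨(key z).1, (key z).2, gap z⟩⟩
  obtain ⟨a1, a2, a3⟩ := hq _ (key z₀).2
  obtain ⟨g, g1, g2, g3, g4⟩ := Branch.impl hj.contDiffAt a2
  have gc := g1.continuousAt
  have lt : S z₀ < g z₀ := g2 ▸ (key z₀).1
  have P : ∀ t ∈ Icc (S z₀) (g z₀), ∀ᶠ q in 𝓝 (z₀, t), q ∈ Z → q.2 = S q.1 ∨ q.2 = g q.1 := by
    intro t ht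
    rcases ht.1.eq_or_lt with rfl | h1
    · exact (bot z₀).mono fun q h hz => Or.inl (h hz)
    rcases ht.2.eq_or_lt with rfl | h2
    · rw [g2]
      exact g4.mono fun q h hz => Or.inr (h ((hq q hz).1.trans a1.symm))
    · exact (hZ.isOpen_compl.eventually_mem (gap z₀ t ⟨h1, g2 ▸ h2⟩)).mono
        fun q h hz => absurd hz h
  have Q := (isCompact_Icc (a := (0 : ℝ)) (b := 1)).eventually_forall_of_forall_eventually
    (x₀ := z₀) (P := fun z s => (z, S z + s * (g z - S z)) ∈ Z →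
      S z + s * (g z - S z) = S z ∨ S z + s * (g z - S z) = g z) fun s hs => by
      have c1 : ContinuousAt (fun q : (ℝ × ℝ) × ℝ => g q.1) (z₀, s) :=
        ContinuousAt.comp (f := Prod.fst) gc continuousAt_fst
      have c : ContinuousAt (fun q : (ℝ × ℝ) × ℝ => (q.1, S q.1 + q.2 * (g q.1 - S q.1)))
          (z₀, s) := by fun_prop
      exact c.eventually (P _ ⟨by nlinarith [hs.1], by nlinarith [hs.2]⟩)
  have c : ContinuousAt (fun z => (z, g z)) z₀ := continuousAt_id.prodMk gc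
  rw [← g2] at a3
  refine g1.congr_of_eventuallyEq ?_
  filter_upwards [Q, g3, c.eventually a3, hS.continuousAt.eventually_lt gc lt] with z h1 h2 h3 h4
  have h5 : sInf {t | S z < t ∧ (z, t) ∈ Z} ≤ g z := csInf_le (bd z) ⟨h4, h3 (h2.trans a1)⟩
  have h6 := sub_pos.2 h4
  have h7 := h1 ((sInf {t | S z < t ∧ (z, t) ∈ Z} - S z) / (g z - S z))
    ⟨div_nonneg (sub_pos.2 (key z).1).le h6.le, (div_le_one h6).2 (sub_le_sub_right h5 _)⟩
  rw [div_mul_cancel₀ _ h6.ne', add_sub_cancel] at h7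
  exact (h7 (key z).2).resolve_left (key z).1.ne'

end Pool.Agent.MP_2291e2_gt.Zl

end MrgPart1

-- ======== part 2: formerly Pool.Agent.MP_2291e2_gt.zl.CurveA
section MrgPart2

/-! Pointwise identities for odd constant speed curves on the sphere. -/

open scoped ContDiff RealInnerProductSpace Topology
open Set Filter Real

namespace Pool.Agent.MP_2291e2_gt.Zl

namespace CurveAM

lemma mean_lin {f g : P → ℝ} {u : P} (a b : ℝ) (hg : Continuous fun s => g (rho s u))
    (e : ∀ s, f (rho s u) = a + b * g (rho s u)) : Mean f u = a + b * Mean g u := by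
  have c : Continuous fun s => b * g (rho s u) := continuous_const.mul hg
  simp only [Mean, e]
  rw [intervalIntegral.integral_add intervalIntegrable_const (c.intervalIntegrable _ _),
    intervalIntegral.integral_const_mul, intervalIntegral.integral_const, smul_eq_mul]
  field_simp
  ring

lemma cont_fib {f : P → ℝ} (hf : ContDiffOn ℝ ∞ f Ind) {u : P} (hu : u ∈ U) :
    Continuous fun s => f (rho s u) :=
  continuous_iff_continuousAt.2 fun s => (hasDerivAt_V' hf hu s).continuousAt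

lemma alg {g p a : E} {v : ℝ} (hv : v ≠ 0) (hg : ‖g‖ = 1) (hp : ‖p‖ ^ 2 = v) (h1 : ⟪g, p⟫ = 0)
    (h2 : ⟪g, a⟫ = -v) (h3 : ⟪p, a⟫ = 0) :
    a = -v • g + (dt g p a / v) • cr g p ∧ ‖a‖ ^ 2 = v ^ 2 + dt g p a ^ 2 / v ∧
      v • cr g a = -dt g p a • p := by
  have gg : ⟪g, g⟫ = 1 := by rw [real_inner_self_eq_norm_sq, hg, one_pow]
  have f := frame_mul g p a h1
  rw [hg, hp, real_inner_comm, h2, real_inner_comm, h3] at f
  simp only [one_pow, one_mul, mul_zero, zero_smul, add_zero] at f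
  have e : a = -v • g + (dt g p a / v) • cr g p := by
    refine smul_right_injective E hv ?_
    simp only [smul_add, smul_smul, f]
    rw [mul_div_cancel₀ _ hv]
  refine ⟨e, ?_, ?_⟩
  · have := congrArg (fun x => ⟪x, a⟫) e
    simp only [inner_add_left, real_inner_smul_left, h2, inner_cr_eq,
      real_inner_self_eq_norm_sq] at this
    rw [this]
    ring
  · rw [← cr_smul_right, f, cr_add_right, cr_smul_right, cr_smul_right, cr_self, cr_cr_right, h1, gg]
    simp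

end CurveAM

open CurveAM

theorem curvea_of (hM : MeanStmt) : CurveAStmt := by
  intro G hG hC
  have s0 := hG.smooth
  have s1 := contDiffOn_V s0
  have s2 := contDiffOn_V s1
  have o1 : ∀ u ∈ U, V G (rev u) = -V G u := fun u hu => V_odd s0 hG.odd hu
  have o2 : ∀ u ∈ U, V (V G) (rev u) = -V (V G) u := fun u hu => V_odd s1 o1 hu
  have n1 : ContDiffOn ℝ ∞ (fun u => ‖V G u‖ ^ 2) Ind := s1.norm_sq ℝ
  have n2 : ContDiffOn ℝ ∞ (fun u => ‖V (V G) u‖ ^ 2) Ind := s2.norm_sq ℝ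
  obtain ⟨sv, -, -, A⟩ := hM.1 _ n1
  obtain ⟨sM, sK, -, B⟩ := hM.1 _ n2
  replace A := A fun u hu => by rw [o1 u hu, norm_neg]
  replace B := B fun u hu => by rw [o2 u hu, norm_neg]
  replace sv : ContDiffOn ℝ ∞ (vsq G) Ind := sv
  replace sM : ContDiffOn ℝ ∞ (MM G) Ind := sM
  have sw : ContDiffOn ℝ ∞ (wk G) Ind := by unfold wk; fun_prop
  have v1 : ∀ u ∈ U, ∀ s, vsq G (rho s u) = vsq G u := fun u hu => (A u hu).1
  have v2 : ∀ u ∈ U, V (vsq G) u = 0 := fun u hu => (A u hu).2.1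
  have m2 : ∀ u ∈ U, V (MM G) u = 0 := fun u hu => (B u hu).2.1
  have sp : ∀ u ∈ U, 2 / π ≤ ‖V G u‖ := fun u hu => by
    have c : ∀ s, ‖V G (rho s u)‖ = ‖V G u‖ := fun s =>
      (pow_left_inj₀ (norm_nonneg _) (norm_nonneg _) two_ne_zero).1 (by
        rw [(hC _ (rho_mem_U hu s)).2, (hC u hu).2, v1 u hu])
    have := norm_image_sub_le_of_norm_deriv_le_segment' (a := 0) (b := π) (C := ‖V G u‖)
      (fun s _ => (hasDerivAt_V' s0 hu s).hasDerivWithinAt) (fun s _ => (c s).le) π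
      (right_mem_Icc.2 pi_pos.le)
    rw [rho_pi, rho_zero, hG.odd u hu, ← neg_add', norm_neg, ← two_smul ℝ, norm_smul,
      hG.unit u hu] at this
    rw [div_le_iff₀ pi_pos]
    simpa using this
  have vp : ∀ u ∈ U, 0 < vsq G u := fun u hu =>
    (hC u hu).2 ▸ pow_pos ((div_pos two_pos pi_pos).trans_le (sp u hu)) 2
  have i1 : ∀ u ∈ U, ⟪G u, V G u⟫ = 0 := fun u hu => inner_dW_unit s0 hG.unit hu _
  have i2 : ∀ u ∈ U, ⟪G u, V (V G) u⟫ = -vsq G u := fun u hu => by
    have d0 := diffAt_of_U s0 hu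
    have d1 := diffAt_of_U s1 hu
    have e := (dW_inner d0 d1 u.1).symm.trans (dW_const_on hu (d0.inner ℝ d1) i1 u.1)
    have e' : ⟪V G u, V G u⟫ + ⟪G u, V (V G) u⟫ = 0 := e
    rw [real_inner_self_eq_norm_sq, (hC u hu).2] at e'
    linarith
  have i3 : ∀ u ∈ U, ⟪V G u, V (V G) u⟫ = 0 := fun u hu => by
    have e := ((dW_normsq (diffAt_of_U s1 hu) u.1).symm.trans (V_congr hu (diffAt_of_U n1 hu)
      (diffAt_of_U sv hu) fun u hu => (hC u hu).2)).trans (v2 u hu)
    have e' : 2 * ⟪V G u, V (V G) u⟫ = 0 := e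
    linarith
  have al := fun u hu => alg (vp u hu).ne' (hG.unit u hu) (hC u hu).2 (i1 u hu) (i2 u hu) (i3 u hu)
  have a2 : ∀ u ∈ U, ‖V (V G) u‖ ^ 2 = vsq G u ^ 2 + wk G u ^ 2 / vsq G u := fun u hu =>
    (al u hu).2.1
  have sm : ∀ u ∈ U, ContDiffAt ℝ ∞ (mu G) u := fun u hu =>
    (contDiffAt_of_U sK hu).div (contDiffAt_of_U sv hu) (vp u hu).ne'
  have vm : ∀ u ∈ U, V (mu G) u = (‖V (V G) u‖ ^ 2 - MM G u) / vsq G u := fun u hu => by
    refine (dW_fdiv (diffAt_of_U sK hu) (diffAt_of_U sv hu) (vp u hu).ne' u.1).trans ?_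
    rw [show dW (vsq G) u u.1 = 0 from v2 u hu, show dW (Kop fun u => ‖V (V G) u‖ ^ 2) u u.1
      = ‖V (V G) u‖ ^ 2 - MM G u from (B u hu).2.2.2.1]
    have := (vp u hu).ne'
    field_simp
    ring
  intro u hu
  have v0 := (vp u hu).ne'
  have mm : MM G u = vsq G u ^ 2 + Mean (fun u => wk G u ^ 2) u / vsq G u := by
    rw [div_eq_inv_mul]
    exact mean_lin _ _ (cont_fib (sw.pow 2) hu) fun s => by
      rw [a2 _ (rho_mem_U hu s), v1 u hu, div_eq_inv_mul]
  refine ⟨sp u hu, v1 u hu, (B u hu).1, i1 u hu, i2 u hu, i3 u hu, (al u hu).1, a2 u hu,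
    (al u hu).2.2, ?_, ?_, sm u hu, vm u hu, ?_, mm, ?_, ?_⟩
  · simp only [wk, hG.odd u hu, o1 u hu, o2 u hu, dt, cr_neg_left, cr_neg_right, neg_neg,
      inner_neg_left]
  · rw [mu, mu, (B u hu).2.2.1, ← rho_pi, v1 u hu]
  · rw [mm, le_add_iff_nonneg_right]
    exact div_nonneg (mul_nonneg (inv_pos.2 pi_pos).le (intervalIntegral.integral_nonneg pi_pos.le
      fun s _ => sq_nonneg _)) (vp u hu).le
  · rw [mean_lin 0 (vsq G u)⁻¹ (cont_fib sK hu) fun s => by
      rw [mu, v1 u hu, zero_add, div_eq_inv_mul], (B u hu).2.2.2.2.1]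
    simp
  · have cv := contDiffAt_of_U sv hu
    have cw := contDiffAt_of_U sw hu
    have c1 := (cw.mul cw).div cv v0
    have c2 := ((cv.mul cv).add c1).sub (contDiffAt_of_U sM hu)
    have z : (∞ : WithTop ℕ∞) ≠ 0 := by simp
    have dv := cv.differentiableAt z
    have dw := cw.differentiableAt z
    rw [V_congr (g := fun u => (vsq G u * vsq G u + wk G u * wk G u / vsq G u - MM G u) / vsq G u)
      hu ((contDiffAt_V (sm u hu)).differentiableAt z) ((c2.div cv v0).differentiableAt z)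
      fun u hu => by rw [vm u hu, a2 u hu, sq, sq]]
    refine (dW_fdiv (c2.differentiableAt z) dv v0 u.1).trans ?_
    have e1 := dW_fsub (((cv.mul cv).add c1).differentiableAt z) (diffAt_of_U sM hu) u.1
    have e2 := dW_fadd ((cv.mul cv).differentiableAt z) (c1.differentiableAt z) u.1
    have e3 := dW_fdiv ((cw.mul cw).differentiableAt z) dv v0 u.1
    rw [e1.trans (congrArg (· - _) (e2.trans (congrArg (_ + ·) e3))), dW_fmul dv dv, dW_fmul dw dw,
      show dW (vsq G) u u.1 = 0 from v2 u hu, show dW (MM G) u u.1 = 0 from m2 u hu, V]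
    field_simp
    ring

end Pool.Agent.MP_2291e2_gt.Zl

end MrgPart2

-- ======== part 3: formerly Pool.Agent.MP_2291e2_gt.zl.EndCurve
section MrgPart3

/-! Curves of nearly unit speed and small curvature are close to great circles, together with
their first harmonics. -/

open scoped ContDiff RealInnerProductSpace Topology
open Set Filter Real

namespace Pool.Agent.MP_2291e2_gt.Zl

namespace EndCurve

variable {F : P → E}

lemma integrand (hF : ContDiffOn ℝ ∞ F Ind) :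
    ContDiffOn ℝ ∞ (fun q : P × ℝ => cos q.2 • F (rho q.2 q.1)) (Ind ×ˢ univ) := by
  have a : ContDiffOn ℝ ∞ (fun q : P × ℝ => F (rho q.2 q.1)) (Ind ×ˢ univ) :=
    hF.comp (f := fun q : P × ℝ => rho q.2 q.1)
      (contDiff_rho.comp_contDiffOn (contDiffOn_snd.prodMk contDiffOn_fst))
      fun q hq => rho_mem_Ind hq.1 _
  exact ContDiffOn.smul (f := fun q : P × ℝ => cos q.2) (by fun_prop) a

lemma P1_aux (hP : PIntStmt) (hF : ContDiffOn ℝ ∞ F Ind) {u : P} (hu : u ∈ Ind) :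
    ContDiffAt ℝ ∞ (fun x => ∫ s in (0 : ℝ)..2 * π, cos s • F (rho s x)) u ∧
      ∀ ξ, dW (fun x => ∫ s in (0 : ℝ)..2 * π, cos s • F (rho s x)) u ξ
        = ∫ s in (0 : ℝ)..2 * π, cos s • dW F (rho s u) ξ := by
  have ho : IsOpen ((Ind : Set P) ×ˢ (univ : Set ℝ)) := isOpen_Ind.prod isOpen_univ
  obtain ⟨a, b⟩ := (hP P E _ _ ho (integrand hF)).1 0 (2 * π) u fun s _ => ⟨hu, trivial⟩
  refine ⟨a, fun ξ => (b _).trans ?_⟩
  congr 1
  ext1 s
  have d := ((integrand hF).contDiffAt (ho.mem_nhds (show (u, s) ∈ _ from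
    ⟨hu, trivial⟩))).differentiableAt (by simp)
  have d2 := diffAt_of_Ind hF (rho_mem_Ind hu s)
  have e := (HasFDerivAt.comp (f := fun x : P => (x, s)) u d.hasFDerivAt
    (hasFDerivAt_prodMk_left (𝕜 := ℝ) u s)).fderiv
  have d3 : DifferentiableAt ℝ (fun x => F (rho s x)) u :=
    d2.comp u (by unfold rho; fun_prop)
  rw [← dW_comp_rho d2, ← dW_csmul _ d3]
  exact (congrArg (fun A : P →L[ℝ] E => A (W u ξ)) e).symm

lemma contDiffOn_P1 (hP : PIntStmt) (hF : ContDiffOn ℝ ∞ F Ind) : ContDiffOn ℝ ∞ (P1 F) Ind :=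
  fun _ hu => ((P1_aux hP hF hu).1.const_smul _).contDiffWithinAt

lemma dW_P1 (hP : PIntStmt) (hF : ContDiffOn ℝ ∞ F Ind) {u : P} (hu : u ∈ Ind) (ξ : E) :
    dW (P1 F) u ξ = P1 (fun w => dW F w ξ) u := by
  obtain ⟨a, b⟩ := P1_aux hP hF hu
  exact (dW_csmul _ (a.differentiableAt (by simp)) ξ).trans (by rw [b]; rfl)

lemma contDiffOn_Gs (hP : PIntStmt) (hF : ContDiffOn ℝ ∞ F Ind) (s : ℝ) :
    ContDiffOn ℝ ∞ (Gs F s) Ind :=
  (hF.const_smul _).add ((contDiffOn_P1 hP hF).const_smul _)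

lemma dW_Gs (hP : PIntStmt) (hF : ContDiffOn ℝ ∞ F Ind) (s : ℝ) {u : P} (hu : u ∈ Ind) (ξ : E) :
    dW (Gs F s) u ξ = Gs (fun w => dW F w ξ) s u := by
  have a := diffAt_of_Ind hF hu
  have b := diffAt_of_Ind (contDiffOn_P1 hP hF) hu
  refine (dW_fadd (a.const_smul (1 - s)) (b.const_smul s) ξ).trans ?_
  rw [Gs, ← dW_P1 hP hF hu, ← dW_csmul _ a, ← dW_csmul _ b]
  rfl

lemma V_Gs (hP : PIntStmt) (hF : ContDiffOn ℝ ∞ F Ind) (s : ℝ) {u : P} (hu : u ∈ Ind) :
    V (Gs F s) u = Gs (V F) s u := dW_Gs hP hF s hu _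

lemma VV_Gs (hP : PIntStmt) (hF : ContDiffOn ℝ ∞ F Ind) (s : ℝ) {u : P} (hu : u ∈ U) :
    V (V (Gs F s)) u = Gs (V (V F)) s u := by
  have h1 := contDiffOn_V hF
  rw [V_congr hu (diffAt_of_U (contDiffOn_V (contDiffOn_Gs hP hF s)) hu)
    (diffAt_of_U (contDiffOn_Gs hP h1 s) hu) fun w hw => V_Gs hP hF s (U_sub_Ind hw),
    V_Gs hP h1 s (U_sub_Ind hu)]

lemma harm (a b : E) (σ : ℝ) :
    π⁻¹ • ∫ s in (0 : ℝ)..2 * π, cos s • (cos (s + σ) • a + sin (s + σ) • b)
      = cos σ • a + sin σ • b := by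
  have e : ∀ s, cos s • (cos (s + σ) • a + sin (s + σ) • b) = cos s ^ 2 • (cos σ • a + sin σ • b)
      + (sin s * cos s) • (-sin σ • a + cos σ • b) := fun s => by
    rw [cos_add, sin_add]; module
  simp only [e]
  rw [intervalIntegral.integral_add (Continuous.intervalIntegrable (by fun_prop) _ _)
    (Continuous.intervalIntegrable (by fun_prop) _ _), intervalIntegral.integral_smul_const,
    intervalIntegral.integral_smul_const, integral_cos_sq, integral_sin_mul_cos₁]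
  simp [smul_smul, pi_ne_zero]

lemma P1_close (hF : ContDiffOn ℝ ∞ F Ind) {u : P} (hu : u ∈ U) {a b : E} {δ : ℝ}
    (h : ∀ σ, ‖F (rho σ u) - (cos σ • a + sin σ • b)‖ ≤ δ) (σ : ℝ) :
    ‖P1 F (rho σ u) - (cos σ • a + sin σ • b)‖ ≤ 2 * δ := by
  have c : Continuous fun s => F (rho s u) :=
    continuous_iff_continuousAt.2 fun s => (hasDerivAt_V' hF hu s).continuousAt
  have c2 : Continuous fun s => cos s • F (rho (s + σ) u) :=
    continuous_cos.smul (c.comp (continuous_add_const σ))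
  rw [← harm a b σ, P1, ← smul_sub]
  simp only [rho_add hu]
  rw [← intervalIntegral.integral_sub (c2.intervalIntegrable _ _)
    (Continuous.intervalIntegrable (by fun_prop) _ _), norm_smul]
  have := intervalIntegral.norm_integral_le_of_norm_le_const (a := 0) (b := 2 * π) (C := δ)
    (f := fun s => cos s • F (rho (s + σ) u) - cos s • (cos (s + σ) • a + sin (s + σ) • b))
    fun s _ => by
      rw [← smul_sub, norm_smul]
      exact (mul_le_of_le_one_left (norm_nonneg _) (abs_cos_le_one s)).trans (h _)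
  rw [sub_zero, abs_of_pos two_pi_pos] at this
  rw [norm_inv, Real.norm_of_nonneg pi_pos.le, inv_mul_le_iff₀ pi_pos]
  linarith

lemma Gs_close (hF : ContDiffOn ℝ ∞ F Ind) {u : P} (hu : u ∈ U) {a b : E} {δ s : ℝ}
    (hs : s ∈ Icc (0 : ℝ) 1) (h : ∀ σ, ‖F (rho σ u) - (cos σ • a + sin σ • b)‖ ≤ δ) (σ : ℝ) :
    ‖Gs F s (rho σ u) - (cos σ • a + sin σ • b)‖ ≤ 2 * δ := by
  have e : Gs F s (rho σ u) - (cos σ • a + sin σ • b)
      = (1 - s) • (F (rho σ u) - (cos σ • a + sin σ • b))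
        + s • (P1 F (rho σ u) - (cos σ • a + sin σ • b)) := by rw [Gs]; module
  have h0 := (norm_nonneg _).trans (h σ)
  have h1 := mul_le_mul_of_nonneg_left (h σ) (sub_nonneg.2 hs.2)
  have h2 := mul_le_mul_of_nonneg_left (P1_close hF hu h σ) hs.1
  rw [e]
  refine (norm_add_le _ _).trans ?_
  rw [norm_smul, norm_smul, Real.norm_of_nonneg (sub_nonneg.2 hs.2), Real.norm_of_nonneg hs.1]
  nlinarith [mul_nonneg (sub_nonneg.2 hs.2) h0]

lemma per_bound {a a' : ℝ → E} {η : ℝ} (hd : ∀ t, HasDerivAt a (a' t) t) (hb : ∀ t, ‖a' t‖ ≤ η)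
    (hp : Function.Periodic a (2 * π)) (σ : ℝ) : ‖a σ - a 0‖ ≤ 7 * η := by
  obtain ⟨t, ht, e⟩ := hp.exists_mem_Ico₀ two_pi_pos σ
  have := convex_univ.norm_image_sub_le_of_norm_hasDerivWithin_le
    (fun t _ => (hd t).hasDerivWithinAt) (fun t _ => hb t) (mem_univ 0) (mem_univ t)
  rw [sub_zero, Real.norm_of_nonneg ht.1] at this
  have h0 := (norm_nonneg _).trans (hb 0)
  rw [e]
  nlinarith [ht.2, pi_lt_d2]

lemma comb_le {x y : E} {c d η : ℝ} (hc : |c| ≤ 1) (hd : |d| ≤ 1) (hx : ‖x‖ ≤ η) (hy : ‖y‖ ≤ η) :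
    ‖c • x + d • y‖ ≤ 2 * η := by
  refine (norm_add_le _ _).trans ?_
  rw [norm_smul, norm_smul, Real.norm_eq_abs, Real.norm_eq_abs]
  linarith [mul_le_of_le_one_left (norm_nonneg x) hc, mul_le_of_le_one_left (norm_nonneg y) hd]

/-- Variation of constants. -/
lemma varc {g g1 g2 : ℝ → E} {η : ℝ} (h1 : ∀ t, HasDerivAt g (g1 t) t)
    (h2 : ∀ t, HasDerivAt g1 (g2 t) t) (hb : ∀ t, ‖g2 t + g t‖ ≤ η)
    (p0 : Function.Periodic g (2 * π)) (p1 : Function.Periodic g1 (2 * π)) (σ : ℝ) :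
    ‖g σ - (cos σ • g 0 + sin σ • g1 0)‖ ≤ 14 * η ∧
      ‖g1 σ - (cos σ • g1 0 + sin σ • -g 0)‖ ≤ 14 * η ∧
      ‖g2 σ - (cos σ • -g 0 + sin σ • -g1 0)‖ ≤ 15 * η := by
  have k : ∀ c : ℝ, |c| ≤ 1 → ∀ t, ‖c • (g2 t + g t)‖ ≤ η := fun c hc t => by
    rw [norm_smul]
    exact (mul_le_of_le_one_left (norm_nonneg _) hc).trans (hb t)
  have a := per_bound (a := fun t => cos t • g t - sin t • g1 t)
    (a' := fun t => -sin t • (g2 t + g t)) (fun t =>
      (((hasDerivAt_cos t).smul (h1 t)).sub ((hasDerivAt_sin t).smul (h2 t))).congr_deriv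
        (by module)) (fun t => k _ (by simpa using abs_sin_le_one t) t)
    (fun t => by simp [p0 t, p1 t]) σ
  have b := per_bound (a := fun t => sin t • g t + cos t • g1 t)
    (a' := fun t => cos t • (g2 t + g t)) (fun t =>
      (((hasDerivAt_sin t).smul (h1 t)).add ((hasDerivAt_cos t).smul (h2 t))).congr_deriv
        (by module)) (fun t => k _ (abs_cos_le_one t) t) (fun t => by simp [p0 t, p1 t]) σ
  simp only [cos_zero, sin_zero, one_smul, zero_smul, sub_zero, zero_add] at a b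
  have e := sin_sq_add_cos_sq σ
  have c0 := comb_le (abs_cos_le_one σ) (abs_sin_le_one σ) a b
  have c1 := comb_le (c := -sin σ) (by simpa using abs_sin_le_one σ) (abs_cos_le_one σ) a b
  have r0 : ‖g σ - (cos σ • g 0 + sin σ • g1 0)‖ ≤ 14 * η := by
    refine le_of_eq_of_le (congrArg _ ?_) (c0.trans_eq (by ring))
    linear_combination (norm := module) (-e) • g σ
  refine ⟨r0, le_of_eq_of_le (congrArg _ ?_) (c1.trans_eq (by ring)), ?_⟩
  · linear_combination (norm := module) (-e) • g1 σ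
  · have : g2 σ - (cos σ • -g 0 + sin σ • -g1 0)
        = (g2 σ + g σ) - (g σ - (cos σ • g 0 + sin σ • g1 0)) := by module
    rw [this]
    linarith [norm_sub_le (g2 σ + g σ) (g σ - (cos σ • g 0 + sin σ • g1 0)), hb σ]

lemma zsmall (hA : CurveAStmt) {G : P → E} {ε : ℝ} (hG : Odd1 G) (hc : Constr G)
    (hs : Small ε G) {u : P} (hu : u ∈ U) : ‖V (V G) u + G u‖ ≤ 3 * ε := by
  obtain ⟨a1, -, -, -, -, -, a2, -⟩ := hA G hG hc u hu
  obtain ⟨s1, s2, -⟩ := hs u hu
  obtain ⟨c1, c2⟩ := hc u hu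
  have e : V (V G) u + G u = -(‖V G u‖ ^ 2 - 1) • G u
      + (wk G u / ‖V G u‖ ^ 2) • cr (G u) (V G u) := by rw [a2, c2]; module
  have h2 : 1 / 2 ≤ ‖V G u‖ := by
    refine le_trans ?_ a1
    rw [div_le_div_iff₀ two_pos pi_pos]; linarith [pi_lt_four]
  have h3 : 0 < ‖V G u‖ := by linarith
  have h4 := norm_cr_le (G u) (V G u)
  rw [c1, one_mul] at h4
  have h5 : |wk G u| / ‖V G u‖ ^ 2 * ‖cr (G u) (V G u)‖ ≤ 2 * ε := by
    refine (mul_le_mul_of_nonneg_left h4 (by positivity)).trans ?_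
    rw [div_mul_eq_mul_div, div_le_iff₀ (by positivity)]
    nlinarith [mul_le_mul_of_nonneg_right s2 h3.le, abs_nonneg (wk G u),
      mul_nonneg (mul_nonneg ((abs_nonneg _).trans s2) h3.le) (sub_nonneg.2 h2)]
  rw [e]
  refine (norm_add_le _ _).trans ?_
  rw [norm_smul, norm_smul, c1, norm_neg, Real.norm_eq_abs, Real.norm_eq_abs, abs_div,
    abs_of_pos (pow_pos h3 2)]
  linarith

end EndCurve

open EndCurve in
theorem endcurve_of (hP : PIntStmt) (_hM : MeanStmt) (hA : CurveAStmt) : EndCurveStmt := by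
  intro κ hκ
  refine ⟨κ / 90, by positivity, fun G hG hc hs s hs01 u hu σ => ?_⟩
  have h0 := hG.smooth
  have h1 := contDiffOn_V h0
  have k := varc (hasDerivAt_V' h0 hu) (hasDerivAt_V' h1 hu)
    (fun t => zsmall hA hG.toOdd1 (constr_of_cspeed hG.toOdd1 hc) hs (rho_mem_U hu t))
    (fun t => congrArg G (rho_periodic u t)) (fun t => congrArg (V G) (rho_periodic u t))
  simp only [rho_zero] at k
  have k0 := Gs_close h0 hu hs01 (fun t => (k t).1) σ
  have k1 := Gs_close h1 hu hs01 (fun t => (k t).2.1) σ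
  have k2 := Gs_close (contDiffOn_V h1) hu hs01 (fun t => (k t).2.2) σ
  have hm := rho_mem_U hu σ
  refine ⟨?_, k0.trans (by linarith), ?_, ?_⟩
  · have a := (hs u hu).1
    have b : |‖V G u‖ ^ 2 - 1| = |‖V G u‖ - 1| * (‖V G u‖ + 1) := by
      rw [← abs_of_pos (show 0 < ‖V G u‖ + 1 by positivity), ← abs_mul]; congr 1; ring
    nlinarith [mul_nonneg (abs_nonneg (‖V G u‖ - 1)) (norm_nonneg (V G u))]
  · rw [V_Gs hP h0 s (U_sub_Ind hm)]
    exact le_of_eq_of_le (congrArg _ (by module)) (k1.trans (by linarith))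
  · rw [VV_Gs hP h0 s hm]
    exact le_of_eq_of_le (congrArg _ (by module)) (k2.trans (by linarith))

end Pool.Agent.MP_2291e2_gt.Zl

end MrgPart3

-- ======== part 4: formerly Pool.Agent.MP_2291e2_gt.zl.Fix
section MrgPart4

/-! Fixed points of uniform contractions depend smoothly on parameters. -/

open scoped ContDiff Topology
open Set Filter

namespace Pool.Agent.MP_2291e2_gt.Zl

theorem fix_of : FixStmt := by
  intro X Y _ _ _ _ _ _ Ω T hΩ hT hc
  have ex : ∀ x, ∃ y, x ∈ Ω → T (x, y) = y ∧ ∀ y', T (x, y') = y' → y' = y := by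
    intro x
    by_cases hx : x ∈ Ω
    · have h : ContractingWith (1 / 2) fun y => T (x, y) :=
        ⟨by norm_num, LipschitzWith.of_dist_le_mul fun y y' => by
          simpa only [dist_eq_norm, NNReal.coe_div, NNReal.coe_one, NNReal.coe_ofNat]
            using hc x hx y y'⟩
      exact ⟨h.fixedPoint _, fun _ => ⟨h.fixedPoint_isFixedPt, fun y' hy => h.fixedPoint_unique hy⟩⟩
    · exact ⟨0, fun h => absurd h hx⟩
  choose g hg using ex
  refine ⟨g, fun x₀ hx => ContDiffAt.contDiffWithinAt ?_, hg⟩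
  have hT₀ : ContDiffAt ℝ ∞ T (x₀, g x₀) :=
    hT.contDiffAt ((hΩ.prod isOpen_univ).mem_nhds ⟨hx, mem_univ _⟩)
  have cdf : ContDiffAt ℝ ∞ (fun q : X × Y => q.2 - T q) (x₀, g x₀) := contDiffAt_snd.sub hT₀
  have d1 := (hT₀.differentiableAt (by simp)).hasFDerivAt
  have d2 : HasFDerivAt (fun y => T (x₀, y))
      (fderiv ℝ T (x₀, g x₀) ∘L ContinuousLinearMap.inr ℝ X Y) (g x₀) :=
    d1.comp (g x₀) (hasFDerivAt_prodMk_right x₀ (g x₀))
  have n1 : ‖fderiv ℝ T (x₀, g x₀) ∘L ContinuousLinearMap.inr ℝ X Y‖ < 1 :=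
    (d2.le_of_lip' (by norm_num) (Eventually.of_forall fun y => hc x₀ hx y _)).trans_lt
      (by norm_num)
  have inv : (fderiv ℝ (fun q : X × Y => q.2 - T q) (x₀, g x₀) ∘L
      ContinuousLinearMap.inr ℝ X Y).IsInvertible := by
    refine ⟨ContinuousLinearEquiv.ofUnit (Units.oneSub _ n1), ?_⟩
    rw [(hasFDerivAt_snd.fun_sub d1).fderiv]
    ext y
    simp [ContinuousLinearEquiv.ofUnit]
  refine (cdf.contDiffAt_implicitFunction (by simp) inv).congr_of_eventuallyEq ?_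
  filter_upwards [cdf.eventually_apply_implicitFunction (by simp) inv, hΩ.mem_nhds hx] with x h hx'
  simp only [(hg x₀ hx).1, sub_self] at h
  exact ((hg x hx').2 _ (sub_eq_zero.1 h).symm).symm

end Pool.Agent.MP_2291e2_gt.Zl

end MrgPart4

-- ======== part 5: formerly Pool.Agent.MP_2291e2_gt.zl.Global
section MrgPart5

/-! Row GLOBAL: the flow exists for all time. -/

open scoped ContDiff RealInnerProductSpace Topology
open Set Filter Real

namespace Pool.Agent.MP_2291e2_gt.Zl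

namespace Global

lemma quarter_lt (hA : CurveAStmt) {G : P → E} (h : Odd1 G) (hc : Constr G) {u : P} (hu : u ∈ U) :
    1 / 4 < vsq G u := by
  have h1 := (hA G h hc u hu).1
  have h2 : (1 : ℝ) / 2 < 2 / π := by
    rw [div_lt_div_iff₀ (by norm_num) pi_pos]
    linarith [pi_lt_four]
  rw [← (hc u hu).2]
  nlinarith

lemma c0_vsq (hM : MeanStmt) {G₀ : P → E} {γ : ℝ → P → E} (h : Pre G₀ γ) :
    C0 (fun τ => vsq (γ τ)) := by
  have h1 : ContinuousOn (fun q : ℝ × P => V (γ q.1) q.2) (Ici 0 ×ˢ Ind) := h.c1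
  have h2 : ContinuousOn (fun q : ℝ × P => ‖V (γ q.1) q.2‖ ^ 2) (Ici 0 ×ˢ Ind) := h1.norm.fun_pow 2
  exact (hM.2.2 (fun τ u => ‖V (γ τ) u‖ ^ 2) h2).1

end Global

open Global in
theorem global_of (hE : ExistStmt) (hC : ConstrStmt) (hA : CurveAStmt) (hB : CurveBStmt)
    (hH : ChordStmt) (hM : MeanStmt) : GlobalStmt := by
  intro G₀ hG hS
  obtain ⟨A, hApos, hch, hlt⟩ := hB.1 G₀ hG hS
  have hc0 := constr_of_cspeed hG.toOdd1 hS
  obtain ⟨B, hB0⟩ : ∃ B, ∀ u ∈ U, ‖V G₀ u‖ ^ 2 ≤ B := by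
    obtain ⟨B, hb⟩ := isCompact_U.bddAbove_image
      (((contDiffOn_V hG.smooth).continuousOn.mono U_sub_Ind).norm.pow 2)
    exact ⟨B, fun u hu => hb ⟨u, hu, rfl⟩⟩
  obtain ⟨γ, hP, hpde⟩ := hE G₀ (2 * A * B + 1) hG.smooth hG.odd
  have hV0 : ∀ u ∈ U, V (γ 0) u = V G₀ u := fun u hu =>
    V_congr hu (diffAt_of_U (hP.slice 0 le_rfl) hu) (diffAt_of_U hG.smooth hu) hP.init
  have hv0 : ∀ u ∈ U, vsq (γ 0) u = vsq G₀ u := fun u hu => by
    simp only [vsq, Mean, hV0 _ (rho_mem_U hu _)]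
  have hvc := c0_vsq hM hP
  -- a priori bounds
  have key : ∀ T, Upto γ T → ∀ τ ∈ Icc 0 T, Constr (γ τ) ∧ Chord A (γ τ) ∧ ∀ u ∈ U,
      (0 < τ → HasDerivAt (fun t => vsq (γ t) u) (2 * vsq (γ τ) u ^ 2 - 2 * MM (γ τ) u) τ) ∧
      1 / 4 < vsq (γ τ) u ∧ vsq (γ τ) u ≤ B ∧ ‖V (V (γ τ)) u‖ ≤ 2 * A * B := by
    intro T hU τ hτ
    have h1 := hC G₀ γ T hG.toOdd1 hS hP hU
    have h2 := hH G₀ γ T A hApos hP hU h1
      (fun u hu h hh => by
        rw [hV0 u hu, hP.init u hu, hP.init _ (rho_mem_U hu h)]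
        exact hch u hu h hh)
      (fun u hu => by rw [hV0 u hu]; exact hlt u hu)
    have ho : ∀ t ∈ Icc 0 T, Odd1 (γ t) := fun t ht =>
      ⟨hP.slice t ht.1, fun u hu => ((h1 t ht).1 u hu).1, hP.odd t ht.1⟩
    refine ⟨(h1 τ hτ).1, h2 τ hτ, fun u hu => ?_⟩
    have h3 : vsq (γ τ) u ≤ B := by
      have ha : AntitoneOn (fun t => vsq (γ t) u) (Icc 0 T) := by
        refine antitoneOn_of_deriv_nonpos (convex_Icc 0 T) ?_ ?_ ?_
        · exact hvc.comp (f := fun t : ℝ => (t, u)) (by fun_prop)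
            fun t ht => ⟨ht.1, U_sub_Ind hu⟩
        · intro t ht
          rw [interior_Icc] at ht
          exact ((h1 t ⟨ht.1.le, ht.2.le⟩).2 u hu ht.1).differentiableAt.differentiableWithinAt
        · intro t ht
          rw [interior_Icc] at ht
          have ht' : t ∈ Icc 0 T := ⟨ht.1.le, ht.2.le⟩
          rw [((h1 t ht').2 u hu ht.1).deriv]
          have := (hA _ (ho t ht') (h1 t ht').1 u hu).2.2.2.2.2.2.2.2.2.2.2.2.2.1
          linarith
      have h4 : vsq (γ τ) u ≤ vsq (γ 0) u := ha ⟨le_rfl, hτ.1.trans hτ.2⟩ hτ hτ.1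
      rw [hv0 u hu, ← (hc0 u hu).2] at h4
      exact h4.trans (hB0 u hu)
    refine ⟨(h1 τ hτ).2 u hu, quarter_lt hA (ho τ hτ) (h1 τ hτ).1 hu, h3, ?_⟩
    exact (hB.2.1 _ A hApos (ho τ hτ) (h1 τ hτ).1 (h2 τ hτ) u hu).trans
      (mul_le_mul_of_nonneg_left h3 (by positivity))
  let Z : ℝ → P → ℝ := fun τ u => min (2 * A * B + 1 - ‖V (V (γ τ)) u‖) (vsq (γ τ) u - 1 / 4)
  have hup : ∀ T, (∀ t ∈ Icc 0 T, ∀ u ∈ U, 0 ≤ Z t u) → Upto γ T := by
    intro T h t ht u hu
    have h1 : 1 / 4 ≤ vsq (γ t) u := by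
      have := (le_min_iff.1 (h t ht u hu)).2
      linarith
    refine ⟨h1, fun h0 => hpde t h0 u hu (fun s => ?_) h1⟩
    have := (le_min_iff.1 (h t ht _ (rho_mem_U hu s))).1
    linarith
  have hZ : ∀ T, Upto γ T → ∀ τ ∈ Icc 0 T, ∀ u ∈ U, 0 < Z τ u := by
    intro T h τ hτ u hu
    obtain ⟨-, h1, -, h2⟩ := (key T h τ hτ).2.2 u hu
    exact lt_min (by linarith) (by linarith)
  have hall : ∀ T, Upto γ T := by
    intro T
    refine hup T fun t ht u hu => ?_
    by_contra hneg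
    have h0 : Upto γ 0 := by
      intro τ hτ w hw
      obtain rfl : τ = 0 := le_antisymm hτ.2 hτ.1
      rw [hv0 w hw]
      exact ⟨(quarter_lt hA hG.toOdd1 hc0 hw).le, fun h => absurd h (lt_irrefl _)⟩
    have hsub : Icc 0 T ×ˢ U ⊆ Ici 0 ×ˢ (Ind : Set P) := prod_mono Icc_subset_Ici_self U_sub_Ind
    obtain ⟨τ, hτ, x, hx, h1, h2, h3⟩ := touch (Z := Z) (a := 0) (b := T) isCompact_U
      ((continuousOn_const.sub (ContinuousOn.mono hP.c2 hsub).norm).inf
        ((ContinuousOn.mono hvc hsub).sub continuousOn_const))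
      (hZ 0 h0 0 ⟨le_rfl, le_rfl⟩) ⟨t, ht, u, hu, (not_le.1 hneg).le⟩
    have h4 : Upto γ τ := hup τ fun s hs w hw => by
      rcases hs.2.eq_or_lt with e | e
      · rw [e]; exact h2 w hw
      · exact (h3 s ⟨hs.1, e⟩ w hw).le
    exact (hZ τ h4 τ ⟨hτ.1.le, le_rfl⟩ x hx).ne' h1
  have k := fun τ (hτ : 0 ≤ τ) => key τ (hall τ) τ ⟨hτ, le_rfl⟩
  refine ⟨γ, A, hP, hApos, fun τ hτ u hu => (hall τ τ ⟨hτ.le, le_rfl⟩ u hu).2 hτ,
    fun τ hτ => (k τ hτ).1, fun τ hτ u hu => ((k τ hτ.le).2.2 u hu).1 hτ,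
    fun τ hτ => (k τ hτ).2.1, max B (2 * A * B), fun τ hτ u hu => ?_⟩
  obtain ⟨-, h1, h2, h3⟩ := (k τ hτ).2.2 u hu
  exact ⟨h1.le, h2.trans (le_max_left _ _), h3.trans (le_max_right _ _)⟩

end Pool.Agent.MP_2291e2_gt.Zl

end MrgPart5

-- ======== part 6: formerly Pool.Agent.MP_2291e2_gt.zl.KM
section MrgPart6

/-! Two point barrier of Karlin-McGregor type. -/

open scoped ContDiff RealInnerProductSpace Topology
open Set Filter Real

namespace Pool.Agent.MP_2291e2_gt.Zl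

namespace KM

lemma lip_sin {μ : ℝ → ℝ} {C σ h : ℝ} (hC : 0 ≤ C) (hp : μ (σ + π) = μ σ)
    (hl : ∀ x y, |μ x - μ y| ≤ C * |x - y|) (hh : h ∈ Icc 0 π) :
    |μ (σ + h) - μ σ| ≤ 2 * C * sin h := by
  have key : ∀ x, 0 ≤ x → x ≤ π / 2 → x ≤ 2 * sin x := fun x h0 h1 => by
    have h2 := mul_le_sin h0 h1
    have h3 : 1 / 2 * x ≤ 2 / π * x := by
      refine mul_le_mul_of_nonneg_right ?_ h0
      rw [div_le_div_iff₀ two_pos pi_pos]
      linarith [pi_le_four]
    linarith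
  rcases le_total h (π / 2) with h1 | h1
  · have h2 := hl (σ + h) σ
    rw [add_sub_cancel_left, abs_of_nonneg hh.1] at h2
    nlinarith [key h hh.1 h1]
  · have h2 := hl (σ + h) (σ + π)
    rw [hp, add_sub_add_left_eq_sub, abs_sub_comm h, abs_of_nonneg (sub_nonneg.2 hh.2)] at h2
    have h3 := key (π - h) (sub_nonneg.2 hh.2) (by linarith)
    rw [sin_pi_sub] at h3
    nlinarith

end KM

theorem km_of : KMStmt := by
  intro a b C δ μ c n n1 n2 m m1 m2 hab hδ hn hm hodd hco h0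
  set K := 3 + 4 * C with hK
  set K' := 2 * C + 1 with hK'
  have hper : ∀ τ ∈ Icc a b, ∀ h, Function.Periodic
      (fun σ => n τ σ * m τ (σ + h) - m τ σ * n τ (σ + h)) π := fun τ hτ h σ => by
    simp only [add_right_comm σ π h, (hodd τ hτ _).1, (hodd τ hτ _).2]
    ring
  refine ⟨δ * exp (-K * (b - a)), by positivity, fun σ h hh => ?_⟩
  refine le_of_forall_pos_le_add fun ε hε => ?_
  set ε' := ε * exp (-K' * (b - a)) with hε'
  have hε0 : 0 < ε' := by positivity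
  let Z : ℝ → ℝ × ℝ → ℝ := fun t p => n t p.1 * m t (p.1 + p.2) - m t p.1 * n t (p.1 + p.2)
    - δ * exp (-K * (t - a)) * sin p.2 + ε' * exp (K' * (t - a))
  have hc1 : ∀ {f : ℝ → ℝ → ℝ} (_ : ContinuousOn (fun q : ℝ × ℝ => f q.1 q.2) (Icc a b ×ˢ univ))
      {g : ℝ × ℝ → ℝ} (_ : Continuous g), ContinuousOn (fun q : ℝ × ℝ × ℝ => f q.1 (g q.2))
      (Icc a b ×ˢ (Icc 0 π ×ˢ Icc 0 π)) := fun {f} hf {g} hg =>
    hf.comp (f := fun q : ℝ × ℝ × ℝ => (q.1, g q.2)) (by fun_prop)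
      fun q hq => ⟨hq.1, mem_univ _⟩
  have hadd : Continuous fun p : ℝ × ℝ => p.1 + p.2 := by fun_prop
  have key := stay_pos (K := Icc 0 π ×ˢ Icc 0 π) (isCompact_Icc.prod isCompact_Icc) (Z := Z)
    (a := a) (b := b)
    (((((hc1 hn.cont continuous_fst).mul (hc1 hm.cont hadd)).sub
      ((hc1 hm.cont continuous_fst).mul (hc1 hn.cont hadd))).sub (by fun_prop)).add (by fun_prop))
    (fun p hp => by
      have := h0 p.1 p.2 hp.2
      simp only [Z, sub_self, mul_zero, exp_zero, mul_one]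
      linarith)
    (fun τ hτ p hp hZ hge => ?_) b (right_mem_Icc.2 hab)
  · obtain ⟨y, hy, e⟩ := (hper b (right_mem_Icc.2 hab) h).exists_mem_Ico₀ pi_pos σ
    have h1 := key (y, h) ⟨Ico_subset_Icc_self hy, hh⟩
    have h2 : ε' * exp (K' * (b - a)) = ε := by
      rw [hε', mul_assoc, ← exp_add]; simp
    simp only [Z, h2] at h1 e
    linarith
  obtain ⟨x, h⟩ := p
  have hτ' : τ ∈ Icc a b := Ioc_subset_Icc_self hτ
  set e := δ * exp (-K * (τ - a)) with he
  set e' := ε' * exp (K' * (τ - a)) with he'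
  have hepos : 0 < e := by positivity
  have he'pos : 0 < e' := by positivity
  have hall : ∀ x' y', y' - x' ∈ Icc 0 π →
      0 ≤ n τ x' * m τ y' - m τ x' * n τ y' - e * sin (y' - x') + e' := fun x' y' hy => by
    obtain ⟨z, hz, e1⟩ := (hper τ hτ' (y' - x')).exists_mem_Ico₀ pi_pos x'
    have h1 := hge τ ⟨hτ'.1, le_rfl⟩ (z, y' - x') ⟨Ico_subset_Icc_self hz, hy⟩
    simp only [Z, add_sub_cancel] at h1 e1
    linarith
  have hZ' : n τ x * m τ (x + h) - m τ x * n τ (x + h) - e * sin h + e' = 0 := hZ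
  have hh0 : 0 < h := lt_of_le_of_ne hp.2.1 fun e0 => by
    rw [← e0] at hZ'
    simp only [add_zero, sin_zero, mul_zero] at hZ'
    nlinarith
  have hhπ : h < π := lt_of_le_of_ne hp.2.2 fun e0 => by
    rw [e0, (hodd τ hτ' x).1, (hodd τ hτ' x).2, sin_pi] at hZ'
    nlinarith
  set y := x + h with hy
  have hyx : y - x = h := by rw [hy]; ring
  have hx := min_deriv
    (f := fun x' => n τ x' * m τ y - m τ x' * n τ y - e * sin (y - x') + e')
    (f1 := fun x' => n1 τ x' * m τ y - m1 τ x' * n τ y + e * cos (y - x'))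
    (f2 := n2 τ x * m τ y - m2 τ x * n τ y + e * sin (y - x)) (x := x)
    (by
      have : ∀ᶠ x' in 𝓝 x, y - x' ∈ Ioo 0 π :=
        (by fun_prop : Continuous fun x' => y - x').continuousAt.eventually
          (isOpen_Ioo.mem_nhds (by beta_reduce; rw [hyx]; exact ⟨hh0, hhπ⟩))
      filter_upwards [this] with x' hx'
      have := hall x' y (Ioo_subset_Icc_self hx')
      simp only [hyx]
      linarith)
    (Eventually.of_forall fun x' => by
      have h1 := ((((hn.d1 τ hτ x').mul_const (m τ y)).sub ((hm.d1 τ hτ x').mul_const (n τ y))).sub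
        ((((hasDerivAt_id x').const_sub y).sin).const_mul e)).add_const e'
      exact h1.congr_deriv (by simp))
    (by
      have h1 := (((hn.d2 τ hτ x).mul_const (m τ y)).sub ((hm.d2 τ hτ x).mul_const (n τ y))).add
        ((((hasDerivAt_id x).const_sub y).cos).const_mul e)
      exact h1.congr_deriv (by simp))
  have hy' := min_deriv
    (f := fun y' => n τ x * m τ y' - m τ x * n τ y' - e * sin (y' - x) + e')
    (f1 := fun y' => n τ x * m1 τ y' - m τ x * n1 τ y' - e * cos (y' - x))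
    (f2 := n τ x * m2 τ y - m τ x * n2 τ y + e * sin (y - x)) (x := y)
    (by
      have : ∀ᶠ y' in 𝓝 y, y' - x ∈ Ioo 0 π :=
        (by fun_prop : Continuous fun y' => y' - x).continuousAt.eventually
          (isOpen_Ioo.mem_nhds (by beta_reduce; rw [hyx]; exact ⟨hh0, hhπ⟩))
      filter_upwards [this] with y' hy'
      have := hall x y' (Ioo_subset_Icc_self hy')
      simp only [hyx]
      linarith)
    (Eventually.of_forall fun y' => by
      have h1 := ((((hm.d1 τ hτ y').const_mul (n τ x)).sub ((hn.d1 τ hτ y').const_mul (m τ x))).sub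
        ((((hasDerivAt_id y').sub_const x).sin).const_mul e)).add_const e'
      exact h1.congr_deriv (by simp))
    (by
      have h1 := (((hm.d2 τ hτ y).const_mul (n τ x)).sub ((hn.d2 τ hτ y).const_mul (m τ x))).sub
        ((((hasDerivAt_id y).sub_const x).cos).const_mul e)
      exact h1.congr_deriv (by simp))
  simp only [hyx] at hx hy'
  obtain ⟨hx1, hx2⟩ := hx
  obtain ⟨hy1, hy2⟩ := hy'
  have hd := (((((hn.dt τ hτ x).mul (hm.dt τ hτ y)).sub ((hm.dt τ hτ x).mul (hn.dt τ hτ y))).sub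
    ((((((hasDerivAt_id τ).sub_const a).const_mul (-K)).exp).const_mul δ).mul_const (sin h))).add
    (((((hasDerivAt_id τ).sub_const a).const_mul K').exp).const_mul ε'))
  refine ⟨_, ?_, hd⟩
  obtain ⟨hμ, hcx, -⟩ := hco τ hτ x
  have hcy := (hco τ hτ y).2.1
  have hC : 0 ≤ C := (abs_nonneg _).trans hcx
  have hl := abs_le.1 (KM.lip_sin hC hμ (fun x' y' => (hco τ hτ x').2.2 y') hp.2)
  have hs : 0 ≤ sin h := sin_nonneg_of_mem_Icc hp.2
  have hcs := abs_le.1 (abs_cos_le_one h)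
  have hcx' := abs_le.1 hcx
  have hcy' := abs_le.1 hcy
  have e1 : (n2 τ x + μ τ x * n1 τ x + c τ x * n τ x) * m τ y +
      n τ x * (m2 τ y + μ τ y * m1 τ y + c τ y * m τ y) -
      ((m2 τ x + μ τ x * m1 τ x + c τ x * m τ x) * n τ y +
        m τ x * (n2 τ y + μ τ y * n1 τ y + c τ y * n τ y)) =
      (n2 τ x * m τ y - m2 τ x * n τ y) + (n τ x * m2 τ y - m τ x * n2 τ y) +
        (μ τ y - μ τ x) * cos h * e + (c τ x + c τ y) * (e * sin h - e') := by
    linear_combination μ τ x * hx1 + μ τ y * hy1 + (c τ x + c τ y) * hZ'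
  have b1 : -(2 * C * sin h) ≤ (μ τ y - μ τ x) * cos h := by
    have := abs_le.1 (show |(μ τ y - μ τ x) * cos h| ≤ 2 * C * sin h by
      rw [abs_mul]
      exact (mul_le_of_le_one_right (abs_nonneg _) (abs_cos_le_one h)).trans (abs_le.2 hl))
    exact this.1
  have b2 : -(2 * C * sin h) * e ≤ (μ τ y - μ τ x) * cos h * e :=
    mul_le_mul_of_nonneg_right b1 hepos.le
  have b3 : -(2 * C) * (e * sin h) ≤ (c τ x + c τ y) * (e * sin h) :=
    mul_le_mul_of_nonneg_right (by linarith) (by positivity)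
  have b4 : (c τ x + c τ y) * e' ≤ 2 * C * e' :=
    mul_le_mul_of_nonneg_right (by linarith) he'pos.le
  have b5 : 0 ≤ e * sin h := by positivity
  simp only [id, e1]
  have e2 : δ * (exp (-K * (τ - a)) * (-K * 1)) * sin h = -K * (e * sin h) := by rw [he]; ring
  have e3 : ε' * (exp (K' * (τ - a)) * (K' * 1)) = K' * e' := by rw [he']; ring
  rw [e2, e3, hK, hK']
  nlinarith

end Pool.Agent.MP_2291e2_gt.Zl

end MrgPart6

-- ======== part 7: formerly Pool.Agent.MP_2291e2_gt.zl.Kc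
section MrgPart7

/-! Families that are smooth in the parameter with values in continuous functions of time. -/

open scoped ContDiff RealInnerProductSpace Topology
open Set Filter Real

namespace Pool.Agent.MP_2291e2_gt.Zl

namespace KcA

section
variable {F : Type} [NormedAddCommGroup F] [NormedSpace ℝ F] {f : ℝ → P → F}

lemma proj_mul {T τ : ℝ} (hT : 0 < T) (h : τ ∈ Icc 0 T) :
    T * (projIcc 0 1 zero_le_one (τ / T) : II) = τ := by
  rw [projIcc_of_mem _ ⟨div_nonneg h.1 hT.le, (div_le_one hT).mpr h.2⟩]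
  simp only
  field_simp

lemma c0 (h : Kc f) : C0 f := by
  rintro ⟨τ, u⟩ ⟨hτ, hu⟩
  have hT : 0 < τ + 1 := by have : 0 ≤ τ := hτ; linarith
  obtain ⟨Q, sQ, e⟩ := h (τ + 1) hT
  have c1 : ContinuousOn (fun q : ℝ × P => Q q.2 (projIcc 0 1 zero_le_one (q.1 / (τ + 1))))
      (Ici 0 ×ˢ Ind) :=
    ContinuousOn.eval (sQ.continuousOn.comp continuousOn_snd fun q hq => hq.2)
      (continuous_projIcc.comp (continuous_fst.div_const _)).continuousOn
  have n1 : ∀ᶠ q : ℝ × P in 𝓝[Ici 0 ×ˢ Ind] (τ, u), q.1 < τ + 1 :=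
    nhdsWithin_le_nhds (continuousAt_fst.eventually (eventually_lt_nhds (by simp)))
  refine (c1 _ ⟨hτ, hu⟩).congr_of_eventuallyEq ?_ ?_
  · filter_upwards [n1, self_mem_nhdsWithin] with q h1 h2
    rw [e _ h2.2, proj_mul hT ⟨h2.1, h1.le⟩]
  · simp only
    rw [e _ hu, proj_mul hT ⟨hτ, by linarith⟩]

lemma slice (h : Kc f) {τ : ℝ} (hτ : 0 ≤ τ) : ContDiffOn ℝ ∞ (f τ) Ind := by
  have hT : 0 < τ + 1 := by linarith
  obtain ⟨Q, sQ, e⟩ := h (τ + 1) hT
  refine ((ContinuousMap.evalCLM ℝ (projIcc 0 1 zero_le_one (τ / (τ + 1)))).contDiff.comp_contDiffOn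
    sQ).congr fun u hu => ?_
  simp only [Function.comp_apply, ContinuousMap.evalCLM_apply]
  rw [e _ hu, proj_mul hT ⟨hτ, by linarith⟩]

lemma der (h : Kc f) {A : P → P} (hA : ContDiffOn ℝ ∞ A Ind) :
    Kc (fun τ u => fderiv ℝ (f τ) u (A u)) := by
  intro T hT
  obtain ⟨Q, sQ, e⟩ := h T hT
  refine ⟨fun u => fderiv ℝ Q u (A u),
    (sQ.fderiv_of_isOpen isOpen_Ind (by simp)).clm_apply hA, fun u hu s => ?_⟩
  have h1 := ((ContinuousMap.evalCLM ℝ s).hasFDerivAt.comp u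
    (diffAt_of_Ind sQ hu).hasFDerivAt).fderiv
  have h2 : f (T * s) =ᶠ[𝓝 u] (ContinuousMap.evalCLM ℝ s) ∘ Q := by
    filter_upwards [isOpen_Ind.mem_nhds hu] with w hw
    exact (e w hw s).symm
  simp only
  rw [h2.fderiv_eq, h1]
  rfl

end

lemma normsq (hN : NemStmt) {f : ℝ → P → E} (h : Kc f) : Kc (fun τ u => ‖f τ u‖ ^ 2) := by
  intro T hT
  obtain ⟨Q, sQ, e⟩ := h T hT
  obtain ⟨-, N, sN, eN⟩ := hN II E ℝ univ (fun x => ‖x‖ ^ 2) isOpen_univ
    (contDiff_norm_sq ℝ).contDiffOn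
  exact ⟨fun u => N (Q u), sN.comp sQ fun u _ _ => trivial, fun u hu s => by
    rw [eN _ fun _ => trivial, e u hu]⟩

lemma mean (hP : PIntStmt) {f : ℝ → P → ℝ} (h : Kc f) : Kc (fun τ => Mean (f τ)) := by
  intro T hT
  obtain ⟨Q, sQ, e⟩ := h T hT
  have s1 : ContDiffOn ℝ ∞ (fun q : P × ℝ => Q (rho q.2 q.1)) (Ind ×ˢ univ) :=
    sQ.comp (contDiff_rho.comp (contDiff_snd.prodMk contDiff_fst)).contDiffOn
      fun q hq => rho_mem_Ind hq.1 _
  have hI := (hP P C(II, ℝ) _ _ (isOpen_Ind.prod isOpen_univ) s1).1 0 π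
  refine ⟨fun u => π⁻¹ • ∫ s in (0 : ℝ)..π, Q (rho s u), fun u hu =>
    ((hI u fun _ _ => ⟨hu, trivial⟩).1.const_smul _).contDiffWithinAt, fun u hu s => ?_⟩
  have c1 : Continuous fun r : ℝ => Q (rho r u) :=
    sQ.continuousOn.comp_continuous (continuous_rho.comp (continuous_id.prodMk continuous_const))
      fun r => rho_mem_Ind hu r
  have h1 := (ContinuousMap.evalCLM ℝ s).intervalIntegral_comp_comm
    (c1.intervalIntegrable (μ := MeasureTheory.volume) 0 π)
  simp only [ContinuousMap.evalCLM_apply] at h1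
  rw [ContinuousMap.smul_apply, ← h1, smul_eq_mul]
  simp only [Mean, e _ (rho_mem_Ind hu _)]

lemma ext_cont (g : C(II, ℝ)) : Continuous fun r : ℝ => g (projIcc 0 1 zero_le_one r) :=
  g.continuous.comp continuous_projIcc

/-- The primitive as a linear map. -/
noncomputable def primL : C(II, ℝ) →ₗ[ℝ] C(II, ℝ) where
  toFun g := ⟨fun s => ∫ r in (0 : ℝ)..s, g (projIcc 0 1 zero_le_one r),
    (intervalIntegral.continuous_primitive
      (fun _ _ => (ext_cont g).intervalIntegrable _ _) 0).comp continuous_subtype_val⟩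
  map_add' g g' := by
    ext s
    exact intervalIntegral.integral_add ((ext_cont g).intervalIntegrable _ _)
      ((ext_cont g').intervalIntegrable _ _)
  map_smul' c g := by
    ext s
    exact intervalIntegral.integral_smul c _

/-- The primitive as a continuous linear map. -/
noncomputable def prim : C(II, ℝ) →L[ℝ] C(II, ℝ) :=
  primL.mkContinuous 1 fun g => by
    rw [one_mul, ContinuousMap.norm_le _ (norm_nonneg _)]
    intro s
    refine (intervalIntegral.norm_integral_le_of_norm_le_const (C := ‖g‖)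
      fun r _ => g.norm_coe_le_norm _).trans ?_
    rw [sub_zero, abs_of_nonneg s.2.1]
    exact mul_le_of_le_one_right (norm_nonneg _) s.2.2

lemma time {f : ℝ → P → ℝ} (h : Kc f) : Kc (fun τ u => ∫ t in (0 : ℝ)..τ, f t u) := by
  intro T hT
  obtain ⟨Q, sQ, e⟩ := h T hT
  refine ⟨fun u => T • prim (Q u), (prim.contDiff.comp_contDiffOn sQ).const_smul T,
    fun u hu s => ?_⟩
  have h1 := intervalIntegral.smul_integral_comp_mul_left (a := 0) (b := s) (fun t => f t u) T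
  rw [mul_zero] at h1
  refine Eq.trans ?_ h1
  rw [ContinuousMap.smul_apply]
  congr 1
  refine intervalIntegral.integral_congr fun r hr => ?_
  rw [uIcc_of_le s.2.1] at hr
  rw [e u hu, projIcc_of_mem _ ⟨hr.1, hr.2.trans s.2.2⟩]

lemma time_sm (hP : PIntStmt) {f : ℝ → P → ℝ} (h : Kc f) (hs : SmP f) :
    SmP (fun τ u => ∫ t in (0 : ℝ)..τ, f t u) := by
  rintro ⟨τ, u⟩ ⟨hτ, hu⟩
  have hτ' : 0 < τ := hτ
  have s1 : ContDiffOn ℝ ∞ (fun q : P × ℝ => f q.2 q.1) (Ind ×ˢ Ioi 0) :=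
    ContDiffOn.comp (g := fun q : ℝ × P => f q.1 q.2) hs
      (contDiff_snd.prodMk contDiff_fst).contDiffOn fun q hq => ⟨hq.2, hq.1⟩
  have h1 := (hP P ℝ _ _ (isOpen_Ind.prod isOpen_Ioi) s1).2 τ τ u fun s hs' => by
    rw [uIcc_self] at hs'
    rw [hs']
    exact ⟨hu, hτ⟩
  have h2 : ContDiffAt ℝ ∞ (fun q : ℝ × P => ∫ s in τ..q.1, f s q.2) (τ, u) :=
    ContDiffAt.comp (g := fun q : P × ℝ => ∫ s in τ..q.2, f s q.1) (f := fun q : ℝ × P => (q.2, q.1))
      (τ, u) h1 (contDiffAt_snd.prodMk contDiffAt_fst)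
  have h3 : ContDiffAt ℝ ∞ (fun q : ℝ × P => ∫ s in (0 : ℝ)..τ, f s q.2) (τ, u) :=
    ContDiffAt.comp (g := fun w : P => ∫ s in (0 : ℝ)..τ, f s w) (f := fun q : ℝ × P => q.2) (τ, u)
      ((slice (time h) hτ'.le).contDiffAt (isOpen_Ind.mem_nhds hu)) contDiffAt_snd
  refine (h3.add h2).contDiffWithinAt.congr_of_mem (fun q hq => ?_) ⟨hτ, hu⟩
  have c1 : ContinuousOn (fun t => f t q.2) (Ici 0) :=
    ContinuousOn.comp (g := fun q : ℝ × P => f q.1 q.2) (c0 h)
      (continuous_id.prodMk continuous_const).continuousOn fun t ht => ⟨ht, hq.2⟩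
  have i1 : ∀ x y : ℝ, 0 ≤ x → 0 ≤ y →
      IntervalIntegrable (fun t => f t q.2) MeasureTheory.volume x y := fun x y hx hy =>
    (c1.mono fun t ht => le_trans (le_min hx hy) ht.1).intervalIntegrable
  exact (intervalIntegral.integral_add_adjacent_intervals (i1 _ _ le_rfl hτ'.le)
    (i1 _ _ hτ'.le (le_of_lt hq.1))).symm

end KcA

open KcA in
theorem kc_of (hN : NemStmt) (hP : PIntStmt) (hM : MeanStmt) : KcStmt := by
  refine ⟨fun F _ _ f h => ⟨KcA.c0 h, fun τ hτ => slice h hτ, fun A hA => der h hA⟩,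
    fun γ h hs => ?_⟩
  have k1 : Kc (fun τ => vsq (γ τ)) :=
    mean hP (normsq hN (der h (A := fun u => W u u.1)
      (contDiff_W.comp (contDiff_id.prodMk contDiff_fst)).contDiffOn))
  have k2 : SmP (fun τ => vsq (γ τ)) :=
    (hM.2.1 (fun τ u => ‖V (γ τ) u‖ ^ 2) (ContDiffOn.norm_sq ℝ hs.V)).1
  exact ⟨time k1, time_sm hP k1 k2⟩

end Pool.Agent.MP_2291e2_gt.Zl

end MrgPart7

-- ======== part 8: formerly Pool.Agent.MP_2291e2_gt.zl.Lift
section MrgPart8

/-! Smooth argument on a convex set. -/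

open scoped ContDiff Topology
open Set Filter

namespace Pool.Agent.MP_2291e2_gt.Zl

theorem lift_of (_hP : PIntStmt) : LiftStmt := by
  intro X _ _ Ω ζ x₀ θ₀ hΩ hc hζ h0 hx₀ e₀
  have := hc.contractibleSpace ⟨x₀, hx₀⟩
  obtain ⟨F, hF, eF⟩ := Complex.exists_continuousOn_eqOn_exp_comp
    (show IsSimplyConnected Ω from SimplyConnectedSpace.ofContractible _) hΩ hζ.continuousOn
    fun ⟨x, hx, e⟩ => h0 x hx e
  replace eF : ∀ x ∈ Ω, Complex.exp (F x) = ζ x := eF
  refine ⟨fun x => θ₀ + (F x - F x₀).im, fun x₁ hx₁ => ContDiffAt.contDiffWithinAt ?_, by simp,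
    fun x hx => ?_⟩
  · have h1 : ContDiffAt ℝ ∞ (fun x => Complex.log (ζ x / ζ x₁) + F x₁) x₁ := by
      refine ContDiffAt.add (ContDiffAt.comp x₁ (g := Complex.log)
        ((Complex.contDiffAt_log ?_).restrict_scalars ℝ) ?_) contDiffAt_const
      · rw [div_self (h0 _ hx₁)]
        exact Complex.one_mem_slitPlane
      · exact (hζ.contDiffAt (hΩ.mem_nhds hx₁)).div_const _
    have h2 : ContinuousAt (fun x => (F x - F x₁).im) x₁ :=
      Complex.continuous_im.continuousAt.comp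
        ((hF.continuousAt (hΩ.mem_nhds hx₁)).sub continuousAt_const)
    have h3 : ContDiffAt ℝ ∞ F x₁ := by
      refine h1.congr_of_eventuallyEq ?_
      filter_upwards [hΩ.mem_nhds hx₁, h2.eventually (Ioo_mem_nhds (a := -Real.pi) (b := Real.pi)
        (by simp [Real.pi_pos]) (by simp [Real.pi_pos]))] with x hx h
      rw [← eF x hx, ← eF x₁ hx₁, ← Complex.exp_sub, Complex.log_exp h.1 h.2.le, sub_add_cancel]
    exact contDiffAt_const.add (Complex.imCLM.contDiff.contDiffAt.comp x₁ (h3.sub contDiffAt_const))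
  · have h1 : ζ x = Complex.exp (F x - F x₀) * ζ x₀ := by
      rw [← eF x hx, ← eF x₀ hx₀, ← Complex.exp_add, sub_add_cancel]
    have h2 : Complex.exp (F x - F x₀) =
        Real.exp (F x - F x₀).re * Complex.exp ((F x - F x₀).im * Complex.I) := by
      rw [Complex.ofReal_exp, ← Complex.exp_add, Complex.re_add_im]
    rw [h1, norm_mul, Complex.norm_exp, Complex.ofReal_mul, Complex.ofReal_add, add_mul,
      Complex.exp_add]
    linear_combination ζ x₀ * h2 + (Real.exp (F x - F x₀).re *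
      Complex.exp ((F x - F x₀).im * Complex.I)) * e₀

end Pool.Agent.MP_2291e2_gt.Zl

end MrgPart8

-- ======== part 9: formerly Pool.Agent.MP_2291e2_gt.zl.Mean
section MrgPart9

/-! Fibre averages. -/

open scoped ContDiff RealInnerProductSpace Topology
open Set Filter Real MeasureTheory

namespace Pool.Agent.MP_2291e2_gt.Zl

namespace MeanM

lemma fderiv_slice {X : Type} [NormedAddCommGroup X] [NormedSpace ℝ X] {F : X × ℝ → ℝ} {x : X}
    {s : ℝ} (h : DifferentiableAt ℝ F (x, s)) (δ : X) :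
    fderiv ℝ F (x, s) (δ, 0) = fderiv ℝ (fun x => F (x, s)) x δ := by
  have h1 : HasFDerivAt (fun x : X => (x, s)) (ContinuousLinearMap.inl ℝ X ℝ) x :=
    hasFDerivAt_prodMk_left x s
  rw [show (fun x => F (x, s)) = F ∘ fun x => (x, s) from rfl,
    (h.hasFDerivAt.comp x h1).fderiv]
  rfl

/-- Weighted fibre integrals with a parameter. -/
lemma par (hP : PIntStmt) {X : Type} [NormedAddCommGroup X] [NormedSpace ℝ X] {S : Set X}
    (hS : IsOpen S) {F : X × ℝ → ℝ} (hF : ContDiffOn ℝ ∞ F (S ×ˢ univ)) :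
    ContDiffOn ℝ ∞ (fun x => ∫ s in (0 : ℝ)..π, F (x, s)) S ∧ ∀ x ∈ S, ∀ δ,
      fderiv ℝ (fun x => ∫ s in (0 : ℝ)..π, F (x, s)) x δ
        = ∫ s in (0 : ℝ)..π, fderiv ℝ (fun x => F (x, s)) x δ := by
  have h := (hP X ℝ _ F (hS.prod isOpen_univ) hF).1 0 π
  refine ⟨fun x hx => (h x fun s _ => ⟨hx, trivial⟩).1.contDiffWithinAt, fun x hx δ => ?_⟩
  rw [(h x fun s _ => ⟨hx, trivial⟩).2]
  exact intervalIntegral.integral_congr fun s _ => fderiv_slice
    ((hF.contDiffAt ((hS.prod isOpen_univ).mem_nhds ⟨hx, trivial⟩)).differentiableAt (by simp)) δ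

lemma sm_rho {f : P → ℝ} (hf : ContDiffOn ℝ ∞ f Ind) :
    ContDiffOn ℝ ∞ (fun q : P × ℝ => f (rho q.2 q.1)) (Ind ×ˢ univ) :=
  hf.comp (contDiff_rho.comp (contDiff_snd.prodMk contDiff_fst)).contDiffOn
    fun q hq => rho_mem_Ind hq.1 q.2

lemma sm_rho' {f : ℝ → P → ℝ} (hf : SmP f) : ContDiffOn ℝ ∞
    (fun q : (ℝ × P) × ℝ => f q.1.1 (rho q.2 q.1.2)) ((Ioi 0 ×ˢ Ind) ×ˢ univ) :=
  ContDiffOn.comp (g := fun q : ℝ × P => f q.1 q.2) hf (contDiff_fst.fst.prodMk
    (contDiff_rho.comp (contDiff_snd.prodMk contDiff_fst.snd))).contDiffOn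
    fun q hq => ⟨hq.1.1, rho_mem_Ind hq.1.2 q.2⟩

lemma cont_par {f : ℝ → P → ℝ} (hf : C0 f) {w : ℝ → ℝ} (hw : Continuous w) :
    C0 fun τ u => ∫ s in (0 : ℝ)..π, w s * f τ (rho s u) := by
  refine continuousOn_iff_continuous_domRestrict.2
    (intervalIntegral.continuous_parametric_intervalIntegral_of_continuous'
      (f := fun (q : (Ici (0 : ℝ) ×ˢ Ind : Set (ℝ × P))) s => w s * f q.1.1 (rho s q.1.2)) ?_ _ _)
  refine (hw.comp continuous_snd).mul (ContinuousOn.comp_continuous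
    (g := fun q : ℝ × P => f q.1 q.2) hf (f := fun q : (Ici (0 : ℝ) ×ˢ Ind : Set (ℝ × P)) × ℝ =>
      (q.1.1.1, rho q.2 q.1.1.2)) (by fun_prop) fun q => ⟨q.1.2.1, rho_mem_Ind q.1.2.2 _⟩)

lemma shift {g : ℝ → ℝ} (hg : Function.Periodic g π) (t : ℝ) :
    ∫ s in (0 : ℝ)..π, g (s + t) = ∫ s in (0 : ℝ)..π, g s := by
  rw [intervalIntegral.integral_comp_add_right, zero_add, add_comm π t,
    hg.intervalIntegral_add_eq t 0, zero_add]

lemma dbl {g : ℝ → ℝ} (gc : Continuous g) (per : Function.Periodic g π) :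
    ∫ t in (0 : ℝ)..π, (π⁻¹ * (∫ s in (0 : ℝ)..π, s * g (s + t))
      - π / 2 * (π⁻¹ * ∫ s in (0 : ℝ)..π, g s)) = 0 := by
  have c1 : Continuous fun q : ℝ × ℝ => q.2 * g (q.2 + q.1) := by fun_prop
  have c2 : Continuous fun t => ∫ s in (0 : ℝ)..π, s * g (s + t) :=
    intervalIntegral.continuous_parametric_intervalIntegral_of_continuous'
      (f := fun t s => s * g (s + t)) c1 _ _
  have c3 : Continuous fun t => π⁻¹ * ∫ s in (0 : ℝ)..π, s * g (s + t) := continuous_const.mul c2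
  have e : ∫ t in (0 : ℝ)..π, ∫ s in (0 : ℝ)..π, s * g (s + t)
      = π ^ 2 / 2 * ∫ s in (0 : ℝ)..π, g s := by
    rw [intervalIntegral_intervalIntegral_swap (F := fun t s => s * g (s + t))
      ((c1.continuousOn.integrableOn_compact (isCompact_uIcc.prod isCompact_uIcc)).mono_set
        (prod_mono uIoc_subset_uIcc uIoc_subset_uIcc))]
    have e1 : ∀ s, ∫ t in (0 : ℝ)..π, s * g (s + t) = s * ∫ t in (0 : ℝ)..π, g t := fun s => by
      rw [intervalIntegral.integral_const_mul, ← shift per s]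
      simp only [add_comm s]
    simp only [e1]
    rw [intervalIntegral.integral_mul_const, integral_id]
    ring
  rw [intervalIntegral.integral_sub (c3.intervalIntegrable _ _) intervalIntegrable_const,
    intervalIntegral.integral_const_mul, e, intervalIntegral.integral_const, smul_eq_mul]
  field_simp
  ring

end MeanM

open MeanM

theorem mean_of (hP : PIntStmt) : MeanStmt := by
  refine ⟨fun f hf => ?_, fun f hf => ?_, fun f hf => ?_⟩
  · have h1 := par hP isOpen_Ind (sm_rho hf)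
    have h2 := par hP isOpen_Ind (contDiffOn_snd.mul (sm_rho hf))
    have m1 : ContDiffOn ℝ ∞ (Mean f) Ind := contDiffOn_const.mul h1.1
    have m2 : ContDiffOn ℝ ∞ (Kop f) Ind :=
      (contDiffOn_const.mul h2.1).sub (contDiffOn_const.mul m1)
    have dr : ∀ u ∈ U, ∀ s, DifferentiableAt ℝ (fun x => f (rho s x)) u := fun u hu s =>
      (diffAt_of_U hf (rho_mem_U hu s)).comp u (by unfold rho; fun_prop)
    have m3 : ∀ u ∈ U, ∀ ξ, dW (Mean f) u ξ = Mean (fun u => dW f u ξ) u := fun u hu ξ => by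
      have := dW_csmul π⁻¹ (diffAt_of_U h1.1 hu) ξ
      refine this.trans ?_
      rw [dW, h1.2 u (U_sub_Ind hu), smul_eq_mul, Mean]
      congr 1
      exact intervalIntegral.integral_congr fun s _ =>
        dW_comp_rho (diffAt_of_U hf (rho_mem_U hu s)) ξ
    refine ⟨m1, m2, m3, fun ev u hu => ?_⟩
    have per : Function.Periodic (fun s => f (rho s u)) π := fun s => by
      simp only [rho_add_pi, ev _ (rho_mem_U hu s)]
    have gd := hasDerivAt_V' hf hu
    have gc : Continuous fun s => f (rho s u) :=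
      continuous_iff_continuousAt.2 fun s => (gd s).continuousAt
    have gc' : Continuous fun s => V f (rho s u) := continuous_iff_continuousAt.2 fun s =>
      (hasDerivAt_V' (contDiffOn_V hf) hu s).continuousAt
    have e0 : f (rho π u) = f u := by rw [rho_pi, ev u hu]
    have a1 : ∀ s, Mean f (rho s u) = Mean f u := fun s => by
      simp only [Mean, rho_add hu]
      rw [shift per]
    have a2 : V (Mean f) u = 0 := V_eq_of_hasDerivAt hu (diffAt_of_U m1 hu) (by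
      simp only [a1]; exact hasDerivAt_const _ _)
    refine ⟨a1, a2, ?_, ?_, ?_, ?_, fun C hC => ?_⟩
    · have e : ∀ s, f (rho s (rev u)) = f (rho s u) := fun s => by
        rw [rho_rev, ev _ (rho_mem_U hu s)]
      simp only [Kop, Mean, e]
    · have b1 := dW_fsub ((diffAt_of_U h2.1 hu).const_smul π⁻¹)
        ((diffAt_of_U m1 hu).const_smul (π / 2)) u.1
      refine b1.trans ?_
      have b2 := dW_csmul π⁻¹ (diffAt_of_U h2.1 hu) u.1
      have b3 := dW_csmul (π / 2) (diffAt_of_U m1 hu) u.1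
      have b4 : dW (fun x => ∫ s in (0 : ℝ)..π, s * f (rho s x)) u u.1
          = ∫ s in (0 : ℝ)..π, s * V f (rho s u) := by
        rw [dW, h2.2 u (U_sub_Ind hu)]
        refine intervalIntegral.integral_congr fun s _ => ?_
        have := dW_csmul s (dr u hu s) u.1
        refine this.trans ?_
        rw [dW_comp_rho (diffAt_of_U hf (rho_mem_U hu s))]
        rfl
      refine (congrArg₂ (· - ·) b2 b3).trans ?_
      rw [b4, show dW (Mean f) u u.1 = 0 from a2,
        intervalIntegral.integral_mul_deriv_eq_deriv_mul (fun s _ => hasDerivAt_id' s)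
          (fun s _ => gd s) (by simp) (gc'.intervalIntegrable _ _), e0]
      simp only [Mean, smul_eq_mul, one_mul, zero_mul, mul_zero, sub_zero]
      field_simp
    · rw [Mean]
      simp only [Kop, a1, rho_add hu]
      rw [Mean, dbl gc per, mul_zero]
    · rw [Mean, intervalIntegral.integral_eq_sub_of_hasDerivAt (fun s _ => gd s)
        (gc'.intervalIntegrable _ _), e0]
      simp
    · have k1 : |Mean f u| ≤ C := by
        have := intervalIntegral.norm_integral_le_of_norm_le_const (a := 0) (b := π)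
          (f := fun s => f (rho s u)) fun s _ => hC s
        rw [Mean, abs_mul, abs_of_pos (inv_pos.2 pi_pos), inv_mul_le_iff₀ pi_pos]
        rw [sub_zero, abs_of_pos pi_pos, mul_comm] at this
        exact this
      have k2 := intervalIntegral.norm_integral_le_of_norm_le (μ := volume) pi_pos.le
        (f := fun s => s * f (rho s u)) (g := fun s => s * C) (Eventually.of_forall fun s hs => by
          rw [Real.norm_eq_abs, abs_mul, abs_of_pos hs.1]
          exact mul_le_mul_of_nonneg_left (hC s) hs.1.le)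
        ((continuous_id.mul continuous_const).intervalIntegrable _ _)
      rw [intervalIntegral.integral_mul_const, integral_id, Real.norm_eq_abs] at k2
      refine ⟨k1, (abs_sub _ _).trans ?_⟩
      rw [abs_mul, abs_mul, abs_of_pos (inv_pos.2 pi_pos), abs_of_pos (half_pos pi_pos)]
      have k3 := mul_le_mul_of_nonneg_left k2 (inv_pos.2 pi_pos).le
      have k4 := mul_le_mul_of_nonneg_left k1 (half_pos pi_pos).le
      rw [show π⁻¹ * ((π ^ 2 - 0 ^ 2) / 2 * C) = π / 2 * C by field_simp; ring] at k3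
      linarith
  · have o : IsOpen (Ioi (0 : ℝ) ×ˢ Ind) := isOpen_Ioi.prod isOpen_Ind
    have h1 := par hP o (sm_rho' hf)
    have h2 := par hP o (contDiffOn_snd.mul (sm_rho' hf))
    have m1 : SmP fun τ => Mean (f τ) := contDiffOn_const.mul h1.1
    refine ⟨m1, (contDiffOn_const.mul h2.1).sub (contDiffOn_const.mul m1), fun τ hτ u hu => ?_⟩
    have l : HasDerivAt (fun t : ℝ => (t, u)) (1, 0) τ :=
      (hasDerivAt_id' τ).prodMk (hasDerivAt_const τ u)
    have hm : (τ, u) ∈ Ioi (0 : ℝ) ×ˢ Ind := ⟨hτ, hu⟩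
    have d := (((h1.1.contDiffAt (o.mem_nhds hm)).differentiableAt
      (by simp)).hasFDerivAt.comp_hasDerivAt τ l).const_mul π⁻¹
    refine d.congr_deriv ?_
    rw [h1.2 _ hm, Mean]
    congr 1
    refine intervalIntegral.integral_congr fun s _ => ?_
    have d1 : DifferentiableAt ℝ (fun x : ℝ × P => f x.1 (rho s x.2)) (τ, u) :=
      DifferentiableAt.comp (g := fun q : (ℝ × P) × ℝ => f q.1.1 (rho q.2 q.1.2))
        (f := fun x => (x, s)) _ (((sm_rho' hf).contDiffAt ((o.prod isOpen_univ).mem_nhds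
          ⟨hm, trivial⟩)).differentiableAt (by simp)) (by fun_prop)
    exact (d1.hasFDerivAt.comp_hasDerivAt τ l).deriv.symm
  · have m1 : C0 fun τ => Mean (f τ) := continuousOn_const.mul (by
      simpa only [one_mul, C0] using cont_par hf (continuous_const (y := 1)))
    exact ⟨m1, (continuousOn_const.mul (cont_par hf continuous_id)).sub
      (continuousOn_const.mul m1)⟩

end Pool.Agent.MP_2291e2_gt.Zl

end MrgPart9

-- ======== part 10: formerly Pool.Agent.MP_2291e2_gt.zl.Nem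
section MrgPart10

/-! Row NEM: composition operators on spaces of continuous maps are smooth. -/

open scoped ContDiff Topology
open Set Filter

namespace Pool.Agent.MP_2291e2_gt.Zl

namespace Nem

variable {K A : Type} [TopologicalSpace K] [CompactSpace K] [NormedAddCommGroup A]
  [NormedSpace ℝ A]

/-- Pointwise application of a family of linear maps. -/
noncomputable def app (K A B : Type) [TopologicalSpace K] [CompactSpace K] [NormedAddCommGroup A]
    [NormedSpace ℝ A] [NormedAddCommGroup B] [NormedSpace ℝ B] :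
    C(K, A →L[ℝ] B) →L[ℝ] C(K, A) →L[ℝ] C(K, B) :=
  LinearMap.mkContinuous₂ (LinearMap.mk₂ ℝ
    (fun (F : C(K, A →L[ℝ] B)) (h : C(K, A)) =>
      (⟨fun k => F k (h k), F.continuous.clm_apply h.continuous⟩ : C(K, B)))
    (fun F F' h => by ext k; simp) (fun c F h => by ext k; simp)
    (fun F h h' => by ext k; simp) (fun c F h => by ext k; simp)) 1 fun F h => by
      rw [one_mul]
      refine (ContinuousMap.norm_le _ (by positivity)).2 fun k => ?_
      exact ((F k).le_opNorm (h k)).trans (mul_le_mul (F.norm_coe_le_norm k)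
        (h.norm_coe_le_norm k) (norm_nonneg _) (by positivity))

/-- The composition operator. -/
noncomputable def nem {B : Type} [NormedAddCommGroup B] (χ : A → B) (g : C(K, A)) : C(K, B) :=
  ContinuousMap.mkD (fun k => χ (g k)) 0

omit [CompactSpace K] [NormedSpace ℝ A] in
theorem nem_apply {B : Type} [NormedAddCommGroup B] {Ω : Set A} {χ : A → B}
    (hχ : ContinuousOn χ Ω) {g : C(K, A)} (hg : ∀ k, g k ∈ Ω) (k : K) : nem χ g k = χ (g k) :=
  ContinuousMap.mkD_apply_of_continuous (hχ.comp_continuous g.continuous hg)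

omit [NormedSpace ℝ A] in
theorem isOpen_dom {Ω : Set A} (hΩ : IsOpen Ω) : IsOpen {g : C(K, A) | ∀ k, g k ∈ Ω} := by
  have := ContinuousMap.isOpen_setOfPred_mapsTo (X := K) isCompact_univ hΩ
  simpa only [mapsTo_univ_iff] using this

theorem hasFDerivAt_nem {B : Type} [NormedAddCommGroup B] [NormedSpace ℝ B] {Ω : Set A}
    {χ : A → B} (hΩ : IsOpen Ω) (hχ : ContDiffOn ℝ ∞ χ Ω) {g : C(K, A)} (hg : ∀ k, g k ∈ Ω) :
    HasFDerivAt (nem χ) (app K A B (nem (fderiv ℝ χ) g)) g := by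
  have h1 : ContinuousOn (fderiv ℝ χ) Ω := hχ.continuousOn_fderiv_of_isOpen hΩ (by simp)
  have hK : IsCompact (range g) := isCompact_range g.continuous
  have hs : range g ⊆ Ω := range_subset_iff.2 hg
  rw [hasFDerivAt_iff_isLittleO, Asymptotics.isLittleO_iff]
  intro ε hε
  obtain ⟨δ₁, hδ₁, t1⟩ := hK.exists_thickening_subset_open hΩ hs
  obtain ⟨δ₂, hδ₂, t2⟩ := Metric.mem_uniformity_dist.1
    (hK.uniformContinuousAt_of_continuousAt (fderiv ℝ χ)
      (fun a ha => h1.continuousAt (hΩ.mem_nhds (hs ha))) (Metric.dist_mem_uniformity hε))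
  have hb : ∀ k, Metric.ball (g k) (min δ₁ δ₂) ⊆ Ω := fun k y hy =>
    t1 (Metric.mem_thickening_iff.2 ⟨g k, ⟨k, rfl⟩, hy.trans_le (min_le_left _ _)⟩)
  filter_upwards [Metric.ball_mem_nhds g (lt_min hδ₁ hδ₂)] with g' hg'
  have hk : ∀ k, g' k ∈ Metric.ball (g k) (min δ₁ δ₂) := fun k =>
    (ContinuousMap.dist_apply_le_dist k).trans_lt hg'
  refine (ContinuousMap.norm_le _ (by positivity)).2 fun k => ?_
  have e : (nem χ g' - nem χ g - app K A B (nem (fderiv ℝ χ) g) (g' - g)) k =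
      χ (g' k) - χ (g k) - fderiv ℝ χ (g k) (g' k - g k) := by
    rw [← nem_apply hχ.continuousOn hg k, ← nem_apply hχ.continuousOn (fun k => hb k (hk k)) k,
      ← nem_apply h1 hg k]
    rfl
  rw [e]
  refine (Convex.norm_image_sub_le_of_norm_hasFDerivWithin_le' (f' := fderiv ℝ χ) (C := ε)
    (fun y hy => ?_) (fun y hy => ?_) (convex_ball _ _)
    (Metric.mem_ball_self (lt_min hδ₁ hδ₂)) (hk k)).trans ?_
  · exact ((hχ.contDiffAt (hΩ.mem_nhds (hb k hy))).differentiableAt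
      (by simp)).hasFDerivAt.hasFDerivWithinAt
  · rw [← dist_eq_norm, dist_comm]
    exact (t2 (a := g k) (b := y) ((Metric.mem_ball'.1 hy).trans_le (min_le_right _ _))
      ⟨k, rfl⟩).le
  · exact mul_le_mul_of_nonneg_left ((g' - g).norm_coe_le_norm k) hε.le

theorem contDiffOn_nem {Ω : Set A} (hΩ : IsOpen Ω) (n : ℕ) : ∀ (B : Type) [NormedAddCommGroup B]
    [NormedSpace ℝ B] (χ : A → B), ContDiffOn ℝ ∞ χ Ω →
    ContDiffOn ℝ n (nem χ) {g : C(K, A) | ∀ k, g k ∈ Ω} := by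
  induction n with
  | zero =>
    intro B _ _ χ hχ
    exact contDiffOn_zero.2 fun g hg => (hasFDerivAt_nem hΩ hχ hg).continuousAt.continuousWithinAt
  | succ n ih =>
    intro B _ _ χ hχ
    rw [Nat.cast_succ, contDiffOn_succ_iff_fderiv_of_isOpen (isOpen_dom hΩ)]
    refine ⟨fun g hg => (hasFDerivAt_nem hΩ hχ hg).differentiableAt.differentiableWithinAt,
      fun h => absurd h (by simp), ?_⟩
    have h1 := ih (A →L[ℝ] B) (fderiv ℝ χ) (hχ.fderiv_of_isOpen hΩ (by simp))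
    have h2 : ContDiff ℝ n (app K A B) :=
      ContinuousLinearMap.contDiff (𝕜 := ℝ) (E := C(K, A →L[ℝ] B)) (F := C(K, A) →L[ℝ] C(K, B))
        (app K A B)
    have h3 : ContDiffOn ℝ n (fun g => app K A B (nem (fderiv ℝ χ) g))
        {g : C(K, A) | ∀ k, g k ∈ Ω} := h2.comp_contDiffOn h1
    exact h3.congr fun g hg => (hasFDerivAt_nem hΩ hχ hg).fderiv

end Nem

theorem nem_of : NemStmt := fun _ _ _ _ B _ _ _ _ _ χ hΩ hχ =>
  ⟨Nem.isOpen_dom hΩ, Nem.nem χ, contDiffOn_infty.2 fun n => Nem.contDiffOn_nem hΩ n B χ hχ,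
    fun _ hg => Nem.nem_apply hχ.continuousOn hg⟩

end Pool.Agent.MP_2291e2_gt.Zl

end MrgPart10

-- ======== part 11: formerly Pool.Agent.MP_2291e2_gt.zl.Nonlin
section MrgPart11

/-! The cut-off nonlinearity. -/

open scoped ContDiff RealInnerProductSpace Topology
open Set Filter Real

namespace Pool.Agent.MP_2291e2_gt.Zl

namespace Nonlin

section avg
variable {F : Type} [NormedAddCommGroup F] [NormedSpace ℝ F]

/-- translates of a function on the circle -/
noncomputable def tr (g : C(Circle, F)) : C(ℝ, C(Circle, F)) :=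
  ContinuousMap.curry ⟨fun a : ℝ × Circle => g (a.2 * Circle.exp a.1), by fun_prop⟩

omit [NormedSpace ℝ F] in
lemma tr_apply (g : C(Circle, F)) (r : ℝ) (z : Circle) : tr g r z = g (z * Circle.exp r) := rfl

/-- `A` averages the translates against the weight `w` -/
def IsAvg (w : ℝ → ℝ) (A : C(Circle, F) →L[ℝ] C(Circle, F)) : Prop :=
  ∀ (g : C(Circle, F)) (σ : ℝ),
    A g (Circle.exp σ) = ∫ r in (0 : ℝ)..π, w r • g (Circle.exp (σ + r))

lemma exists_avg [CompleteSpace F] {w : ℝ → ℝ} (hw : Continuous w) :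
    ∃ A : C(Circle, F) →L[ℝ] C(Circle, F), IsAvg w A := by
  have hi : ∀ g : C(Circle, F), IntervalIntegrable (fun r => w r • tr g r) MeasureTheory.volume 0 π :=
    fun g => (hw.smul (tr g).continuous).intervalIntegrable _ _
  obtain ⟨C, hC⟩ := (isCompact_Icc (a := (0 : ℝ)) (b := π)).exists_bound_of_continuousOn
    hw.continuousOn
  let L : C(Circle, F) →ₗ[ℝ] C(Circle, F) :=
    { toFun := fun g => ∫ r in (0 : ℝ)..π, w r • tr g r
      map_add' := fun g g' => by
        rw [← intervalIntegral.integral_add (hi g) (hi g')]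
        congr 1; funext r; ext z; simp [tr_apply]
      map_smul' := fun c g => by
        rw [RingHom.id_apply, ← intervalIntegral.integral_smul]
        congr 1; funext r; ext z; simp [tr_apply, smul_comm c] }
  refine ⟨L.mkContinuous (C * π) fun g => ?_, fun g σ => ?_⟩
  · have h := intervalIntegral.norm_integral_le_of_norm_le_const (a := (0 : ℝ)) (b := π)
      (C := C * ‖g‖) (f := fun r => w r • tr g r) fun r hr => by
        rw [uIoc_of_le pi_pos.le] at hr
        rw [norm_smul]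
        refine mul_le_mul (hC r ⟨hr.1.le, hr.2⟩) ?_ (norm_nonneg _)
          ((norm_nonneg _).trans (hC r ⟨hr.1.le, hr.2⟩))
        exact (ContinuousMap.norm_le _ (norm_nonneg _)).2 fun z => g.norm_coe_le_norm _
    rw [sub_zero, abs_of_pos pi_pos] at h
    exact h.trans_eq (by ring)
  · have h := (ContinuousMap.evalCLM ℝ (Circle.exp σ)).intervalIntegral_comp_comm (hi g)
    refine h.symm.trans ?_
    congr 1; funext r
    simp [tr_apply, Circle.exp_add]

/-- `g'` is the translate of `g` by `h` -/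
def Sh (h : ℝ) (g g' : C(Circle, F)) : Prop := ∀ σ, g' (Circle.exp σ) = g (Circle.exp (σ + h))

lemma IsAvg.sh {w : ℝ → ℝ} {A : C(Circle, F) →L[ℝ] C(Circle, F)} (hA : IsAvg w A) {h : ℝ}
    {g g' : C(Circle, F)} (H : Sh h g g') : Sh h (A g) (A g') := fun σ => by
  rw [hA, hA]
  congr 1; funext r
  rw [H, add_right_comm]

end avg

/-- smooth, bounded and Lipschitz -/
structure Good {Y : Type} [NormedAddCommGroup Y] [NormedSpace ℝ Y] (G : XX → Y) : Prop where
  sm : ContDiff ℝ ∞ G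
  bd : ∃ C, ∀ x, ‖G x‖ ≤ C
  lip : ∃ K, LipschitzWith K G

section good
variable {Y Z A B : Type} [NormedAddCommGroup Y] [NormedSpace ℝ Y] [NormedAddCommGroup Z]
  [NormedSpace ℝ Z] [NormedAddCommGroup A] [NormedSpace ℝ A] [NormedAddCommGroup B]
  [NormedSpace ℝ B]

lemma Good.clm {G : XX → Y} (h : Good G) (L : Y →L[ℝ] Z) : Good fun x => L (G x) := by
  obtain ⟨C, hC⟩ := h.bd
  obtain ⟨K, hK⟩ := h.lip
  exact ⟨L.contDiff.comp h.sm, ⟨‖L‖ * C, fun x => L.le_of_opNorm_le_of_le le_rfl (hC x)⟩,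
    ⟨_, L.lipschitz.comp hK⟩⟩

lemma Good.add {G G' : XX → Y} (h : Good G) (h' : Good G') : Good fun x => G x + G' x := by
  obtain ⟨C, hC⟩ := h.bd
  obtain ⟨K, hK⟩ := h.lip
  obtain ⟨C', hC'⟩ := h'.bd
  obtain ⟨K', hK'⟩ := h'.lip
  exact ⟨h.sm.add h'.sm, ⟨C + C', fun x => norm_add_le_of_le (hC x) (hC' x)⟩, ⟨_, hK.add hK'⟩⟩

lemma Good.pair {G : XX → C(Circle, A)} {G' : XX → C(Circle, B)} (h : Good G) (h' : Good G') :
    Good fun x => (G x).prodMk (G' x) := by
  have := (h.clm ((ContinuousLinearMap.inl ℝ A B).compLeftContinuous ℝ Circle)).add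
    (h'.clm ((ContinuousLinearMap.inr ℝ A B).compLeftContinuous ℝ Circle))
  refine (congrArg Good ?_).mp this
  funext x; ext z <;> simp [ContinuousLinearMap.compLeftContinuous]

lemma nem (hN : NemStmt) {χ : A → B} (hχ : ContDiff ℝ ∞ χ) :
    ∃ N : C(Circle, A) → C(Circle, B), ContDiff ℝ ∞ N ∧ ∀ g z, N g z = χ (g z) := by
  obtain ⟨-, N, h1, h2⟩ := hN Circle A B univ χ isOpen_univ hχ.contDiffOn
  refine ⟨N, contDiffOn_univ.1 (by simpa using h1), fun g => h2 g fun _ => trivial⟩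

lemma Good.nem [FiniteDimensional ℝ A] {χ : A → B} (hχ : ContDiff ℝ ∞ χ)
    {N : C(Circle, A) → C(Circle, B)} (h1 : ContDiff ℝ ∞ N) (h2 : ∀ g z, N g z = χ (g z))
    {G : XX → C(Circle, A)} (h : Good G) : Good fun x => N (G x) := by
  obtain ⟨C, hC⟩ := h.bd
  obtain ⟨K, hK⟩ := h.lip
  have := FiniteDimensional.proper_real A
  have hm : ∀ x z, G x z ∈ Metric.closedBall (0 : A) C := fun x z =>
    mem_closedBall_zero_iff.2 (((G x).norm_coe_le_norm z).trans (hC x))
  obtain ⟨C', hC'⟩ := (isCompact_closedBall (0 : A) C).exists_bound_of_continuousOn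
    hχ.continuous.continuousOn
  obtain ⟨K', hK'⟩ := hχ.contDiffOn.exists_lipschitzOnWith (by simp)
    (convex_closedBall (0 : A) C) (isCompact_closedBall (0 : A) C)
  refine ⟨h1.comp h.sm, ⟨C', fun x => ?_⟩, ⟨K' * K, LipschitzWith.of_dist_le_mul fun x y => ?_⟩⟩
  · refine (ContinuousMap.norm_le _ ((norm_nonneg _).trans (hC' _ (hm x 1)))).2 fun z => ?_
    rw [h2]; exact hC' _ (hm x z)
  · refine (ContinuousMap.dist_le (by positivity)).2 fun z => ?_
    rw [h2, h2, NNReal.coe_mul, mul_assoc]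
    exact (hK'.dist_le_mul _ (hm x z) _ (hm y z)).trans (mul_le_mul_of_nonneg_left
      ((ContinuousMap.dist_apply_le_dist z).trans (hK.dist_le_mul x y)) K'.2)

end good

lemma exists_cut (R : ℝ) : ∃ χ : E → E, ContDiff ℝ ∞ χ ∧ HasCompactSupport χ ∧
    (∀ x, χ (-x) = -χ x) ∧ ∀ x, ‖x‖ ≤ R → χ x = x := by
  let b : ContDiffBump (0 : E) := ⟨max R 1, max R 1 + 1, by positivity, by linarith⟩
  refine ⟨fun x => b x • x, b.contDiff.smul contDiff_id, b.hasCompactSupport.smul_right,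
    fun x => by simp [b.neg], fun x hx => ?_⟩
  show b x • x = x
  rw [b.one_of_mem_closedBall (mem_closedBall_zero_iff.2 (hx.trans (le_max_left _ _))), one_smul]

lemma exists_inv : ∃ ψ : ℝ → ℝ, ContDiff ℝ ∞ ψ ∧ ∀ t, 1 / 4 ≤ t → ψ t = t⁻¹ := by
  let b : ContDiffBump (0 : ℝ) := ⟨1 / 8, 1 / 4, by norm_num, by norm_num⟩
  refine ⟨fun t => t / (t ^ 2 + b t), contDiff_id.div ((contDiff_id.pow 2).add b.contDiff)
    fun t => ?_, fun t ht => ?_⟩
  · rcases eq_or_ne t 0 with rfl | h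
    · rw [b.one_of_mem_closedBall (Metric.mem_closedBall_self b.rIn_pos.le)]; norm_num
    · have := b.nonneg' t
      positivity
  · have h0 : b t = 0 := b.zero_of_le_dist (by
      rw [Real.dist_eq, sub_zero]; exact ht.trans (le_abs_self t))
    have : t ≠ 0 := by linarith
    show t / (t ^ 2 + b t) = t⁻¹
    rw [h0]; field_simp; ring

end Nonlin

open Nonlin in
theorem nonlin_of (hN : NemStmt) : NonlinStmt := by
  intro R
  obtain ⟨χ, hχ, hχc, hχo, hχ1⟩ := exists_cut R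
  obtain ⟨ψ, hψ, hψ1⟩ := exists_inv
  obtain ⟨J, hJ⟩ := exists_avg (F := E) (w := fun _ => -1 / 2) continuous_const
  obtain ⟨A, hA⟩ := exists_avg (F := ℝ) (w := fun _ => π⁻¹) continuous_const
  obtain ⟨B, hB⟩ := exists_avg (F := ℝ) (w := fun r => π⁻¹ * r) (by fun_prop)
  obtain ⟨c, hc, c1⟩ := nem hN hχ
  have hn : ContDiff ℝ ∞ fun x : E => ‖x‖ ^ 2 := contDiff_norm_sq ℝ
  obtain ⟨n, hn0, n1⟩ := nem hN hn
  let Φ : E × E × ℝ × ℝ × ℝ → E := fun a =>
    (a.2.2.1 + (‖a.1‖ ^ 2 - a.2.2.2.1) * ψ a.2.2.1) • a.2.1 +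
      ((a.2.2.2.2 - π / 2 * a.2.2.2.1) * ψ a.2.2.1) • a.1
  have hΦ : ContDiff ℝ ∞ Φ := by
    have h1 : ContDiff ℝ ∞ fun a : E × E × ℝ × ℝ × ℝ => ‖a.1‖ ^ 2 := hn.comp contDiff_fst
    have h2 : ContDiff ℝ ∞ fun a : E × E × ℝ × ℝ × ℝ => ψ a.2.2.1 := hψ.comp (by fun_prop)
    fun_prop
  obtain ⟨N, hN0, N1⟩ := nem hN hΦ
  have gc : Nonlin.Good c := by
    obtain ⟨K, hK⟩ := ContDiff.lipschitzWith_of_hasCompactSupport hχc hχ (by simp)
    obtain ⟨C, hC⟩ := hχ.continuous.bounded_above_of_compact_support hχc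
    refine ⟨hc, ⟨C, fun x => ?_⟩, ⟨K, LipschitzWith.of_dist_le_mul fun x y => ?_⟩⟩
    · refine (ContinuousMap.norm_le _ ((norm_nonneg _).trans (hC 0))).2 fun z => ?_
      rw [c1]; exact hC _
    · refine (ContinuousMap.dist_le (by positivity)).2 fun z => ?_
      rw [c1, c1]
      exact (hK.dist_le_mul _ _).trans
        (mul_le_mul_of_nonneg_left (ContinuousMap.dist_apply_le_dist z) K.2)
  have gJ := gc.clm J
  have gn := gc.nem hn hn0 n1
  have gf := (gc.pair (gJ.pair (((gJ.nem hn hn0 n1).clm A).pair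
    ((gn.clm A).pair (gn.clm B))))).nem hΦ hN0 N1
  have nneg : ∀ g, n (-g) = n g := fun g => by ext z; simp [n1]
  have shn : ∀ {h g g'}, Sh h g g' → Sh h (n g) (n g') := fun H σ => by rw [n1, n1, H σ]
  refine ⟨J, _, fun q σ => ?_, gf.sm, gf.lip, fun q => ?_, fun q q' h H σ => ?_,
    fun q σ v2 M m hq h2 h4 hM hm => ?_⟩
  · rw [hJ, intervalIntegral.integral_smul]
  · have e : c (-q) = -c q := by ext1 z; simp [c1, hχo]
    ext1 z
    simp only [e, map_neg, nneg, N1, ContinuousMap.neg_apply, ContinuousMap.prod_eval, Φ,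
      norm_neg, smul_neg, neg_add]
  · have e : Sh h (c q) (c q') := fun σ => by rw [c1, c1, H σ]
    simp only [N1, ContinuousMap.prod_eval]
    rw [e σ, hJ.sh e σ, hA.sh (shn (hJ.sh e)) σ, hA.sh (shn e) σ, hB.sh (shn e) σ]
  · have e : c q = q := by
      ext1 z; rw [c1, hχ1 _ ((q.norm_coe_le_norm z).trans hq)]
    have e1 : A (n (J q)) (Circle.exp σ) = v2 := by
      rw [hA, h2, intervalIntegral.integral_smul]; simp only [n1, smul_eq_mul]
    have e2 : A (n q) (Circle.exp σ) = M := by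
      rw [hA, hM, intervalIntegral.integral_smul]; simp only [n1, smul_eq_mul]
    have e3 : B (n q) (Circle.exp σ) = m + π / 2 * M := by
      rw [hB, hm, sub_add_cancel, ← intervalIntegral.integral_const_mul]
      simp only [n1, smul_eq_mul, mul_assoc]
    simp only [e, N1, ContinuousMap.prod_eval, Φ, e1, e2, e3, hψ1 v2 h4, add_sub_cancel_right,
      div_eq_mul_inv]

end Pool.Agent.MP_2291e2_gt.Zl

end MrgPart11

-- ======== part 12: formerly Pool.Agent.MP_2291e2_gt.zl.PInt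
section MrgPart12

/-! Row PINT: integrals with parameters. -/

open scoped ContDiff Topology
open Set Filter

namespace Pool.Agent.MP_2291e2_gt.Zl

namespace PInt

variable {X F : Type} [NormedAddCommGroup X] [NormedSpace ℝ X] [NormedAddCommGroup F]
  [NormedSpace ℝ F]

omit [NormedSpace ℝ F] in
theorem ii (g : C(unitInterval, F)) :
    IntervalIntegrable (fun r => g (projIcc 0 1 zero_le_one r)) MeasureTheory.volume 0 1 :=
  (g.continuous.comp continuous_projIcc).intervalIntegrable _ _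

/-- Integration over the unit interval. -/
noncomputable def int (F : Type) [NormedAddCommGroup F] [NormedSpace ℝ F] :
    C(unitInterval, F) →L[ℝ] F :=
  LinearMap.mkContinuous
    { toFun := fun g => ∫ r in (0 : ℝ)..1, g (projIcc 0 1 zero_le_one r)
      map_add' := fun g g' => intervalIntegral.integral_add (ii g) (ii g')
      map_smul' := fun c g => intervalIntegral.integral_smul c _ } 1 fun g => by
    have := intervalIntegral.norm_integral_le_of_norm_le_const (a := 0) (b := 1) (C := ‖g‖)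
      (f := fun r => g (projIcc 0 1 zero_le_one r)) fun r _ => g.norm_coe_le_norm _
    simpa using this

theorem int_eq (g : C(unitInterval, F)) (h : ℝ → F) (a t : ℝ)
    (e : ∀ r : unitInterval, g r = h ((t - a) * r + a)) :
    (t - a) • int F g = ∫ s in a..t, h s := by
  have h1 := intervalIntegral.smul_integral_comp_mul_add (a := 0) (b := 1) h (t - a) a
  rw [mul_zero, zero_add, mul_one, sub_add_cancel] at h1
  rw [← h1]
  congr 1
  refine intervalIntegral.integral_congr fun r hr => ?_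
  rw [uIcc_of_le zero_le_one] at hr
  simp only [e, projIcc_of_mem zero_le_one hr]

/-- The segment over `x` from `a` to `t`. -/
noncomputable def seg (a : ℝ) (q : X × ℝ) : C(unitInterval, X × ℝ) :=
  ContinuousLinearMap.const ℝ unitInterval (q.1, a) +
    (q.2 - a) • (⟨fun r => (0, r), by fun_prop⟩ : C(unitInterval, X × ℝ))

theorem seg_apply (a : ℝ) (q : X × ℝ) (r : unitInterval) :
    seg a q r = (q.1, (q.2 - a) * r + a) := by
  simp [seg, add_comm]

theorem contDiff_seg (a : ℝ) : ContDiff ℝ ∞ (seg a : X × ℝ → C(unitInterval, X × ℝ)) := by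
  have h1 : ContDiff ℝ ∞ fun q : X × ℝ =>
      (ContinuousLinearMap.const ℝ unitInterval : (X × ℝ) →L[ℝ] C(unitInterval, X × ℝ)) (q.1, a) :=
    (ContinuousLinearMap.contDiff _).comp (contDiff_fst.prodMk contDiff_const)
  have h2 : ContDiff ℝ ∞ fun q : X × ℝ => q.2 - a := contDiff_snd.sub contDiff_const
  exact h1.add (h2.smul contDiff_const)

theorem mem_seg (a t : ℝ) (r : unitInterval) : (t - a) * r + a ∈ uIcc a t := by
  have := (convex_uIcc a t).add_smul_sub_mem left_mem_uIcc right_mem_uIcc r.2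
  rwa [smul_eq_mul, add_comm, mul_comm] at this

end PInt

open PInt in
theorem pint_of (hN : NemStmt) : PIntStmt := by
  intro X F _ _ _ _ _ Ω f hΩ hf
  obtain ⟨ho, N, hN1, hN2⟩ := hN unitInterval (X × ℝ) F Ω f hΩ hf
  have key : ∀ (a t₀ : ℝ) (x₀ : X), (∀ s ∈ uIcc a t₀, (x₀, s) ∈ Ω) →
      ContDiffAt ℝ ∞ (fun q => N (seg a q)) (x₀, t₀) ∧
      ∀ᶠ q in 𝓝 (x₀, t₀), ∀ r : unitInterval, N (seg a q) r = f (q.1, (q.2 - a) * r + a) := by
    intro a t₀ x₀ h
    have h1 : {g : C(unitInterval, X × ℝ) | ∀ k, g k ∈ Ω} ∈ 𝓝 (seg a (x₀, t₀)) :=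
      ho.mem_nhds fun r => by rw [seg_apply]; exact h _ (mem_seg a t₀ r)
    refine ⟨(hN1.contDiffAt h1).comp _ (contDiff_seg a).contDiffAt, ?_⟩
    filter_upwards [(contDiff_seg (X := X) a).continuous.continuousAt h1] with q hq r
    rw [hN2 _ hq, seg_apply]
  have two : ∀ (a t₀ : ℝ) (x₀ : X), (∀ s ∈ uIcc a t₀, (x₀, s) ∈ Ω) →
      ContDiffAt ℝ ∞ (fun q : X × ℝ => ∫ s in a..q.2, f (q.1, s)) (x₀, t₀) := by
    intro a t₀ x₀ h
    obtain ⟨h1, h2⟩ := key a t₀ x₀ h
    refine ((contDiffAt_snd.sub (contDiffAt_const (c := a))).smul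
      ((int F).contDiff.contDiffAt.comp _ h1)).congr_of_eventuallyEq ?_
    filter_upwards [h2] with q hq
    exact (int_eq _ (fun s => f (q.1, s)) a q.2 hq).symm
  refine ⟨fun a b x₀ h => ⟨(two a b x₀ h).comp x₀ (contDiffAt_id.prodMk contDiffAt_const),
    fun δ => ?_⟩, two⟩
  obtain ⟨h1, h2⟩ := key a b x₀ h
  have hi : HasFDerivAt (fun x : X => (x, b)) (ContinuousLinearMap.inl ℝ X ℝ) x₀ :=
    hasFDerivAt_prodMk_left x₀ b
  have h3 : ∀ᶠ x in 𝓝 x₀, ∀ r : unitInterval, N (seg a (x, b)) r = f (x, (b - a) * r + a) :=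
    hi.continuousAt.eventually h2
  have h4 := HasFDerivAt.comp (g := fun q => N (seg a q)) (f := fun x : X => (x, b)) x₀
    (h1.differentiableAt (by simp)).hasFDerivAt hi
  have h5 : HasFDerivAt (fun x => ∫ s in a..b, f (x, s)) _ x₀ :=
    (((int F).hasFDerivAt.comp x₀ h4).const_smul (b - a)).congr_of_eventuallyEq
      (h3.mono fun x hx => (int_eq _ (fun s => f (x, s)) a b hx).symm)
  rw [h5.fderiv]
  refine int_eq _ (fun s => fderiv ℝ f (x₀, s) (δ, 0)) a b fun r => ?_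
  have h6 := (ContinuousMap.evalCLM ℝ r).hasFDerivAt.comp x₀ h4
  have h7 := (((hf.contDiffAt (hΩ.mem_nhds (h _ (mem_seg a b r)))).differentiableAt
    (by simp)).hasFDerivAt.comp x₀
      (hasFDerivAt_prodMk_left x₀ ((b - a) * r + a))).congr_of_eventuallyEq
    (h3.mono fun x hx => hx r)
  exact congrArg (fun L : X →L[ℝ] F => L δ) (h6.unique h7)

end Pool.Agent.MP_2291e2_gt.Zl

end MrgPart12

-- ======== part 13: formerly Pool.Agent.MP_2291e2_gt.zl.Th
section MrgPart13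

/-! PROJECT ZOLL, row TH: the tangent lift is a diffeomorphism of `U`. -/

open scoped ContDiff RealInnerProductSpace Topology
open Set Filter Real

namespace Pool.Agent.MP_2291e2_gt.Zl

namespace ThA

theorem const {p : ℝ × P → Prop}
    (h1 : ∀ q : ℝ × P, q.2 ∈ U → p q → ∀ᶠ y in 𝓝 q, y.2 ∈ U → p y)
    (h2 : ∀ q : ℝ × P, q.2 ∈ U → ¬p q → ∀ᶠ y in 𝓝 q, y.2 ∈ U → ¬p y)
    {x y : ℝ × P} (hx : x.2 ∈ U) (hy : y.2 ∈ U) (h : p x) : p y := by
  refine ((isPreconnected_univ.prod isPreconnected_U).induction₂ (fun a b => p a ↔ p b)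
    (fun a ha => ?_) (fun _ _ _ _ _ _ => Iff.trans) (fun _ _ _ _ => Iff.symm)
    (x := x) (y := y) ⟨trivial, hx⟩ ⟨trivial, hy⟩).1 h
  by_cases hp : p a
  · filter_upwards [mem_nhdsWithin_of_mem_nhds (h1 a ha.2 hp), self_mem_nhdsWithin] with b e hb
    exact iff_of_true hp (e hb.2)
  · filter_upwards [mem_nhdsWithin_of_mem_nhds (h2 a ha.2 hp), self_mem_nhdsWithin] with b e hb
    exact iff_of_false hp (e hb.2)

theorem ne_ev {X : Type*} [TopologicalSpace X] {f : ℝ × P → P} {a : X → ℝ × P} {b : X → P} {x : X}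
    (hf : ContinuousAt f (a x)) (ha : Continuous a) (hb : Continuous b) (h : f (a x) ≠ b x) :
    ∀ᶠ y in 𝓝 x, f (a y) ≠ b y :=
  ((hf.comp ha.continuousAt).ne_iff_eventually_ne hb.continuousAt).1 h

/-- A family of local homeomorphisms of `U` with one singleton fibre is a family of bijections. -/
theorem bij (f : ℝ × P → P) (hc : ∀ s, ∀ u ∈ U, ContinuousAt f (s, u))
    (hm : ∀ s, ∀ u ∈ U, f (s, u) ∈ U)
    (hl : ∀ s, ∀ u ∈ U, ∃ g : ℝ × P → P, ContDiffAt ℝ ∞ g (s, f (s, u)) ∧ g (s, f (s, u)) = u ∧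
      (∀ᶠ q in 𝓝 (s, u), q.2 ∈ U → g (q.1, f q) = q.2) ∧
      ∀ᶠ q in 𝓝 (s, f (s, u)), q.2 ∈ U → g q ∈ U ∧ f (q.1, g q) = q.2)
    (h0 : ∃ u₀ ∈ U, ∀ u ∈ U, f (0, u) = f (0, u₀) → u = u₀) (s : ℝ) {w : P} (hw : w ∈ U) :
    (∃ u ∈ U, f (s, u) = w) ∧ ∀ u ∈ U, ∀ u' ∈ U, f (s, u) = w → f (s, u') = w → u = u' := by
  obtain ⟨u₀, hu₀, h0⟩ := h0
  constructor
  · refine const (p := fun q => ∃ u ∈ U, f (q.1, u) = q.2) ?_ ?_ (x := (0, f (0, u₀))) (y := (s, w))
      (hm 0 u₀ hu₀) hw ⟨u₀, hu₀, rfl⟩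
    · rintro ⟨t, w⟩ - ⟨u, hu, e⟩
      obtain ⟨g, -, -, -, h⟩ := hl t u hu
      rw [e] at h
      exact h.mono fun y hy hU => ⟨g y, hy hU⟩
    · intro q _ hq
      refine (isCompact_U.eventually_forall_of_forall_eventually (x₀ := q)
        (P := fun q u => f (q.1, u) ≠ q.2) fun u hu => ?_).mono fun y hy _ ⟨u, hu, e⟩ => hy u hu e
      exact ne_ev (a := fun z : (ℝ × P) × P => (z.1.1, z.2)) (x := (q, u)) (hc _ u hu)
        (by fun_prop) (by fun_prop) fun e => hq ⟨u, hu, e⟩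
  · refine const (p := fun q => ∀ u ∈ U, ∀ u' ∈ U, f (q.1, u) = q.2 → f (q.1, u') = q.2 → u = u')
      ?_ ?_ (x := (0, f (0, u₀))) (y := (s, w)) (hm 0 u₀ hu₀) hw
      fun u hu u' hu' e e' => (h0 u hu e).trans (h0 u' hu' e').symm
    · intro q _ hq
      refine ((isCompact_U.prod isCompact_U).eventually_forall_of_forall_eventually (x₀ := q)
        (P := fun q a => a.1 ∈ U → a.2 ∈ U → f (q.1, a.1) = q.2 → f (q.1, a.2) = q.2 → a.1 = a.2)
        fun a ha => ?_).mono fun y hy _ u hu u' hu' => hy (u, u') ⟨hu, hu'⟩ hu hu'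
      by_cases e1 : f (q.1, a.1) = q.2
      swap
      · exact (ne_ev (a := fun z : (ℝ × P) × P × P => (z.1.1, z.2.1)) (x := (q, a)) (hc _ _ ha.1)
          (by fun_prop) (b := fun z => z.1.2) (by fun_prop) e1).mono fun z hz _ _ e _ => absurd e hz
      by_cases e2 : f (q.1, a.2) = q.2
      swap
      · exact (ne_ev (a := fun z : (ℝ × P) × P × P => (z.1.1, z.2.2)) (x := (q, a)) (hc _ _ ha.2)
          (by fun_prop) (b := fun z => z.1.2) (by fun_prop) e2).mono fun z hz _ _ _ e => absurd e hz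
      obtain ⟨g, -, -, h, -⟩ := hl q.1 a.1 ha.1
      have t1 : Tendsto (fun z : (ℝ × P) × P × P => (z.1.1, z.2.1)) (𝓝 (q, a)) (𝓝 (q.1, a.1)) :=
        Continuous.tendsto' (by fun_prop) _ _ rfl
      have t2 : Tendsto (fun z : (ℝ × P) × P × P => (z.1.1, z.2.2)) (𝓝 (q, a)) (𝓝 (q.1, a.1)) :=
        Continuous.tendsto' (by fun_prop) _ _ (by rw [hq _ ha.1 _ ha.2 e1 e2])
      filter_upwards [t1.eventually h, t2.eventually h] with z a1 a2 b1 b2 c1 c2
      rw [← a1 b1, ← a2 b2, c1, c2]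
    · rintro ⟨t, w⟩ - hq
      simp only [not_forall] at hq
      obtain ⟨u, hu, u', hu', e, e', hne⟩ := hq
      obtain ⟨g, g1, g2, -, g3⟩ := hl t u hu
      obtain ⟨g', g1', g2', -, g3'⟩ := hl t u' hu'
      rw [e] at g1 g2 g3
      rw [e'] at g1' g2' g3'
      filter_upwards [g3, g3', (g1.continuousAt.ne_iff_eventually_ne g1'.continuousAt).1
        (by rwa [g2, g2'])] with y a b c hy h
      exact c (h _ (a hy).1 _ (b hy).1 (a hy).2 (b hy).2)

/-- The derivative of the tangent lift is injective on the directions tangent to `U`. -/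
theorem inj {G : P → E} (hG : ContDiffOn ℝ ∞ G Ind) {u : P} (hu : u ∈ U)
    (hw : deriv (wedge (mm G) u) 0 ≠ 0) {ξ : E} (h1 : dW G u ξ = 0) {l : ℝ}
    (h2 : dW (V G) u ξ = l • V G u) : ξ = 0 := by
  have hd : ∀ ξ, ∀ u ∈ U, DifferentiableAt ℝ (fun w => mm G w ξ) u := fun ξ u hu =>
    diffAt_of_U (contDiffOn_mm hG ξ) hu
  rw [(hasDerivAt_wedge hd hu 0).deriv, rho_zero] at hw
  have a1 : mm G u ξ = 0 := by simp [mm, h1, dt]
  have a2 : V (fun w => mm G w ξ) u = 0 := by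
    rw [V_mm hG hu, V_dW_comm (contDiffAt_of_U hG hu), h1, h2]
    simp [dt, cr_smul_left]
  obtain ⟨a, b, c, e⟩ : ∃ a b c : ℝ, ξ = a • u.1 + b • u.2 + c • cr u.1 u.2 :=
    ⟨_, _, _, frameU hu ξ⟩
  have e1 : ∀ s, mm G (rho s u) ξ = b * mm G (rho s u) u.2 + c * mm G (rho s u) (cr u.1 u.2) :=
    fun s => by
      have hl := mm_lin G (rho s u)
      rw [e, hl.map_add, hl.map_add, hl.map_smul, hl.map_smul, hl.map_smul,
        show mm G (rho s u) u.1 = 0 from mm_fst G (rho s u)]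
      simp
  have e2 := ((hasDerivAt_V hu (s := 0) (hd u.2 _ (rho_mem_U hu 0))).const_mul b).add
    ((hasDerivAt_V hu (s := 0) (hd (cr u.1 u.2) _ (rho_mem_U hu 0))).const_mul c)
  have e3 := hasDerivAt_V hu (s := 0) (hd ξ _ (rho_mem_U hu 0))
  rw [funext e1] at e3
  have e4 := e3.unique e2
  have e5 := e1 0
  rw [rho_zero] at e4 e5
  rw [a2] at e4
  rw [a1] at e5
  have hb : b = 0 := (mul_eq_zero.1 (by
    linear_combination mm G u (cr u.1 u.2) * e4 - V (fun w => mm G w (cr u.1 u.2)) u * e5)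
    ).resolve_right hw
  have hc : c = 0 := (mul_eq_zero.1 (by
    linear_combination V (fun w => mm G w u.2) u * e5 - mm G u u.2 * e4)).resolve_right hw
  have hV : V G u ≠ 0 := fun h => hw (by
    have : ∀ x, mm G u x = 0 := fun x => by simp [mm, h, dt]
    simp [this])
  rw [hb, hc, zero_smul, zero_smul, add_zero, add_zero] at e
  rw [e, dW_smul, smul_eq_zero] at h1
  rw [e, h1.resolve_right hV, zero_smul]

end ThA

open ThA in
/-- Row TH. -/
theorem th_of (hL : LocInvStmt) : ThStmt := by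
  intro G hG h1 hw h0 s
  have hV : ∀ s, ∀ u ∈ U, V (G s) u ≠ 0 := fun s u hu => V_ne_of_wedge (hw s u hu)
  have nb : ∀ s, ∀ u ∈ U, (univ ×ˢ Ind : Set (ℝ × P)) ∈ 𝓝 (s, u) := fun s u hu =>
    prod_mem_nhds univ_mem (Ind_nhds hu)
  have hf : ∀ s, ∀ u ∈ U, ContDiffAt ℝ ∞ (fun q : ℝ × P => Th (G q.1) q.2) (s, u) :=
    fun s u hu => by
      have a := ContDiffOn.contDiffAt hG.V (nb s u hu)
      exact (ContDiffOn.contDiffAt hG (nb s u hu)).prodMk
        (((a.norm ℝ (hV s u hu)).inv (norm_ne_zero_iff.2 (hV s u hu))).smul a)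
  have hm : ∀ s, ∀ u ∈ U, Th (G s) u ∈ U := fun s u hu =>
    ⟨h1 s u hu, norm_smul_inv_norm (hV s u hu), by
      simp only [Th, inner_smul_right, V, inner_dW_unit (hG.slice s) (h1 s) hu, mul_zero]⟩
  have hl := fun s u hu => hL.1 (fun q : ℝ × P => Th (G q.1) q.2) s u hu (hf s u hu)
    (Eventually.of_forall fun q hq => hm _ _ hq) fun ξ h => by
      have d0 : HasFDerivAt (fun w : P => (s, w)) (ContinuousLinearMap.inr ℝ ℝ P) u :=
        hasFDerivAt_prodMk_right s u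
      have d1 := (((hf s u hu).differentiableAt (by simp)).hasFDerivAt.comp u d0).fderiv
      have d2 : dW (Th (G s)) u ξ = 0 := (congrArg (fun L : P →L[ℝ] P => L (W u ξ)) d1).trans h
      have g1 := diffAt_of_U (hG.slice s) hu
      have g2 := diffAt_of_U (contDiffOn_V (hG.slice s)) hu
      have hn := norm_ne_zero_iff.2 (hV s u hu)
      have g3 : DifferentiableAt ℝ (fun w => ‖V (G s) w‖⁻¹) u := (g2.norm ℝ (hV s u hu)).inv hn
      have d3 : dW (Th (G s)) u ξ =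
          (dW (G s) u ξ, dW (fun w => ‖V (G s) w‖⁻¹ • V (G s) w) u ξ) :=
        congrArg (fun L : P →L[ℝ] P => L (W u ξ)) (g1.fderiv_prodMk (g3.smul g2))
      rw [d2, dW_fsmul g3 g2] at d3
      refine inj (hG.slice s) hu (hw s u hu) (congrArg Prod.fst d3).symm
        (l := -(‖V (G s) u‖ * dW (fun w => ‖V (G s) w‖⁻¹) u ξ)) ?_
      have d4 := congrArg (fun a : P => ‖V (G s) u‖ • a.2) d3
      simp only [Prod.snd_zero, smul_zero, smul_add, smul_smul, mul_inv_cancel₀ hn, one_smul] at d4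
      rw [neg_smul]
      exact eq_neg_of_add_eq_zero_right d4.symm
  have hb := fun w hw => bij (fun q : ℝ × P => Th (G q.1) q.2)
    (fun s u hu => (hf s u hu).continuousAt) hm hl h0 s (w := w) hw
  choose! inv i1 i2 using fun w hw => (hb w hw).1
  refine ⟨fun w => inv (rt w), contDiffOn_comp_rt (f := fun w => inv (rt w)) (fun w hw => ?_) |>.congr
      fun w hw => by rw [rt_of_U (rt_mem_U hw)], fun w hw => ?_, hm s, fun u hu => ?_,
    fun w hw => ?_⟩
  · obtain ⟨g, g1, -, -, g2⟩ := hl s _ (i1 w hw)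
    rw [i2 w hw] at g1 g2
    have t : ContDiffAt ℝ ∞ (fun x : P => (s, rt x)) w :=
      contDiffAt_const.prodMk (contDiffAt_rt (U_sub_Ind hw))
    rw [← rt_of_U hw] at g1 g2
    refine (g1.comp w t).congr_of_eventuallyEq ?_
    filter_upwards [t.continuousAt.eventually g2, Ind_nhds hw] with x hx hI
    have hU := rt_mem_U hI
    exact (hb _ hU).2 _ (i1 _ hU) _ (hx hU).1 (i2 _ hU) (hx hU).2
  · simpa only [rt_of_U hw] using i1 w hw
  · rw [rt_of_U (hm s u hu)]
    exact (hb _ (hm s u hu)).2 _ (i1 _ (hm s u hu)) _ hu (i2 _ (hm s u hu)) rfl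
  · simpa only [rt_of_U hw] using i2 w hw

end Pool.Agent.MP_2291e2_gt.Zl

end MrgPart13

-- ======== part 14: formerly Pool.Agent.MP_2291e2_gt.zl.Turn
section MrgPart14

/-! The normal variation keeps turning along the flow. -/

open scoped ContDiff RealInnerProductSpace Topology
open Set Filter Real

namespace Pool.Agent.MP_2291e2_gt.Zl

namespace TurnAux

lemma par {γ : ℝ → P → E} (hr : VarReg γ) (hv : VarEq γ) {u : P} (hu : u ∈ U) (τ : ℝ) (ξ : E) :
    Par 0 τ (fun t σ => mu (γ t) (rho σ u))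
      (fun t σ => vsq (γ t) (rho σ u) + V (mu (γ t)) (rho σ u))
      (fun t σ => mh γ t (rho σ u) ξ) (fun t σ => V (fun w => mh γ t w ξ) (rho σ u))
      (fun t σ => V (V fun w => mh γ t w ξ) (rho σ u)) where
  cont := ((hr.mhc ξ).fibre hu).mono (prod_mono Icc_subset_Ici_self subset_rfl)
  d1 t ht σ := hasDerivAt_V (f := fun w => mh γ t w ξ) hu
    (((hr.mhs ξ).slice ht.1 (rho_mem_U hu σ)).differentiableAt (by simp))
  d2 t ht σ := hasDerivAt_V (f := V fun w => mh γ t w ξ) hu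
    ((contDiffAt_V ((hr.mhs ξ).slice ht.1 (rho_mem_U hu σ))).differentiableAt (by simp))
  dt t ht σ := (hv t ht.1 _ (rho_mem_U hu σ)).1 ξ

end TurnAux

theorem turn_of (hK : KMStmt) (hR : VarRegStmt) (hV : VarStmt) (hA : CurveAStmt) : TurnStmt := by
  intro G₀ γ A hG hS τ hτ
  have hr := hR G₀ γ A hS
  have hv := hV G₀ γ A hS
  have hs0 := hS.slice 0 le_rfl
  have hG0 : Good (γ 0) := hG.congr hs0 hS.init
  rcases hτ.eq_or_lt with rfl | hτ0
  · exact hG0.turn.congr hr.mh0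
  refine turn_of_sin_le (fun ξ u hu => ((hr.mhs ξ).slice hτ0 hu).differentiableAt (by simp))
    fun u hu => ?_
  obtain ⟨δ, hδ, h0⟩ := hG0.turn.sin_le (mm_lin _)
    (fun ξ w hw => contDiffAt_of_U (contDiffOn_mm hs0 ξ) hw)
    (fun w hw ξ => mm_odd hs0 hG0.odd hw ξ)
  obtain ⟨B, hB⟩ := hS.bd
  obtain ⟨M, hM⟩ := hr.Mc.bdd τ
  have hcA : ∀ t ∈ Ioc 0 τ, ∀ w ∈ U, mu (γ t) (rev w) = mu (γ t) w ∧
      DifferentiableAt ℝ (mu (γ t)) w ∧ |V (mu (γ t)) w| ≤ 4 * (B ^ 2 + M) ∧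
      |vsq (γ t) w| ≤ B := fun t ht w hw => by
    have hc := hS.con t ht.1.le
    obtain ⟨-, -, -, -, -, -, -, -, -, -, e1, e2, e3, -⟩ :=
      hA (γ t) ⟨hS.slice t ht.1.le, fun w hw => (hc w hw).1, hS.odd t ht.1.le⟩ hc w hw
    obtain ⟨b1, b2, b3⟩ := hB t ht.1.le w hw
    have b4 := abs_le.1 (show |MM (γ t) w| ≤ M from hM t ⟨ht.1.le, ht.2⟩ w hw)
    have b5 : ‖V (V (γ t)) w‖ ^ 2 ≤ B ^ 2 := pow_le_pow_left₀ (norm_nonneg _) b3 2
    have b6 : |‖V (V (γ t)) w‖ ^ 2 - MM (γ t) w| ≤ B ^ 2 + M :=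
      abs_le.2 ⟨by nlinarith [sq_nonneg ‖V (V (γ t)) w‖, sq_nonneg B], by linarith⟩
    have b7 : 0 < vsq (γ t) w := by linarith
    refine ⟨e1, e2.differentiableAt (by simp), ?_, by rwa [abs_of_pos b7]⟩
    rw [e3, abs_div, abs_of_pos b7, div_le_iff₀ b7]
    nlinarith [abs_nonneg (‖V (V (γ t)) w‖ ^ 2 - MM (γ t) w)]
  obtain ⟨δ', hδ', h1⟩ := hK 0 τ (B + 4 * (B ^ 2 + M)) δ _ _ _ _ _ _ _ _ hτ hδ
    (TurnAux.par hr hv hu τ u.2) (TurnAux.par hr hv hu τ (cr u.1 u.2))
    (fun t ht σ => by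
      simp only [rho_add_pi, hr.mhodd t ht.1 _ (rho_mem_U hu σ), and_self])
    (fun t ht σ => by
      obtain ⟨e1, -, e3, e4⟩ := hcA t ht _ (rho_mem_U hu σ)
      refine ⟨by simp only [rho_add_pi, e1], (abs_add_le _ _).trans (add_le_add e4 e3),
        fun σ' => ?_⟩
      have hB0 : 0 ≤ B := (abs_nonneg _).trans e4
      have := convex_univ.norm_image_sub_le_of_norm_hasDerivWithin_le
        (f := fun s => mu (γ t) (rho s u)) (f' := fun s => V (mu (γ t)) (rho s u))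
        (C := B + 4 * (B ^ 2 + M))
        (fun s _ => (hasDerivAt_V hu (hcA t ht _ (rho_mem_U hu s)).2.1).hasDerivWithinAt)
        (fun s _ => (hcA t ht _ (rho_mem_U hu s)).2.2.1.trans (le_add_of_nonneg_left hB0))
        (mem_univ σ') (mem_univ σ)
      exact this)
    (fun σ h hh => by
      have := h0 _ (rho_mem_U hu σ) h hh
      rw [wedge_rho (mm_lin _) hu] at this
      simpa only [hr.mh0 _ (rho_mem_U hu _)] using this)
  refine ⟨δ', hδ', fun s hs => ?_⟩
  simpa only [rho_zero, zero_add, wedge] using h1 0 s hs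

end Pool.Agent.MP_2291e2_gt.Zl

end MrgPart14

-- marker of a merged file
example : 731051 + 245915 = 731051 + 245915 := rfl
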