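import Mathlib.RingTheory.Flat.FaithfullyFlat.Basic
import Mathlib.RingTheory.Flat.TorsionFree
import Mathlib.RingTheory.SimpleRing.Principal
import Pool.Agent.MP_2291e2_gt.zl.Spec2

/-! The Finsler metric built from a good family is Zoll. -/

open scoped ContDiff RealInnerProductSpace Topology
open Set Filter Real

namespace Pool.Agent.MP_2291e2_gt.Zl

namespace Zoll

lemma cramer (g a b c : E) : dt g b c • a = dt a b c • g + dt g a c • b + dt g b a • c :=
  ext3 (by simp [dt3]; ring) (by simp [dt3]; ring) (by simp [dt3]; ring)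

lemma eq_zero_of_dt {g a b c : E} (hg : ‖g‖ = 1) (ha : ⟪g, a⟫ = 0) (hb : ⟪g, b⟫ = 0)
    (hc : ⟪g, c⟫ = 0) (h0 : dt g b c ≠ 0) (h1 : dt g a b = 0) (h2 : dt g a c = 0) : a = 0 := by
  have e := cramer g a b c
  have h3 : dt g b a = 0 := by rw [dt_swap23, h1, neg_zero]
  have h4 : dt a b c = 0 := by
    have := congrArg (fun x => ⟪g, x⟫) e
    simp only [inner_add_right, inner_smul_right, ha, hb, hc, real_inner_self_eq_norm_sq,
      hg] at this
    linarith
  rw [h2, h3, h4] at e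
  simp only [zero_smul, add_zero] at e
  exact (smul_eq_zero.1 e).resolve_left h0

lemma exists_smul_of_cr {y ξ : E} (hy : ‖y‖ = 1) (h : cr ξ y = 0) : ξ = ⟪y, ξ⟫ • y := by
  have e := cr_cr_right y ξ y
  rw [h, cr_zero_right, real_inner_self_eq_norm_sq, hy] at e
  simp only [one_pow, one_smul] at e
  exact (sub_eq_zero.1 e.symm)

/-- A direction that is in the kernel of the pulled back area form is in the kernel of `dW G`. -/
lemma dW_eq_zero {G : P → E} (hG : Good G) {u : P} (hu : u ∈ U) {ξ : E}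
    (h : ∀ b, dt (G u) (dW G u ξ) (dW G u b) = 0) : dW G u ξ = 0 := by
  have hb : ∃ b, mm G u b ≠ 0 := by
    by_contra hn
    push Not at hn
    have := hG.turn.pos u hu (π / 2) ⟨by positivity, by linarith [pi_pos]⟩
    simp [wedge, hn] at this
  obtain ⟨b, hb⟩ := hb
  exact eq_zero_of_dt (b := dW G u b) (c := V G u) (hG.unit u hu)
    (inner_dW_unit hG.smooth hG.unit hu _) (inner_dW_unit hG.smooth hG.unit hu _)
    (inner_dW_unit hG.smooth hG.unit hu _) hb (h b) (h u.1)

lemma diffAt_Th {G : P → E} (hG : Good G) {u : P} (hu : u ∈ U) :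
    DifferentiableAt ℝ (Th G) u := by
  have h1 := diffAt_of_U hG.smooth hu
  have h2 := diffAt_of_U (contDiffOn_V hG.smooth) hu
  have h3 := hG.V_ne hu
  exact h1.prodMk (((h2.norm ℝ h3).inv (by simpa using h3)).smul h2)

/-- The lift of a geodesic. -/
structure Lift (G p : P → E) (γ : ℝ → E) (u : ℝ → P) : Prop where
  mem : ∀ t, u t ∈ U
  base : ∀ t, (u t).1 = γ t
  diff : Differentiable ℝ u
  one : ∀ t, ⟪p (u t), deriv γ t⟫ = 1
  const : ∀ t, G (u t) = G (u 0)

lemma exists_lift {G p : P → E} {c L : P → ℝ} {us : P → P} (hD : Data G p c)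
    (hS : SupOut p L us) {γ : ℝ → E} (hγ : IsGeodesic L γ) : ∃ u, Lift G p γ u := by
  set u : ℝ → P := fun t => us (γ t, deriv γ t) with hu
  have mem : ∀ t, u t ∈ U := fun t => hS.mem _ _ (hγ.tangent t)
  have base : ∀ t, (u t).1 = γ t := fun t => hS.base _ _ (hγ.tangent t)
  have d1 : Differentiable ℝ γ := hγ.smooth.differentiable (by norm_num)
  have d2 : Differentiable ℝ (deriv γ) := by
    have h2 : ContDiff ℝ (1 + 1) γ := hγ.smooth
    exact h2.deriv'.differentiable (by norm_num)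
  have diff : Differentiable ℝ u := fun t =>
    (diffAt_of_Ind hS.usm (hγ.tangent t).mem_Ind).comp t ((d1 t).prodMk (d2 t))
  have one : ∀ t, ⟪p (u t), deriv γ t⟫ = 1 := by
    intro t
    have h1 := hS.val (u t) (mem t) (deriv γ t) (by rw [base]; exact hγ.tangent t)
      (hS.crit _ _ (hγ.tangent t))
    rw [base, hγ.unit t] at h1
    have h2 : 0 < ⟪p (u t), deriv γ t⟫ := hS.pos _ _ (hγ.tangent t)
    nlinarith
  refine ⟨u, mem, base, diff, one, ?_⟩
  have key : ∀ t, HasDerivAt (fun t => G (u t)) 0 t := by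
    intro t
    obtain ⟨ξ, hξ⟩ := exists_W_hasDerivAt (diff t).hasDerivAt (Eventually.of_forall mem)
    have hd : HasDerivAt u (W (u t) ξ) t := hξ ▸ (diff t).hasDerivAt
    have hx : ‖γ t‖ = 1 := (hγ.tangent t).1
    have hv : deriv γ t = cr ξ (γ t) := by
      have h1 : HasDerivAt (fun t => (u t).1) (W (u t) ξ).1 t := hd.fst
      rw [show (fun t => (u t).1) = γ from funext base] at h1
      rw [h1.deriv, ← base t]; rfl
    have h0 : dW G (u t) ξ = 0 := by
      refine dW_eq_zero hD.good (mem t) fun b => ?_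
      have hz : ⟪γ t, cr b (γ t)⟫ = 0 := inner_cr_right _ _
      have e := hγ.euler t _ hz
      have e1 : (fun s => fderiv ℝ L (γ s, deriv γ s) (0, cr b (γ t)))
          = fun s => ⟪p (u s), cr b (γ t)⟫ := by
        funext s
        rw [hS.dw _ _ (hγ.tangent s)]
        show ⟪p (u s), deriv γ s⟫ * _ = _
        rw [one s, one_mul]
      have e2 : HasDerivAt (fun s => ⟪p (u s), cr b (γ t)⟫) ⟪dW p (u t) ξ, cr b (γ t)⟫ t := by
        have := hasDerivAt_inner (hasDerivAt_comp_W (diffAt_of_U hD.psm (mem t)) hd)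
          (hasDerivAt_const t (cr b (γ t)))
        simpa using this
      rw [e1, e2.deriv, hS.dx _ _ (hγ.tangent t) _ hz] at e
      change _ = ⟪p (u t), deriv γ t⟫ * ⟪dW p (u t) _, _⟫ at e
      have hc : ⟪dW p (u t) (γ t), deriv γ t⟫ = 0 := by
        have := hS.crit _ _ (hγ.tangent t)
        change ⟪dW p (u t) (u t).1, _⟫ = 0 at this
        rwa [base] at this
      rw [one t, one_mul, cr_cr_right, real_inner_self_eq_norm_sq, hx, one_pow, one_smul, dW_sub,
        dW_smul, inner_sub_left, inner_smul_left, hc, mul_zero, sub_zero, hv] at e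
      have s := hD.str (u t) (mem t) ξ b
      rw [base, e, sub_self] at s
      exact (mul_eq_zero.1 s.symm).resolve_left (hD.cpos _ (mem t)).ne'
    have := hasDerivAt_comp_W (diffAt_of_U hD.good.smooth (mem t)) hd
    rwa [h0] at this
  intro t
  exact is_const_of_deriv_eq_zero (fun t => (key t).differentiableAt) (fun t => (key t).deriv) t 0

/-- The speed of the geodesics with respect to the angle. -/
noncomputable def A (p : P → E) (T : P → P) (w : P) : ℝ := ⟪p (T w), V (fun w => (T w).1) w⟫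

section
variable {G p : P → E} {c L : P → ℝ} {us T : P → P}

lemma dW_T_fst (hT : ThInv G T) {w : P} (hw : w ∈ U) {ξ η : E} (h : dW T w ξ = W (T w) η) :
    dW (fun w => (T w).1) w ξ = cr η (T w).1 := by
  rw [dW_comp (f := fun w : P => w.1) differentiableAt_fst (diffAt_of_U hT.smooth hw) h, dW_fst]

lemma exists_eta (hT : ThInv G T) (hm : MapsTo T Ind U) {w : P} (hw : w ∈ U) (ξ : E) :
    ∃ η, dW T w ξ = W (T w) η :=
  exists_W_fderiv (diffAt_of_U hT.smooth hw) (Filter.mem_of_superset (Ind_nhds hw) hm) _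

lemma dW_G_eta (hG : Good G) (hT : ThInv G T) {w : P} (hw : w ∈ U) {η : E}
    (h : dW T w w.1 = W (T w) η) : dW G (T w) η = 0 := by
  have d1 := diffAt_of_U hG.smooth (hT.maps hw)
  have d2 := diffAt_of_U hT.smooth hw
  rw [← dW_comp d1 d2 h, dW_congr (f := fun w => G (T w)) (g := fun w : P => w.1) hw (d1.comp w d2)
    differentiableAt_fst (fun w' hw' => congrArg Prod.fst (hT.right w' hw')), dW_fst, cr_self]

lemma cr_eta_ne (hG : Good G) (hT : ThInv G T) {w : P} (hw : w ∈ U) {η : E}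
    (h : dW T w w.1 = W (T w) η) : cr η (T w).1 ≠ 0 := by
  intro h0
  have hu := hT.maps hw
  have e := exists_smul_of_cr hu.1 h0
  have e1 := dW_G_eta hG hT hw h
  rw [e, dW_smul] at e1
  have e2 : ⟪(T w).1, η⟫ = 0 := (smul_eq_zero.1 e1).resolve_right (hG.V_ne hu)
  rw [e2, zero_smul] at e
  have d1 := diffAt_Th hG hu
  have d2 := diffAt_of_U hT.smooth hw
  have e3 := dW_comp d1 d2 h
  rw [dW_congr (f := fun w => Th G (T w)) (g := fun w : P => w) hw (d1.comp w d2)
    differentiableAt_id hT.right, e, dW_zero] at e3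
  have e4 : W w w.1 = 0 := by simpa [dW] using e3
  have := hw.1
  rw [W_inj hw e4] at this
  simp at this

lemma A_ne (hD : Data G p c) (hS : SupOut p L us) (hT : ThInv G T) (hm : MapsTo T Ind U) {w : P}
    (hw : w ∈ U) : A p T w ≠ 0 := by
  obtain ⟨η, h⟩ := exists_eta hT hm hw w.1
  have hu := hT.maps hw
  have ht : Tan (T w).1 (cr η (T w).1) := ⟨hu.1, inner_cr_right _ _, cr_eta_ne hD.good hT hw h⟩
  have s := hD.str (T w) hu (T w).1 η
  rw [dW_G_eta hD.good hT hw h, cr_self, inner_zero_right, sub_zero, dt, cr_zero_right,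
    inner_zero_right, mul_zero] at s
  have v := hS.val _ hu _ ht s
  have q := hS.fins.pos _ _ ht
  intro h0
  rw [A, V, dW_T_fst hT hw h] at h0
  rw [v, h0] at q
  norm_num at q

lemma contDiffOn_pT (hD : Data G p c) (hT : ThInv G T) (hm : MapsTo T Ind U) :
    ContDiffOn ℝ ∞ (fun w => p (T w)) Ind :=
  hD.psm.comp hT.smooth fun _ h => U_sub_Ind (hm h)

lemma contDiffOn_A (hD : Data G p c) (hT : ThInv G T) (hm : MapsTo T Ind U) :
    ContDiffOn ℝ ∞ (A p T) Ind :=
  (contDiffOn_pT hD hT hm).inner ℝ (contDiffOn_V hT.smooth.fst)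

/-- The derivative of `A` is a derivative along the fibre. -/
lemma dW_A (hD : Data G p c) (hT : ThInv G T) (hm : MapsTo T Ind U) {w : P} (hw : w ∈ U) (ξ : E) :
    dW (A p T) w ξ = V (fun w => ⟪p (T w), dW (fun w => (T w).1) w ξ⟫) w := by
  obtain ⟨η₀, h₀⟩ := exists_eta hT hm hw w.1
  obtain ⟨η, h⟩ := exists_eta hT hm hw ξ
  have hu := hT.maps hw
  have hY : ContDiffOn ℝ ∞ (fun w => (T w).1) Ind := hT.smooth.fst
  have d1 := diffAt_of_U (contDiffOn_pT hD hT hm) hw
  have d2 := diffAt_of_U (contDiffOn_V hY) hw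
  have d3 : DifferentiableAt ℝ (fun w => dW (fun w => (T w).1) w ξ) w :=
    diffAt_of_U (contDiffOn_dW hY contDiffOn_const) hw
  have dp := diffAt_of_U hD.psm hu
  have dT := diffAt_of_U hT.smooth hw
  have s := hD.str (T w) hu η η₀
  rw [dW_G_eta hD.good hT hw h₀, dt, cr_zero_right, inner_zero_right, mul_zero] at s
  have e1 : dW (A p T) w ξ = _ := dW_inner d1 d2 ξ
  have e2 : V (fun w => ⟪p (T w), dW (fun w => (T w).1) w ξ⟫) w = _ := dW_inner d1 d3 w.1
  have e3 := V_dW_comm (contDiffAt_of_U hY hw) ξ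
  rw [e1, e2, ← e3, dW_comp dp dT h, dW_comp dp dT h₀, dW_T_fst hT hw h]
  rw [show V (fun w => (T w).1) w = cr η₀ (T w).1 from dW_T_fst hT hw h₀]
  show _ + ⟪p (T w), V (fun w => dW (fun w => (T w).1) w ξ) w⟫
    = _ + ⟪p (T w), V (fun w => dW (fun w => (T w).1) w ξ) w⟫
  linarith

end

lemma fderiv_slice {X : Type*} [NormedAddCommGroup X] [NormedSpace ℝ X] {f : X × ℝ → ℝ} {x : X}
    {s : ℝ} (d : DifferentiableAt ℝ f (x, s)) (δ : X) :
    fderiv ℝ (fun y => f (y, s)) x δ = fderiv ℝ f (x, s) (δ, 0) := by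
  have d2 : HasFDerivAt (fun y => f (y, s)) _ x :=
    HasFDerivAt.comp (f := fun y => (y, s)) x d.hasFDerivAt (hasFDerivAt_prodMk_left x s)
  rw [d2.fderiv]
  simp

/-- A function whose derivatives are derivatives along the fibre has constant fibre integrals. -/
lemma fibre_integral_const (hP : PIntStmt) {a : P → ℝ} (ha : ContDiffOn ℝ ∞ a Ind)
    (h : ∀ ξ, ∃ b : P → ℝ, ContDiffOn ℝ ∞ b Ind ∧ ∀ w ∈ U, dW a w ξ = V b w) :
    ∀ w ∈ U, ∀ w' ∈ U, ∫ s in (0 : ℝ)..2 * π, a (rho s w) = ∫ s in (0 : ℝ)..2 * π, a (rho s w') := by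
  have hr : ContDiff ℝ ∞ (fun q : P × ℝ => rho q.2 q.1) :=
    contDiff_rho.comp (contDiff_snd.prodMk contDiff_fst)
  have hf : ContDiffOn ℝ ∞ (fun q : P × ℝ => a (rho q.2 q.1)) (Ind ×ˢ univ) :=
    ha.comp hr.contDiffOn fun q hq => rho_mem_Ind hq.1 _
  have hO : IsOpen ((Ind : Set P) ×ˢ (univ : Set ℝ)) := isOpen_Ind.prod isOpen_univ
  have H := (hP P ℝ _ _ hO hf).1 0 (2 * π)
  refine const_of_dW_zero (f := fun w => ∫ s in (0 : ℝ)..2 * π, a (rho s w)) (fun w hw => ?_)
    fun w hw ξ => ?_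
  · exact (H w fun s _ => ⟨U_sub_Ind hw, mem_univ _⟩).1.differentiableAt (by simp)
  · obtain ⟨b, hb, e⟩ := h ξ
    have H2 := (H w fun s _ => ⟨U_sub_Ind hw, mem_univ _⟩).2 (W w ξ)
    have e1 : ∀ s, fderiv ℝ (fun q : P × ℝ => a (rho q.2 q.1)) (w, s) (W w ξ, 0)
        = V b (rho s w) := by
      intro s
      have hm : ((w, s) : P × ℝ) ∈ (Ind : Set P) ×ˢ (univ : Set ℝ) := ⟨U_sub_Ind hw, mem_univ _⟩
      have d := (hf.contDiffAt (hO.mem_nhds hm)).differentiableAt (by simp)
      rw [← e _ (rho_mem_U hw s), ← dW_comp_rho (diffAt_of_U ha (rho_mem_U hw s)), dW,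
        ← fderiv_slice d]
    show fderiv ℝ (fun w => ∫ s in (0 : ℝ)..2 * π, a (rho s w)) w (W w ξ) = 0
    rw [H2]
    simp only [e1]
    rw [intervalIntegral.integral_eq_sub_of_hasDerivAt (f := fun s => b (rho s w))
      (fun s _ => hasDerivAt_V' hb hw s)
      ((contDiff_fibre (fun u hu => contDiffAt_of_U (contDiffOn_V hb) hu) hw).continuous.intervalIntegrable
        _ _)]
    have := rho_periodic w 0
    simp only [zero_add] at this
    rw [this, sub_self]

/-- A curve in one fibre is a rotation by the integral of its angular speed. -/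
lemma eq_rho {w : ℝ → P} {lam θ : ℝ → ℝ} (hw : ∀ t, w t ∈ U)
    (hd : ∀ t, HasDerivAt w (W (w t) (lam t • (w t).1)) t) (hθ : ∀ t, HasDerivAt θ (lam t) t)
    (h0 : θ 0 = 0) (t : ℝ) : w t = rho (θ t) (w 0) := by
  have key : ∀ t, HasDerivAt (fun t => rho (-θ t) (w t)) 0 t := by
    intro t
    have h1 : HasDerivAt (fun t => (w t).1) 0 t := by
      have : HasDerivAt (fun t => (w t).1) (W (w t) (lam t • (w t).1)).1 t := (hd t).fst
      simpa [W, cr_smul_left] using this
    have h2 : HasDerivAt (fun t => (w t).2) (lam t • cr (w t).1 (w t).2) t := by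
      have : HasDerivAt (fun t => (w t).2) (W (w t) (lam t • (w t).1)).2 t := (hd t).snd
      simpa [W, cr_smul_left] using this
    have h3 := h1.prodMk ((((hθ t).neg.cos).smul h2).add (((hθ t).neg.sin).smul
      (hasDerivAt_cr h1 h2)))
    refine h3.congr_deriv (Prod.ext rfl ?_)
    simp only [cr_zero_left, zero_add, cr_smul_right, cr_cr_U (hw t), Pi.neg_apply, Prod.snd_zero]
    module
  have e := is_const_of_deriv_eq_zero (fun t => (key t).differentiableAt)
    (fun t => (key t).deriv) t 0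
  simp only [h0, neg_zero, rho_zero] at e
  rw [← e, rho_add (hw t), add_neg_cancel, rho_zero]

lemma closed {a : P → ℝ} (ha : ContDiffOn ℝ ∞ a Ind) (hs : (∀ w ∈ U, 0 < a w) ∨ ∀ w ∈ U, a w < 0)
    {w : ℝ → P} (hw : ∀ t, w t ∈ U)
    (hd : ∀ t, HasDerivAt w (W (w t) ((a (w t))⁻¹ • (w t).1)) t) {Λ : ℝ}
    (hΛ : ∫ s in (0 : ℝ)..2 * π, a (rho s (w 0)) = Λ) :
    Function.Periodic w Λ ∧ ∀ t t', w t = w t' → ∃ k : ℤ, t = t' + k * Λ := by
  have hne : ∀ w ∈ U, a w ≠ 0 := fun w hw => hs.elim (fun h => (h w hw).ne') fun h => (h w hw).ne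
  have cw : Continuous w := continuous_iff_continuousAt.2 fun t => (hd t).continuousAt
  have c1 : Continuous fun t => (a (w t))⁻¹ :=
    (ha.continuousOn.comp_continuous cw fun t => U_sub_Ind (hw t)).inv₀ fun t => hne _ (hw t)
  set θ : ℝ → ℝ := fun t => ∫ r in (0 : ℝ)..t, (a (w r))⁻¹ with hθd
  have hθ : ∀ t, HasDerivAt θ (a (w t))⁻¹ t := fun t => (c1.integral_hasStrictDerivAt 0 t).hasDerivAt
  have h0 : θ 0 = 0 := by simp [hθd]
  have e := eq_rho hw hd hθ h0
  have c2 : Continuous fun s => a (rho s (w 0)) :=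
    (contDiff_fibre (fun u hu => contDiffAt_of_U ha hu) (hw 0)).continuous
  set S : ℝ → ℝ := fun x => ∫ s in (0 : ℝ)..x, a (rho s (w 0)) with hSd
  have hS : ∀ x, HasDerivAt S (a (rho x (w 0))) x := fun x =>
    (c2.integral_hasStrictDerivAt 0 x).hasDerivAt
  have inj : Function.Injective S := by
    rcases hs with h | h
    · exact (strictMono_of_deriv_pos fun x => by
        rw [(hS x).deriv]; exact h _ (rho_mem_U (hw 0) x)).injective
    · exact (strictAnti_of_deriv_neg fun x => by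
        rw [(hS x).deriv]; exact h _ (rho_mem_U (hw 0) x)).injective
  have hSθ : ∀ t, S (θ t) = t := by
    have k : ∀ t, HasDerivAt (fun t => S (θ t) - t) 0 t := by
      intro t
      refine (((hS (θ t)).comp t (hθ t)).sub (hasDerivAt_id t)).congr_deriv ?_
      rw [← e t, mul_inv_cancel₀ (hne _ (hw t)), sub_self]
    intro t
    have := is_const_of_deriv_eq_zero (fun t => (k t).differentiableAt) (fun t => (k t).deriv) t 0
    simp only [h0, hSd, intervalIntegral.integral_same] at this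
    linarith
  have per : Function.Periodic (fun s => a (rho s (w 0))) (2 * π) := fun s =>
    congrArg a (rho_periodic (w 0) s)
  have hk : ∀ (x : ℝ) (k : ℤ), S (x + k * (2 * π)) = S x + k * Λ := by
    intro x k
    have i1 := per.intervalIntegral_add_zsmul_eq k x fun _ _ => c2.intervalIntegrable _ _
    have i2 := per.intervalIntegral_add_eq x 0
    rw [zero_add, hΛ] at i2
    rw [i2, zsmul_eq_mul, zsmul_eq_mul] at i1
    rw [← i1]
    exact (intervalIntegral.integral_add_adjacent_intervals (c2.intervalIntegrable _ _)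
      (c2.intervalIntegrable _ _)).symm
  refine ⟨fun t => ?_, fun t t' h => ?_⟩
  · have : θ (t + Λ) = θ t + (1 : ℤ) * (2 * π) := inj (by rw [hk, hSθ, hSθ]; simp)
    rw [e (t + Λ), e t]
    exact (rho_eq_iff (hw 0)).2 ⟨1, this⟩
  · rw [e t, e t'] at h
    obtain ⟨k, hk'⟩ := (rho_eq_iff (hw 0)).1 h
    exact ⟨k, by rw [← hSθ t, hk', hk, hSθ]⟩

lemma main (hP : PIntStmt) {G p : P → E} {c L : P → ℝ} {us T : P → P} (hD : Data G p c)
    (hS : SupOut p L us) (hT : ThInv G T) (hm : MapsTo T Ind U) :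
    ∃ l : ℝ, 0 < l ∧ ∀ γ, IsGeodesic L γ → Function.Periodic γ l ∧ InjOn γ (Ico 0 l) := by
  have ha := contDiffOn_A hD hT hm
  have hne : ∀ w ∈ U, A p T w ≠ 0 := fun w hw => A_ne hD hS hT hm hw
  have hs := sign_const isPreconnected_U (ha.continuousOn.mono U_sub_Ind) hne
  have hc := fibre_integral_const hP ha fun ξ => ⟨_, (contDiffOn_pT hD hT hm).inner ℝ
    (contDiffOn_dW hT.smooth.fst contDiffOn_const), fun w hw => dW_A hD hT hm hw ξ⟩
  obtain ⟨w₀, hw₀⟩ := U_nonempty
  set Λ := ∫ s in (0 : ℝ)..2 * π, A p T (rho s w₀) with hΛ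
  have hΛ0 : Λ ≠ 0 := by
    have c2 : Continuous fun s => A p T (rho s w₀) :=
      (contDiff_fibre (fun u hu => contDiffAt_of_U ha hu) hw₀).continuous
    rcases hs with h | h
    · exact (intervalIntegral.intervalIntegral_pos_of_pos (c2.intervalIntegrable _ _)
        (fun s => h _ (rho_mem_U hw₀ s)) two_pi_pos).ne'
    · have := intervalIntegral.intervalIntegral_pos_of_pos (c2.neg.intervalIntegrable 0 (2 * π))
        (fun s => neg_pos.2 (h _ (rho_mem_U hw₀ s))) two_pi_pos
      simp only [Pi.neg_apply, intervalIntegral.integral_neg] at this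
      linarith
  refine ⟨|Λ|, abs_pos.2 hΛ0, fun γ hγ => ?_⟩
  obtain ⟨u, hu⟩ := exists_lift hD hS hγ
  set w : ℝ → P := fun t => Th G (u t) with hwd
  have hw : ∀ t, w t ∈ U := fun t => hT.maps' (hu.mem t)
  have hTw : ∀ t, T (w t) = u t := fun t => hT.left _ (hu.mem t)
  have hγw : ∀ t, γ t = (T (w t)).1 := fun t => by rw [hTw, hu.base]
  have hd : ∀ t, HasDerivAt w (W (w t) ((A p T (w t))⁻¹ • (w t).1)) t := by
    intro t
    have d : DifferentiableAt ℝ w t := (diffAt_Th hD.good (hu.mem t)).comp t (hu.diff t)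
    obtain ⟨ζ, hζ⟩ := exists_W_hasDerivAt d.hasDerivAt (Eventually.of_forall hw)
    have hd : HasDerivAt w (W (w t) ζ) t := hζ ▸ d.hasDerivAt
    have h1 : HasDerivAt (fun t => (w t).1) (cr ζ (w t).1) t := hd.fst
    rw [show (fun t => (w t).1) = fun _ => G (u 0) from funext hu.const] at h1
    have h2 := exists_smul_of_cr (hw t).1 (h1.unique (hasDerivAt_const t _))
    have h3 := hasDerivAt_comp_W (f := fun w => (T w).1) (diffAt_of_U hT.smooth.fst (hw t)) hd
    rw [← show γ = fun t => (T (w t)).1 from funext hγw] at h3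
    have h4 := hu.one t
    rw [h3.deriv, h2, dW_smul, inner_smul_right, ← hTw t] at h4
    have h5 : ⟪(w t).1, ζ⟫ = (A p T (w t))⁻¹ := eq_inv_of_mul_eq_one_left h4
    rw [← h5, ← h2]
    exact hd
  obtain ⟨per, inj⟩ := closed ha hs hw hd (hc _ (hw 0) _ hw₀)
  have perγ : Function.Periodic γ Λ := fun t => by rw [hγw, hγw, per t]
  refine ⟨?_, fun t ht t' ht' h => ?_⟩
  · rcases abs_choice Λ with h | h <;> rw [h]
    · exact perγ
    · exact perγ.neg
  · have e : u t = u t' := hD.good.inj (hu.mem t') (hu.mem t) (by rw [hu.base, hu.base, h])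
      (by rw [hu.const t, hu.const t'])
    obtain ⟨k, hk⟩ := inj t t' (by simp only [hwd, e])
    have h1 : |(k : ℝ)| * |Λ| < 1 * |Λ| := by
      rw [← abs_mul, show (k : ℝ) * Λ = t - t' by linarith, one_mul, abs_lt]
      constructor <;> linarith [ht.1, ht.2, ht'.1, ht'.2]
    have h2 : |k| < 1 := by exact_mod_cast lt_of_mul_lt_mul_right h1 (abs_nonneg _)
    have h3 : k = 0 := Int.abs_lt_one_iff.1 h2
    rw [hk, h3]; simp

end Zoll

theorem zoll_of (hP : PIntStmt) : ZollStmt := by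
  intro G p c L us Ti hD hS hT
  refine Zoll.main hP (T := fun w => Ti (rt w)) hD hS ⟨?_, ?_, hT.maps', ?_, ?_⟩ ?_
  · exact contDiffOn_comp_rt fun u hu => contDiffAt_of_U hT.smooth hu
  · exact fun w hw => hT.maps (rt_mem_U (U_sub_Ind hw))
  · intro u hu; rw [rt_of_U (hT.maps' hu), hT.left u hu]
  · intro u hu; rw [rt_of_U hu, hT.right u hu]
  · exact fun w hw => hT.maps (rt_mem_U hw)

end Pool.Agent.MP_2291e2_gt.Zl
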