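import Mathlib.Algebra.Lie.OfAssociative
import Pool.Agent.MP_2291e2_gt.zl.Turn
import Pool.Agent.MP_2291e2_gt.zl.Sync
import Pool.Agent.MP_2291e2_gt.zl.Interp
import Pool.Agent.MP_2291e2_gt.zl.Time
import Pool.Agent.MP_2291e2_gt.zl.Cross1
import Pool.Agent.MP_2291e2_gt.zl.HeatOp
import Pool.Agent.MP_2291e2_gt.zl.End
import Pool.Agent.MP_2291e2_gt.zl.EndEst
import Pool.Agent.MP_2291e2_gt.zl.ExistA
import Pool.Agent.MP_2291e2_gt.zl.ExistB
import Pool.Agent.MP_2291e2_gt.zl.Geo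
import Pool.Agent.MP_2291e2_gt.zl.Init
import Pool.Agent.MP_2291e2_gt.zl.OneD
import Pool.Agent.MP_2291e2_gt.zl.Open
import Pool.Agent.MP_2291e2_gt.zl.Spec2
import Pool.Agent.MP_2291e2_gt.zl.Pole
import Pool.Agent.MP_2291e2_gt.zl.S
import Pool.Agent.MP_2291e2_gt.zl.Var
import Pool.Agent.MP_2291e2_gt.zl.Zoll
import Pool.Agent.MP_2291e2_gt.zl.Germ
import Pool.Agent.MP_2291e2_gt.zl.Pull
import Pool.Agent.MP_2291e2_gt.zl.Transfer

-- ======== part 0: formerly Pool.Agent.MP_2291e2_gt.zl.All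
section MrgPart0

/-! All modules put together. -/

namespace Pool.Agent.MP_2291e2_gt.Zl

theorem pint_all : PIntStmt := pint_of nem_of
theorem flow_all : FlowStmt := flow_of nem_of fix_of
theorem lift_all : LiftStmt := lift_of pint_all
theorem mean_all : MeanStmt := mean_of pint_all
theorem curvea_all : CurveAStmt := curvea_of mean_all
theorem curveb_all : CurveBStmt := curveb_of mean_all curvea_all
theorem kc_all : KcStmt := kc_of nem_of pint_all mean_all
theorem exist_all : ExistStmt := fun G₀ R h ho => by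
  obtain ⟨γ, φ, m⟩ := exista_of nem_of heatop_of (nonlin_of nem_of) (mild_of nem_of fix_of) kc_all
    G₀ R h ho
  exact ⟨γ, existb_of duhamel_of kc_all mean_all pint_all G₀ R γ φ m⟩
theorem varreg_all : VarRegStmt := varreg_of mean_all curvea_all
theorem var_all : VarStmt := var_of mean_all curvea_all varreg_all
theorem turn_all : TurnStmt := turn_of km_of varreg_all var_all curvea_all
theorem asym_all : AsymStmt :=
  asym_of (bern_of varreg_all var_all curvea_all) varreg_all curvea_all curveb_all mean_all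
theorem late_all : LateStmt :=
  late_of varreg_all var_all turn_all asym_all (energy_of pint_all oned_of) curvea_all pint_all
theorem endcurve_all : EndCurveStmt := endcurve_of pint_all mean_all curvea_all
theorem fermi_all : FermiStmt := fermi_of locinv_of
theorem cross1_all : Cross1Stmt := cross1_of pint_all branch_of
theorem th_all : ThStmt := th_of locinv_of
theorem geo_all : GeoStmt := geo_of flow_all

theorem main_all : MainStmt :=
  main_of geo_all fermi_all cross1_all (jac_of fermi_all cross1_all) (cross2_of lift_all)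
    cross3_of (height_of (folia_of flow_all)) (pole_of pint_all)
    (glue_of (interp_of pint_all lift_all)) (phi_of locinv_of) (init_of th_all lift_all)
    (reparam_of mean_all)
    (global_of exist_all (constr_of mean_all) curvea_all curveb_all (chord_of mean_all curvea_all)
      mean_all)
    (sync_of (time_of varreg_all curvea_all) (open_of norm_of) turn_all late_all varreg_all
      curvea_all)
    (end_of pint_all norm_of endcurve_all
      (endest_of pint_all mean_all curvea_all oned_of endcurve_all))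
    (s_of pint_all) sup_of th_all (zoll_of pint_all) (round_of pint_all (s_of pint_all))

end Pool.Agent.MP_2291e2_gt.Zl

end MrgPart0

-- ======== part 1: formerly Pool.Agent.MP_2291e2_gt.zl.Conn
section MrgPart1

/-! Any two reversible Zoll Finsler metrics are joined. -/

open scoped ContDiff RealInnerProductSpace Topology
open Set Filter Real

namespace Pool.Agent.MP_2291e2_gt.Zl

theorem join_round (hM : MainStmt) (hZ : ZCongrStmt) (hS : SmaleStmt) {L₀ : P → ℝ}
    (h : IsZoll L₀) : ZJoin L₀ (pull id) := by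
  obtain ⟨L, ψ, sL, zL, e0, sψ, bψ, e1⟩ := hM L₀ h
  have iso : IsoDiff ψ := ⟨sψ, bψ, fun x w ht h0 => by
    have := (zL 1).1.1.pos x w ht
    rw [e1 x w ht, h0] at this
    simp at this⟩
  exact hZ.2.2 _ _ _ ⟨L, sL, fun s => (zL s).1, e0, e1⟩ (hS ψ iso)

theorem conn_of (hM : MainStmt) (hG : GeoStmt) (hZ : ZCongrStmt) (hS : SmaleStmt)
    (L₀ L₁ : P → ℝ) (h₀ : IsZoll L₀) (h₁ : IsZoll L₁) :
    ∃ L : ℝ → P → ℝ, ContDiffOn ℝ ∞ (fun q : ℝ × P => L q.1 q.2) (univ ×ˢ Ind) ∧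
      (∀ s, IsZoll (L s) ∧ IsComplete (L s)) ∧ (∀ x w, Tan x w → L 0 (x, w) = L₀ (x, w)) ∧
      ∀ x w, Tan x w → L 1 (x, w) = L₁ (x, w) := by
  obtain ⟨L, sL, zL, e0, e1⟩ :=
    hZ.2.2 _ _ _ (join_round hM hZ hS h₀) (hZ.2.1 _ _ (join_round hM hZ hS h₁))
  exact ⟨L, sL, fun s => ⟨zL s, Main.complete hG (zL s).1⟩, e0, e1⟩

end Pool.Agent.MP_2291e2_gt.Zl

end MrgPart1

-- ======== part 2: formerly Pool.Agent.MP_2291e2_gt.zl.Exit
section MrgPart2

/-! A smooth plane vector field `exp (a z)` has no bounded forward orbit. -/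

open scoped ContDiff RealInnerProductSpace Topology
open Set Filter Real

namespace Pool.Agent.MP_2291e2_gt.Zl

namespace Exit

/-- The flow data. -/
structure Fl (a : ℂ → ℂ) (φ : ℝ → ℂ → ℂ) : Prop where
  ha : ContDiff ℝ ∞ a
  hφ : ContDiff ℝ ∞ (fun q : ℝ × ℂ => φ q.1 q.2)
  h0 : ∀ z, φ 0 z = z
  hadd : ∀ s t z, φ (s + t) z = φ s (φ t z)
  hd : ∀ z t, HasDerivAt (fun t => φ t z) (Complex.exp (a (φ t z))) t

variable {a : ℂ → ℂ} {φ : ℝ → ℂ → ℂ}

/-- The derivative of the flow in both variables. -/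
noncomputable def D (φ : ℝ → ℂ → ℂ) (t : ℝ) (w : ℂ) : ℝ × ℂ →L[ℝ] ℂ :=
  fderiv ℝ (fun q : ℝ × ℂ => φ q.1 q.2) (t, w)

lemma Fl.hasD (F : Fl a φ) (t : ℝ) (w : ℂ) :
    HasFDerivAt (fun q : ℝ × ℂ => φ q.1 q.2) (D φ t w) (t, w) :=
  ((F.hφ.differentiable (by simp)) (t, w)).hasFDerivAt

lemma Fl.chain (F : Fl a φ) {τ : ℝ → ℝ} {γ : ℝ → ℂ} {τ' s : ℝ} {γ' : ℂ}
    (h1 : HasDerivAt τ τ' s) (h2 : HasDerivAt γ γ' s) :
    HasDerivAt (fun s => φ (τ s) (γ s)) (D φ (τ s) (γ s) (τ', γ')) s := by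
  have h := HasFDerivAt.comp_hasDerivAt (f := fun x => (τ x, γ x)) s (F.hasD (τ s) (γ s))
    (h1.prodMk h2)
  exact h

lemma Fl.D_time (F : Fl a φ) (t : ℝ) (w : ℂ) :
    D φ t w (1, 0) = Complex.exp (a (φ t w)) :=
  (F.chain (hasDerivAt_id t) (hasDerivAt_const t w)).unique (F.hd w t)

lemma Fl.D_field (F : Fl a φ) (t : ℝ) (w : ℂ) :
    D φ t w (0, Complex.exp (a w)) = Complex.exp (a (φ t w)) := by
  have h1 := F.chain (hasDerivAt_const (0 : ℝ) t) (F.hd w 0)
  simp only [F.h0] at h1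
  have h2 : HasDerivAt (fun s => φ (t + s) w) (Complex.exp (a (φ t w))) 0 := by
    have h3 := F.hd w (t + 0)
    have h4 := h3.comp_const_add t 0
    simpa only [add_zero] using h4
  have h5 : (fun s => φ (t + s) w) = fun s => φ t (φ s w) := by
    funext s; exact F.hadd t s w
  rw [h5] at h2
  exact h1.unique h2

lemma line_deriv (w v : ℂ) (s : ℝ) : HasDerivAt (fun r : ℝ => w + r • v) v s := by
  have h := ((hasDerivAt_id s).smul_const v).const_add w
  simpa only [one_smul, id] using h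

lemma Fl.D_zero (F : Fl a φ) (w v : ℂ) : D φ 0 w (0, v) = v := by
  have h1 := F.chain (hasDerivAt_const (0 : ℝ) (0 : ℝ)) (line_deriv w v 0)
  simp only [F.h0, zero_smul, add_zero] at h1
  exact h1.unique (line_deriv w v 0)

lemma Fl.inv (F : Fl a φ) (t : ℝ) (w : ℂ) : φ (-t) (φ t w) = w := by
  rw [← F.hadd, neg_add_cancel, F.h0]

lemma Fl.D_inj (F : Fl a φ) (t : ℝ) (w v : ℂ) (h : D φ t w (0, v) = 0) : v = 0 := by
  have h1 := F.chain (hasDerivAt_const (0 : ℝ) t) (line_deriv w v 0)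
  have h2 := F.chain (hasDerivAt_const (0 : ℝ) (-t)) h1
  simp only [F.inv, zero_smul, add_zero, h] at h2
  have h3 := h2.unique (line_deriv w v 0)
  rw [← h3]
  exact map_zero _

/-- The transversal through `q`. -/
noncomputable def sg (a : ℂ → ℂ) (q : ℂ) (r : ℝ) : ℂ :=
  q + r • (Complex.I * Complex.exp (a q))

lemma sg_zero (q : ℂ) : sg a q 0 = q := by simp [sg]

lemma contDiff_sg (q : ℂ) : ContDiff ℝ ∞ (sg a q) :=
  contDiff_const.add (contDiff_id.smul contDiff_const)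

/-- The flow box at `q`. -/
lemma Fl.box (F : Fl a φ) (q : ℂ) : ∃ d > 0,
    (∀ t r t' r' : ℝ, |t| < d → |r| < d → |t'| < d → |r'| < d →
      φ t (sg a q r) = φ t' (sg a q r') → t = t') ∧
    (∀ r : ℝ, |r| < d → 0 < (Complex.exp (a (sg a q r)) / Complex.exp (a q)).re) ∧
    ∀ᶠ y in 𝓝 q, ∃ t r : ℝ, |t| < d / 2 ∧ |r| < d / 2 ∧ φ t (sg a q r) = y := by
  set Ξ : ℝ × ℝ → ℂ := fun p => φ p.1 (sg a q p.2) with hΞ
  have hsm : ContDiff ℝ ∞ Ξ :=
    F.hφ.comp (contDiff_fst.prodMk ((contDiff_sg q).comp contDiff_snd))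
  have hΞ0 : Ξ (0, 0) = q := by simp [hΞ, sg_zero, F.h0]
  have hX : Complex.exp (a q) ≠ 0 := Complex.exp_ne_zero _
  have hi : ∀ δ, fderiv ℝ Ξ (0, 0) δ = 0 → δ = 0 := by
    rintro ⟨τ, ρ⟩ hδ
    have hl : HasDerivAt (fun s : ℝ => ((s * τ, s * ρ) : ℝ × ℝ)) (τ, ρ) 0 := by
      have h1 := (hasDerivAt_id (0 : ℝ)).mul_const τ
      have h2 := (hasDerivAt_id (0 : ℝ)).mul_const ρ
      simpa only [one_mul, id] using h1.prodMk h2
    have hF : HasFDerivAt Ξ (fderiv ℝ Ξ (0, 0)) ((0 : ℝ) * τ, (0 : ℝ) * ρ) := by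
      simp only [zero_mul]
      exact ((hsm.differentiable (by simp)) _).hasFDerivAt
    have h1 := hF.comp_hasDerivAt (0 : ℝ) hl
    rw [hδ] at h1
    have h2 : HasDerivAt (fun s : ℝ => s * τ) τ 0 := by
      simpa only [one_mul, id] using (hasDerivAt_id (0 : ℝ)).mul_const τ
    have h3 : HasDerivAt (fun s : ℝ => sg a q (s * ρ))
        (ρ • (Complex.I * Complex.exp (a q))) 0 := by
      have h4 := line_deriv q (ρ • (Complex.I * Complex.exp (a q))) 0
      simpa only [sg, mul_smul] using h4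
    have h5 := F.chain h2 h3
    simp only [zero_mul, sg_zero] at h5
    have h6 : D φ 0 q (τ, ρ • (Complex.I * Complex.exp (a q))) = 0 := h5.unique h1
    have h7 : ((τ, ρ • (Complex.I * Complex.exp (a q))) : ℝ × ℂ) =
        τ • ((1 : ℝ), (0 : ℂ)) + (0, ρ • (Complex.I * Complex.exp (a q))) := by simp
    rw [h7, map_add, map_smul, F.D_time, F.D_zero, F.h0] at h6
    have h8 : ((τ : ℂ) + ρ * Complex.I) * Complex.exp (a q) = 0 := by
      rw [← h6]; simp only [Complex.real_smul]; ring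
    have h9 := (mul_eq_zero.1 h8).resolve_right hX
    have hre := congrArg Complex.re h9
    have him := congrArg Complex.im h9
    simp at hre him
    simp [hre, him]
  obtain ⟨G, hG, hG0, hl, hr⟩ := LocInv.ift (X := ℝ × ℝ) (Y := ℂ) (by simp)
    (hsm.contDiffAt (x := (0, 0))) hi
  have hpos : ∀ᶠ r : ℝ in 𝓝 0, 0 < (Complex.exp (a (sg a q r)) / Complex.exp (a q)).re := by
    have hc : Continuous fun r : ℝ => (Complex.exp (a (sg a q r)) / Complex.exp (a q)).re :=
      Complex.continuous_re.comp (((F.ha.continuous.comp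
        (contDiff_sg q).continuous).cexp).div_const _)
    apply hc.continuousAt.eventually (lt_mem_nhds _)
    simp [sg_zero, hX]
  obtain ⟨d1, hd1, h1⟩ := Metric.eventually_nhds_iff.1 hl
  obtain ⟨d2, hd2, h2⟩ := Metric.eventually_nhds_iff.1 hpos
  refine ⟨min d1 d2, lt_min hd1 hd2, ?_, ?_, ?_⟩
  · intro t r t' r' ht hr ht' hr' he
    have e1 : G (Ξ (t, r)) = (t, r) := by
      apply h1
      simp only [Prod.dist_eq, Real.dist_eq, sub_zero, max_lt_iff]
      exact ⟨lt_of_lt_of_le ht (min_le_left _ _), lt_of_lt_of_le hr (min_le_left _ _)⟩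
    have e2 : G (Ξ (t', r')) = (t', r') := by
      apply h1
      simp only [Prod.dist_eq, Real.dist_eq, sub_zero, max_lt_iff]
      exact ⟨lt_of_lt_of_le ht' (min_le_left _ _), lt_of_lt_of_le hr' (min_le_left _ _)⟩
    have e3 : Ξ (t, r) = Ξ (t', r') := he
    rw [e3, e2] at e1
    exact (congrArg Prod.fst e1).symm
  · intro r hr
    apply h2
    simpa only [Real.dist_eq, sub_zero] using lt_of_lt_of_le hr (min_le_right _ _)
  · rw [hΞ0] at hG hG0 hr
    have hb : ∀ᶠ y in 𝓝 q, G y ∈ Metric.ball ((0, 0) : ℝ × ℝ) (min d1 d2 / 2) := by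
      apply hG.continuousAt.eventually
      rw [hG0]
      exact Metric.ball_mem_nhds _ (half_pos (lt_min hd1 hd2))
    filter_upwards [hb, hr] with y hy hy'
    simp only [Metric.mem_ball, Prod.dist_eq, Real.dist_eq, sub_zero, max_lt_iff] at hy
    exact ⟨(G y).1, (G y).2, hy.1, hy.2, hy'⟩

/-- A bounded forward orbit crosses some flow box twice in a row. -/
lemma Fl.consec (F : Fl a φ) (z : ℂ) (R : ℝ) (hb : ∀ t ≥ 0, ‖φ t z‖ ≤ R) :
    ∃ (q : ℂ) (d r1 r2 L : ℝ), 0 < d ∧ d ≤ L ∧ |r1| ≤ d / 2 ∧ |r2| ≤ d / 2 ∧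
    (∀ t r t' r' : ℝ, |t| < d → |r| < d → |t'| < d → |r'| < d →
      φ t (sg a q r) = φ t' (sg a q r') → t = t') ∧
    (∀ r : ℝ, |r| < d → 0 < (Complex.exp (a (sg a q r)) / Complex.exp (a q)).re) ∧
    φ L (sg a q r1) = sg a q r2 ∧
    ∀ t r : ℝ, 0 < t → t < L → |r| ≤ d / 2 → φ t (sg a q r1) ≠ sg a q r := by
  have hmem : ∀ n : ℕ, φ n z ∈ Metric.closedBall (0 : ℂ) R := fun n => by
    simpa using hb n (Nat.cast_nonneg n)
  obtain ⟨q, -, hq⟩ := (isCompact_closedBall (0 : ℂ) R).exists_mapClusterPt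
    (f := atTop) (u := fun n : ℕ => φ n z) (by
      rw [le_principal_iff, mem_map]; exact Eventually.of_forall hmem)
  obtain ⟨d, hd, hinj, hpos, hnb⟩ := F.box q
  set C : Set ℝ := {t | ∃ r, |r| ≤ d / 2 ∧ φ t z = sg a q r} with hC
  have hcont : Continuous fun t : ℝ => φ t z :=
    continuous_iff_continuousAt.2 fun t => (F.hd z t).continuousAt
  have hCc : IsClosed C := by
    have h1 : IsCompact (sg a q '' Icc (-(d / 2)) (d / 2)) :=
      isCompact_Icc.image (contDiff_sg q).continuous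
    have h2 : C = (fun t : ℝ => φ t z) ⁻¹' (sg a q '' Icc (-(d / 2)) (d / 2)) := by
      ext t
      simp only [hC, mem_ofPred_eq, mem_preimage, mem_image, mem_Icc, abs_le]
      constructor
      · rintro ⟨r, hr, h⟩; exact ⟨r, hr, h.symm⟩
      · rintro ⟨r, hr, h⟩; exact ⟨r, hr, h.symm⟩
    rw [h2]
    exact h1.isClosed.preimage hcont
  have hunb : ∀ T : ℝ, ∃ t ∈ C, T ≤ t := by
    intro T
    have h1 : ∃ᶠ n : ℕ in atTop, ∃ t r : ℝ, |t| < d / 2 ∧ |r| < d / 2 ∧
        φ t (sg a q r) = φ n z := (mapClusterPt_iff_frequently.1 hq) _ hnb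
    have h2 : ∀ᶠ n : ℕ in atTop, T + d / 2 ≤ (n : ℝ) :=
      tendsto_natCast_atTop_atTop.eventually (eventually_ge_atTop _)
    obtain ⟨n, ⟨t, r, ht, hr, he⟩, hn⟩ := (h1.and_eventually h2).exists
    refine ⟨-t + n, ⟨r, hr.le, ?_⟩, ?_⟩
    · rw [F.hadd, ← he, F.inv]
    · have := (abs_lt.1 ht).2
      linarith
  obtain ⟨s1, ⟨r1, hr1, e1⟩, -⟩ := hunb 0
  have hne : (C ∩ Ici (s1 + d)).Nonempty := by
    obtain ⟨t, ht, h⟩ := hunb (s1 + d)
    exact ⟨t, ht, h⟩
  have hbd : BddBelow (C ∩ Ici (s1 + d)) := ⟨s1 + d, fun t ht => ht.2⟩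
  obtain ⟨⟨r2, hr2, e2⟩, h2⟩ := (hCc.inter isClosed_Ici).csInf_mem hne hbd
  set s2 := sInf (C ∩ Ici (s1 + d)) with hs2
  have h2' : s1 + d ≤ s2 := h2
  refine ⟨q, d, r1, r2, s2 - s1, hd, by linarith, hr1, hr2, hinj, hpos, ?_, ?_⟩
  · rw [← e1, ← F.hadd, sub_add_cancel, e2]
  · intro t r ht htL hr he
    rcases lt_or_ge t d with h | h
    · have h3 := hinj t r1 0 r (by rw [abs_of_pos ht]; exact h) (by linarith)
        (by simpa using hd) (by linarith) (by rw [F.h0]; exact he)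
      exact ht.ne' h3
    · have h3 : t + s1 ∈ C ∩ Ici (s1 + d) :=
        ⟨⟨r, hr, by rw [F.hadd, e1, he]⟩, by simp only [mem_Ici]; linarith⟩
      have h4 := csInf_le hbd h3
      linarith

/-- The periodic extension is locally a translate. -/
lemma per_loc {β : Type*} (g : ℝ → β) {L ε : ℝ} (hL : 0 < L) (hε : 0 < ε)
    (h : ∀ t ∈ Ioo (-ε) 0, g (t + L) = g t) (t0 : ℝ) :
    ∀ᶠ t in 𝓝 t0, g (toIcoMod hL 0 t) = g (t - toIcoDiv hL 0 t0 • L) := by
  set n := toIcoDiv hL 0 t0 with hn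
  have h0 : t0 - n • L ∈ Ico 0 (0 + L) := sub_toIcoDiv_zsmul_mem_Ico hL 0 t0
  have hc : Continuous fun t : ℝ => t - n • L := continuous_id.sub continuous_const
  have h1 : ∀ᶠ t in 𝓝 t0, t - n • L ∈ Ioo (-(min ε L)) L := by
    apply hc.continuousAt.eventually
    apply isOpen_Ioo.mem_nhds
    have := lt_min hε hL
    exact ⟨by linarith [h0.1], by linarith [h0.2]⟩
  filter_upwards [h1] with t ht
  rcases le_or_gt 0 (t - n • L) with h2 | h2
  · have h3 : toIcoMod hL 0 t = t - n • L :=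
      (toIcoMod_eq_iff hL).2 ⟨⟨h2, by linarith [ht.2]⟩, n, by ring⟩
    rw [h3]
  · have h4 := min_le_left ε L
    have h5 := min_le_right ε L
    have h3 : toIcoMod hL 0 t = t - n • L + L :=
      (toIcoMod_eq_iff hL).2 ⟨⟨by linarith [ht.1], by linarith⟩, n - 1, by
        simp only [zsmul_eq_mul]; push_cast; ring⟩
    rw [h3]
    exact h _ ⟨by linarith [ht.1], h2⟩

/-- The closing argument: a smooth arc that closes up smoothly. -/
lemma closed_curve (hU : UmlaufStmt) (g : ℝ → ℂ) (b : ℂ → ℂ) (hb : Continuous b) {L ε : ℝ}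
    (hL : 0 < L) (hε : 0 < ε) (hg : ContDiff ℝ ∞ g)
    (h : ∀ t ∈ Ioo (-ε) 0, g (t + L) = g t) (hi : InjOn g (Ico 0 L)) :
    ¬ ∀ t ∈ Ico 0 L, deriv g t / Complex.exp (b (g t)) ∈ Complex.slitPlane := by
  intro hs
  have hdiff : Differentiable ℝ g := hg.differentiable (by simp)
  have hc1 : Continuous (deriv g) := hg.continuous_deriv (by simp)
  have h1 : ∀ t ∈ Ioo (-ε) 0, deriv g (t + L) = deriv g t := by
    intro t ht
    have e : (fun s => g (s + L)) =ᶠ[𝓝 t] g := by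
      filter_upwards [isOpen_Ioo.mem_nhds ht] with s hs using h s hs
    rw [← e.deriv_eq, deriv_comp_add_const]
  have hder : ∀ t, HasDerivAt (fun t => g (toIcoMod hL 0 t)) (deriv g (toIcoMod hL 0 t)) t := by
    intro t
    have e := per_loc g hL hε h t
    have h2 : HasDerivAt (fun s => g (s - toIcoDiv hL 0 t • L)) (deriv g (toIcoMod hL 0 t)) t :=
      (hdiff _).hasDerivAt.comp_sub_const t _
    exact h2.congr_of_eventuallyEq e
  have hcont : Continuous fun t => g (toIcoMod hL 0 t) :=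
    continuous_iff_continuousAt.2 fun t => (hder t).continuousAt
  have hcont1 : Continuous fun t => deriv g (toIcoMod hL 0 t) := by
    refine continuous_iff_continuousAt.2 fun t => ?_
    have e := per_loc (deriv g) hL hε h1 t
    have h2 : ContinuousAt (fun s => deriv g (s - toIcoDiv hL 0 t • L)) t :=
      (hc1.comp (continuous_id.sub continuous_const)).continuousAt
    exact h2.congr (EventuallyEq.symm e)
  refine hU (fun t => g (toIcoMod hL 0 t)) (fun t => deriv g (toIcoMod hL 0 t))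
    (fun t => b (g (toIcoMod hL 0 t))) L hL hder hcont1 ?_ ?_ (hb.comp hcont) ?_ ?_
  · intro t; simp only [toIcoMod_add_right]
  · intro t ht t' ht' he
    have e1 : toIcoMod hL 0 t = t := (toIcoMod_eq_self hL).2 (by simpa using ht)
    have e2 : toIcoMod hL 0 t' = t' := (toIcoMod_eq_self hL).2 (by simpa using ht')
    simp only [e1, e2] at he
    exact hi ht ht' he
  · intro t; simp only [toIcoMod_add_right]
  · intro t
    exact hs _ (toIcoMod_mem_Ico' hL t)

/-- The interpolation between two points of the transversal. -/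
noncomputable def rh (d r1 r2 t : ℝ) : ℝ :=
  r2 + (r1 - r2) * Real.smoothTransition ((t + d / 2) / (d / 4))

lemma contDiff_rh (d r1 r2 : ℝ) : ContDiff ℝ ∞ (rh d r1 r2) :=
  contDiff_const.add (contDiff_const.mul (Real.smoothTransition.contDiff.comp
    ((contDiff_id.add contDiff_const).div_const _)))

lemma rh_left {d r1 r2 t : ℝ} (hd : 0 < d) (ht : t ≤ -(d / 2)) : rh d r1 r2 t = r2 := by
  have : (t + d / 2) / (d / 4) ≤ 0 := div_nonpos_of_nonpos_of_nonneg (by linarith) (by linarith)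
  simp [rh, Real.smoothTransition.zero_of_nonpos this]

lemma rh_right {d r1 r2 t : ℝ} (hd : 0 < d) (ht : -(d / 4) ≤ t) : rh d r1 r2 t = r1 := by
  have : 1 ≤ (t + d / 2) / (d / 4) := by
    rw [le_div_iff₀ (by linarith)]; linarith
  simp [rh, Real.smoothTransition.one_of_one_le this]

lemma rh_abs {d r1 r2 : ℝ} (h1 : |r1| ≤ d / 2) (h2 : |r2| ≤ d / 2) (t : ℝ) :
    |rh d r1 r2 t| ≤ d / 2 := by
  have a0 := Real.smoothTransition.nonneg ((t + d / 2) / (d / 4))
  have a1 := Real.smoothTransition.le_one ((t + d / 2) / (d / 4))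
  rw [abs_le] at h1 h2 ⊢
  unfold rh
  constructor <;> nlinarith [h1.1, h1.2, h2.1, h2.2]

/-- The tangent of the closing arc never points against the field. -/
lemma Fl.slit (F : Fl a φ) (q : ℂ) (t r r' : ℝ)
    (hp : 0 < (Complex.exp (a (sg a q r)) / Complex.exp (a q)).re) :
    D φ t (sg a q r) (1, r' • (Complex.I * Complex.exp (a q))) /
      Complex.exp (a (φ t (sg a q r))) ∈ Complex.slitPlane := by
  by_contra hn
  set w := sg a q r with hw
  set Y := Complex.exp (a (φ t w)) with hY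
  have hY0 : Y ≠ 0 := Complex.exp_ne_zero _
  have hX : Complex.exp (a q) ≠ 0 := Complex.exp_ne_zero _
  set u := D φ t w (1, r' • (Complex.I * Complex.exp (a q))) / Y with hu
  rw [Complex.mem_slitPlane_iff, not_or, not_lt, not_not] at hn
  have hu' : u = (u.re : ℂ) := Complex.ext (by simp) (by simp [hn.2])
  have e1 : D φ t w (1, r' • (Complex.I * Complex.exp (a q))) = u.re • Y := by
    rw [Complex.real_smul (x := u.re), ← hu', hu, div_mul_cancel₀ _ hY0]
  have e2 : ((0, (1 - u.re) • Complex.exp (a w) + r' • (Complex.I * Complex.exp (a q))) :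
      ℝ × ℂ) = (1, r' • (Complex.I * Complex.exp (a q))) - (1, 0) +
        (1 - u.re) • ((0 : ℝ), Complex.exp (a w)) := by
    ext
    · simp
    · simp only [Prod.snd_add, Prod.snd_sub, Prod.smul_snd, sub_zero]; ring
  have e3 := F.D_inj t w ((1 - u.re) • Complex.exp (a w) + r' • (Complex.I * Complex.exp (a q)))
    (by rw [e2, map_add, map_sub, map_smul, e1, F.D_time, F.D_field, ← hY, sub_smul, one_smul]
        ring)
  have e4 : ((1 - u.re : ℝ) : ℂ) * (Complex.exp (a w) / Complex.exp (a q)) + r' * Complex.I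
      = 0 := by
    simp only [Complex.real_smul] at e3
    field_simp
    linear_combination e3
  have e5 := congrArg Complex.re e4
  simp only [Complex.add_re, Complex.re_ofReal_mul, Complex.I_re, mul_zero, add_zero,
    Complex.zero_re] at e5
  have e6 : 0 < (1 - u.re) * (Complex.exp (a w) / Complex.exp (a q)).re :=
    mul_pos (by linarith [hn.1]) hp
  linarith

end Exit

open Exit in
theorem exit_of (hU : UmlaufStmt) : ExitStmt := by
  intro a φ ha hφ h0 hadd hd z R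
  have F : Fl a φ := ⟨ha, hφ, h0, hadd, hd⟩
  by_contra hcon
  push Not at hcon
  obtain ⟨q, d, r1, r2, L, hd0, hdL, hr1, hr2, hinj, hpos, hret, hmiss⟩ := F.consec z R hcon
  have hL : 0 < L := lt_of_lt_of_le hd0 hdL
  set g : ℝ → ℂ := fun t => φ (t - 3 * d / 4) (sg a q (rh d r1 r2 (t - 3 * d / 4))) with hg
  have hsh : ContDiff ℝ ∞ fun t : ℝ => t - 3 * d / 4 := contDiff_id.sub contDiff_const
  have hsm : ContDiff ℝ ∞ g :=
    hφ.comp (hsh.prodMk ((contDiff_sg q).comp ((contDiff_rh d r1 r2).comp hsh)))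
  refine closed_curve hU g a ha.continuous hL (ε := d / 2) (by linarith) hsm ?_ ?_ ?_
  · intro t ht
    simp only [hg]
    rw [rh_right hd0 (by linarith [ht.1]), rh_left hd0 (by linarith [ht.2]), ← hret, ← hadd]
    congr 1
    ring
  · have key : ∀ t ∈ Ico 0 L, ∀ t' ∈ Ico 0 L, t < t' → g t ≠ g t' := by
      intro t ht t' ht' hlt he
      simp only [hg] at he
      rcases le_or_gt (-(d / 4)) (t' - 3 * d / 4) with h | h
      · rw [rh_right hd0 h] at he
        apply hmiss (t' - t) _ (by linarith) (by linarith [ht.1, ht'.2])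
          (rh_abs hr1 hr2 (t - 3 * d / 4))
        have e : t' - t = -(t - 3 * d / 4) + (t' - 3 * d / 4) := by ring
        rw [e, hadd, ← he, F.inv]
      · have e := hinj _ _ _ _ (abs_lt.2 ⟨by linarith [ht.1], by linarith⟩)
          (lt_of_le_of_lt (rh_abs hr1 hr2 _) (by linarith))
          (abs_lt.2 ⟨by linarith [ht'.1], by linarith⟩)
          (lt_of_le_of_lt (rh_abs hr1 hr2 _) (by linarith)) he
        linarith
    intro t ht t' ht' he
    rcases lt_trichotomy t t' with h | h | h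
    · exact absurd he (key t ht t' ht' h)
    · exact h
    · exact absurd he.symm (key t' ht' t ht h)
  · intro t _
    have h1 : HasDerivAt (fun t : ℝ => t - 3 * d / 4) 1 t := (hasDerivAt_id t).sub_const _
    have h2 : HasDerivAt (fun t : ℝ => rh d r1 r2 (t - 3 * d / 4))
        (deriv (rh d r1 r2) (t - 3 * d / 4)) t :=
      (((contDiff_rh d r1 r2).differentiable (by simp)) _).hasDerivAt.comp_sub_const t _
    have h3 : HasDerivAt (fun t : ℝ => sg a q (rh d r1 r2 (t - 3 * d / 4)))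
        (deriv (rh d r1 r2) (t - 3 * d / 4) • (Complex.I * Complex.exp (a q))) t :=
      (h2.smul_const _).const_add q
    have h4 := F.chain h1 h3
    rw [h4.deriv]
    exact F.slit q _ _ _ (hpos _ (lt_of_le_of_lt (rh_abs hr1 hr2 _) (by linarith)))

end Pool.Agent.MP_2291e2_gt.Zl

end MrgPart2

-- ======== part 3: formerly Pool.Agent.MP_2291e2_gt.zl.PlaneBij
section MrgPart3

/-! Row PLANEBIJ: an immersion of the plane that is the identity near infinity is a
diffeomorphism. -/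

open scoped ContDiff RealInnerProductSpace Topology
open Set Filter Real

namespace Pool.Agent.MP_2291e2_gt.Zl

namespace PlaneBij

lemma equiv {f : ℂ → ℂ} (h : PlaneDiff f) (z : ℂ) :
    ∃ e : ℂ ≃L[ℝ] ℂ, HasFDerivAt f (e : ℂ →L[ℝ] ℂ) z := by
  have hi : Function.Injective (fderiv ℝ f z : ℂ →ₗ[ℝ] ℂ) :=
    (injective_iff_map_eq_zero _).2 fun δ hδ => h.2.2 z δ hδ
  refine ⟨(LinearMap.linearEquivOfInjective _ hi rfl).toContinuousLinearEquiv, ?_⟩
  exact (h.1.differentiable (by simp) z).hasFDerivAt.congr_fderiv (ContinuousLinearMap.ext fun _ => rfl)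

lemma locHomeo {f : ℂ → ℂ} (h : PlaneDiff f) : IsLocalHomeomorph f := by
  intro z
  obtain ⟨e, he⟩ := equiv h z
  exact ⟨h.1.contDiffAt.toOpenPartialHomeomorph f he (by simp),
    h.1.contDiffAt.mem_toOpenPartialHomeomorph_source he (by simp), rfl⟩

lemma proper {f : ℂ → ℂ} (h : PlaneDiff f) : IsProperMap f := by
  obtain ⟨R, hR⟩ := h.2.1
  refine isProperMap_iff_tendsto_cocompact.2 ⟨h.1.continuous, tendsto_id.congr' ?_⟩
  have : (Metric.closedBall (0 : ℂ) R)ᶜ ∈ cocompact ℂ :=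
    (isCompact_closedBall 0 R).compl_mem_cocompact
  filter_upwards [this] with z hz
  exact (hR z (by simpa using (not_le.1 (by simpa using hz) : R < ‖z‖).le)).symm

lemma surj {f : ℂ → ℂ} (h : PlaneDiff f) : Function.Surjective f := by
  have hc : IsClopen (range f) :=
    ⟨(proper h).isClosedMap.isClosed_range, (locHomeo h).isOpenMap.isOpen_range⟩
  exact range_eq_univ.1 (hc.eq_univ (range_nonempty f))

lemma inj {f : ℂ → ℂ} (h : PlaneDiff f) : Function.Injective f := by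
  let S : Set (ℂ × ℂ) := {p | p.1 ≠ p.2 ∧ f p.1 = f p.2}
  let D : Set ℂ := {w | ∃ p ∈ S, f p.1 = w}
  have hf := h.1.continuous
  have hS : IsClosed S := by
    rw [← isOpen_compl_iff, isOpen_iff_mem_nhds]
    intro p hp
    by_cases h1 : f p.1 = f p.2
    · have h2 : p.1 = p.2 := by
        by_contra h3
        exact hp ⟨h3, h1⟩
      obtain ⟨e, he, hfe⟩ := locHomeo h p.1
      have h4 : e.source ×ˢ e.source ∈ 𝓝 p :=
        prod_mem_nhds (e.open_source.mem_nhds he) (e.open_source.mem_nhds (h2 ▸ he))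
      filter_upwards [h4] with q hq hq'
      exact hq'.1 (e.injOn hq.1 hq.2 (hfe ▸ hq'.2))
    · have h4 : IsOpen {q : ℂ × ℂ | f q.1 ≠ f q.2} :=
        isOpen_ne_fun (hf.comp continuous_fst) (hf.comp continuous_snd)
      filter_upwards [h4.mem_nhds h1] with q hq hq'
      exact hq hq'.2
  have hc : IsClosed D := by
    have e : D = (fun w => (w, w)) ⁻¹' (Prod.map f f '' S) := by
      ext w
      constructor
      · rintro ⟨p, hp, rfl⟩
        exact ⟨p, hp, Prod.ext rfl hp.2.symm⟩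
      · rintro ⟨p, hp, h1⟩
        exact ⟨p, hp, congrArg Prod.fst h1⟩
    rw [e]
    exact (((proper h).prodMap (proper h)).isClosedMap S hS).preimage (by fun_prop)
  have ho : IsOpen D := by
    rw [isOpen_iff_mem_nhds]
    rintro _ ⟨p, hp, rfl⟩
    obtain ⟨A, B, hA, hB, h1, h2, hd⟩ := t2_separation hp.1
    have h3 : f '' A ∩ f '' B ∈ 𝓝 (f p.1) :=
      (((locHomeo h).isOpenMap A hA).inter ((locHomeo h).isOpenMap B hB)).mem_nhds
        ⟨⟨_, h1, rfl⟩, ⟨_, h2, hp.2.symm⟩⟩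
    filter_upwards [h3]
    rintro w ⟨⟨a, ha, rfl⟩, ⟨b, hb, hab⟩⟩
    exact ⟨(a, b), ⟨fun (e : a = b) => disjoint_left.1 hd ha (e ▸ hb), hab.symm⟩, rfl⟩
  have hn : D ≠ univ := by
    obtain ⟨R, hR⟩ := h.2.1
    obtain ⟨C, hC⟩ := (isCompact_closedBall (0 : ℂ) R).exists_bound_of_continuousOn hf.continuousOn
    intro hD
    obtain ⟨p, hp, hw⟩ : ((|C| + 1 : ℝ) : ℂ) ∈ D := hD ▸ mem_univ _
    have key : ∀ z, f z = ((|C| + 1 : ℝ) : ℂ) → z = ((|C| + 1 : ℝ) : ℂ) := by
      intro z hz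
      rcases le_total R ‖z‖ with h1 | h1
      · rw [← hz, hR z h1]
      · have h2 := hC z (by simpa using h1)
        rw [hz, Complex.norm_real, Real.norm_eq_abs, abs_of_pos (by positivity)] at h2
        linarith [le_abs_self C]
    exact hp.1 ((key _ hw).trans (key _ (hp.2 ▸ hw)).symm)
  have hD : D = ∅ := (isClopen_iff.1 ⟨hc, ho⟩).resolve_right hn
  intro a b hab
  by_contra h1
  have : f a ∈ D := ⟨(a, b), ⟨h1, hab⟩, rfl⟩
  rw [hD] at this
  exact this

end PlaneBij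

open PlaneBij in
theorem planebij_of : PlaneBijStmt := by
  intro f h
  have hl : ∀ z, Function.invFun f (f z) = z := Function.leftInverse_invFun (inj h)
  have hr : ∀ z, f (Function.invFun f z) = z := Function.rightInverse_invFun (surj h)
  refine ⟨Function.invFun f, contDiff_iff_contDiffAt.2 fun w => ?_, hl, hr⟩
  obtain ⟨z, rfl⟩ := surj h w
  obtain ⟨e, he⟩ := equiv h z
  refine (h.1.contDiffAt.to_localInverse he (by simp)).congr_of_eventuallyEq ?_
  filter_upwards [(h.1.contDiffAt.hasStrictFDerivAt' he (by simp)).eventually_right_inverse]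
    with w hw
  exact inj h ((hr w).trans hw.symm)

end Pool.Agent.MP_2291e2_gt.Zl

end MrgPart3

-- ======== part 4: formerly Pool.Agent.MP_2291e2_gt.zl.PlaneSmale
section MrgPart4

/-! A compactly supported diffeomorphism of the plane is isotopic to the identity. -/

open scoped ContDiff RealInnerProductSpace Topology
open Set Filter Real

namespace Pool.Agent.MP_2291e2_gt.Zl

namespace PlaneSmale

lemma line {K : ℂ → ℂ} {z : ℂ} (hK : DifferentiableAt ℝ K z) (δ : ℂ) :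
    HasDerivAt (fun t : ℝ => K (z + t • δ)) (fderiv ℝ K z δ) 0 := by
  have h1 : HasDerivAt (fun t : ℝ => z + t • δ) δ 0 := by
    simpa using ((hasDerivAt_id (0 : ℝ)).smul_const δ).const_add z
  have h2 : HasFDerivAt K (fderiv ℝ K z) (z + (0 : ℝ) • δ) := by simpa using hK.hasFDerivAt
  exact h2.comp_hasDerivAt 0 h1

lemma line_re {K : ℂ → ℂ} {z : ℂ} (hK : DifferentiableAt ℝ K z) (δ : ℂ) :
    HasDerivAt (fun t : ℝ => (K (z + t • δ)).re) (fderiv ℝ K z δ).re 0 :=
  Complex.reCLM.hasFDerivAt.comp_hasDerivAt 0 (line hK δ)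

lemma line_im {K : ℂ → ℂ} {z : ℂ} (hK : DifferentiableAt ℝ K z) (δ : ℂ) :
    HasDerivAt (fun t : ℝ => (K (z + t • δ)).im) (fderiv ℝ K z δ).im 0 :=
  Complex.imCLM.hasFDerivAt.comp_hasDerivAt 0 (line hK δ)

lemma aff (x d : ℝ) : HasDerivAt (fun t : ℝ => x + t * d) d 0 := by
  simpa using ((hasDerivAt_id (0 : ℝ)).mul_const d).const_add x

lemma comp_aff {u : ℝ → ℝ} {x : ℝ} (hu : DifferentiableAt ℝ u x) (d : ℝ) :
    HasDerivAt (fun t : ℝ => u (x + t * d)) (deriv u x * d) 0 := by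
  have h : HasDerivAt u (deriv u x) (x + 0 * d) := by simpa using hu.hasDerivAt
  exact h.comp 0 (aff x d)

lemma contDiff_mk {X : Type*} [NormedAddCommGroup X] [NormedSpace ℝ X] {u v : X → ℝ}
    (hu : ContDiff ℝ ∞ u) (hv : ContDiff ℝ ∞ v) : ContDiff ℝ ∞ fun x => (⟨u x, v x⟩ : ℂ) :=
  Complex.equivRealProdCLM.symm.contDiff.comp (hu.prodMk hv)

lemma cre : ContDiff ℝ ∞ fun q : ℝ × ℂ => q.2.re := Complex.reCLM.contDiff.comp contDiff_snd
lemma cim : ContDiff ℝ ∞ fun q : ℝ × ℂ => q.2.im := Complex.imCLM.contDiff.comp contDiff_snd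

lemma slice {X Y : Type*} [NormedAddCommGroup X] [NormedSpace ℝ X] [NormedAddCommGroup Y]
    [NormedSpace ℝ Y] {k : ℝ → X → Y} (h : ContDiff ℝ ∞ fun q : ℝ × X => k q.1 q.2) (s : ℝ) :
    Differentiable ℝ (k s) :=
  (h.comp (contDiff_const.prodMk contDiff_id) : ContDiff ℝ ∞ fun x => k s x).differentiable
    (by simp)

lemma st_bound : ∃ M, 0 < M ∧ ∀ x, |deriv smoothTransition x| ≤ M := by
  have hc : Continuous (deriv smoothTransition) :=
    (smoothTransition.contDiff (n := 1)).continuous_deriv le_rfl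
  obtain ⟨M, hM⟩ := isCompact_Icc.exists_bound_of_continuousOn
    (hc.continuousOn (s := Icc (0 : ℝ) 1))
  refine ⟨|M| + 1, by positivity, fun x => ?_⟩
  have hp : (0 : ℝ) ≤ |M| + 1 := by positivity
  rcases lt_or_ge x 0 with h | h
  · have e : smoothTransition =ᶠ[𝓝 x] fun _ => 0 := by
      filter_upwards [Iio_mem_nhds h] with y hy using smoothTransition.zero_of_nonpos (le_of_lt hy)
    rw [e.deriv_eq]; simpa using hp
  rcases lt_or_ge 1 x with h' | h'
  · have e : smoothTransition =ᶠ[𝓝 x] fun _ => 1 := by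
      filter_upwards [Ioi_mem_nhds h'] with y hy using smoothTransition.one_of_one_le (le_of_lt hy)
    rw [e.deriv_eq]; simpa using hp
  · have := hM x ⟨h, h'⟩
    rw [Real.norm_eq_abs] at this
    linarith [le_abs_self M]

variable {f : ℂ → ℂ} {F : ℝ → ℂ → ℂ} {a b : ℝ → ℝ → ℝ} {R : ℝ}

lemma a_eq (h : Shear f F a b R) (s y : ℝ) : a s y = (F s ⟨R, y⟩).re - R := by
  rw [h.right s ⟨R, y⟩ le_rfl]; simp

lemma b_eq (h : Shear f F a b R) (s y : ℝ) : b s y = (F s ⟨R, y⟩).im := by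
  rw [h.right s ⟨R, y⟩ le_rfl]

lemma smoothF (h : Shear f F a b R) : ContDiff ℝ ∞ fun q : ℝ × ℝ => F q.1 ⟨R, q.2⟩ :=
  h.smooth.comp (contDiff_fst.prodMk (contDiff_mk contDiff_const contDiff_snd))

lemma smooth_a (h : Shear f F a b R) : ContDiff ℝ ∞ fun q : ℝ × ℝ => a q.1 q.2 := by
  simp only [a_eq h]
  exact (Complex.reCLM.contDiff.comp (smoothF h)).sub contDiff_const

lemma smooth_b (h : Shear f F a b R) : ContDiff ℝ ∞ fun q : ℝ × ℝ => b q.1 q.2 := by
  simp only [b_eq h]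
  exact Complex.imCLM.contDiff.comp (smoothF h)

lemma ab_far (h : Shear f F a b R) (s : ℝ) {y : ℝ} (hy : R ≤ |y|) : a s y = 0 ∧ b s y = y := by
  rw [a_eq h, b_eq h, h.far s ⟨R, y⟩ hy]; simp

lemma ab_one (h : Shear f F a b R) (y : ℝ) : a 1 y = 0 ∧ b 1 y = y := by
  rw [a_eq h, b_eq h, h.one]; simp

lemma db_ne (h : Shear f F a b R) (s y : ℝ) : deriv (b s) y ≠ 0 := by
  intro h0
  set z : ℂ := ⟨R + 1, y⟩ with hz
  set δ : ℂ := ⟨-deriv (a s) y, 1⟩ with hδ
  have hF : DifferentiableAt ℝ (F s) z := slice h.smooth s z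
  have ev : ∀ᶠ t : ℝ in 𝓝 0, R ≤ (z + t • δ).re := by
    have c : ContinuousAt (fun t : ℝ => (z + t • δ).re) 0 := by fun_prop
    have : R < (z + (0 : ℝ) • δ).re := by simp [hz]
    exact (c.eventually (Ioi_mem_nhds this)).mono fun t ht => le_of_lt ht
  have e1 : (fderiv ℝ (F s) z δ).re = 0 := by
    have h1 : HasDerivAt (fun t : ℝ => (R + 1 + t * -deriv (a s) y) + a s (y + t * 1))
        (-deriv (a s) y + deriv (a s) y * 1) 0 :=
      (aff _ _).add (comp_aff (slice (smooth_a h) s y) 1)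
    have h2 := (line_re hF δ).unique (h1.congr_of_eventuallyEq (ev.mono fun t ht => by
      show (F s (z + t • δ)).re = _
      rw [h.right s _ ht]; simp [hz, hδ]))
    rw [h2]; ring
  have e2 : (fderiv ℝ (F s) z δ).im = 0 := by
    have h1 := comp_aff (slice (smooth_b h) s y) 1
    have h2 := (line_im hF δ).unique (h1.congr_of_eventuallyEq (ev.mono fun t ht => by
      show (F s (z + t • δ)).im = _
      rw [h.right s _ ht]; simp [hz, hδ]))
    rw [h2, h0]; ring
  have := h.imm s z δ (Complex.ext e1 e2)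
  have h3 := congrArg Complex.im this
  simp [hδ] at h3

lemma db_pos (h : Shear f F a b R) (s y : ℝ) : 0 < deriv (b s) y := by
  have hb : ContDiff ℝ ∞ (b s) := (smooth_b h).comp (contDiff_const.prodMk contDiff_id)
  have hc : Continuous (deriv (b s)) := hb.continuous_deriv (by simp)
  rcases sign_const isPreconnected_univ hc.continuousOn (fun x _ => db_ne h s x) with h1 | h1
  · exact h1 y trivial
  · exfalso
    have e : b s =ᶠ[𝓝 (R + 1)] fun x => x := by
      filter_upwards [Ioi_mem_nhds (lt_add_one R)] with x hx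
      exact (ab_far h s ((le_of_lt hx).trans (le_abs_self x))).2
    have := h1 (R + 1) trivial
    rw [e.deriv_eq] at this
    simp at this
    linarith

lemma b_mono (h : Shear f F a b R) (s : ℝ) : StrictMono (b s) :=
  strictMono_of_deriv_pos (db_pos h s)

lemma b_surj (h : Shear f F a b R) (s : ℝ) : Function.Surjective (b s) := by
  intro y
  have hc : Continuous (b s) := (slice (smooth_b h) s).continuous
  have hR := h.Rpos
  have h1 : b s (-(R + |y|)) = -(R + |y|) :=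
    (ab_far h s (by rw [abs_neg]; exact le_trans (by linarith [abs_nonneg y]) (le_abs_self _))).2
  have h2 : b s (R + |y|) = R + |y| :=
    (ab_far h s (le_trans (by linarith [abs_nonneg y]) (le_abs_self _))).2
  have hle : -(R + |y|) ≤ R + |y| := by linarith [abs_nonneg y]
  obtain ⟨x, -, hx⟩ := intermediate_value_Icc hle hc.continuousOn
    (show y ∈ Icc (b s (-(R + |y|))) (b s (R + |y|)) by
      rw [h1, h2]; constructor <;> linarith [le_abs_self y, neg_abs_le y])
  exact ⟨x, hx⟩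

lemma exists_inv (h : Shear f F a b R) : ∃ c : ℝ → ℝ → ℝ,
    ContDiff ℝ ∞ (fun q : ℝ × ℝ => c q.1 q.2) ∧ (∀ s y, b s (c s y) = y) ∧
      (∀ s y, b s y = y → c s y = y) ∧ ∀ s y, 0 < deriv (c s) y := by
  choose c hc using fun s y => b_surj h s y
  have hs : ContDiff ℝ ∞ fun q : ℝ × ℝ => c q.1 q.2 := by
    refine contDiff_iff_contDiffAt.2 fun q => ?_
    have hg : ContDiff ℝ ∞ fun p : (ℝ × ℝ) × ℝ => b p.1.1 p.2 - p.1.2 :=
      ((smooth_b h).comp (contDiff_fst.fst.prodMk contDiff_snd)).sub contDiff_fst.snd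
    refine contDiffAt_of_mono (f := fun p : (ℝ × ℝ) × ℝ => b p.1.1 p.2 - p.1.2) (c := 0)
      (J := univ) univ_mem hg.contDiffAt ?_ (Eventually.of_forall fun x => ⟨?_, ?_⟩)
    · have h1 : HasDerivAt (fun t : ℝ => ((q, c q.1 q.2) : (ℝ × ℝ) × ℝ) + t • (0, 1)) (0, 1) 0 := by
        simpa using ((hasDerivAt_id (0 : ℝ)).smul_const ((0, 1) : (ℝ × ℝ) × ℝ)).const_add
          (q, c q.1 q.2)
      have h2 : HasFDerivAt (fun p : (ℝ × ℝ) × ℝ => b p.1.1 p.2 - p.1.2)
          (fderiv ℝ (fun p : (ℝ × ℝ) × ℝ => b p.1.1 p.2 - p.1.2) (q, c q.1 q.2))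
          (((q, c q.1 q.2) : (ℝ × ℝ) × ℝ) + (0 : ℝ) • (0, 1)) := by
        simpa using (hg.differentiable (by simp) (q, c q.1 q.2)).hasFDerivAt
      have h3 := h2.comp_hasDerivAt 0 h1
      have h4 := (comp_aff (slice (smooth_b h) q.1 (c q.1 q.2)) 1).sub_const q.2
      have h5 := h3.unique (h4.congr_of_eventuallyEq (Eventually.of_forall fun t => by simp))
      rw [h5, mul_one]
      exact db_ne h _ _
    · simp [hc]
    · intro t _ ht
      exact (b_mono h x.1).injective (by rw [hc]; exact sub_eq_zero.1 ht)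
  refine ⟨c, hs, hc, fun s y e => (b_mono h s).injective (by rw [hc, e]), fun s y => ?_⟩
  have h1 := (slice (smooth_b h) s (c s y)).hasDerivAt.comp y (slice hs s y).hasDerivAt
  have h2 : HasDerivAt (b s ∘ c s) 1 y := by
    have : b s ∘ c s = id := funext fun t => hc s t
    rw [this]; exact hasDerivAt_id y
  have h3 := h1.unique h2
  have h4 := db_pos h s (c s y)
  by_contra h5
  nlinarith [not_lt.1 h5]

end PlaneSmale

open PlaneSmale in
theorem planesmale_of (hS : ShearStmt) : PlaneSmaleStmt := by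
  intro f hf
  obtain ⟨F, a, b, R, h⟩ := hS f hf
  obtain ⟨c, hcs, hbc, hfix, hcp⟩ := exists_inv h
  obtain ⟨C, hC⟩ := h.bdd
  obtain ⟨M, hM, hMb⟩ := st_bound
  have hC0 : 0 ≤ C := (abs_nonneg _).trans (hC 0 0)
  have hR := h.Rpos
  set L : ℝ := M * C + 1 with hL
  have hL0 : 0 < L := by positivity
  set χ : ℝ → ℝ := fun x => smoothTransition ((x - R) / L) with hχ
  have hχs : ContDiff ℝ ∞ χ :=
    smoothTransition.contDiff.comp ((contDiff_id.sub contDiff_const).div_const L)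
  have hχd : Differentiable ℝ χ := hχs.differentiable (by simp)
  have hχ0 : ∀ x, x ≤ R → χ x = 0 := fun x hx =>
    smoothTransition.zero_of_nonpos (div_nonpos_of_nonpos_of_nonneg (by linarith) hL0.le)
  have hχ1 : ∀ x, R + L ≤ x → χ x = 1 := fun x hx =>
    smoothTransition.one_of_one_le ((one_le_div hL0).2 (by linarith))
  have hχb : ∀ x, |deriv χ x| ≤ M / L := fun x => by
    have h1 : HasDerivAt (fun x : ℝ => (x - R) / L) (1 / L) x :=
      ((hasDerivAt_id x).sub_const R).div_const L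
    have h2 := ((smoothTransition.contDiff (n := 1)).differentiable (by simp)
      ((x - R) / L)).hasDerivAt.comp x h1
    have h3 : deriv χ x = _ := h2.deriv
    rw [h3, abs_mul, abs_of_pos (one_div_pos.2 hL0), mul_one_div]
    exact div_le_div_of_nonneg_right (hMb _) hL0.le
  set k1 : ℝ → ℂ → ℂ := fun s z => ⟨z.re - χ z.re * a s z.im, z.im⟩ with hk1
  set k2 : ℝ → ℂ → ℂ := fun s z => ⟨z.re, (1 - χ z.re) * z.im + χ z.re * c s z.im⟩ with hk2
  have s1 : ContDiff ℝ ∞ fun q : ℝ × ℂ => k1 q.1 q.2 :=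
    contDiff_mk (cre.sub ((hχs.comp cre).mul ((smooth_a h).comp (contDiff_fst.prodMk cim)))) cim
  have s2 : ContDiff ℝ ∞ fun q : ℝ × ℂ => k2 q.1 q.2 :=
    contDiff_mk cre (((contDiff_const.sub (hχs.comp cre)).mul cim).add
      ((hχs.comp cre).mul (hcs.comp (contDiff_fst.prodMk cim))))
  have i1 : ∀ s z δ, fderiv ℝ (k1 s) z δ = 0 → δ = 0 := by
    intro s z δ h0
    have hd := slice s1 s z
    have e2 : δ.im = 0 := by
      have h1 := (line_im hd δ).unique ((aff z.im δ.im).congr_of_eventuallyEq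
        (Eventually.of_forall fun t => by simp [hk1]))
      rw [← h1, h0]; rfl
    have h1 : HasDerivAt (fun t : ℝ => (z.re + t * δ.re) - χ (z.re + t * δ.re) * a s z.im)
        (δ.re - deriv χ z.re * δ.re * a s z.im) 0 :=
      (aff _ _).sub ((comp_aff (hχd _) _).mul_const _)
    have h2 := (line_re hd δ).unique (h1.congr_of_eventuallyEq
        (Eventually.of_forall fun t => by simp [hk1, e2]))
    rw [h0] at h2
    have h3 : |deriv χ z.re * a s z.im| < 1 := by
      rw [abs_mul]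
      calc _ ≤ M / L * C := mul_le_mul (hχb _) (hC _ _) (abs_nonneg _) (by positivity)
        _ < 1 := by rw [div_mul_eq_mul_div, div_lt_one hL0]; linarith
    have h4 : δ.re * (1 - deriv χ z.re * a s z.im) = 0 := by
      have : (0 : ℂ).re = 0 := rfl
      linarith
    have h5 : 1 - deriv χ z.re * a s z.im ≠ 0 := by linarith [(abs_lt.1 h3).2]
    exact Complex.ext ((mul_eq_zero.1 h4).resolve_right h5) e2
  have i2 : ∀ s z δ, fderiv ℝ (k2 s) z δ = 0 → δ = 0 := by
    intro s z δ h0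
    have hd := slice s2 s z
    have e1 : δ.re = 0 := by
      have h1 := (line_re hd δ).unique ((aff z.re δ.re).congr_of_eventuallyEq
        (Eventually.of_forall fun t => by simp [hk2]))
      rw [← h1, h0]; rfl
    have h1 : HasDerivAt (fun t : ℝ => (1 - χ z.re) * (z.im + t * δ.im) +
        χ z.re * c s (z.im + t * δ.im))
        ((1 - χ z.re) * δ.im + χ z.re * (deriv (c s) z.im * δ.im)) 0 :=
      ((aff _ _).const_mul _).add ((comp_aff (slice hcs s _) _).const_mul _)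
    have h2 := (line_im hd δ).unique (h1.congr_of_eventuallyEq
        (Eventually.of_forall fun t => by simp [hk2, e1]))
    rw [h0] at h2
    have h3 : 0 ≤ χ z.re := smoothTransition.nonneg _
    have h4 : χ z.re ≤ 1 := smoothTransition.le_one _
    have h5 : 0 < 1 - χ z.re + χ z.re * deriv (c s) z.im := by
      have := hcp s z.im
      rcases h3.eq_or_lt with e | e
      · rw [← e]; norm_num
      · nlinarith [mul_pos e this]
    have h6 : δ.im * (1 - χ z.re + χ z.re * deriv (c s) z.im) = 0 := by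
      have : (0 : ℂ).im = 0 := rfl
      linarith
    exact Complex.ext e1 ((mul_eq_zero.1 h6).resolve_right h5.ne')
  have triv : ∀ s (z : ℂ), a s z.im = 0 ∧ b s z.im = z.im → k1 s (k2 s z) = z := by
    intro s z hz
    have e : k2 s z = z := by
      refine Complex.ext rfl ?_
      show (1 - χ z.re) * z.im + χ z.re * c s z.im = z.im
      rw [hfix s _ hz.2]; ring
    rw [e]
    refine Complex.ext ?_ rfl
    show z.re - χ z.re * a s z.im = z.re
    rw [hz.1]; ring
  refine ⟨fun s z => F s (k1 s (k2 s z)), ⟨?_, ⟨2 * R + L + C, fun s z hz => ?_⟩, ?_⟩, ?_, ?_⟩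
  · exact h.smooth.comp (contDiff_fst.prodMk (s1.comp (contDiff_fst.prodMk s2)))
  · show F s (k1 s (k2 s z)) = z
    by_cases hy : R ≤ |z.im|
    · rw [triv s z (ab_far h s hy), h.far s z hy]
    have hx : R + L + C ≤ |z.re| := by
      linarith [Complex.norm_le_abs_re_add_abs_im z, not_le.1 hy]
    rcases le_abs.1 hx with hx | hx
    · have e2 : k2 s z = ⟨z.re, c s z.im⟩ := by
        refine Complex.ext rfl ?_
        show (1 - χ z.re) * z.im + χ z.re * c s z.im = c s z.im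
        rw [hχ1 _ (by linarith)]; ring
      have e1 : k1 s ⟨z.re, c s z.im⟩ = ⟨z.re - a s (c s z.im), c s z.im⟩ := by
        refine Complex.ext ?_ rfl
        show z.re - χ z.re * a s (c s z.im) = z.re - a s (c s z.im)
        rw [hχ1 _ (by linarith)]; ring
      rw [e2, e1, h.right s _ (by
        show R ≤ z.re - a s (c s z.im)
        linarith [le_abs_self (a s (c s z.im)), hC s (c s z.im)])]
      exact Complex.ext (by simp) (hbc s _)
    · have h0 : χ z.re = 0 := hχ0 _ (by linarith)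
      have e2 : k2 s z = z := by
        refine Complex.ext rfl ?_
        show (1 - χ z.re) * z.im + χ z.re * c s z.im = z.im
        rw [h0]; ring
      have e1 : k1 s z = z := by
        refine Complex.ext ?_ rfl
        show z.re - χ z.re * a s z.im = z.re
        rw [h0]; ring
      rw [e2, e1, h.left s z (by linarith)]
  · intro s z δ h0
    have d2 := (slice s2 s z).hasFDerivAt
    have d1 := (slice s1 s (k2 s z)).hasFDerivAt
    have d0 := (slice h.smooth s (k1 s (k2 s z))).hasFDerivAt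
    have e := (d0.comp z (d1.comp z d2)).fderiv
    have e' : fderiv ℝ (fun z => F s (k1 s (k2 s z))) z = _ := e
    rw [e'] at h0
    exact i2 s z δ (i1 s _ _ (h.imm s _ _ h0))
  · intro z
    show F 0 (k1 0 (k2 0 z)) = f z
    rw [triv 0 z (h.a0 _), h.zero]
  · intro z
    show F 1 (k1 1 (k2 1 z)) = z
    rw [triv 1 z (ab_one h _), h.one]

end Pool.Agent.MP_2291e2_gt.Zl

end MrgPart4

-- ======== part 5: formerly Pool.Agent.MP_2291e2_gt.zl.Shear
section MrgPart5

/-! The flow construction for compactly supported plane diffeomorphisms. -/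

open scoped ContDiff Topology
open Set Filter

namespace Pool.Agent.MP_2291e2_gt.Zl

namespace Shr

/-- A flow on the plane with one real parameter. -/
structure PF (X : ℝ → ℂ → ℂ) (ψ : ℝ → ℝ → ℂ → ℂ) : Prop where
  smooth : ContDiff ℝ ∞ (fun q : ℝ × ℝ × ℂ => ψ q.1 q.2.1 q.2.2)
  zero : ∀ s w, ψ s 0 w = w
  add : ∀ s t t' w, ψ s (t + t') w = ψ s t (ψ s t' w)
  ode : ∀ s w t, HasDerivAt (fun t => ψ s t w) (X s (ψ s t w)) t
  uniq : ∀ s (c : ℝ → ℂ) (t : ℝ), (∀ τ ∈ uIcc 0 t, HasDerivAt c (X s (c τ)) τ) →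
    ψ s t (c 0) = c t

lemma exists_pf (hF : FlowStmt) {X : ℝ → ℂ → ℂ} (hX : ContDiff ℝ ∞ fun q : ℝ × ℂ => X q.1 q.2)
    (hc : HasCompactSupport fun q : ℝ × ℂ => X q.1 q.2 - 1) : ∃ ψ, PF X ψ := by
  obtain ⟨K, hK⟩ := ContDiff.lipschitzWith_of_hasCompactSupport hc
    (hX.sub contDiff_const) (by simp)
  have hV : LipschitzWith K fun q : ℝ × ℂ => ((0 : ℝ), X q.1 q.2) := by
    refine LipschitzWith.of_dist_le_mul fun q q' => ?_
    have := hK.dist_le_mul q q'
    rw [dist_sub_right] at this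
    rw [Prod.dist_eq, dist_self]
    exact max_le (by positivity) this
  obtain ⟨φ, h1, h2, h3, h4, h5⟩ := hF (ℝ × ℂ) _ K (contDiff_const.prodMk hX) hV
  have hfst : ∀ t s w, (φ t (s, w)).1 = s := by
    intro t s w
    have hd : ∀ t, HasDerivAt (fun t => (φ t (s, w)).1) 0 t := fun t => (h4 (s, w) t).fst
    have := is_const_of_deriv_eq_zero (fun t => (hd t).differentiableAt)
      (fun t => (hd t).deriv) t 0
    simpa [h2] using this
  have hp : ∀ t s w, φ t (s, w) = (s, (φ t (s, w)).2) := fun t s w => Prod.ext (hfst t s w) rfl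
  refine ⟨fun s t w => (φ t (s, w)).2, ?_, fun s w => by simp [h2], fun s t t' w => ?_,
    fun s w t => ?_, fun s c t hc => ?_⟩
  · exact (h1.comp (contDiff_snd.fst.prodMk (contDiff_fst.prodMk contDiff_snd.snd))).snd
  · rw [h3, hp t' s w]
  · have : HasDerivAt (fun t => (φ t (s, w)).2) (X (φ t (s, w)).1 (φ t (s, w)).2) t :=
      (h4 (s, w) t).snd
    rwa [hfst] at this
  · have key : ∀ a b, a ≤ b → Icc a b ⊆ uIcc 0 t → (s, c b) = φ (b - a) (s, c a) := by
      intro a b hab hsub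
      refine h5 (fun τ => (s, c τ)) a b hab (fun τ hτ => ?_) fun τ hτ => ?_
      · exact (continuousAt_const.prodMk (hc τ (hsub hτ)).continuousAt).continuousWithinAt
      · exact (hasDerivAt_const τ s).prodMk (hc τ (hsub (Ioo_subset_Icc_self hτ)))
    rcases le_total 0 t with ht | ht
    · have := key 0 t ht (by rw [uIcc_of_le ht])
      rw [sub_zero] at this
      rw [← this]
    · have := key t 0 ht (by rw [uIcc_of_ge ht])
      rw [this, ← h3]
      simp [h2]

lemma exists_log (hL : LiftStmt) {ζ : ℂ → ℂ} (hζ : ContDiff ℝ ∞ ζ) (h0 : ∀ w, ζ w ≠ 0) {R : ℝ}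
    (hR : 0 < R) (h1 : ∀ w, R ≤ ‖w‖ → ζ w = 1) :
    ∃ al : ℂ → ℂ, ContDiff ℝ ∞ al ∧ (∀ w, Complex.exp (al w) = ζ w) ∧
      ∀ w, R ≤ ‖w‖ → al w = 0 := by
  have hRn : R ≤ ‖(R : ℂ)‖ := by simp [abs_of_pos hR]
  obtain ⟨θ, hθ, hθ0, hθ1⟩ := hL ℂ univ ζ R 0 isOpen_univ convex_univ hζ.contDiffOn
    (fun w _ => h0 w) (mem_univ _) (by simp [h1 _ hRn])
  rw [contDiffOn_univ] at hθ
  have hn : ContDiff ℝ ∞ fun w => Real.log ‖ζ w‖ :=
    (hζ.norm ℝ h0).log fun w => norm_ne_zero_iff.2 (h0 w)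
  have hpre : IsPreconnected {w : ℂ | R ≤ ‖w‖} := by
    have e : {w : ℂ | R ≤ ‖w‖} =
        (fun q : ℝ × ℝ => (q.1 : ℂ) * Complex.exp (q.2 * Complex.I)) '' (Ici R ×ˢ univ) := by
      ext w
      constructor
      · intro hw
        exact ⟨(‖w‖, w.arg), ⟨hw, mem_univ _⟩, Complex.norm_mul_exp_arg_mul_I w⟩
      · rintro ⟨q, hq, rfl⟩
        have h2 : R ≤ q.1 := hq.1
        simp only [mem_ofPred_eq, norm_mul, Complex.norm_exp_ofReal_mul_I, mul_one,
          Complex.norm_real, Real.norm_eq_abs]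
        exact h2.trans (le_abs_self _)
    rw [e]
    exact (isPreconnected_Ici.prod isPreconnected_univ).image _ (by fun_prop)
  have hz : ∀ w, R ≤ ‖w‖ → θ w = 0 := by
    intro w hw
    rw [← hθ0]
    refine const_of_int hpre hθ.continuous.continuousOn Real.two_pi_pos (fun x hx => ?_) w hw _ hRn
    have h2 := hθ1 x (mem_univ _)
    rw [h1 x hx] at h2
    simp only [norm_one, Complex.ofReal_one, one_mul] at h2
    obtain ⟨n, hn⟩ := Complex.exp_eq_one_iff.1 h2.symm
    refine ⟨n, ?_⟩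
    have := congrArg Complex.im hn
    simpa using this
  refine ⟨fun w => (Real.log ‖ζ w‖ : ℝ) + (θ w : ℝ) * Complex.I, ?_, fun w => ?_, fun w hw => ?_⟩
  · exact (Complex.ofRealCLM.contDiff.comp hn).add
      ((Complex.ofRealCLM.contDiff.comp hθ).mul contDiff_const)
  · rw [Complex.exp_add, ← Complex.ofReal_exp, Real.exp_log (norm_pos_iff.2 (h0 w))]
    exact (hθ1 w (mem_univ _)).symm
  · simp [h1 w hw, hz w hw]

section Main

variable {X : ℝ → ℂ → ℂ} {ψ : ℝ → ℝ → ℂ → ℂ} {R : ℝ}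

lemma PF.straight (h : PF X ψ) (s : ℝ) (w : ℂ) (t : ℝ)
    (h1 : ∀ τ ∈ uIcc 0 t, X s (w + τ) = 1) : ψ s t w = w + t := by
  have := h.uniq s (fun τ => w + τ) t fun τ hτ => by
    rw [h1 τ hτ]
    exact (Complex.ofRealCLM.hasDerivAt (x := τ)).const_add w
  simpa using this

/-- The field is `1` far away and for large parameter. -/
def Triv (X : ℝ → ℂ → ℂ) (R : ℝ) : Prop := ∀ s w, R ≤ ‖w‖ ∨ 1 ≤ |s| → X s w = 1

lemma PF.right (h : PF X ψ) (hX : Triv X R) (s : ℝ) {w : ℂ} {t : ℝ} (hw : R ≤ w.re)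
    (ht : 0 ≤ t) : ψ s t w = w + t := by
  refine h.straight s w t fun τ hτ => hX _ _ (Or.inl ?_)
  rw [uIcc_of_le ht] at hτ
  refine le_trans ?_ (Complex.re_le_norm _)
  simp only [Complex.add_re, Complex.ofReal_re]
  linarith [hτ.1]

lemma PF.left (h : PF X ψ) (hX : Triv X R) (s : ℝ) {w : ℂ} {t : ℝ} (hw : w.re ≤ -R)
    (ht : w.re + t ≤ -R) : ψ s t w = w + t := by
  refine h.straight s w t fun τ hτ => hX _ _ (Or.inl ?_)
  refine le_trans ?_ (Complex.abs_re_le_norm _)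
  refine le_trans ?_ (neg_le_abs _)
  simp only [Complex.add_re, Complex.ofReal_re]
  rcases mem_uIcc.1 hτ with h1 | h1 <;> linarith [h1.1, h1.2]

lemma PF.far (h : PF X ψ) (hX : Triv X R) (s : ℝ) {w : ℂ} (t : ℝ) (hw : R ≤ |w.im|) :
    ψ s t w = w + t := by
  refine h.straight s w t fun τ _ => hX _ _ (Or.inl ?_)
  refine le_trans ?_ (Complex.abs_im_le_norm _)
  simpa using hw

lemma PF.big (h : PF X ψ) (hX : Triv X R) {s : ℝ} (w : ℂ) (t : ℝ) (hs : 1 ≤ |s|) :
    ψ s t w = w + t :=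
  h.straight s w t fun _ _ => hX _ _ (Or.inr hs)

lemma PF.back (h : PF X ψ) (s t : ℝ) (w : ℂ) : ψ s (-t) (ψ s t w) = w := by
  rw [← h.add, neg_add_cancel, h.zero]

/-- Orbits that start on the left leave on the right. -/
lemma PF.exit (h : PF X ψ) (hX : Triv X R) (hE : ∀ s z ρ, ∃ t ≥ 0, ρ < ‖ψ s t z‖) (s : ℝ)
    {z : ℂ} (h1 : z.re = -(R + 1)) (h2 : |z.im| ≤ R) : ∃ t, R < (ψ s t z).re := by
  obtain ⟨t, ht, hw⟩ := hE s z (2 * (R + 1))
  have hb := h.back s t z
  refine ⟨t, ?_⟩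
  set w := ψ s t z
  have h3 : |w.im| ≤ R := by
    by_contra hc
    rw [h.far hX s (-t) (not_le.1 hc).le] at hb
    have := congrArg Complex.im hb
    simp only [Complex.add_im, Complex.ofReal_im, add_zero] at this
    exact hc (this ▸ h2)
  have h4 : -(R + 1) ≤ w.re := by
    by_contra hc
    rw [h.left hX s (by linarith) (by linarith)] at hb
    have := congrArg Complex.re hb
    simp only [Complex.add_re, Complex.ofReal_re] at this
    linarith
  have h5 := Complex.norm_le_abs_re_add_abs_im w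
  have h6 : R + 1 < |w.re| := by linarith
  rcases lt_abs.1 h6 with h7 | h7 <;> linarith

/-- The starting point of the orbit at height `y`. -/
noncomputable def pt (R y : ℝ) : ℂ := ((-(R + 1) : ℝ) : ℂ) + y * Complex.I

@[simp] lemma pt_re (R y : ℝ) : (pt R y).re = -(R + 1) := by simp [pt]

@[simp] lemma pt_im (R y : ℝ) : (pt R y).im = y := by simp [pt]

lemma contDiff_pt (R : ℝ) : ContDiff ℝ ∞ (pt R) :=
  contDiff_const.add (Complex.ofRealCLM.contDiff.mul contDiff_const)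

lemma PF.cont (h : PF X ψ) (t : ℝ) : Continuous fun q : ℝ × ℝ => ψ q.1 t (pt R q.2) :=
  h.smooth.continuous.comp (continuous_fst.prodMk (continuous_const.prodMk
    ((contDiff_pt R).continuous.comp continuous_snd)))

lemma PF.uniform (h : PF X ψ) (hX : Triv X R) (hE : ∀ s z ρ, ∃ t ≥ 0, ρ < ‖ψ s t z‖) :
    ∃ T, 2 * (R + 1) ≤ T ∧ ∀ s y, |s| ≤ 1 → |y| ≤ R → R < (ψ s T (pt R y)).re := by
  have hK : IsCompact (Icc (-1 : ℝ) 1 ×ˢ Icc (-R) R) := isCompact_Icc.prod isCompact_Icc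
  have hm : Monotone fun t : ℝ => {q : ℝ × ℝ | R < (ψ q.1 t (pt R q.2)).re} := by
    intro t t' htt q hq
    have hq' : R < (ψ q.1 t (pt R q.2)).re := hq
    have e : t' = (t' - t) + t := by ring
    change R < (ψ q.1 t' (pt R q.2)).re
    rw [e, h.add, h.right hX _ hq'.le (by linarith)]
    simp only [Complex.add_re, Complex.ofReal_re]
    linarith
  obtain ⟨T, hT⟩ := hK.elim_directed_cover
    (fun t : ℝ => {q : ℝ × ℝ | R < (ψ q.1 t (pt R q.2)).re})
    (fun t => isOpen_lt continuous_const (Complex.continuous_re.comp (h.cont t)))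
    (fun q hq => mem_iUnion.2 (h.exit hX hE q.1 (pt_re R q.2)
      (by rw [pt_im]; exact abs_le.2 hq.2))) (directed_of_isDirected_le hm)
  exact ⟨max T (2 * (R + 1)), le_max_right _ _, fun s y hs hy =>
    hm (le_max_left _ _) (hT (a := (s, y)) ⟨abs_le.1 hs, abs_le.1 hy⟩)⟩

lemma pt_add (R : ℝ) (z : ℂ) : pt R z.im + (z.re + (R + 1) : ℝ) = z := by
  apply Complex.ext <;> simp
  ring

theorem PF.shear (h : PF X ψ) (hX : Triv X R) (hR : 0 < R)
    (hE : ∀ s z ρ, ∃ t ≥ 0, ρ < ‖ψ s t z‖) {f : ℂ → ℂ} (hf : ∀ z, R ≤ ‖z‖ → f z = z)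
    (hd : ∀ (z : ℂ) (t : ℝ), HasDerivAt (fun t : ℝ => f (z + t)) (X 0 (f (z + t))) t) :
    ∃ F a b R', Shear f F a b R' := by
  obtain ⟨T, hT, hT'⟩ := h.uniform hX hE
  have hsm : ContDiff ℝ ∞ fun q : ℝ × ℂ => ψ q.1 (q.2.re + (R + 1)) (pt R q.2.im) :=
    h.smooth.comp (contDiff_fst.prodMk
      (((Complex.reCLM.contDiff.comp contDiff_snd).add contDiff_const).prodMk
        ((contDiff_pt R).comp (Complex.imCLM.contDiff.comp contDiff_snd))))
  have h0 : ∀ z : ℂ, ψ 0 (z.re + (R + 1)) (pt R z.im) = f z := by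
    intro z
    have := h.uniq 0 (fun t : ℝ => f (pt R z.im + t)) (z.re + (R + 1)) fun τ _ => hd _ τ
    simp only [Complex.ofReal_zero, add_zero, pt_add] at this
    rw [← this, hf]
    refine le_trans ?_ (Complex.abs_re_le_norm _)
    rw [pt_re, abs_neg, abs_of_pos (by linarith)]
    linarith
  have hout : ∀ s y, ¬ (|s| ≤ 1 ∧ |y| ≤ R) → ∀ t, ψ s t (pt R y) = pt R y + t := by
    intro s y hsy t
    rcases not_and_or.1 hsy with h1 | h1
    · exact h.big hX _ _ (not_le.1 h1).le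
    · exact h.far hX _ _ (by rw [pt_im]; exact (not_le.1 h1).le)
  refine ⟨fun s z => ψ s (z.re + (R + 1)) (pt R z.im),
    fun s y => (ψ s T (pt R y)).re - (T - (R + 1)), fun s y => (ψ s T (pt R y)).im, T - (R + 1),
    by linarith, hsm, fun s z δ hδ => ?_, h0, fun z => ?_, fun s z hz => ?_, fun s z hz => ?_,
    fun s z hz => ?_, fun y => ?_, ?_⟩
  · have hF : ContDiff ℝ ∞ fun z : ℂ => ψ s (z.re + (R + 1)) (pt R z.im) :=
      hsm.comp (contDiff_const.prodMk contDiff_id)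
    have hG : ContDiff ℝ ∞ fun w : ℂ => ψ s (-(z.re + (R + 1))) w :=
      h.smooth.comp (contDiff_const.prodMk (contDiff_const.prodMk contDiff_id))
    have e : (fun w : ℂ => ψ s (-(z.re + (R + 1))) w) ∘
        (fun z : ℂ => ψ s (z.re + (R + 1)) (pt R z.im)) =ᶠ[𝓝 z]
        fun z' => z' - (z.re + (R + 1) : ℝ) := by
      filter_upwards [(isOpen_lt Complex.continuous_re continuous_const).mem_nhds
        (show z.re < z.re + 1 by linarith)] with z' hz'
      have hz'' : z'.re < z.re + 1 := hz'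
      simp only [Function.comp_apply]
      rw [← h.add, h.left hX s (by rw [pt_re]; linarith) (by rw [pt_re]; linarith)]
      apply Complex.ext <;> simp
      ring
    have e2 := congrArg (fun A => A δ) (e.fderiv_eq (𝕜 := ℝ))
    rw [fderiv_comp z (hG.differentiable (by simp) _) (hF.differentiable (by simp) _),
      fderiv_sub_const] at e2
    simp only [ContinuousLinearMap.comp_apply, hδ, map_zero] at e2
    simpa using e2.symm
  · rw [h.big hX _ _ (by simp), pt_add]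
  · rw [h.left hX s (by rw [pt_re]; linarith) (by rw [pt_re]; linarith), pt_add]
  · rw [h.far hX s _ (by rw [pt_im]; linarith), pt_add]
  · have e : z.re + (R + 1) = (z.re + (R + 1) - T) + T := by ring
    have h1 : ψ s (z.re + (R + 1)) (pt R z.im) =
        ψ s T (pt R z.im) + (z.re + (R + 1) - T : ℝ) := by
      by_cases hsy : |s| ≤ 1 ∧ |z.im| ≤ R
      · conv_lhs => rw [e, h.add, h.right hX s (hT' s _ hsy.1 hsy.2).le (by linarith)]
      · rw [hout s _ hsy, hout s _ hsy]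
        push_cast
        ring
    rw [h1]
    apply Complex.ext <;> simp
    ring
  · have h1 := h0 (pt R y + T)
    have h2 : (pt R y + T).re = T - (R + 1) := by simp; ring
    have h3 : (pt R y + T).im = y := by simp
    rw [h2, h3, sub_add_cancel, hf _ (le_trans (by rw [h2]; linarith) (Complex.re_le_norm _))]
      at h1
    simp only [h1, h2, h3, sub_self, and_self]
  · obtain ⟨C, hC⟩ := (isCompact_Icc.prod isCompact_Icc :
      IsCompact (Icc (-1 : ℝ) 1 ×ˢ Icc (-R) R)).exists_bound_of_continuousOn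
      (f := fun q : ℝ × ℝ => (ψ q.1 T (pt R q.2)).re - (T - (R + 1)))
      ((Complex.continuous_re.comp (h.cont T)).sub continuous_const).continuousOn
    refine ⟨max C 0, fun s y => ?_⟩
    by_cases hsy : |s| ≤ 1 ∧ |y| ≤ R
    · exact le_max_of_le_left (hC (s, y) ⟨abs_le.1 hsy.1, abs_le.1 hsy.2⟩)
    · rw [hout s y hsy]
      have h2 : (pt R y + T).re = T - (R + 1) := by simp; ring
      rw [h2, sub_self, abs_zero]
      exact le_max_right _ _

end Main

end Shr

open Shr in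
theorem shear_of (hF : FlowStmt) (hL : LiftStmt) (hB : PlaneBijStmt) (hE : ExitStmt) :
    ShearStmt := by
  intro f hf
  obtain ⟨g, hg, hgf, -⟩ := hB f hf
  obtain ⟨hs, ⟨R', hR'⟩, hi⟩ := hf
  have hR : 0 < |R'| + 1 := by positivity
  have hlt : R' < |R'| + 1 := by linarith [le_abs_self R']
  set R := |R'| + 1
  have hfR : ∀ z, R ≤ ‖z‖ → f z = z := fun z hz => hR' z (by linarith)
  have hζ : ContDiff ℝ ∞ fun w => fderiv ℝ f (g w) 1 :=
    ((hs.fderiv_right (m := ∞) (by simp)).comp hg).clm_apply contDiff_const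
  obtain ⟨al, hal, hexp, hal0⟩ := exists_log hL hζ (fun w hw => one_ne_zero (hi _ _ hw)) hR
    fun w hw => by
      have h1 : g w = w := by rw [← hfR w hw, hgf, hfR w hw]
      have h2 : f =ᶠ[𝓝 w] id := by
        filter_upwards [(isOpen_lt continuous_const continuous_norm).mem_nhds
          (show R' < ‖w‖ by linarith)] with z hz
        exact hR' z (le_of_lt hz)
      rw [h1, h2.fderiv_eq, fderiv_id]
      rfl
  let m : ℝ → ℝ := fun s => Real.smoothTransition (s + 1) * (1 - Real.smoothTransition s)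
  have hm : ContDiff ℝ ∞ m :=
    (Real.smoothTransition.contDiff.comp (contDiff_id.add contDiff_const)).mul
      (contDiff_const.sub Real.smoothTransition.contDiff)
  have hm0 : m 0 = 1 := by simp [m]
  have hm1 : ∀ s, 1 ≤ |s| → m s = 0 := by
    intro s hs
    rcases le_abs.1 hs with h | h
    · simp [m, Real.smoothTransition.one_of_one_le h]
    · simp [m, Real.smoothTransition.zero_of_nonpos (show s + 1 ≤ 0 by linarith)]
  have ha : ContDiff ℝ ∞ fun q : ℝ × ℂ => (m q.1 : ℂ) * al q.2 :=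
    (Complex.ofRealCLM.contDiff.comp (hm.comp contDiff_fst)).mul (hal.comp contDiff_snd)
  have hX : Triv (fun s w => Complex.exp ((m s : ℂ) * al w)) R := by
    rintro s w (h | h)
    · simp [hal0 w h]
    · simp [hm1 s h]
  obtain ⟨ψ, hψ⟩ := exists_pf hF (X := fun s w => Complex.exp ((m s : ℂ) * al w)) ha.cexp
    (HasCompactSupport.intro (K := Icc (-1 : ℝ) 1 ×ˢ Metric.closedBall (0 : ℂ) R)
      (isCompact_Icc.prod (isCompact_closedBall _ _)) fun q hq => by
        refine sub_eq_zero.2 (hX q.1 q.2 ?_)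
        by_contra hc
        push Not at hc
        exact hq ⟨abs_le.1 hc.2.le, by simpa using hc.1.le⟩)
  refine hψ.shear hX hR (fun s => hE (fun w => (m s : ℂ) * al w) (ψ s)
    (contDiff_const.mul hal) (hψ.smooth.comp (contDiff_const.prodMk contDiff_id)) (hψ.zero s)
    (hψ.add s) (hψ.ode s)) hfR fun z t => ?_
  have h1 : HasDerivAt (fun t : ℝ => z + t) 1 t :=
    (Complex.ofRealCLM.hasDerivAt (x := t)).const_add z
  have h2 := (hs.differentiable (by simp) (z + t)).hasFDerivAt.comp_hasDerivAt t h1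
  simp only [hm0, Complex.ofReal_one, one_mul, hexp, hgf]
  exact h2

end Pool.Agent.MP_2291e2_gt.Zl

end MrgPart5

-- ======== part 6: formerly Pool.Agent.MP_2291e2_gt.zl.Smale
section MrgPart6

/-! Every round metric `ψ^* g₀` is joined to `g₀`. -/

open scoped ContDiff RealInnerProductSpace Topology
open Set Filter Real

namespace Pool.Agent.MP_2291e2_gt.Zl

namespace SmaleA

open Phi

lemma ne_zero_of_unit {y : E} (h : ‖y‖ = 1) : y ≠ 0 := by
  intro h0; rw [h0] at h; simp at h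

lemma cdAt {ψ : E → E} (h : IsoDiff ψ) {y : E} (hy : y ≠ 0) : ContDiffAt ℝ ∞ ψ y :=
  h.1.contDiffAt (isOpen_compl_singleton.mem_nhds hy)

lemma dAt {ψ : E → E} (h : IsoDiff ψ) {y : E} (hy : y ≠ 0) : DifferentiableAt ℝ ψ y :=
  (cdAt h hy).differentiableAt (by simp)

lemma unit_map {ψ : E → E} (h : IsoDiff ψ) {y : E} (hy : ‖y‖ = 1) : ‖ψ y‖ = 1 := by
  simpa using h.2.1.mapsTo (x := y) (by simpa using hy)

lemma inj_map {ψ : E → E} (h : IsoDiff ψ) {y y' : E} (hy : ‖y‖ = 1) (hy' : ‖y'‖ = 1)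
    (e : ψ y = ψ y') : y = y' :=
  h.2.1.injOn (by simpa using hy) (by simpa using hy') e

/-- The derivative of a map into the sphere is tangent. -/
lemma perp {X : Type*} [NormedAddCommGroup X] [NormedSpace ℝ X] {f : X → E} {x : X}
    (hf : DifferentiableAt ℝ f x) (h : ∀ x, ‖f x‖ = 1) (δ : X) : ⟪f x, fderiv ℝ f x δ⟫ = 0 := by
  have e := fderiv_inner' hf hf δ
  have c : (fun x => ⟪f x, f x⟫) = fun _ => (1 : ℝ) := by
    funext x; rw [real_inner_self_eq_norm_sq, h]; norm_num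
  rw [c, real_inner_comm (f x)] at e
  simp only [fderiv_fun_const, Pi.zero_apply, zero_apply] at e
  linarith

lemma tan_map {ψ : E → E} (h : IsoDiff ψ) {x w : E} (t : Tan x w) :
    Tan (ψ x) (fderiv ℝ ψ x w) := by
  refine ⟨unit_map h t.1, ?_, h.2.2 x w t⟩
  have hn : ‖w‖ ≠ 0 := by simpa using t.2.2
  set v := ‖w‖⁻¹ • w with hv
  have hU : (x, v) ∈ U := ⟨t.1, by simp [hv, norm_smul, hn], by simp [hv, inner_smul_right, t.2.1]⟩
  obtain ⟨c, hc, c0, cU, cd⟩ := exists_curve hU (cr x w)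
  have d1 : HasDerivAt (fun s => (c s).1) w 0 := by
    have := (ContinuousLinearMap.fst ℝ E E).hasFDerivAt.comp_hasDerivAt (0 : ℝ) (cd 0)
    refine this.congr_deriv ?_
    have h2 : ⟪w, x⟫ = 0 := by rw [real_inner_comm]; exact t.2.1
    simp [c0, W, cr_cr_left, h2, t.1]
  have e0 : (c 0).1 = x := by rw [c0]
  have d2 : HasDerivAt (fun s => ψ (c s).1) (fderiv ℝ ψ x w) 0 :=
    HasFDerivAt.comp_hasDerivAt (l := ψ) (f := fun s => (c s).1) 0
      (by rw [e0]; exact (dAt h (ne_zero_of_unit t.1)).hasFDerivAt) d1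
  have := perp d2.differentiableAt (fun s => unit_map h (cU s).1) 1
  rwa [fderiv_apply_one_eq_deriv, d2.deriv, e0] at this

lemma comp {ψ κ : E → E} (h : IsoDiff ψ) (k : IsoDiff κ)
    (hs : ContDiffOn ℝ ∞ (fun y => ψ (κ y)) {0}ᶜ) : IsoDiff fun y => ψ (κ y) := by
  refine ⟨hs, h.2.1.comp k.2.1, fun x w t => ?_⟩
  have t' := tan_map k t
  rw [show (fun y => ψ (κ y)) = ψ ∘ κ from rfl,
    fderiv_comp x (dAt h (ne_zero_of_unit t'.1)) (dAt k (ne_zero_of_unit t.1))]
  exact h.2.2 _ _ t'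

lemma iso_lin (A : E ≃ₗᵢ[ℝ] E) : IsoDiff A := by
  refine ⟨A.contDiff.contDiffOn, ⟨fun y hy => by simpa using hy, A.injective.injOn,
    fun y hy => ⟨A.symm y, by simpa using hy, by simp⟩⟩, fun x w t => ?_⟩
  rw [show fderiv ℝ A x = (A.toContinuousLinearEquiv : E →L[ℝ] E) from
    A.toContinuousLinearEquiv.fderiv]
  simpa using t.2.2

lemma lin_comp (A : E ≃ₗᵢ[ℝ] E) {ψ : E → E} (h : IsoDiff ψ) : IsoDiff fun y => A (ψ y) :=
  comp (iso_lin A) h (A.contDiff.comp_contDiffOn h.1)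

lemma comp_lin (A : E ≃ₗᵢ[ℝ] E) {ψ : E → E} (h : IsoDiff ψ) : IsoDiff fun y => ψ (A y) :=
  comp h (iso_lin A) (h.1.comp A.contDiff.contDiffOn fun y hy => by simpa using hy)

/-! ### the chart -/

lemma norm_north : ‖north‖ = 1 := by
  have : ‖north‖ ^ 2 = 1 := by rw [normsq3]; simp [north]
  exact (pow_eq_one_iff_of_nonneg (norm_nonneg _) two_ne_zero).1 this

lemma sub_ne {y : E} (h : ‖y‖ = 1) (hn : y ≠ north) : 1 - y 2 ≠ 0 := by
  intro h0
  have h3 := normsq3 y
  have h2 : y 2 = 1 := by linarith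
  rw [h, h2] at h3
  have a0 : y 0 = 0 := by nlinarith [sq_nonneg (y 0), sq_nonneg (y 1)]
  have a1 : y 1 = 0 := by nlinarith [sq_nonneg (y 0), sq_nonneg (y 1)]
  exact hn (ext3 (by simp [north, a0]) (by simp [north, a1]) (by simp [north, h2]))

lemma st_ne (ζ : ℂ) : st ζ ≠ north := by
  intro h
  have e := one_sub_st ζ
  have : north 2 = 1 := by simp [north]
  rw [h, this, sub_self] at e
  exact mul_ne_zero two_ne_zero (inv_ne_zero (den_pos ζ).ne') e.symm

lemma st_pr {y : E} (h : ‖y‖ = 1) (hn : y ≠ north) : st (pr y) = y := by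
  have h0 := sub_ne h hn
  have h3 := normsq3 y
  rw [h] at h3
  have hre : (pr y).re = (1 - y 2)⁻¹ * y 0 := by simp [pr, -Complex.ofReal_sub, -Complex.ofReal_inv]
  have him : (pr y).im = (1 - y 2)⁻¹ * y 1 := by simp [pr, -Complex.ofReal_sub, -Complex.ofReal_inv]
  have hq : Complex.normSq (pr y) = (1 + y 2) / (1 - y 2) := by
    rw [Complex.normSq_apply, hre, him]
    field_simp
    nlinarith
  have hd : (Complex.normSq (pr y) + 1)⁻¹ = (1 - y 2) / 2 := by
    rw [hq]; field_simp; ring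
  refine ext3 ?_ ?_ ?_
  · simp only [st, PiLp.smul_apply, smul_eq_mul, Matrix.cons_val_zero, hd, hre]
    field_simp
  · simp only [st, PiLp.smul_apply, smul_eq_mul, Matrix.cons_val_zero, Matrix.cons_val_one, hd, him]
    field_simp
  · simp only [st, PiLp.smul_apply, smul_eq_mul, Matrix.cons_val, hd]
    rw [hq]; field_simp; ring

lemma cd_pr {y : E} (h0 : 1 - y 2 ≠ 0) : ContDiffAt ℝ ∞ pr y := by
  have hc : ∀ i : Fin 3, ContDiffAt ℝ ∞ (fun y : E => y i) y := fun i =>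
    (EuclideanSpace.proj (𝕜 := ℝ) i : E →L[ℝ] ℝ).contDiff.contDiffAt
  have hz : ∀ i : Fin 3, ContDiffAt ℝ ∞ (fun y : E => ((y i : ℝ) : ℂ)) y := fun i =>
    Complex.ofRealCLM.contDiff.contDiffAt.comp _ (hc i)
  exact ((contDiffAt_const.sub (hc 2)).inv h0).smul ((hz 0).add ((hz 1).mul contDiffAt_const))

lemma d_st (ζ : ℂ) : DifferentiableAt ℝ st ζ := contDiff_st.differentiable (by simp) ζ

lemma tan_st (ζ : ℂ) {δ : ℂ} (h : δ ≠ 0) : Tan (st ζ) (fderiv ℝ st ζ δ) := by
  refine ⟨norm_st ζ, perp (d_st ζ) norm_st δ, fun h0 => h ?_⟩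
  have e : (fun z : ℂ => z) = pr ∘ st := funext fun z => (pr_st z).symm
  have := congrArg (fun f => fderiv ℝ f ζ δ) e
  simp only [fderiv_fun_id, ContinuousLinearMap.id_apply] at this
  rw [this, fderiv_comp ζ (diffAt_pr ζ) (d_st ζ), ContinuousLinearMap.comp_apply, h0, map_zero]

lemma cd_st {χ : E → E} (h : IsoDiff χ) (ζ : ℂ) : ContDiffAt ℝ ∞ (fun z => χ (st z)) ζ :=
  (cdAt h (ne_zero_of_unit (norm_st ζ))).comp ζ contDiff_st.contDiffAt

lemma inj_st {χ : E → E} (h : IsoDiff χ) (ζ δ : ℂ)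
    (h0 : fderiv ℝ (fun z => χ (st z)) ζ δ = 0) : δ = 0 := by
  by_contra hδ
  rw [show (fun z => χ (st z)) = χ ∘ st from rfl,
    fderiv_comp ζ (dAt h (ne_zero_of_unit (norm_st ζ))) (d_st ζ)] at h0
  exact h.2.2 _ _ (tan_st ζ hδ) h0

lemma ev_ne {χ : E → E} (h : IsoDiff χ) {ζ : ℂ} (hn : χ (st ζ) ≠ north) :
    ∀ᶠ z in 𝓝 ζ, χ (st z) ≠ north :=
  (cd_st h ζ).continuousAt.eventually_ne hn

lemma chart {χ : E → E} (h : IsoDiff χ) {ζ : ℂ} (hn : χ (st ζ) ≠ north) :
    ContDiffAt ℝ ∞ (fun z => pr (χ (st z))) ζ ∧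
      ∀ δ, fderiv ℝ (fun z => pr (χ (st z))) ζ δ = 0 → δ = 0 := by
  have c1 : ContDiffAt ℝ ∞ (fun z => pr (χ (st z))) ζ :=
    ContDiffAt.comp (g := pr) (f := fun z => χ (st z)) ζ
      (cd_pr (sub_ne (unit_map h (norm_st ζ)) hn)) (cd_st h ζ)
  refine ⟨c1, fun δ h0 => inj_st h ζ δ ?_⟩
  have e : (fun z => χ (st z)) =ᶠ[𝓝 ζ] st ∘ fun z => pr (χ (st z)) :=
    (ev_ne h hn).mono fun z hz => (st_pr (unit_map h (norm_st z)) hz).symm
  rw [e.fderiv_eq, fderiv_comp ζ (d_st _) (c1.differentiableAt (by simp)),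
    ContinuousLinearMap.comp_apply, h0, map_zero]

lemma cases_unit {y : E} (h : ‖y‖ = 1) : y = north ∨ ∃ ζ, y = st ζ := by
  by_cases hn : y = north
  · exact Or.inl hn
  · exact Or.inr ⟨pr y, (st_pr h hn).symm⟩

lemma st0 : st 0 = !₂[0, 0, -1] := ext3 (by simp [st]) (by simp [st]) (by simp [st])

lemma d_pr (v : E) : fderiv ℝ pr (st 0) v = ⟨v 0 / 2, v 1 / 2⟩ := by
  have hc : ∀ i : Fin 3, HasFDerivAt (fun y : E => y i)
      (EuclideanSpace.proj (𝕜 := ℝ) i : E →L[ℝ] ℝ) (st 0) := fun i =>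
    (EuclideanSpace.proj (𝕜 := ℝ) i : E →L[ℝ] ℝ).hasFDerivAt
  have hz : ∀ i : Fin 3, HasFDerivAt (fun y : E => ((y i : ℝ) : ℂ))
      (Complex.ofRealCLM.comp (EuclideanSpace.proj (𝕜 := ℝ) i : E →L[ℝ] ℝ)) (st 0) := fun i =>
    Complex.ofRealCLM.hasFDerivAt.comp _ (hc i)
  have h0 : 1 - st 0 2 ≠ 0 := by rw [st_zero]; norm_num
  have d1 : DifferentiableAt ℝ (fun y : E => (1 - y 2)⁻¹) (st 0) :=
    ((differentiableAt_const _).sub (hc 2).differentiableAt).inv h0
  have d := d1.hasFDerivAt.smul ((hz 0).add ((hz 1).mul_const Complex.I))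
  have e : fderiv ℝ pr (st 0) = _ := d.fderiv
  rw [e, show (1 - st 0 2)⁻¹ = (1 / 2 : ℝ) by rw [st_zero]; norm_num]
  apply Complex.ext <;> simp [st0] <;> ring

/-! ### isometries -/

lemma exists_iso (t n p : E) (ht : ‖t‖ = 1) (hn : ‖n‖ = 1) (hp : ‖p‖ = 1) (h1 : ⟪t, n⟫ = 0)
    (h2 : ⟪t, p⟫ = 0) (h3 : ⟪n, p⟫ = 0) :
    ∃ A : E ≃ₗᵢ[ℝ] E, ∀ x, A x 0 = ⟪t, x⟫ ∧ A x 1 = ⟪n, x⟫ ∧ A x 2 = ⟪p, x⟫ := by
  have ho : Orthonormal ℝ ![t, n, p] := by
    refine ⟨fun i => by fin_cases i <;> simpa, fun i j hij => ?_⟩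
    fin_cases i <;> fin_cases j <;> simp_all [real_inner_comm]
  let b := (basisOfOrthonormalOfCardEqFinrank ho (by simp)).toOrthonormalBasis (by simpa using ho)
  have hb : ∀ i, b i = ![t, n, p] i := fun i => by simp [b]
  refine ⟨b.repr, fun x => ?_⟩
  simp only [OrthonormalBasis.repr_apply_apply, hb]
  exact ⟨rfl, rfl, rfl⟩

lemma exists_refl : ∃ r : E ≃ₗᵢ[ℝ] E, (∀ x, r (r x) = x) ∧ r north = st 0 := by
  have k : ∀ x : E, ‖x‖ ^ 2 = 1 → ‖x‖ = 1 := fun x h =>
    (pow_eq_one_iff_of_nonneg (norm_nonneg _) two_ne_zero).1 h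
  obtain ⟨r, hr⟩ := exists_iso !₂[1, 0, 0] !₂[0, 1, 0] !₂[0, 0, -1] (k _ (by simp [normsq3]))
    (k _ (by simp [normsq3])) (k _ (by simp [normsq3])) (by simp [inner3]) (by simp [inner3])
    (by simp [inner3])
  have h0 : ∀ x, r x 0 = x 0 := fun x => by simp [(hr x).1, inner3]
  have h1 : ∀ x, r x 1 = x 1 := fun x => by simp [(hr x).2.1, inner3]
  have h2 : ∀ x, r x 2 = -x 2 := fun x => by simp [(hr x).2.2, inner3]
  exact ⟨r, fun x => ext3 (by simp [h0]) (by simp [h1]) (by simp [h2]),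
    ext3 (by simp [h0, st0, north]) (by simp [h1, st0, north]) (by simp [h2, st0, north])⟩

/-- Normalisation of the first order jet at the south pole. -/
lemma normal {ψ : E → E} (h : IsoDiff ψ) : ∃ A : E ≃ₗᵢ[ℝ] E, A (ψ (st 0)) = st 0 ∧
    (fderiv ℝ (fun z => pr (A (ψ (st z)))) 0 1).im = 0 ∧
    0 < (fderiv ℝ (fun z => pr (A (ψ (st z)))) 0 1).re ∧
    0 < (fderiv ℝ (fun z => pr (A (ψ (st z)))) 0 Complex.I).im := by
  have dΦ : DifferentiableAt ℝ (fun z => ψ (st z)) 0 := (cd_st h 0).differentiableAt (by simp)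
  set D := fderiv ℝ (fun z => ψ (st z)) 0 with hD
  set p := ψ (st 0) with hp
  have pu : ‖p‖ = 1 := unit_map h (norm_st 0)
  have pD : ∀ δ, ⟪p, D δ⟫ = 0 := perp dΦ fun z => unit_map h (norm_st z)
  have a0 : ‖D 1‖ ≠ 0 := fun h0 => one_ne_zero (inj_st h 0 1 (norm_eq_zero.1 h0))
  set t := ‖D 1‖⁻¹ • D 1 with ht
  have hU : (p, t) ∈ U := ⟨pu, by simp [ht, norm_smul, a0], by simp [ht, inner_smul_right, pD]⟩
  have e1 : D 1 = ‖D 1‖ • t := by rw [ht, smul_smul, mul_inv_cancel₀ a0, one_smul]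
  have nz : ⟪cr p t, D Complex.I⟫ ≠ 0 := by
    intro h0
    have f := frameU hU (D Complex.I)
    simp only at f
    rw [real_inner_comm p, pD, real_inner_comm (cr p t), h0, zero_smul, zero_smul, zero_add,
      add_zero] at f
    have : D (Complex.I - (⟪D Complex.I, t⟫ * ‖D 1‖⁻¹) • (1 : ℂ)) = 0 := by
      rw [map_sub, map_smul, mul_smul, ← ht, ← f, sub_self]
    have := congrArg Complex.im (inj_st h 0 _ this)
    simp at this
  obtain ⟨n, nu, nt, np, npos⟩ : ∃ n : E, ‖n‖ = 1 ∧ ⟪t, n⟫ = 0 ∧ ⟪n, p⟫ = 0 ∧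
      0 < ⟪n, D Complex.I⟫ := by
    have u := norm_cr_U hU
    rcases lt_or_gt_of_ne nz with hl | hl
    · exact ⟨-cr p t, by simpa using u, by simp, by simp, by simpa using hl⟩
    · exact ⟨cr p t, u, by simp, by simp, hl⟩
  have tp : ⟪t, p⟫ = 0 := inner_U21 hU
  obtain ⟨A, hA⟩ := exists_iso t n (-p) hU.2.1 nu (by simpa using pu) nt (by simp [tp])
    (by simp [np])
  have pp : ⟪p, p⟫ = 1 := inner_self_U1 hU
  have eA : A p = st 0 := ext3 (by simp [(hA p).1, tp, st0]) (by simp [(hA p).2.1, np, st0])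
    (by rw [(hA p).2.2, inner_neg_left, pp, st_zero])
  have key : ∀ δ, fderiv ℝ (fun z => pr (A (ψ (st z)))) 0 δ = ⟨⟪t, D δ⟫ / 2, ⟪n, D δ⟫ / 2⟩ := by
    intro δ
    have d1 : HasFDerivAt (fun z => A (ψ (st z)))
        ((A.toContinuousLinearEquiv : E →L[ℝ] E).comp D) 0 :=
      A.toContinuousLinearEquiv.hasFDerivAt.comp 0 dΦ.hasFDerivAt
    have d2 : HasFDerivAt pr (fderiv ℝ pr (st 0)) (A (ψ (st 0))) := by
      rw [← hp, eA]; exact (diffAt_pr 0).hasFDerivAt
    have d3 : fderiv ℝ (fun z => pr (A (ψ (st z)))) 0 = _ :=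
      (HasFDerivAt.comp (g := pr) (f := fun z => A (ψ (st z))) 0 d2 d1).fderiv
    rw [d3, ContinuousLinearMap.comp_apply, d_pr, ← (hA _).1, ← (hA _).2.1]
    rfl
  refine ⟨A, eA, ?_, ?_, ?_⟩
  · rw [key]
    show ⟪n, D 1⟫ / 2 = 0
    rw [e1, inner_smul_right, real_inner_comm, nt]; simp
  · rw [key, e1, inner_smul_right, show ⟪t, t⟫ = 1 from inner_self_U2 hU]
    have := (norm_nonneg (D 1)).lt_of_ne' a0
    simpa using this
  · rw [key]; simpa using npos

/-! ### local inverse on a ball -/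

lemma equiv_of {M : ℂ →L[ℝ] ℂ} (hi : ∀ δ, M δ = 0 → δ = 0) :
    ∃ e : ℂ ≃L[ℝ] ℂ, (e : ℂ →L[ℝ] ℂ) = M :=
  ⟨(LinearMap.linearEquivOfInjective M.toLinearMap ((injective_iff_map_eq_zero _).2 hi)
    rfl).toContinuousLinearEquiv, by ext1; rfl⟩

lemma loc_inv {g : ℂ → ℂ} (h0 : g 0 = 0)
    (hg : ∀ᶠ z in 𝓝 0, ContDiffAt ℝ ∞ g z ∧ ∀ δ, fderiv ℝ g z δ = 0 → δ = 0) :
    ∃ (h : ℂ → ℂ) (r : ℝ), 0 < r ∧ ContDiffOn ℝ ∞ h (Metric.ball 0 r) ∧ h 0 = 0 ∧
      ∀ᶠ z in 𝓝 0, g (h z) = z := by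
  obtain ⟨g0, i0⟩ := hg.self_of_nhds
  obtain ⟨e, he⟩ := equiv_of i0
  have hF : HasFDerivAt g (e : ℂ →L[ℝ] ℂ) 0 := by
    rw [he]; exact (g0.differentiableAt (by simp)).hasFDerivAt
  have hn : (∞ : WithTop ℕ∞) ≠ 0 := by simp
  set φ := g0.toOpenPartialHomeomorph g hF hn with hφ
  have c : (φ : ℂ → ℂ) = g := g0.toOpenPartialHomeomorph_coe hF hn
  have s0 : (0 : ℂ) ∈ φ.source := g0.mem_toOpenPartialHomeomorph_source hF hn
  have t0 : (0 : ℂ) ∈ φ.target := h0 ▸ g0.image_mem_toOpenPartialHomeomorph_target hF hn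
  have z0 : φ.symm 0 = 0 := by
    have := φ.left_inv s0
    rwa [c, h0] at this
  have tn := φ.open_target.mem_nhds t0
  have ct : Tendsto φ.symm (𝓝 0) (𝓝 0) := by
    have := (φ.continuousAt_symm t0).tendsto
    rwa [z0] at this
  obtain ⟨r, hr, hb⟩ := Metric.eventually_nhds_iff_ball.1 ((ct.eventually hg).and tn)
  refine ⟨φ.symm, r, hr, fun z hz => ?_, z0, ?_⟩
  · obtain ⟨⟨g1, i1⟩, tz⟩ := hb z hz
    obtain ⟨e1, he1⟩ := equiv_of i1
    refine (φ.contDiffAt_symm (f₀' := e1) tz ?_ (by rwa [c])).contDiffWithinAt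
    rw [he1, c]; exact (g1.differentiableAt (by simp)).hasFDerivAt
  · filter_upwards [tn] with z hz
    have := φ.right_inv hz
    rwa [c] at this

lemma inv_tri {M N : ℂ →L[ℝ] ℂ} (h : ∀ δ, M (N δ) = δ) (h1 : (M 1).im = 0) (h2 : 0 < (M 1).re)
    (h3 : 0 < (M Complex.I).im) : (N 1).im = 0 ∧ 0 < (N 1).re ∧ 0 < (N Complex.I).im := by
  have ex : ∀ z : ℂ, M z = z.re • M 1 + z.im • M Complex.I := fun z => by
    rw [← map_smul, ← map_smul, ← map_add]
    congr 1
    apply Complex.ext <;> simp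
  have a := h 1
  have b := h Complex.I
  rw [ex] at a b
  have a1 := congrArg Complex.im a
  have a2 := congrArg Complex.re a
  have b1 := congrArg Complex.im b
  simp [h1, h3.ne'] at a1 b1
  simp [a1] at a2
  have k : ∀ x y : ℝ, x * y = 1 → 0 < y → 0 < x := fun x y e hy => by
    by_contra hx
    nlinarith [mul_nonneg (neg_nonneg.2 (not_lt.1 hx)) hy.le]
  exact ⟨a1, k _ _ a2 h2, k _ _ b1 h3⟩

lemma zcongr {L₀ L₁ M₀ M₁ : P → ℝ} (h : ZJoin L₀ L₁) (e0 : ∀ x w, Tan x w → L₀ (x, w) = M₀ (x, w))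
    (e1 : ∀ x w, Tan x w → L₁ (x, w) = M₁ (x, w)) : ZJoin M₀ M₁ := by
  obtain ⟨L, a, b, c, d⟩ := h
  exact ⟨L, a, b, fun x w t => (c x w t).trans (e0 x w t), fun x w t => (d x w t).trans (e1 x w t)⟩

/-- First step: make the map the identity near the south pole. -/
lemma step1 (hP : PullStmt) (hG : GermStmt) (hT : TransferStmt) {ψ : E → E} (h : IsoDiff ψ) :
    ∃ χ, IsoDiff χ ∧ ZJoin (pull ψ) (pull χ) ∧ ∀ᶠ z in 𝓝 0, χ (st z) = st z := by
  obtain ⟨A, eA, m1, m2, m3⟩ := normal h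
  have hA := lin_comp A h
  have n0 : A (ψ (st 0)) ≠ north := by rw [eA]; exact st_ne 0
  have en := ev_ne hA n0
  have g0 : pr (A (ψ (st 0))) = 0 := by rw [eA, pr_st]
  obtain ⟨i, r, hr, hi, i0, ri⟩ := loc_inv (g := fun z => pr (A (ψ (st z)))) g0
    (en.mono fun z hz => chart hA hz)
  have ci : ContDiffAt ℝ ∞ i 0 := hi.contDiffAt (Metric.ball_mem_nhds 0 hr)
  have inv : ∀ δ, fderiv ℝ (fun z => pr (A (ψ (st z)))) 0 (fderiv ℝ i 0 δ) = δ := by
    intro δ
    have d1 : DifferentiableAt ℝ (fun z => pr (A (ψ (st z)))) (i 0) := by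
      rw [i0]; exact (chart hA n0).1.differentiableAt (by simp)
    have e := fderiv_comp 0 d1 (ci.differentiableAt (by simp))
    have e' : ((fun z => pr (A (ψ (st z)))) ∘ i) =ᶠ[𝓝 0] id := ri
    rw [e'.fderiv_eq, i0, fderiv_id] at e
    exact (congrArg (fun M : ℂ →L[ℝ] ℂ => M δ) e).symm
  obtain ⟨j1, j2, j3⟩ := inv_tri inv m1 m2 m3
  obtain ⟨k, hk, k0, k1⟩ := hG i r hr hi i0 j1 j2 j3
  obtain ⟨K, hK, Ku, Ks, Kn⟩ := hT k hk
  have sm : ContDiffOn ℝ ∞ (fun q : ℝ × E => A (ψ (K q.1 q.2))) (univ ×ˢ {0}ᶜ) :=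
    hA.1.comp hK.1 fun q hq => ne_zero_of_unit (Ku _ _ hq.2)
  have iso : ∀ s, IsoDiff fun y => A (ψ (K s y)) := fun s =>
    comp (ψ := fun y => A (ψ y)) hA (hK.2 s) (hA.1.comp (hK.2 s).1 fun y hy => ne_zero_of_unit (Ku _ _ hy))
  refine ⟨_, iso 1, zcongr (hP.1 (fun s y => A (ψ (K s y))) ⟨sm, iso⟩)
    (hP.2 ψ _ A h.1 (iso 0).1 fun y hy => ?_) fun _ _ _ => rfl, ?_⟩
  · rcases cases_unit hy with rfl | ⟨ζ, rfl⟩
    · rw [Kn]
    · rw [Ks, k0]
  · have ti : Tendsto i (𝓝 0) (𝓝 0) := by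
      have := ci.continuousAt.tendsto
      rwa [i0] at this
    filter_upwards [k1, ri, ti.eventually en] with z h1 h2 h3
    rw [Ks, h1, ← st_pr (unit_map hA (norm_st (i z))) h3, h2]

lemma dist_north (ζ : ℂ) : ‖st ζ - north‖ ^ 2 = 4 / (‖ζ‖ ^ 2 + 1) := by
  have e := one_sub_st ζ
  have i : ⟪st ζ, north⟫ = st ζ 2 := by simp [inner3, north]
  rw [norm_sub_sq_real, norm_st, norm_north, i, ← Complex.normSq_eq_norm_sq, div_eq_mul_inv]
  linarith

/-- Second step: a map that is the identity near the south pole. -/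
lemma step2 (hP : PullStmt) (hT : TransferStmt) (hS : PlaneSmaleStmt) {χ : E → E} (h : IsoDiff χ)
    (h0 : ∀ᶠ z in 𝓝 0, χ (st z) = st z) : ZJoin (pull χ) (pull id) := by
  obtain ⟨r, rr, rn⟩ := exists_refl
  have hρ : IsoDiff fun y => r (χ (r y)) := lin_comp r (comp_lin r h)
  have ρn : r (χ (r north)) = north := by rw [rn, h0.self_of_nhds, ← rn, rr]
  have nn : ∀ ζ, r (χ (r (st ζ))) ≠ north := fun ζ e =>
    st_ne ζ (inj_map hρ (norm_st ζ) norm_north (e.trans ρn.symm))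
  have ev : ∀ᶠ y in 𝓝 (st 0), ‖y‖ = 1 → χ y = y := by
    have t : Tendsto pr (𝓝 (st 0)) (𝓝 0) := by
      have := (diffAt_pr 0).continuousAt.tendsto
      rwa [pr_st] at this
    filter_upwards [t.eventually h0, eventually_ne_nhds (st_ne 0)] with y h1 h2 h3
    rwa [st_pr h3 h2] at h1
  obtain ⟨d, hd, hb⟩ := Metric.eventually_nhds_iff.1 ev
  have hf : PlaneDiff fun z => pr (r (χ (r (st z)))) := by
    refine ⟨contDiff_iff_contDiffAt.2 fun z => (chart hρ (nn z)).1, ⟨2 / d, fun z hz => ?_⟩,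
      fun z => (chart hρ (nn z)).2⟩
    have : dist (r (st z)) (st 0) < d := by
      rw [← rn, r.dist_map, dist_eq_norm]
      refine lt_of_pow_lt_pow_left₀ 2 hd.le ?_
      rw [dist_north, div_lt_iff₀ (by positivity)]
      rw [div_le_iff₀ hd] at hz
      nlinarith [sq_pos_of_pos hd]
    show pr (r (χ (r (st z)))) = z
    rw [hb this (by simp [norm_st]), rr, pr_st]
  obtain ⟨k, hk, k0, k1⟩ := hS _ hf
  obtain ⟨K, hK, -, Ks, Kn⟩ := hT k hk
  have sm : ContDiffOn ℝ ∞ (fun q : ℝ × E => K q.1 (r q.2)) (univ ×ˢ {0}ᶜ) :=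
    ContDiffOn.comp (g := fun q : ℝ × E => K q.1 q.2) (f := fun q : ℝ × E => (q.1, r q.2)) hK.1
      (contDiff_fst.prodMk (r.contDiff.comp contDiff_snd)).contDiffOn
      fun q hq => ⟨trivial, by simpa using hq.2⟩
  have iso : ∀ s, IsoDiff fun y => K s (r y) := fun s => comp_lin r (hK.2 s)
  refine zcongr (hP.1 (fun s y => K s (r y)) ⟨sm, iso⟩)
    (hP.2 χ _ r h.1 (iso 0).1 fun y hy => ?_)
    (hP.2 id _ r contDiffOn_id (iso 1).1 fun y hy => ?_)
  · have e : y = r (r y) := (rr y).symm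
    rcases cases_unit (y := r y) (by simpa using hy) with e1 | ⟨ζ, e1⟩
    · rw [e, rr, e1, Kn, ρn]
    · rw [e, rr, e1, Ks, k0, st_pr (unit_map hρ (norm_st ζ)) (nn ζ)]
  · rcases cases_unit (y := r y) (by simpa using hy) with e1 | ⟨ζ, e1⟩
    · rw [id, e1, Kn]
    · rw [id, e1, Ks, k1]

end SmaleA

theorem smale_of (hP : PullStmt) (hZ : ZCongrStmt) (hG : GermStmt) (hT : TransferStmt)
    (hS : PlaneSmaleStmt) : SmaleStmt := by
  intro ψ h
  obtain ⟨χ, hχ, j, h0⟩ := SmaleA.step1 hP hG hT h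
  exact hZ.2.2 _ _ _ j (SmaleA.step2 hP hT hS hχ h0)

end Pool.Agent.MP_2291e2_gt.Zl

end MrgPart6

-- ======== part 7: formerly Pool.Agent.MP_2291e2_gt.zl.Umlauf
section MrgPart7

/-! The rotation index of a simple closed curve is not zero. -/

open scoped ContDiff RealInnerProductSpace Topology
open Set Filter Real

namespace Pool.Agent.MP_2291e2_gt.Zl

namespace UML

/-- Difference quotient, as a mean of the derivative. -/
noncomputable def Q (c1 : ℝ → ℂ) (a b : ℝ) : ℂ := ∫ s in (0:ℝ)..1, c1 (a + s * (b - a))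

lemma Q_cont {c1 : ℝ → ℂ} (h1 : Continuous c1) : Continuous fun p : ℝ × ℝ => Q c1 p.1 p.2 := by
  unfold Q
  refine intervalIntegral.continuous_parametric_intervalIntegral_of_continuous'
    (f := fun (p : ℝ × ℝ) (s : ℝ) => c1 (p.1 + s * (p.2 - p.1))) ?_ 0 1
  exact h1.comp (by fun_prop)

lemma Q_self (c1 : ℝ → ℂ) (a : ℝ) : Q c1 a a = c1 a := by simp [Q]

lemma Q_mul {c c1 : ℝ → ℂ} (hc : ∀ t, HasDerivAt c (c1 t) t) (h1 : Continuous c1) (a b : ℝ) :
    ((b - a : ℝ) : ℂ) * Q c1 a b = c b - c a := by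
  have hd : ∀ s ∈ uIcc (0:ℝ) 1, HasDerivAt (fun s : ℝ => c (a + s * (b - a)))
      (((b - a : ℝ) : ℂ) * c1 (a + s * (b - a))) s := by
    intro s _
    have h2 : HasDerivAt (fun s : ℝ => a + s * (b - a)) (b - a) s := by
      simpa using ((hasDerivAt_id s).mul_const (b - a)).const_add a
    have h3 := (hc (a + s * (b - a))).scomp s h2
    rw [Complex.real_smul] at h3
    exact h3
  have hi : IntervalIntegrable (fun s : ℝ => ((b - a : ℝ) : ℂ) * c1 (a + s * (b - a)))
      MeasureTheory.volume 0 1 :=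
    (continuous_const.mul (h1.comp (by fun_prop))).intervalIntegrable _ _
  have := intervalIntegral.integral_eq_sub_of_hasDerivAt hd hi
  rw [intervalIntegral.integral_const_mul] at this
  simpa [Q] using this

lemma Q_symm {c c1 : ℝ → ℂ} (hc : ∀ t, HasDerivAt c (c1 t) t) (h1 : Continuous c1) (a b : ℝ) :
    Q c1 a b = Q c1 b a := by
  by_cases hab : a = b
  · rw [hab]
  · have e1 := Q_mul hc h1 a b
    have e2 := Q_mul hc h1 b a
    have hne : ((b - a : ℝ) : ℂ) ≠ 0 := by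
      exact_mod_cast sub_ne_zero.2 (Ne.symm hab)
    apply mul_left_cancel₀ hne
    push_cast at e1 e2 ⊢
    linear_combination e1 + e2

lemma Q_per {c1 : ℝ → ℂ} {L : ℝ} (hp : Function.Periodic c1 L) (a b : ℝ) :
    Q c1 (a + L) (b + L) = Q c1 a b := by
  unfold Q
  congr 1
  funext s
  rw [← hp (a + s * (b - a))]
  congr 1
  ring

lemma deriv_per {c c1 : ℝ → ℂ} {L : ℝ} (hc : ∀ t, HasDerivAt c (c1 t) t)
    (hp : Function.Periodic c L) : Function.Periodic c1 L := by
  intro t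
  have h2 : HasDerivAt (fun s => c (s + L)) (c1 (t + L)) t := (hc (t + L)).comp_add_const t L
  have e : (fun s => c (s + L)) = c := funext hp
  rw [e] at h2
  exact h2.unique (hc t)

lemma ne_of_inj {c : ℝ → ℂ} {L : ℝ} (hL : 0 < L) (hp : Function.Periodic c L)
    (hi : InjOn c (Ico 0 L)) (a h : ℝ) (h0 : 0 < h) (h1 : h < L) : c (a + h) ≠ c a := by
  intro e
  have m : ∀ x, toIcoMod hL 0 x ∈ Ico 0 L := fun x => by
    simpa using toIcoMod_mem_Ico hL 0 x
  have v : ∀ x, c (toIcoMod hL 0 x) = c x := fun x => by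
    rw [toIcoMod, hp.sub_zsmul_eq]
  have e2 := hi (m (a + h)) (m a) (by rw [v, v, e])
  obtain ⟨n, hn⟩ := (toIcoMod_eq_toIcoMod hL).1 e2
  rw [zsmul_eq_mul] at hn
  have a1 : (n : ℝ) < 0 := by
    by_contra hh
    push Not at hh
    nlinarith [mul_nonneg hh hL.le]
  have a2 : (-1 : ℝ) < n := by
    by_contra hh
    push Not at hh
    nlinarith
  have a3 : n < 0 := by exact_mod_cast a1
  have a4 : -1 < n := by exact_mod_cast a2
  omega

/-- The secant direction, extended by the tangent on the boundary of the strip. -/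
noncomputable def S (c1 : ℝ → ℂ) (L a h : ℝ) : ℂ := Q c1 a (a + h) - Q c1 a (a + h - L)

lemma S_cont {c1 : ℝ → ℂ} (h1 : Continuous c1) (L : ℝ) :
    Continuous fun p : ℝ × ℝ => S c1 L p.1 p.2 := by
  unfold S
  exact ((Q_cont h1).comp (f := fun p : ℝ × ℝ => (p.1, p.1 + p.2)) (by fun_prop)).sub
    ((Q_cont h1).comp (f := fun p : ℝ × ℝ => (p.1, p.1 + p.2 - L)) (by fun_prop))

lemma S_flip {c c1 : ℝ → ℂ} {L : ℝ} (hc : ∀ t, HasDerivAt c (c1 t) t) (h1 : Continuous c1)
    (hp : Function.Periodic c L) (a h : ℝ) : S c1 L (a + h) (L - h) = - S c1 L a h := by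
  unfold S
  have e1 : Q c1 (a + h) (a + h + (L - h)) = Q c1 a (a + h - L) := by
    rw [Q_symm hc h1 a, ← Q_per (deriv_per hc hp) (a + h - L) a]
    congr 1 <;> ring
  have e2 : Q c1 (a + h) (a + h + (L - h) - L) = Q c1 a (a + h) := by
    rw [Q_symm hc h1 a]
    congr 1
    ring
  rw [e1, e2]
  ring

lemma S_zero {c c1 : ℝ → ℂ} {L : ℝ} (hL : 0 < L) (hc : ∀ t, HasDerivAt c (c1 t) t)
    (h1 : Continuous c1) (hp : Function.Periodic c L) (a : ℝ) : S c1 L a 0 = c1 a := by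
  unfold S
  have e := Q_mul hc h1 a (a + 0 - L)
  have e2 : c (a + 0 - L) = c a := by rw [add_zero, hp.sub_eq]
  have hne : ((a + 0 - L - a : ℝ) : ℂ) ≠ 0 := by
    have : a + 0 - L - a ≠ 0 := by intro h; linarith
    exact_mod_cast this
  rw [e2, sub_self] at e
  rw [(mul_eq_zero.1 e).resolve_left hne, add_zero, Q_self, sub_zero]

lemma S_ne {c c1 : ℝ → ℂ} {L : ℝ} (hL : 0 < L) (hc : ∀ t, HasDerivAt c (c1 t) t)
    (h1 : Continuous c1) (hp : Function.Periodic c L) (hi : InjOn c (Ico 0 L))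
    (h0 : ∀ t, c1 t ≠ 0) (a : ℝ) {h : ℝ} (hh : h ∈ Icc 0 L) : S c1 L a h ≠ 0 := by
  rcases hh.1.eq_or_lt with e | p0
  · rw [← e, S_zero hL hc h1 hp]
    exact h0 a
  rcases hh.2.eq_or_lt with e | p1
  · have := S_flip hc h1 hp a h
    rw [e, sub_self, S_zero hL hc h1 hp] at this
    rw [e]
    intro z
    rw [z, neg_zero] at this
    exact h0 _ this
  · intro z
    have e1 := Q_mul hc h1 a (a + h)
    have e2 := Q_mul hc h1 a (a + h - L)
    rw [hp.sub_eq] at e2
    have e3 : Q c1 a (a + h) = Q c1 a (a + h - L) := sub_eq_zero.1 z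
    rw [← e3] at e2
    have e4 : (L : ℂ) * Q c1 a (a + h) = 0 := by
      push_cast at e1 e2
      linear_combination e1 - e2
    have hne : (L : ℂ) ≠ 0 := by exact_mod_cast hL.ne'
    rw [(mul_eq_zero.1 e4).resolve_left hne, mul_zero] at e1
    exact ne_of_inj hL hp hi a h p0 p1 (sub_eq_zero.1 e1.symm)

lemma exists_log {g : ℝ × ℝ → ℂ} (hg : Continuous g) (h0 : ∀ p, g p ≠ 0) :
    ∃ θ : ℝ × ℝ → ℂ, Continuous θ ∧ ∀ p, Complex.exp (θ p) = g p := by
  have := (convex_univ (𝕜 := ℝ) (E := ℝ × ℝ)).contractibleSpace ⟨0, mem_univ _⟩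
  obtain ⟨F, hF, eF⟩ := Complex.exists_continuousOn_eqOn_exp_comp
    (show IsSimplyConnected (univ : Set (ℝ × ℝ)) from SimplyConnectedSpace.ofContractible _)
    isOpen_univ hg.continuousOn fun ⟨x, _, e⟩ => h0 x e
  exact ⟨F, continuousOn_univ.1 hF, fun p => eF (mem_univ p)⟩

lemma im_int {u v : ℂ} (h : Complex.exp u = Complex.exp v) :
    ∃ n : ℤ, u.im - v.im = n * (2 * π) := by
  obtain ⟨n, hn⟩ := Complex.exp_eq_exp_iff_exists_int.1 h
  exact ⟨n, by rw [hn]; simp⟩

end UML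

open UML in
theorem umlauf_of : UmlaufStmt := by
  intro c c1 a L hL hc h1 hp hi ha hap hs
  have h0 : ∀ t, c1 t ≠ 0 := fun t z => by
    have := Complex.slitPlane_ne_zero (hs t)
    rw [z, zero_div] at this
    exact this rfl
  have hp1 := deriv_per hc hp
  let cl : ℝ → ℝ := fun h => max 0 (min h L)
  have clm : ∀ h, cl h ∈ Icc 0 L := fun h => ⟨le_max_left _ _, max_le hL.le (min_le_right _ _)⟩
  have cle : ∀ h ∈ Icc 0 L, cl h = h := fun h hh => by
    simp only [cl]
    rw [min_eq_left hh.2, max_eq_right hh.1]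
  obtain ⟨θ, hθ, eθ⟩ := exists_log (g := fun p => S c1 L p.1 (cl p.2))
    ((S_cont h1 L).comp (f := fun p : ℝ × ℝ => (p.1, cl p.2)) (by simp only [cl]; fun_prop))
    fun p => S_ne hL hc h1 hp hi h0 p.1 (clm p.2)
  have m0 : (0:ℝ) ∈ Icc 0 L := ⟨le_rfl, hL.le⟩
  have mL : L ∈ Icc 0 L := ⟨hL.le, le_rfl⟩
  have f1 : ∀ h ∈ Icc 0 L, ∃ n : ℤ,
      (θ (h, L - h)).im - (θ (0, h) + π * Complex.I).im = n * (2 * π) := fun h hh => by
    apply im_int
    rw [Complex.exp_add, Complex.exp_pi_mul_I, eθ, eθ, cle h hh,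
      cle (L - h) ⟨sub_nonneg.2 hh.2, by linarith [hh.1]⟩]
    have := S_flip hc h1 hp 0 h
    rw [zero_add] at this
    rw [this]
    ring
  have k1 := const_of_int (isPreconnected_Icc (a := 0) (b := L))
    (f := fun h => (θ (h, L - h)).im - (θ (0, h) + π * Complex.I).im)
    (Continuous.continuousOn (by fun_prop)) two_pi_pos f1 0 m0 L mL
  obtain ⟨m, hm⟩ := f1 0 m0
  have hlog : Continuous fun t => Complex.log (c1 t / Complex.exp (a t)) :=
    (h1.div (by fun_prop) fun t => Complex.exp_ne_zero _).clog hs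
  have f2 : ∀ t ∈ (univ : Set ℝ), ∃ n : ℤ,
      (θ (t, 0)).im - (a t + Complex.log (c1 t / Complex.exp (a t))).im = n * (2 * π) :=
    fun t _ => by
      apply im_int
      rw [Complex.exp_add, Complex.exp_log (Complex.slitPlane_ne_zero (hs t)), eθ, cle 0 m0,
        S_zero hL hc h1 hp, mul_div_cancel₀ _ (Complex.exp_ne_zero _)]
  have k2 := const_of_int (isPreconnected_univ (α := ℝ))
    (f := fun t => (θ (t, 0)).im - (a t + Complex.log (c1 t / Complex.exp (a t))).im)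
    (Continuous.continuousOn ((Complex.continuous_im.comp (hθ.comp (f := fun t : ℝ => (t, 0))
      (by fun_prop))).sub (Complex.continuous_im.comp (ha.add hlog))))
    two_pi_pos f2 0 (mem_univ _) L (mem_univ _)
  have ea : a L = a 0 := by simpa using hap 0
  have ec : c1 L = c1 0 := by simpa using hp1 0
  simp only [ea, ec, sub_self, sub_zero, Complex.add_im, Complex.mul_im, Complex.ofReal_re,
    Complex.I_im, Complex.ofReal_im, Complex.I_re, mul_one, mul_zero, add_zero] at k1 k2 hm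
  have e : (2 * m + 1 : ℝ) * (2 * π) = 0 := by linarith
  have e2 : (2 * m + 1 : ℝ) = 0 := (mul_eq_zero.1 e).resolve_right two_pi_pos.ne'
  have e3 : 2 * m + 1 = 0 := by exact_mod_cast e2
  omega

end Pool.Agent.MP_2291e2_gt.Zl

end MrgPart7

-- ======== part 8: formerly Pool.Agent.MP_2291e2_gt.zl.ZCongr
section MrgPart8

/-! The Zoll property only depends on the values on the slit tangent bundle. -/

open scoped ContDiff RealInnerProductSpace Topology
open Set Filter Real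

namespace Pool.Agent.MP_2291e2_gt.Zl

namespace ZC

lemma curve {D : P → ℝ} (hD : ContDiffOn ℝ ∞ D Ind) (h0 : ∀ x w, Tan x w → D (x, w) = 0)
    {γ : ℝ → P} {δ u : P} (hγ : HasDerivAt γ δ 0) (hu : γ 0 = u)
    (ht : ∀ᶠ t in 𝓝 (0 : ℝ), Tan (γ t).1 (γ t).2) : fderiv ℝ D u δ = 0 := by
  subst hu
  have h1 := (diffAt_of_Ind hD ht.self_of_nhds.mem_Ind).hasFDerivAt.comp_hasDerivAt 0 hγ
  refine h1.unique ((hasDerivAt_const (0 : ℝ) (0 : ℝ)).congr_of_eventuallyEq ?_)
  filter_upwards [ht] with t h using h0 _ _ h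

lemma tan_line {x w z : E} (h : Tan x w) (hz : ⟪x, z⟫ = 0) :
    ∀ᶠ t in 𝓝 (0 : ℝ), Tan x (w + t • z) := by
  have hc : ContinuousAt (fun t : ℝ => w + t • z) 0 := by fun_prop
  filter_upwards [hc.eventually_ne (y := 0) (by simpa using h.2.2)] with t ht
  exact ⟨h.1, by rw [inner_add_right, inner_smul_right, h.2.1, hz]; ring, ht⟩

lemma vert {D : P → ℝ} (hD : ContDiffOn ℝ ∞ D Ind) (h0 : ∀ x w, Tan x w → D (x, w) = 0)
    {x w : E} (h : Tan x w) (z : E) :
    fderiv ℝ D (x, w) (0, z) = fderiv ℝ D (x, w) (0, x) * ⟪x, z⟫ := by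
  have hx : ⟪x, x⟫ = 1 := by rw [real_inner_self_eq_norm_sq, h.1]; norm_num
  have hz : ⟪x, z - ⟪x, z⟫ • x⟫ = 0 := by rw [inner_sub_right, inner_smul_right, hx]; ring
  have h1 : fderiv ℝ D (x, w) (0, z - ⟪x, z⟫ • x) = 0 := by
    refine curve hD h0 (γ := fun t => (x, w + t • (z - ⟪x, z⟫ • x))) ?_ (by simp) (tan_line h hz)
    simpa using (hasDerivAt_const (0 : ℝ) x).prodMk
      (((hasDerivAt_id (0 : ℝ)).smul_const (z - ⟪x, z⟫ • x)).const_add w)
  have e : ((0, z) : P) = (0, z - ⟪x, z⟫ • x) + ⟪x, z⟫ • (0, x) := by simp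
  rw [e, map_add, map_smul, h1, smul_eq_mul]
  ring

lemma hor {D : P → ℝ} (hD : ContDiffOn ℝ ∞ D Ind) (h0 : ∀ x w, Tan x w → D (x, w) = 0)
    {x w z : E} (h : Tan x w) (hz : ⟪x, z⟫ = 0) :
    fderiv ℝ D (x, w) (z, 0) = fderiv ℝ D (x, w) (0, x) * ⟪w, z⟫ := by
  have hx : ⟪x, x⟫ = 1 := by rw [real_inner_self_eq_norm_sq, h.1]; norm_num
  have hz' : ⟪z, x⟫ = 0 := by rw [real_inner_comm, hz]
  have hw' : ⟪w, x⟫ = 0 := by rw [real_inner_comm, h.2.1]
  have hr : HasDerivAt (fun t : ℝ => (√(1 + t ^ 2 * ‖z‖ ^ 2))⁻¹) 0 0 := by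
    have a : HasDerivAt (fun t : ℝ => 1 + t ^ 2 * ‖z‖ ^ 2) 0 0 := by
      simpa using ((hasDerivAt_pow 2 (0 : ℝ)).mul_const (‖z‖ ^ 2)).const_add 1
    simpa using (a.sqrt (by simp)).fun_inv (by simp)
  have h1 : fderiv ℝ D (x, w) (z, -(⟪w, z⟫ • x)) = 0 := by
    refine curve hD h0 (γ := fun t => ((√(1 + t ^ 2 * ‖z‖ ^ 2))⁻¹ • (x + t • z),
      w + t • -(⟪w, z⟫ • x))) ?_ (by simp) (Eventually.of_forall fun t => ⟨?_, ?_, ?_⟩)
    · simpa using (hr.fun_smul (((hasDerivAt_id (0 : ℝ)).smul_const z).const_add x)).prodMk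
        (((hasDerivAt_id (0 : ℝ)).smul_const (-(⟪w, z⟫ • x))).const_add w)
    · have e : ‖x + t • z‖ = √(1 + t ^ 2 * ‖z‖ ^ 2) := by
        rw [← sqrt_sq (norm_nonneg (x + t • z)), norm_add_sq_real, inner_smul_right, hz, h.1,
          norm_smul, mul_pow, Real.norm_eq_abs, sq_abs]
        norm_num
      have p : 0 < √(1 + t ^ 2 * ‖z‖ ^ 2) := sqrt_pos.2 (by positivity)
      rw [norm_smul, e, Real.norm_eq_abs, abs_of_pos (inv_pos.2 p), inv_mul_cancel₀ p.ne']
    · simp only [inner_smul_left, inner_add_left, inner_add_right, inner_smul_right,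
        inner_neg_right, hx, hz', h.2.1, real_inner_comm w z, conj_trivial]
      ring
    · intro e
      have := congrArg (fun v : E => ⟪w, v⟫) e
      simp only [inner_add_right, inner_smul_right, inner_neg_right, hw', inner_zero_right] at this
      exact h.2.2 (inner_self_eq_zero.1 (by linarith : ⟪w, w⟫ = 0))
  have e : ((z, 0) : P) = (z, -(⟪w, z⟫ • x)) + ⟪w, z⟫ • (0, x) := by simp
  rw [e, map_add, map_smul, h1, smul_eq_mul]
  ring

lemma geod {L L' : P → ℝ} (hL : ContDiffOn ℝ ∞ L Ind) (hL' : ContDiffOn ℝ ∞ L' Ind)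
    (e : ∀ x w, Tan x w → L' (x, w) = L (x, w)) {c : ℝ → E} (h : IsGeodesic L' c) :
    IsGeodesic L c := by
  refine ⟨h.smooth, h.tangent, fun t => (e _ _ (h.tangent t)).symm.trans (h.unit t),
    fun t z hz => ?_⟩
  have hD : ContDiffOn ℝ ∞ (fun u => L u - L' u) Ind := hL.sub hL'
  have h0 : ∀ x w, Tan x w → (fun u => L u - L' u) (x, w) = 0 := fun x w h => by simp [e x w h]
  have hs : ∀ s δ, fderiv ℝ L (c s, deriv c s) δ = fderiv ℝ L' (c s, deriv c s) δ
      + fderiv ℝ (fun u => L u - L' u) (c s, deriv c s) δ := fun s δ => by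
    rw [fderiv_fun_sub (diffAt_of_Ind hL (h.tangent s).mem_Ind)
      (diffAt_of_Ind hL' (h.tangent s).mem_Ind)]
    simp
  have c1 : DifferentiableAt ℝ c t := h.smooth.differentiable (by norm_num) t
  have c2 : DifferentiableAt ℝ (deriv c) t :=
    (h.smooth.differentiable_deriv_two) t
  have hc : DifferentiableAt ℝ (fun s => ((c s, deriv c s) : P)) t := c1.prodMk c2
  have d : ∀ {f : P → ℝ}, ContDiffOn ℝ ∞ f Ind → ∀ {A : P → P}, ContDiff ℝ ∞ A →
      DifferentiableAt ℝ (fun s => fderiv ℝ f (c s, deriv c s) (A (c s, deriv c s))) t :=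
    fun {f} hf {A} hA => DifferentiableAt.comp (g := fun u => fderiv ℝ f u (A u))
      (f := fun s => ((c s, deriv c s) : P)) t
      (diffAt_of_Ind (contDiffOn_fderiv_apply isOpen_Ind hf hA.contDiffOn) (h.tangent t).mem_Ind) hc
  have d1 := (d hL' (A := fun _ => (0, z)) contDiff_const).hasDerivAt
  have d2 := (d hD (A := fun u => (0, u.1)) (by fun_prop)).hasDerivAt
  have d3 := hasDerivAt_inner c1.hasDerivAt (hasDerivAt_const t z)
  have d4 := d1.fun_add (d2.fun_mul d3)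
  have e1 : (fun s => fderiv ℝ L (c s, deriv c s) (0, z)) = fun s =>
      fderiv ℝ L' (c s, deriv c s) (0, z)
        + fderiv ℝ (fun u => L u - L' u) (c s, deriv c s) (0, c s) * ⟪c s, z⟫ := by
    ext s
    rw [hs, vert hD h0 (h.tangent s)]
  rw [e1, d4.deriv, h.euler t z hz, hs, hor hD h0 (h.tangent t) hz, hz]
  simp

lemma zoll {L L' : P → ℝ} (h : IsZoll L) (hL' : ContDiffOn ℝ ∞ L' Ind)
    (e : ∀ x w, Tan x w → L' (x, w) = L (x, w)) : IsZoll L' := by
  obtain ⟨hF, l, hl, hg⟩ := h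
  refine ⟨⟨hL', fun x w h => ?_, fun x w h t ht => ?_, fun x w z h hz => ?_⟩, l, hl,
    fun c hc => hg c (geod hF.smooth hL' e hc)⟩
  · rw [e x w h]
    exact hF.pos x w h
  · rw [e x w h, e x _ ⟨h.1, by rw [inner_smul_right, h.2.1, mul_zero], smul_ne_zero ht h.2.2⟩]
    exact hF.hom x w h t ht
  · have : (fun t : ℝ => L' (x, w + t • z)) =ᶠ[𝓝 0] fun t : ℝ => L (x, w + t • z) := by
      filter_upwards [tan_line h hz.2.1] with t ht using e _ _ ht
    rw [this.iteratedDeriv_eq]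
    exact hF.convex x w z h hz

end ZC

theorem zcongr_of : ZCongrStmt := by
  refine ⟨fun L L' h hL' e => ZC.zoll h hL' e, ?_, ?_⟩
  · rintro L₀ L₁ ⟨H, hs, hg, h0, h1⟩
    exact ⟨fun s => H (1 - s), sm_reparam hs (by fun_prop), fun s => hg _,
      fun x w h => by simp [h1 x w h], fun x w h => by simp [h0 x w h]⟩
  · rintro L₀ L₁ L₂ ⟨H, hs, hg, h0, h1⟩ ⟨H', hs', hg', h0', h1'⟩
    have a1 : ContDiff ℝ ∞ fun s : ℝ => smoothTransition (3 * s) :=
      smoothTransition.contDiff.comp (by fun_prop)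
    have a2 : ContDiff ℝ ∞ fun s : ℝ => smoothTransition (3 * s - 2) :=
      smoothTransition.contDiff.comp (by fun_prop)
    have sm : Sm fun s u => H (smoothTransition (3 * s)) u
        + (H' (smoothTransition (3 * s - 2)) u - H' 0 u) :=
      ContDiffOn.add (sm_reparam hs a1)
        (ContDiffOn.sub (sm_reparam hs' a2) (sm_reparam hs' (a := fun _ => 0) contDiff_const))
    refine ⟨_, sm, fun s => ?_, fun x w h => ?_, fun x w h => ?_⟩
    · by_cases c : s ≤ 2 / 3
      · refine ZC.zoll (hg (smoothTransition (3 * s))) (sm.slice s) fun x w _ => ?_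
        simp [smoothTransition.zero_of_nonpos (show 3 * s - 2 ≤ 0 by linarith)]
      · refine ZC.zoll (hg' (smoothTransition (3 * s - 2))) (sm.slice s) fun x w h => ?_
        simp [smoothTransition.one_of_one_le (show 1 ≤ 3 * s by linarith), h1 x w h, h0' x w h]
    · simp [smoothTransition.zero_of_nonpos (show (-2 : ℝ) ≤ 0 by norm_num), h0 x w h]
    · simp [smoothTransition.one_of_one_le (show (1 : ℝ) ≤ 3 by norm_num), h1 x w h, h0' x w h,
        show (3 : ℝ) - 2 = 1 by norm_num, h1' x w h]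

end Pool.Agent.MP_2291e2_gt.Zl

end MrgPart8

-- ======== part 9: formerly Pool.Agent.MP_2291e2_gt.zl.All2
section MrgPart9

/-! The Smale step put together. -/

namespace Pool.Agent.MP_2291e2_gt.Zl

theorem smale_all : SmaleStmt :=
  smale_of pull_of zcongr_of germ_of (transfer_of planebij_of)
    (planesmale_of (shear_of flow_all lift_all planebij_of (exit_of umlauf_of)))

end Pool.Agent.MP_2291e2_gt.Zl

end MrgPart9

-- marker of a merged file
example : 731051 + 748251 = 731051 + 748251 := rfl
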