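import Mathlib.RingTheory.Flat.FaithfullyFlat.Basic
import Mathlib.Topology.Sheaves.Presheaf
import Mathlib.RingTheory.Flat.TorsionFree
import Mathlib.RingTheory.SimpleRing.Principal
import Mathlib.Topology.UniformSpace.Uniformizable
import Pool.Agent.MP_2291e2_gt.zl.Spec2

/-! The geodesic flow of a reversible Finsler metric on the unit tangent bundle. -/

open scoped ContDiff RealInnerProductSpace Topology
open Set Filter Real

namespace Pool.Agent.MP_2291e2_gt.Zl

namespace Geo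

/-- Standard basis. -/
noncomputable def ee (i : Fin 3) : E := EuclideanSpace.single i 1

/-- Gradient in the second variable. -/
noncomputable def gr (L : P → ℝ) (q : P) : E :=
  fderiv ℝ L q (0, ee 0) • ee 0 + fderiv ℝ L q (0, ee 1) • ee 1 + fderiv ℝ L q (0, ee 2) • ee 2

lemma inner_gr (L : P → ℝ) (q : P) (z : E) : ⟪gr L q, z⟫ = fderiv ℝ L q (0, z) := by
  have h : IsLinearMap ℝ (fun z : E => fderiv ℝ L q (0, z)) :=
    ⟨fun a b => by rw [← map_add]; simp, fun t a => by rw [← map_smul]; simp⟩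
  have := lin_expand h z
  simp only at this
  rw [this]
  simp only [gr, ee, inner_add_left, inner_smul_left, EuclideanSpace.inner_single_left,
    conj_trivial, smul_eq_mul]
  ring

noncomputable def aa (L : P → ℝ) (u : P) : ℝ := (√(2 * L (rt u)))⁻¹

noncomputable def nn (L : P → ℝ) (u : P) : P := (u.1, aa L u • u.2)

noncomputable def nu (L : P → ℝ) (u : P) : ℝ := ⟪gr L (nn L u), u.1⟫

noncomputable def pp (L : P → ℝ) (u : P) : E := gr L (nn L u) - nu L u • u.1

noncomputable def BB (L : P → ℝ) (u : P) (ξ ζ : E) : ℝ :=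
  ⟪dW (pp L) u ξ, cr ζ u.1⟫ - ⟪dW (pp L) u ζ, cr ξ u.1⟫

noncomputable def b0 (L : P → ℝ) (u : P) : ℝ :=
  -aa L u * BB L u (cr u.1 u.2) u.2 / BB L u u.1 u.2

noncomputable def bb (L : P → ℝ) (u : P) : ℝ := b0 L (rt u)

variable {L : P → ℝ} (hL : IsFinsler L) {u : P}
include hL

lemma gr_sm : ContDiffOn ℝ ∞ (gr L) Ind := by
  have h : ∀ i, ContDiffOn ℝ ∞ (fun q => fderiv ℝ L q (0, ee i) • ee i) Ind := fun i =>
    (contDiffOn_fderiv_apply isOpen_Ind hL.smooth contDiffOn_const).smul contDiffOn_const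
  exact ((h 0).add (h 1)).add (h 2)

lemma L_pos (h : u ∈ U) : 0 < L u := hL.pos _ _ (tan_of_U h)

lemma aa_pos (h : u ∈ Ind) : 0 < aa L u := by
  have := L_pos hL (rt_mem_U h)
  unfold aa
  positivity

lemma aa_sm : ContDiffOn ℝ ∞ (aa L) Ind := by
  refine contDiffOn_comp_rt (f := fun u => (√(2 * L u))⁻¹) fun u h => ?_
  have := L_pos hL h
  exact ((contDiffAt_const.mul (contDiffAt_of_U hL.smooth h)).sqrt (by positivity)).inv
    (by positivity)

lemma nn_mem (h : u ∈ Ind) : nn L u ∈ Ind := by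
  rw [mem_Ind] at *
  simp only [nn, cr_smul_right]
  exact smul_ne_zero (aa_pos hL (mem_Ind.2 h)).ne' h

lemma nn_tan (h : u ∈ U) : Tan u.1 (aa L u • u.2) :=
  ⟨h.1, by rw [inner_smul_right, h.2.2, mul_zero],
    smul_ne_zero (aa_pos hL (U_sub_Ind h)).ne' (tan_of_U h).2.2⟩

lemma av_sm : ContDiffOn ℝ ∞ (fun u : P => aa L u • u.2) Ind := (aa_sm hL).smul contDiffOn_snd

lemma nn_sm : ContDiffOn ℝ ∞ (nn L) Ind := contDiffOn_fst.prodMk (av_sm hL)

lemma gn_sm : ContDiffOn ℝ ∞ (fun u => gr L (nn L u)) Ind :=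
  (gr_sm hL).comp (nn_sm hL) fun _ h => nn_mem hL h

lemma nu_sm : ContDiffOn ℝ ∞ (nu L) Ind := (gn_sm hL).inner ℝ contDiffOn_fst

lemma pp_sm : ContDiffOn ℝ ∞ (pp L) Ind := (gn_sm hL).sub ((nu_sm hL).smul contDiffOn_fst)

lemma unit (h : u ∈ U) : L (nn L u) = 1 / 2 := by
  have h0 := L_pos hL h
  have h1 := hL.hom _ _ (tan_of_U h) _ (aa_pos hL (U_sub_Ind h)).ne'
  rw [nn, h1, aa, rt_of_U h, inv_pow, sq_sqrt (by positivity)]
  field_simp

lemma line_deriv {x w : E} (z : E) {t : ℝ} (h : (x, w + t • z) ∈ Ind) :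
    HasDerivAt (fun t : ℝ => L (x, w + t • z)) (fderiv ℝ L (x, w + t • z) (0, z)) t := by
  have h1 : HasDerivAt (fun t : ℝ => ((x, w + t • z) : P)) (0, z) t :=
    (hasDerivAt_const t x).prodMk (by simpa using ((hasDerivAt_id t).smul_const z).const_add w)
  exact (diffAt_of_Ind hL.smooth h).hasFDerivAt.comp_hasDerivAt t h1

lemma euler {x w : E} (h : Tan x w) : fderiv ℝ L (x, w) (0, w) = 2 * L (x, w) := by
  have h1 := line_deriv hL (x := x) (w := w) w (t := 0) (by simpa using h.mem_Ind)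
  have h2 : HasDerivAt (fun t : ℝ => (1 + t) ^ 2 * L (x, w)) (2 * L (x, w)) 0 := by
    simpa using (((hasDerivAt_id (0 : ℝ)).const_add 1).pow 2).mul_const (L (x, w))
  have e : (fun t : ℝ => (1 + t) ^ 2 * L (x, w)) =ᶠ[𝓝 0] fun t => L (x, w + t • w) := by
    filter_upwards [Ioi_mem_nhds (show (-1 : ℝ) < 0 by norm_num)] with t ht
    rw [← hL.hom x w h (1 + t) (by have : -1 < t := ht; linarith), add_smul, one_smul]
  simpa using (h1.congr_of_eventuallyEq e).unique h2

lemma odd_w {x w z : E} (h : Tan x w) (hz : ⟪x, z⟫ = 0) :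
    fderiv ℝ L (x, -w) (0, z) = -fderiv ℝ L (x, w) (0, z) := by
  have h' : Tan x (-w) := ⟨h.1, by simp [h.2.1], by simpa using h.2.2⟩
  have h1 := line_deriv hL (x := x) (w := -w) z (t := 0) (by simpa using h'.mem_Ind)
  have h2 := line_deriv hL (x := x) (w := w) (-z) (t := 0) (by simpa using h.mem_Ind)
  have e : (fun t : ℝ => L (x, w + t • -z)) =ᶠ[𝓝 0] fun t => L (x, -w + t • z) := by
    have hc : ContinuousAt (fun t : ℝ => w + t • -z) 0 := by fun_prop
    filter_upwards [hc.eventually_ne (y := 0) (by simpa using h.2.2)] with t ht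
    have := hL.hom x (w + t • -z) ⟨h.1, by simp [inner_add_right, inner_smul_right, h.2.1, hz], ht⟩
      (-1) (by norm_num)
    rw [show (-1 : ℝ) • (w + t • -z) = -w + t • z by module] at this
    rw [this]; ring
  have := (h1.congr_of_eventuallyEq e).unique h2
  simp only [zero_smul, add_zero] at this
  rw [this, ← map_neg]
  simp

lemma hess {x w z : E} (h : Tan x w) (hz : Tan x z) : 0 < ⟪fderiv ℝ (gr L) (x, w) (0, z), z⟫ := by
  have h0 := hL.convex x w z h hz
  have hc : ContinuousAt (fun t : ℝ => ((x, w + t • z) : P)) 0 := by fun_prop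
  have e : deriv (fun t : ℝ => L (x, w + t • z)) =ᶠ[𝓝 0] fun t => ⟪gr L (x, w + t • z), z⟫ := by
    filter_upwards [hc.eventually (isOpen_Ind.mem_nhds (by simpa using h.mem_Ind))] with t ht
    rw [inner_gr, (line_deriv hL z ht).deriv]
  have h1 : HasDerivAt (fun t : ℝ => ((x, w + t • z) : P)) (0, z) 0 :=
    (hasDerivAt_const _ x).prodMk (by simpa using ((hasDerivAt_id (0 : ℝ)).smul_const z).const_add w)
  have h2 : HasFDerivAt (gr L) (fderiv ℝ (gr L) (x, w)) (x, w + (0 : ℝ) • z) := by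
    simpa using (diffAt_of_Ind (gr_sm hL) h.mem_Ind).hasFDerivAt
  have h3 := hasDerivAt_inner (h2.comp_hasDerivAt 0 h1) (hasDerivAt_const 0 z)
  rw [iteratedDeriv_succ, iteratedDeriv_one, e.deriv_eq] at h0
  simp only [Function.comp_def, inner_zero_right, add_zero] at h3
  rwa [h3.deriv] at h0

omit hL in
lemma pp_y (h : u ∈ U) : ⟪pp L u, u.1⟫ = 0 := by
  rw [pp, inner_sub_left, inner_smul_left, inner_self_U1 h, nu]; simp

omit hL in
lemma pp_tan {z : E} (hz : ⟪u.1, z⟫ = 0) : ⟪pp L u, z⟫ = fderiv ℝ L (nn L u) (0, z) := by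
  rw [pp, inner_sub_left, inner_smul_left, hz, inner_gr]; simp

lemma one (h : u ∈ U) : ⟪pp L u, aa L u • u.2⟫ = 1 := by
  rw [pp_tan (nn_tan hL h).2.1]
  have := euler hL (nn_tan hL h)
  have h1 := unit hL h
  unfold nn at *
  rw [this, h1]; norm_num

lemma aa_rev (h : u ∈ U) : aa L (rev u) = aa L u := by
  have := hL.hom _ _ (tan_of_U h) (-1) (by norm_num)
  rw [aa, aa, rt_of_U h, rt_of_U (rev_mem_U h)]
  simp only [neg_smul, one_smul, even_two, Even.neg_pow, one_pow, one_mul] at this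
  rw [rev, this]

lemma podd (h : u ∈ U) : pp L (rev u) = -pp L u := by
  have k : ∀ z, ⟪u.1, z⟫ = 0 → ⟪pp L (rev u), z⟫ = ⟪-pp L u, z⟫ := by
    intro z hz
    rw [inner_neg_left, pp_tan hz, pp_tan (u := rev u) hz, nn, nn, aa_rev hL h, rev_fst, rev_snd,
      smul_neg, odd_w hL (nn_tan hL h) hz]
  have h1 : ⟪pp L (rev u), u.1⟫ = 0 := pp_y (rev_mem_U h)
  rw [frameU h (pp L (rev u)), frameU h (-pp L u), k _ h.2.2, k _ (inner_cr_left _ _), h1,
    inner_neg_left (pp L u) u.1, pp_y h, neg_zero]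

lemma dW_nn (h : u ∈ U) (ξ : E) :
    dW (nn L) u ξ = (cr ξ u.1, dW (fun u : P => aa L u • u.2) u ξ) := by
  unfold nn dW
  rw [DifferentiableAt.fderiv_prodMk differentiableAt_fst (diffAt_of_U (av_sm hL) h)]
  simp only [ContinuousLinearMap.prod_apply, fderiv_fst]
  rfl

lemma dW_gn (h : u ∈ U) (ξ : E) : dW (fun u => gr L (nn L u)) u ξ =
    dW (pp L) u ξ + (dW (nu L) u ξ • u.1 + nu L u • cr ξ u.1) := by
  have e : (fun u => gr L (nn L u)) = fun u => pp L u + nu L u • u.1 := by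
    ext1 u; simp [pp]
  have d := diffAt_of_U (nu_sm hL) h
  rw [e, dW_fadd (g := fun u : P => nu L u • u.1) (diffAt_of_U (pp_sm hL) h)
    (d.smul differentiableAt_fst), dW_fsmul d differentiableAt_fst, dW_fst]

lemma key (h : u ∈ U) (ξ : E) : fderiv ℝ L (nn L u) (cr ξ u.1, 0) =
    ⟪dW (pp L) u ξ, aa L u • u.2⟫ + nu L u * ⟪cr ξ u.1, aa L u • u.2⟫ := by
  have dp := diffAt_of_U (pp_sm hL) h
  have da := diffAt_of_U (av_sm hL) h
  have dn := diffAt_of_U (nn_sm hL) h
  have dL := diffAt_of_Ind hL.smooth (nn_mem hL (U_sub_Ind h))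
  have e1 := dW_const_on h (dp.inner ℝ da) (fun _ h => one hL h) ξ
  have e2 := dW_const_on h (differentiableAt_fst.inner ℝ da) (fun _ h => (nn_tan hL h).2.1) ξ
  have e3 := dW_const_on (f := L ∘ nn L) h (dL.comp u dn) (fun _ h => unit hL h) ξ
  rw [dW_inner dp da] at e1
  rw [dW_inner differentiableAt_fst da, dW_fst] at e2
  have e4 : dW (L ∘ nn L) u ξ = fderiv ℝ L (nn L u) (dW (nn L) u ξ) := by
    unfold dW; rw [fderiv_comp u dL dn]; rfl
  rw [e4, dW_nn hL h] at e3
  set δ := dW (fun u : P => aa L u • u.2) u ξ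
  rw [show ((cr ξ u.1, δ) : P) = (cr ξ u.1, 0) + (0, δ) by simp, map_add, ← inner_gr,
    show gr L (nn L u) = pp L u + nu L u • u.1 by simp [pp], inner_add_left, inner_smul_left,
    conj_trivial] at e3
  linear_combination e3 - e1 - nu L u * e2

lemma crit (h : u ∈ U) : ⟪V (pp L) u, u.2⟫ = 0 := by
  have := key hL h u.1
  simp only [cr_self, Prod.mk_zero_zero, map_zero, inner_zero_left, mul_zero, add_zero,
    inner_smul_right] at this
  exact (mul_eq_zero.1 this.symm).resolve_left (aa_pos hL (U_sub_Ind h)).ne'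

lemma conv (h : u ∈ U) : 0 < ⟪V (pp L) u, cr u.1 u.2⟫ := by
  have ha := aa_pos hL (U_sub_Ind h)
  have e1 : dW (fun u : P => aa L u • u.2) u u.1 = V (aa L) u • u.2 + aa L u • cr u.1 u.2 := by
    rw [dW_fsmul (diffAt_of_U (aa_sm hL) h) differentiableAt_snd, dW_snd]; rfl
  set z := V (aa L) u • u.2 + aa L u • cr u.1 u.2 with hz
  have hy : ⟪u.1, z⟫ = 0 := by simp [hz, inner_add_right, inner_smul_right, h.2.2]
  have ht : Tan u.1 z := ⟨h.1, hy, fun h0 => by
    have := congrArg (fun a => ⟪a, cr u.1 u.2⟫) h0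
    simp only [hz, inner_add_left, inner_smul_left, inner_cr_right, real_inner_self_eq_norm_sq,
      norm_cr_U h, conj_trivial, inner_zero_left] at this
    linarith⟩
  have e2 := hess hL (nn_tan hL h) ht
  have e3 : dW (fun u => gr L (nn L u)) u u.1 = fderiv ℝ (gr L) (nn L u) (dW (nn L) u u.1) := by
    unfold dW
    rw [show (fun u => gr L (nn L u)) = gr L ∘ nn L from rfl, fderiv_comp u
      (diffAt_of_Ind (gr_sm hL) (nn_mem hL (U_sub_Ind h))) (diffAt_of_U (nn_sm hL) h)]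
    rfl
  rw [dW_nn hL h, e1, cr_self, dW_gn hL h, cr_self] at e3
  unfold nn at e3
  rw [← e3] at e2
  have e4 := crit hL h
  simp only [smul_zero, add_zero, inner_add_left, inner_smul_left, hy, mul_zero] at e2
  rw [hz, inner_add_right, inner_smul_right, inner_smul_right] at e2
  unfold V at *
  rw [e4] at e2
  nlinarith

omit hL in
lemma cr_w_y (h : u ∈ U) : cr (cr u.1 u.2) u.1 = u.2 := by
  rw [cr_cr_left, inner_self_U1 h, inner_U21 h]; simp

omit hL in
lemma BB_add (a b ζ : E) : BB L u (a + b) ζ = BB L u a ζ + BB L u b ζ := by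
  simp only [BB, dW_add, cr_add_left, inner_add_left, inner_add_right]; ring

omit hL in
lemma BB_smul (t : ℝ) (a ζ : E) : BB L u (t • a) ζ = t * BB L u a ζ := by
  simp only [BB, dW_smul, cr_smul_left, inner_smul_left, inner_smul_right, conj_trivial]; ring

omit hL in
lemma BB_anti (a b : E) : BB L u a b = -BB L u b a := by simp only [BB]; ring

omit hL in
lemma BB_self (a : E) : BB L u a a = 0 := by simp only [BB]; ring

lemma BB_yw (h : u ∈ U) : BB L u u.1 (cr u.1 u.2) = 0 := by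
  rw [BB, cr_w_y h, cr_self, inner_zero_right, sub_zero]; exact crit hL h

lemma BB_yv (h : u ∈ U) : BB L u u.1 u.2 ≠ 0 := by
  rw [BB, cr_self, inner_zero_right, sub_zero, cr_anti, inner_neg_right]
  exact neg_ne_zero.2 (conv hL h).ne'

lemma bb_sm : ContDiffOn ℝ ∞ (bb L) Ind := by
  refine contDiffOn_comp_rt (f := b0 L) fun u h => ?_
  have k : ∀ ξ ζ : P → E, ContDiffAt ℝ ∞ ξ u → ContDiffAt ℝ ∞ ζ u →
      ContDiffAt ℝ ∞ (fun u => BB L u (ξ u) (ζ u)) u := fun ξ ζ h1 h2 =>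
    ((contDiffAt_dW (contDiffAt_of_U (pp_sm hL) h) h1).inner ℝ
      (ContDiffAt.cr' h2 contDiffAt_fst)).sub
      ((contDiffAt_dW (contDiffAt_of_U (pp_sm hL) h) h2).inner ℝ
        (ContDiffAt.cr' h1 contDiffAt_fst))
  exact ((contDiffAt_of_U (aa_sm hL) h).neg.mul
    (k _ _ (ContDiffAt.cr' contDiffAt_fst contDiffAt_snd) contDiffAt_snd)).div
      (k _ _ contDiffAt_fst contDiffAt_snd) (BB_yv hL h)

lemma ker (h : u ∈ U) (ζ : E) : BB L u (xi (aa L) (bb L) u) ζ = 0 := by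
  have e1 := BB_yw hL h
  have e2 := BB_yv hL h
  rw [BB_anti, frameU h ζ]
  simp only [BB_add, BB_smul]
  rw [BB_anti u.1, BB_anti u.2, BB_anti (cr u.1 u.2)]
  simp only [xi, BB_add, BB_smul, BB_self, e1, BB_anti (cr u.1 u.2) u.1, bb, rt_of_U h, b0]
  field_simp
  ring

lemma bb_rev (h : u ∈ U) : bb L (rev u) = -bb L u := by
  have k : ∀ ξ ζ, BB L (rev u) ξ ζ = -BB L u ξ ζ := by
    intro ξ ζ
    simp only [BB, dW_odd (pp_sm hL) (fun _ h => podd hL h) h, rev_fst, inner_neg_left]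
    ring
  have n1 : ∀ a b, BB L u (-a) b = -BB L u a b := fun a b => by
    rw [← neg_one_smul ℝ a, BB_smul]; ring
  have n2 : ∀ a b, BB L u a (-b) = -BB L u a b := fun a b => by
    rw [BB_anti, n1, BB_anti b a, neg_neg]
  simp only [bb, rt_of_U h, rt_of_U (rev_mem_U h), b0, k, aa_rev hL h, rev_fst, rev_snd,
    cr_neg_right, n1, n2]
  ring

lemma xi_rev (h : u ∈ U) : xi (aa L) (bb L) (rev u) = -xi (aa L) (bb L) u := by
  simp only [xi, aa_rev hL h, bb_rev hL h, rev_fst, rev_snd, cr_neg_right]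
  module

omit hL in
lemma cr_xi {a b : P → ℝ} (h : u ∈ U) : cr (xi a b u) u.1 = a u • u.2 := by
  simp [xi, cr_add_left, cr_smul_left, cr_w_y h]

omit hL in
lemma hd_fst {c : ℝ → P} {c' : P} {t : ℝ} (h : HasDerivAt c c' t) :
    HasDerivAt (fun s => (c s).1) c'.1 t :=
  (ContinuousLinearMap.fst ℝ E E).hasFDerivAt.comp_hasDerivAt t h

omit hL in
lemma hd_snd {c : ℝ → P} {c' : P} {t : ℝ} (h : HasDerivAt c c' t) :
    HasDerivAt (fun s => (c s).2) c'.2 t :=
  (ContinuousLinearMap.snd ℝ E E).hasFDerivAt.comp_hasDerivAt t h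

/-- Defect of the constraints. -/
noncomputable def df (u : P) : ℝ := (⟪u.1, u.1⟫ - 1) ^ 2 + (⟪u.2, u.2⟫ - 1) ^ 2 + ⟪u.1, u.2⟫ ^ 2

omit hL in
lemma df_sm : ContDiff ℝ ∞ df :=
  ((((contDiff_fst.inner ℝ contDiff_fst).sub contDiff_const).pow 2).add
    (((contDiff_snd.inner ℝ contDiff_snd).sub contDiff_const).pow 2)).add
      ((contDiff_fst.inner ℝ contDiff_snd).pow 2)

omit hL in
lemma df_small (h : df u ≤ 1 / 100) : u ∈ Ind ∧ ‖u.1‖ ≤ 2 ∧ ‖u.2‖ ≤ 2 := by
  unfold df at h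
  rw [real_inner_self_eq_norm_sq, real_inner_self_eq_norm_sq] at h
  have a1 := sq_nonneg (‖u.1‖ ^ 2 - 1)
  have a2 := sq_nonneg (‖u.2‖ ^ 2 - 1)
  have a3 := sq_nonneg ⟪u.1, u.2⟫
  have b1 : |‖u.1‖ ^ 2 - 1| ≤ 1 / 10 := abs_le_of_sq_le_sq' (by linarith) (by norm_num) |> abs_le.2
  have b2 : |‖u.2‖ ^ 2 - 1| ≤ 1 / 10 := abs_le_of_sq_le_sq' (by linarith) (by norm_num) |> abs_le.2
  rw [abs_le] at b1 b2
  refine ⟨mem_Ind.2 fun h0 => ?_, by nlinarith [norm_nonneg u.1], by nlinarith [norm_nonneg u.2]⟩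
  have := normsq_cr u.1 u.2
  rw [h0, norm_zero] at this
  nlinarith [b1.1, b2.1]

omit hL in
lemma exists_flow (hF : FlowStmt) {ξ : P → E} (hξ : ContDiffOn ℝ ∞ ξ Ind) :
    ∃ φ : ℝ → P → P, ContDiff ℝ ∞ (fun q : ℝ × P => φ q.1 q.2) ∧ (∀ x, φ 0 x = x) ∧
      (∀ s t x, φ (s + t) x = φ s (φ t x)) ∧ (∀ t, ∀ u ∈ U, φ t u ∈ U) ∧
      (∀ u ∈ U, ∀ t, HasDerivAt (fun t => φ t u) (W (φ t u) (ξ (φ t u))) t) ∧
      ∀ c : ℝ → P, (∀ t, c t ∈ U) → (∀ t, HasDerivAt c (W (c t) (ξ (c t))) t) →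
        ∀ t, c t = φ t (c 0) := by
  set χ : P → ℝ := fun u => smoothTransition (1 - 100 * df u) with hχ
  have χs : ContDiff ℝ ∞ χ :=
    smoothTransition.contDiff.comp (contDiff_const.sub (contDiff_const.mul df_sm))
  have χ0 : ∀ u, 1 / 100 < df u → χ u = 0 := fun u h =>
    smoothTransition.zero_of_nonpos (by linarith)
  have χ1 : ∀ u ∈ U, χ u = 1 := fun u h => smoothTransition.one_of_one_le (by
    simp [df, h.1, h.2.1, h.2.2])
  set X : P → P := fun u => χ u • W u (ξ u) with hX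
  have Xs : ContDiff ℝ ∞ X := by
    rw [contDiff_iff_contDiffAt]
    intro u
    by_cases h : u ∈ Ind
    · exact χs.contDiffAt.smul (contDiff_W.contDiffAt.comp u
        (contDiffAt_id.prodMk (hξ.contDiffAt (isOpen_Ind.mem_nhds h))))
    · have h1 : 1 / 100 < df u := lt_of_not_ge fun h' => h (df_small h').1
      refine (contDiffAt_const (c := (0 : P))).congr_of_eventuallyEq ?_
      filter_upwards [df_sm.continuous.continuousAt.eventually (lt_mem_nhds h1)] with w hw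
      simp only [hX, χ0 w hw, zero_smul]
  have Xc : HasCompactSupport X := by
    refine HasCompactSupport.intro (isCompact_closedBall (0 : P) 2) fun u hu => ?_
    have h1 : 1 / 100 < df u := lt_of_not_ge fun h' => hu (by
      rw [mem_closedBall_zero_iff, Prod.norm_def]
      exact max_le (df_small h').2.1 (df_small h').2.2)
    simp only [hX, χ0 u h1, zero_smul]
  obtain ⟨K, hK⟩ := Xs.lipschitzWith_of_hasCompactSupport Xc (by simp)
  obtain ⟨φ, h1, h2, h3, h4, h5⟩ := hF P X K Xs hK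
  have hm : ∀ t, ∀ u ∈ U, φ t u ∈ U := by
    intro t u hu
    have d1 : ∀ s, HasDerivAt (fun s => (φ s u).1) (χ (φ s u) • cr (ξ (φ s u)) (φ s u).1) s :=
      fun s => hd_fst (h4 u s)
    have d2 : ∀ s, HasDerivAt (fun s => (φ s u).2) (χ (φ s u) • cr (ξ (φ s u)) (φ s u).2) s :=
      fun s => hd_snd (h4 u s)
    have k : ∀ f g : ℝ → E, (∀ s, HasDerivAt f (χ (φ s u) • cr (ξ (φ s u)) (f s)) s) →
        (∀ s, HasDerivAt g (χ (φ s u) • cr (ξ (φ s u)) (g s)) s) → ⟪f t, g t⟫ = ⟪f 0, g 0⟫ := by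
      intro f g hf hg
      have hd : ∀ s, HasDerivAt (fun s => ⟪f s, g s⟫) 0 s := fun s => by
        refine (hasDerivAt_inner (hf s) (hg s)).congr_deriv ?_
        simp only [inner3, PiLp.smul_apply, smul_eq_mul, cr_0, cr_1, cr_2]; ring
      exact is_const_of_deriv_eq_zero (fun s => (hd s).differentiableAt) (fun s => (hd s).deriv) t 0
    have k1 := k _ _ d1 d1
    have k2 := k _ _ d2 d2
    have k3 := k _ _ d1 d2
    simp only [h2, real_inner_self_eq_norm_sq, hu.1, hu.2.1, hu.2.2] at k1 k2 k3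
    exact ⟨(pow_left_inj₀ (norm_nonneg _) zero_le_one two_ne_zero).1 k1,
      (pow_left_inj₀ (norm_nonneg _) zero_le_one two_ne_zero).1 k2, k3⟩
  refine ⟨φ, h1, h2, h3, hm, fun u hu t => ?_, fun c hc hd t => ?_⟩
  · have := h4 u t
    simpa only [hX, χ1 _ (hm t u hu), one_smul] using this
  · have hd' : ∀ t, HasDerivAt c (X (c t)) t := fun t => by
      simpa only [hX, χ1 _ (hc t), one_smul] using hd t
    have hcc : Continuous c := continuous_iff_continuousAt.2 fun t => (hd t).continuousAt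
    rcases le_total 0 t with h | h
    · simpa using h5 c 0 t h hcc.continuousOn (fun t _ => hd' t)
    · rw [h5 c t 0 h hcc.continuousOn (fun t _ => hd' t), ← h3]
      simp [h2]

end Geo

open Geo in
theorem geo_of (hF : FlowStmt) : GeoStmt := by
  intro L hL
  have hξ : ContDiffOn ℝ ∞ (xi (aa L) (bb L)) Ind :=
    ((aa_sm hL).smul (ContDiffOn.cr' contDiffOn_fst contDiffOn_snd)).add
      ((bb_sm hL).smul contDiffOn_fst)
  obtain ⟨φ, h1, h2, h3, h4, h5, h6⟩ := exists_flow hF hξ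
  refine ⟨φ, aa L, bb L, pp L, ⟨h1, h2, h3, h4, aa_sm hL, bb_sm hL,
    fun u h => aa_pos hL (U_sub_Ind h), h5, fun u hu t => ?_⟩, pp_sm hL, fun u h => podd hL h,
    fun u hu => ?_, fun u h => unit hL h, fun u h => one hL h, fun u h => crit hL h,
    fun u h => conv hL h, fun u h ζ => sub_eq_zero.1 (ker hL h ζ)⟩
  · have := h6 (fun s => rev (φ (-s) u)) (fun s => rev_mem_U (h4 _ u hu)) (fun s => by
      have d := (h5 u hu (-s)).scomp s (hasDerivAt_neg s)
      refine ((hd_fst d).prodMk (hd_snd d).neg).congr_deriv ?_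
      rw [xi_rev hL (h4 _ u hu)]
      simp [W, cr_neg_left, cr_neg_right]) t
    simpa [h2] using this.symm
  · have d : ∀ t, deriv (fun t => (φ t u).1) t = aa L (φ t u) • (φ t u).2 := fun t => by
      rw [(hd_fst (h5 u hu t)).deriv]; exact cr_xi (h4 t u hu)
    refine ⟨((h1.comp (contDiff_id.prodMk contDiff_const)).fst).of_le (by
      exact WithTop.coe_le_coe.2 le_top), fun t => ?_, fun t => ?_, fun t z hz => ?_⟩
    · rw [d]; exact nn_tan hL (h4 t u hu)
    · rw [d]; exact unit hL (h4 t u hu)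
    · have hv := h4 t u hu
      have e : (fun s => fderiv ℝ L ((φ s u).1, deriv (fun t => (φ t u).1) s) (0, z)) =
          fun s => ⟪gr L (nn L (φ s u)), z⟫ := by
        ext1 s; rw [d, inner_gr]; rfl
      have hd := hasDerivAt_inner (hasDerivAt_comp_W (c := fun s => φ s u)
        (diffAt_of_U (gn_sm hL) hv) (h5 u hu t)) (hasDerivAt_const t z)
      have ez : cr (cr (φ t u).1 z) (φ t u).1 = z := by
        rw [cr_cr_left, inner_self_U1 hv, real_inner_comm, hz]; simp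
      have k1 := key hL hv (cr (φ t u).1 z)
      have k2 := sub_eq_zero.1 (ker hL hv (cr (φ t u).1 z))
      rw [ez] at k1 k2
      rw [cr_xi hv] at k2
      rw [e, hd.deriv, d, dW_gn hL hv, cr_xi hv]
      unfold nn at k1
      rw [k1, ← k2, real_inner_comm _ z]
      simp only [inner_add_left, inner_smul_left, hz, conj_trivial, inner_zero_right]
      ring

end Pool.Agent.MP_2291e2_gt.Zl
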